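import Mathlib

/-!
# Fermionic Fock space of a finite set

`Fock K` has the orthonormal basis `ee S` (`S` a finite subset of `K`); `cr k` and `an k` are the
creation and annihilation operators, `dG M` is the second quantisation of the `K × K` matrix `M`.
-/

open Module

namespace Kost

noncomputable section

section Fock

variable {K : Type*} [Fintype K] [DecidableEq K]

/-- Fock space: the Hilbert space with orthonormal basis indexed by the subsets of `K`. -/
abbrev Fock (K : Type*) [Fintype K] [DecidableEq K] := EuclideanSpace ℂ (Finset K)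

/-- the basis vector of the subset `S` -/
def ee (S : Finset K) : Fock K := EuclideanSpace.single S 1

/-- position in a fixed enumeration of `K` -/
def posn (k : K) : ℕ := (Fintype.equivFin K k : ℕ)

theorem posn_inj {k l : K} (h : posn k = posn l) : k = l :=
  (Fintype.equivFin K).injective (Fin.ext h)

/-- the Jordan-Wigner sign -/
def sgn (k : K) (S : Finset K) : ℂ := (-1) ^ (S.filter (fun l => posn l < posn k)).card

theorem sgn_mul_self (k : K) (S : Finset K) : sgn k S * sgn k S = 1 := by
  unfold sgn
  rw [← mul_pow]; norm_num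

theorem sgn_insert_self (k : K) (S : Finset K) : sgn k (insert k S) = sgn k S := by
  unfold sgn
  rw [Finset.filter_insert, if_neg (lt_irrefl _)]

theorem sgn_erase_self (k : K) (S : Finset K) : sgn k (S.erase k) = sgn k S := by
  unfold sgn
  congr 2
  ext l
  simp only [Finset.mem_filter, Finset.mem_erase]
  constructor
  · rintro ⟨⟨_, h1⟩, h2⟩; exact ⟨h1, h2⟩
  · rintro ⟨h1, h2⟩; exact ⟨⟨fun h => by rw [h] at h2; exact lt_irrefl _ h2, h1⟩, h2⟩

theorem sgn_insert (k l : K) (S : Finset K) (hl : l ∉ S) :
    sgn k (insert l S) = if posn l < posn k then - sgn k S else sgn k S := by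
  unfold sgn
  rw [Finset.filter_insert]
  split_ifs with h
  · rw [Finset.card_insert_of_notMem (by simp [hl]), pow_succ]; ring
  · rfl

theorem sgn_erase (k l : K) (S : Finset K) (hl : l ∈ S) :
    sgn k (S.erase l) = if posn l < posn k then - sgn k S else sgn k S := by
  have h := sgn_insert k l (S.erase l) (Finset.notMem_erase l S)
  rw [Finset.insert_erase hl] at h
  rw [h]
  split_ifs <;> ring

/-- creation operator -/
def cr (k : K) : Module.End ℂ (Fock K) :=
  (EuclideanSpace.basisFun (Finset K) ℂ).toBasis.constr ℂ
    (fun S => if k ∈ S then 0 else sgn k S • ee (insert k S))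

/-- annihilation operator -/
def an (k : K) : Module.End ℂ (Fock K) :=
  (EuclideanSpace.basisFun (Finset K) ℂ).toBasis.constr ℂ
    (fun S => if k ∈ S then sgn k S • ee (S.erase k) else 0)

theorem cr_ee (k : K) (S : Finset K) :
    cr k (ee S) = if k ∈ S then 0 else sgn k S • ee (insert k S) := by
  have h := (EuclideanSpace.basisFun (Finset K) ℂ).toBasis.constr_basis ℂ
    (fun S => if k ∈ S then (0 : Fock K) else sgn k S • ee (insert k S)) S
  rw [OrthonormalBasis.coe_toBasis, EuclideanSpace.basisFun_apply] at h
  exact h

theorem an_ee (k : K) (S : Finset K) :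
    an k (ee S) = if k ∈ S then sgn k S • ee (S.erase k) else 0 := by
  have h := (EuclideanSpace.basisFun (Finset K) ℂ).toBasis.constr_basis ℂ
    (fun S => if k ∈ S then sgn k S • ee (S.erase k) else (0 : Fock K)) S
  rw [OrthonormalBasis.coe_toBasis, EuclideanSpace.basisFun_apply] at h
  exact h

/-- two operators agree if they agree on the basis -/
theorem end_ext {M : Type*} [AddCommGroup M] [Module ℂ M] {A B : Fock K →ₗ[ℂ] M}
    (h : ∀ S : Finset K, A (ee S) = B (ee S)) : A = B := by
  refine (EuclideanSpace.basisFun (Finset K) ℂ).toBasis.ext fun S => ?_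
  rw [OrthonormalBasis.coe_toBasis, EuclideanSpace.basisFun_apply]
  exact h S

theorem inner_ee (S T : Finset K) : inner ℂ (ee S) (ee T) = if S = T then (1 : ℂ) else 0 := by
  simp only [ee, EuclideanSpace.inner_single_left, map_one, one_mul]
  rw [PiLp.single_apply]

theorem ee_ne_zero (S : Finset K) : ee S ≠ 0 := by
  intro h
  have := inner_ee S S
  rw [h, inner_zero_left, if_pos rfl] at this
  exact zero_ne_one this

/-- vectors are determined by their inner products with the basis -/
theorem vec_ext {x y : Fock K} (h : ∀ S : Finset K, inner ℂ (ee S) x = inner ℂ (ee S) y) :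
    x = y := by
  ext S
  have h1 := h S
  simpa only [ee, EuclideanSpace.inner_single_left, map_one, one_mul] using h1

/-- expansion in the basis -/
theorem vec_expand (x : Fock K) : x = ∑ S : Finset K, inner ℂ (ee S) x • ee S := by
  conv_lhs => rw [← (EuclideanSpace.basisFun (Finset K) ℂ).sum_repr' x]
  simp only [EuclideanSpace.basisFun_apply]
  rfl

/-- an induction principle: it is enough to check additive, homogeneous statements on the basis -/
theorem vec_induction {p : Fock K → Prop} (h0 : p 0) (hadd : ∀ x y, p x → p y → p (x + y))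
    (hsmul : ∀ (c : ℂ) x, p x → p (c • x)) (hee : ∀ S, p (ee S)) (x : Fock K) : p x := by
  rw [vec_expand x]
  exact Finset.sum_induction _ p hadd h0 fun S _ => hsmul _ _ (hee S)

/-- creation and annihilation operators are adjoint -/
theorem inner_cr (k : K) (x y : Fock K) : inner ℂ (cr k x) y = inner ℂ x (an k y) := by
  induction x using vec_induction with
  | h0 => simp
  | hadd x x' hx hx' => simp only [map_add, inner_add_left, hx, hx']
  | hsmul c x hx => simp only [map_smul, inner_smul_left, hx]
  | hee S =>
    induction y using vec_induction with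
    | h0 => simp
    | hadd x x' hx hx' => simp only [map_add, inner_add_right, hx, hx']
    | hsmul c x hx => simp only [map_smul, inner_smul_right, hx]
    | hee T =>
      rw [cr_ee, an_ee]
      have hs : ∀ S : Finset K, (starRingEnd ℂ) (sgn k S) = sgn k S := by
        intro S; unfold sgn; simp
      by_cases hS : k ∈ S
      · by_cases hT : k ∈ T
        · rw [if_pos hS, if_pos hT, inner_zero_left, inner_smul_right, inner_ee, if_neg, mul_zero]
          intro h; rw [h] at hS; exact Finset.notMem_erase _ _ hS
        · rw [if_pos hS, if_neg hT, inner_zero_left, inner_zero_right]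
      · by_cases hT : k ∈ T
        · rw [if_neg hS, if_pos hT, inner_smul_left, inner_smul_right, inner_ee, inner_ee, hs]
          by_cases h : insert k S = T
          · rw [if_pos h, if_pos (by rw [← h, Finset.erase_insert hS]), ← h, sgn_insert_self]
          · rw [if_neg h, if_neg, mul_zero, mul_zero]
            intro h'; apply h; rw [h', Finset.insert_erase hT]
        · rw [if_neg hS, if_neg hT, inner_smul_left, inner_zero_right, inner_ee, if_neg, mul_zero]
          intro h; rw [← h] at hT; exact hT (Finset.mem_insert_self _ _)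

theorem inner_an (k : K) (x y : Fock K) : inner ℂ (an k x) y = inner ℂ x (cr k y) := by
  rw [← inner_conj_symm, ← inner_cr, inner_conj_symm]

theorem cr_cr (k l : K) : cr k * cr l + cr l * cr k = 0 := by
  refine end_ext fun S => ?_
  simp only [LinearMap.add_apply, Module.End.mul_apply, LinearMap.zero_apply, cr_ee]
  by_cases hk : k ∈ S <;> by_cases hl : l ∈ S <;> by_cases hkl : k = l
  all_goals try subst hkl
  all_goals simp_all [cr_ee, Finset.mem_insert]
  have hlk : ¬ l = k := fun h => hkl h.symm
  rw [if_neg hlk, Finset.insert_comm l k S, smul_smul, smul_smul, ← add_smul,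
    sgn_insert k l S hl, sgn_insert l k S hk]
  have : posn k ≠ posn l := fun h => hkl (posn_inj h)
  rcases lt_or_gt_of_ne this with h | h
  · rw [if_neg (not_lt.2 h.le), if_pos h]
    convert zero_smul ℂ _ using 2; ring
  · rw [if_pos h, if_neg (not_lt.2 (le_of_lt h))]
    convert zero_smul ℂ _ using 2; ring

theorem an_an (k l : K) : an k * an l + an l * an k = 0 := by
  refine LinearMap.ext fun x => ?_
  refine ext_inner_right ℂ fun y => ?_
  have h := LinearMap.congr_fun (cr_cr l k) y
  simp only [LinearMap.add_apply, Module.End.mul_apply, LinearMap.zero_apply] at h ⊢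
  rw [inner_add_left, inner_an, inner_an, inner_an, inner_an, ← inner_add_right, h,
    inner_zero_left, inner_zero_right]

theorem an_cr (k l : K) : an k * cr l + cr l * an k = if k = l then 1 else 0 := by
  refine end_ext fun S => ?_
  simp only [LinearMap.add_apply, Module.End.mul_apply, cr_ee, an_ee]
  by_cases hkl : k = l
  · subst hkl
    rw [if_pos rfl, Module.End.one_apply]
    by_cases hk : k ∈ S
    · rw [if_pos hk, if_pos hk, map_zero, map_smul, cr_ee, if_neg (Finset.notMem_erase _ _),
        zero_add, smul_smul, sgn_erase_self, sgn_mul_self, one_smul, Finset.insert_erase hk]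
    · rw [if_neg hk, if_neg hk, map_zero, map_smul, an_ee, if_pos (Finset.mem_insert_self _ _),
        add_zero, smul_smul, sgn_insert_self, sgn_mul_self, one_smul, Finset.erase_insert hk]
  · rw [if_neg hkl, LinearMap.zero_apply]
    by_cases hk : k ∈ S <;> by_cases hl : l ∈ S
    · rw [if_pos hk, if_pos hl, map_zero, map_smul, cr_ee,
        if_pos (Finset.mem_erase.2 ⟨fun h => hkl h.symm, hl⟩), smul_zero, add_zero]
    · rw [if_pos hk, if_neg hl, map_smul, map_smul, an_ee, cr_ee,
        if_pos (Finset.mem_insert_of_mem hk), if_neg (fun h => hl (Finset.mem_of_mem_erase h)),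
        smul_smul, smul_smul, Finset.erase_insert_of_ne (fun h => hkl h.symm), ← add_smul,
        sgn_insert k l S hl, sgn_erase l k S hk]
      have : posn k ≠ posn l := fun h => hkl (posn_inj h)
      rcases lt_or_gt_of_ne this with h | h
      · rw [if_neg (not_lt.2 h.le), if_pos h]
        convert zero_smul ℂ _ using 2; ring
      · rw [if_pos h, if_neg (not_lt.2 (le_of_lt h))]
        convert zero_smul ℂ _ using 2; ring
    · rw [if_neg hk, if_pos hl, map_zero, map_zero, add_zero]
    · rw [if_neg hk, if_neg hl, map_zero, map_smul, an_ee, if_neg, smul_zero, add_zero]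
      rw [Finset.mem_insert]; tauto

/-- second quantisation of a one-particle matrix -/
def dG (M : Matrix K K ℂ) : Module.End ℂ (Fock K) := ∑ i, ∑ j, M i j • (cr i * an j)

theorem dG_add (M N : Matrix K K ℂ) : dG (M + N) = dG M + dG N := by
  simp only [dG, Matrix.add_apply, add_smul, Finset.sum_add_distrib]

theorem dG_smul (c : ℂ) (M : Matrix K K ℂ) : dG (c • M) = c • dG M := by
  simp only [dG, Matrix.smul_apply, smul_eq_mul, Finset.smul_sum, smul_smul]

/-- second quantisation as a linear map -/
def dGl : Matrix K K ℂ →ₗ[ℂ] Module.End ℂ (Fock K) where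
  toFun := dG
  map_add' := dG_add
  map_smul' := dG_smul

theorem dG_sub (M N : Matrix K K ℂ) : dG (M - N) = dG M - dG N := dGl.map_sub M N
theorem dG_zero : dG (0 : Matrix K K ℂ) = 0 := dGl.map_zero

/-- products of three CAR generators -/
theorem cr_an_cr (i j k : K) : cr i * an j * cr k = (if j = k then cr i else 0) +
    cr k * (cr i * an j) := by
  have h1 := an_cr j k
  have h2 := cr_cr i k
  have h3 : an j * cr k = (if j = k then 1 else 0) - cr k * an j := by rw [← h1]; abel
  have h4 : cr i * cr k = - (cr k * cr i) := eq_neg_of_add_eq_zero_left h2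
  rw [mul_assoc, h3, mul_sub, ← mul_assoc, h4, neg_mul, sub_neg_eq_add, mul_assoc]
  congr 1
  split_ifs <;> simp

theorem cr_an_an (i j k : K) : cr i * an j * an k = an k * (cr i * an j) -
    (if i = k then an j else 0) := by
  have h1 := an_cr k i
  have h2 := an_an j k
  have h3 : an k * cr i = (if i = k then 1 else 0) - cr i * an k := by
    rw [eq_sub_iff_add_eq, h1]; simp only [eq_comm]
  have h4 : an j * an k = - (an k * an j) := eq_neg_of_add_eq_zero_left h2
  rw [mul_assoc, h4, ← mul_assoc (an k), h3, sub_mul, mul_assoc, mul_neg]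
  split_ifs <;> simp

theorem dG_cr (M : Matrix K K ℂ) (k : K) :
    dG M * cr k = cr k * dG M + ∑ i, M i k • cr i := by
  simp only [dG, Finset.sum_mul, Finset.mul_sum, smul_mul_assoc, mul_smul_comm, cr_an_cr, smul_add,
    Finset.sum_add_distrib]
  rw [add_comm]
  congr 1
  refine Finset.sum_congr rfl fun i _ => ?_
  rw [Finset.sum_eq_single k]
  · rw [if_pos rfl]
  · intro j _ hj; rw [if_neg hj, smul_zero]
  · intro h; exact absurd (Finset.mem_univ _) h

theorem dG_an (M : Matrix K K ℂ) (k : K) :
    dG M * an k = an k * dG M - ∑ j, M k j • an j := by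
  simp only [dG, Finset.sum_mul, Finset.mul_sum, smul_mul_assoc, mul_smul_comm, cr_an_an, smul_sub,
    Finset.sum_sub_distrib]
  congr 1
  rw [Finset.sum_comm]
  refine Finset.sum_congr rfl fun j _ => ?_
  rw [Finset.sum_eq_single k]
  · rw [if_pos rfl]
  · intro i _ hi; rw [if_neg hi, smul_zero]
  · intro h; exact absurd (Finset.mem_univ _) h

/-- `dG` is a homomorphism of Lie algebras -/
theorem dG_lie (M N : Matrix K K ℂ) : dG M * dG N - dG N * dG M = dG (M * N - N * M) := by
  have h1 : ∀ i j, dG M * (cr i * an j) = (cr i * an j) * dG M +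
      ((∑ k, M k i • cr k) * an j - cr i * ∑ k, M j k • an k) := by
    intro i j
    rw [← mul_assoc, dG_cr, add_mul, mul_assoc, dG_an, mul_sub, mul_assoc]
    abel
  have h2 : dG M * dG N = dG N * dG M + ∑ i, ∑ j, N i j • ((∑ k, M k i • cr k) * an j -
      cr i * ∑ k, M j k • an k) := by
    conv_lhs => rw [dG, dG] 
    rw [← dG]
    simp only [Finset.mul_sum, mul_smul_comm, h1, smul_add, Finset.sum_add_distrib]
    congr 1
    conv_rhs => rw [dG]
    simp only [Finset.sum_mul, smul_mul_assoc]
  rw [h2, add_sub_cancel_left, dG_sub]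
  simp only [smul_sub, Finset.sum_sub_distrib]
  congr 1
  · simp only [dG, Matrix.mul_apply, Finset.sum_mul, smul_mul_assoc, Finset.smul_sum, smul_smul,
      Finset.sum_smul]
    rw [Finset.sum_comm]
    conv_rhs => rw [Finset.sum_comm]
    refine Finset.sum_congr rfl fun j _ => ?_
    rw [Finset.sum_comm]
    refine Finset.sum_congr rfl fun k _ => Finset.sum_congr rfl fun i _ => ?_
    rw [mul_comm]
  · simp only [dG, Matrix.mul_apply, Finset.mul_sum, mul_smul_comm, Finset.smul_sum, smul_smul,
      Finset.sum_smul]
    refine Finset.sum_congr rfl fun i _ => ?_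
    rw [Finset.sum_comm]

/-- adjoint of `dG` -/
theorem inner_dG (M : Matrix K K ℂ) (x y : Fock K) :
    inner ℂ (dG M x) y = inner ℂ x (dG M.conjTranspose y) := by
  simp only [dG, LinearMap.sum_apply, LinearMap.smul_apply, Module.End.mul_apply, sum_inner,
    inner_sum, inner_smul_left, inner_smul_right, inner_cr, inner_an, Matrix.conjTranspose_apply]
  rw [Finset.sum_comm]
  rfl

/-- the vacuum -/
def vac : Fock K := ee ∅

theorem an_vac (k : K) : an k (vac : Fock K) = 0 := by
  rw [vac, an_ee, if_neg (Finset.notMem_empty k)]

theorem dG_vac (M : Matrix K K ℂ) : dG M (vac : Fock K) = 0 := by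
  simp [dG, an_vac]

/-- an operator commuting with all creation and annihilation operators is a scalar -/
theorem scalar_of_commute {A : Module.End ℂ (Fock K)} (h1 : ∀ k, A * cr k = cr k * A)
    (h2 : ∀ k, A * an k = an k * A) : ∃ c : ℂ, A = c • 1 := by
  have hv : A vac = inner ℂ (vac : Fock K) (A vac) • vac := by
    refine vec_ext fun S => ?_
    rw [inner_smul_right]
    by_cases hS : S = ∅
    · subst hS
      rw [show (ee ∅ : Fock K) = vac from rfl, vac, inner_ee, if_pos rfl, mul_one]
    · obtain ⟨k, hk⟩ := Finset.nonempty_iff_ne_empty.2 hS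
      have e1 : ee S = sgn k S • cr k (ee (S.erase k)) := by
        rw [cr_ee, if_neg (Finset.notMem_erase _ _), smul_smul, sgn_erase_self, sgn_mul_self,
          one_smul, Finset.insert_erase hk]
      rw [e1, inner_smul_left, inner_cr, inner_smul_left, inner_cr, an_vac, inner_zero_right,
        mul_zero, mul_zero]
      have e2 : an k (A vac) = 0 := by
        have := LinearMap.congr_fun (h2 k) vac
        simp only [Module.End.mul_apply] at this
        rw [← this, an_vac, map_zero]
      rw [e2, inner_zero_right, mul_zero]
  refine ⟨inner ℂ (vac : Fock K) (A vac), end_ext fun S => ?_⟩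
  rw [LinearMap.smul_apply, Module.End.one_apply]
  induction S using Finset.induction_on with
  | empty => exact hv
  | insert k S hk ih =>
    have e1 : ee (insert k S) = sgn k S • cr k (ee S) := by
      rw [cr_ee, if_neg hk, smul_smul, sgn_mul_self, one_smul]
    have e3 := LinearMap.congr_fun (h1 k) (ee S)
    simp only [Module.End.mul_apply] at e3
    rw [e1, map_smul, e3, ih, map_smul, smul_comm]

end Fock

end

end Kost
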