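import Pool.Agent.Kost.TensHW

/-!
# Bubble lemma (MP_869ec4): every basis vector is seen by the column vectors

For every finite `S` there is a vector `z` with the same eigenvector property as the column vector
`ee (colS (rc S) m)` and `⟨z, ee S⟩ ≠ 0`.
-/

open Module Matrix

attribute [local instance 100] LieRing.ofAssociativeRing

namespace Kost

noncomputable section

/-- row counts -/
def rc {J : Type*} [DecidableEq J] {m : ℕ} (S : Finset (J × Fin m)) (j : J) : ℕ := (S.filter (fun p => p.1 = j)).card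

section combinatorics
variable {J : Type*} [DecidableEq J] {m : ℕ}

/-- the move of the entries `(j, b)`, `j ∈ F`, to `(j, a)` -/
def mvf (a b : Fin m) (F : Finset J) (p : J × Fin m) : J × Fin m :=
  if p.1 ∈ F ∧ p.2 = b then (p.1, a) else p

/-- the moved set -/
def mvS (a b : Fin m) (F : Finset J) (S : Finset (J × Fin m)) : Finset (J × Fin m) :=
  S.image (mvf a b F)

/-- the movable rows -/
def Fmv (a b : Fin m) (G : Finset J) (S : Finset (J × Fin m)) : Finset J :=
  G.filter fun j => (j, b) ∈ S ∧ (j, a) ∉ S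

theorem mvf_fst (a b : Fin m) (F : Finset J) (p : J × Fin m) : (mvf a b F p).1 = p.1 := by
  unfold mvf
  split_ifs <;> rfl

theorem mvf_injOn (a b : Fin m) (F : Finset J) (S : Finset (J × Fin m))
    (h : ∀ j ∈ F, (j, a) ∉ S) : Set.InjOn (mvf a b F) (S : Set (J × Fin m)) := by
  rintro ⟨j, c⟩ hp ⟨k, d⟩ hq hpq
  have h1 : j = k := by
    have := congrArg Prod.fst hpq
    rwa [mvf_fst, mvf_fst] at this
  subst h1
  unfold mvf at hpq
  simp only at hpq
  by_cases hj : j ∈ F
  · simp only [hj, true_and] at hpq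
    by_cases hc : c = b <;> by_cases hd : d = b
    · rw [hc, hd]
    · rw [if_pos hc, if_neg hd] at hpq
      have : a = d := (Prod.mk.injEq _ _ _ _ ▸ hpq).2
      rw [← this] at hq
      exact absurd hq (h j hj)
    · rw [if_neg hc, if_pos hd] at hpq
      have : c = a := (Prod.mk.injEq _ _ _ _ ▸ hpq).2
      rw [this] at hp
      exact absurd hp (h j hj)
    · rw [if_neg hc, if_neg hd] at hpq
      exact hpq
  · simp only [hj, false_and, if_false] at hpq
    exact hpq

theorem mem_mvS (a b : Fin m) (F : Finset J) (S : Finset (J × Fin m)) (hab : a ≠ b)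
    (h : ∀ j ∈ F, (j, b) ∈ S) (j : J) (c : Fin m) :
    (j, c) ∈ mvS a b F S ↔ if j ∈ F then (c = a ∨ ((j, c) ∈ S ∧ c ≠ b)) else (j, c) ∈ S := by
  unfold mvS
  rw [Finset.mem_image]
  constructor
  · rintro ⟨⟨k, d⟩, hk, hkd⟩
    have h1 : k = j := by
      have := congrArg Prod.fst hkd
      rwa [mvf_fst] at this
    subst h1
    unfold mvf at hkd
    simp only at hkd
    by_cases hj : k ∈ F
    · rw [if_pos hj]
      simp only [hj, true_and] at hkd
      by_cases hd : d = b
      · rw [if_pos hd] at hkd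
        exact Or.inl (Prod.mk.injEq _ _ _ _ ▸ hkd).2.symm
      · rw [if_neg hd] at hkd
        have : d = c := (Prod.mk.injEq _ _ _ _ ▸ hkd).2
        subst this
        exact Or.inr ⟨hk, hd⟩
    · rw [if_neg hj]
      simp only [hj, false_and, if_false] at hkd
      rw [← hkd]
      exact hk
  · intro hc
    by_cases hj : j ∈ F
    · rw [if_pos hj] at hc
      rcases hc with rfl | ⟨hc, hcb⟩
      · exact ⟨(j, b), h j hj, by simp [mvf, hj]⟩
      · exact ⟨(j, c), hc, by simp [mvf, hcb]⟩
    · rw [if_neg hj] at hc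
      exact ⟨(j, c), hc, by simp [mvf, hj]⟩

theorem mvS_empty (a b : Fin m) (S : Finset (J × Fin m)) : mvS a b ∅ S = S := by
  unfold mvS
  rw [show mvf a b (∅ : Finset J) = id from funext fun p => by simp [mvf], Finset.image_id]

theorem mvS_insert (a b : Fin m) (hab : a ≠ b) (F : Finset J) (i : J) (hi : i ∉ F)
    (S : Finset (J × Fin m)) (h : ∀ j ∈ insert i F, (j, b) ∈ S) :
    mvS a b (insert i F) S = insert (i, a) ((mvS a b F S).erase (i, b)) := by
  ext ⟨j, c⟩
  rw [mem_mvS a b _ S hab h, Finset.mem_insert (a := (j, c)), Finset.mem_erase,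
    mem_mvS a b F S hab (fun j hj => h j (Finset.mem_insert_of_mem hj))]
  by_cases hji : j = i
  · subst hji
    rw [if_pos (Finset.mem_insert_self _ _), if_neg hi]
    simp only [Prod.mk.injEq, true_and, ne_eq]
    tauto
  · have h2 : (j ∈ insert i F) ↔ j ∈ F := by simp [hji]
    simp only [h2, Prod.mk.injEq, hji, false_and, ne_eq, not_false_eq_true, true_and, false_or]

theorem rc_mvS (a b : Fin m) (F : Finset J) (S : Finset (J × Fin m))
    (h : ∀ j ∈ F, (j, a) ∉ S) : rc (mvS a b F S) = rc S := by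
  funext j
  unfold rc mvS
  rw [Finset.filter_image, Finset.card_image_of_injOn]
  · simp only [mvf_fst]
  · intro p hp q hq hpq
    simp only [mvf_fst, Finset.coe_filter, Set.mem_ofPred_eq] at hp hq
    exact mvf_injOn a b F S h hp.1 hq.1 hpq

theorem sum_mvS (a b : Fin m) (F : Finset J) (S : Finset (J × Fin m)) (hab : (a : ℕ) < b)
    (hF : F.Nonempty) (h1 : ∀ j ∈ F, (j, b) ∈ S) (h : ∀ j ∈ F, (j, a) ∉ S) :
    ∑ p ∈ mvS a b F S, (p.2 : ℕ) < ∑ p ∈ S, (p.2 : ℕ) := by
  unfold mvS
  rw [Finset.sum_image (mvf_injOn a b F S h)]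
  obtain ⟨j, hj⟩ := hF
  refine Finset.sum_lt_sum (fun p _ => ?_) ⟨(j, b), h1 j hj, ?_⟩
  · unfold mvf
    split_ifs with hp
    · rw [hp.2]
      exact hab.le
    · exact le_rfl
  · unfold mvf
    rw [if_pos ⟨hj, rfl⟩]
    exact hab

theorem eq_colS [Fintype J] (S : Finset (J × Fin m))
    (h : ∀ (j : J) (a b : Fin m), (b : ℕ) = a + 1 → (j, b) ∈ S → (j, a) ∈ S) :
    S = colS (rc S) m := by
  have hdown : ∀ (j : J) (k : ℕ) (a b : Fin m), (b : ℕ) = a + k → (j, b) ∈ S → (j, a) ∈ S := by
    intro j k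
    induction k with
    | zero =>
      intro a b hk hb
      have : a = b := Fin.ext (by omega)
      rwa [this]
    | succ k ih =>
      intro a b hk hb
      have hb' : (b : ℕ) - 1 < m := by omega
      exact ih a ⟨(b : ℕ) - 1, hb'⟩ (by simp only; omega)
        (h j ⟨(b : ℕ) - 1, hb'⟩ b (by simp only; omega) hb)
  have hcard : ∀ j, rc S j = (Finset.univ.filter fun c : Fin m => (j, c) ∈ S).card := by
    intro j
    unfold rc
    symm
    refine Finset.card_bij (fun c _ => (j, c)) ?_ ?_ ?_
    · intro c hc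
      simp only [Finset.mem_filter, Finset.mem_univ, true_and] at hc ⊢
      exact ⟨hc, trivial⟩
    · intro c _ d _ hcd
      exact (Prod.mk.injEq _ _ _ _ ▸ hcd).2
    · rintro ⟨k, c⟩ hk
      simp only [Finset.mem_filter] at hk
      obtain ⟨hk, rfl⟩ := hk
      exact ⟨c, by simpa using hk, rfl⟩
  ext ⟨j, c⟩
  rw [mem_colS, hcard]
  constructor
  · intro hc
    have h1 : (Finset.univ.filter fun d : Fin m => (d : ℕ) < (c : ℕ) + 1) ⊆
        Finset.univ.filter fun d : Fin m => (j, d) ∈ S := by
      intro d hd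
      simp only [Finset.mem_filter, Finset.mem_univ, true_and] at hd ⊢
      exact hdown j ((c : ℕ) - d) d c (by omega) hc
    have h2 := Finset.card_le_card h1
    rw [Fin.card_filter_val_lt] at h2
    have := c.isLt
    omega
  · intro hc
    by_contra hn
    have h1 : (Finset.univ.filter fun d : Fin m => (j, d) ∈ S) ⊆
        (Finset.univ.filter fun d : Fin m => (d : ℕ) < (c : ℕ)) := by
      intro d hd
      simp only [Finset.mem_filter, Finset.mem_univ, true_and] at hd ⊢
      by_contra hcd
      exact hn (hdown j ((d : ℕ) - c) c d (by omega) hd)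
    have h2 := Finset.card_le_card h1
    rw [Fin.card_filter_val_lt] at h2
    omega

end combinatorics

theorem pow_add_sq_zero {R : Type*} [Ring R] (x D : R) (hn : x * x = 0) (hc : x * D = D * x)
    (k : ℕ) : (x + D) ^ (k + 1) = D ^ (k + 1) + (k + 1) • (x * D ^ k) := by
  induction k with
  | zero => simp [add_comm]
  | succ k ih =>
    rw [pow_succ' (x + D), ih, add_mul, mul_add, mul_add, mul_smul_comm, mul_smul_comm,
      ← mul_assoc x x, hn, zero_mul, smul_zero, add_zero, ← mul_assoc D x, ← hc, mul_assoc x D,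
      ← pow_succ', ← pow_succ', succ_nsmul (x * D ^ (k + 1)) (k + 1)]
    abel

section
variable {J : Type*} [Fintype J] [DecidableEq J] {m : ℕ}

/-- the elementary move -/
def nmv (a b : Fin m) (j : J) : Module.End ℂ (Fock (J × Fin m)) := cr (j, a) * an (j, b)

theorem nmv_comm (a b : Fin m) (hab : a ≠ b) (i j : J) :
    nmv a b i * nmv a b j = nmv a b j * nmv a b i := by
  unfold nmv
  have h1 : ((i, b) : J × Fin m) ≠ (j, a) := fun h => hab (Prod.mk.injEq _ _ _ _ ▸ h).2.symm
  have h2 : ((i, a) : J × Fin m) ≠ (j, b) := fun h => hab (Prod.mk.injEq _ _ _ _ ▸ h).2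
  rw [← mul_assoc (cr (i, a) * an (i, b)), cr_an_cr, if_neg h1, zero_add, mul_assoc, cr_an_an,
    if_neg h2, sub_zero, ← mul_assoc]

theorem nmv_sq (a b : Fin m) (hab : a ≠ b) (i : J) : nmv a b i * nmv a b i = 0 := by
  unfold nmv
  have h1 : ((i, b) : J × Fin m) ≠ (i, a) := fun h => hab (Prod.mk.injEq _ _ _ _ ▸ h).2.symm
  rw [← mul_assoc (cr (i, a) * an (i, b)), cr_an_cr, if_neg h1, zero_add, ← mul_assoc (cr (i, a))]
  have h2 : (cr (i, a) * cr (i, a) : Module.End ℂ (Fock (J × Fin m))) = 0 := by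
    refine end_ext fun S => ?_
    rw [Module.End.mul_apply, cr_ee, LinearMap.zero_apply]
    split_ifs
    · rw [map_zero]
    · rw [map_smul, cr_ee, if_pos (Finset.mem_insert_self _ _), smul_zero]
  rw [h2, zero_mul, zero_mul]

theorem nmv_zero (a b : Fin m) (hab : a ≠ b) (i : J) (T : Finset (J × Fin m))
    (h : ¬ ((i, b) ∈ T ∧ (i, a) ∉ T)) : nmv a b i (ee T) = 0 := by
  unfold nmv
  rw [Module.End.mul_apply, an_ee]
  split_ifs with h1
  · have h2 : (i, a) ∈ T := by
      by_contra h2
      exact h ⟨h1, h2⟩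
    have h3 : ((i, a) : J × Fin m) ≠ (i, b) := fun h => hab (Prod.mk.injEq _ _ _ _ ▸ h).2
    rw [map_smul, cr_ee, if_pos (Finset.mem_erase.mpr ⟨h3, h2⟩), smul_zero]
  · rw [map_zero]

theorem sgn_ne_zero {K : Type*} [Fintype K] [DecidableEq K] (k : K) (S : Finset K) :
    sgn k S ≠ 0 := by
  intro h
  have := sgn_mul_self k S
  rw [h, mul_zero] at this
  exact zero_ne_one this

theorem nmv_move (a b : Fin m) (i : J) (T : Finset (J × Fin m))
    (h1 : (i, b) ∈ T) (h2 : (i, a) ∉ T) : ∃ s : ℂ, s ≠ 0 ∧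
      nmv a b i (ee T) = s • ee (insert (i, a) (T.erase (i, b))) := by
  refine ⟨sgn (i, b) T * sgn (i, a) (T.erase (i, b)), mul_ne_zero (sgn_ne_zero _ _)
    (sgn_ne_zero _ _), ?_⟩
  unfold nmv
  rw [Module.End.mul_apply, an_ee, if_pos h1, map_smul, cr_ee, if_neg, smul_smul]
  exact fun h => h2 (Finset.mem_of_mem_erase h)

theorem pow_move (a b : Fin m) (hab : a ≠ b) (T : Finset (J × Fin m)) (G : Finset J) :
    ∃ c : ℂ, c ≠ 0 ∧ ((∑ j ∈ G, nmv a b j) ^ (Fmv a b G T).card) (ee T) =
      c • ee (mvS a b (Fmv a b G T) T) := by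
  induction G using Finset.induction_on with
  | empty =>
    refine ⟨1, one_ne_zero, ?_⟩
    have : Fmv a b (∅ : Finset J) T = ∅ := by simp [Fmv]
    rw [this, Finset.card_empty, pow_zero, mvS_empty, one_smul, Module.End.one_apply]
  | insert i G hi ih =>
    obtain ⟨c, hc, hc2⟩ := ih
    rw [Finset.sum_insert hi]
    set D := ∑ j ∈ G, nmv a b j with hD
    have hcomm : nmv a b i * D = D * nmv a b i := by
      rw [hD, Finset.mul_sum, Finset.sum_mul]
      exact Finset.sum_congr rfl fun j _ => nmv_comm a b hab i j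
    by_cases hm : (i, b) ∈ T ∧ (i, a) ∉ T
    · have hF : Fmv a b (insert i G) T = insert i (Fmv a b G T) := by
        unfold Fmv
        rw [Finset.filter_insert, if_pos hm]
      have hiF : i ∉ Fmv a b G T := fun h => hi (Finset.mem_filter.mp h).1
      have hFb : ∀ j ∈ Fmv a b G T, (j, b) ∈ T := fun j hj => (Finset.mem_filter.mp hj).2.1
      have hFb' : ∀ j ∈ insert i (Fmv a b G T), (j, b) ∈ T := by
        intro j hj
        rcases Finset.mem_insert.mp hj with rfl | hj
        · exact hm.1
        · exact hFb j hj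
      have hib : (i, b) ∈ mvS a b (Fmv a b G T) T := by
        rw [mem_mvS a b _ T hab hFb, if_neg hiF]
        exact hm.1
      have hia : (i, a) ∉ mvS a b (Fmv a b G T) T := by
        rw [mem_mvS a b _ T hab hFb, if_neg hiF]
        exact hm.2
      obtain ⟨s, hs, hs2⟩ := nmv_move a b i _ hib hia
      have hD0 : D (ee (mvS a b (Fmv a b G T) T)) = 0 := by
        rw [hD, LinearMap.sum_apply]
        refine Finset.sum_eq_zero fun j hj => nmv_zero a b hab j _ ?_
        rw [mem_mvS a b _ T hab hFb, mem_mvS a b _ T hab hFb]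
        by_cases hjF : j ∈ Fmv a b G T
        · rw [if_pos hjF, if_pos hjF]
          rintro ⟨_, h2⟩
          exact h2 (Or.inl rfl)
        · rw [if_neg hjF, if_neg hjF]
          intro h2
          exact hjF (Finset.mem_filter.mpr ⟨hj, h2⟩)
      refine ⟨(((Fmv a b G T).card + 1 : ℕ) : ℂ) * (c * s),
        mul_ne_zero (Nat.cast_ne_zero.mpr (Nat.succ_ne_zero _)) (mul_ne_zero hc hs), ?_⟩
      rw [hF, Finset.card_insert_of_notMem hiF, pow_add_sq_zero _ D (nmv_sq a b hab i) hcomm,
        LinearMap.add_apply, pow_succ', Module.End.mul_apply, hc2, map_smul, hD0, smul_zero,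
        zero_add, mvS_insert a b hab _ i hiF T hFb', LinearMap.smul_apply, Module.End.mul_apply,
        hc2, map_smul, hs2, smul_smul, ← Nat.cast_smul_eq_nsmul ℂ, smul_smul]
    · have hF : Fmv a b (insert i G) T = Fmv a b G T := by
        unfold Fmv
        rw [Finset.filter_insert, if_neg hm]
      have h0 := nmv_zero a b hab i T hm
      rw [hF]
      refine ⟨c, hc, ?_⟩
      rw [← hc2]
      cases (Fmv a b G T).card with
      | zero => rw [pow_zero, pow_zero]
      | succ k =>
        have hcomm2 : nmv a b i * D ^ k = D ^ k * nmv a b i := (Commute.pow_right hcomm k)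
        rw [pow_add_sq_zero _ D (nmv_sq a b hab i) hcomm, hcomm2, LinearMap.add_apply,
          LinearMap.smul_apply, Module.End.mul_apply, h0, map_zero, smul_zero, add_zero]

theorem bubble {J : Type*} [Fintype J] [DecidableEq J] {m : ℕ} (S : Finset (J × Fin m)) :
    ∃ z : Fock (J × Fin m), (∀ (X : Matrix J J ℂ) (c : ℂ),
        tens m X (ee (colS (rc S) m)) = c • ee (colS (rc S) m) → tens m X z = c • z) ∧
      inner ℂ z (ee S) ≠ 0 := by
  induction hN : ∑ p ∈ S, (p.2 : ℕ) using Nat.strong_induction_on generalizing S with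
  | _ N ih =>
    by_cases h : ∀ (j : J) (a b : Fin m), (b : ℕ) = a + 1 → (j, b) ∈ S → (j, a) ∈ S
    · have hS := eq_colS S h
      refine ⟨ee S, ?_, ?_⟩
      · rw [← hS]
        exact fun X c hX => hX
      · rw [inner_ee, if_pos rfl]
        exact one_ne_zero
    · push Not at h
      obtain ⟨j₀, a, b, hb, hj1, hj2⟩ := h
      have hlt : (a : ℕ) < b := by omega
      have hab : a ≠ b := fun h => by rw [h] at hlt; exact lt_irrefl _ hlt
      have hF1 : ∀ j ∈ Fmv a b Finset.univ S, (j, b) ∈ S := fun j hj => (Finset.mem_filter.mp hj).2.1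
      have hF2 : ∀ j ∈ Fmv a b Finset.univ S, (j, a) ∉ S := fun j hj => (Finset.mem_filter.mp hj).2.2
      have hne : (Fmv a b Finset.univ S).Nonempty :=
        ⟨j₀, Finset.mem_filter.mpr ⟨Finset.mem_univ _, hj1, hj2⟩⟩
      obtain ⟨z', hz1, hz2⟩ := ih _ (hN ▸ sum_mvS a b _ S hlt hne hF1 hF2) _ rfl
      rw [rc_mvS a b _ S hF2] at hz1
      obtain ⟨c, hc, hc2⟩ := pow_move a b hab S Finset.univ
      have hDop : (∑ j : J, nmv a b j : Module.End ℂ (Fock (J × Fin m))) = Dop a b := rfl
      rw [hDop] at hc2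
      refine ⟨((Dop b a) ^ (Fmv a b Finset.univ S).card) z', ?_, ?_⟩
      · intro X d hX
        have h1 : Commute (tens m X) ((Dop b a) ^ (Fmv a b Finset.univ S).card) :=
          (show Commute (tens m X) (Dop b a) from (Dop_comm b a X).symm).pow_right _
        have h2 := LinearMap.congr_fun h1.eq z'
        rw [Module.End.mul_apply, Module.End.mul_apply] at h2
        rw [h2, hz1 X d hX, map_smul]
      · have hadj : ∀ (k : ℕ) (u v : Fock (J × Fin m)),
            inner ℂ (((Dop b a) ^ k) u) v = inner ℂ u (((Dop a b) ^ k) v) := by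
          intro k
          induction k with
          | zero => intro u v; rw [pow_zero, pow_zero]; rfl
          | succ k ihk =>
            intro u v
            rw [pow_succ, pow_succ', Module.End.mul_apply, Module.End.mul_apply, ihk, Dop_adj]
        rw [hadj, hc2, inner_smul_right]
        exact mul_ne_zero hc hz2

end

end

end Kost
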