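import Pool.Agent.Kost.CDmat

/-!
# Brackets of root matrices (MP_869ec4)
-/

open Module Matrix

attribute [local instance 100] LieRing.ofAssociativeRing

namespace Kost.QDt

noncomputable section

set_option linter.unusedSimpArgs false
set_option linter.unusedTactic false
set_option linter.unreachableTactic false

variable {n b : ℕ}

/-- commutator -/
def Br {J : Type*} [Fintype J] [DecidableEq J] (X Y : Matrix J J ℂ) : Matrix J J ℂ :=
  X * Y - Y * X

theorem eA_conjTranspose (i j : Fin n) : (eA i j : Matrix (Idx n b) (Idx n b) ℂ)ᴴ = eA j i := by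
  rw [eA, conjTranspose_sub, EM_conjTranspose, EM_conjTranspose, eA]

theorem eA_self (i : Fin n) : (eA i i : Matrix (Idx n b) (Idx n b) ℂ) = Hm i := rfl

/-- indicator -/
abbrev ind (p : Prop) [Decidable p] : ℂ := if p then 1 else 0

theorem EM_mul_EM' {J : Type*} [Fintype J] [DecidableEq J] (p q r s : J) :
    EM p q * EM r s = ind (q = r) • EM p s := by
  rw [EM_mul_EM]; split_ifs <;> simp [ind]

theorem Br_eA_eA (i j k l : Fin n) : Br (eA i j : Matrix (Idx n b) (Idx n b) ℂ) (eA k l) =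
    ind (j = k) • eA i l - ind (i = l) • eA k j := by
  have h1 : (l = i) ↔ (i = l) := eq_comm
  have h2 : (k = j) ↔ (j = k) := eq_comm
  simp only [Br, eA, sub_mul, mul_sub, EM_mul_EM', Idx.x.injEq, Idx.y.injEq, reduceCtorEq,
    if_false, zero_smul, ind, h1, h2]
  split_ifs <;> module

theorem Br_Hm_eA (j i k : Fin n) : Br (Hm j : Matrix (Idx n b) (Idx n b) ℂ) (eA i k) =
    (ind (j = i) - ind (j = k)) • eA i k := by
  rw [← eA_self, Br_eA_eA]
  by_cases h1 : j = i
  · by_cases h2 : j = k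
    · subst h1; subst h2; simp [ind]
    · subst h1; simp [ind, h2]
  · by_cases h2 : j = k
    · subst h2; simp [ind, h1]
    · simp [ind, h1, h2]

/-! type B -/

theorem eC_conjTranspose (i : Fin n) (k : Fin b) :
    (eC i k : Matrix (Idx n b) (Idx n b) ℂ)ᴴ = EM (.z k) (.x i) - EM (.y i) (.z k) := by
  rw [eC, conjTranspose_sub, EM_conjTranspose, EM_conjTranspose]

theorem Br_Hm_eC (j i : Fin n) (k : Fin b) : Br (Hm j : Matrix (Idx n b) (Idx n b) ℂ) (eC i k) =
    ind (j = i) • eC i k := by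
  simp only [Br, eC, Hm, sub_mul, mul_sub, EM_mul_EM', Idx.x.injEq, Idx.y.injEq, Idx.z.injEq,
    reduceCtorEq, if_false, zero_smul, ind]
  by_cases h1 : j = i
  · subst h1; simp
  · simp [h1, Ne.symm h1]

theorem Br_eA_eC (i j m : Fin n) (k : Fin b) : Br (eA i j : Matrix (Idx n b) (Idx n b) ℂ) (eC m k) =
    ind (j = m) • eC i k := by
  simp only [Br, eC, eA, sub_mul, mul_sub, EM_mul_EM', Idx.x.injEq, Idx.y.injEq, Idx.z.injEq,
    reduceCtorEq, if_false, zero_smul, ind]
  by_cases h1 : j = m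
  · subst h1; simp
  · simp [h1, Ne.symm h1]

theorem Br_eA_eC_T (i j m : Fin n) (k : Fin b) :
    Br (eA i j : Matrix (Idx n b) (Idx n b) ℂ) ((eC m k)ᴴ) = -ind (i = m) • (eC j k)ᴴ := by
  rw [eC_conjTranspose, eC_conjTranspose]
  simp only [Br, eA, sub_mul, mul_sub, EM_mul_EM', Idx.x.injEq, Idx.y.injEq, Idx.z.injEq,
    reduceCtorEq, if_false, zero_smul, ind]
  by_cases h1 : i = m
  · subst h1; simp <;> abel
  · simp [h1, Ne.symm h1]

theorem Br_eC_eA (i j m : Fin n) (k : Fin b) : Br (eC m k : Matrix (Idx n b) (Idx n b) ℂ) (eA i j) =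
    -ind (j = m) • eC i k := by
  have h := Br_eA_eC (b := b) i j m k
  rw [neg_smul, ← h, Br, Br, neg_sub]

theorem Br_eC_eC_T (i : Fin n) (k : Fin b) :
    Br (eC i k : Matrix (Idx n b) (Idx n b) ℂ) ((eC i k)ᴴ) = Hm i := by
  rw [eC_conjTranspose]
  simp only [Br, eC, Hm, sub_mul, mul_sub, EM_mul_EM', Idx.x.injEq, Idx.y.injEq, Idx.z.injEq,
    reduceCtorEq, if_false, zero_smul, ind, if_true, one_smul]
  abel

theorem Br_eC_eC (i j : Fin n) (k : Fin b) :
    Br (eC i k : Matrix (Idx n b) (Idx n b) ℂ) (eC j k) = -eB i j := by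
  simp only [Br, eC, eB, sub_mul, mul_sub, EM_mul_EM', Idx.x.injEq, Idx.y.injEq, Idx.z.injEq,
    reduceCtorEq, if_false, zero_smul, ind, if_true, one_smul]
  abel

/-! type C -/

theorem Br_Hm_eL (j i : Fin n) : Br (Hm j : Matrix (Idx n b) (Idx n b) ℂ) (EM (.x i) (.y i)) =
    (2 * ind (j = i)) • EM (.x i) (.y i) := by
  simp only [Br, Hm, sub_mul, mul_sub, EM_mul_EM', Idx.x.injEq, Idx.y.injEq, Idx.z.injEq,
    reduceCtorEq, if_false, zero_smul, ind]
  by_cases h1 : j = i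
  · subst h1; simp only [if_true, one_smul, sub_zero, zero_sub, mul_one]; module
  · simp [h1, Ne.symm h1]

theorem Br_eA_eL (i j m : Fin n) : Br (eA i j : Matrix (Idx n b) (Idx n b) ℂ) (EM (.x m) (.y m)) =
    ind (j = m) • eS i m := by
  simp only [Br, eA, eS, sub_mul, mul_sub, EM_mul_EM', Idx.x.injEq, Idx.y.injEq, Idx.z.injEq,
    reduceCtorEq, if_false, zero_smul, ind]
  by_cases h1 : j = m
  · subst h1; simp
  · simp [h1, Ne.symm h1]

theorem Br_eA_eL_T (i j m : Fin n) : Br (eA i j : Matrix (Idx n b) (Idx n b) ℂ)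
    (EM (.y m) (.x m)) = -ind (i = m) • (eS j m)ᵀ := by
  simp only [Br, eA, eS, sub_mul, mul_sub, EM_mul_EM', Idx.x.injEq, Idx.y.injEq, Idx.z.injEq,
    reduceCtorEq, if_false, zero_smul, ind, transpose_add, EM_transpose]
  by_cases h1 : i = m
  · subst h1; simp <;> abel
  · simp [h1, Ne.symm h1]

theorem Br_eL_eA (i j m : Fin n) : Br (EM (.x m) (.y m) : Matrix (Idx n b) (Idx n b) ℂ) (eA i j) =
    -ind (j = m) • eS i m := by
  have h := Br_eA_eL (b := b) i j m
  rw [neg_smul, ← h, Br, Br, neg_sub]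

theorem Br_eL_eL_T (i : Fin n) : Br (EM (.x i) (.y i) : Matrix (Idx n b) (Idx n b) ℂ)
    (EM (.y i) (.x i)) = Hm i := by
  simp only [Br, Hm, EM_mul_EM', ind, if_true, one_smul]

theorem Br_eA_eS (i m j : Fin n) (h : j ≠ m) :
    Br (eA i m : Matrix (Idx n b) (Idx n b) ℂ) (eS j m) = eS i j := by
  simp only [Br, eA, eS, sub_mul, mul_sub, add_mul, mul_add, EM_mul_EM', Idx.x.injEq, Idx.y.injEq,
    reduceCtorEq, if_false, zero_smul, ind, if_true, one_smul, h, h.symm]
  abel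

/-! type D -/

theorem eB_conjTranspose (i j : Fin n) :
    (eB i j : Matrix (Idx n b) (Idx n b) ℂ)ᴴ = EM (.y j) (.x i) - EM (.y i) (.x j) := by
  rw [eB, conjTranspose_sub, EM_conjTranspose, EM_conjTranspose]

theorem eB_symm (i j : Fin n) : (eB i j : Matrix (Idx n b) (Idx n b) ℂ) = -eB j i := by
  rw [eB, eB, neg_sub]

theorem Br_Hm_eB (j i k : Fin n) : Br (Hm j : Matrix (Idx n b) (Idx n b) ℂ) (eB i k) =
    (ind (j = i) + ind (j = k)) • eB i k := by
  simp only [Br, eB, Hm, sub_mul, mul_sub, EM_mul_EM', Idx.x.injEq, Idx.y.injEq, Idx.z.injEq,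
    reduceCtorEq, if_false, zero_smul, ind]
  by_cases h1 : j = i
  · by_cases h2 : j = k
    · subst h1; subst h2; simp
    · subst h1; simp [h2, Ne.symm h2]
  · by_cases h2 : j = k
    · subst h2; simp [h1, Ne.symm h1]; abel
    · simp [h1, h2, Ne.symm h1, Ne.symm h2]

theorem Br_eA_eB (i j k l : Fin n) : Br (eA i j : Matrix (Idx n b) (Idx n b) ℂ) (eB k l) =
    ind (j = k) • eB i l + ind (j = l) • eB k i := by
  simp only [Br, eB, eA, sub_mul, mul_sub, EM_mul_EM', Idx.x.injEq, Idx.y.injEq, Idx.z.injEq,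
    reduceCtorEq, if_false, zero_smul, ind]
  by_cases h1 : j = k
  · by_cases h2 : j = l
    · subst h1; subst h2; simp
    · subst h1; simp [h2, Ne.symm h2]
  · by_cases h2 : j = l
    · subst h2; simp [h1, Ne.symm h1]; abel
    · simp [h1, h2, Ne.symm h1, Ne.symm h2]

theorem Br_eA_eB_T (i j k l : Fin n) : Br (eA i j : Matrix (Idx n b) (Idx n b) ℂ) ((eB k l)ᴴ) =
    -(ind (i = k) • (eB j l)ᴴ + ind (i = l) • (eB k j)ᴴ) := by
  simp only [eB_conjTranspose]
  simp only [Br, eA, sub_mul, mul_sub, EM_mul_EM', Idx.x.injEq, Idx.y.injEq, Idx.z.injEq,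
    reduceCtorEq, if_false, zero_smul, ind]
  by_cases h1 : i = k
  · by_cases h2 : i = l
    · subst h1; subst h2; simp <;> abel
    · subst h1; simp [h2, Ne.symm h2] <;> abel
  · by_cases h2 : i = l
    · subst h2; simp [h1, Ne.symm h1] <;> abel
    · simp [h1, h2, Ne.symm h1, Ne.symm h2]

theorem Br_eB_eB_T (i j : Fin n) (h : i ≠ j) :
    Br (eB i j : Matrix (Idx n b) (Idx n b) ℂ) ((eB i j)ᴴ) = Hm i + Hm j := by
  rw [eB_conjTranspose]
  simp only [Br, eB, Hm, sub_mul, mul_sub, EM_mul_EM', Idx.x.injEq, Idx.y.injEq, Idx.z.injEq,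
    reduceCtorEq, if_false, zero_smul, ind, if_true, one_smul, h, h.symm]
  abel

end

end Kost.QDt
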