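import Pool.Agent.Kost.QDsp

/-!
# Chevalley generators: generic construction (MP_869ec4)
-/

open Module Matrix

attribute [local instance 100] LieRing.ofAssociativeRing

namespace Kost.QDt

noncomputable section

section Gen

variable {𝔤 : Type*} [LieRing 𝔤] [LieAlgebra ℂ 𝔤] {K : Type*} [Fintype K] [DecidableEq K]
  {D : QD 𝔤 K} {n : ℕ}

theorem _root_.Kost.TD.lie_H_H (T : TD D n) (i j : Fin n) : ⁅T.H i, T.H j⁆ = 0 := by
  rw [T.b_z j, lie_smul, T.lie_H, T.wt_z, Complex.ofReal_zero, zero_smul, smul_zero]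

/-- the additive extension of `st` -/
def _root_.Kost.QD.stA (D : QD 𝔤 K) : 𝔤 →+ 𝔤 where
  toFun := D.st
  map_zero' := by
    have := D.st_add 0 0
    rw [add_zero] at this
    exact left_eq_add.1 this
  map_add' := D.st_add

theorem _root_.Kost.QD.st_sum (D : QD 𝔤 K) {ι : Type*} (s : Finset ι) (f : ι → 𝔤) :
    D.st (∑ i ∈ s, f i) = ∑ i ∈ s, D.st (f i) := map_sum D.stA f s

/-- Chevalley generators from root vectors with given weights. -/
def CD.mk' (T : TD D n) (A : Matrix (Fin n) (Fin n) ℤ) (e : Fin n → 𝔤) (co al : Fin n → Fin n → ℝ)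
    (h1 : ∀ i j, ⁅T.H j, e i⁆ = (al i j : ℂ) • e i)
    (h2 : ∀ i j, ⁅e i, D.st (e j)⁆ = if i = j then ∑ k, (co i k : ℂ) • T.H k else 0)
    (h3 : ∀ i j, (A i j : ℝ) = ∑ k, co i k * al j k)
    (h4 : ∀ a, 0 < T.ht a → D.b a ∈ LieSubalgebra.lieSpan ℂ 𝔤 (Set.range e))
    (r th : Fin n → ℝ) (h5 : ∀ j, ∑ k, r k * al j k = 1)
    (h6 : ∀ k, ∑ i, th i * co i k = r k) : CD T A where
  e := e
  f i := D.st (e i)
  h i := ∑ k, (co i k : ℂ) • T.H k
  he i j := by
    rw [sum_lie]
    simp only [smul_lie, h1, smul_smul]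
    rw [← Finset.sum_smul]
    congr 1
    have := h3 i j
    rw [show ((A i j : ℤ) : ℂ) = ((A i j : ℝ) : ℂ) by push_cast; rfl, this]
    push_cast; rfl
  hf i j := by
    have e1 : ∀ k, ⁅T.H k, D.st (e j)⁆ = -((al j k : ℂ) • D.st (e j)) := by
      intro k
      have e2 : ⁅T.H k, D.st (e j)⁆ = D.st ⁅e j, T.H k⁆ := by rw [D.st_lie, T.st_H]
      rw [e2, ← lie_skew, h1, ← neg_smul, D.st_smul, map_neg, Complex.conj_ofReal, neg_smul]
    rw [sum_lie]
    simp only [smul_lie, e1, smul_neg, smul_smul]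
    rw [Finset.sum_neg_distrib, ← Finset.sum_smul]
    congr 2
    have := h3 i j
    rw [show ((A i j : ℤ) : ℂ) = ((A i j : ℝ) : ℂ) by push_cast; rfl, this]
    push_cast; rfl
  ef i j := h2 i j
  hh i j := by
    rw [sum_lie]
    refine Finset.sum_eq_zero fun k _ => ?_
    rw [lie_sum]
    refine Finset.sum_eq_zero fun l _ => ?_
    rw [smul_lie, lie_smul, T.lie_H_H, smul_zero, smul_zero]
  st_e i := rfl
  co := co
  h_eq i := rfl
  gen := h4
  th i := (th i : ℂ)
  hth j := by
    have e1 : ∑ i, th i * (A i j : ℝ) = 1 := by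
      calc ∑ i, th i * (A i j : ℝ) = ∑ i, ∑ k, th i * (co i k * al j k) := by
            refine Finset.sum_congr rfl fun i _ => ?_
            rw [h3, Finset.mul_sum]
        _ = ∑ k, (∑ i, th i * co i k) * al j k := by
            rw [Finset.sum_comm]
            refine Finset.sum_congr rfl fun k _ => ?_
            rw [Finset.sum_mul]
            exact Finset.sum_congr rfl fun i _ => by ring
        _ = 1 := by simp only [h6, h5]
    have e2 : ((∑ i, th i * (A i j : ℝ) : ℝ) : ℂ) = 1 := by rw [e1, Complex.ofReal_one]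
    push_cast at e2
    exact e2

end Gen

section Sums

variable {n : ℕ}

/-- bidiagonal coefficients -/
def bd (c d : ℕ → ℝ) (i k : ℕ) : ℝ :=
  (if k = i then c i else 0) + (if k = i + 1 then -1 else 0) + (if k + 1 = i then d i else 0)

theorem sum_fin_eq (F : ℕ → ℝ) (m : ℕ) : ∑ k : Fin n, (if (k : ℕ) = m then F k else 0) =
    if m < n then F m else 0 := by
  split_ifs with h
  · rw [Finset.sum_eq_single (⟨m, h⟩ : Fin n)]
    · simp
    · intro k _ hk
      rw [if_neg]
      intro h'
      exact hk (Fin.ext h')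
    · intro h'; exact absurd (Finset.mem_univ _) h'
  · refine Finset.sum_eq_zero fun k _ => ?_
    rw [if_neg]
    intro h'
    exact h (h' ▸ k.2)

theorem sum_bd (c d : ℕ → ℝ) (F : ℕ → ℝ) {i : ℕ} (hi : i < n) :
    ∑ k : Fin n, bd c d i k * F k = c i * F i - (if i + 1 < n then F (i + 1) else 0) +
      (if 1 ≤ i then d i * F (i - 1) else 0) := by
  have h1 : ∀ k : Fin n, bd c d i k * F k = (if (k : ℕ) = i then c i * F k else 0) +
      (if (k : ℕ) = i + 1 then -F k else 0) + (if (k : ℕ) + 1 = i then d i * F k else 0) := by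
    intro k
    unfold bd
    rw [add_mul, add_mul]
    congr 1
    · congr 1 <;> split_ifs <;> ring
    · split_ifs <;> ring
  simp only [h1, Finset.sum_add_distrib]
  rw [sum_fin_eq (fun k => c i * F k) i, sum_fin_eq (fun k => -F k) (i + 1), if_pos hi]
  have h2 : ∑ k : Fin n, (if (k : ℕ) + 1 = i then d i * F k else 0) =
      if 1 ≤ i then d i * F (i - 1) else 0 := by
    by_cases h : 1 ≤ i
    · have h3 : ∀ k : Fin n, (if (k : ℕ) + 1 = i then d i * F k else 0) =
          if (k : ℕ) = i - 1 then d i * F k else 0 := by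
        intro k
        have : (k : ℕ) + 1 = i ↔ (k : ℕ) = i - 1 := by omega
        simp only [this]
      simp only [h3]
      rw [sum_fin_eq (fun k => d i * F k) (i - 1), if_pos (by omega), if_pos h]
    · rw [if_neg h]
      refine Finset.sum_eq_zero fun k _ => ?_
      rw [if_neg (by omega)]
  rw [h2]
  split_ifs <;> ring

theorem sum_bd' (c d : ℕ → ℝ) (F : ℕ → ℝ) {k : ℕ} (hk : k < n) :
    ∑ i : Fin n, F i * bd c d i k = F k * c k - (if 1 ≤ k then F (k - 1) else 0) +
      (if k + 1 < n then F (k + 1) * d (k + 1) else 0) := by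
  have h1 : ∀ i : Fin n, F i * bd c d i k = (if (i : ℕ) = k then F i * c i else 0) +
      (if (i : ℕ) + 1 = k then -F i else 0) + (if (i : ℕ) = k + 1 then F i * d i else 0) := by
    intro i
    unfold bd
    rw [mul_add, mul_add]
    congr 1
    · congr 1
      · by_cases h : (i : ℕ) = k
        · rw [if_pos h.symm, if_pos h]
        · rw [if_neg (fun h' => h h'.symm), if_neg h, mul_zero]
      · by_cases h : (i : ℕ) + 1 = k
        · rw [if_pos h.symm, if_pos h]; ring
        · rw [if_neg (fun h' => h h'.symm), if_neg h, mul_zero]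
    · by_cases h : (i : ℕ) = k + 1
      · rw [if_pos h.symm, if_pos h]
      · rw [if_neg (fun h' => h h'.symm), if_neg h, mul_zero]
  simp only [h1, Finset.sum_add_distrib]
  rw [sum_fin_eq (fun i => F i * c i) k, sum_fin_eq (fun i => F i * d i) (k + 1), if_pos hk]
  have h2 : ∑ i : Fin n, (if (i : ℕ) + 1 = k then -F i else 0) =
      if 1 ≤ k then -F (k - 1) else 0 := by
    by_cases h : 1 ≤ k
    · have h3 : ∀ i : Fin n, (if (i : ℕ) + 1 = k then -F i else 0) =
          if (i : ℕ) = k - 1 then -F i else 0 := by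
        intro i
        have : (i : ℕ) + 1 = k ↔ (i : ℕ) = k - 1 := by omega
        simp only [this]
      simp only [h3]
      rw [sum_fin_eq (fun i => -F i) (k - 1), if_pos (by omega), if_pos h]
    · rw [if_neg h]
      refine Finset.sum_eq_zero fun i _ => ?_
      rw [if_neg (by omega)]
  rw [h2]
  split_ifs <;> ring

end Sums

end

end Kost.QDt
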