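import Pool.Agent.Kost.CDgen

/-!
# Cartan matrices in coordinates (MP_869ec4)
-/

open Module Matrix

namespace Kost.QDt

noncomputable section

/-- diagonal coefficient `2` at the last place -/
def lc (n : ℕ) (i : ℕ) : ℝ := if i + 1 = n then 2 else 1

/-- extra coefficient at the last place in type D -/
def ld (n : ℕ) (i : ℕ) : ℝ := if i + 1 = n then 1 else 0

variable {n : ℕ}

theorem cartanB_eq (i j : Fin n) : (((CartanMatrix.B n)ᵀ i j : ℤ) : ℝ) =
    ∑ k : Fin n, bd (lc n) (fun _ => 0) i k * bd (fun _ => 1) (fun _ => 0) j k := by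
  rw [sum_bd (lc n) (fun _ => 0) (fun k => bd (fun _ => 1) (fun _ => 0) j k) i.2]
  have hi := i.2
  have hj := j.2
  rw [Matrix.transpose_apply, CartanMatrix.B, Matrix.of_apply]
  simp only [Fin.ext_iff]
  generalize (i : ℕ) = a at *
  generalize (j : ℕ) = c at *
  unfold bd lc
  by_cases hn : a + 1 = n
  · rcases (by omega : a = c ∨ a = c + 1 ∨ c + 1 < a) with h | h | h <;>
    · simp (disch := omega) only [if_pos, if_neg]; norm_num
  · rcases (by omega : a = c ∨ a = c + 1 ∨ c + 1 < a ∨ a + 1 = c ∨ a + 1 < c) with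
      h | h | h | h | h <;>
    · simp (disch := omega) only [if_pos, if_neg]; norm_num

theorem cartanC_eq (i j : Fin n) : (((CartanMatrix.C n)ᵀ i j : ℤ) : ℝ) =
    ∑ k : Fin n, bd (fun _ => 1) (fun _ => 0) i k * bd (lc n) (fun _ => 0) j k := by
  rw [sum_bd (fun _ => 1) (fun _ => 0) (fun k => bd (lc n) (fun _ => 0) j k) i.2]
  have hi := i.2
  have hj := j.2
  rw [Matrix.transpose_apply, CartanMatrix.C, Matrix.of_apply]
  simp only [Fin.ext_iff]
  generalize (i : ℕ) = a at *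
  generalize (j : ℕ) = c at *
  unfold bd lc
  by_cases hn : a + 1 = n
  · rcases (by omega : a = c ∨ a = c + 1 ∨ c + 1 < a) with h | h | h <;>
    · simp (disch := omega) only [if_pos, if_neg]; norm_num
  · by_cases hn' : c + 1 = n
    · rcases (by omega : a + 1 = c ∨ a + 1 < c) with h | h <;>
      · simp (disch := omega) only [if_pos, if_neg]; norm_num
    · rcases (by omega : a = c ∨ a = c + 1 ∨ c + 1 < a ∨ a + 1 = c ∨ a + 1 < c) with
        h | h | h | h | h <;>
      · simp (disch := omega) only [if_pos, if_neg]; norm_num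

theorem cartanD_eq (hn : 2 ≤ n) (i j : Fin n) : (((CartanMatrix.D n)ᵀ i j : ℤ) : ℝ) =
    ∑ k : Fin n, bd (fun _ => 1) (ld n) i k * bd (fun _ => 1) (ld n) j k := by
  rw [sum_bd (fun _ => 1) (ld n) (fun k => bd (fun _ => 1) (ld n) j k) i.2]
  have hi := i.2
  have hj := j.2
  rw [Matrix.transpose_apply, CartanMatrix.D, Matrix.of_apply]
  simp only [Fin.ext_iff]
  generalize (i : ℕ) = a at *
  generalize (j : ℕ) = c at *
  unfold bd ld
  by_cases h2 : n = 2
  · rcases (by omega : (a = 0 ∧ c = 0) ∨ (a = 0 ∧ c = 1) ∨ (a = 1 ∧ c = 0) ∨ (a = 1 ∧ c = 1)) with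
      ⟨h, h'⟩ | ⟨h, h'⟩ | ⟨h, h'⟩ | ⟨h, h'⟩ <;>
    · simp (disch := omega) only [if_pos, if_neg]; norm_num
  · by_cases ha : a + 1 = n
    · rcases (by omega : a = c ∨ a = c + 1 ∨ a = c + 2 ∨ c + 2 < a) with h | h | h | h <;>
      · simp (disch := omega) only [if_pos, if_neg]; norm_num
    · by_cases hc : c + 1 = n
      · rcases (by omega : a + 1 = c ∨ a + 2 = c ∨ a + 2 < c) with h | h | h <;>
        · simp (disch := omega) only [if_pos, if_neg]; norm_num
      · rcases (by omega : a = c ∨ a = c + 1 ∨ c + 1 < a ∨ a + 1 = c ∨ a + 1 < c) with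
          h | h | h | h | h
        · simp (disch := omega) only [if_pos, if_neg]; norm_num
        · by_cases h' : a + 2 = n <;>
          · simp (disch := omega) only [if_pos, if_neg]; norm_num
        · simp (disch := omega) only [if_pos, if_neg]; norm_num
        · by_cases h' : c + 2 = n <;>
          · simp (disch := omega) only [if_pos, if_neg]; norm_num
        · simp (disch := omega) only [if_pos, if_neg]; norm_num

/-! ### the coweight `ρ^∨` -/

theorem h5B (j : Fin n) : ∑ k : Fin n, ((n : ℝ) - (k : ℕ)) * bd (fun _ => 1) (fun _ => 0) j k = 1 := by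
  have h : ∀ k : Fin n, ((n : ℝ) - (k : ℕ)) * bd (fun _ => 1) (fun _ => 0) j k =
      bd (fun _ => 1) (fun _ => 0) j k * ((n : ℝ) - (k : ℕ)) := fun k => mul_comm _ _
  simp only [h]
  rw [sum_bd (fun _ => 1) (fun _ => 0) (fun k => (n : ℝ) - (k : ℕ)) j.2]
  have hj := j.2
  by_cases h1 : (j : ℕ) + 1 = n
  · have h2 : ((j : ℕ) : ℝ) + 1 = n := by exact_mod_cast h1
    rw [if_neg (by omega)]
    simp only [zero_mul, ite_self]
    linarith
  · rw [if_pos (by omega)]
    simp only [zero_mul, ite_self]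
    push_cast; ring

theorem h6B (k : Fin n) : ∑ i : Fin n, ((if (i : ℕ) + 1 = n then 1 / 2 else 1) *
    ((((i : ℕ) : ℝ) + 1) * n - (i : ℕ) * (((i : ℕ) : ℝ) + 1) / 2)) * bd (lc n) (fun _ => 0) i k =
    (n : ℝ) - (k : ℕ) := by
  rw [sum_bd' (lc n) (fun _ => 0) (fun i => (if i + 1 = n then 1 / 2 else 1) *
    (((i : ℝ) + 1) * n - i * ((i : ℝ) + 1) / 2)) k.2]
  have hk := k.2
  generalize (k : ℕ) = m at *
  simp only [mul_zero, ite_self, add_zero, lc]
  by_cases h1 : m + 1 = n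
  · have h2 : (m : ℝ) + 1 = n := by exact_mod_cast h1
    rw [if_pos h1, if_pos h1]
    by_cases h3 : 1 ≤ m
    · rw [if_pos h3, if_neg (by omega), Nat.cast_sub h3]
      push_cast
      rw [← h2]; ring
    · have h4 : m = 0 := by omega
      subst h4
      rw [if_neg h3, ← h2]; norm_num
  · rw [if_neg h1, if_neg h1]
    by_cases h3 : 1 ≤ m
    · rw [if_pos h3, if_neg (by omega), Nat.cast_sub h3]
      push_cast; ring
    · have h4 : m = 0 := by omega
      subst h4
      rw [if_neg h3]; norm_num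

theorem h5C (j : Fin n) : ∑ k : Fin n, ((n : ℝ) - (k : ℕ) - 1 / 2) * bd (lc n) (fun _ => 0) j k =
    1 := by
  have h : ∀ k : Fin n, ((n : ℝ) - (k : ℕ) - 1 / 2) * bd (lc n) (fun _ => 0) j k =
      bd (lc n) (fun _ => 0) j k * ((n : ℝ) - (k : ℕ) - 1 / 2) := fun k => mul_comm _ _
  simp only [h]
  rw [sum_bd (lc n) (fun _ => 0) (fun k => (n : ℝ) - (k : ℕ) - 1 / 2) j.2]
  have hj := j.2
  by_cases h1 : (j : ℕ) + 1 = n
  · have h2 : ((j : ℕ) : ℝ) + 1 = n := by exact_mod_cast h1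
    rw [if_neg (by omega), lc, if_pos h1]
    simp only [zero_mul, ite_self]
    linarith
  · rw [if_pos (by omega), lc, if_neg h1]
    simp only [zero_mul, ite_self]
    push_cast; ring

theorem h6C (k : Fin n) : ∑ i : Fin n, ((((i : ℕ) : ℝ) + 1) * ((n : ℝ) - 1 / 2) -
    (i : ℕ) * (((i : ℕ) : ℝ) + 1) / 2) * bd (fun _ => 1) (fun _ => 0) i k =
    (n : ℝ) - (k : ℕ) - 1 / 2 := by
  rw [sum_bd' (fun _ => 1) (fun _ => 0) (fun i => (((i : ℝ) + 1) * ((n : ℝ) - 1 / 2) -
    i * ((i : ℝ) + 1) / 2)) k.2]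
  have hk := k.2
  generalize (k : ℕ) = m at *
  simp only [mul_zero, ite_self, add_zero]
  by_cases h3 : 1 ≤ m
  · rw [if_pos h3, Nat.cast_sub h3]
    push_cast; ring
  · have h4 : m = 0 := by omega
    subst h4
    rw [if_neg h3]; norm_num

theorem h5D (hn : 2 ≤ n) (j : Fin n) :
    ∑ k : Fin n, ((n : ℝ) - 1 - (k : ℕ)) * bd (fun _ => 1) (ld n) j k = 1 := by
  have h : ∀ k : Fin n, ((n : ℝ) - 1 - (k : ℕ)) * bd (fun _ => 1) (ld n) j k =
      bd (fun _ => 1) (ld n) j k * ((n : ℝ) - 1 - (k : ℕ)) := fun k => mul_comm _ _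
  simp only [h]
  rw [sum_bd (fun _ => 1) (ld n) (fun k => (n : ℝ) - 1 - (k : ℕ)) j.2]
  have hj := j.2
  by_cases h1 : (j : ℕ) + 1 = n
  · have h2 : ((j : ℕ) : ℝ) + 1 = n := by exact_mod_cast h1
    rw [if_neg (by omega), ld, if_pos h1, if_pos (by omega), Nat.cast_sub (by omega)]
    push_cast
    linarith
  · rw [if_pos (by omega), ld, if_neg h1]
    simp only [zero_mul, ite_self]
    push_cast; ring

theorem h6D (hn : 2 ≤ n) (k : Fin n) : ∑ i : Fin n, ((if n ≤ (i : ℕ) + 2 then 1 / 2 else 1) *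
    ((((i : ℕ) : ℝ) + 1) * ((n : ℝ) - 1) - (i : ℕ) * (((i : ℕ) : ℝ) + 1) / 2)) *
      bd (fun _ => 1) (ld n) i k = (n : ℝ) - 1 - (k : ℕ) := by
  rw [sum_bd' (fun _ => 1) (ld n) (fun i => (if n ≤ i + 2 then 1 / 2 else 1) *
    (((i : ℝ) + 1) * ((n : ℝ) - 1) - i * ((i : ℝ) + 1) / 2)) k.2]
  have hk := k.2
  generalize (k : ℕ) = m at *
  simp only [ld]
  by_cases h1 : m + 1 = n
  · have h2 : (m : ℝ) + 1 = n := by exact_mod_cast h1
    rw [if_pos (by omega), if_pos (by omega : 1 ≤ m), if_pos (by omega), if_neg (by omega),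
      Nat.cast_sub (by omega)]
    push_cast
    rw [← h2]; ring
  · by_cases h5 : m + 2 = n
    · have h2 : (m : ℝ) + 2 = n := by exact_mod_cast h5
      rw [if_pos (by omega : n ≤ m + 2), if_pos (by omega : m + 1 < n),
        if_pos (by omega : n ≤ m + 1 + 2), if_pos (by omega : m + 1 + 1 = n)]
      by_cases h3 : 1 ≤ m
      · rw [if_pos h3, if_neg (by omega), Nat.cast_sub h3]
        push_cast
        rw [← h2]; ring
      · have h4 : m = 0 := by omega
        subst h4
        rw [if_neg h3, ← h2]; norm_num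
    · rw [if_neg (by omega), if_pos (by omega : m + 1 < n), if_neg (by omega : ¬ m + 1 + 1 = n)]
      by_cases h3 : 1 ≤ m
      · rw [if_pos h3, if_neg (by omega), Nat.cast_sub h3]
        push_cast; ring
      · have h4 : m = 0 := by omega
        subst h4
        rw [if_neg h3]; norm_num

end

end Kost.QDt
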