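import Pool.Agent.Kost.CDbr

/-!
# Generation of the positive root vectors by the simple ones (MP_869ec4)
-/

open Module Matrix

attribute [local instance 100] LieRing.ofAssociativeRing

namespace Kost.QDt

noncomputable section

variable {n b : ℕ} {ε : ℂ}

/-- `X` lies in the Lie subalgebra generated by the `e i` -/
def InSp (e : Fin n → gS n b ε) (X : Matrix (Idx n b) (Idx n b) ℂ) : Prop :=
  ∃ h : X ∈ gS n b ε, (⟨X, h⟩ : gS n b ε) ∈ LieSubalgebra.lieSpan ℂ (gS n b ε) (Set.range e)

variable {e : Fin n → gS n b ε} {X Y : Matrix (Idx n b) (Idx n b) ℂ}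

theorem InSp.br (hX : InSp e X) (hY : InSp e Y) : InSp e (Br X Y) := by
  obtain ⟨h1, h2⟩ := hX
  obtain ⟨h3, h4⟩ := hY
  have h5 := LieSubalgebra.lie_mem _ h2 h4
  have h6 : Br X Y = ((⁅(⟨X, h1⟩ : gS n b ε), ⟨Y, h3⟩⁆ : gS n b ε) : Matrix _ _ ℂ) := by
    rw [LieSubalgebra.coe_bracket, Ring.lie_def, Br]
  rw [h6]
  exact ⟨Subtype.mem _, h5⟩

theorem InSp.smul (c : ℂ) (hX : InSp e X) : InSp e (c • X) := by
  obtain ⟨h1, h2⟩ := hX
  exact ⟨(gS n b ε).smul_mem c h1, LieSubalgebra.smul_mem _ c h2⟩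

theorem InSp.neg (hX : InSp e X) : InSp e (-X) := by
  have := hX.smul (-1)
  rwa [neg_one_smul] at this

theorem InSp.of_eq (i : Fin n) (h : (e i : Matrix _ _ ℂ) = X) : InSp e X := by
  subst h
  exact ⟨Subtype.mem _, LieSubalgebra.subset_lieSpan ⟨i, rfl⟩⟩

theorem InSp.of_smul {c : ℂ} (hc : c ≠ 0) (hX : InSp e (c • X)) : InSp e X := by
  have := hX.smul c⁻¹
  rwa [smul_smul, inv_mul_cancel₀ hc, one_smul] at this

theorem InSp.eA (h0 : ∀ (i : Fin n) (h : (i : ℕ) + 1 < n), InSp e (eA i ⟨i + 1, h⟩))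
    {i j : Fin n} (hij : i < j) : InSp e (Kost.eA i j) := by
  have key : ∀ (d : ℕ) (i j : Fin n), (j : ℕ) = i + d + 1 → InSp e (Kost.eA i j) := by
    intro d
    induction d with
    | zero =>
      intro i j h
      have h1 : (i : ℕ) + 1 < n := by have := j.2; omega
      have h2 : j = ⟨i + 1, h1⟩ := Fin.ext (by simpa using h)
      rw [h2]
      exact h0 i h1
    | succ d ih =>
      intro i j h
      have h1 : (i : ℕ) + 1 < n := by have := j.2; omega
      have h2 := (h0 i h1).br (ih ⟨i + 1, h1⟩ j (by simp; omega))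
      rw [Br_eA_eA] at h2
      have h3 : ¬ (i = j) := by intro h'; rw [h'] at h; omega
      simpa [ind, h3] using h2
  refine key ((j : ℕ) - i - 1) i j ?_
  rw [Fin.lt_def] at hij
  omega

/-! type B -/

theorem InSp.eC {e : Fin n → gS n b ε} {m : Fin n} (hm : (m : ℕ) + 1 = n) {k : Fin b}
    (hA : ∀ i j : Fin n, i < j → InSp e (Kost.eA i j)) (h0 : InSp e (Kost.eC m k)) (i : Fin n) :
    InSp e (Kost.eC i k) := by
  by_cases h : i = m
  · rw [h]; exact h0
  · have h1 : i < m := by
      rw [Fin.lt_def]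
      have := i.2
      have : (i : ℕ) ≠ m := fun h' => h (Fin.ext h')
      omega
    have h2 := (hA i m h1).br h0
    rw [Br_eA_eC] at h2
    simpa [ind] using h2

theorem InSp.eB_of_eC {e : Fin n → gS n b ε} {k : Fin b} (h0 : ∀ i, InSp e (Kost.eC i k))
    (i j : Fin n) : InSp e (Kost.eB i j) := by
  have h2 := ((h0 i).br (h0 j)).neg
  rwa [Br_eC_eC, neg_neg] at h2

/-! type C -/

theorem eS_symm (i j : Fin n) : (Kost.eS i j : Matrix (Idx n b) (Idx n b) ℂ) = Kost.eS j i := by
  rw [eS, eS, add_comm]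

theorem InSp.eS {e : Fin n → gS n b ε} {m : Fin n} (hm : (m : ℕ) + 1 = n)
    (hA : ∀ i j : Fin n, i < j → InSp e (Kost.eA i j)) (h0 : InSp e (EM (.x m) (.y m)))
    (i j : Fin n) : InSp e (Kost.eS i j) := by
  have hlt : ∀ i : Fin n, i ≠ m → i < m := by
    intro i h
    rw [Fin.lt_def]
    have := i.2
    have : (i : ℕ) ≠ m := fun h' => h (Fin.ext h')
    omega
  have h1 : InSp e (Kost.eS m m) := by
    have := h0.smul 2
    rw [two_smul] at this
    exact this
  have h2 : ∀ i, InSp e (Kost.eS i m) := by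
    intro i
    by_cases h : i = m
    · rw [h]; exact h1
    · have h2 := (hA i m (hlt i h)).br h0
      rw [Br_eA_eL] at h2
      simpa [ind] using h2
  by_cases hj : j = m
  · rw [hj]; exact h2 i
  · by_cases hi : i = m
    · rw [hi, eS_symm]; exact h2 j
    · have h3 := (hA i m (hlt i hi)).br (h2 j)
      rwa [Br_eA_eS i m j hj] at h3

/-! type D -/

theorem InSp.eB {e : Fin n → gS n b ε} {l m : Fin n} (hm : (m : ℕ) + 1 = n) (hl : (l : ℕ) + 1 = m)
    (hA : ∀ i j : Fin n, i < j → InSp e (Kost.eA i j)) (h0 : InSp e (Kost.eB l m))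
    {i j : Fin n} (hij : i ≠ j) : InSp e (Kost.eB i j) := by
  have hlt : ∀ i : Fin n, i ≠ m → i < m := by
    intro i h
    rw [Fin.lt_def]
    have := i.2
    have : (i : ℕ) ≠ m := fun h' => h (Fin.ext h')
    omega
  have hlm : l ≠ m := by intro h; rw [h] at hl; omega
  have h1 : ∀ i, i ≠ m → InSp e (Kost.eB i m) := by
    intro i hi
    by_cases h : i = l
    · rw [h]; exact h0
    · have hil : i < l := by
        rw [Fin.lt_def]
        have h2 := hlt i hi
        rw [Fin.lt_def] at h2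
        have : (i : ℕ) ≠ l := fun h' => h (Fin.ext h')
        omega
      have h2 := (hA i l hil).br h0
      rw [Br_eA_eB] at h2
      simpa [ind, hlm] using h2
  have h2 : ∀ i, i ≠ m → InSp e (Kost.eB m i) := by
    intro i hi
    rw [eB_symm]; exact (h1 i hi).neg
  by_cases hj : j = m
  · rw [hj]; exact h1 i (hj ▸ hij)
  · by_cases hi : i = m
    · rw [hi]; exact h2 j hj
    · have h3 := (hA i m (hlt i hi)).br (h2 j hj)
      rw [Br_eA_eB] at h3
      simpa [ind, Ne.symm hj] using h3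

/-! ### the positive basis vectors -/

theorem b_pos_so (hb : b ≤ 1) (e : Fin n → gS n b 1)
    (hA : ∀ i j : Fin n, i < j → InSp e (Kost.eA i j))
    (hB : ∀ i j : Fin n, i ≠ j → InSp e (Kost.eB i j))
    (hC : ∀ (i : Fin n) (k : Fin b), InSp e (Kost.eC i k)) (a : K2 (Idx n b))
    (ha : 0 < (TDso n b hb).ht a) :
    (QDso n b).b a ∈ LieSubalgebra.lieSpan ℂ (gS n b 1) (Set.range e) := by
  have ha' : 0 < Idx.val (hg n) a.1.1 + Idx.val (hg n) a.1.2 := by
    rw [← sum_hg_wt2]; exact ha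
  suffices h : InSp e (uA a * SF n b 1) by
    obtain ⟨h1, h2⟩ := h
    exact h2
  have h0 := @hg_pos n
  obtain ⟨⟨p, q⟩, hp⟩ := a
  simp only at hp ha'
  cases p with
  | x i =>
    cases q with
    | x j =>
      rw [Idx.x_lt_x] at hp
      have h1 := (hB i j hp.ne).smul ((√2 : ℂ)⁻¹)
      convert h1 using 1
      rw [uA_def]
      simp only [Matrix.smul_mul, sub_mul, EM_mul_SF, sg_one, one_smul, Idx.bar, Kost.eB]
    | y j =>
      have hij : i < j := by
        rw [← hg_sub_pos]; exact ha'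
      have h1 := (hA i j hij).smul ((√2 : ℂ)⁻¹)
      convert h1 using 1
      rw [uA_def]
      simp only [Matrix.smul_mul, sub_mul, EM_mul_SF, sg_one, one_smul, Idx.bar, Kost.eA]
    | z k =>
      have h1 := (hC i k).smul ((√2 : ℂ)⁻¹)
      convert h1 using 1
      rw [uA_def]
      simp only [Matrix.smul_mul, sub_mul, EM_mul_SF, sg_one, one_smul, Idx.bar, Kost.eC]
  | y i =>
    cases q with
    | x j => exact absurd hp (not_lt.2 (Idx.x_lt_y j i).le)
    | y j => simp only [Idx.val] at ha'; linarith [h0 i, h0 j]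
    | z k => exact absurd hp (not_lt.2 (Idx.z_lt_y k i).le)
  | z k =>
    cases q with
    | x j => exact absurd hp (not_lt.2 (Idx.x_lt_z j k).le)
    | y j => simp only [Idx.val] at ha'; linarith [h0 j]
    | z l => simp only [Idx.val] at ha'; linarith

theorem b_pos_sp (e : Fin n → gS n 0 (-1))
    (hA : ∀ i j : Fin n, i < j → InSp e (Kost.eA i j))
    (hS : ∀ i j : Fin n, InSp e (Kost.eS i j)) (a : K2' (Idx n 0))
    (ha : 0 < (TDsp n).ht a) :
    (QDsp n).b a ∈ LieSubalgebra.lieSpan ℂ (gS n 0 (-1)) (Set.range e) := by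
  have ha' : 0 < Idx.val (hg n) a.1.1 + Idx.val (hg n) a.1.2 := by
    rw [← sum_hg_wt2]; exact ha
  suffices h : InSp e (uS a * SF n 0 (-1)) by
    obtain ⟨h1, h2⟩ := h
    exact h2
  have h0 := @hg_pos n
  obtain ⟨⟨p, q⟩, hp⟩ := a
  simp only at hp ha'
  cases p with
  | x i =>
    cases q with
    | x j =>
      by_cases hij : i = j
      · subst hij
        have h1 := (hS i i).smul (-(2 : ℂ)⁻¹)
        convert h1 using 1
        rw [uS_of_eq rfl, EM_mul_SF]
        simp only [Idx.bar, sg, Kost.eS]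
        module
      · have h1 := (hS i j).smul (-(√2 : ℂ)⁻¹)
        convert h1 using 1
        rw [uS_of_ne (by simpa using hij)]
        simp only [Matrix.smul_mul, add_mul, EM_mul_SF, Idx.bar, sg, Kost.eS]
        module
    | y j =>
      have hij : i < j := by
        rw [← hg_sub_pos]; exact ha'
      have h1 := (hA i j hij).smul ((√2 : ℂ)⁻¹)
      convert h1 using 1
      rw [uS_of_ne (by simp)]
      simp only [Matrix.smul_mul, add_mul, EM_mul_SF, Idx.bar, sg, Kost.eA]
      module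
    | z k => exact k.elim0
  | y i =>
    cases q with
    | x j => exact absurd hp (not_le.2 (Idx.x_lt_y j i))
    | y j => simp only [Idx.val] at ha'; linarith [h0 i, h0 j]
    | z k => exact k.elim0
  | z k => exact k.elim0

end

end Kost.QDt
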