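import Pool.Agent.Kost.CDspan

/-!
# Chevalley generators for types B, C, D (MP_869ec4)
-/

open Module Matrix

attribute [local instance 100] LieRing.ofAssociativeRing

namespace Kost.QDt

noncomputable section

variable {n b : ℕ} {ε : ℂ}

theorem sum_fin_val {M : Type*} [AddCommMonoid M] (F : Fin n → M) (m : ℕ) :
    ∑ k : Fin n, (if (k : ℕ) = m then F k else 0) = if h : m < n then F ⟨m, h⟩ else 0 := by
  split_ifs with h
  · rw [Finset.sum_eq_single (⟨m, h⟩ : Fin n)]
    · simp
    · intro k _ hk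
      rw [if_neg]
      intro h'
      exact hk (Fin.ext h')
    · intro h'; exact absurd (Finset.mem_univ _) h'
  · refine Finset.sum_eq_zero fun k _ => ?_
    rw [if_neg]
    intro h'
    exact h (h' ▸ k.2)

theorem sum_bd_smul {M : Type*} [AddCommGroup M] [Module ℂ M] (c d : ℕ → ℝ) (F : Fin n → M)
    (i : Fin n) : ∑ k : Fin n, (bd c d i k : ℂ) • F k = (c i : ℂ) • F i -
      (if h : (i : ℕ) + 1 < n then F ⟨i + 1, h⟩ else 0) +
      (if h : 1 ≤ (i : ℕ) then (d i : ℂ) • F ⟨i - 1, by omega⟩ else 0) := by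
  have h1 : ∀ k : Fin n, (bd c d i k : ℂ) • F k = (if (k : ℕ) = i then (c i : ℂ) • F k else 0) +
      (if (k : ℕ) = i + 1 then -F k else 0) +
      (if (k : ℕ) + 1 = i then (d i : ℂ) • F k else 0) := by
    intro k
    unfold bd
    push_cast
    rw [add_smul, add_smul]
    congr 1
    · congr 1 <;> split_ifs <;> module
    · split_ifs <;> module
  simp only [h1, Finset.sum_add_distrib]
  rw [sum_fin_val (fun k => (c i : ℂ) • F k) i, sum_fin_val (fun k => -F k) (i + 1), dif_pos i.2]
  have h2 : ∑ k : Fin n, (if (k : ℕ) + 1 = i then (d i : ℂ) • F k else 0) =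
      if h : 1 ≤ (i : ℕ) then (d i : ℂ) • F ⟨i - 1, by omega⟩ else 0 := by
    by_cases h : 1 ≤ (i : ℕ)
    · have h3 : ∀ k : Fin n, (if (k : ℕ) + 1 = i then (d i : ℂ) • F k else 0) =
          if (k : ℕ) = i - 1 then (d i : ℂ) • F k else 0 := by
        intro k
        have : (k : ℕ) + 1 = i ↔ (k : ℕ) = i - 1 := by omega
        simp only [this]
      simp only [h3]
      rw [sum_fin_val (fun k => (d i : ℂ) • F k) (i - 1), dif_pos (by omega), dif_pos h]
    · rw [dif_neg h]
      refine Finset.sum_eq_zero fun k _ => ?_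
      rw [if_neg (by omega)]
  rw [h2]
  split_ifs <;> simp <;> abel

/-- `Br` of elements of the Lie algebra -/
theorem coe_lie (X Y : gS n b ε) : ((⁅X, Y⁆ : gS n b ε) : Matrix _ _ ℂ) =
    Br (X : Matrix (Idx n b) (Idx n b) ℂ) (Y : Matrix (Idx n b) (Idx n b) ℂ) := by
  rw [LieSubalgebra.coe_bracket, Ring.lie_def, Br]

theorem coe_sum_H (co : Fin n → ℂ) :
    ((∑ k, co k • (⟨Hm k, Hm_mem k⟩ : gS n b ε) : gS n b ε) : Matrix _ _ ℂ) =
      ∑ k, co k • (Hm k : Matrix (Idx n b) (Idx n b) ℂ) := coe_sum_smul _ _ _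

theorem last_of_not {i : Fin n} (h : ¬ (i : ℕ) + 1 < n) : (i : ℕ) + 1 = n := by
  have := i.2; omega

/-! ### type B -/

/-- simple root vectors -/
def eBm (i : Fin n) : Matrix (Idx n 1) (Idx n 1) ℂ :=
  if h : (i : ℕ) + 1 < n then eA i ⟨i + 1, h⟩ else (√2 : ℂ) • eC i 0

theorem eBm_mem (i : Fin n) : eBm i ∈ gS n 1 1 := by
  unfold eBm
  split_ifs with h
  · exact eA_mem _ _
  · exact (gS n 1 1).smul_mem _ (eC_mem _ _)

theorem Br_smul_right {J : Type*} [Fintype J] [DecidableEq J] (c : ℂ) (X Y : Matrix J J ℂ) :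
    Br X (c • Y) = c • Br X Y := by
  rw [Br, Br, Matrix.mul_smul, Matrix.smul_mul, smul_sub]

theorem Br_smul_left {J : Type*} [Fintype J] [DecidableEq J] (c : ℂ) (X Y : Matrix J J ℂ) :
    Br (c • X) Y = c • Br X Y := by
  rw [Br, Br, Matrix.mul_smul, Matrix.smul_mul, smul_sub]

theorem Br_Hm_eBm (j i : Fin n) :
    Br (Hm j) (eBm i) = (bd (fun _ => 1) (fun _ => 0) i j : ℂ) • eBm i := by
  unfold eBm
  split_ifs with h
  · rw [Br_Hm_eA]
    congr 1
    simp only [bd, ind, Fin.ext_iff]
    push_cast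
    split_ifs <;> first | omega | norm_num
  · have hl := last_of_not h
    rw [Br_smul_right, Br_Hm_eC, smul_comm]
    congr 1
    have hj := j.2
    simp only [bd, ind, Fin.ext_iff]
    push_cast
    split_ifs <;> first | omega | norm_num

theorem Br_eBm_eBm (i j : Fin n) : Br (eBm i) ((eBm j)ᴴ) =
    if i = j then ∑ k : Fin n, (bd (lc n) (fun _ => 0) i k : ℂ) •
      (Hm k : Matrix (Idx n 1) (Idx n 1) ℂ)
      else 0 := by
  rw [sum_bd_smul]
  by_cases hi : (i : ℕ) + 1 < n
  · by_cases hj : (j : ℕ) + 1 < n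
    · rw [eBm, eBm, dif_pos hi, dif_pos hj, eA_conjTranspose, Br_eA_eA]
      by_cases hij : i = j
      · subst hij
        have h1 : ¬ ((i : ℕ) + 1 = n) := by omega
        simp only [ind, if_true, one_smul, hi, dif_pos, lc, h1, if_false, Complex.ofReal_one,
          Complex.ofReal_zero, zero_smul, eA_self]
        split_ifs <;> simp
      · have h2 : ¬ ((⟨(i : ℕ) + 1, hi⟩ : Fin n) = ⟨(j : ℕ) + 1, hj⟩) := by
          intro h; apply hij; apply Fin.ext; simpa using h
        simp [ind, hij, h2]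
    · have hlj := last_of_not hj
      have hij : i ≠ j := by intro h; rw [h] at hi; omega
      rw [eBm, eBm, dif_pos hi, dif_neg hj, conjTranspose_smul, Br_smul_right, Br_eA_eC_T,
        if_neg hij]
      simp [ind, hij]
  · have hli := last_of_not hi
    by_cases hj : (j : ℕ) + 1 < n
    · have hij : i ≠ j := by intro h; rw [← h] at hj; omega
      rw [eBm, eBm, dif_neg hi, dif_pos hj, Br_smul_left, eA_conjTranspose, Br_eC_eA, if_neg hij]
      simp [ind, Ne.symm hij]
    · have hij : i = j := by apply Fin.ext; have := last_of_not hj; omega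
      subst hij
      rw [eBm, dif_neg hi, conjTranspose_smul, Br_smul_left, Br_smul_right, Br_eC_eC_T, if_pos rfl]
      have h1 : star (√2 : ℂ) = √2 := by rw [Complex.star_def, Complex.conj_ofReal]
      rw [h1, smul_smul, sqrt2_mul, dif_neg hi, lc, if_pos hli]
      simp only [sub_zero, Complex.ofReal_zero, zero_smul, Complex.ofReal_ofNat]
      split_ifs <;> simp

/-- Chevalley generators of type B -/
def CDB (n : ℕ) : CD (TDso n 1 le_rfl) (CartanMatrix.B n)ᵀ :=
  CD.mk' (TDso n 1 le_rfl) (CartanMatrix.B n)ᵀ (fun i => ⟨eBm i, eBm_mem i⟩)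
    (fun i k => bd (lc n) (fun _ => 0) i k) (fun i k => bd (fun _ => 1) (fun _ => 0) i k)
    (fun i j => by
      apply Subtype.ext
      rw [coe_lie]
      exact Br_Hm_eBm j i)
    (fun i j => by
      apply Subtype.ext
      rw [coe_lie, QDso_st]
      refine (Br_eBm_eBm i j).trans ?_
      split_ifs with h
      · exact (coe_sum_H _).symm
      · rfl)
    (fun i j => cartanB_eq i j)
    (fun a ha => by
      have hA0 : ∀ (i : Fin n) (h : (i : ℕ) + 1 < n),
          InSp (fun i : Fin n => (⟨eBm i, eBm_mem i⟩ : gS n 1 1)) (eA i ⟨i + 1, h⟩) := by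
        intro i h
        refine InSp.of_eq i ?_
        change eBm i = _
        rw [eBm, dif_pos h]
      have hA : ∀ i j : Fin n, i < j → InSp _ (eA i j) := fun i j hij => InSp.eA hA0 hij
      have hC : ∀ (i : Fin n) (k : Fin 1), InSp (fun i : Fin n => (⟨eBm i, eBm_mem i⟩ : gS n 1 1))
          (eC i k) := by
        intro i k
        have hk : k = 0 := Subsingleton.elim _ _
        subst hk
        have hn : 0 < n := by have := i.2; omega
        have hm : ((⟨n - 1, by omega⟩ : Fin n) : ℕ) + 1 = n := by simp; omega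
        refine InSp.eC hm hA ?_ i
        refine InSp.of_smul sqrt2_ne (InSp.of_eq ⟨n - 1, by omega⟩ ?_)
        change eBm _ = _
        rw [eBm, dif_neg (by omega)]
      exact b_pos_so le_rfl _ hA (fun i j _ => InSp.eB_of_eC (fun i => hC i 0) i j) hC a ha)
    (fun k => (n : ℝ) - (k : ℕ))
    (fun i => (if (i : ℕ) + 1 = n then 1 / 2 else 1) *
      ((((i : ℕ) : ℝ) + 1) * n - (i : ℕ) * (((i : ℕ) : ℝ) + 1) / 2))
    h5B h6B

theorem CDB_rho (i : Fin n) : ∑ j, ((CDB n).co i j : ℂ) * ((TDso n 1 le_rfl).rho j : ℂ) = 1 := by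
  have h : ∑ j, (CDB n).co i j * (TDso n 1 le_rfl).rho j = 1 := by
    have h1 : ∀ j : Fin n, (CDB n).co i j * (TDso n 1 le_rfl).rho j =
        bd (lc n) (fun _ => 0) i j * ((n : ℝ) - 1 - (j : ℕ) + 1 / 2) := by
      intro j
      rw [TDso_rho, rhoSo, Nat.cast_one]; rfl
    simp only [h1]
    rw [sum_bd (lc n) (fun _ => 0) (fun k => (n : ℝ) - 1 - (k : ℕ) + 1 / 2) i.2]
    have hi := i.2
    by_cases h1 : (i : ℕ) + 1 = n
    · have h2 : ((i : ℕ) : ℝ) + 1 = n := by exact_mod_cast h1
      rw [if_neg (by omega), lc, if_pos h1]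
      simp only [zero_mul, ite_self]
      rw [← h2]; ring
    · rw [if_pos (by omega), lc, if_neg h1]
      simp only [zero_mul, ite_self]
      push_cast; ring
  have := congrArg (fun x : ℝ => (x : ℂ)) h
  push_cast at this
  exact this

/-! ### type C -/

/-- simple root vectors -/
def eCm (i : Fin n) : Matrix (Idx n 0) (Idx n 0) ℂ :=
  if h : (i : ℕ) + 1 < n then eA i ⟨i + 1, h⟩ else EM (.x i) (.y i)

theorem eL_mem (i : Fin n) : (EM (.x i) (.y i) : Matrix (Idx n 0) (Idx n 0) ℂ) ∈ gS n 0 (-1) := by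
  have h := (gS n 0 (-1)).smul_mem (2 : ℂ)⁻¹ (eS_mem i i)
  rw [eS, ← two_smul ℂ, smul_smul, inv_mul_cancel₀ two_ne_zero, one_smul] at h
  exact h

theorem eCm_mem (i : Fin n) : eCm i ∈ gS n 0 (-1) := by
  unfold eCm
  split_ifs with h
  · exact eA_mem _ _
  · exact eL_mem i

theorem Br_Hm_eCm (j i : Fin n) :
    Br (Hm j) (eCm i) = (bd (lc n) (fun _ => 0) i j : ℂ) • eCm i := by
  unfold eCm
  split_ifs with h
  · rw [Br_Hm_eA]
    congr 1
    simp only [bd, ind, Fin.ext_iff, lc]
    push_cast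
    split_ifs <;> first | omega | norm_num
  · have hl := last_of_not h
    rw [Br_Hm_eL]
    congr 1
    have hj := j.2
    simp only [bd, ind, Fin.ext_iff, lc]
    push_cast
    split_ifs <;> first | omega | norm_num

theorem Br_eCm_eCm (i j : Fin n) : Br (eCm i) ((eCm j)ᴴ) =
    if i = j then ∑ k : Fin n, (bd (fun _ => 1) (fun _ => 0) i k : ℂ) •
      (Hm k : Matrix (Idx n 0) (Idx n 0) ℂ) else 0 := by
  rw [sum_bd_smul]
  by_cases hi : (i : ℕ) + 1 < n
  · by_cases hj : (j : ℕ) + 1 < n
    · rw [eCm, eCm, dif_pos hi, dif_pos hj, eA_conjTranspose, Br_eA_eA]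
      by_cases hij : i = j
      · subst hij
        simp only [ind, if_true, one_smul, hi, dif_pos, Complex.ofReal_one,
          Complex.ofReal_zero, zero_smul, eA_self]
        split_ifs <;> simp
      · have h2 : ¬ ((⟨(i : ℕ) + 1, hi⟩ : Fin n) = ⟨(j : ℕ) + 1, hj⟩) := by
          intro h; apply hij; apply Fin.ext; simpa using h
        simp [ind, hij, h2]
    · have hlj := last_of_not hj
      have hij : i ≠ j := by intro h; rw [h] at hi; omega
      rw [eCm, eCm, dif_pos hi, dif_neg hj, EM_conjTranspose, Br_eA_eL_T, if_neg hij]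
      simp [ind, hij]
  · have hli := last_of_not hi
    by_cases hj : (j : ℕ) + 1 < n
    · have hij : i ≠ j := by intro h; rw [← h] at hj; omega
      rw [eCm, eCm, dif_neg hi, dif_pos hj, eA_conjTranspose, Br_eL_eA, if_neg hij]
      simp [ind, Ne.symm hij]
    · have hij : i = j := by apply Fin.ext; have := last_of_not hj; omega
      subst hij
      rw [eCm, dif_neg hi, EM_conjTranspose, Br_eL_eL_T, if_pos rfl, dif_neg hi]
      simp only [sub_zero, Complex.ofReal_zero, zero_smul, Complex.ofReal_one, one_smul]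
      split_ifs <;> simp

/-- Chevalley generators of type C -/
def CDC (n : ℕ) : CD (TDsp n) (CartanMatrix.C n)ᵀ :=
  CD.mk' (TDsp n) (CartanMatrix.C n)ᵀ (fun i => ⟨eCm i, eCm_mem i⟩)
    (fun i k => bd (fun _ => 1) (fun _ => 0) i k) (fun i k => bd (lc n) (fun _ => 0) i k)
    (fun i j => by
      apply Subtype.ext
      rw [coe_lie]
      exact Br_Hm_eCm j i)
    (fun i j => by
      apply Subtype.ext
      rw [coe_lie, QDsp_st]
      refine (Br_eCm_eCm i j).trans ?_
      split_ifs with h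
      · exact (coe_sum_H _).symm
      · rfl)
    (fun i j => cartanC_eq i j)
    (fun a ha => by
      have hA0 : ∀ (i : Fin n) (h : (i : ℕ) + 1 < n),
          InSp (fun i : Fin n => (⟨eCm i, eCm_mem i⟩ : gS n 0 (-1))) (eA i ⟨i + 1, h⟩) := by
        intro i h
        refine InSp.of_eq i ?_
        change eCm i = _
        rw [eCm, dif_pos h]
      have hA : ∀ i j : Fin n, i < j → InSp _ (eA i j) := fun i j hij => InSp.eA hA0 hij
      have hS : ∀ (i j : Fin n), InSp (fun i : Fin n => (⟨eCm i, eCm_mem i⟩ : gS n 0 (-1)))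
          (eS i j) := by
        intro i j
        have hn : 0 < n := by have := i.2; omega
        have hm : ((⟨n - 1, by omega⟩ : Fin n) : ℕ) + 1 = n := by simp; omega
        refine InSp.eS hm hA (InSp.of_eq ⟨n - 1, by omega⟩ ?_) i j
        change eCm _ = _
        rw [eCm, dif_neg (by omega)]
      exact b_pos_sp _ hA hS a ha)
    (fun k => (n : ℝ) - (k : ℕ) - 1 / 2)
    (fun i => (((i : ℕ) : ℝ) + 1) * ((n : ℝ) - 1 / 2) - (i : ℕ) * (((i : ℕ) : ℝ) + 1) / 2)
    h5C h6C

theorem CDC_rho (i : Fin n) : ∑ j, ((CDC n).co i j : ℂ) * ((TDsp n).rho j : ℂ) = 1 := by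
  have h : ∑ j, (CDC n).co i j * (TDsp n).rho j = 1 := by
    have h1 : ∀ j : Fin n, (CDC n).co i j * (TDsp n).rho j =
        bd (fun _ => 1) (fun _ => 0) i j * ((n : ℝ) - (j : ℕ)) := by
      intro j
      rw [TDsp_rho, rhoSp]; rfl
    simp only [h1]
    rw [sum_bd (fun _ => 1) (fun _ => 0) (fun k => (n : ℝ) - (k : ℕ)) i.2]
    have hi := i.2
    by_cases h1 : (i : ℕ) + 1 = n
    · have h2 : ((i : ℕ) : ℝ) + 1 = n := by exact_mod_cast h1
      rw [if_neg (by omega)]
      simp only [zero_mul, ite_self]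
      rw [← h2]; ring
    · rw [if_pos (by omega)]
      simp only [zero_mul, ite_self]
      push_cast; ring
  have := congrArg (fun x : ℝ => (x : ℂ)) h
  push_cast at this
  exact this

/-! ### type D -/

/-- simple root vectors -/
def eDm (i : Fin n) : Matrix (Idx n 0) (Idx n 0) ℂ :=
  if h : (i : ℕ) + 1 < n then eA i ⟨i + 1, h⟩ else eB ⟨i - 1, by omega⟩ i

theorem eDm_mem (i : Fin n) : eDm i ∈ gS n 0 1 := by
  unfold eDm
  split_ifs with h
  · exact eA_mem _ _
  · exact eB_mem _ _

theorem Br_Hm_eDm (hn : 2 ≤ n) (j i : Fin n) :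
    Br (Hm j) (eDm i) = (bd (fun _ => 1) (ld n) i j : ℂ) • eDm i := by
  unfold eDm
  split_ifs with h
  · rw [Br_Hm_eA]
    congr 1
    simp only [bd, ind, Fin.ext_iff, ld]
    push_cast
    split_ifs <;> first | omega | norm_num
  · have hl := last_of_not h
    rw [Br_Hm_eB]
    congr 1
    have hj := j.2
    simp only [bd, ind, Fin.ext_iff, ld]
    push_cast
    split_ifs <;> first | omega | norm_num

theorem Br_eDm_eDm (hn : 2 ≤ n) (i j : Fin n) : Br (eDm i) ((eDm j)ᴴ) =
    if i = j then ∑ k : Fin n, (bd (fun _ => 1) (ld n) i k : ℂ) •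
      (Hm k : Matrix (Idx n 0) (Idx n 0) ℂ) else 0 := by
  rw [sum_bd_smul]
  by_cases hi : (i : ℕ) + 1 < n
  · by_cases hj : (j : ℕ) + 1 < n
    · rw [eDm, eDm, dif_pos hi, dif_pos hj, eA_conjTranspose, Br_eA_eA]
      by_cases hij : i = j
      · subst hij
        have h1 : ¬ ((i : ℕ) + 1 = n) := by omega
        simp only [ind, if_true, one_smul, hi, dif_pos, Complex.ofReal_one, ld, h1, if_false,
          Complex.ofReal_zero, zero_smul, eA_self]
        split_ifs <;> simp
      · have h2 : ¬ ((⟨(i : ℕ) + 1, hi⟩ : Fin n) = ⟨(j : ℕ) + 1, hj⟩) := by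
          intro h; apply hij; apply Fin.ext; simpa using h
        simp [ind, hij, h2]
    · have hlj := last_of_not hj
      have hij : i ≠ j := by intro h; rw [h] at hi; omega
      rw [eDm, eDm, dif_pos hi, dif_neg hj, Br_eA_eB_T, if_neg hij]
      by_cases h3 : i = ⟨(j : ℕ) - 1, by omega⟩
      · have h4 : (⟨(i : ℕ) + 1, hi⟩ : Fin n) = j := by
          apply Fin.ext
          have := congrArg Fin.val h3
          simp only at this ⊢
          omega
        rw [h4]
        simp only [ind, h3.symm, if_true, hij, if_false, zero_smul, add_zero, one_smul,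
          eB_conjTranspose, sub_self, neg_zero]
      · simp [ind, h3, hij]
  · have hli := last_of_not hi
    by_cases hj : (j : ℕ) + 1 < n
    · have hij : i ≠ j := by intro h; rw [← h] at hj; omega
      rw [eDm, eDm, dif_neg hi, dif_pos hj, eA_conjTranspose, if_neg hij]
      have h5 : ∀ X Y : Matrix (Idx n 0) (Idx n 0) ℂ, Br X Y = -Br Y X := by
        intro X Y; rw [Br, Br, neg_sub]
      rw [h5, Br_eA_eB]
      by_cases h3 : j = ⟨(i : ℕ) - 1, by omega⟩
      · have h4 : (⟨(j : ℕ) + 1, hj⟩ : Fin n) = i := by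
          apply Fin.ext
          have := congrArg Fin.val h3
          simp only at this ⊢
          omega
        rw [h4, ← h3]
        have h6 : (eB i i : Matrix (Idx n 0) (Idx n 0) ℂ) = 0 := by rw [eB, sub_self]
        simp [ind, Ne.symm hij, h6]
      · simp [ind, h3, Ne.symm hij]
    · have hij : i = j := by apply Fin.ext; have := last_of_not hj; omega
      subst hij
      have h3 : (⟨(i : ℕ) - 1, by omega⟩ : Fin n) ≠ i := by
        intro h
        have := congrArg Fin.val h
        simp only at this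
        omega
      rw [eDm, dif_neg hi, Br_eB_eB_T _ _ h3, if_pos rfl, dif_neg hi, dif_pos (by omega), ld,
        if_pos hli]
      simp only [sub_zero, Complex.ofReal_one, one_smul]
      abel

/-- Chevalley generators of type D -/
def CDD (n : ℕ) (hn : 2 ≤ n) : CD (TDso n 0 zero_le_one) (CartanMatrix.D n)ᵀ :=
  CD.mk' (TDso n 0 zero_le_one) (CartanMatrix.D n)ᵀ (fun i => ⟨eDm i, eDm_mem i⟩)
    (fun i k => bd (fun _ => 1) (ld n) i k) (fun i k => bd (fun _ => 1) (ld n) i k)
    (fun i j => by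
      apply Subtype.ext
      rw [coe_lie]
      exact Br_Hm_eDm hn j i)
    (fun i j => by
      apply Subtype.ext
      rw [coe_lie, QDso_st]
      refine (Br_eDm_eDm hn i j).trans ?_
      split_ifs with h
      · exact (coe_sum_H _).symm
      · rfl)
    (fun i j => cartanD_eq hn i j)
    (fun a ha => by
      have hA0 : ∀ (i : Fin n) (h : (i : ℕ) + 1 < n),
          InSp (fun i : Fin n => (⟨eDm i, eDm_mem i⟩ : gS n 0 1)) (eA i ⟨i + 1, h⟩) := by
        intro i h
        refine InSp.of_eq i ?_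
        change eDm i = _
        rw [eDm, dif_pos h]
      have hA : ∀ i j : Fin n, i < j → InSp _ (eA i j) := fun i j hij => InSp.eA hA0 hij
      have hB : ∀ (i j : Fin n), i ≠ j → InSp (fun i : Fin n => (⟨eDm i, eDm_mem i⟩ : gS n 0 1))
          (eB i j) := by
        intro i j hij
        have hm : ((⟨n - 1, by omega⟩ : Fin n) : ℕ) + 1 = n := by simp; omega
        have hl : ((⟨n - 1 - 1, by omega⟩ : Fin n) : ℕ) + 1 = (⟨n - 1, by omega⟩ : Fin n) := by
          simp; omega
        refine InSp.eB hm hl hA (InSp.of_eq ⟨n - 1, by omega⟩ ?_) hij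
        change eDm _ = _
        rw [eDm, dif_neg (by omega)]
      exact b_pos_so zero_le_one _ hA hB (fun i k => k.elim0) a ha)
    (fun k => (n : ℝ) - 1 - (k : ℕ))
    (fun i => (if n ≤ (i : ℕ) + 2 then 1 / 2 else 1) *
      ((((i : ℕ) : ℝ) + 1) * ((n : ℝ) - 1) - (i : ℕ) * (((i : ℕ) : ℝ) + 1) / 2))
    (h5D hn) (h6D hn)

theorem CDD_rho (hn : 2 ≤ n) (i : Fin n) :
    ∑ j, ((CDD n hn).co i j : ℂ) * ((TDso n 0 zero_le_one).rho j : ℂ) = 1 := by
  have h : ∑ j, (CDD n hn).co i j * (TDso n 0 zero_le_one).rho j = 1 := by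
    have h1 : ∀ j : Fin n, (CDD n hn).co i j * (TDso n 0 zero_le_one).rho j =
        bd (fun _ => 1) (ld n) i j * ((n : ℝ) - 1 - (j : ℕ)) := by
      intro j
      rw [TDso_rho, rhoSo, Nat.cast_zero, zero_div, add_zero]; rfl
    simp only [h1]
    rw [sum_bd (fun _ => 1) (ld n) (fun k => (n : ℝ) - 1 - (k : ℕ)) i.2]
    have hi := i.2
    by_cases h1 : (i : ℕ) + 1 = n
    · have h2 : ((i : ℕ) : ℝ) + 1 = n := by exact_mod_cast h1
      rw [if_neg (by omega), ld, if_pos h1, if_pos (by omega), Nat.cast_sub (by omega), ← h2]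
      push_cast; ring
    · rw [if_pos (by omega), ld, if_neg h1]
      simp only [zero_mul, ite_self]
      push_cast; ring
  have := congrArg (fun x : ℝ => (x : ℂ)) h
  push_cast at this
  exact this

end

end Kost.QDt
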