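import Pool.Agent.Kost.Raise

/-!
# The combinatorial certificate in types B and D

`lam : Fin l → ℤ` with `∑_{i ∈ K} lam i ≤ |K| (M - |K|)` for all `K` (that is `lam ≤ 2ρ` for
`𝔰𝔬 (M+1)`).  There are a permutation `σ` and `X : Fin l → ℕ` such that
`lam (σ i) ≤ M - X i - #{j | X j ≤ i}`, with the same parity, and all `X i ≤ l`, except that in the
case of the wrong parity exactly one `X b` equals `l + 1`.

The threshold graph: `x_i`, `y_i` (`i < l`), `z_j` (`j < N - 2l`, `N = M + 1`); the `x_i` form a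
clique, are joined to all `z_j`, and `x_i` is joined to `y_j` iff `X i ≤ j`; then
`deg x_i = M - X i` and `deg y_j = #{i | X i ≤ j}`.  (Wrong parity: `x_b` is not joined to `z_0`,
and the other `z_j` form a clique.)
-/

namespace Kost

namespace Landau

open Finset

/-- number of `j` with `X j ≤ i` -/
def dn {l : ℕ} (X : Fin l → ℕ) (i : ℕ) : ℕ := (univ.filter fun j => X j ≤ i).card

/-- **The certificate.** -/
theorem exists_cert {l : ℕ} {M : ℤ} {lam : Fin l → ℤ} (h : Sub l M lam) :
    ∃ (σ : Equiv.Perm (Fin l)) (X : Fin l → ℕ),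
      (∀ i, lam (σ i) ≤ M - X i - dn X i) ∧
      (∀ i, Even (M - X i - dn X i - lam (σ i))) ∧
      ((Even ((l : ℤ) * (M - l) - ∑ i, lam i) ∧ ∀ i, X i ≤ l) ∨
        (Odd ((l : ℤ) * (M - l) - ∑ i, lam i) ∧ ∃ b, X b = l + 1 ∧ ∀ i, i ≠ b → X i ≤ l)) := by
  obtain ⟨D, hD1, hD2, hD3, hD4⟩ := exists_raise h
  -- sort `D` decreasingly
  let f : Fin l → ℤ := fun i => - D i
  let σ : Equiv.Perm (Fin l) := Tuple.sort f
  have hσ : Monotone (f ∘ σ) := Tuple.monotone_sort f
  have hmono : ∀ i j : Fin l, i ≤ j → D (σ j) ≤ D (σ i) := by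
    intro i j hij
    have := hσ hij
    simp only [f, Function.comp] at this
    omega
  let w : ℕ → ℤ := fun i => if hi : i < l then M - D (σ ⟨i, hi⟩) else 0
  have hw' : ∀ i : Fin l, w i = M - D (σ i) := by
    intro i; simp only [w, i.2, dif_pos]
  have hw : ∀ i j, i ≤ j → j < l → w i ≤ w j := by
    intro i j hij hj
    have h1 := hmono ⟨i, by omega⟩ ⟨j, hj⟩ hij
    simp only [w, hj, (by omega : i < l), dif_pos]
    omega
  -- partial sums
  have hps : ∀ k, ∀ hk : k ≤ l, ∑ i ∈ range k, w i =
      (k : ℤ) * M - ∑ i ∈ ((univ : Finset (Fin k)).map (Fin.castLEEmb hk)).map σ.toEmbedding, D i := by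
    intro k hk
    rw [sum_map, sum_map, Finset.sum_range]
    have : (k : ℤ) * M = ∑ i : Fin k, M := by simp
    rw [this, ← sum_sub_distrib]
    refine sum_congr rfl fun i _ => ?_
    rw [show w (i : ℕ) = w ((Fin.castLE hk i : Fin l) : ℕ) from rfl, hw']
    rfl
  have hL : ∀ k ≤ l, (k : ℤ) ^ 2 ≤ ∑ i ∈ range k, w i := by
    intro k hk
    rw [hps k hk]
    have h1 := hD3 (((univ : Finset (Fin k)).map (Fin.castLEEmb hk)).map σ.toEmbedding)
    rw [card_map, card_map, card_univ, Fintype.card_fin] at h1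
    nlinarith
  -- the total
  have htot : ∑ i ∈ range l, w i = (l : ℤ) * M - ∑ i, D i := by
    rw [hps l le_rfl]
    congr 2
    ext x
    simp only [mem_map, mem_univ, true_and, iff_true]
    exact ⟨σ.symm x, ⟨⟨(σ.symm x : ℕ), (σ.symm x).2⟩, rfl⟩, by simp⟩
  have hDtot : ∑ i, D i ≤ (l : ℤ) * (M - l) := by
    have := hD3 univ
    rwa [card_univ, Fintype.card_fin] at this
  have hpar : Even (∑ i, D i - ∑ i, lam i) := by
    rw [← sum_sub_distrib]
    exact Finset.sum_induction _ (fun x => Even x) (fun a b ha hb => ha.add hb) Even.zero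
      (fun i _ => hD2 i)
  obtain ⟨X, hX0, hXw, hXs⟩ := exists_nested l w hw hL
  have hXs' : ∑ i ∈ range l, max (X i - l) 0 = (l : ℤ) * (M - l) - ∑ i, D i := by
    rw [hXs, htot]; ring
  -- natural version
  have hXN : ∀ i : Fin l, (((X i).toNat : ℕ) : ℤ) = X i := fun i => Int.toNat_of_nonneg (hX0 i i.2)
  have hdn : ∀ i : Fin l, ((dn (fun j : Fin l => (X j).toNat) i : ℕ) : ℤ) = cnt l X ((i : ℕ) + 1) := by
    intro i
    unfold dn cnt
    norm_cast
    refine card_bij (fun (j : Fin l) _ => (j : ℕ)) ?_ ?_ ?_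
    · intro j hj
      rw [mem_filter] at hj
      rw [mem_filter, mem_range]
      refine ⟨j.2, ?_⟩
      have h1 := hXN j
      have h2 := hj.2
      simp only at h2
      omega
    · intro j _ k _ hjk
      exact Fin.ext hjk
    · intro j hj
      rw [mem_filter, mem_range] at hj
      refine ⟨⟨j, hj.1⟩, ?_, rfl⟩
      rw [mem_filter]
      refine ⟨mem_univ _, ?_⟩
      have h1 := hXN ⟨j, hj.1⟩
      have h2 := hj.2
      push_cast at h2
      simp only at h1 ⊢
      omega
  have hkey : ∀ i : Fin l, M - (((X i).toNat : ℕ) : ℤ) - (dn (fun j : Fin l => (X j).toNat) i : ℕ)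
      = D (σ i) := by
    intro i
    rw [hdn i, hXN i]
    have h1 := hXw i i.2
    rw [hw' i] at h1
    omega
  refine ⟨σ, fun i => (X i).toNat, ?_, ?_, ?_⟩
  · intro i
    rw [hkey i]
    exact hD1 _
  · intro i
    rw [hkey i]
    exact hD2 _
  · have h01 : (l : ℤ) * (M - l) - ∑ i, D i = 0 ∨ (l : ℤ) * (M - l) - ∑ i, D i = 1 := by omega
    rcases h01 with h0 | h1
    · left
      constructor
      · have : (l : ℤ) * (M - l) - ∑ i, lam i = ∑ i, D i - ∑ i, lam i := by omega
        rw [this]; exact hpar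
      · intro i
        rw [h0] at hXs'
        have h2 := (sum_eq_zero_iff_of_nonneg (fun j _ => le_max_right _ _)).1 hXs' (i : ℕ)
          (mem_range.2 i.2)
        have h3 := hXN i
        show (X i).toNat ≤ l
        omega
    · right
      constructor
      · have : (l : ℤ) * (M - l) - ∑ i, lam i = (∑ i, D i - ∑ i, lam i) + 1 := by omega
        rw [this]; exact hpar.add_one
      · rw [h1] at hXs'
        -- exactly one positive term
        have hex : ∃ b ∈ range l, 0 < max (X b - l) 0 := by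
          by_contra hno
          push Not at hno
          have : ∑ i ∈ range l, max (X i - l) 0 ≤ 0 := sum_nonpos hno
          omega
        obtain ⟨b, hb, hbpos⟩ := hex
        rw [mem_range] at hb
        have hrest := sum_erase_add (range l) (fun i => max (X i - (l:ℤ)) 0) (mem_range.2 hb)
        have hrest0 : 0 ≤ ∑ i ∈ (range l).erase b, max (X i - (l:ℤ)) 0 :=
          sum_nonneg fun j _ => le_max_right _ _
        have hb1 : X b = l + 1 := by omega
        have hr0 : ∑ i ∈ (range l).erase b, max (X i - (l:ℤ)) 0 = 0 := by omega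
        refine ⟨⟨b, hb⟩, ?_, ?_⟩
        · show (X b).toNat = l + 1
          omega
        · intro i hi
          have h2 := (sum_eq_zero_iff_of_nonneg (fun j _ => le_max_right _ _)).1 hr0 (i : ℕ)
            (mem_erase.2 ⟨fun h => hi (Fin.ext h), mem_range.2 i.2⟩)
          have h3 := hXN i
          show (X i).toNat ≤ l
          omega

end Landau

end Kost
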