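import Pool.Agent.Kost.Certs
import Pool.Agent.Kost.GraphBD

/-! # Module C-so (MP_869ec4): `SoCert` from `Kost.Landau.exists_cert`

`b = 0`: type D, `b = 1`: type B. `∑_{i<k} lam i ≤ k (2n+b-1-k)` is `lam ≤ 2ρ` in partial sums; in type
D the sum must be even.
With `l` = number of positive `lam i`, `M = 2n+b-1`, `X`, `σ` from `exists_cert`: planes `i < l`:
`w (x (σ i)) = 4 (l - X i) + 3`, `w (y (σ j)) = 4 (j - l)`, other planes `w = ζ`, `w z = - ζ` with
`ζ = 0`, or `ζ = 2` in the wrong parity case of type B.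
-/

namespace Kost

open Finset

/-- the index set as a sum type -/
def idxEquiv (n b : ℕ) : Fin n ⊕ Fin n ⊕ Fin b ≃ Idx n b where
  toFun := Sum.elim Idx.x (Sum.elim Idx.y Idx.z)
  invFun
    | .x i => Sum.inl i
    | .y i => Sum.inr (Sum.inl i)
    | .z k => Sum.inr (Sum.inr k)
  left_inv := by rintro (i | i | i) <;> rfl
  right_inv := by rintro (i | i | i) <;> rfl

theorem card_idx {n b : ℕ} (P : Idx n b → Prop) [DecidablePred P] :
    ((univ : Finset (Idx n b)).filter P).card =
      (univ.filter fun p : Fin n => P (.x p)).card + (univ.filter fun p : Fin n => P (.y p)).card +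
        (univ.filter fun k : Fin b => P (.z k)).card := by
  rw [card_filter, card_filter, card_filter, card_filter,
    ← (idxEquiv n b).sum_comp (fun i => if P i then 1 else 0), Fintype.sum_sum_type,
    Fintype.sum_sum_type, add_assoc]
  rfl

theorem card_fin {n l : ℕ} (hl : l ≤ n) (P : Fin n → Prop) [DecidablePred P]
    (σ : Equiv.Perm (Fin l)) :
    (univ.filter P).card = (univ.filter fun i : Fin l => P (Fin.castLE hl (σ i))).card +
      (univ.filter fun p : Fin n => l ≤ (p : ℕ) ∧ P p).card := by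
  have h1 : (univ.filter P).card = ((univ.filter fun p : Fin n => (p : ℕ) < l ∧ P p)).card +
      (univ.filter fun p : Fin n => l ≤ (p : ℕ) ∧ P p).card := by
    rw [← card_union_of_disjoint]
    · congr 1
      ext p
      simp only [mem_filter, mem_univ, true_and, mem_union]
      constructor
      · intro h
        rcases Nat.lt_or_ge p l with h' | h'
        · exact Or.inl ⟨h', h⟩
        · exact Or.inr ⟨h', h⟩
      · rintro (h | h)
        · exact h.2
        · exact h.2
    · rw [disjoint_left]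
      intro p h h'
      rw [mem_filter] at h h'
      omega
  rw [h1]
  congr 1
  symm
  refine card_bij (fun i _ => Fin.castLE hl (σ i)) ?_ ?_ ?_
  · intro i hi
    rw [mem_filter] at hi ⊢
    refine ⟨mem_univ _, ?_, hi.2⟩
    rw [Fin.val_castLE]
    exact (σ i).2
  · intro i _ j _ h
    exact σ.injective (Fin.castLE_injective hl h)
  · intro p hp
    rw [mem_filter] at hp
    refine ⟨σ.symm ⟨p, hp.2.1⟩, ?_, ?_⟩
    · rw [mem_filter]
      refine ⟨mem_univ _, ?_⟩
      rw [Equiv.apply_symm_apply]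
      exact hp.2.2
    · rw [Equiv.apply_symm_apply]
      rfl

theorem card_ge {n l : ℕ} (hl : l ≤ n) :
    (univ.filter fun p : Fin n => l ≤ (p : ℕ)).card = n - l := by
  have h1 := card_fin hl (fun _ => True) (1 : Equiv.Perm (Fin l))
  simp only [and_true] at h1
  rw [filter_true, filter_true, card_univ, card_univ, Fintype.card_fin, Fintype.card_fin] at h1
  omega

section Graph

variable {n b l : ℕ} (hl : l ≤ n) (σ : Equiv.Perm (Fin l)) (X : Fin l → ℕ) (ζ : ℤ)

/-- the weights of the threshold graph -/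
def wG : Idx n b → ℤ
  | .x p => if h : (p : ℕ) < l then 4 * ((l : ℤ) - X (σ.symm ⟨p, h⟩)) + 3 else ζ
  | .y p => if h : (p : ℕ) < l then 4 * (((σ.symm ⟨p, h⟩ : Fin l) : ℕ) - (l : ℤ)) else ζ
  | .z _ => -ζ

theorem wG_x (i : Fin l) : wG (b := b) (n := n) σ X ζ (.x (Fin.castLE hl (σ i))) =
    4 * ((l : ℤ) - X i) + 3 := by
  unfold wG
  have h : ((Fin.castLE hl (σ i) : Fin n) : ℕ) < l := (σ i).2
  simp only [h, dif_pos]
  have : (⟨((Fin.castLE hl (σ i) : Fin n) : ℕ), h⟩ : Fin l) = σ i := rfl
  rw [this, Equiv.symm_apply_apply]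

theorem wG_y (i : Fin l) : wG (b := b) (n := n) σ X ζ (.y (Fin.castLE hl (σ i))) =
    4 * ((i : ℕ) - (l : ℤ)) := by
  unfold wG
  have h : ((Fin.castLE hl (σ i) : Fin n) : ℕ) < l := (σ i).2
  simp only [h, dif_pos]
  have : (⟨((Fin.castLE hl (σ i) : Fin n) : ℕ), h⟩ : Fin l) = σ i := rfl
  rw [this, Equiv.symm_apply_apply]

theorem wG_x' {p : Fin n} (h : l ≤ (p : ℕ)) : wG (b := b) σ X ζ (.x p) = ζ :=
  dif_neg (by omega)

theorem wG_y' {p : Fin n} (h : l ≤ (p : ℕ)) : wG (b := b) σ X ζ (.y p) = ζ :=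
  dif_neg (by omega)

theorem wG_z (k : Fin b) : wG (n := n) σ X ζ (.z k) = -ζ := rfl

/-- the degree in five parts -/
theorem deg_parts (w : Idx n b → ℤ) (v : Idx n b) : degA w v =
    ((univ.filter fun i : Fin l => Idx.x (Fin.castLE hl (σ i)) ≠ v ∧
        0 < w v + w (.x (Fin.castLE hl (σ i)))).card +
      (univ.filter fun p : Fin n => l ≤ (p : ℕ) ∧ (Idx.x p ≠ v ∧ 0 < w v + w (.x p))).card) +
    ((univ.filter fun i : Fin l => Idx.y (Fin.castLE hl (σ i)) ≠ v ∧
        0 < w v + w (.y (Fin.castLE hl (σ i)))).card +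
      (univ.filter fun p : Fin n => l ≤ (p : ℕ) ∧ (Idx.y p ≠ v ∧ 0 < w v + w (.y p))).card) +
    (univ.filter fun k : Fin b => Idx.z k ≠ v ∧ 0 < w v + w (.z k)).card := by
  unfold degA
  rw [card_idx, card_fin hl (fun p => Idx.x p ≠ v ∧ 0 < w v + w (.x p)) σ,
    card_fin hl (fun p => Idx.y p ≠ v ∧ 0 < w v + w (.y p)) σ]

end Graph

theorem card_ge_X {l : ℕ} (a : ℕ) : (univ.filter fun j : Fin l => a ≤ (j : ℕ)).card = l - a := by
  rcases Nat.lt_or_ge l a with h | h
  · have : (univ.filter fun j : Fin l => a ≤ (j : ℕ)) = ∅ := by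
      rw [filter_eq_empty_iff]
      intro j _
      omega
    rw [this, card_empty]
    omega
  · exact card_ge h

section Degrees

variable {n b l : ℕ} (hl : l ≤ n) (σ : Equiv.Perm (Fin l)) (X : Fin l → ℕ) (ζ : ℤ)

theorem deg_x (hζ : ζ = 0 ∨ ζ = 2) (hX : ∀ i, X i ≤ l ∨ (ζ = 2 ∧ X i = l + 1))
    (hone : ∀ i j, X i = l + 1 → X j = l + 1 → i = j) (i : Fin l) :
    degA (wG (b := b) σ X ζ) (.x (Fin.castLE hl (σ i))) =
      (l - 1) + 2 * (n - l) + (l - X i) + (if X i ≤ l then b else 0) := by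
  rw [deg_parts hl σ]
  have e1 : (univ.filter fun i' : Fin l => Idx.x (n := n) (b := b) (Fin.castLE hl (σ i')) ≠
      Idx.x (Fin.castLE hl (σ i)) ∧ 0 < wG (b := b) σ X ζ (.x (Fin.castLE hl (σ i))) +
        wG (b := b) σ X ζ (.x (Fin.castLE hl (σ i')))) = univ.erase i := by
    ext i'
    simp only [mem_filter, mem_univ, true_and, mem_erase, and_true, wG_x hl]
    constructor
    · rintro ⟨h, _⟩ rfl
      exact h rfl
    · intro h
      refine ⟨fun h' => h (σ.injective (Fin.castLE_injective hl (Idx.x.inj h'))), ?_⟩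
      have h1 := hX i
      have h2 := hX i'
      have h3 := hone i i'
      have h4 : X i = l + 1 → X i' = l + 1 → False := fun a b => h (h3 a b).symm
      by_cases h5 : X i = l + 1
      · have h6 : X i' ≤ l := by
          rcases h2 with h2 | h2
          · exact h2
          · exact (h4 h5 h2.2).elim
        omega
      · omega
  have hpos : 0 < 4 * ((l : ℤ) - X i) + 3 + ζ := by
    rcases hX i with h | h
    · rcases hζ with h' | h' <;> omega
    · omega
  have e2 : (univ.filter fun p : Fin n => l ≤ (p : ℕ) ∧ (Idx.x (n := n) (b := b) p ≠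
      Idx.x (Fin.castLE hl (σ i)) ∧ 0 < wG (b := b) σ X ζ (.x (Fin.castLE hl (σ i))) +
        wG (b := b) σ X ζ (.x p))) = univ.filter fun p : Fin n => l ≤ (p : ℕ) := by
    ext p
    simp only [mem_filter, mem_univ, true_and, wG_x hl]
    constructor
    · exact fun h => h.1
    · intro h
      refine ⟨h, fun h' => ?_, ?_⟩
      · have h1 := Idx.x.inj h'
        rw [h1, Fin.val_castLE] at h
        exact absurd (σ i).2 (by omega)
      · rw [wG_x' σ X ζ h]; exact hpos
  have e3 : (univ.filter fun j : Fin l => Idx.y (n := n) (b := b) (Fin.castLE hl (σ j)) ≠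
      Idx.x (Fin.castLE hl (σ i)) ∧ 0 < wG (b := b) σ X ζ (.x (Fin.castLE hl (σ i))) +
        wG (b := b) σ X ζ (.y (Fin.castLE hl (σ j)))) =
      univ.filter fun j : Fin l => X i ≤ (j : ℕ) := by
    ext j
    simp only [mem_filter, mem_univ, true_and, wG_x hl, wG_y hl]
    constructor
    · rintro ⟨_, h⟩; omega
    · intro h; exact ⟨by simp, by omega⟩
  have e4 : (univ.filter fun p : Fin n => l ≤ (p : ℕ) ∧ (Idx.y (n := n) (b := b) p ≠
      Idx.x (Fin.castLE hl (σ i)) ∧ 0 < wG (b := b) σ X ζ (.x (Fin.castLE hl (σ i))) +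
        wG (b := b) σ X ζ (.y p))) = univ.filter fun p : Fin n => l ≤ (p : ℕ) := by
    ext p
    simp only [mem_filter, mem_univ, true_and, wG_x hl]
    constructor
    · exact fun h => h.1
    · intro h
      refine ⟨h, by simp, ?_⟩
      rw [wG_y' σ X ζ h]; exact hpos
  have e5 : (univ.filter fun k : Fin b => Idx.z (n := n) k ≠
      Idx.x (Fin.castLE hl (σ i)) ∧ 0 < wG (b := b) σ X ζ (.x (Fin.castLE hl (σ i))) +
        wG (b := b) (n := n) σ X ζ (.z k)).card = if X i ≤ l then b else 0 := by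
    split_ifs with h
    · have : (univ.filter fun k : Fin b => Idx.z (n := n) k ≠
        Idx.x (Fin.castLE hl (σ i)) ∧ 0 < wG (b := b) σ X ζ (.x (Fin.castLE hl (σ i))) +
          wG (b := b) (n := n) σ X ζ (.z k)) = univ := by
        rw [filter_eq_self]
        intro k _
        refine ⟨by simp, ?_⟩
        rw [wG_x hl, wG_z]
        rcases hζ with h' | h' <;> omega
      rw [this, card_univ, Fintype.card_fin]
    · rw [card_eq_zero, filter_eq_empty_iff]
      intro k _ hk
      have h1 := hk.2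
      rw [wG_x hl, wG_z] at h1
      have h2 := hX i
      omega
  rw [e1, e2, e3, e4, e5, card_erase_of_mem (mem_univ _), card_univ, Fintype.card_fin, card_ge hl,
    card_ge_X]
  omega

theorem deg_y (hζ : ζ = 0 ∨ ζ = 2) (j : Fin l) :
    degA (wG (b := b) σ X ζ) (.y (Fin.castLE hl (σ j))) = Landau.dn X j := by
  rw [deg_parts hl σ]
  have hj : (j : ℕ) < l := j.2
  have e1 : (univ.filter fun i' : Fin l => Idx.x (n := n) (b := b) (Fin.castLE hl (σ i')) ≠
      Idx.y (Fin.castLE hl (σ j)) ∧ 0 < wG (b := b) σ X ζ (.y (Fin.castLE hl (σ j))) +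
        wG (b := b) σ X ζ (.x (Fin.castLE hl (σ i')))) =
      univ.filter fun i' : Fin l => X i' ≤ (j : ℕ) := by
    ext i'
    simp only [mem_filter, mem_univ, true_and, wG_x hl, wG_y hl]
    constructor
    · rintro ⟨_, h⟩; omega
    · intro h; exact ⟨by simp, by omega⟩
  have e2 : (univ.filter fun p : Fin n => l ≤ (p : ℕ) ∧ (Idx.x (n := n) (b := b) p ≠
      Idx.y (Fin.castLE hl (σ j)) ∧ 0 < wG (b := b) σ X ζ (.y (Fin.castLE hl (σ j))) +
        wG (b := b) σ X ζ (.x p))) = ∅ := by
    rw [filter_eq_empty_iff]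
    rintro p _ ⟨h1, _, h2⟩
    rw [wG_y hl, wG_x' σ X ζ h1] at h2
    rcases hζ with h' | h' <;> omega
  have e3 : (univ.filter fun i' : Fin l => Idx.y (n := n) (b := b) (Fin.castLE hl (σ i')) ≠
      Idx.y (Fin.castLE hl (σ j)) ∧ 0 < wG (b := b) σ X ζ (.y (Fin.castLE hl (σ j))) +
        wG (b := b) σ X ζ (.y (Fin.castLE hl (σ i')))) = ∅ := by
    rw [filter_eq_empty_iff]
    rintro i' _ ⟨_, h2⟩
    rw [wG_y hl, wG_y hl] at h2
    have := i'.2
    omega
  have e4 : (univ.filter fun p : Fin n => l ≤ (p : ℕ) ∧ (Idx.y (n := n) (b := b) p ≠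
      Idx.y (Fin.castLE hl (σ j)) ∧ 0 < wG (b := b) σ X ζ (.y (Fin.castLE hl (σ j))) +
        wG (b := b) σ X ζ (.y p))) = ∅ := by
    rw [filter_eq_empty_iff]
    rintro p _ ⟨h1, _, h2⟩
    rw [wG_y hl, wG_y' σ X ζ h1] at h2
    rcases hζ with h' | h' <;> omega
  have e5 : (univ.filter fun k : Fin b => Idx.z (n := n) k ≠
      Idx.y (Fin.castLE hl (σ j)) ∧ 0 < wG (b := b) σ X ζ (.y (Fin.castLE hl (σ j))) +
        wG (b := b) (n := n) σ X ζ (.z k)) = ∅ := by
    rw [filter_eq_empty_iff]
    rintro k _ ⟨_, h2⟩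
    rw [wG_y hl, wG_z] at h2
    rcases hζ with h' | h' <;> omega
  rw [e1, e2, e3, e4, e5, card_empty]
  rfl

include hl in
theorem deg_p (hζ : ζ = 0 ∨ ζ = 2) (hX : ∀ i, X i ≤ l ∨ (ζ = 2 ∧ X i = l + 1))
    {p : Fin n} (hp : l ≤ (p : ℕ)) {v : Idx n b} (hv : v = .x p ∨ v = .y p) :
    degA (wG (b := b) σ X ζ) v = l + if ζ = 2 then 2 * (n - l) - 1 else 0 := by
  have hwv : wG (b := b) σ X ζ v = ζ := by
    rcases hv with rfl | rfl
    · exact wG_x' σ X ζ hp
    · exact wG_y' σ X ζ hp
  rw [deg_parts hl σ, hwv]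
  have hne : ∀ i : Fin l, Fin.castLE hl (σ i) ≠ p := by
    intro i h
    rw [← h, Fin.val_castLE] at hp
    exact absurd (σ i).2 (by omega)
  have e1 : (univ.filter fun i' : Fin l => Idx.x (n := n) (b := b) (Fin.castLE hl (σ i')) ≠
      v ∧ 0 < ζ + wG (b := b) σ X ζ (.x (Fin.castLE hl (σ i')))) = univ := by
    rw [filter_eq_self]
    intro i _
    refine ⟨?_, ?_⟩
    · rcases hv with rfl | rfl
      · exact fun h => hne i (Idx.x.inj h)
      · simp
    · rw [wG_x hl]
      rcases hX i with h | h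
      · rcases hζ with h' | h' <;> omega
      · omega
  have e3 : (univ.filter fun i' : Fin l => Idx.y (n := n) (b := b) (Fin.castLE hl (σ i')) ≠
      v ∧ 0 < ζ + wG (b := b) σ X ζ (.y (Fin.castLE hl (σ i')))) = ∅ := by
    rw [filter_eq_empty_iff]
    rintro i' _ ⟨_, h2⟩
    rw [wG_y hl] at h2
    have := i'.2
    rcases hζ with h' | h' <;> omega
  have e5 : (univ.filter fun k : Fin b => Idx.z (n := n) k ≠
      v ∧ 0 < ζ + wG (b := b) (n := n) σ X ζ (.z k)) = ∅ := by
    rw [filter_eq_empty_iff]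
    rintro k _ ⟨_, h2⟩
    rw [wG_z] at h2
    omega
  have hxy : (univ.filter fun p' : Fin n => l ≤ (p' : ℕ) ∧ (Idx.x (n := n) (b := b) p' ≠
      v ∧ 0 < ζ + wG (b := b) σ X ζ (.x p'))).card +
      (univ.filter fun p' : Fin n => l ≤ (p' : ℕ) ∧ (Idx.y (n := n) (b := b) p' ≠
      v ∧ 0 < ζ + wG (b := b) σ X ζ (.y p'))).card = if ζ = 2 then 2 * (n - l) - 1 else 0 := by
    have hpn : l < n := lt_of_le_of_lt hp p.2
    rcases hζ with h0 | h2
    · have a1 : (univ.filter fun p' : Fin n => l ≤ (p' : ℕ) ∧ (Idx.x (n := n) (b := b) p' ≠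
        v ∧ 0 < ζ + wG (b := b) σ X ζ (.x p'))) = ∅ := by
        rw [filter_eq_empty_iff]
        rintro p' _ ⟨h1, _, h2⟩
        rw [wG_x' σ X ζ h1] at h2
        omega
      have a2 : (univ.filter fun p' : Fin n => l ≤ (p' : ℕ) ∧ (Idx.y (n := n) (b := b) p' ≠
        v ∧ 0 < ζ + wG (b := b) σ X ζ (.y p'))) = ∅ := by
        rw [filter_eq_empty_iff]
        rintro p' _ ⟨h1, _, h2⟩
        rw [wG_y' σ X ζ h1] at h2
        omega
      rw [a1, a2, card_empty, if_neg (by omega)]
    · have hpm : p ∈ univ.filter fun p' : Fin n => l ≤ (p' : ℕ) := by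
        rw [mem_filter]; exact ⟨mem_univ _, hp⟩
      have a1 : ∀ (c : Fin n → Idx n b), (∀ p' : Fin n, l ≤ (p' : ℕ) → wG (b := b) σ X ζ (c p') = ζ) →
          (∀ p', c p' ≠ v) →
          (univ.filter fun p' : Fin n => l ≤ (p' : ℕ) ∧ (c p' ≠
            v ∧ 0 < ζ + wG (b := b) σ X ζ (c p'))).card = n - l := by
        intro c hc hcv
        rw [← card_ge hl]
        congr 1
        ext p'
        simp only [mem_filter, mem_univ, true_and]
        constructor
        · exact fun h => h.1
        · intro h; exact ⟨h, hcv p', by rw [hc p' h]; omega⟩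
      have a2 : ∀ (c : Fin n → Idx n b), (∀ p' : Fin n, l ≤ (p' : ℕ) → wG (b := b) σ X ζ (c p') = ζ) →
          (∀ p', c p' = v ↔ p' = p) →
          (univ.filter fun p' : Fin n => l ≤ (p' : ℕ) ∧ (c p' ≠
            v ∧ 0 < ζ + wG (b := b) σ X ζ (c p'))).card = n - l - 1 := by
        intro c hc hcv
        rw [← card_ge hl, ← card_erase_of_mem hpm]
        congr 1
        ext p'
        simp only [mem_filter, mem_univ, true_and, mem_erase]
        constructor
        · rintro ⟨h, h1, _⟩
          exact ⟨fun h' => h1 ((hcv p').2 h'), h⟩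
        · rintro ⟨h1, h⟩
          exact ⟨h, fun h' => h1 ((hcv p').1 h'), by rw [hc p' h]; omega⟩
      rw [if_pos h2]
      rcases hv with rfl | rfl
      · rw [a2 Idx.x (fun p' h => wG_x' σ X ζ h) (fun p' => ⟨fun h => Idx.x.inj h, fun h => by rw [h]⟩),
          a1 Idx.y (fun p' h => wG_y' σ X ζ h) (fun p' => by simp)]
        omega
      · rw [a1 Idx.x (fun p' h => wG_x' σ X ζ h) (fun p' => by simp),
          a2 Idx.y (fun p' h => wG_y' σ X ζ h) (fun p' => ⟨fun h => Idx.y.inj h, fun h => by rw [h]⟩)]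
        omega
  rw [e1, e3, e5, card_univ, Fintype.card_fin]
  simp only [card_empty]
  omega

include hl in
theorem deg_z (hζ : ζ = 0 ∨ ζ = 2) (hX : ∀ i, X i ≤ l ∨ (ζ = 2 ∧ X i = l + 1)) (k : Fin b) :
    degA (wG (b := b) (n := n) σ X ζ) (.z k) = (univ.filter fun i : Fin l => X i ≤ l).card := by
  rw [deg_parts hl σ, wG_z]
  have e1 : (univ.filter fun i' : Fin l => Idx.x (n := n) (b := b) (Fin.castLE hl (σ i')) ≠
      .z k ∧ 0 < -ζ + wG (b := b) σ X ζ (.x (Fin.castLE hl (σ i')))) =
      univ.filter fun i : Fin l => X i ≤ l := by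
    ext i
    simp only [mem_filter, mem_univ, true_and, wG_x hl]
    constructor
    · rintro ⟨_, h⟩
      have h2 := hX i
      omega
    · intro h
      refine ⟨by simp, ?_⟩
      rcases hζ with h' | h' <;> omega
  have e2 : (univ.filter fun p : Fin n => l ≤ (p : ℕ) ∧ (Idx.x (n := n) (b := b) p ≠
      .z k ∧ 0 < -ζ + wG (b := b) σ X ζ (.x p))) = ∅ := by
    rw [filter_eq_empty_iff]
    rintro p _ ⟨h1, _, h2⟩
    rw [wG_x' σ X ζ h1] at h2
    omega
  have e3 : (univ.filter fun i' : Fin l => Idx.y (n := n) (b := b) (Fin.castLE hl (σ i')) ≠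
      .z k ∧ 0 < -ζ + wG (b := b) σ X ζ (.y (Fin.castLE hl (σ i')))) = ∅ := by
    rw [filter_eq_empty_iff]
    rintro i' _ ⟨_, h2⟩
    rw [wG_y hl] at h2
    have := i'.2
    rcases hζ with h' | h' <;> omega
  have e4 : (univ.filter fun p : Fin n => l ≤ (p : ℕ) ∧ (Idx.y (n := n) (b := b) p ≠
      .z k ∧ 0 < -ζ + wG (b := b) σ X ζ (.y p))) = ∅ := by
    rw [filter_eq_empty_iff]
    rintro p _ ⟨h1, _, h2⟩
    rw [wG_y' σ X ζ h1] at h2
    omega
  have e5 : (univ.filter fun k' : Fin b => Idx.z (n := n) k' ≠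
      .z k ∧ 0 < -ζ + wG (b := b) (n := n) σ X ζ (.z k')) = ∅ := by
    rw [filter_eq_empty_iff]
    rintro k' _ ⟨_, h2⟩
    rw [wG_z] at h2
    rcases hζ with h' | h' <;> omega
  rw [e1, e2, e3, e4, e5]
  simp only [card_empty]
  omega

end Degrees

theorem so_cert {n b : ℕ} (hb : b ≤ 1) (lam : Fin n → ℕ) (hanti : Antitone lam)
    (hsum : ∀ k : ℕ, k ≤ n → ∑ i ∈ Finset.univ.filter (fun i : Fin n => (i : ℕ) < k), (lam i : ℤ) ≤
      k * (2 * n + b - 1 - k))
    (hpar : b = 0 → Even (∑ i, lam i)) : SoCert n b lam := by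
  -- the number of positive entries
  obtain ⟨l, hl, hpos⟩ : ∃ l ≤ n, ∀ i : Fin n, 0 < lam i ↔ (i : ℕ) < l := by
    refine ⟨(univ.filter fun i : Fin n => 0 < lam i).card, ?_, ?_⟩
    · have := card_filter_le (univ : Finset (Fin n)) (fun i => 0 < lam i)
      rwa [card_univ, Fintype.card_fin] at this
    · intro i
      constructor
      · intro h
        have h1 : (Finset.Iic i) ⊆ univ.filter fun i : Fin n => 0 < lam i := by
          intro j hj
          rw [mem_filter]
          exact ⟨mem_univ _, h.trans_le (hanti (Finset.mem_Iic.1 hj))⟩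
        have h2 := card_le_card h1
        rw [Fin.card_Iic] at h2
        omega
      · intro h
        by_contra h0
        have h1 : (univ.filter fun i : Fin n => 0 < lam i) ⊆ Finset.Iio i := by
          intro j hj
          rw [mem_filter] at hj
          rw [Finset.mem_Iio]
          by_contra hij
          exact h0 (hj.2.trans_le (hanti (not_lt.1 hij)))
        have h2 := card_le_card h1
        rw [Fin.card_Iio] at h2
        omega
  let lam' : Fin l → ℤ := fun i => (lam (Fin.castLE hl i) : ℤ)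
  have hpart : ∀ k ≤ l, ∑ i ∈ range k, (fun i : ℕ => if h : i < n then (lam ⟨i, h⟩ : ℤ) else 0) i =
      ∑ i ∈ Finset.univ.filter (fun i : Fin n => (i : ℕ) < k), (lam i : ℤ) := by
    intro k hk
    rw [sum_filter, Finset.sum_fin_eq_sum_range]
    have h1 : ∀ i ∈ range n, (if h : i < n then (if i < k then (lam ⟨i, h⟩ : ℤ) else 0) else 0) =
        if i < k then (fun i : ℕ => if h : i < n then (lam ⟨i, h⟩ : ℤ) else 0) i else 0 := by
      intro i hi
      rw [mem_range] at hi
      simp only [hi, dif_pos]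
    rw [sum_congr rfl h1, ← sum_filter]
    congr 1
    ext i
    simp only [mem_range, mem_filter]
    omega
  have hSub : Landau.Sub l (2 * n + b - 1) lam' := by
    intro K
    have hKl : K.card ≤ l := by
      have := card_le_univ K
      rwa [Fintype.card_fin] at this
    have h1 := Landau.sum_le_partial (l := l)
      (f := fun i : ℕ => if h : i < n then (lam ⟨i, h⟩ : ℤ) else 0) (by
        intro i j hij hj
        have hi' : i < n := by omega
        have hj' : j < n := by omega
        simp only [hi', hj', dif_pos]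
        exact_mod_cast hanti (show (⟨i, hi'⟩ : Fin n) ≤ ⟨j, hj'⟩ from hij)) K
    rw [hpart K.card hKl] at h1
    have h2 := hsum K.card (hKl.trans hl)
    have h3 : ∑ i ∈ K, lam' i =
        ∑ i ∈ K, (fun i : ℕ => if h : i < n then (lam ⟨i, h⟩ : ℤ) else 0) i := by
      refine sum_congr rfl fun i _ => ?_
      have hi' : (i : ℕ) < n := lt_of_lt_of_le i.2 hl
      simp only [hi', dif_pos, lam']
      rfl
    rw [h3]
    exact h1.trans h2
  have htot : ∑ i, lam' i = ∑ i, (lam i : ℤ) := by
    have h1 := hpart l le_rfl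
    have h2 : ∑ i ∈ Finset.univ.filter (fun i : Fin n => (i : ℕ) < l), (lam i : ℤ) =
        ∑ i, (lam i : ℤ) := by
      rw [sum_filter]
      refine sum_congr rfl fun i _ => ?_
      split_ifs with h
      · rfl
      · have : lam i = 0 := by
          by_contra h0
          exact h ((hpos i).1 (Nat.pos_of_ne_zero h0))
        rw [this]; rfl
    rw [← h2, ← h1, Finset.sum_range]
    refine sum_congr rfl fun i _ => ?_
    have hi' : (i : ℕ) < n := lt_of_lt_of_le i.2 hl
    simp only [hi', dif_pos, lam']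
    rfl
  obtain ⟨σ, X, hle, hev, hcase⟩ := Landau.exists_cert hSub
  have hplane : ∀ i : Fin n, 0 < lam i → ∃ j : Fin l, i = Fin.castLE hl (σ j) := by
    intro i hi
    refine ⟨σ.symm ⟨i, (hpos i).1 hi⟩, ?_⟩
    rw [Equiv.apply_symm_apply]
    rfl
  have hge : ∀ i : Fin n, lam i = 0 → l ≤ (i : ℕ) := by
    intro i hi
    by_contra h
    have := (hpos i).2 (by omega)
    omega
  rcases hcase with ⟨-, hX⟩ | ⟨hodd, β, hβ, hX⟩
  · -- right parity
    refine ⟨wG σ X 0, l, ?_, ?_, ?_⟩
    · intro i hi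
      obtain ⟨j, rfl⟩ := hplane i hi
      have hXj := hX j
      have hj : (j : ℕ) < l := j.2
      rw [deg_x hl σ X 0 (Or.inl rfl) (fun i => Or.inl (hX i)) (fun i _ h => by
        have := hX i; omega), deg_y hl σ X 0 (Or.inl rfl), if_pos hXj]
      have h1 := hle j
      have h2 := hev j
      simp only [lam'] at h1 h2
      rw [Int.even_iff] at h2
      rw [Nat.even_iff]
      constructor <;> omega
    · intro i hi
      have hge' := hge i hi
      rw [deg_p hl σ X 0 (Or.inl rfl) (fun i => Or.inl (hX i)) hge' (Or.inl rfl),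
        deg_p hl σ X 0 (Or.inl rfl) (fun i => Or.inl (hX i)) hge' (Or.inr rfl), if_neg (by norm_num)]
      exact ⟨rfl, by rw [Nat.even_iff]; omega⟩
    · intro k
      rw [deg_z hl σ X 0 (Or.inl rfl) (fun i => Or.inl (hX i)), filter_true_of_mem fun i _ => hX i,
        card_univ, Fintype.card_fin]
      rw [Nat.even_iff]; omega
  · -- wrong parity
    have hb1 : b = 1 := by
      by_contra hb0
      have hb0' : b = 0 := by omega
      have h1 := hpar hb0'
      rw [htot] at hodd
      have h2 : Even (∑ i, (lam i : ℤ)) := by exact_mod_cast h1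
      rw [Int.odd_sub] at hodd
      have h3 : ¬ Odd (∑ i, (lam i : ℤ)) := Int.not_odd_iff_even.2 h2
      have h4 : Even ((l : ℤ) * (2 * n + b - 1 - l)) := by
        subst hb0'
        rcases Int.even_or_odd (l : ℤ) with hlp | hlp
        · exact hlp.mul_right _
        · refine Even.mul_left ?_ _
          rw [Int.odd_iff] at hlp
          rw [Int.even_iff]
          push_cast
          omega
      have h5 := hodd.2 h2
      exact (Int.not_odd_iff_even.2 h4) h5
    have hX' : ∀ i, X i ≤ l ∨ ((2 : ℤ) = 2 ∧ X i = l + 1) := by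
      intro i
      by_cases h : i = β
      · right; rw [h]; exact ⟨rfl, hβ⟩
      · left; exact hX i h
    have hone : ∀ i j, X i = l + 1 → X j = l + 1 → i = j := by
      intro i j h1 h2
      have e1 : i = β := by
        by_contra h
        have := hX i h
        omega
      have e2 : j = β := by
        by_contra h
        have := hX j h
        omega
      rw [e1, e2]
    have hl1 : 0 < l := lt_of_le_of_lt (Nat.zero_le _) β.2
    refine ⟨wG σ X 2, l + 1, ?_, ?_, ?_⟩
    · intro i hi
      obtain ⟨j, rfl⟩ := hplane i hi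
      have hj : (j : ℕ) < l := j.2
      rw [deg_x hl σ X 2 (Or.inr rfl) hX' hone, deg_y hl σ X 2 (Or.inr rfl)]
      have h1 := hle j
      have h2 := hev j
      simp only [lam'] at h1 h2
      rw [Int.even_iff] at h2
      rw [Nat.even_iff]
      have hXj := hX' j
      subst hb1
      by_cases hXl : X j ≤ l
      · rw [if_pos hXl]
        constructor <;> omega
      · rw [if_neg hXl]
        constructor <;> omega
    · intro i hi
      have hge' := hge i hi
      have hin : (i : ℕ) < n := i.2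
      rw [deg_p hl σ X 2 (Or.inr rfl) hX' hge' (Or.inl rfl),
        deg_p hl σ X 2 (Or.inr rfl) hX' hge' (Or.inr rfl), if_pos rfl]
      exact ⟨rfl, by rw [Nat.even_iff]; omega⟩
    · intro k
      rw [deg_z hl σ X 2 (Or.inr rfl) hX']
      have h1 : (univ.filter fun i : Fin l => X i ≤ l) = univ.erase β := by
        ext i
        simp only [mem_filter, mem_univ, true_and, mem_erase, and_true]
        constructor
        · rintro h rfl; omega
        · exact hX i
      rw [h1, card_erase_of_mem (mem_univ _), card_univ, Fintype.card_fin, Nat.even_iff]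
      omega

end Kost
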