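import Pool.Agent.Kost.CombTop

/-!
# Kostant's conjecture, type C: the combinatorial certificate (H) of helper40

`Kost.typeC_comb`: for every partition `lam` with `l ≤ n` positive rows, even sum and
`S_k ≤ k (2 n + 1 - k)` there are `y ∈ [0,l]^l`, `x_k ≤ y_k` of the same parity and middle heights
`z_1, ..., z_M`, `M = 2 (n - l) + 1`, with `lam_i + y_i = l + #{x ≥ i} + #{z ≥ i}`.
-/

open Finset

namespace Kost

/-- height (`≥ -1`) of the `j`-th column of `ν_0 ≥ ν_1 ≥ ... ≥ ν_L` -/
noncomputable def colh (L : ℤ) (ν : ℤ → ℤ) (j : ℤ) : ℤ :=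
  (((Icc 0 L).filter (fun i => j ≤ ν i)).card : ℤ) - 1

section colh

variable {L : ℤ} {ν : ℤ → ℤ}

theorem colh_ge_iff (anti : ∀ i j, 0 ≤ i → i ≤ j → j ≤ L → ν j ≤ ν i) {i : ℤ} (hi : 0 ≤ i)
    (hiL : i ≤ L) (j : ℤ) : i ≤ colh L ν j ↔ j ≤ ν i := by
  unfold colh
  constructor
  · intro h
    by_contra hcon
    push Not at hcon
    have h1 : ((Icc 0 L).filter (fun i => j ≤ ν i)).card ≤ (Ico 0 i).card := by
      refine card_le_card fun k hk => ?_
      rw [mem_filter, mem_Icc] at hk
      rw [mem_Ico]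
      refine ⟨hk.1.1, ?_⟩
      by_contra h2
      have := anti i k hi (by omega) hk.1.2
      omega
    rw [Int.card_Ico] at h1
    omega
  · intro h
    have h1 : (Icc 0 i).card ≤ ((Icc 0 L).filter (fun i => j ≤ ν i)).card := by
      refine card_le_card fun k hk => ?_
      rw [mem_Icc] at hk
      rw [mem_filter, mem_Icc]
      have := anti k i hk.1 hk.2 hiL
      exact ⟨⟨hk.1, by omega⟩, by omega⟩
    rw [Int.card_Icc] at h1
    omega

theorem colh_ge (L : ℤ) (ν : ℤ → ℤ) (j : ℤ) : -1 ≤ colh L ν j := by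
  unfold colh
  omega

theorem colh_le (hL : 0 ≤ L) (ν : ℤ → ℤ) (j : ℤ) : colh L ν j ≤ L := by
  unfold colh
  have h1 : ((Icc 0 L).filter (fun i => j ≤ ν i)).card ≤ (Icc 0 L).card := card_filter_le _ _
  rw [Int.card_Icc] at h1
  omega

/-- number of columns of height `≥ i` -/
theorem card_colh (anti : ∀ i j, 0 ≤ i → i ≤ j → j ≤ L → ν j ≤ ν i) {i : ℤ} (hi : 0 ≤ i)
    (hiL : i ≤ L) {N : ℤ} (h0 : 0 ≤ ν i) (hN : ν i ≤ N) :
    (((Icc 1 N).filter (fun j => i ≤ colh L ν j)).card : ℤ) = ν i := by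
  have : (Icc 1 N).filter (fun j => i ≤ colh L ν j) = Icc 1 (ν i) := by
    ext j
    rw [mem_filter, colh_ge_iff anti hi hiL, mem_Icc, mem_Icc]
    omega
  rw [this, Int.card_Icc]
  omega

theorem sum_colh {N : ℤ} (hN : 0 ≤ N) (h0 : ∀ i, 0 ≤ i → i ≤ L → 0 ≤ ν i ∧ ν i ≤ N) :
    ∑ j ∈ Icc 1 N, colh L ν j = ∑ i ∈ Icc 0 L, ν i - N := by
  unfold colh
  rw [sum_sub_distrib, sum_const, Int.card_Icc, nsmul_eq_mul, mul_one]
  have h1 : ∀ j ∈ Icc 1 N, (((Icc 0 L).filter (fun i => j ≤ ν i)).card : ℤ) =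
      ∑ i ∈ Icc 0 L, if j ≤ ν i then 1 else 0 := by
    intro j _
    rw [card_filter]
    push_cast
    rfl
  rw [sum_congr rfl h1, sum_comm]
  have h2 : ∀ i ∈ Icc 0 L, (∑ j ∈ Icc 1 N, if j ≤ ν i then (1 : ℤ) else 0) = ν i := by
    intro i hi
    rw [mem_Icc] at hi
    have := h0 i hi.1 hi.2
    rw [← sum_filter, sum_const, nsmul_eq_mul, mul_one]
    have h3 : (Icc 1 N).filter (fun j => j ≤ ν i) = Icc 1 (ν i) := by
      ext j
      simp only [mem_filter, mem_Icc]
      omega
    rw [h3, Int.card_Icc]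
    omega
  rw [sum_congr rfl h2]
  have : (((N + 1 - 1).toNat : ℕ) : ℤ) = N := by omega
  rw [this]

end colh

/-- parity of a sum -/
theorem sum_mod_two (S : Finset ℤ) (f : ℤ → ℤ) :
    (∑ s ∈ S, f s) % 2 = ((S.filter (fun s => f s % 2 ≠ 0)).card : ℤ) % 2 := by
  induction S using Finset.induction_on with
  | empty => simp
  | insert a S ha ih =>
    rw [sum_insert ha, filter_insert]
    split_ifs with h
    · rw [card_insert_of_notMem (by simp [ha])]
      push_cast
      omega
    · omega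

/-- rearrangement of heights: classes of slots are prescribed -/
theorem rearr (S : Finset ℤ) (col : ℤ → ℤ) (P g : ℤ → Prop) [DecidablePred P] [DecidablePred g]
    (h : (S.filter (fun s => P (col s))).card = (S.filter g).card) :
    ∃ H : ℤ → ℤ, (∀ s ∈ S, (P (H s) ↔ g s) ∧ ∃ s' ∈ S, H s = col s') ∧
      ∀ (Q : ℤ → Prop) [DecidablePred Q],
        (S.filter (fun s => Q (H s))).card = (S.filter (fun s => Q (col s))).card := by
  classical
  have h' : (S.filter (fun s => ¬ P (col s))).card = (S.filter (fun s => ¬ g s)).card := by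
    have e1 := card_filter_add_card_filter_not (s := S) (fun s => P (col s))
    have e2 := card_filter_add_card_filter_not (s := S) g
    omega
  let e : {s // s ∈ S.filter g} ≃ {s // s ∈ S.filter (fun s => P (col s))} :=
    Finset.equivOfCardEq h.symm
  let e' : {s // s ∈ S.filter (fun s => ¬ g s)} ≃ {s // s ∈ S.filter (fun s => ¬ P (col s))} :=
    Finset.equivOfCardEq h'.symm
  let σ : ℤ → ℤ := fun s => if hs : s ∈ S.filter g then (e ⟨s, hs⟩ : ℤ) else
    if hs : s ∈ S.filter (fun s => ¬ g s) then (e' ⟨s, hs⟩ : ℤ) else 0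
  have hσ1 : ∀ s (hs : s ∈ S.filter g), σ s = (e ⟨s, hs⟩ : ℤ) := fun s hs => dif_pos hs
  have hσ2 : ∀ s (hs : s ∈ S.filter (fun s => ¬ g s)), σ s = (e' ⟨s, hs⟩ : ℤ) := by
    intro s hs
    have : s ∉ S.filter g := by
      rw [mem_filter] at hs ⊢
      exact fun h => hs.2 h.2
    show dite _ _ _ = _
    rw [dif_neg this, dif_pos hs]
  have hσS : ∀ s ∈ S, σ s ∈ S ∧ (P (col (σ s)) ↔ g s) := by
    intro s hs
    by_cases hg : g s
    · have h1 : s ∈ S.filter g := mem_filter.2 ⟨hs, hg⟩
      rw [hσ1 s h1]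
      have := (e ⟨s, h1⟩).2
      rw [mem_filter] at this
      exact ⟨this.1, ⟨fun _ => hg, fun _ => this.2⟩⟩
    · have h1 : s ∈ S.filter (fun s => ¬ g s) := mem_filter.2 ⟨hs, hg⟩
      rw [hσ2 s h1]
      have := (e' ⟨s, h1⟩).2
      rw [mem_filter] at this
      exact ⟨this.1, ⟨fun h => absurd h this.2, fun h => absurd h hg⟩⟩
  have hinj : Set.InjOn σ S := by
    intro a ha b hb hab
    have ha' := hσS a ha
    have hb' := hσS b hb
    rw [hab] at ha'
    by_cases hg : g a
    · have hgb : g b := hb'.2.1 (ha'.2.2 hg)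
      have h1 : a ∈ S.filter g := mem_filter.2 ⟨ha, hg⟩
      have h2 : b ∈ S.filter g := mem_filter.2 ⟨hb, hgb⟩
      rw [hσ1 a h1, hσ1 b h2] at hab
      have := e.injective (Subtype.ext hab)
      exact congrArg Subtype.val this
    · have hgb : ¬ g b := fun h => hg (ha'.2.1 (hb'.2.2 h))
      have h1 : a ∈ S.filter (fun s => ¬ g s) := mem_filter.2 ⟨ha, hg⟩
      have h2 : b ∈ S.filter (fun s => ¬ g s) := mem_filter.2 ⟨hb, hgb⟩
      rw [hσ2 a h1, hσ2 b h2] at hab
      have := e'.injective (Subtype.ext hab)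
      exact congrArg Subtype.val this
  have himage : S.image σ = S := by
    refine eq_of_subset_of_card_le (fun s hs => ?_) (card_image_of_injOn hinj).ge
    rw [mem_image] at hs
    obtain ⟨a, ha, rfl⟩ := hs
    exact (hσS a ha).1
  refine ⟨fun s => col (σ s), fun s hs => ⟨(hσS s hs).2, σ s, (hσS s hs).1, rfl⟩, ?_⟩
  intro Q _
  have : (S.filter (fun s => Q (col s))) = (S.filter (fun s => Q (col (σ s)))).image σ := by
    ext b
    rw [mem_filter, mem_image]
    constructor
    · rintro ⟨hb, hQ⟩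
      rw [← himage, mem_image] at hb
      obtain ⟨a, ha, rfl⟩ := hb
      exact ⟨a, mem_filter.2 ⟨ha, hQ⟩, rfl⟩
    · rintro ⟨a, ha, rfl⟩
      rw [mem_filter] at ha
      exact ⟨(hσS a ha.1).1, ha.2⟩
  rw [this, card_image_of_injOn]
  intro a ha b hb hab
  rw [mem_coe, mem_filter] at ha hb
  exact hinj ha.1 hb.1 hab


/-- remove the last box of each of the last `t` rows -/
noncomputable def cut (L : ℤ) (ν : ℤ → ℤ) (t : ℤ) (i : ℤ) : ℤ := ν i - if L - t < i then 1 else 0

theorem cut_anti {L : ℤ} {ν : ℤ → ℤ} (anti : ∀ i j, 0 ≤ i → i ≤ j → j ≤ L → ν j ≤ ν i) (t : ℤ) :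
    ∀ i j, 0 ≤ i → i ≤ j → j ≤ L → cut L ν t j ≤ cut L ν t i := by
  intro i j hi hij hj
  have := anti i j hi hij hj
  unfold cut
  split_ifs <;> omega

/-- number of columns whose parity is not the parity of `L` -/
noncomputable def oddc (L N : ℤ) (ν : ℤ → ℤ) : ℤ :=
  ((Icc 1 N).filter (fun j => (colh L ν j - L) % 2 ≠ 0)).card

theorem oddc_cut {L N : ℤ} {ν : ℤ → ℤ} (anti : ∀ i j, 0 ≤ i → i ≤ j → j ≤ L → ν j ≤ ν i)
    (hpos : 1 ≤ L → 1 ≤ ν L) (hN : 0 ≤ L → ν 0 ≤ N) : ∀ t : ℕ, (t : ℤ) ≤ L →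
    oddc L N (cut L ν t) = oddc L N ν + (t : ℤ) % 2 := by
  intro t
  induction t with
  | zero =>
    intro hL
    have h1 : ∀ j, colh L (cut L ν (0 : ℕ)) j = colh L ν j := by
      intro j
      unfold colh
      congr 2
      refine congrArg card (filter_congr fun i hi => ?_)
      rw [mem_Icc] at hi
      unfold cut
      rw [if_neg (by push_cast; omega)]
      simp
    unfold oddc
    simp only [h1]
    simp
  | succ t ih =>
    intro hL
    push_cast at hL
    have ih := ih (by omega)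
    set h : ℤ := L - t with hh
    have hj0 : 1 ≤ ν h := (hpos (by omega)).trans (anti h L (by omega) (by omega) (le_refl _))
    have hjN : ν h ≤ N := (anti 0 h (le_refl _) (by omega) (by omega)).trans (hN (by omega))
    have hmem : ν h ∈ Icc 1 N := mem_Icc.2 ⟨hj0, hjN⟩
    have anti1 := cut_anti anti (t : ℤ)
    have anti2 := cut_anti anti ((t : ℤ) + 1)
    -- other columns unchanged
    have hother : ∀ j, j ≠ ν h → colh L (cut L ν ((t : ℤ) + 1)) j = colh L (cut L ν t) j := by
      intro j hj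
      unfold colh
      congr 2
      refine congrArg card (filter_congr fun i hi => ?_)
      rw [mem_Icc] at hi
      unfold cut
      rcases eq_or_ne i h with rfl | hih
      · rw [if_pos (by omega), if_neg (by omega)]
        omega
      · have : (L - ((t : ℤ) + 1) < i) ↔ (L - (t : ℤ) < i) := by omega
        simp only [this]
    have hold : colh L (cut L ν t) (ν h) = h := by
      refine le_antisymm ?_ ?_
      · rcases eq_or_lt_of_le (show h ≤ L by omega) with h1 | h1
        · rw [h1]; exact colh_le (by omega) _ _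
        · by_contra hcon
          push Not at hcon
          have h2 := (colh_ge_iff anti1 (show 0 ≤ h + 1 by omega) (by omega) (ν h)).1 (by omega)
          unfold cut at h2
          rw [if_pos (by omega)] at h2
          have := anti h (h + 1) (by omega) (by omega) (by omega)
          omega
      · rw [colh_ge_iff anti1 (by omega) (by omega)]
        unfold cut
        rw [if_neg (by omega)]
        omega
    have hnew : colh L (cut L ν ((t : ℤ) + 1)) (ν h) = h - 1 := by
      refine le_antisymm ?_ ?_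
      · by_contra hcon
        push Not at hcon
        have h2 := (colh_ge_iff anti2 (show 0 ≤ h by omega) (by omega) (ν h)).1 (by omega)
        unfold cut at h2
        rw [if_pos (by omega)] at h2
        omega
      · rw [colh_ge_iff anti2 (by omega) (by omega)]
        unfold cut
        rw [if_neg (by omega)]
        have := anti (h - 1) h (by omega) (by omega) (by omega)
        omega
    have hsum : ∀ ν' : ℤ → ℤ, oddc L N ν' =
        (if (colh L ν' (ν h) - L) % 2 ≠ 0 then 1 else 0) +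
        ∑ j ∈ (Icc 1 N).erase (ν h), if (colh L ν' j - L) % 2 ≠ 0 then 1 else 0 := by
      intro ν'
      unfold oddc
      rw [card_filter]
      push_cast
      exact (add_sum_erase (Icc 1 N)
        (fun j => if (colh L ν' j - L) % 2 ≠ 0 then (1 : ℤ) else 0) hmem).symm
    have hrest : ∑ j ∈ (Icc 1 N).erase (ν h),
        (if (colh L (cut L ν ((t : ℤ) + 1)) j - L) % 2 ≠ 0 then (1 : ℤ) else 0) =
        ∑ j ∈ (Icc 1 N).erase (ν h),
        (if (colh L (cut L ν t) j - L) % 2 ≠ 0 then (1 : ℤ) else 0) := by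
      refine sum_congr rfl fun j hj => ?_
      rw [hother j (ne_of_mem_erase hj)]
    have e1 := hsum (cut L ν t)
    have e2 := hsum (cut L ν ((t : ℤ) + 1))
    rw [hrest, hnew] at e2
    rw [hold] at e1
    push_cast
    split_ifs at e1 e2 <;> omega

/-- **bottom part** -/
theorem bottom {L nb N δ : ℤ} (hL : 0 ≤ L) (hnb : L ≤ nb) (hN : N = 2 * nb + 1 - L)
    (_hδ : δ = 0 ∨ δ = 1) (ν : ℤ → ℤ) (h0 : ν 0 = N - δ)
    (anti : ∀ i j, 0 ≤ i → i ≤ j → j ≤ L → ν j ≤ ν i)
    (hpos : 1 ≤ L → 1 ≤ ν L)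
    (hpar : (∑ i ∈ Icc 1 L, ν i) % 2 = δ) :
    ∃ t e : ℤ, ∃ H : ℤ → ℤ, 0 ≤ t ∧ t ≤ L ∧ 0 ≤ e ∧ e ≤ nb - L ∧
      (∀ s, 1 ≤ s → s ≤ N → -1 ≤ H s ∧ H s ≤ L ∧ (δ = 0 → 0 ≤ H s) ∧
        ((H s - L) % 2 ≠ 0 ↔ (s ≤ L ∧ L - t < s) ∨ (L < s ∧ s ≤ L + 2 * e))) ∧
      ∀ i, 0 ≤ i → i ≤ L → (((Icc 1 N).filter (fun s => i ≤ H s)).card : ℤ) =
        ν i - if L - t < i then 1 else 0 := by
  have hνN : ∀ i, 0 ≤ i → i ≤ L → 0 ≤ ν i ∧ ν i ≤ N := by
    intro i hi hiL
    have e1 := anti 0 i (le_refl _) hi hiL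
    have e2 := anti i L hi hiL (le_refl _)
    rcases eq_or_lt_of_le hL with h | h
    · have : i = 0 := by omega
      subst this
      omega
    · have := hpos (by omega)
      omega
  -- parity of the number of odd columns
  have hO2 : oddc L N ν % 2 = 0 := by
    have e1 := sum_mod_two (Icc 1 N) (fun j => colh L ν j - L)
    rw [sum_sub_distrib, sum_colh (by omega) hνN, sum_const, Int.card_Icc, nsmul_eq_mul] at e1
    have e2 : Icc 0 L = insert 0 (Icc 1 L) := by
      ext k; simp only [mem_Icc, mem_insert]; omega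
    rw [e2, sum_insert (by simp)] at e1
    have e3 : (((N + 1 - 1).toNat : ℕ) : ℤ) = N := by omega
    rw [e3] at e1
    have e4 : (N * L) % 2 = 0 := by
      have : N * L = 2 * (nb * L) + (L - L * L) := by rw [hN]; ring
      have h5 : (L * (L - 1)) % 2 = 0 := Int.even_iff.1 (Int.even_mul_pred_self L)
      have h6 : L - L * L = -(L * (L - 1)) := by ring
      omega
    unfold oddc
    omega
  have hO0 : 0 ≤ oddc L N ν := by unfold oddc; omega
  have hO1 : oddc L N ν ≤ N - 1 ∨ (L = 0 ∧ oddc L N ν = 0) := by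
    rcases eq_or_lt_of_le hL with h | h
    · right
      refine ⟨h.symm, ?_⟩
      unfold oddc
      rw [filter_false_of_mem, card_empty]
      · rfl
      · intro j hj
        rw [mem_Icc] at hj
        have e1 := colh_le hL ν j
        have hδ0 : δ = 0 := by
          rw [Icc_eq_empty (by omega), sum_empty] at hpar
          omega
        have e2 := (colh_ge_iff anti (le_refl 0) hL j).2 (by omega)
        have e3 : colh L ν j = 0 := by omega
        rw [e3, ← h]
        simp
    · left
      have e1 : (Icc 1 N).filter (fun j => (colh L ν j - L) % 2 ≠ 0) ⊆ Icc 2 N := by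
        intro j hj
        rw [mem_filter, mem_Icc] at hj
        rw [mem_Icc]
        refine ⟨?_, hj.1.2⟩
        by_contra hcon
        have hj1 : j = 1 := by omega
        subst hj1
        have e1 := colh_le hL ν 1
        have e2 := (colh_ge_iff anti hL (le_refl L) 1).2 (hpos (by omega))
        have e3 : colh L ν 1 = L := by omega
        rw [e3] at hj
        simp at hj
      have e2 := card_le_card e1
      rw [Int.card_Icc] at e2
      unfold oddc
      omega
  -- choose t
  set D : ℤ := 2 * (nb - L) with hD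
  obtain ⟨t, ht⟩ : ∃ t : ℕ, (t : ℤ) = max 0 (oddc L N ν - D) :=
    ⟨(max 0 (oddc L N ν - D)).toNat, by omega⟩
  have htL : (t : ℤ) ≤ L := by omega
  have ht2 : (t : ℤ) % 2 = 0 := by omega
  have hOt := oddc_cut (N := N) anti hpos (fun _ => (hνN 0 (le_refl _) hL).2) t htL
  rw [ht2, add_zero] at hOt
  set ν' := cut L ν t
  have anti' := cut_anti anti (t : ℤ)
  obtain ⟨e, he⟩ : ∃ e : ℤ, oddc L N ν - t = 2 * e := ⟨(oddc L N ν - t) / 2, by omega⟩
  have he0 : 0 ≤ e := by omega
  have heD : e ≤ nb - L := by omega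
  -- slots
  have hg : (((Icc 1 N).filter (fun s => (s ≤ L ∧ L - t < s) ∨ (L < s ∧ s ≤ L + 2 * e))).card : ℤ)
      = t + 2 * e := by
    have : (Icc 1 N).filter (fun s => (s ≤ L ∧ L - t < s) ∨ (L < s ∧ s ≤ L + 2 * e)) =
        Ioc (L - t) (L + 2 * e) := by
      ext s
      rw [mem_filter, mem_Icc, mem_Ioc]
      omega
    rw [this, Int.card_Ioc]
    omega
  obtain ⟨H, hH1, hH2⟩ := rearr (Icc 1 N) (colh L ν') (fun v => (v - L) % 2 ≠ 0)
    (fun s => (s ≤ L ∧ L - t < s) ∨ (L < s ∧ s ≤ L + 2 * e)) (by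
      have : oddc L N ν' = t + 2 * e := by omega
      unfold oddc at this
      omega)
  refine ⟨t, e, H, by omega, htL, he0, heD, fun s hs1 hsN => ?_, fun i hi hiL => ?_⟩
  · obtain ⟨h1, s', hs', h2⟩ := hH1 s (mem_Icc.2 ⟨hs1, hsN⟩)
    refine ⟨by rw [h2]; exact colh_ge _ _ _, by rw [h2]; exact colh_le hL _ _, fun h3 => ?_, h1⟩
    rw [h2, colh_ge_iff anti' (le_refl 0) hL]
    unfold cut
    rw [mem_Icc] at hs'
    rw [if_neg (by omega)]
    omega
  · rw [hH2 (fun v => i ≤ v), card_colh anti' hi hiL]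
    · rfl
    · have := hνN i hi hiL
      unfold cut
      split_ifs with h
      · have := anti i L hi hiL (le_refl _)
        have := hpos (by omega)
        omega
      · omega
    · have := hνN i hi hiL
      unfold cut
      split_ifs with h <;> omega


theorem sum_Icc_shift (f : ℤ → ℤ) {q l : ℤ} (hq : 0 ≤ q) (hql : q ≤ l) :
    ∑ i ∈ Icc 1 l, f i = ∑ i ∈ Icc 1 q, f i + ∑ i ∈ Icc 1 (l - q), f (q + i) := by
  have h1 : Icc 1 l = Icc 1 q ∪ Ioc q l := by
    ext k; simp only [mem_union, mem_Icc, mem_Ioc]; omega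
  have h2 : ∑ i ∈ Icc 1 (l - q), f (q + i) = ∑ i ∈ Ioc q l, f i := by
    refine sum_bij' (fun i _ => q + i) (fun i _ => i - q) ?_ ?_ ?_ ?_ ?_
    · intro i hi; rw [mem_Icc] at hi; rw [mem_Ioc]; omega
    · intro i hi; rw [mem_Ioc] at hi; rw [mem_Icc]; omega
    · intro i _; omega
    · intro i _; omega
    · intro i _; rfl
  rw [h1, sum_union, h2]
  rw [disjoint_left]
  intro k hk
  simp only [mem_Icc, mem_Ioc] at hk ⊢
  omega

theorem card_Icc_shift (P : ℤ → Prop) [DecidablePred P] {q l : ℤ} (hq : 0 ≤ q) (hql : q ≤ l) :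
    (((Icc 1 l).filter P).card : ℤ) = ((Icc 1 q).filter P).card +
      ((Icc 1 (l - q)).filter (fun i => P (q + i))).card := by
  rw [card_filter, card_filter, card_filter]
  push_cast
  exact sum_Icc_shift (fun i => if P i then 1 else 0) hq hql

/-- **The type C certificate** (helper40's theorem (H)). -/
theorem typeC_comb {n l : ℤ} (hl0 : 0 ≤ l) (hln : l ≤ n) (lam : ℤ → ℤ)
    (anti : ∀ i j, 1 ≤ i → i ≤ j → j ≤ l → lam j ≤ lam i)
    (pos : ∀ i, 1 ≤ i → i ≤ l → 1 ≤ lam i)
    (even : (∑ i ∈ Icc 1 l, lam i) % 2 = 0)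
    (dom : ∀ k, 0 ≤ k → k ≤ l → ∑ i ∈ Icc 1 k, lam i ≤ k * (2 * n + 1 - k)) :
    ∃ (x y z : ℤ → ℤ) (e : ℤ), 0 ≤ e ∧ e ≤ n - l ∧
      (∀ k, 1 ≤ k → k ≤ l → 0 ≤ x k ∧ x k ≤ y k ∧ y k ≤ l ∧ (y k - x k) % 2 = 0) ∧
      (∀ j, 1 ≤ j → j ≤ 2 * (n - l) + 1 → 0 ≤ z j ∧ z j ≤ l ∧
        ((z j - l) % 2 ≠ 0 ↔ j ≤ 2 * e)) ∧
      ∀ i, 1 ≤ i → i ≤ l → lam i + y i = l + cnt l x i +
        ((Icc 1 (2 * (n - l) + 1)).filter (fun j => i ≤ z j)).card := by
  obtain ⟨q, hq0, hql, hq, hqmax⟩ := exists_last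
    (fun q => ∀ i, 1 ≤ i → i ≤ q → 2 * n - l + 2 ≤ lam i + i) (a := 0) (b := l)
    ⟨0, le_refl _, hl0, fun i h1 h2 => by omega⟩
  -- the row behind `q`
  have hq1 : q + 1 ≤ l → lam (q + 1) ≤ 2 * n - l - q := by
    intro h
    by_contra hcon
    refine hqmax (q + 1) (by omega) h fun i hi hiq => ?_
    rcases eq_or_lt_of_le hiq with rfl | hlt
    · omega
    · exact hq i hi (by omega)
  set m : ℤ := q * (2 * n + 1 - q) - ∑ i ∈ Icc 1 q, lam i with hm
  have hm0 : 0 ≤ m := by have := dom q hq0 hql; omega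
  obtain ⟨p, hp⟩ : ∃ p : ℕ, (p : ℤ) = m / 2 := ⟨(m / 2).toNat, by omega⟩
  set δ : ℤ := m % 2 with hδ
  have hδ01 : δ = 0 ∨ δ = 1 := by omega
  have hmp : m = 2 * p + δ := by omega
  have hm_even : q = l → δ = 0 := by
    intro h
    have h1 : (l * (2 * n + 1 - l)) % 2 = 0 := by
      have h5 : (l * (l - 1)) % 2 = 0 := Int.even_iff.1 (Int.even_mul_pred_self l)
      have h6 : l * (2 * n + 1 - l) = 2 * (l * n) - l * (l - 1) := by ring
      omega
    rw [hδ, hm, h]
    omega
  have hq0δ : q = 0 → δ = 0 := by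
    intro h
    rw [hδ, hm, h, Icc_eq_empty (by omega), sum_empty]
    norm_num
  -- TOP
  let c : ℤ → ℤ := fun i => 2 * n + 1 - q - lam i - if i = q then δ else 0
  have hcsum : ∀ a, 0 ≤ a → a ≤ q → ∑ i ∈ Icc 1 a, c i =
      a * (2 * n + 1 - q) - ∑ i ∈ Icc 1 a, lam i - if a = q then δ else 0 := by
    intro a ha haq
    have h1 : ∑ i ∈ Icc 1 a, c i = ∑ i ∈ Icc 1 a, (2 * n + 1 - q) - ∑ i ∈ Icc 1 a, lam i -
        ∑ i ∈ Icc 1 a, if i = q then δ else 0 := by
      rw [← sum_sub_distrib, ← sum_sub_distrib]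
    have h2 : ∑ i ∈ Icc 1 a, (2 * n + 1 - q) = a * (2 * n + 1 - q) := by
      rw [sum_const, Int.card_Icc, nsmul_eq_mul]
      have : (((a + 1 - 1).toNat : ℕ) : ℤ) = a := by omega
      rw [this]
    have h3 : ∑ i ∈ Icc 1 a, (if i = q then δ else 0) = if a = q then δ else 0 := by
      rw [sum_ite_eq']
      by_cases h : a = q
      · rcases eq_or_lt_of_le hq0 with h0 | h0
        · rw [if_neg (by rw [mem_Icc]; omega), if_pos h, hq0δ h0.symm]
        · rw [if_pos (by rw [mem_Icc]; omega), if_pos h]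
      · rw [if_neg (by rw [mem_Icc]; omega), if_neg h]
    rw [h1, h2, h3]
  obtain ⟨x, y, hxy, _, _, hfix⟩ := top_exists (q := q) (l := l) hql c p
    (fun i j hi hij hj => by
      have := anti i j hi (by omega) (by omega)
      show 2 * n + 1 - q - lam i - (if i = q then δ else 0) ≤
        2 * n + 1 - q - lam j - (if j = q then δ else 0) + 1
      split_ifs <;> omega)
    (fun a ha haq => by
      rw [hcsum a (by omega) (by omega), if_neg (by omega)]
      have := dom a (by omega) (by omega)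
      have h1 : a * (2 * n + 1 - q) = a * (2 * n + 1 - a) - a * (q - a) := by ring
      rw [h1]
      omega)
    (by
      rw [hcsum q (by omega) (le_refl _), if_pos rfl]
      omega)
    (fun i hi hiq => by
      have := hq i hi hiq
      show 2 * n + 1 - q - lam i - (if i = q then δ else 0) ≤ l - q + i - 1
      split_ifs <;> omega)
  -- BOTTOM
  set L : ℤ := l - q with hL
  set N : ℤ := 2 * n + 1 - q - l with hN
  let ν : ℤ → ℤ := fun i => if i = 0 then N - δ else lam (q + i)
  have hν0 : ν 0 = N - δ := if_pos rfl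
  have hνi : ∀ i, 1 ≤ i → ν i = lam (q + i) := fun i hi => if_neg (by omega)
  have hsumν : ∑ i ∈ Icc 1 L, ν i = ∑ i ∈ Icc 1 L, lam (q + i) :=
    sum_congr rfl fun i hi => hνi i (mem_Icc.1 hi).1
  obtain ⟨t, e, H, ht0, htL, he0, heL, hH, hHc⟩ := bottom (L := L) (nb := n - q) (N := N)
    (δ := δ) (by omega) (by omega) (by omega) hδ01 ν hν0
    (fun i j hi hij hj => by
      rcases eq_or_lt_of_le hi with rfl | hi'
      · rcases eq_or_lt_of_le hij with rfl | hj'
        · exact le_refl _
        · rw [hν0, hνi j (by omega)]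
          have e1 := hq1 (by omega)
          have e2 := anti (q + 1) (q + j) (by omega) (by omega) (by omega)
          omega
      · rw [hνi i (by omega), hνi j (by omega)]
        exact anti _ _ (by omega) (by omega) (by omega))
    (fun h => by
      rw [hνi L h]
      exact pos _ (by omega) (by omega))
    (by
      rw [hsumν]
      have e1 := sum_Icc_shift lam hq0 hql
      rw [← hL] at e1
      have h1 : (q * (2 * n + 1 - q)) % 2 = 0 := by
        have h5 : (q * (q - 1)) % 2 = 0 := Int.even_iff.1 (Int.even_mul_pred_self q)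
        have h6 : q * (2 * n + 1 - q) = 2 * (q * n) - q * (q - 1) := by ring
        omega
      omega)
  refine ⟨fun k => if k ≤ q then x k else q + H (k - q),
    fun k => if k ≤ q then y k else l - if l - t < k then 1 else 0,
    fun j => q + H (L + j), e, he0, by omega, ?_, ?_, ?_⟩
  · intro k hk hkl
    by_cases hkq : k ≤ q
    · simp only [if_pos hkq]
      have := hxy k hk hkq
      exact ⟨this.1, this.2.1, this.2.2.2.1, this.2.2.1⟩
    · simp only [if_neg hkq]
      obtain ⟨h1, h2, h3, h4⟩ := hH (k - q) (by omega) (by omega)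
      have h5 : (q = 0 → 0 ≤ H (k - q)) := fun h => h3 (hq0δ h)
      split_ifs with h6 <;> omega
  · intro j hj hjM
    obtain ⟨h1, h2, h3, h4⟩ := hH (L + j) (by omega) (by omega)
    have h5 : (q = 0 → 0 ≤ H (L + j)) := fun h => h3 (hq0δ h)
    beta_reduce
    refine ⟨by omega, by omega, ?_⟩
    have h6 : q + H (L + j) - l = H (L + j) - L := by omega
    rw [h6, h4]
    omega
  · intro i hi hil
    have e1 : cnt l (fun k => if k ≤ q then x k else q + H (k - q)) i =
        cnt q x i + ((Icc 1 L).filter (fun s => i - q ≤ H s)).card := by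
      unfold cnt
      rw [card_Icc_shift (fun k => i ≤ if k ≤ q then x k else q + H (k - q)) hq0 hql]
      congr 2
      · refine congrArg card (filter_congr fun k hk => ?_)
        rw [mem_Icc] at hk
        rw [if_pos hk.2]
      · refine congrArg card (filter_congr fun k hk => ?_)
        rw [mem_Icc] at hk
        rw [if_neg (by omega)]
        have : q + k - q = k := by omega
        rw [this]
        omega
    have e2 : (((Icc 1 (2 * (n - l) + 1)).filter (fun j => i ≤ q + H (L + j))).card : ℤ) +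
        ((Icc 1 L).filter (fun s => i - q ≤ H s)).card =
        ((Icc 1 N).filter (fun s => i - q ≤ H s)).card := by
      rw [card_Icc_shift (fun s => i - q ≤ H s) (q := L) (l := N) (by omega) (by omega)]
      have h1 : N - L = 2 * (n - l) + 1 := by omega
      rw [h1, add_comm]
      congr 2
      refine congrArg card (filter_congr fun k hk => ?_)
      omega
    have e3 : cnt l (fun k => if k ≤ q then x k else q + H (k - q)) i +
        ((Icc 1 (2 * (n - l) + 1)).filter (fun j => i ≤ q + H (L + j))).card =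
        cnt q x i + ((Icc 1 N).filter (fun s => i - q ≤ H s)).card := by omega
    rw [add_assoc, e3]
    by_cases hiq : i ≤ q
    · simp only [if_pos hiq]
      have e4 : y i = 2 * n + 1 - q - lam i - (if i = q then δ else 0) + cnt q x i :=
        hfix i hi hiq
      rw [e4]
      rcases eq_or_lt_of_le hiq with rfl | hlt
      · rw [if_pos rfl]
        have e5 := hHc 0 (le_refl _) (by omega)
        rw [hν0, if_neg (by omega)] at e5
        rw [sub_self, e5]
        omega
      · rw [if_neg (by omega)]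
        have e5 : (Icc 1 N).filter (fun s => i - q ≤ H s) = Icc 1 N := by
          refine filter_true_of_mem fun s hs => ?_
          rw [mem_Icc] at hs
          have := (hH s hs.1 hs.2).1
          omega
        rw [e5, Int.card_Icc]
        omega
    · simp only [if_neg hiq]
      have e5 := hHc (i - q) (by omega) (by omega)
      rw [hνi (i - q) (by omega)] at e5
      have e6 : q + (i - q) = i := by omega
      rw [e6] at e5
      have e7 : cnt q x i = 0 := by
        have h1 := cnt_le_of (q := q) (x := x) (t := i) (b := q) (by omega) (le_refl _)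
          (fun k hk hkq hkx => by have := hxy k hk hkq; omega)
        have h2 := cnt_nonneg q x i
        omega
      rw [e5, e7]
      split_ifs <;> omega

end Kost
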