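import Pool.Agent.Kost.Certs
import Pool.Agent.Kost.CombC

/-! # Module C-sp (MP_869ec4): `SpCert` from `Kost.typeC_comb`

With `l` = number of positive `lam i` and `x, y, z, e` from `typeC_comb` (here in the 0-based form
`CertSp.comb`): row weights `w (x k) = 2 l + 3 - 2 y_k`, `w (y j) = 2 j - 2 l - 2` for `k, j < l`, so that
`x_k ~ y_j iff y_k ≤ j`; the `2 e - 1` vertices `x i` (`l ≤ i < l + e`), `y i` (`l < i < l + e`) have
weight `1` and all the others weight `-2`.
Degrees: `deg x_k = 2n+1-y_k`, `deg y_j = #{k | y_k ≤ j}`, `deg = l` for the other planes, `l + 2e`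
for the `2e-1` special ones.
Columns `a < l`: `p = y` of the `(a+1)`-st smallest `y_k`, `X = x` of that `k`, `Q = [p, n)`;
columns `l ≤ a < l+2e`: `p = l+1`, `Q = [l+1, l+e)`, `X = z_j`; `l+2e ≤ a < 2n+1-l`: `p = l`,
`Q = ∅`, `X = z_j`; `a ≥ 2n+1-l`: not in `G`, `Jr a = {k | y_k < 2n+1-a}`.
-/

open Finset

namespace Kost

namespace CertSp

/-- extension to `ℤ` (1-based) -/
def ext1 {n : ℕ} (lam : Fin n → ℕ) (i : ℤ) : ℤ :=
  if h : 1 ≤ i ∧ i ≤ n then (lam ⟨(i - 1).toNat, by omega⟩ : ℤ) else 0

theorem ext1_apply {n : ℕ} (lam : Fin n → ℕ) (i : Fin n) : ext1 lam ((i : ℕ) + 1 : ℤ) = lam i := by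
  unfold ext1
  rw [dif_pos (by have := i.2; omega)]
  congr 2
  apply Fin.ext
  simp

theorem sum_ext1 {n : ℕ} (lam : Fin n → ℕ) {k : ℕ} (hk : k ≤ n) :
    ∑ i ∈ Icc 1 (k : ℤ), ext1 lam i =
      ∑ i ∈ Finset.univ.filter (fun i : Fin n => (i : ℕ) < k), (lam i : ℤ) := by
  symm
  refine sum_bij (fun i _ => ((i : ℕ) + 1 : ℤ)) ?_ ?_ ?_ ?_
  · intro i hi
    rw [mem_filter] at hi
    rw [mem_Icc]
    omega
  · intro i _ j _ h
    apply Fin.ext
    omega
  · intro b hb
    rw [mem_Icc] at hb
    refine ⟨⟨(b - 1).toNat, by omega⟩, ?_, ?_⟩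
    · rw [mem_filter]
      refine ⟨mem_univ _, ?_⟩
      show (b - 1).toNat < k
      omega
    · show (((b - 1).toNat : ℕ) + 1 : ℤ) = b
      omega
  · intro i _
    rw [ext1_apply]

theorem card_Icc_fin (P : ℤ → Prop) [DecidablePred P] (l : ℕ) :
    ((Icc 1 (l : ℤ)).filter P).card = ((range l).filter (fun k : ℕ => P (k + 1))).card := by
  symm
  refine card_bij (fun (i : ℕ) _ => ((i : ℕ) + 1 : ℤ)) ?_ ?_ ?_
  · intro i hi
    rw [mem_filter, mem_range] at hi
    rw [mem_filter, mem_Icc]
    exact ⟨by omega, hi.2⟩
  · intro i _ j _ h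
    omega
  · intro b hb
    rw [mem_filter, mem_Icc] at hb
    refine ⟨(b - 1).toNat, ?_, by omega⟩
    rw [mem_filter, mem_range]
    have : ((b - 1).toNat : ℤ) + 1 = b := by omega
    rw [this]
    exact ⟨by omega, hb.2⟩

/-- `typeC_comb`, 0-based, natural numbers -/
theorem comb {n l : ℕ} (hln : l ≤ n) (lam : Fin n → ℕ) (hanti : Antitone lam)
    (hl : ∀ i : Fin n, 0 < lam i ↔ (i : ℕ) < l)
    (hsum : ∀ k : ℕ, k ≤ n → ∑ i ∈ Finset.univ.filter (fun i : Fin n => (i : ℕ) < k), (lam i : ℤ) ≤
      k * (2 * n + 1 - k))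
    (hpar : Even (∑ i, lam i)) :
    ∃ (x y z : ℕ → ℕ) (e : ℕ), l + e ≤ n ∧
      (∀ k, k < l → x k ≤ y k ∧ y k ≤ l ∧ Even (y k - x k)) ∧
      (∀ j, j < 2 * (n - l) + 1 → z j ≤ l ∧ (j < 2 * e → Even (l + 1 - z j)) ∧
        (2 * e ≤ j → Even (l - z j))) ∧
      ∀ i : Fin n, (i : ℕ) < l → lam i + y i = l + ((range l).filter (fun k => (i : ℕ) < x k)).card +
        ((range (2 * (n - l) + 1)).filter (fun j => (i : ℕ) < z j)).card := by
  have hA : ∀ i j : ℤ, 1 ≤ i → i ≤ j → j ≤ l → ext1 lam j ≤ ext1 lam i := by
    intro i j hi hij hj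
    have e1 : ext1 lam i = lam ⟨(i - 1).toNat, by omega⟩ := by
      unfold ext1; rw [dif_pos (by omega)]
    have e2 : ext1 lam j = lam ⟨(j - 1).toNat, by omega⟩ := by
      unfold ext1; rw [dif_pos (by omega)]
    rw [e1, e2]
    have := hanti (a := (⟨(i - 1).toNat, by omega⟩ : Fin n)) (b := ⟨(j - 1).toNat, by omega⟩) (by
      rw [Fin.mk_le_mk]; omega)
    exact_mod_cast this
  have hB : ∀ i : ℤ, 1 ≤ i → i ≤ l → 1 ≤ ext1 lam i := by
    intro i hi hil
    have e1 : ext1 lam i = lam ⟨(i - 1).toNat, by omega⟩ := by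
      unfold ext1; rw [dif_pos (by omega)]
    have := (hl ⟨(i - 1).toNat, by omega⟩).2 (by show (i - 1).toNat < l; omega)
    rw [e1]
    exact_mod_cast this
  have hC : (∑ i ∈ Icc 1 (l : ℤ), ext1 lam i) % 2 = 0 := by
    rw [sum_ext1 lam hln]
    have e1 : ∑ i ∈ Finset.univ.filter (fun i : Fin n => (i : ℕ) < l), (lam i : ℤ) =
        ((∑ i, lam i : ℕ) : ℤ) := by
      push_cast
      refine sum_subset (filter_subset _ _) fun i _ hi => ?_
      have := (hl i).not
      rw [mem_filter, not_and] at hi
      have h2 := hi (mem_univ _)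
      omega
    rw [e1]
    rw [Nat.even_iff] at hpar
    omega
  have hD : ∀ k : ℤ, 0 ≤ k → k ≤ l → ∑ i ∈ Icc 1 k, ext1 lam i ≤ k * (2 * n + 1 - k) := by
    intro k hk hkl
    obtain ⟨k, rfl⟩ := Int.eq_ofNat_of_zero_le hk
    have := hsum k (by omega)
    rw [sum_ext1 lam (by omega)]
    exact this
  obtain ⟨x, y, z, e, he0, hen, hxy, hz, hfix⟩ := typeC_comb (n := n) (l := l) (by omega) (by omega)
    (ext1 lam) hA hB hC hD
  refine ⟨fun k => (x (k + 1)).toNat, fun k => (y (k + 1)).toNat, fun k => (z (k + 1)).toNat,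
    e.toNat, by omega, ?_, ?_, ?_⟩
  · intro k hk
    obtain ⟨h1, h2, h3, h4⟩ := hxy (k + 1) (by omega) (by omega)
    dsimp only
    refine ⟨by omega, by omega, ?_⟩
    rw [Nat.even_iff]
    omega
  · intro j hj
    obtain ⟨h1, h2, h3⟩ := hz (j + 1) (by omega) (by omega)
    dsimp only
    refine ⟨by omega, fun h => ?_, fun h => ?_⟩
    · rw [Nat.even_iff]
      have := h3.2 (by omega)
      omega
    · rw [Nat.even_iff]
      have h4 : (z (j + 1) - l) % 2 = 0 := by
        by_contra h5
        have := h3.1 h5
        omega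
      omega
  · intro i hi
    have h1 := hfix (i + 1) (by omega) (by omega)
    rw [ext1_apply] at h1
    unfold cnt at h1
    have e1 : (2 * ((n : ℤ) - l) + 1) = ((2 * (n - l) + 1 : ℕ) : ℤ) := by omega
    rw [e1, card_Icc_fin, card_Icc_fin] at h1
    have hy := (hxy (i + 1) (by omega) (by omega))
    have e2 : (range l).filter (fun k : ℕ => (i : ℕ) < (x (k + 1)).toNat) =
        (range l).filter (fun k : ℕ => ((i : ℕ) + 1 : ℤ) ≤ x (k + 1)) := by
      refine filter_congr fun k hk => ?_
      rw [mem_range] at hk
      have := hxy (k + 1) (by omega) (by omega)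
      omega
    have e3 : (range (2 * (n - l) + 1)).filter (fun k : ℕ => (i : ℕ) < (z (k + 1)).toNat) =
        (range (2 * (n - l) + 1)).filter (fun k : ℕ => ((i : ℕ) + 1 : ℤ) ≤ z (k + 1)) := by
      refine filter_congr fun k hk => ?_
      rw [mem_range] at hk
      have := hz (k + 1) (by omega) (by omega)
      omega
    show lam i + (y (i + 1)).toNat = _
    rw [e2, e3]
    omega

theorem card_Idx {n : ℕ} (P : Idx n 0 → Prop) [DecidablePred P] :
    (univ.filter P).card = (univ.filter (fun i : Fin n => P (.x i))).card +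
      (univ.filter (fun i : Fin n => P (.y i))).card := by
  have e : univ.filter P = (univ.filter (fun i : Fin n => P (.x i))).map
      ⟨Idx.x, fun _ _ h => by cases h; rfl⟩ ∪ (univ.filter (fun i : Fin n => P (.y i))).map
      ⟨Idx.y, fun _ _ h => by cases h; rfl⟩ := by
    ext v
    simp only [mem_filter, mem_univ, true_and, mem_union, mem_map, Function.Embedding.coeFn_mk]
    constructor
    · intro h
      cases v with
      | x i => exact Or.inl ⟨i, h, rfl⟩
      | y i => exact Or.inr ⟨i, h, rfl⟩
      | z k => exact k.elim0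
    · rintro (⟨i, h, rfl⟩ | ⟨i, h, rfl⟩) <;> exact h
  rw [e, card_union_of_disjoint, card_map, card_map]
  rw [disjoint_left]
  intro v h1 h2
  rw [mem_map] at h1 h2
  obtain ⟨i, _, rfl⟩ := h1
  obtain ⟨j, _, h⟩ := h2
  cases h

theorem degS_eq {n : ℕ} (w : Idx n 0 → ℤ) (v : Idx n 0) :
    degS w v = (univ.filter (fun i : Fin n => 0 < w v + w (.x i))).card +
      (univ.filter (fun i : Fin n => 0 < w v + w (.y i))).card + if 0 < w v then 1 else 0 := by
  rw [← card_Idx (fun k => 0 < w v + w k)]
  unfold degS degA
  by_cases h : 0 < w v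
  · rw [if_pos h, if_pos h]
    have e1 : univ.filter (fun k => 0 < w v + w k) =
        insert v (univ.filter (fun k => k ≠ v ∧ 0 < w v + w k)) := by
      ext k
      simp only [mem_filter, mem_univ, true_and, mem_insert]
      by_cases hk : k = v
      · subst hk
        simp only [true_or, iff_true]
        omega
      · simp [hk]
    rw [e1, card_insert_of_notMem (by simp)]
  · rw [if_neg h, if_neg h]
    congr 2
    refine filter_congr fun k _ => ?_
    by_cases hk : k = v
    · subst hk
      simp only [ne_eq, not_true_eq_false, false_and, false_iff]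
      omega
    · simp [hk]

/-- the number of `i : Fin n` in an interval -/
theorem card_fin_Ico {n a b : ℕ} (hb : b ≤ n) :
    (univ.filter (fun i : Fin n => a ≤ (i : ℕ) ∧ (i : ℕ) < b)).card = b - a := by
  rw [← Nat.card_Ico]
  refine card_bij (fun i _ => (i : ℕ)) ?_ ?_ ?_
  · intro i hi
    rw [mem_filter] at hi
    rw [mem_Ico]
    exact hi.2
  · intro i _ j _ h
    exact Fin.ext h
  · intro j hj
    rw [mem_Ico] at hj
    exact ⟨⟨j, by omega⟩, by rw [mem_filter]; exact ⟨mem_univ _, hj⟩, rfl⟩

/-- the weights -/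
def wt {n : ℕ} (l e : ℕ) (y : ℕ → ℕ) : Idx n 0 → ℤ
  | .x i => if (i : ℕ) < l then 2 * l + 3 - 2 * y i else if (i : ℕ) < l + e then 1 else -2
  | .y i => if (i : ℕ) < l then 2 * i - 2 * l - 2 else
      if l < (i : ℕ) ∧ (i : ℕ) < l + e then 1 else -2
  | .z _ => 0

section deg

variable {n l e : ℕ} {y : ℕ → ℕ} (hle : l + e ≤ n) (hy : ∀ k, k < l → y k ≤ l)

include hle hy

theorem deg_x (i : Fin n) : degS (wt l e y) (.x i) =
    if (i : ℕ) < l then 2 * n + 1 - y i else if (i : ℕ) < l + e then l + 2 * e else l := by
  rw [degS_eq]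
  by_cases hi : (i : ℕ) < l
  · have hyi := hy i hi
    have e1 : univ.filter (fun k : Fin n => 0 < wt l e y (.x i) + wt l e y (.x k)) =
        univ.filter (fun k : Fin n => 0 ≤ (k : ℕ) ∧ (k : ℕ) < n) := by
      refine filter_congr fun k _ => ?_
      have := hy k
      simp only [wt, if_pos hi]
      constructor
      · intro _; exact ⟨by omega, k.2⟩
      · intro _
        split_ifs <;> omega
    have e2 : univ.filter (fun k : Fin n => 0 < wt l e y (.x i) + wt l e y (.y k)) =
        univ.filter (fun k : Fin n => y i ≤ (k : ℕ) ∧ (k : ℕ) < n) := by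
      refine filter_congr fun k _ => ?_
      have := hy k
      simp only [wt, if_pos hi]
      constructor
      · intro h1
        refine ⟨?_, k.2⟩
        split_ifs at h1 <;> omega
      · intro _
        split_ifs <;> omega
    rw [e1, e2, card_fin_Ico le_rfl, card_fin_Ico le_rfl]
    simp only [wt, if_pos hi]
    rw [if_pos (by omega)]
    omega
  · by_cases hi2 : (i : ℕ) < l + e
    · have e1 : univ.filter (fun k : Fin n => 0 < wt l e y (.x i) + wt l e y (.x k)) =
          univ.filter (fun k : Fin n => 0 ≤ (k : ℕ) ∧ (k : ℕ) < l + e) := by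
        refine filter_congr fun k _ => ?_
        have := hy k
        simp only [wt, if_neg hi, if_pos hi2]
        constructor
        · intro h1
          refine ⟨by omega, ?_⟩
          split_ifs at h1 <;> omega
        · intro _
          split_ifs <;> omega
      have e2 : univ.filter (fun k : Fin n => 0 < wt l e y (.x i) + wt l e y (.y k)) =
          univ.filter (fun k : Fin n => l + 1 ≤ (k : ℕ) ∧ (k : ℕ) < l + e) := by
        refine filter_congr fun k _ => ?_
        have := hy k
        simp only [wt, if_neg hi, if_pos hi2]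
        constructor
        · intro h1
          split_ifs at h1 <;> omega
        · intro _
          split_ifs <;> omega
      rw [e1, e2, card_fin_Ico hle, card_fin_Ico hle]
      simp only [wt, if_neg hi, if_pos hi2]
      rw [if_pos (by omega)]
      omega
    · have e1 : univ.filter (fun k : Fin n => 0 < wt l e y (.x i) + wt l e y (.x k)) =
          univ.filter (fun k : Fin n => 0 ≤ (k : ℕ) ∧ (k : ℕ) < l) := by
        refine filter_congr fun k _ => ?_
        have := hy k
        simp only [wt, if_neg hi, if_neg hi2]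
        constructor
        · intro h1
          refine ⟨by omega, ?_⟩
          split_ifs at h1 <;> omega
        · intro _
          split_ifs <;> omega
      have e2 : univ.filter (fun k : Fin n => 0 < wt l e y (.x i) + wt l e y (.y k)) =
          univ.filter (fun k : Fin n => 0 ≤ (k : ℕ) ∧ (k : ℕ) < 0) := by
        refine filter_congr fun k _ => ?_
        have := hy k
        simp only [wt, if_neg hi, if_neg hi2]
        constructor
        · intro h1
          split_ifs at h1 <;> omega
        · intro _
          split_ifs <;> omega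
      rw [e1, e2, card_fin_Ico (by omega), card_fin_Ico (by omega)]
      simp only [wt, if_neg hi, if_neg hi2]
      rw [if_neg (by omega)]
      omega

theorem deg_y_lt (i : Fin n) (hi : (i : ℕ) < l) : degS (wt l e y) (.y i) =
    (univ.filter (fun k : Fin l => y k ≤ (i : ℕ))).card := by
  rw [degS_eq]
  have e1 : (univ.filter (fun k : Fin n => 0 < wt l e y (.y i) + wt l e y (.x k))).card =
      (univ.filter (fun k : Fin l => y k ≤ (i : ℕ))).card := by
    symm
    refine card_bij (fun k _ => (⟨k, by omega⟩ : Fin n)) ?_ ?_ ?_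
    · intro k hk
      rw [mem_filter] at hk
      rw [mem_filter]
      refine ⟨mem_univ _, ?_⟩
      have h1 := hy k k.2
      have h2 := k.2
      simp only [wt, if_pos hi, if_pos h2]
      omega
    · intro k _ k' _ h
      have := congrArg Fin.val h
      exact Fin.ext this
    · intro k hk
      rw [mem_filter] at hk
      have h1 := hy k
      have h3 := hk.2
      simp only [wt, if_pos hi] at h3
      have h2 : (k : ℕ) < l := by
        split_ifs at h3 <;> omega
      rw [if_pos h2] at h3
      refine ⟨⟨k, h2⟩, ?_, rfl⟩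
      rw [mem_filter]
      refine ⟨mem_univ _, ?_⟩
      show y k ≤ (i : ℕ)
      omega
  have e2 : univ.filter (fun k : Fin n => 0 < wt l e y (.y i) + wt l e y (.y k)) =
      univ.filter (fun k : Fin n => 0 ≤ (k : ℕ) ∧ (k : ℕ) < 0) := by
    refine filter_congr fun k _ => ?_
    simp only [wt, if_pos hi]
    constructor
    · intro h1
      split_ifs at h1 <;> omega
    · intro _
      split_ifs <;> omega
  rw [e1, e2, card_fin_Ico (by omega)]
  simp only [wt, if_pos hi]
  rw [if_neg (by omega)]
  omega

theorem deg_y_ge (i : Fin n) (hi : ¬ (i : ℕ) < l) : degS (wt l e y) (.y i) =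
    if l < (i : ℕ) ∧ (i : ℕ) < l + e then l + 2 * e else l := by
  rw [degS_eq]
  by_cases hi2 : l < (i : ℕ) ∧ (i : ℕ) < l + e
  · have e1 : univ.filter (fun k : Fin n => 0 < wt l e y (.y i) + wt l e y (.x k)) =
        univ.filter (fun k : Fin n => 0 ≤ (k : ℕ) ∧ (k : ℕ) < l + e) := by
      refine filter_congr fun k _ => ?_
      have := hy k
      simp only [wt, if_neg hi, if_pos hi2]
      constructor
      · intro h1
        refine ⟨by omega, ?_⟩
        split_ifs at h1 <;> omega
      · intro _
        split_ifs <;> omega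
    have e2 : univ.filter (fun k : Fin n => 0 < wt l e y (.y i) + wt l e y (.y k)) =
        univ.filter (fun k : Fin n => l + 1 ≤ (k : ℕ) ∧ (k : ℕ) < l + e) := by
      refine filter_congr fun k _ => ?_
      have := hy k
      simp only [wt, if_neg hi, if_pos hi2]
      constructor
      · intro h1
        split_ifs at h1 <;> omega
      · intro _
        split_ifs <;> omega
    rw [e1, e2, card_fin_Ico hle, card_fin_Ico hle]
    simp only [wt, if_neg hi, if_pos hi2]
    rw [if_pos (by omega)]
    omega
  · have e1 : univ.filter (fun k : Fin n => 0 < wt l e y (.y i) + wt l e y (.x k)) =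
        univ.filter (fun k : Fin n => 0 ≤ (k : ℕ) ∧ (k : ℕ) < l) := by
      refine filter_congr fun k _ => ?_
      have := hy k
      simp only [wt, if_neg hi, if_neg hi2]
      constructor
      · intro h1
        refine ⟨by omega, ?_⟩
        split_ifs at h1 <;> omega
      · intro _
        split_ifs <;> omega
    have e2 : univ.filter (fun k : Fin n => 0 < wt l e y (.y i) + wt l e y (.y k)) =
        univ.filter (fun k : Fin n => 0 ≤ (k : ℕ) ∧ (k : ℕ) < 0) := by
      refine filter_congr fun k _ => ?_
      have := hy k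
      simp only [wt, if_neg hi, if_neg hi2]
      constructor
      · intro h1
        split_ifs at h1 <;> omega
      · intro _
        split_ifs <;> omega
    rw [e1, e2, card_fin_Ico (by omega), card_fin_Ico (by omega)]
    simp only [wt, if_neg hi, if_neg hi2]
    rw [if_neg (by omega)]
    omega

end deg

/-- counting in the columns -/
theorem card_cols {l M N : ℕ} (hN : l + M + l = N) (A B : ℕ → Prop) [DecidablePred A]
    [DecidablePred B] :
    ((univ : Finset (Fin N)).filter (fun a : Fin N => (a : ℕ) < l + M ∧ A a)).card +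
      ((univ : Finset (Fin N)).filter (fun a : Fin N => ¬ (a : ℕ) < l + M ∧ B a)).card =
    ((range l).filter A).card + ((range M).filter (fun j => A (l + j))).card +
      ((range l).filter (fun t => B (l + M + t))).card := by
  subst hN
  rw [card_filter, card_filter, card_filter, card_filter, card_filter, ← sum_add_distrib]
  rw [Fin.sum_univ_eq_sum_range (fun a => (if a < l + M ∧ A a then 1 else 0) +
    (if ¬ a < l + M ∧ B a then 1 else 0)) (l + M + l)]
  rw [sum_range_add, sum_range_add]
  congr 1
  · congr 1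
    · refine sum_congr rfl fun a ha => ?_
      rw [mem_range] at ha
      have h1 : a < l + M := by omega
      simp [h1]
    · refine sum_congr rfl fun a ha => ?_
      rw [mem_range] at ha
      have h1 : l + a < l + M := by omega
      simp [ha]
  · refine sum_congr rfl fun a ha => ?_
    simp

/-- sorting -/
theorem sorted (l : ℕ) (y : ℕ → ℕ) : ∃ s : ℕ → ℕ, (∀ a, a < l → s a < l) ∧
    (∀ a, a < l → ∀ t : ℕ, a < (univ.filter (fun k : Fin l => y k ≤ t)).card ↔ y (s a) ≤ t) ∧
    ∀ P : ℕ → Prop, ∀ [DecidablePred P], ((range l).filter (fun a => P (s a))).card =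
      ((range l).filter P).card := by
  let f : Fin l → ℕ := fun k => y k
  let σ := Tuple.sort f
  have hσ : Monotone (f ∘ σ) := Tuple.monotone_sort f
  let s : ℕ → ℕ := fun a => if h : a < l then (σ ⟨a, h⟩ : ℕ) else 0
  have hs : ∀ a (h : a < l), s a = σ ⟨a, h⟩ := fun a h => dif_pos h
  have hsl : ∀ a, a < l → s a < l := fun a h => by rw [hs a h]; exact (σ ⟨a, h⟩).2
  refine ⟨s, hsl, ?_, ?_⟩
  · intro a ha t
    rw [hs a ha]
    have h1 := Tuple.lt_card_le_iff_apply_le_of_monotone (j := ⟨a, ha⟩) (a := t) hσ
    have h2 : (univ.filter (fun k : Fin l => (f ∘ σ) k ≤ t)).card =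
        (univ.filter (fun k : Fin l => y k ≤ t)).card := by
      refine card_bij (fun k _ => σ k) ?_ ?_ ?_
      · intro k hk
        rw [mem_filter] at hk ⊢
        exact ⟨mem_univ _, hk.2⟩
      · intro k _ k' _ h
        exact σ.injective h
      · intro k hk
        rw [mem_filter] at hk
        refine ⟨σ.symm k, ?_, σ.apply_symm_apply k⟩
        rw [mem_filter]
        refine ⟨mem_univ _, ?_⟩
        show y (σ (σ.symm k)) ≤ t
        rw [σ.apply_symm_apply]
        exact hk.2
    rw [h2] at h1
    exact h1
  · intro P _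
    refine card_bij (fun a _ => s a) ?_ ?_ ?_
    · intro a ha
      rw [mem_filter, mem_range] at ha ⊢
      exact ⟨hsl a ha.1, ha.2⟩
    · intro a ha b hb h
      rw [mem_filter, mem_range] at ha hb
      rw [hs a ha.1, hs b hb.1] at h
      have := σ.injective (Fin.ext h)
      exact congrArg Fin.val this
    · intro k hk
      rw [mem_filter, mem_range] at hk
      have h1 : s (σ.symm ⟨k, hk.1⟩) = k := by
        rw [hs _ (σ.symm ⟨k, hk.1⟩).2]
        show ((σ (σ.symm ⟨k, hk.1⟩) : Fin l) : ℕ) = k
        rw [σ.apply_symm_apply]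
      refine ⟨σ.symm ⟨k, hk.1⟩, ?_, h1⟩
      rw [mem_filter, mem_range]
      refine ⟨(σ.symm ⟨k, hk.1⟩).2, ?_⟩
      rw [h1]
      exact hk.2

end CertSp

open CertSp in
theorem sp_cert {n : ℕ} (lam : Fin n → ℕ) (hanti : Antitone lam)
    (hsum : ∀ k : ℕ, k ≤ n → ∑ i ∈ Finset.univ.filter (fun i : Fin n => (i : ℕ) < k), (lam i : ℤ) ≤
      k * (2 * n + 1 - k))
    (hpar : Even (∑ i, lam i)) : SpCert n lam := by
  classical
  obtain ⟨l, hln, hl⟩ : ∃ l : ℕ, l ≤ n ∧ ∀ i : Fin n, 0 < lam i ↔ (i : ℕ) < l := by
    refine ⟨(univ.filter (fun i : Fin n => 0 < lam i)).card, ?_, fun i => ?_⟩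
    · exact (card_le_univ _).trans (by simp)
    · exact (Tuple.lt_card_gt_iff_apply_gt_of_antitone hanti).symm
  obtain ⟨x, y, z, e, hle, hxy, hz, hfix⟩ := comb hln lam hanti hl hsum hpar
  have hy : ∀ k, k < l → y k ≤ l := fun k hk => (hxy k hk).2.1
  obtain ⟨s, hsl, hs, hsP⟩ := sorted l y
  set M : ℕ := 2 * (n - l) + 1 with hM
  have hN : l + M + l = 2 * n + 1 := by omega
  have hdy : ∀ i : Fin n, (i : ℕ) < l → degS (wt l e y) (Idx.y i) ≤ l := by
    intro i hi
    rw [deg_y_lt hle hy i hi]
    exact (card_le_univ _).trans (by simp)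
  have hdx : ∀ i : Fin n, (i : ℕ) < l → 2 * n + 1 - l ≤ degS (wt l e y) (Idx.x i) := by
    intro i hi
    rw [deg_x hle hy i, if_pos hi]
    have := hy i hi
    omega
  refine ⟨wt l e y, univ.filter (fun a : Fin (2 * n + 1) => (a : ℕ) < l + M),
    fun a => if (a : ℕ) < l then y (s a) else if (a : ℕ) < l + 2 * e then l + 1 else l,
    fun a => if (a : ℕ) < l then x (s a) else z (a - l),
    fun a => if (a : ℕ) < l then univ.filter (fun i : Fin n => y (s a) ≤ i) else
      if (a : ℕ) < l + 2 * e then univ.filter (fun i : Fin n => l + 1 ≤ (i : ℕ) ∧ (i : ℕ) < l + e)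
      else ∅,
    fun a => univ.filter (fun i : Fin n => (i : ℕ) < l ∧ y i < 2 * n + 1 - a), ?_, ?_, ?_, ?_, ?_,
    ?_, ?_⟩
  · intro v
    cases v with
    | x i =>
      rw [deg_x hle hy i]
      split_ifs <;> omega
    | y i =>
      by_cases hi : (i : ℕ) < l
      · have := hdy i hi
        omega
      · rw [deg_y_ge hle hy i hi]
        split_ifs <;> omega
    | z k => exact k.elim0
  · intro a ha
    rw [mem_filter] at ha
    by_cases ha1 : (a : ℕ) < l
    · simp only [if_pos ha1]
      obtain ⟨h1, h2, h3⟩ := hxy (s a) (hsl a ha1)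
      refine ⟨h1, by omega, h3, fun i hi => ?_⟩
      rw [mem_filter] at hi
      exact hi.2
    · have h0 := hz (a - l) (by omega)
      by_cases ha2 : (a : ℕ) < l + 2 * e
      · simp only [if_neg ha1, if_pos ha2]
        refine ⟨by omega, by omega, h0.2.1 (by omega), fun i hi => ?_⟩
        rw [mem_filter] at hi
        exact hi.2.1
      · simp only [if_neg ha1, if_neg ha2]
        refine ⟨h0.1, by omega, h0.2.2 (by omega), fun i hi => ?_⟩
        exact absurd hi (notMem_empty _)
  · intro a ha i
    rw [mem_filter] at ha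
    by_cases ha1 : (a : ℕ) < l
    · simp only [if_pos ha1, mem_filter, mem_univ, true_and]
      constructor
      · intro _; omega
      · intro _
        by_cases hi : (i : ℕ) < l
        · have := hdx i hi
          omega
        · rw [deg_x hle hy i]
          split_ifs <;> omega
    · by_cases ha2 : (a : ℕ) < l + 2 * e
      · simp only [if_neg ha1, if_pos ha2, mem_filter, mem_univ, true_and]
        by_cases hi : (i : ℕ) < l
        · have := hdx i hi
          omega
        · rw [deg_x hle hy i]
          split_ifs <;> omega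
      · simp only [if_neg ha1, if_neg ha2, notMem_empty, or_false]
        by_cases hi : (i : ℕ) < l
        · have := hdx i hi
          omega
        · rw [deg_x hle hy i]
          split_ifs <;> omega
  · intro a ha i
    rw [mem_filter] at ha
    by_cases ha1 : (a : ℕ) < l
    · simp only [if_pos ha1, mem_filter, mem_univ, true_and]
      by_cases hi : (i : ℕ) < l
      · rw [deg_y_lt hle hy i hi]
        exact hs a ha1 i
      · rw [deg_y_ge hle hy i hi]
        have := hy (s a) (hsl a ha1)
        split_ifs <;> omega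
    · by_cases ha2 : (a : ℕ) < l + 2 * e
      · simp only [if_neg ha1, if_pos ha2, mem_filter, mem_univ, true_and]
        by_cases hi : (i : ℕ) < l
        · have := hdy i hi
          omega
        · rw [deg_y_ge hle hy i hi]
          split_ifs <;> omega
      · simp only [if_neg ha1, if_neg ha2, notMem_empty, iff_false]
        by_cases hi : (i : ℕ) < l
        · have := hdy i hi
          omega
        · rw [deg_y_ge hle hy i hi]
          split_ifs <;> omega
  · intro a ha i
    rw [mem_filter, not_and] at ha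
    have ha' := ha (mem_univ _)
    simp only [mem_filter, mem_univ, true_and]
    rw [deg_x hle hy i]
    have := hy i
    split_ifs <;> omega
  · intro a ha i
    rw [mem_filter, not_and] at ha
    have ha' := ha (mem_univ _)
    by_cases hi : (i : ℕ) < l
    · have := hdy i hi
      omega
    · rw [deg_y_ge hle hy i hi]
      split_ifs <;> omega
  · intro i
    have h1 := card_cols hN (fun a => (i : ℕ) < if a < l then x (s a) else z (a - l))
      (fun a => (i : ℕ) < l ∧ y i < 2 * n + 1 - a)
    have e1 : (univ.filter (fun a : Fin (2 * n + 1) => (a : ℕ) < l + M)).filter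
        (fun a : Fin (2 * n + 1) => (i : ℕ) < if (a : ℕ) < l then x (s a) else z (a - l)) =
        univ.filter (fun a : Fin (2 * n + 1) => (a : ℕ) < l + M ∧
          (i : ℕ) < if (a : ℕ) < l then x (s a) else z (a - l)) := by
      rw [filter_filter]
    have e2 : univ.filter (fun a : Fin (2 * n + 1) => a ∉ univ.filter
        (fun a : Fin (2 * n + 1) => (a : ℕ) < l + M) ∧ i ∈ univ.filter
        (fun i : Fin n => (i : ℕ) < l ∧ y i < 2 * n + 1 - a)) =
        univ.filter (fun a : Fin (2 * n + 1) => ¬ (a : ℕ) < l + M ∧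
          ((i : ℕ) < l ∧ y i < 2 * n + 1 - a)) := by
      refine filter_congr fun a _ => ?_
      simp only [mem_filter, mem_univ, true_and]
    have e3 : (range l).filter (fun a => (i : ℕ) < if a < l then x (s a) else z (a - l)) =
        (range l).filter (fun a => (i : ℕ) < x (s a)) := by
      refine filter_congr fun a ha => ?_
      rw [mem_range] at ha
      rw [if_pos ha]
    have e4 : (range M).filter (fun j => (i : ℕ) < if l + j < l then x (s (l + j)) else
        z (l + j - l)) = (range M).filter (fun j => (i : ℕ) < z j) := by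
      refine filter_congr fun j _ => ?_
      rw [if_neg (by omega), Nat.add_sub_cancel_left]
    rw [e3, e4, hsP (fun k => (i : ℕ) < x k)] at h1
    beta_reduce
    rw [e1, e2, h1]
    by_cases hi : (i : ℕ) < l
    · have h2 := hfix i hi
      have e5 : (range l).filter (fun t => (i : ℕ) < l ∧ y i < 2 * n + 1 - (l + M + t)) =
          range (l - y i) := by
        ext t
        rw [mem_filter, mem_range, mem_range]
        omega
      have := hy i hi
      rw [e5, card_range]
      omega
    · have e5 : (range l).filter (fun t => (i : ℕ) < l ∧ y i < 2 * n + 1 - (l + M + t)) = ∅ := by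
        refine filter_false_of_mem fun t _ => ?_
        omega
      have e6 : (range l).filter (fun k => (i : ℕ) < x k) = ∅ := by
        refine filter_false_of_mem fun k hk => ?_
        rw [mem_range] at hk
        have := hxy k hk
        omega
      have e7 : (range M).filter (fun k => (i : ℕ) < z k) = ∅ := by
        refine filter_false_of_mem fun k hk => ?_
        rw [mem_range] at hk
        have := hz k hk
        omega
      rw [e5, e6, e7]
      have := (hl i).not
      simp
      omega

end Kost
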