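import Pool.Agent.Kost.Mat

/-!
# Module C (MP_869ec4): combinatorial certificates in the form used by the representation side

`so_cert` from `Kost.Landau.exists_cert` (helper56), `sp_cert` from `Kost.typeC_comb` (helper15).
(These two theorems will be proved in `CertSo.lean`, `CertSp.lean`; here only the statements, as
definitions, so that everybody can use them.)
-/

open Module Matrix

namespace Kost

/-- statement for types D (`b = 0`) and B (`b = 1`): `w` are the weights of a threshold graph -/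
def SoCert (n b : ℕ) (lam : Fin n → ℕ) : Prop :=
  ∃ (w : Idx n b → ℤ) (δ : ℕ),
    (∀ i : Fin n, 0 < lam i →
      degA w (.y i) + lam i ≤ degA w (.x i) ∧ Even (degA w (.x i) + degA w (.y i) + lam i)) ∧
    (∀ i : Fin n, lam i = 0 → degA w (.x i) = degA w (.y i) ∧ Even (degA w (.x i) + δ)) ∧
    (∀ k : Fin b, Even (degA w (.z k) + δ))

/-- statement for type C: `w` are the weights of a threshold graph with loops, columns of the degree
sequence as in `sp_eval` with `m = 2 n + 1` -/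
def SpCert (n : ℕ) (lam : Fin n → ℕ) : Prop :=
  ∃ (w : Idx n 0 → ℤ) (G : Finset (Fin (2 * n + 1))) (p X : Fin (2 * n + 1) → ℕ)
    (Q Jr : Fin (2 * n + 1) → Finset (Fin n)),
    (∀ j, degS w j ≤ 2 * n + 1) ∧
    (∀ a ∈ G, X a ≤ p a ∧ p a ≤ n ∧ Even (p a - X a) ∧ ∀ i ∈ Q a, p a ≤ i) ∧
    (∀ a ∈ G, ∀ i : Fin n, (a : ℕ) < degS w (.x i) ↔ ((i : ℕ) < p a ∨ i ∈ Q a)) ∧
    (∀ a ∈ G, ∀ i : Fin n, (a : ℕ) < degS w (.y i) ↔ i ∈ Q a) ∧
    (∀ a, a ∉ G → ∀ i : Fin n, (a : ℕ) < degS w (.x i) ↔ i ∈ Jr a) ∧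
    (∀ a, a ∉ G → ∀ i : Fin n, ¬ (a : ℕ) < degS w (.y i)) ∧
    (∀ i : Fin n, lam i = (G.filter (fun a => (i : ℕ) < X a)).card +
      (Finset.univ.filter (fun a => a ∉ G ∧ i ∈ Jr a)).card)

end Kost
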