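import Mathlib

/-!
# Kostant's conjecture: the fixed point theorem (rows of large length)

`Kost.top_exists`: the top part of helper40's theorem for type C; the case `p = 0`, `l = 2 q`
is Theorem A (`Kost.theoremA`).
-/

open Finset

namespace Kost

/-- the number of `k ∈ [1,q]` with `x k ≥ i` -/
noncomputable def cnt (q : ℤ) (x : ℤ → ℤ) (i : ℤ) : ℤ := ((Icc 1 q).filter (fun k => i ≤ x k)).card

/-- the number of steps `-2` needed to bring all entries down to `≤ t` -/
noncomputable def low (q : ℤ) (x : ℤ → ℤ) (t : ℤ) : ℤ := ∑ k ∈ Icc 1 q, max 0 ((x k - t + 1) / 2)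

theorem cnt_eq_low (q : ℤ) (x : ℤ → ℤ) (i : ℤ) :
    cnt q x i = low q x (i - 1) - low q x (i + 1) := by
  unfold cnt low
  rw [← Finset.sum_sub_distrib, card_filter]
  push_cast
  refine sum_congr rfl fun k _ => ?_
  split_ifs <;> omega

theorem low_nonneg (q : ℤ) (x : ℤ → ℤ) (t : ℤ) : 0 ≤ low q x t :=
  sum_nonneg fun _ _ => le_max_left _ _

theorem low_mono {q : ℤ} {x y : ℤ → ℤ} (h : ∀ k ∈ Icc 1 q, x k ≤ y k) (t : ℤ) :
    low q x t ≤ low q y t := by
  refine sum_le_sum fun k hk => ?_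
  have := h k hk
  omega

theorem cnt_mono {q : ℤ} {x y : ℤ → ℤ} (h : ∀ k ∈ Icc 1 q, x k ≤ y k) (t : ℤ) :
    cnt q x t ≤ cnt q y t := by
  unfold cnt
  norm_cast
  refine card_le_card fun k hk => ?_
  rw [mem_filter] at hk ⊢
  exact ⟨hk.1, hk.2.trans (h k hk.1)⟩

theorem cnt_nonneg (q : ℤ) (x : ℤ → ℤ) (t : ℤ) : 0 ≤ cnt q x t := by
  unfold cnt; positivity

theorem cnt_anti (q : ℤ) (x : ℤ → ℤ) {s t : ℤ} (h : s ≤ t) : cnt q x t ≤ cnt q x s := by
  unfold cnt
  norm_cast
  refine card_le_card fun k hk => ?_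
  rw [mem_filter] at hk ⊢
  exact ⟨hk.1, h.trans hk.2⟩

theorem cnt_le (q : ℤ) (hq : 0 ≤ q) (x : ℤ → ℤ) (t : ℤ) : cnt q x t ≤ q := by
  unfold cnt
  have h1 : ((Icc 1 q).filter (fun k => t ≤ x k)).card ≤ (Icc 1 q).card := card_filter_le _ _
  have h2 : (Icc 1 q).card = (q + 1 - 1).toNat := Int.card_Icc _ _
  omega

/-- lowering maximal entries -/
theorem lower_exists {q : ℤ} (hq : 1 ≤ q) (y : ℤ → ℤ) (p : ℕ) : ∃ x : ℤ → ℤ,
    (∀ k ∈ Icc 1 q, x k ≤ y k ∧ (y k - x k) % 2 = 0) ∧
    ∑ k ∈ Icc 1 q, (y k - x k) = 2 * p ∧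
    (∀ k ∈ Icc 1 q, ∀ k' ∈ Icc 1 q, x k < y k → x k' ≤ x k + 2) ∧
    ∀ t, 0 ≤ t → low q x t = max 0 (low q y t - p) := by
  induction p with
  | zero =>
    refine ⟨y, fun k _ => ⟨le_refl _, by simp⟩, by simp, fun k _ k' _ h => absurd h (lt_irrefl _),
      fun t _ => ?_⟩
    have := low_nonneg q y t
    simp [this]
  | succ p ih =>
    obtain ⟨x, h1, h2, h3, h4⟩ := ih
    obtain ⟨m, hm, hmax⟩ := exists_max_image (Icc 1 q) x ⟨1, mem_Icc.2 ⟨le_refl _, hq⟩⟩
    have hsum : ∀ f : ℤ → ℤ → ℤ, ∑ k ∈ Icc 1 q, f k (Function.update x m (x m - 2) k) =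
        ∑ k ∈ Icc 1 q, f k (x k) - f m (x m) + f m (x m - 2) := by
      intro f
      rw [← add_sum_erase _ _ hm, ← add_sum_erase (a := m) _ _ hm]
      have : ∑ k ∈ (Icc 1 q).erase m, f k (Function.update x m (x m - 2) k) =
          ∑ k ∈ (Icc 1 q).erase m, f k (x k) := by
        refine sum_congr rfl fun k hk => ?_
        rw [Function.update_of_ne (ne_of_mem_erase hk)]
      rw [this]
      simp only [Function.update_self]
      ring
    refine ⟨Function.update x m (x m - 2), fun k hk => ?_, ?_, fun k hk k' hk' => ?_,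
      fun t ht => ?_⟩
    · rcases eq_or_ne k m with rfl | hkm
      · have := h1 k hk
        rw [Function.update_self]
        omega
      · rw [Function.update_of_ne hkm]
        exact h1 k hk
    · rw [hsum (fun k z => y k - z), h2]
      push_cast
      ring
    · have e1 : Function.update x m (x m - 2) k' ≤ x k' := by
        rcases eq_or_ne k' m with rfl | hkm
        · rw [Function.update_self]; omega
        · rw [Function.update_of_ne hkm]
      rcases eq_or_ne k m with rfl | hkm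
      · rw [Function.update_self]
        intro _
        have := hmax k' hk'
        omega
      · rw [Function.update_of_ne hkm]
        intro h
        have := h3 k hk k' hk' h
        omega
    · have e2 : low q (Function.update x m (x m - 2)) t =
          low q x t - max 0 ((x m - t + 1) / 2) + max 0 ((x m - 2 - t + 1) / 2) := by
        unfold low
        exact hsum (fun _ z => max 0 ((z - t + 1) / 2))
      have e3 := h4 t ht
      have e4 := low_nonneg q (Function.update x m (x m - 2)) t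
      by_cases hlt : t < x m
      · push_cast
        omega
      · have e5 : low q x t = 0 := by
          unfold low
          refine sum_eq_zero fun k hk => ?_
          have := hmax k hk
          omega
        push_cast
        omega

/-- the fixed point (Tarski) -/
theorem fixed_point {q l : ℤ} (hq : 1 ≤ q) (hl : 0 ≤ l) (c : ℤ → ℤ) (p : ℕ) : ∃ x y : ℤ → ℤ,
    (∀ k ∈ Icc 1 q, x k ≤ y k ∧ (y k - x k) % 2 = 0) ∧
    ∑ k ∈ Icc 1 q, (y k - x k) = 2 * p ∧
    (∀ k ∈ Icc 1 q, ∀ k' ∈ Icc 1 q, x k < y k → x k' ≤ x k + 2) ∧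
    ∀ i ∈ Icc 1 q, y i = max 0 (min l (c i + cnt q x i)) := by
  have : Fact ((0 : ℤ) ≤ l) := ⟨hl⟩
  let φ : (ℤ → Set.Icc (0 : ℤ) l) →o (ℤ → Set.Icc (0 : ℤ) l) :=
    { toFun := fun y i => ⟨max 0 (min l (c i + min (cnt q (fun k => (y k : ℤ)) i)
          (max 0 (low q (fun k => (y k : ℤ)) (i - 1) - p)))), by
            constructor <;> omega⟩
      monotone' := by
        intro y z hyz i
        have hyz' : ∀ k ∈ Icc 1 q, (fun k => (y k : ℤ)) k ≤ (fun k => (z k : ℤ)) k :=
          fun k _ => hyz k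
        have h1 := cnt_mono hyz' i
        have h2 := low_mono hyz' (i - 1)
        show (max 0 (min l (c i + min (cnt q (fun k => (y k : ℤ)) i)
          (max 0 (low q (fun k => (y k : ℤ)) (i - 1) - p)))) : ℤ) ≤
          (max 0 (min l (c i + min (cnt q (fun k => (z k : ℤ)) i)
          (max 0 (low q (fun k => (z k : ℤ)) (i - 1) - p)))) : ℤ)
        omega }
  have hfix := φ.map_lfp
  set y := φ.lfp with hy
  obtain ⟨x, h1, h2, h3, h4⟩ := lower_exists hq (fun k => (y k : ℤ)) p
  refine ⟨x, fun k => (y k : ℤ), h1, h2, h3, fun i hi => ?_⟩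
  have e1 : ((φ y i : Set.Icc (0 : ℤ) l) : ℤ) = y i := by rw [hfix]
  have e2 : ((φ y i : Set.Icc (0 : ℤ) l) : ℤ) =
      max 0 (min l (c i + min (cnt q (fun k => (y k : ℤ)) i)
          (max 0 (low q (fun k => (y k : ℤ)) (i - 1) - p)))) := rfl
  have hi1 := (mem_Icc.1 hi).1
  have e3 : cnt q x i = min (cnt q (fun k => (y k : ℤ)) i)
          (max 0 (low q (fun k => (y k : ℤ)) (i - 1) - p)) := by
    rw [cnt_eq_low, cnt_eq_low, h4 _ (by omega), h4 _ (by omega)]
    have := low_nonneg q (fun k => (y k : ℤ)) (i + 1)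
    have : 0 ≤ cnt q (fun k => (y k : ℤ)) i := cnt_nonneg _ _ _
    rw [cnt_eq_low] at this
    omega
  show (y i : ℤ) = _
  rw [e3, ← e2, e1]


theorem exists_last (P : ℤ → Prop) {a b : ℤ} (h : ∃ k, a ≤ k ∧ k ≤ b ∧ P k) :
    ∃ k, a ≤ k ∧ k ≤ b ∧ P k ∧ ∀ m, k < m → m ≤ b → ¬ P m := by
  obtain ⟨k, h1, h2⟩ := Int.exists_greatest_of_bdd (P := fun k => a ≤ k ∧ k ≤ b ∧ P k)
    ⟨b, fun z hz => hz.2.1⟩ h
  refine ⟨k, h1.1, h1.2.1, h1.2.2, fun m hm hmb hP => ?_⟩
  have := h2 m ⟨by omega, hmb, hP⟩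
  omega

theorem exists_first (P : ℤ → Prop) {a b : ℤ} (h : ∃ k, a ≤ k ∧ k ≤ b ∧ P k) :
    ∃ k, a ≤ k ∧ k ≤ b ∧ P k ∧ ∀ m, a ≤ m → m < k → ¬ P m := by
  obtain ⟨k, h1, h2⟩ := Int.exists_least_of_bdd (P := fun k => a ≤ k ∧ k ≤ b ∧ P k)
    ⟨a, fun z hz => hz.1⟩ h
  refine ⟨k, h1.1, h1.2.1, h1.2.2, fun m hm hmb hP => ?_⟩
  have := h2 m ⟨by omega, by omega, hP⟩
  omega

section counting

variable {q : ℤ} {x : ℤ → ℤ}

theorem cnt_le_of {t b : ℤ} (_hb : 0 ≤ b) (hbq : b ≤ q)
    (h : ∀ k, 1 ≤ k → k ≤ q → t ≤ x k → b < k) : cnt q x t ≤ q - b := by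
  unfold cnt
  have h1 : ((Icc 1 q).filter (fun k => t ≤ x k)).card ≤ (Ioc b q).card := by
    refine card_le_card fun k hk => ?_
    rw [mem_filter, mem_Icc] at hk
    rw [mem_Ioc]
    exact ⟨h k hk.1.1 hk.1.2 hk.2, hk.1.2⟩
  rw [Int.card_Ioc] at h1
  omega

theorem cnt_ge_of {t s : ℤ} (hs : 1 ≤ s)
    (h : ∀ k, s ≤ k → k ≤ q → t ≤ x k) : q - s + 1 ≤ cnt q x t := by
  unfold cnt
  have h1 : (Icc s q).card ≤ ((Icc 1 q).filter (fun k => t ≤ x k)).card := by
    refine card_le_card fun k hk => ?_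
    rw [mem_Icc] at hk
    rw [mem_filter, mem_Icc]
    exact ⟨⟨by omega, hk.2⟩, h k hk.1 hk.2⟩
  rw [Int.card_Icc] at h1
  omega

/-- if all entries behind `a` are `≥ t` and there are only `q - a` entries `≥ t`, then there
are no others -/
theorem cnt_tight_left {t a : ℤ} (ha : 0 ≤ a) (haq : a ≤ q) (hc : cnt q x t ≤ q - a)
    (h : ∀ k, a < k → k ≤ q → t ≤ x k) : ∀ k, 1 ≤ k → k ≤ a → x k < t := by
  intro k hk hka
  by_contra hcon
  push Not at hcon
  unfold cnt at hc
  have h1 : insert k (Ioc a q) ⊆ (Icc 1 q).filter (fun k => t ≤ x k) := by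
    intro m hm
    rw [mem_insert, mem_Ioc] at hm
    rw [mem_filter, mem_Icc]
    rcases hm with rfl | hm
    · exact ⟨⟨hk, by omega⟩, hcon⟩
    · exact ⟨⟨by omega, hm.2⟩, h m hm.1 hm.2⟩
  have h2 := card_le_card h1
  rw [card_insert_of_notMem (by rw [mem_Ioc]; omega), Int.card_Ioc] at h2
  omega

/-- if all entries `≥ t` are behind `a` and there are at least `q - a` of them, then all entries
behind `a` are `≥ t` -/
theorem cnt_tight_right {t a : ℤ} (_ha : 0 ≤ a) (haq : a ≤ q) (hc : q - a ≤ cnt q x t)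
    (h : ∀ k, 1 ≤ k → k ≤ a → x k < t) : ∀ k, a < k → k ≤ q → t ≤ x k := by
  intro k hk hka
  by_contra hcon
  push Not at hcon
  unfold cnt at hc
  have h1 : (Icc 1 q).filter (fun k => t ≤ x k) ⊆ (Ioc a q).erase k := by
    intro m hm
    rw [mem_filter, mem_Icc] at hm
    rw [mem_erase, mem_Ioc]
    refine ⟨fun h0 => by subst h0; omega, ?_, hm.1.2⟩
    by_contra h3
    have := h m hm.1.1 (by omega)
    omega
  have h2 := card_le_card h1
  rw [card_erase_of_mem (by rw [mem_Ioc]; omega), Int.card_Ioc] at h2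
  omega

/-- equal counts at `a` and `a + 1`: the value `a` is not taken -/
theorem ne_of_cnt_eq {a : ℤ} (h : cnt q x a ≤ cnt q x (a + 1)) :
    ∀ k, 1 ≤ k → k ≤ q → x k ≠ a := by
  intro k hk hkq hcon
  unfold cnt at h
  have h1 : (Icc 1 q).filter (fun k => a + 1 ≤ x k) ⊆
      ((Icc 1 q).filter (fun k => a ≤ x k)).erase k := by
    intro m hm
    rw [mem_filter, mem_Icc] at hm
    rw [mem_erase, mem_filter, mem_Icc]
    exact ⟨fun h0 => by subst h0; omega, ⟨hm.1, by omega⟩⟩
  have h2 := card_le_card h1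
  have h3 : k ∈ (Icc 1 q).filter (fun k => a ≤ x k) := by
    rw [mem_filter, mem_Icc]; exact ⟨⟨hk, hkq⟩, by omega⟩
  rw [card_erase_of_mem h3] at h2
  have h4 := card_pos.2 ⟨k, h3⟩
  omega

/-- `∑_{i ≤ a} #{k : x k ≥ i} = ∑_k min (x_k^+) a` -/
theorem sum_cnt {a : ℤ} (ha : 0 ≤ a) :
    ∑ i ∈ Icc 1 a, cnt q x i = ∑ k ∈ Icc 1 q, min (max (x k) 0) a := by
  have h1 : ∀ i ∈ Icc 1 a, cnt q x i = ∑ k ∈ Icc 1 q, if i ≤ x k then 1 else 0 := by
    intro i _
    unfold cnt
    rw [card_filter]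
    push_cast
    rfl
  rw [sum_congr rfl h1, sum_comm]
  refine sum_congr rfl fun k _ => ?_
  rw [← sum_filter, sum_const, nsmul_eq_mul, mul_one]
  have h2 : (Icc 1 a).filter (fun i => i ≤ x k) = Icc 1 (min (max (x k) 0) a) := by
    ext i
    simp only [mem_filter, mem_Icc]
    omega
  rw [h2, Int.card_Icc]
  omega

end counting


/-- a fixed point of the clamped map -/
structure FP (q l : ℤ) (c x y : ℤ → ℤ) : Prop where
  hq : 1 ≤ q
  hl : q ≤ l
  le : ∀ k, 1 ≤ k → k ≤ q → x k ≤ y k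
  low : ∀ k k', 1 ≤ k → k ≤ q → 1 ≤ k' → k' ≤ q → x k < y k → x k' ≤ x k + 2
  fix : ∀ i, 1 ≤ i → i ≤ q → y i = max 0 (min l (c i + cnt q x i))
  mono : ∀ i j, 1 ≤ i → i < j → j ≤ q → c i ≤ c j + 1

section main

variable {q l : ℤ} {c x y : ℤ → ℤ}

/-- The hypotheses of the descent. `i0` is a clipped (below) index, `j1` an index of type `Q`,
and the search region is `(i0, j0)`. -/
structure Bad (q l : ℤ) (c x y : ℤ → ℤ) (i0 j0 j1 : ℤ) : Prop where
  F : FP q l c x y
  hi0 : 1 ≤ i0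
  hA : c i0 + cnt q x i0 < 0
  hP : cnt q x i0 ≤ q - i0
  hij : i0 < j1
  hj1 : j1 ≤ q
  hQ : q - j1 < cnt q x j1
  h01 : (j1 = j0 ∧ l < c j0 + cnt q x j0) ∨ (j1 = q ∧ j0 = q + 1)
  hB : ∀ i, 1 ≤ i → i < j0 → c i + cnt q x i ≤ l
  hv : ∀ a, i0 ≤ a → a < j1 → cnt q x a ≤ q - a → q - a ≤ cnt q x (a + 1) →
    ∀ k, 1 ≤ k → k ≤ q → x k < y k → a ≤ x k
  hsum : ∀ a, i0 ≤ a → a < j1 → -(a * (q - a)) ≤ ∑ i ∈ Icc 1 a, c i

variable {i0 j0 j1 : ℤ}

theorem Bad.ne (_h : Bad q l c x y i0 j0 j1) {a : ℤ} (_ha : i0 ≤ a) (_haj : a < j1)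
    (h1 : cnt q x a ≤ q - a) (h2 : q - a ≤ cnt q x (a + 1)) :
    ∀ k, 1 ≤ k → k ≤ q → x k ≠ a := ne_of_cnt_eq (by omega)

theorem Bad.lt (h : Bad q l c x y i0 j0 j1) {a : ℤ} (ha : i0 ≤ a) (haj : a < j1)
    (h1 : cnt q x a ≤ q - a) (h2 : q - a ≤ cnt q x (a + 1)) :
    ∀ k, 1 ≤ k → k ≤ q → x k < y k → a < x k := by
  intro k hk hkq hlt
  have e1 := h.hv a ha haj h1 h2 k hk hkq hlt
  have e2 := h.ne ha haj h1 h2 k hk hkq
  omega

/-- both `X(a)` and `Y(a)` are nonempty -/
theorem Bad.XY (h : Bad q l c x y i0 j0 j1) {a : ℤ} (ha : i0 ≤ a) (haj : a < j1)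
    (h1 : cnt q x a ≤ q - a) (h2 : q - a ≤ cnt q x (a + 1)) :
    (∃ k, 1 ≤ k ∧ k ≤ a ∧ a < x k) ∧ (∃ k, a + 1 ≤ k ∧ k ≤ q ∧ x k < a) := by
  have hi0 := h.hi0
  have hj1 := h.hj1
  have hne := h.ne ha haj h1 h2
  have hlt := h.lt ha haj h1 h2
  have hanti := cnt_anti q x (show a ≤ a + 1 by omega)
  -- X empty iff Y empty
  have hXY : (∃ k, 1 ≤ k ∧ k ≤ a ∧ a < x k) ↔ (∃ k, a + 1 ≤ k ∧ k ≤ q ∧ x k < a) := by
    constructor
    · rintro ⟨k, hk1, hk2, hk3⟩
      by_contra hcon
      push Not at hcon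
      have := cnt_tight_left (q := q) (x := x) (t := a + 1) (a := a) (by omega) (by omega) (by omega)
        (fun m hm hmq => by
          have e1 := hcon m (by omega) hmq
          have e2 := hne m (by omega) hmq
          omega) k hk1 hk2
      omega
    · rintro ⟨k, hk1, hk2, hk3⟩
      by_contra hcon
      push Not at hcon
      have := cnt_tight_right (q := q) (x := x) (t := a + 1) (a := a) (by omega) (by omega) (by omega)
        (fun m hm hmq => by
          have e1 := hcon m (by omega) hmq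
          omega) k (by omega) hk2
      omega
  by_contra hcon
  have hX : ¬ ∃ k, 1 ≤ k ∧ k ≤ a ∧ a < x k := fun hX => hcon ⟨hX, hXY.1 hX⟩
  have hY : ¬ ∃ k, a + 1 ≤ k ∧ k ≤ q ∧ x k < a := fun hY => hcon ⟨hXY.2 hY, hY⟩
  push Not at hX hY
  -- the sum identity
  have hs := sum_cnt (q := q) (x := x) (a := a) (by omega)
  have hsplit : ∑ k ∈ Icc 1 q, min (max (x k) 0) a =
      ∑ k ∈ Icc 1 a, min (max (x k) 0) a + ∑ k ∈ Ioc a q, min (max (x k) 0) a := by
    rw [← sum_union]
    · congr 1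
      ext k
      simp only [mem_union, mem_Icc, mem_Ioc]
      omega
    · rw [disjoint_left]
      intro k hk
      simp only [mem_Icc, mem_Ioc] at hk ⊢
      omega
  have hy0 : ∀ k, 1 ≤ k → k ≤ q → 0 ≤ y k := by
    intro k hk hkq
    have := h.F.fix k hk hkq
    omega
  have hxy : ∀ k, 1 ≤ k → k ≤ a → x k = y k := by
    intro k hk hka
    have e1 := h.F.le k hk (by omega)
    have e2 := hX k hk hka
    by_contra hne'
    have := hlt k hk (by omega) (by omega)
    omega
  have hleft : ∑ k ∈ Icc 1 a, min (max (x k) 0) a = ∑ k ∈ Icc 1 a, y k := by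
    refine sum_congr rfl fun k hk => ?_
    rw [mem_Icc] at hk
    have e1 := hxy k hk.1 hk.2
    have e2 := hy0 k hk.1 (by omega)
    have e3 := hX k hk.1 hk.2
    omega
  have hright : ∑ k ∈ Ioc a q, min (max (x k) 0) a = a * (q - a) := by
    have : ∀ k ∈ Ioc a q, min (max (x k) 0) a = a := by
      intro k hk
      rw [mem_Ioc] at hk
      have e1 := hY k (by omega) hk.2
      omega
    rw [sum_congr rfl this, sum_const, Int.card_Ioc, nsmul_eq_mul]
    rw [Int.toNat_of_nonneg (by omega)]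
    ring
  have hraw : ∑ i ∈ Icc 1 a, (c i + cnt q x i) < ∑ i ∈ Icc 1 a, y i := by
    refine sum_lt_sum (fun i hi => ?_) ⟨i0, mem_Icc.2 ⟨hi0, ha⟩, ?_⟩
    · rw [mem_Icc] at hi
      have e1 := h.F.fix i hi.1 (by omega)
      have e2 := h.hB i hi.1 (by have := h.h01; omega)
      omega
    · have := hy0 i0 hi0 (by omega)
      have := h.hA
      omega
  rw [sum_add_distrib, hs, hsplit, hleft, hright] at hraw
  have := h.hsum a ha haj
  omega

theorem Bad.left (h : Bad q l c x y i0 j0 j1) {a : ℤ} (ha : i0 ≤ a) (haj : a < j1)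
    (h1 : cnt q x a ≤ q - a) (h2 : q - a ≤ cnt q x (a + 1)) :
    ∀ k, 1 ≤ k → k ≤ a → a < x k → i0 < k := by
  intro k hk hka hx
  by_contra hcon
  have hi0 := h.hi0
  have hj1 := h.hj1
  have e1 := h.F.le k hk (by omega)
  have e2 := h.F.fix k hk (by omega)
  have hA := h.hA
  have e3 := cnt_anti q x ha
  have e6 := cnt_anti q x (show a ≤ a + 1 by omega)
  rcases eq_or_lt_of_le (show k ≤ i0 by omega) with rfl | hlt
  · omega
  · have e4 := h.F.mono k i0 hk hlt (by omega)
    have e5 := cnt_le q (by omega) x k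
    omega

theorem Bad.right (h : Bad q l c x y i0 j0 j1) {a : ℤ} (ha : i0 ≤ a) (haj : a < j1)
    (h1 : cnt q x a ≤ q - a) (h2 : q - a ≤ cnt q x (a + 1)) :
    ∀ k, a < k → k ≤ q → x k < a → k < j0 := by
  intro k hk hkq hx
  have hi0 := h.hi0
  have hj1 := h.hj1
  rcases h.h01 with ⟨e1, e2⟩ | ⟨e1, e2⟩
  swap
  · omega
  by_contra hcon
  have hl := h.F.hl
  have e3 := h.F.le k (by omega) hkq
  have e4 : y k = x k := by
    by_contra hne
    have := h.lt ha haj h1 h2 k (by omega) hkq (by omega)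
    omega
  have e5 := h.F.fix k (by omega) hkq
  have e6 := cnt_anti q x (show a + 1 ≤ j0 by omega)
  have e7 := cnt_nonneg q x k
  have e8 := cnt_anti q x (show a ≤ a + 1 by omega)
  rcases eq_or_lt_of_le (show j0 ≤ k by omega) with rfl | hlt
  · omega
  · have e9 := h.F.mono j0 k (by omega) hlt hkq
    omega

/-- the descent: there is no transition `a` whose last element of `Y(a)` is in `Q` -/
theorem Bad.descent (h : Bad q l c x y i0 j0 j1) : ∀ n : ℕ, ∀ a : ℤ, a - i0 ≤ n →
    i0 ≤ a → a < j1 → cnt q x a ≤ q - a → q - a ≤ cnt q x (a + 1) →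
    ∀ b, a < b → b ≤ q → x b < a → (∀ k, b < k → k ≤ q → ¬ x k < a) →
    q - b < cnt q x b → False := by
  intro n
  induction n using Nat.strong_induction_on with
  | _ n ih =>
  intro a han ha haj h1 h2 b hab hbq hxb hmax hbQ
  have hi0 := h.hi0
  have hj1 := h.hj1
  have hl := h.F.hl
  have hA := h.hA
  have hj01 : j1 ≤ j0 := by have := h.h01; omega
  have hant : cnt q x (a + 1) ≤ cnt q x a := cnt_anti q x (by omega)
  have hbj := h.right ha haj h1 h2 b hab hbq hxb
  -- unclipped above below j0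
  have hyle : ∀ i, 1 ≤ i → i ≤ q → i < j0 → c i + cnt q x i ≤ y i := by
    intro i hi hiq hij
    have e1 := h.F.fix i hi hiq
    have e2 := h.hB i hi hij
    omega
  have hyge : ∀ i, 1 ≤ i → i ≤ q → 0 < y i → y i ≤ c i + cnt q x i := by
    intro i hi hiq hpos
    have e1 := h.F.fix i hi hiq
    omega
  have hyb : y b = x b := by
    have e1 := h.F.le b (by omega) hbq
    by_contra hne
    have := h.lt ha haj h1 h2 b (by omega) hbq (by omega)
    omega
  have hrawb := hyle b (by omega) hbq hbj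
  -- indices in (a, b] have x < b
  have hmid : ∀ i, a < i → i ≤ b → x i < b := by
    intro i hai hib
    rcases eq_or_lt_of_le hib with rfl | hib
    · omega
    have e1 := h.F.mono i b (by omega) hib hbq
    have e2 := h.F.le i (by omega) (by omega)
    have e3 := h.F.fix i (by omega) (by omega)
    have e4 := cnt_anti q x (show a + 1 ≤ i by omega)
    omega
  -- the element xi
  obtain ⟨ξ, hξ1, hξa, hξx⟩ : ∃ ξ, 1 ≤ ξ ∧ ξ ≤ a ∧ b ≤ x ξ := by
    by_contra hcon
    push Not at hcon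
    have := cnt_le_of (q := q) (x := x) (t := b) (b := b) (by omega) hbq (fun k hk hkq hkx => by
      by_contra hkb
      by_cases hka : k ≤ a
      · have := hcon k hk hka; omega
      · have := hmid k (by omega) (by omega); omega)
    omega
  have hξraw := hyge ξ hξ1 (by omega) (by have := h.F.le ξ hξ1 (by omega); omega)
  have hξle := h.F.le ξ hξ1 (by omega)
  -- s = min X(a)
  obtain ⟨hX, _⟩ := h.XY ha haj h1 h2
  obtain ⟨s, hs1, hsa, hsx, hsmin⟩ := exists_first (fun k => a < x k) hX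
  have hsi0 := h.left ha haj h1 h2 s hs1 hsa hsx
  have hsξ : s ≤ ξ := by
    by_contra hcon
    exact hsmin ξ hξ1 (by omega) (by omega)
  have hsle := h.F.le s hs1 (by omega)
  have hsraw := hyge s hs1 (by omega) (by omega)
  by_cases hsP : cnt q x s ≤ q - s
  · -- case s ∈ P
    have hmid2 : ∀ i, s ≤ i → i ≤ a → s ≤ x i := by
      intro i hsi hia
      rcases eq_or_lt_of_le hsi with rfl | hsi
      · omega
      have e1 := h.F.mono s i hs1 hsi (by omega)
      have e2 := h.F.le i (by omega) (by omega)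
      have e3 := h.F.fix i (by omega) (by omega)
      have e4 := cnt_anti q x (show i ≤ a by omega)
      by_cases hlow : x i < y i
      · have := h.lt ha haj h1 h2 i (by omega) (by omega) hlow
        omega
      · omega
    obtain ⟨β, hβa, hβq, hβx⟩ : ∃ β, a < β ∧ β ≤ q ∧ x β < s := by
      by_contra hcon
      push Not at hcon
      have := cnt_ge_of (q := q) (x := x) (t := s) (s := s) hs1 (fun k hk hkq => by
        by_cases hka : k ≤ a
        · exact hmid2 k hk hka
        · exact hcon k (by omega) hkq)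
      omega
    have hβb : β ≤ b := by
      by_contra hcon
      exact hmax β (by omega) hβq (by omega)
    have e1 := h.F.mono ξ β hξ1 (by omega) hβq
    have e2 := hyle β (by omega) hβq (by omega)
    have e3 : y β = x β := by
      have e1 := h.F.le β (by omega) hβq
      by_contra hne
      have := h.lt ha haj h1 h2 β (by omega) hβq (by omega)
      omega
    have e4 := cnt_anti q x hsξ
    have e5 := cnt_anti q x hβb
    omega
  · -- case s ∈ Q
    obtain ⟨a', ha'1, ha's, ha'P, ha'max⟩ := exists_last (fun m => cnt q x m ≤ q - m)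
      (a := i0) (b := s - 1) ⟨i0, le_refl _, by omega, h.hP⟩
    have ha'Q : ∀ m, a' < m → m ≤ s → q - m < cnt q x m := by
      intro m hm hms
      rcases eq_or_lt_of_le hms with rfl | hms
      · omega
      · have := ha'max m hm (by omega)
        omega
    have hT1 : q - a' ≤ cnt q x (a' + 1) := by
      have := ha'Q (a' + 1) (by omega) (by omega)
      omega
    have haj' : a' < j1 := by omega
    obtain ⟨_, hY'⟩ := h.XY ha'1 haj' ha'P hT1
    obtain ⟨b', hb'1, hb'q, hb'x, hb'max⟩ := exists_last (fun k => x k < a') hY'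
    have hant' : cnt q x (a' + 1) ≤ cnt q x a' := cnt_anti q x (by omega)
    by_cases hb'Q : q - b' < cnt q x b'
    · -- recursion
      have hn : (a' - i0).toNat < n := by omega
      exact ih (a' - i0).toNat hn a' (by omega) ha'1 haj' ha'P hT1 b' (by omega) hb'q hb'x
        (fun k hk hkq => hb'max k hk hkq) hb'Q
    · have hb's : s < b' := by
        by_contra hcon
        have := ha'Q b' (by omega) (by omega)
        omega
      have hb'j := h.right ha'1 haj' ha'P hT1 b' (by omega) hb'q hb'x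
      have e1 := h.F.mono s b' hs1 hb's hb'q
      have e2 := hyle b' (by omega) hb'q hb'j
      have e3 : y b' = x b' := by
        have e1 := h.F.le b' (by omega) hb'q
        by_contra hne
        have := h.lt ha'1 haj' ha'P hT1 b' (by omega) hb'q (by omega)
        omega
      have e4 := cnt_anti q x (show a' + 1 ≤ s by omega)
      have hb'a : a < b' := by
        by_contra hcon
        have := cnt_anti q x (show b' ≤ a by omega)
        omega
      have hb'b : b' ≤ b := by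
        by_contra hcon
        exact hmax b' (by omega) hb'q (by omega)
      have e5 := h.F.mono ξ b' hξ1 (by omega) hb'q
      have e6 := cnt_anti q x hsξ
      have e7 := cnt_anti q x hb'b
      omega

theorem Bad.false (h : Bad q l c x y i0 j0 j1) : False := by
  have hi0 := h.hi0
  have hij := h.hij
  have hj1 := h.hj1
  have hj01 := h.h01
  obtain ⟨a, ha, haj, haP, hamax⟩ := exists_last (fun m => cnt q x m ≤ q - m)
      (a := i0) (b := j1 - 1) ⟨i0, le_refl _, by omega, h.hP⟩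
  have haQ : ∀ m, a < m → m ≤ j1 → q - m < cnt q x m := by
    intro m hm hms
    rcases eq_or_lt_of_le hms with rfl | hms
    · exact h.hQ
    · have := hamax m hm (by omega)
      omega
  have hT : q - a ≤ cnt q x (a + 1) := by
    have := haQ (a + 1) (by omega) (by omega)
    omega
  obtain ⟨_, hY⟩ := h.XY ha (by omega) haP hT
  obtain ⟨b, hb1, hbq, hbx, hbmax⟩ := exists_last (fun k => x k < a) hY
  have hbj := h.right ha (by omega) haP hT b (by omega) hbq hbx
  exact h.descent (a - i0).toNat a (by omega) ha (by omega) haP hT b (by omega) hbq hbx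
    (fun k hk hkq => hbmax k hk hkq) (haQ b (by omega) (by omega))

end main


/-- **The fixed point theorem** (helper40's TOP; `p = 0`, `l = 2 q` is Theorem A). -/
theorem top_exists {q l : ℤ} (hl : q ≤ l) (c : ℤ → ℤ) (p : ℕ)
    (mono : ∀ i j, 1 ≤ i → i < j → j ≤ q → c i ≤ c j + 1)
    (hsum : ∀ a, 1 ≤ a → a < q → -(a * (q - a)) ≤ ∑ i ∈ Icc 1 a, c i)
    (htot : ∑ i ∈ Icc 1 q, c i = 2 * p)
    (hup : ∀ i, 1 ≤ i → i ≤ q → c i ≤ l - q + i - 1) :
    ∃ x y : ℤ → ℤ, (∀ k, 1 ≤ k → k ≤ q → 0 ≤ x k ∧ x k ≤ y k ∧ (y k - x k) % 2 = 0 ∧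
      y k ≤ l ∧ x k ≤ q) ∧ ∑ k ∈ Icc 1 q, (y k - x k) = 2 * p ∧
      (∀ k, 1 ≤ k → k ≤ q → ∀ k', 1 ≤ k' → k' ≤ q → x k < y k → x k' ≤ x k + 2) ∧
      ∀ i, 1 ≤ i → i ≤ q → y i = c i + cnt q x i := by
  rcases lt_or_ge q 1 with hq | hq
  · have hp : (p : ℤ) = 0 := by
      rw [Icc_eq_empty (by omega), sum_empty] at htot
      omega
    refine ⟨0, 0, fun k h1 h2 => by omega, ?_, fun k h1 h2 => by omega, fun i h1 h2 => by omega⟩
    rw [Icc_eq_empty (by omega), sum_empty, hp]
    norm_num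
  obtain ⟨x, y, h1, h2, h3, h4⟩ := fixed_point hq (show 0 ≤ l by omega) c p
  have F : FP q l c x y := ⟨hq, hl, fun k hk hkq => (h1 k (mem_Icc.2 ⟨hk, hkq⟩)).1,
    fun k k' hk hkq hk' hk'q => h3 k (mem_Icc.2 ⟨hk, hkq⟩) k' (mem_Icc.2 ⟨hk', hk'q⟩),
    fun i hi hiq => h4 i (mem_Icc.2 ⟨hi, hiq⟩), mono⟩
  have hy0 : ∀ k, 1 ≤ k → k ≤ q → 0 ≤ y k ∧ y k ≤ l := by
    intro k hk hkq
    have := F.fix k hk hkq
    omega
  have hsy : ∑ k ∈ Icc 1 q, y k = ∑ k ∈ Icc 1 q, x k + 2 * p := by
    rw [sum_sub_distrib] at h2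
    omega
  have hsraw : ∑ i ∈ Icc 1 q, (c i + cnt q x i) =
      2 * p + ∑ k ∈ Icc 1 q, min (max (x k) 0) q := by
    rw [sum_add_distrib, htot, sum_cnt (by omega)]
  -- no clipping below
  have hA : ∀ i0, 1 ≤ i0 → i0 ≤ q → 0 ≤ c i0 + cnt q x i0 := by
    intro i0 hi0 hi0q
    by_contra hA
    push Not at hA
    have hc0 : -(q - i0) ≤ c i0 := by
      have e1 : -(i0 * (q - i0)) ≤ ∑ i ∈ Icc 1 i0, c i := by
        rcases eq_or_lt_of_le hi0q with rfl | hlt
        · rw [htot]; have : (0 : ℤ) ≤ p := by positivity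
          nlinarith
        · exact hsum i0 hi0 hlt
      have e2 : ∑ i ∈ Icc 1 i0, c i ≤ i0 * (c i0 + 1) - 1 := by
        have e3 : Icc 1 i0 = insert i0 (Icc 1 (i0 - 1)) := by
          ext k; simp only [mem_Icc, mem_insert]; omega
        rw [e3, sum_insert (by simp)]
        have e4 : ∑ i ∈ Icc 1 (i0 - 1), c i ≤ ∑ i ∈ Icc 1 (i0 - 1), (c i0 + 1) := by
          refine sum_le_sum fun k hk => ?_
          rw [mem_Icc] at hk
          exact mono k i0 hk.1 (by omega) hi0q
        rw [sum_const, Int.card_Icc, nsmul_eq_mul] at e4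
        have e5 : (((i0 - 1 + 1 - 1).toNat : ℕ) : ℤ) = i0 - 1 := by omega
        rw [e5] at e4
        nlinarith
      by_contra hcon
      push Not at hcon
      have e6 : c i0 + 1 ≤ -(q - i0) := by omega
      nlinarith
    have hP : cnt q x i0 ≤ q - i0 := by omega
    by_cases hB : ∃ j, 1 ≤ j ∧ j ≤ q ∧ l < c j + cnt q x j
    · obtain ⟨j0, hj1, hjq, hjB, hjmin⟩ := exists_first _ hB
      have hup0 := hup j0 hj1 hjq
      have hcnt := cnt_le q (by omega) x j0
      have hc0' := cnt_nonneg q x i0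
      have hij : i0 < j0 := by
        by_contra hcon
        rcases eq_or_lt_of_le (show j0 ≤ i0 by omega) with rfl | hlt
        · omega
        · have := mono j0 i0 hj1 hlt hi0q
          omega
      refine Bad.false (i0 := i0) (j0 := j0) (j1 := j0)
        ⟨F, hi0, hA, hP, hij, hjq, by omega, Or.inl ⟨rfl, hjB⟩, ?_, ?_, ?_⟩
      · intro i hi hij'
        have := hjmin i hi hij'
        omega
      · intro a ha haj hT1 hT2 k hk hkq hlow
        have e0 := cnt_anti q x (show a ≤ a + 1 by omega)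
        have e1 : a + 2 ≤ j0 := by
          by_contra hcon
          have e2 : a + 1 = j0 := by omega
          rw [e2] at hT2 e0
          omega
        obtain ⟨k', hk', hk'q, hk'x⟩ : ∃ k', 1 ≤ k' ∧ k' ≤ q ∧ j0 ≤ x k' := by
          by_contra hcon
          push Not at hcon
          have := cnt_le_of (q := q) (x := x) (t := j0) (b := q) (by omega) (le_refl _)
            (fun k hk hkq hkx => by have := hcon k hk hkq; omega)
          omega
        have := F.low k k' hk hkq hk' hk'q hlow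
        omega
      · intro a ha haj
        exact hsum a (by omega) (by omega)
    · push Not at hB
      -- some x is > q
      obtain ⟨k', hk', hk'q, hk'x⟩ : ∃ k', 1 ≤ k' ∧ k' ≤ q ∧ q < x k' := by
        by_contra hcon
        push Not at hcon
        have e1 : ∑ i ∈ Icc 1 q, (c i + cnt q x i) < ∑ i ∈ Icc 1 q, y i := by
          refine sum_lt_sum (fun i hi => ?_) ⟨i0, mem_Icc.2 ⟨hi0, hi0q⟩, ?_⟩
          · rw [mem_Icc] at hi
            have e1 := F.fix i hi.1 hi.2
            have e2 := hB i hi.1 hi.2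
            omega
          · have := hy0 i0 hi0 hi0q
            omega
        have e2 : ∑ k ∈ Icc 1 q, x k ≤ ∑ k ∈ Icc 1 q, min (max (x k) 0) q := by
          refine sum_le_sum fun k hk => ?_
          rw [mem_Icc] at hk
          have := hcon k hk.1 hk.2
          omega
        omega
      have hcq : 0 < cnt q x q := by
        unfold cnt
        have : 0 < ((Icc 1 q).filter (fun k => q ≤ x k)).card :=
          card_pos.2 ⟨k', mem_filter.2 ⟨mem_Icc.2 ⟨hk', hk'q⟩, by omega⟩⟩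
        exact_mod_cast this
      have hij : i0 < q := by
        rcases eq_or_lt_of_le hi0q with rfl | hlt
        · omega
        · exact hlt
      refine Bad.false (i0 := i0) (j0 := q + 1) (j1 := q)
        ⟨F, hi0, hA, hP, hij, le_refl _, by omega, Or.inr ⟨rfl, rfl⟩, ?_, ?_, ?_⟩
      · intro i hi hij'
        exact hB i hi (by omega)
      · intro a ha haj hT1 hT2 k hk hkq hlow
        have := F.low k k' hk hkq hk' hk'q hlow
        omega
      · intro a ha haj
        exact hsum a (by omega) (by omega)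
  -- all `x ≥ 0`
  have hx0 : ∀ k, 1 ≤ k → k ≤ q → 0 ≤ x k := by
    intro k hk hkq
    by_contra hcon
    push Not at hcon
    have hx1 : ∀ k', 1 ≤ k' → k' ≤ q → x k' ≤ 1 := by
      intro k' hk' hk'q
      have e1 := hy0 k hk hkq
      have := F.low k k' hk hkq hk' hk'q (by omega)
      omega
    have hyr : ∀ i, 1 ≤ i → i ≤ q → y i = c i + cnt q x i := by
      intro i hi hiq
      have e1 := F.fix i hi hiq
      have e2 := hA i hi hiq
      have e3 := hup i hi hiq
      have e4 := cnt_le q (by omega) x i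
      rcases eq_or_lt_of_le hi with rfl | hlt
      · omega
      · have e5 : cnt q x i ≤ 0 := by
          have := cnt_le_of (q := q) (x := x) (t := i) (b := q) (by omega) (le_refl _)
            (fun k hk hkq hkx => by have := hx1 k hk hkq; omega)
          omega
        omega
    have e1 : ∑ i ∈ Icc 1 q, y i = ∑ i ∈ Icc 1 q, (c i + cnt q x i) := by
      refine sum_congr rfl fun i hi => ?_
      rw [mem_Icc] at hi
      exact hyr i hi.1 hi.2
    have e2 : ∑ k ∈ Icc 1 q, x k < ∑ k ∈ Icc 1 q, min (max (x k) 0) q := by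
      refine sum_lt_sum (fun i hi => ?_) ⟨k, mem_Icc.2 ⟨hk, hkq⟩, ?_⟩
      · rw [mem_Icc] at hi
        have := hx1 i hi.1 hi.2
        omega
      · omega
    omega
  -- conclusion
  have e1 : ∑ i ∈ Icc 1 q, y i ≤ ∑ i ∈ Icc 1 q, (c i + cnt q x i) := by
    refine sum_le_sum fun i hi => ?_
    rw [mem_Icc] at hi
    have e1 := F.fix i hi.1 hi.2
    have e2 := hA i hi.1 hi.2
    omega
  have hxq : ∀ k, 1 ≤ k → k ≤ q → x k ≤ q := by
    intro k hk hkq
    by_contra hcon
    push Not at hcon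
    have e2 : ∑ k ∈ Icc 1 q, min (max (x k) 0) q < ∑ k ∈ Icc 1 q, x k := by
      refine sum_lt_sum (fun i hi => ?_) ⟨k, mem_Icc.2 ⟨hk, hkq⟩, ?_⟩
      · rw [mem_Icc] at hi
        have := hx0 i hi.1 hi.2
        omega
      · omega
    omega
  have hyr : ∀ i, 1 ≤ i → i ≤ q → y i = c i + cnt q x i := by
    intro i hi hiq
    by_contra hne
    have e3 : ∑ i ∈ Icc 1 q, y i < ∑ i ∈ Icc 1 q, (c i + cnt q x i) := by
      refine sum_lt_sum (fun i hi => ?_) ⟨i, mem_Icc.2 ⟨hi, hiq⟩, ?_⟩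
      · rw [mem_Icc] at hi
        have e1 := F.fix i hi.1 hi.2
        have e2 := hA i hi.1 hi.2
        omega
      · have e1 := F.fix i hi hiq
        have e2 := hA i hi hiq
        omega
    have e2 : ∑ k ∈ Icc 1 q, min (max (x k) 0) q ≤ ∑ k ∈ Icc 1 q, x k := by
      refine sum_le_sum fun k hk => ?_
      rw [mem_Icc] at hk
      have := hx0 k hk.1 hk.2
      omega
    omega
  refine ⟨x, y, fun k hk hkq => ⟨hx0 k hk hkq, F.le k hk hkq, (h1 k (mem_Icc.2 ⟨hk, hkq⟩)).2,
    (hy0 k hk hkq).2, hxq k hk hkq⟩, h2, fun k hk hkq k' hk' hk'q => F.low k k' hk hkq hk' hk'q,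
    hyr⟩

/-- **Theorem A** (helper26, helper24, helper45). -/
theorem theoremA {q : ℤ} (c : ℤ → ℤ)
    (mono : ∀ i j, 1 ≤ i → i < j → j ≤ q → c i ≤ c j + 1)
    (hsum : ∀ a, 1 ≤ a → a < q → -(a * (q - a)) ≤ ∑ i ∈ Icc 1 a, c i)
    (htot : ∑ i ∈ Icc 1 q, c i = 0) :
    ∃ x : ℤ → ℤ, (∀ k, 1 ≤ k → k ≤ q → 0 ≤ x k ∧ x k ≤ q) ∧
      ∀ i, 1 ≤ i → i ≤ q → x i = c i + cnt q x i := by
  rcases lt_or_ge q 1 with hq | hq
  · exact ⟨0, fun k h1 h2 => by omega, fun k h1 h2 => by omega⟩
  have hup : ∀ i, 1 ≤ i → i ≤ q → c i ≤ 2 * q - q + i - 1 := by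
    intro i hi hiq
    have e0 : c i ≤ c q + 1 ∨ i = q := by
      rcases eq_or_lt_of_le hiq with h | hlt
      · exact Or.inr h
      · exact Or.inl (mono i q hi hlt (le_refl _))
    have e3 : Icc 1 q = insert q (Icc 1 (q - 1)) := by
      ext k; simp only [mem_Icc, mem_insert]; omega
    rw [e3, sum_insert (by simp)] at htot
    rcases eq_or_lt_of_le hq with h | hlt
    · have : Icc 1 (q - 1) = ∅ := Icc_eq_empty (by omega)
      rw [this, sum_empty] at htot
      rcases e0 with e0 | e0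
      · omega
      · subst e0; omega
    · have := hsum (q - 1) (by omega) (by omega)
      have e5 : (q - 1) * (q - (q - 1)) = q - 1 := by ring
      rw [e5] at this
      rcases e0 with e0 | e0
      · omega
      · subst e0; omega
  obtain ⟨x, y, h1, h2, _, h3⟩ := top_exists (q := q) (l := 2 * q) (by omega) c 0 mono hsum
    (by simpa using htot) hup
  have hxy : ∀ k, 1 ≤ k → k ≤ q → x k = y k := by
    intro k hk hkq
    by_contra hne
    have e1 : ∑ k ∈ Icc 1 q, (0 : ℤ) < ∑ k ∈ Icc 1 q, (y k - x k) := by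
      refine sum_lt_sum (fun i hi => ?_) ⟨k, mem_Icc.2 ⟨hk, hkq⟩, ?_⟩
      · rw [mem_Icc] at hi
        have := h1 i hi.1 hi.2
        omega
      · have := h1 k hk hkq
        omega
    rw [h2] at e1
    simp at e1
  refine ⟨x, fun k hk hkq => ⟨(h1 k hk hkq).1, (h1 k hk hkq).2.2.2.2⟩, fun i hi hiq => ?_⟩
  rw [hxy i hi hiq]
  exact h3 i hi hiq

end Kost
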