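import Pool.Agent.Kost.Mat

/-!
# Module B2 (MP_869ec4): `Λ(Λ² V)` and threshold graphs

PROOF. `uA a` is orthonormal for `trace (P Qᴴ)` and spans the antisymmetric matrices:
for antisymmetric `P`, `P = ∑_a trace (P (uA a)ᴴ) • uA a`.  `P ↦ X P + P Xᵀ` preserves antisymmetry,
so `piA (X * Y - Y * X) = piA X * piA Y - piA Y * piA X`, and `(piA X)ᴴ = piA Xᴴ` (the `uA a` are real:
`trace ((X P + P Xᵀ) Qᴴ)`, use `(uA a)ᴴ = (uA a)ᵀ = -uA a`, cyclicity, `trace Mᴴ = conj trace M`).
With `dG_lie`, `inner_dG` the first two statements follow.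
`piA (EM j k)`: `E_jk` sends the pair `{k, l}` to `± {j, l}` (`0` if `l = j`) and kills pairs without
`k`; `dG` on `ee T`: every term `cr a * an c` with `c ∈ T` and `a ∈ T`, `a ≠ c` vanishes.  For
`j ≠ k`, `w k ≤ w j`: if `{k, l} ∈ TA w`, `l ≠ j`, then `{j, l} ∈ TA w`. For `j = k`: diagonal, the
entry at `c` is 1 if `j ∈ c` and 0 otherwise; the number of `c ∈ TA w` containing `j` is
`degA w j`.
-/

open Module Matrix

namespace Kost

noncomputable section

/-- `dG M` on a basis vector whose set is closed under `M` -/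
theorem dG_ee_of_closed {K : Type*} [Fintype K] [DecidableEq K] (M : Matrix K K ℂ) (S : Finset K)
    (h : ∀ c ∈ S, ∀ i, i ∉ S → M i c = 0) : dG M (ee S) = (∑ c ∈ S, M c c) • ee S := by
  have e1 : ∀ i c, M i c • (cr i * an c) (ee S) =
      if i = c then (if c ∈ S then M c c • ee S else 0) else 0 := by
    intro i c
    rw [Module.End.mul_apply, an_ee]
    by_cases hc : c ∈ S
    · rw [if_pos hc, map_smul, cr_ee]
      by_cases hic : i = c
      · subst hic
        rw [if_pos rfl, if_pos hc, if_neg (Finset.notMem_erase _ _), Finset.insert_erase hc,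
          sgn_erase_self, smul_smul (sgn i S), sgn_mul_self, one_smul]
      · rw [if_neg hic]
        by_cases hi : i ∈ S
        · rw [if_pos (Finset.mem_erase.2 ⟨hic, hi⟩), smul_zero, smul_zero]
        · rw [h c hc i hi, zero_smul]
    · rw [if_neg hc, map_zero, smul_zero, if_neg hc]
      split_ifs <;> rfl
  simp only [dG, LinearMap.sum_apply, LinearMap.smul_apply, e1, Finset.sum_ite_eq,
    Finset.mem_univ, if_true, Finset.sum_smul]
  rw [Finset.sum_ite_mem, Finset.univ_inter]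

variable {J : Type*} [Fintype J] [LinearOrder J]

theorem uA_apply (c : K2 J) (k l : J) : uA c k l =
    (√2 : ℂ)⁻¹ * ((if c.1.1 = k ∧ c.1.2 = l then 1 else 0) -
      (if c.1.2 = k ∧ c.1.1 = l then 1 else 0)) := by
  simp only [uA, EM, Matrix.smul_apply, Matrix.sub_apply, Matrix.single_apply, smul_eq_mul]

theorem uA_supp {c : K2 J} {k l : J} (h : uA c k l ≠ 0) :
    (c.1.1 = k ∧ c.1.2 = l) ∨ (c.1.2 = k ∧ c.1.1 = l) := by
  by_contra hc
  rw [not_or] at hc
  apply h
  rw [uA_apply, if_neg hc.1, if_neg hc.2, sub_zero, mul_zero]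

theorem uA_transpose (c : K2 J) : (uA c)ᵀ = - uA c := by
  ext k l
  rw [Matrix.transpose_apply, Matrix.neg_apply, uA_apply, uA_apply]
  have e1 : (if c.1.1 = l ∧ c.1.2 = k then (1 : ℂ) else 0) =
      if c.1.2 = k ∧ c.1.1 = l then 1 else 0 := if_congr and_comm rfl rfl
  have e2 : (if c.1.2 = l ∧ c.1.1 = k then (1 : ℂ) else 0) =
      if c.1.1 = k ∧ c.1.2 = l then 1 else 0 := if_congr and_comm rfl rfl
  rw [e1, e2]
  ring

theorem sqrt2_mul : (√2 : ℂ) * (√2 : ℂ) = 2 := by
  rw [← Complex.ofReal_mul, Real.mul_self_sqrt (by norm_num)]; norm_num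

theorem sqrt2_inv_mul : (√2 : ℂ)⁻¹ * (√2 : ℂ)⁻¹ = 2⁻¹ := by
  rw [← mul_inv, sqrt2_mul]

theorem uA_star (c : K2 J) (k l : J) : star (uA c k l) = uA c k l := by
  rw [uA_apply]
  have h : star ((√2 : ℂ)⁻¹) = (√2 : ℂ)⁻¹ := by
    rw [star_inv₀]; congr 1; exact Complex.conj_ofReal _
  rw [star_mul', h, star_sub]
  congr 2
  · split_ifs <;> simp
  · split_ifs <;> simp

theorem uA_conjTranspose (c : K2 J) : (uA c)ᴴ = - uA c := by
  rw [← uA_transpose]
  ext k l
  rw [Matrix.conjTranspose_apply, Matrix.transpose_apply, uA_star]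

/-- expansion of an antisymmetric matrix -/
theorem uA_expand (P : Matrix J J ℂ) (hP : Pᵀ = - P) :
    ∑ a : K2 J, trace (P * (uA a)ᴴ) • uA a = P := by
  have hP' : ∀ k l, P l k = - P k l := by
    intro k l
    have := congrFun (congrFun hP k) l
    rwa [Matrix.transpose_apply, Matrix.neg_apply] at this
  have htr : ∀ a : K2 J, trace (P * (uA a)ᴴ) = (√2 : ℂ)⁻¹ * (2 * P a.1.1 a.1.2) := by
    intro a
    rw [uA_conjTranspose, uA, mul_neg, Matrix.mul_smul, mul_sub, trace_neg, trace_smul, trace_sub,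
      Matrix.trace_mul_single, Matrix.trace_mul_single]
    rw [hP' a.1.1 a.1.2, smul_eq_mul]
    simp only [MulOpposite.op_one, one_smul]
    ring
  ext k l
  rw [Matrix.sum_apply]
  have e : ∀ a : K2 J, (trace (P * (uA a)ᴴ) • uA a) k l =
      P a.1.1 a.1.2 * ((if a.1.1 = k ∧ a.1.2 = l then 1 else 0) -
      (if a.1.2 = k ∧ a.1.1 = l then 1 else 0)) := by
    intro a
    rw [Matrix.smul_apply, htr, uA_apply, smul_eq_mul]
    have := sqrt2_inv_mul
    linear_combination (2 * P a.1.1 a.1.2 * ((if a.1.1 = k ∧ a.1.2 = l then 1 else 0) -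
      (if a.1.2 = k ∧ a.1.1 = l then 1 else 0))) * this
  rw [Finset.sum_congr rfl fun a _ => e a]
  rcases lt_trichotomy k l with h | h | h
  · rw [Finset.sum_eq_single (⟨(k, l), h⟩ : K2 J)]
    · rw [if_pos ⟨rfl, rfl⟩, if_neg (by rintro ⟨h1, _⟩; exact h.ne' h1)]; ring
    · rintro ⟨⟨a, b⟩, hab⟩ _ hne
      rw [if_neg, if_neg]
      · ring
      · rintro ⟨h1, h2⟩
        simp only at h1 h2
        subst h1 h2
        exact absurd h (not_lt.2 hab.le)
      · rintro ⟨h1, h2⟩
        simp only at h1 h2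
        subst h1 h2
        exact hne rfl
    · intro h; exact absurd (Finset.mem_univ _) h
  · subst h
    have h0 : P k k = 0 := by
      have := hP' k k
      exact self_eq_neg.1 this
    rw [h0]
    refine Finset.sum_eq_zero ?_
    rintro ⟨⟨a, b⟩, hab⟩ _
    rw [if_neg, if_neg]
    · ring
    · rintro ⟨h1, h2⟩
      simp only at h1 h2
      exact (hab.ne (h2.trans h1.symm))
    · rintro ⟨h1, h2⟩
      simp only at h1 h2
      exact (hab.ne (h1.trans h2.symm))
  · rw [Finset.sum_eq_single (⟨(l, k), h⟩ : K2 J)]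
    · rw [if_neg (by rintro ⟨h1, _⟩; exact h.ne h1), if_pos ⟨rfl, rfl⟩, hP' k l]; ring
    · rintro ⟨⟨a, b⟩, hab⟩ _ hne
      rw [if_neg, if_neg]
      · ring
      · rintro ⟨h1, h2⟩
        simp only at h1 h2
        subst h1 h2
        exact hne rfl
      · rintro ⟨h1, h2⟩
        simp only at h1 h2
        subst h1 h2
        exact absurd h (not_lt.2 hab.le)
    · intro h; exact absurd (Finset.mem_univ _) h

theorem piA_antisymm (X : Matrix J J ℂ) (c : K2 J) :
    (X * uA c + uA c * Xᵀ)ᵀ = - (X * uA c + uA c * Xᵀ) := by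
  rw [transpose_add, transpose_mul, transpose_mul, transpose_transpose, uA_transpose]
  rw [neg_mul, mul_neg]
  abel

theorem piA_mul_apply (X Y : Matrix J J ℂ) (a c : K2 J) : (piA X * piA Y) a c =
    trace ((X * (Y * uA c + uA c * Yᵀ) + (Y * uA c + uA c * Yᵀ) * Xᵀ) * (uA a)ᴴ) := by
  have h := uA_expand (Y * uA c + uA c * Yᵀ) (piA_antisymm Y c)
  conv_rhs => rw [← h]
  rw [Matrix.mul_apply]
  simp only [Matrix.mul_sum, Matrix.sum_mul, Matrix.mul_smul, Matrix.smul_mul, trace_add,
    trace_sum, trace_smul, add_mul]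
  rw [← Finset.sum_add_distrib]
  refine Finset.sum_congr rfl fun b _ => ?_
  simp only [piA, smul_eq_mul, trace_add, add_mul]
  ring

theorem piA_lie (X Y : Matrix J J ℂ) : piA X * piA Y - piA Y * piA X = piA (X * Y - Y * X) := by
  ext a c
  rw [Matrix.sub_apply, piA_mul_apply, piA_mul_apply, piA, ← trace_sub, ← sub_mul]
  congr 2
  rw [transpose_sub, transpose_mul, transpose_mul]
  noncomm_ring

theorem piA_conjTranspose (X : Matrix J J ℂ) : (piA X)ᴴ = piA Xᴴ := by
  ext a c
  rw [Matrix.conjTranspose_apply, piA, piA, ← trace_conjTranspose]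
  rw [conjTranspose_mul, conjTranspose_conjTranspose, conjTranspose_add, conjTranspose_mul,
    conjTranspose_mul, mul_add, add_mul, trace_add, trace_add, ← mul_assoc, trace_mul_comm _ Xᴴ,
    ← mul_assoc, ← mul_assoc]
  congr 1

theorem RA_lie (X Y : Matrix J J ℂ) : RA X * RA Y - RA Y * RA X = RA (X * Y - Y * X) := by
  change dG (piA X) * dG (piA Y) - dG (piA Y) * dG (piA X) = dG (piA (X * Y - Y * X))
  rw [dG_lie, piA_lie]

theorem RA_adj (X : Matrix J J ℂ) (u v : Fock (K2 J)) :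
    inner ℂ (RA X u) v = inner ℂ u (RA Xᴴ v) := by
  change inner ℂ (dG (piA X) u) v = inner ℂ u (dG (piA Xᴴ) v)
  rw [inner_dG, piA_conjTranspose]

/-- entries of `piA (EM j k)` -/
theorem piA_EM (j k : J) (a c : K2 J) :
    piA (EM j k) a c = 2 * ∑ l, uA a j l * uA c k l := by
  have h1 : trace (EM j k * uA c * (uA a)ᴴ) = ∑ l, uA a j l * uA c k l := by
    rw [mul_assoc, Matrix.trace_single_mul, one_smul, Matrix.mul_apply]
    refine Finset.sum_congr rfl fun l _ => ?_
    rw [Matrix.conjTranspose_apply, uA_star, mul_comm]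
  have h2 : trace (uA c * (EM j k)ᵀ * (uA a)ᴴ) = ∑ l, uA a j l * uA c k l := by
    rw [mul_assoc, trace_mul_comm, mul_assoc, EM, Matrix.transpose_single,
      Matrix.trace_single_mul, one_smul, Matrix.mul_apply]
    refine Finset.sum_congr rfl fun l _ => ?_
    rw [uA_conjTranspose, Matrix.neg_apply]
    have := congrFun (congrFun (uA_transpose a) l) j
    have h3 := congrFun (congrFun (uA_transpose c) l) k
    rw [Matrix.transpose_apply, Matrix.neg_apply] at this h3
    rw [this, h3]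
    ring
  rw [piA, add_mul, trace_add, h1, h2]
  ring

theorem piA_EM_closed (w : J → ℤ) {j k : J} (h : w k ≤ w j) (c : K2 J) (hc : c ∈ TA w)
    (a : K2 J) (ha : a ∉ TA w) : piA (EM j k) a c = 0 := by
  rw [piA_EM, Finset.sum_eq_zero, mul_zero]
  intro l _
  by_contra hne
  have h1 := uA_supp (left_ne_zero_of_mul hne)
  have h2 := uA_supp (right_ne_zero_of_mul hne)
  simp only [TA, Finset.mem_filter, Finset.mem_univ, true_and, not_lt] at hc ha
  rcases h1 with ⟨h1, h1'⟩ | ⟨h1, h1'⟩ <;> rcases h2 with ⟨h2, h2'⟩ | ⟨h2, h2'⟩ <;>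
    rw [h1, h1'] at ha <;> rw [h2, h2'] at hc <;> omega

theorem RA_diag (w : J → ℤ) (j : J) :
    RA (EM j j) (ee (TA w)) = (degA w j : ℂ) • ee (TA w) := by
  change dG (piA (EM j j)) (ee (TA w)) = _
  rw [dG_ee_of_closed _ _ fun c hc i hi => piA_EM_closed w le_rfl c hc i hi]
  congr 1
  simp only [piA_EM]
  rw [← Finset.mul_sum, Finset.sum_comm, degA, Finset.card_filter, Finset.mul_sum, Nat.cast_sum]
  refine Finset.sum_congr rfl fun l _ => ?_
  have h2 := sqrt2_inv_mul
  rcases lt_trichotomy j l with h | h | h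
  · have e : ∀ c ∈ TA w, c ≠ (⟨(j, l), h⟩ : K2 J) → uA c j l * uA c j l = 0 := by
      rintro ⟨⟨a, b⟩, hab⟩ _ hne
      by_contra h0
      rcases uA_supp (left_ne_zero_of_mul h0) with ⟨h1, h2⟩ | ⟨h1, h2⟩ <;> simp only at h1 h2 <;>
        subst h1 h2
      · exact hne rfl
      · exact absurd h (not_lt.2 hab.le)
    by_cases hw : 0 < w j + w l
    · rw [if_pos ⟨h.ne', hw⟩, Finset.sum_eq_single_of_mem (⟨(j, l), h⟩ : K2 J) _ e]
      · rw [uA_apply, if_pos ⟨rfl, rfl⟩, if_neg (by rintro ⟨h1, _⟩; exact h.ne' h1)]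
        push_cast
        linear_combination 2 * h2
      · simp only [TA, Finset.mem_filter, Finset.mem_univ, true_and]; exact hw
    · rw [if_neg (fun hh => hw hh.2), Finset.sum_eq_zero]
      · simp
      · intro c hc
        refine e c hc ?_
        rintro rfl
        simp only [TA, Finset.mem_filter, Finset.mem_univ, true_and] at hc
        exact hw hc
  · subst h
    rw [if_neg (fun hh => hh.1 rfl), Finset.sum_eq_zero]
    · simp
    · rintro ⟨⟨a, b⟩, hab⟩ _
      by_contra h0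
      rcases uA_supp (left_ne_zero_of_mul h0) with ⟨h1, h2⟩ | ⟨h1, h2⟩ <;> simp only at h1 h2
      · exact (hab.ne (h1.trans h2.symm))
      · exact (hab.ne (h2.trans h1.symm))
  · have e : ∀ c ∈ TA w, c ≠ (⟨(l, j), h⟩ : K2 J) → uA c j l * uA c j l = 0 := by
      rintro ⟨⟨a, b⟩, hab⟩ _ hne
      by_contra h0
      rcases uA_supp (left_ne_zero_of_mul h0) with ⟨h1, h2⟩ | ⟨h1, h2⟩ <;> simp only at h1 h2 <;>
        subst h1 h2
      · exact absurd h (not_lt.2 hab.le)
      · exact hne rfl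
    by_cases hw : 0 < w j + w l
    · rw [if_pos ⟨h.ne, hw⟩, Finset.sum_eq_single_of_mem (⟨(l, j), h⟩ : K2 J) _ e]
      · rw [uA_apply, if_neg (by rintro ⟨h1, _⟩; exact h.ne h1), if_pos ⟨rfl, rfl⟩]
        push_cast
        linear_combination 2 * h2
      · simp only [TA, Finset.mem_filter, Finset.mem_univ, true_and]; omega
    · rw [if_neg (fun hh => hw hh.2), Finset.sum_eq_zero]
      · simp
      · intro c hc
        refine e c hc ?_
        rintro rfl
        simp only [TA, Finset.mem_filter, Finset.mem_univ, true_and] at hc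
        omega

theorem RA_up (w : J → ℤ) {j k : J} (hjk : j ≠ k) (h : w k ≤ w j) :
    RA (EM j k) (ee (TA w)) = 0 := by
  change dG (piA (EM j k)) (ee (TA w)) = _
  rw [dG_ee_of_closed _ _ fun c hc i hi => piA_EM_closed w h c hc i hi]
  rw [Finset.sum_eq_zero, zero_smul]
  intro c _
  rw [piA_EM, Finset.sum_eq_zero, mul_zero]
  intro l _
  by_contra hne
  have h1 := uA_supp (left_ne_zero_of_mul hne)
  have h2 := uA_supp (right_ne_zero_of_mul hne)
  have hc := c.2
  rcases h1 with ⟨h1, h1'⟩ | ⟨h1, h1'⟩ <;> rcases h2 with ⟨h2, h2'⟩ | ⟨h2, h2'⟩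
  · exact hjk (h1.symm.trans h2)
  · exact hc.ne (h2'.trans h1'.symm)
  · exact hc.ne (h1'.trans h2'.symm)
  · exact hjk (h1.symm.trans h2)

end

end Kost
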