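import Pool.Agent.Kost.Mat

/-!
# Module B2' (MP_869ec4): `Λ(S² V)` and threshold graphs with loops

PROOF. `uS a` is orthonormal for `trace (P Qᴴ)` and spans the symmetric matrices:
for symmetric `P`, `P = ∑_a trace (P (uS a)ᴴ) • uS a`.  `P ↦ X P + P Xᵀ` preserves symmetry,
so `piS (X * Y - Y * X) = piS X * piS Y - piS Y * piS X`, and `(piS X)ᴴ = piS Xᴴ` (the `uS a` are real
and symmetric).  With `dG_lie`, `inner_dG` the first two statements follow.
`piS (EM j k)`: `E_jk` sends the pair `{k, l}` to a multiple of `{j, l}` and kills pairs without `k`;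
`dG` on `ee T`: every term `cr a * an c` with `c ∈ T` and `a ∈ T`, `a ≠ c` vanishes.  For `j ≠ k`,
`w k ≤ w j`: if `{k, l} ∈ TS w` then `{j, l} ∈ TS w` (including `l = j` and `l = k`).  For `j = k`:
diagonal, the entry at `c` is the number of occurrences of `j` in `c`; the sum over `c ∈ TS w` is
`degS w j`.
-/

open Module Matrix

namespace Kost

noncomputable section

variable {J : Type*} [Fintype J] [LinearOrder J]

namespace PairsS

/-- normalisation constant of `uS` -/
def nu (c : K2' J) : ℂ := if c.1.1 = c.1.2 then 1 / 2 else (√2 : ℂ)⁻¹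

theorem sqrt_two_inv_sq : ((√2 : ℂ)⁻¹) * (√2 : ℂ)⁻¹ = 1 / 2 := by
  rw [← mul_inv]
  have h : ((√2 : ℝ) : ℂ) * ((√2 : ℝ) : ℂ) = 2 := by
    rw [← Complex.ofReal_mul, Real.mul_self_sqrt (by norm_num)]; norm_num
  rw [h]; norm_num

theorem uS_eq (c : K2' J) : uS c = nu c • (EM c.1.1 c.1.2 + EM c.1.2 c.1.1) := by
  unfold uS nu
  split_ifs with h
  · rw [← h, ← two_smul ℂ (EM c.1.1 c.1.1), smul_smul]
    norm_num
  · rfl

theorem nu_conj (c : K2' J) : star (nu c) = nu c := by
  unfold nu
  split_ifs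
  · simp
  · rw [star_inv₀]
    congr 1
    exact Complex.conj_ofReal _

theorem uS_ct (c : K2' J) : (uS c)ᴴ = uS c := by
  rw [uS_eq, conjTranspose_smul, nu_conj, conjTranspose_add]
  simp only [EM, conjTranspose_single, star_one]
  rw [add_comm]

theorem uS_tr (c : K2' J) : (uS c)ᵀ = uS c := by
  rw [uS_eq, transpose_smul, transpose_add]
  simp only [EM, transpose_single]
  rw [add_comm]

/-- coefficient of a matrix -/
theorem trace_uS (P : Matrix J J ℂ) (c : K2' J) :
    trace (P * (uS c)ᴴ) = nu c * (P c.1.2 c.1.1 + P c.1.1 c.1.2) := by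
  rw [uS_ct, uS_eq, Matrix.mul_smul, trace_smul, mul_add, trace_add, smul_eq_mul]
  congr 1
  have h : ∀ (p q : J), trace (P * EM p q) = P q p := by
    intro p q
    rw [trace]
    rw [Finset.sum_eq_single q]
    · simp [EM, Matrix.diag, Matrix.mul_apply, Matrix.single_apply]
    · intro r _ hr
      simp only [Matrix.diag, Matrix.mul_apply, EM, Matrix.single_apply]
      refine Finset.sum_eq_zero fun t _ => ?_
      rw [if_neg (fun h => hr h.2.symm), mul_zero]
    · intro h; exact absurd (Finset.mem_univ _) h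
  rw [h, h]

/-- expansion of the symmetric matrices -/
theorem expandS (P : Matrix J J ℂ) (hP : Pᵀ = P) : P = ∑ c : K2' J, trace (P * (uS c)ᴴ) • uS c := by
  have hs : ∀ p q, P p q = P q p := fun p q => by
    conv_lhs => rw [← hP]
    rfl
  have key : ∀ p q : J, p ≤ q → (∑ c : K2' J, trace (P * (uS c)ᴴ) • uS c) p q = P p q := by
    intro p q hpq
    rw [Matrix.sum_apply, Finset.sum_eq_single (⟨(p, q), hpq⟩ : K2' J)]
    · rw [trace_uS, uS_eq, Matrix.smul_apply, Matrix.smul_apply, Matrix.add_apply]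
      simp only [EM, Matrix.single_apply, smul_eq_mul, hs q p, and_self, if_true]
      unfold nu
      by_cases h : p = q
      · subst h
        simp
        ring
      · have h' : ¬ (q = p ∧ p = q) := fun hh => h hh.2
        rw [if_neg h, if_neg h', add_zero, mul_one]
        calc (√2 : ℂ)⁻¹ * (P p q + P p q) * (√2 : ℂ)⁻¹
            = ((√2 : ℂ)⁻¹ * (√2 : ℂ)⁻¹) * (P p q + P p q) := by ring
          _ = P p q := by rw [sqrt_two_inv_sq]; ring
    · intro c _ hc
      rw [uS_eq, Matrix.smul_apply, Matrix.smul_apply, Matrix.add_apply]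
      simp only [EM, Matrix.single_apply]
      have h1 : ¬ (c.1.1 = p ∧ c.1.2 = q) := by
        rintro ⟨h1, h2⟩
        exact hc (Subtype.ext (Prod.ext h1 h2))
      have h2 : ¬ (c.1.2 = p ∧ c.1.1 = q) := by
        rintro ⟨h2, h3⟩
        have h4 := c.2
        rw [h2, h3] at h4
        have h5 : p = q := le_antisymm hpq h4
        exact h1 ⟨by rw [h3, h5], by rw [h2, h5]⟩
      rw [if_neg h1, if_neg h2]
      simp
    · intro h; exact absurd (Finset.mem_univ _) h
  have key2 : (∑ c : K2' J, trace (P * (uS c)ᴴ) • uS c)ᵀ =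
      ∑ c : K2' J, trace (P * (uS c)ᴴ) • uS c := by
    rw [Matrix.transpose_sum]
    refine Finset.sum_congr rfl fun c _ => ?_
    rw [transpose_smul, uS_tr]
  ext p q
  rcases le_total p q with h | h
  · exact (key p q h).symm
  · have h1 := key q p h
    rw [hs p q, ← h1]
    conv_rhs => rw [← key2]
    rfl

/-- the action on matrices -/
def act (X P : Matrix J J ℂ) : Matrix J J ℂ := X * P + P * Xᵀ

theorem act_symm (X P : Matrix J J ℂ) (hP : Pᵀ = P) : (act X P)ᵀ = act X P := by
  unfold act
  rw [transpose_add, transpose_mul, transpose_mul, transpose_transpose, hP, add_comm]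

theorem piS_apply (X : Matrix J J ℂ) (a c : K2' J) :
    piS X a c = trace (act X (uS c) * (uS a)ᴴ) := rfl

theorem act_sum (X : Matrix J J ℂ) (f : K2' J → ℂ) :
    act X (∑ b, f b • uS b) = ∑ b, f b • act X (uS b) := by
  unfold act
  rw [Finset.mul_sum, Finset.sum_mul, ← Finset.sum_add_distrib]
  refine Finset.sum_congr rfl fun b _ => ?_
  rw [Matrix.mul_smul, Matrix.smul_mul, smul_add]

theorem piS_mul (X Y : Matrix J J ℂ) (a c : K2' J) :
    (piS X * piS Y) a c = trace (act X (act Y (uS c)) * (uS a)ᴴ) := by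
  have h1 := expandS (act Y (uS c)) (act_symm Y _ (uS_tr c))
  conv_rhs => rw [h1, act_sum, Finset.sum_mul, trace_sum]
  rw [Matrix.mul_apply]
  refine Finset.sum_congr rfl fun b _ => ?_
  rw [Matrix.smul_mul, trace_smul, smul_eq_mul, mul_comm]
  rfl

theorem piS_lie (X Y : Matrix J J ℂ) : piS X * piS Y - piS Y * piS X = piS (X * Y - Y * X) := by
  ext a c
  rw [Matrix.sub_apply, piS_mul, piS_mul, ← trace_sub, ← sub_mul, piS_apply]
  congr 2
  unfold act
  rw [transpose_sub, transpose_mul, transpose_mul]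
  noncomm_ring

theorem piS_ct (X : Matrix J J ℂ) : (piS X)ᴴ = piS Xᴴ := by
  ext a c
  rw [conjTranspose_apply, piS_apply, piS_apply, ← trace_conjTranspose]
  unfold act
  rw [conjTranspose_mul, conjTranspose_conjTranspose, conjTranspose_add, conjTranspose_mul,
    conjTranspose_mul, mul_add, add_mul, trace_add, trace_add]
  congr 1
  · rw [← mul_assoc, trace_mul_comm, ← mul_assoc]
  · rw [← mul_assoc]
    rfl

theorem uS_apply (c : K2' J) (p q : J) : uS c p q =
    nu c * ((if c.1.1 = p ∧ c.1.2 = q then 1 else 0) + if c.1.2 = p ∧ c.1.1 = q then 1 else 0) := by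
  rw [uS_eq, Matrix.smul_apply, Matrix.add_apply]
  simp only [EM, Matrix.single_apply, smul_eq_mul]

theorem uS_symm (c : K2' J) (p q : J) : uS c p q = uS c q p := by
  conv_lhs => rw [← uS_tr]
  rfl

theorem uS_ne {c : K2' J} {p q : J} (h : uS c p q ≠ 0) :
    (c.1.1 = p ∧ c.1.2 = q) ∨ (c.1.2 = p ∧ c.1.1 = q) := by
  by_contra hn
  rw [not_or] at hn
  apply h
  rw [uS_apply, if_neg hn.1, if_neg hn.2]
  simp

/-- matrix of an elementary matrix -/
theorem piS_EM (j k : J) (a c : K2' J) : piS (EM j k) a c = 2 * nu a *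
    ((if j = a.1.2 then uS c k a.1.1 else 0) + (if j = a.1.1 then uS c k a.1.2 else 0)) := by
  rw [piS_apply, trace_uS]
  have h : ∀ p q : J, act (EM j k) (uS c) p q =
      (if j = p then uS c k q else 0) + (if j = q then uS c k p else 0) := by
    intro p q
    unfold act
    rw [Matrix.add_apply, Matrix.mul_apply, Matrix.mul_apply]
    congr 1
    · rw [Finset.sum_eq_single k]
      · simp only [EM, Matrix.single_apply]
        by_cases h : j = p <;> simp [h]
      · intro r _ hr
        simp only [EM, Matrix.single_apply]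
        rw [if_neg (fun h => hr h.2.symm), zero_mul]
      · intro h; exact absurd (Finset.mem_univ _) h
    · rw [Finset.sum_eq_single k]
      · simp only [EM, Matrix.transpose_single, Matrix.single_apply]
        rw [uS_symm c p k]
        by_cases h : j = q <;> simp [h]
      · intro r _ hr
        simp only [EM, Matrix.transpose_single, Matrix.single_apply]
        rw [if_neg (fun h => hr h.1.symm), mul_zero]
      · intro h; exact absurd (Finset.mem_univ _) h
  rw [h, h]
  ring

theorem piS_EM_ne {j k : J} {a c : K2' J} (h : piS (EM j k) a c ≠ 0) :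
    (j = a.1.2 ∧ ((c.1.1 = k ∧ c.1.2 = a.1.1) ∨ (c.1.2 = k ∧ c.1.1 = a.1.1))) ∨
    (j = a.1.1 ∧ ((c.1.1 = k ∧ c.1.2 = a.1.2) ∨ (c.1.2 = k ∧ c.1.1 = a.1.2))) := by
  by_contra hn
  rw [not_or] at hn
  apply h
  rw [piS_EM]
  have h1 : (if j = a.1.2 then uS c k a.1.1 else 0) = 0 := by
    split_ifs with hj
    · by_contra h0
      exact hn.1 ⟨hj, uS_ne h0⟩
    · rfl
  have h2 : (if j = a.1.1 then uS c k a.1.2 else 0) = 0 := by
    split_ifs with hj
    · by_contra h0
      exact hn.2 ⟨hj, uS_ne h0⟩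
    · rfl
  rw [h1, h2]
  simp

theorem piS_diag (j : J) (c : K2' J) : piS (EM j j) c c =
    (if c.1.1 = j then 1 else 0) + (if c.1.2 = j then 1 else 0) := by
  have h0 : 2 * nu c * uS c c.1.1 c.1.2 = 1 := by
    rw [uS_apply, if_pos ⟨rfl, rfl⟩]
    unfold nu
    by_cases h : c.1.1 = c.1.2
    · rw [if_pos h, if_pos ⟨h.symm, h⟩]; norm_num
    · rw [if_neg h, if_neg (fun hh => h hh.2), add_zero, mul_one, mul_assoc, sqrt_two_inv_sq]
      norm_num
  rw [piS_EM]
  by_cases h1 : j = c.1.1 <;> by_cases h2 : j = c.1.2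
  · rw [if_pos h1, if_pos h2, if_pos h1.symm, if_pos h2.symm]
    have h3 : uS c j c.1.1 = uS c c.1.1 c.1.2 := by rw [← h1, ← h2]
    have h4 : uS c j c.1.2 = uS c c.1.1 c.1.2 := by rw [← h1]
    rw [h3, h4]
    linear_combination 2 * h0
  · rw [if_pos h1, if_neg h2, if_pos h1.symm, if_neg (fun h => h2 h.symm)]
    have h4 : uS c j c.1.2 = uS c c.1.1 c.1.2 := by rw [← h1]
    rw [h4]
    linear_combination h0
  · rw [if_neg h1, if_pos h2, if_neg (fun h => h1 h.symm), if_pos h2.symm]
    have h4 : uS c j c.1.1 = uS c c.1.1 c.1.2 := by rw [uS_symm, ← h2]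
    rw [h4]
    linear_combination h0
  · rw [if_neg h1, if_neg h2, if_neg (fun h => h1 h.symm), if_neg (fun h => h2 h.symm)]
    simp

/-- second quantisation on a basis vector -/
theorem dG_ee {K : Type*} [Fintype K] [DecidableEq K] (M : Matrix K K ℂ) (T : Finset K)
    (h : ∀ a c, c ∈ T → M a c ≠ 0 → a ∈ T) :
    dG M (ee T) = (∑ c ∈ T, M c c) • ee T := by
  have h1 : ∀ a c : K, (M a c • (cr a * an c)) (ee T) =
      if a = c ∧ c ∈ T then M c c • ee T else 0 := by
    intro a c
    rw [LinearMap.smul_apply, Module.End.mul_apply, an_ee]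
    by_cases hc : c ∈ T
    · by_cases hac : a = c
      · subst hac
        have h2 : (a = a ∧ a ∈ T) := ⟨rfl, hc⟩
        rw [if_pos h2, if_pos hc, map_smul, cr_ee, if_neg (Finset.notMem_erase _ _),
          smul_smul (sgn a T), sgn_erase_self, sgn_mul_self, one_smul, Finset.insert_erase hc]
      · have h2 : ¬ (a = c ∧ c ∈ T) := fun hh => hac hh.1
        rw [if_neg h2]
        by_cases hM : M a c = 0
        · rw [hM, zero_smul]
        · rw [if_pos hc, map_smul, cr_ee, if_pos (Finset.mem_erase.2 ⟨hac, h a c hc hM⟩),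
            smul_zero, smul_zero]
    · have h2 : ¬ (a = c ∧ c ∈ T) := fun hh => hc hh.2
      rw [if_neg hc, if_neg h2, map_zero, smul_zero]
  unfold dG
  rw [LinearMap.sum_apply, Finset.sum_smul]
  simp only [LinearMap.sum_apply, h1]
  have h2 : ∀ a : K, (∑ c, if a = c ∧ c ∈ T then M c c • ee T else (0 : Fock K)) =
      if a ∈ T then M a a • ee T else 0 := by
    intro a
    rw [Finset.sum_eq_single a]
    · simp
    · intro c _ hc
      rw [if_neg (fun hh => hc hh.1.symm)]
    · intro h; exact absurd (Finset.mem_univ _) h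
  simp only [h2]
  rw [← Finset.sum_filter]
  congr 1
  ext c
  simp

theorem card_TS (w : J → ℤ) (j : J) :
    ((TS w).filter fun c => c.1.1 = j).card + ((TS w).filter fun c => c.1.2 = j).card =
      degS w j := by
  have e1 : ((TS w).filter fun c => c.1.1 = j).card =
      (Finset.univ.filter fun k => j ≤ k ∧ 0 < w j + w k).card := by
    refine Finset.card_bij' (fun c _ => c.1.2) (fun k hk => ⟨(j, k), (Finset.mem_filter.1 hk).2.1⟩)
      ?_ ?_ ?_ ?_
    · intro c hc
      rw [Finset.mem_filter, TS, Finset.mem_filter] at hc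
      obtain ⟨⟨_, h1⟩, h2⟩ := hc
      rw [Finset.mem_filter, ← h2]
      exact ⟨Finset.mem_univ _, c.2, h1⟩
    · intro k hk
      rw [Finset.mem_filter, TS, Finset.mem_filter]
      exact ⟨⟨Finset.mem_univ _, (Finset.mem_filter.1 hk).2.2⟩, rfl⟩
    · intro c hc
      apply Subtype.ext
      exact Prod.ext (Finset.mem_filter.1 hc).2.symm rfl
    · intro k hk
      rfl
  have e2 : ((TS w).filter fun c => c.1.2 = j).card =
      (Finset.univ.filter fun k => k ≤ j ∧ 0 < w j + w k).card := by
    refine Finset.card_bij' (fun c _ => c.1.1) (fun k hk => ⟨(k, j), (Finset.mem_filter.1 hk).2.1⟩)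
      ?_ ?_ ?_ ?_
    · intro c hc
      rw [Finset.mem_filter, TS, Finset.mem_filter] at hc
      obtain ⟨⟨_, h1⟩, h2⟩ := hc
      rw [Finset.mem_filter, ← h2]
      exact ⟨Finset.mem_univ _, c.2, by rw [add_comm]; exact h1⟩
    · intro k hk
      rw [Finset.mem_filter, TS, Finset.mem_filter]
      refine ⟨⟨Finset.mem_univ _, ?_⟩, rfl⟩
      have h1 := (Finset.mem_filter.1 hk).2.2
      rw [add_comm] at h1
      exact h1
    · intro c hc
      apply Subtype.ext
      exact Prod.ext rfl (Finset.mem_filter.1 hc).2.symm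
    · intro k hk
      rfl
  rw [e1, e2, ← Finset.card_union_add_card_inter]
  unfold degS degA
  have e3 : (Finset.univ.filter fun k => j ≤ k ∧ 0 < w j + w k) ∪
      (Finset.univ.filter fun k => k ≤ j ∧ 0 < w j + w k) =
      (Finset.univ.filter fun k => 0 < w j + w k) := by
    ext k
    simp only [Finset.mem_union, Finset.mem_filter, Finset.mem_univ, true_and]
    constructor
    · rintro (h | h)
      · exact h.2
      · exact h.2
    · intro h
      rcases le_total j k with h1 | h1
      · exact Or.inl ⟨h1, h⟩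
      · exact Or.inr ⟨h1, h⟩
  have e4 : (Finset.univ.filter fun k => j ≤ k ∧ 0 < w j + w k) ∩
      (Finset.univ.filter fun k => k ≤ j ∧ 0 < w j + w k) =
      if 0 < w j then {j} else ∅ := by
    ext k
    simp only [Finset.mem_inter, Finset.mem_filter, Finset.mem_univ, true_and]
    constructor
    · rintro ⟨⟨h1, h2⟩, h3, _⟩
      have h4 : k = j := le_antisymm h3 h1
      subst h4
      rw [if_pos (by linarith)]
      exact Finset.mem_singleton_self _
    · intro h
      split_ifs at h with h0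
      · rw [Finset.mem_singleton] at h
        subst h
        exact ⟨⟨le_refl _, by linarith⟩, le_refl _, by linarith⟩
      · exact absurd h (Finset.notMem_empty _)
  have e5 : (Finset.univ.filter fun k => 0 < w j + w k).card =
      (Finset.univ.filter fun k => k ≠ j ∧ 0 < w j + w k).card + if 0 < w j then 1 else 0 := by
    by_cases h0 : 0 < w j
    · rw [if_pos h0]
      have h1 : (Finset.univ.filter fun k => 0 < w j + w k) =
          insert j (Finset.univ.filter fun k => k ≠ j ∧ 0 < w j + w k) := by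
        ext k
        simp only [Finset.mem_insert, Finset.mem_filter, Finset.mem_univ, true_and]
        constructor
        · intro h
          by_cases hk : k = j
          · exact Or.inl hk
          · exact Or.inr ⟨hk, h⟩
        · rintro (rfl | h)
          · linarith
          · exact h.2
      rw [h1, Finset.card_insert_of_notMem (by simp)]
    · rw [if_neg h0, add_zero]
      congr 1
      ext k
      simp only [Finset.mem_filter, Finset.mem_univ, true_and]
      constructor
      · intro h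
        refine ⟨?_, h⟩
        rintro rfl
        linarith
      · exact fun h => h.2
  rw [e3, e4, e5]
  by_cases h0 : 0 < w j
  · simp only [if_pos h0, Finset.card_singleton]
  · simp only [if_neg h0, Finset.card_empty]

end PairsS

theorem RS_lie (X Y : Matrix J J ℂ) : RS X * RS Y - RS Y * RS X = RS (X * Y - Y * X) := by
  change dG (piS X) * dG (piS Y) - dG (piS Y) * dG (piS X) = dG (piS (X * Y - Y * X))
  rw [dG_lie, PairsS.piS_lie]

theorem RS_adj (X : Matrix J J ℂ) (u v : Fock (K2' J)) :
    inner ℂ (RS X u) v = inner ℂ u (RS Xᴴ v) := by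
  change inner ℂ (dG (piS X) u) v = inner ℂ u (dG (piS Xᴴ) v)
  rw [inner_dG, PairsS.piS_ct]

theorem RS_diag (w : J → ℤ) (j : J) :
    RS (EM j j) (ee (TS w)) = (degS w j : ℂ) • ee (TS w) := by
  change dG (piS (EM j j)) (ee (TS w)) = _
  rw [PairsS.dG_ee]
  · congr 1
    simp only [PairsS.piS_diag]
    rw [Finset.sum_add_distrib, Finset.sum_boole, Finset.sum_boole, ← Nat.cast_add]
    congr 1
    exact PairsS.card_TS w j
  · intro a c hc hM
    have hc' : 0 < w c.1.1 + w c.1.2 := by
      unfold TS at hc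
      exact (Finset.mem_filter.1 hc).2
    unfold TS
    rw [Finset.mem_filter]
    refine ⟨Finset.mem_univ _, ?_⟩
    rcases PairsS.piS_EM_ne hM with ⟨h1, ⟨h2, h3⟩ | ⟨h2, h3⟩⟩ | ⟨h1, ⟨h2, h3⟩ | ⟨h2, h3⟩⟩
    · rw [← h3, ← h1, ← h2, add_comm]; exact hc'
    · rw [← h3, ← h1, ← h2]; exact hc'
    · rw [← h3, ← h1, ← h2]; exact hc'
    · rw [← h3, ← h1, ← h2, add_comm]; exact hc'

theorem RS_up (w : J → ℤ) {j k : J} (hjk : j ≠ k) (h : w k ≤ w j) :
    RS (EM j k) (ee (TS w)) = 0 := by
  change dG (piS (EM j k)) (ee (TS w)) = _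
  rw [PairsS.dG_ee]
  · have h0 : ∑ c ∈ TS w, piS (EM j k) c c = 0 := by
      refine Finset.sum_eq_zero fun c _ => ?_
      by_contra hM
      rcases PairsS.piS_EM_ne hM with ⟨h1, ⟨h2, h3⟩ | ⟨h2, h3⟩⟩ | ⟨h1, ⟨h2, h3⟩ | ⟨h2, h3⟩⟩
      · exact hjk (by rw [h1, h3, h2])
      · exact hjk (by rw [h1, h2])
      · exact hjk (by rw [h1, h2])
      · exact hjk (by rw [h1, h3, h2])
    rw [h0, zero_smul]
  · intro a c hc hM
    have hc' : 0 < w c.1.1 + w c.1.2 := by
      unfold TS at hc
      exact (Finset.mem_filter.1 hc).2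
    unfold TS
    rw [Finset.mem_filter]
    refine ⟨Finset.mem_univ _, ?_⟩
    rcases PairsS.piS_EM_ne hM with ⟨h1, ⟨h2, h3⟩ | ⟨h2, h3⟩⟩ | ⟨h1, ⟨h2, h3⟩ | ⟨h2, h3⟩⟩
    · rw [← h3, ← h1]; rw [h2] at hc'; linarith
    · rw [← h3, ← h1]; rw [h2] at hc'; linarith
    · rw [← h3, ← h1]; rw [h2] at hc'; linarith
    · rw [← h3, ← h1]; rw [h2] at hc'; linarith

end

end Kost
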