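import Pool.Agent.Kost.SoWords

/-!
# Module B7 (MP_869ec4): evaluation in types B, D (union closure)

`d : Idx n b → ℕ` row lengths, `lam` antitone; in every plane with `lam i > 0` one has
`d (y i) + lam i ≤ d (x i)` with the right parity; planes with `lam i = 0` have equal rows of parity
`δ`, and `z` (if `b = 1`) has parity `δ`.

PROOF.  Everything in `Fock (Idx n b × Fin m)`, `zeta = ee (colS d m)`, `k_i = lam i`,
`p_i = d (x i)`, `q_i = d (y i)`, `j_i = (p_i - q_i - k_i)/2` if `k_i > 0`.
* target: `z' = ee S'`, `S' = {(x i, a) : a < lam i}`, and if `δ` is odd also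
  `(x i, 0), (y i, 0)` for `lam i = 0` and `(z, 0)`.  `SoHW (tens m) z' lam` (check column by
  column: in column 0 all vectors that can be reached are present).
* `E = ∏_{lam i > 0} (tens m (EM (y i) (x i)))^(j_i)`,
  `Kt = exp (∑_{a,c} t a c • Qso a c)` for `t : Fin m → Fin m → ℂ`
  (`IsNilpotent.exp` or a finite exponential sum; the `Qso a c` commute).
* `F(t) := ⟪z', Kt E zeta⟫`.  `Qso a c = ∑ over blocks` (block = plane `i`, or `z`), so `Kt` is a
  product of local operators and `F(t) = σ ∏_blocks f_block(t)` by `loc_prod`, `σ ≠ 0`.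
* each `f_block` is a polynomial function of `t`; a product of nonzero polynomials is nonzero, so
  it is enough to find for every block ONE `t` (or: one word in the commuting operators
  `Qso a c`) with nonzero value; then there is a common `t` (`MvPolynomial`, infinite domain).
* plane with `k = k_i > 0`: since `tens m (EM (x i) (y i)) ee S' = 0` one can commute the `E`-power
  to the left: with `P a c = an (x i, a) * an (x i, c)`, `f(t) = const ⟪ee (k, 0), (∑ t P)^j exp(∑ t Q)
  ee (p, q)⟫` (const = `± 2^j`..). Word: if `q ≤ k`: `Q` on the pairs `{b, k+b}`, `b < q`, and `P` on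
  `{k+q, k+q+1}, {k+q+2, k+q+3}, ..`.  If `q > k`: `Q` on the path edges `{q,q-1}, .., {k+1,k}, {k,0}`
  and on `{b, q+b}`, `1 ≤ b < k`, and `P` on `{q+k, q+k+1}, ..`. In each case exactly one way to
  remove everything: removal `(ξ_{k+b}, η_b)`; resp. `(ξ_k, η_0), (ξ_{k+1}, η_k), ..,
  (ξ_q, η_{q-1})`, `(ξ_{q+b}, η_b)` (`ξ_a`, `a < k`, must stay).
* plane with `lam i = 0`, rows `(p, p)`: `δ` even: pairs `{0,1}, {2,3}, ..` (each removes
  `ξ_a ξ_{a+1} η_a η_{a+1}`, from `Q^2`); `δ` odd: column 0 stays, pairs `{1,2}, {3,4}, ..`.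
  `z`-row: same pairs.
* `h := (Kt)ᴴ z'` (the adjoint operators commute with `tens m X`, `X ∈ gS n b 1`, which is closed
  under `ᴴ`), so `SoHW (tens m) h lam` and `⟪h, E zeta⟫ = F(t) ≠ 0`.  QED
-/

open Module Matrix

namespace Kost

noncomputable section

namespace SoE

section Lists

theorem list_prod_mul {A ι : Type*} [Monoid A] (f g : ι → A)
    (h : ∀ i j, i ≠ j → Commute (f i) (g j)) (l : List ι) (hl : l.Nodup) :
    (l.map fun i => f i * g i).prod = (l.map f).prod * (l.map g).prod := by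
  induction l with
  | nil => simp
  | cons i l ih =>
    rw [List.nodup_cons] at hl
    simp only [List.map_cons, List.prod_cons]
    rw [ih hl.2]
    have h1 : Commute (g i) (l.map f).prod := by
      apply Commute.list_prod_right
      intro x hx
      obtain ⟨j, hj, rfl⟩ := List.mem_map.1 hx
      exact (h j i (fun e => hl.1 (e ▸ hj))).symm
    calc f i * g i * ((l.map f).prod * (l.map g).prod)
        = f i * (g i * (l.map f).prod) * (l.map g).prod := by simp only [mul_assoc]
      _ = f i * (l.map f).prod * (g i * (l.map g).prod) := by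
          rw [h1.eq]; simp only [mul_assoc]

end Lists

variable {n b m : ℕ}

/-- target row lengths -/
def dT (lam : Fin n → ℕ) (δ : ℕ) : Idx n b → ℕ
  | .x i => if lam i = 0 then δ % 2 else lam i
  | .y i => if lam i = 0 then δ % 2 else 0
  | .z _ => δ % 2

theorem tens_sub (X Y : Matrix (Idx n b) (Idx n b) ℂ) (v : Fock (Idx n b × Fin m)) :
    tens m (X - Y) v = tens m X v - tens m Y v := by
  have h := (tensL (J := Idx n b) m).map_sub X Y
  exact LinearMap.congr_fun h v

theorem target_HW (lam : Fin n → ℕ) (hanti : Antitone lam) (δ : ℕ)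
    (hm : ∀ j, dT (b := b) lam δ j ≤ m) :
    SoHW (tens m) (ee (colS (dT (b := b) lam δ) m)) (fun i => (lam i : ℤ)) := by
  have hδ : δ % 2 < 2 := Nat.mod_lt _ (by norm_num)
  refine ⟨?_, ?_, ?_, ?_⟩
  · intro i i' hii
    have hl : lam i' ≤ lam i := hanti hii.le
    rw [eA, tens_sub, tens_up, tens_up, sub_zero]
    · intro h; injection h with h; exact hii.ne h.symm
    · simp only [dT]
      split_ifs <;> omega
    · intro h; injection h with h; exact hii.ne h
    · simp only [dT]
      split_ifs <;> omega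
  · intro i i'
    rw [eB, tens_sub, tens_up, tens_up, sub_zero]
    · simp
    · simp only [dT]
      split_ifs <;> omega
    · simp
    · simp only [dT]
      split_ifs <;> omega
  · intro i k
    rw [eC, tens_sub, tens_up, tens_up, sub_zero]
    · simp
    · simp only [dT]
      split_ifs <;> omega
    · simp
    · simp only [dT]
      split_ifs <;> omega
  · intro i
    rw [Hm, tens_sub, tens_diag _ _ (hm _), tens_diag _ _ (hm _), ← sub_smul]
    congr 1
    simp only [dT]
    split_ifs with h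
    · rw [h]; simp
    · simp

/-- operators commuting with the Lie algebra: their adjoints preserve highest weight vectors -/
theorem adj_comm {K : Module.End ℂ (Fock (Idx n b × Fin m))}
    (hK : ∀ X ∈ gS n b 1, K * tens m X = tens m X * K) (z : Fock (Idx n b × Fin m))
    {X : Matrix (Idx n b) (Idx n b) ℂ} (hX : X ∈ gS n b 1) :
    tens m X (LinearMap.adjoint K z) = LinearMap.adjoint K (tens m X z) := by
  refine ext_inner_right ℂ fun v => ?_
  rw [tens_adj, LinearMap.adjoint_inner_left, LinearMap.adjoint_inner_left, tens_adj]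
  have h := LinearMap.congr_fun (hK Xᴴ (star_mem_gS 1 (Or.inl rfl) hX)) v
  simp only [Module.End.mul_apply] at h
  rw [h]

theorem HW_adj {K : Module.End ℂ (Fock (Idx n b × Fin m))}
    (hK : ∀ X ∈ gS n b 1, K * tens m X = tens m X * K) {z : Fock (Idx n b × Fin m)}
    {lam : Fin n → ℤ} (hz : SoHW (tens m) z lam) :
    SoHW (tens m) (LinearMap.adjoint K z) lam := by
  obtain ⟨h1, h2, h3, h4⟩ := hz
  refine ⟨fun i i' h => ?_, fun i i' => ?_, fun i k => ?_, fun i => ?_⟩
  · rw [adj_comm hK z (eA_mem 1 (Or.inl rfl) i i'), h1 i i' h, map_zero]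
  · rw [adj_comm hK z (eB_mem i i'), h2 i i', map_zero]
  · rw [adj_comm hK z (eC_mem i k), h3 i k, map_zero]
  · rw [adj_comm hK z (Hm_mem 1 (Or.inl rfl) i), h4 i, map_smul]

/-- the lowering part of a block -/
def Abl (jj : Fin n → ℕ) (i : Fin n ⊕ Fin b) : Module.End ℂ (Fock (Idx n b × Fin m)) :=
  match i with
  | .inl i => Eo i ^ jj i
  | .inr _ => 1

theorem Eo_eq (i : Fin n) : (Eo i : Module.End ℂ (Fock (Idx n b × Fin m))) =
    ∑ a : Fin m, cr (Idx.y i, a) * an (Idx.x i, a) := by
  rw [Eo, tens_EM]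

theorem Abl_comm (jj : Fin n → ℕ) {T : Module.End ℂ (Fock (Idx n b × Fin m))}
    {i j : Fin n ⊕ Fin b} (hT : Loc (fun p : Idx n b × Fin m => blk p.1) i T) (hij : i ≠ j) :
    Commute T (Abl jj j) := by
  rcases j with j | j
  · simp only [Abl]
    apply Commute.pow_right
    rw [Eo_eq]
    apply Commute.sum_right
    intro a _
    have h1 : T * cr (Idx.y j, a) = cr (Idx.y j, a) * T := (hT (Idx.y j, a) hij.symm).1
    have h2 : T * an (Idx.x j, a) = an (Idx.x j, a) * T := (hT (Idx.x j, a) hij.symm).2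
    exact Commute.mul_right h1 h2
  · exact Commute.one_right _

theorem Abl_loc (jj : Fin n → ℕ) (i : Fin n ⊕ Fin b) :
    Loc (fun p : Idx n b × Fin m => blk p.1) i (Abl jj i) := by
  rcases i with i | i
  · intro k hk
    have h : ∀ a : Fin m, Loc (fun p : Idx n b × Fin m => blk p.1) (.inl i)
        (cr (Idx.y i, a) * an (Idx.x i, a)) := fun a =>
      Loc.cr_an (fun p : Idx n b × Fin m => blk p.1) (k := (Idx.y i, a)) (l := (Idx.x i, a)) rfl
    simp only [Abl]
    constructor
    · have h1 : Commute (Eo i : Module.End ℂ (Fock (Idx n b × Fin m))) (cr k) := by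
        rw [Eo_eq]
        exact Commute.sum_left _ _ _ fun a _ => (h a k hk).1
      exact (h1.pow_left _).eq
    · have h1 : Commute (Eo i : Module.End ℂ (Fock (Idx n b × Fin m))) (an k) := by
        rw [Eo_eq]
        exact Commute.sum_left _ _ _ fun a _ => (h a k hk).2
      exact (h1.pow_left _).eq
  · exact Loc.one _ _

theorem exD_loc (i : Fin n ⊕ Fin b) (t : Fin m × Fin m → ℂ) :
    Loc (fun p : Idx n b × Fin m => blk p.1) i (ex (DD (Qb i) t)) := by
  intro k hk
  constructor
  · exact ex_comm (DD_comm (fun w => (Qb_loc i w k hk).1) t)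
  · exact ex_comm (DD_comm (fun w => (Qb_loc i w k hk).2) t)

theorem filter_plane (d : Idx n b → ℕ) (i : Fin n) :
    (colS d m).filter (fun p : Idx n b × Fin m => blk p.1 = .inl i) =
      Rw i (d (.x i)) (d (.y i)) := by
  ext ⟨j, a⟩
  simp only [colS, Rw, Finset.mem_filter, Finset.mem_univ, true_and]
  constructor
  · rintro ⟨h1, h2⟩
    cases j with
    | x j => simp only [blk, Sum.inl.injEq] at h2; rw [h2] at h1 ⊢; exact Or.inl ⟨rfl, h1⟩
    | y j => simp only [blk, Sum.inl.injEq] at h2; rw [h2] at h1 ⊢; exact Or.inr ⟨rfl, h1⟩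
    | z j => simp [blk] at h2
  · rintro (⟨h1, h2⟩ | ⟨h1, h2⟩)
    · rw [h1]; exact ⟨h2, rfl⟩
    · rw [h1]; exact ⟨h2, rfl⟩

theorem filter_z (d : Idx n b → ℕ) (k : Fin b) :
    (colS d m).filter (fun p : Idx n b × Fin m => blk p.1 = .inr k) = Zw k (d (.z k)) := by
  ext ⟨j, a⟩
  simp only [colS, Zw, Finset.mem_filter, Finset.mem_univ, true_and]
  constructor
  · rintro ⟨h1, h2⟩
    cases j with
    | x j => simp [blk] at h2
    | y j => simp [blk] at h2
    | z j => simp only [blk, Sum.inr.injEq] at h2; rw [h2] at h1 ⊢; exact ⟨rfl, h1⟩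
  · rintro ⟨h1, h2⟩
    rw [h1]; exact ⟨h2, rfl⟩

theorem block_ne (lam : Fin n → ℕ) (d : Idx n b → ℕ) (hd : ∀ j, d j ≤ m) (δ : ℕ)
    (h1 : ∀ i : Fin n, 0 < lam i →
      d (.y i) + lam i ≤ d (.x i) ∧ Even (d (.x i) + d (.y i) + lam i))
    (h2 : ∀ i : Fin n, lam i = 0 → d (.x i) = d (.y i) ∧ Even (d (.x i) + δ))
    (h3 : ∀ k : Fin b, Even (d (.z k) + δ)) (i : Fin n ⊕ Fin b) :
    ∃ t : Fin m × Fin m → ℂ,
      inner ℂ (ee ((colS (dT lam δ) m).filter (fun p : Idx n b × Fin m => blk p.1 = i)))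
        (ex (DD (Qb i) t) (Abl (fun i => (d (.x i) - d (.y i) - lam i) / 2) i
          (ee ((colS d m).filter (fun p : Idx n b × Fin m => blk p.1 = i))))) ≠ 0 := by
  have hgen : ∀ (u : Finset (Idx n b × Fin m)) (x : Fock (Idx n b × Fin m))
      (l : List (Fin m × Fin m)), inner ℂ (ee u) ((l.map (Qb i)).prod x) ≠ 0 →
      ∃ t : Fin m × Fin m → ℂ, inner ℂ (ee u) (ex (DD (Qb i) t) x) ≠ 0 := by
    intro u x l hl
    exact ex_gen (Q := Qb i) (fun w => Qb_nil i w) (fun v w => Qb_comm i i v w)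
      (innerₛₗ ℂ (ee u)) x l hl
  rcases i with i | k
  · rw [filter_plane, filter_plane]
    simp only [Abl]
    by_cases hl : lam i = 0
    · obtain ⟨ha, hb⟩ := h2 i hl
      obtain ⟨j, hj⟩ : ∃ j, d (.x i) = δ % 2 + 2 * j := by
        obtain ⟨r, hr⟩ := hb
        exact ⟨(d (.x i) - δ % 2) / 2, by omega⟩
      simp only [dT, hl, if_true]
      have e0 : (d (.x i) - d (.y i) - 0) / 2 = 0 := by omega
      rw [e0, pow_zero, Module.End.one_apply, ← ha, hj]
      obtain ⟨l, c, hc, hw⟩ := reach_plane0 (b := b) (m := m) i (δ % 2) j (by rw [← hj]; exact hd _)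
      apply hgen _ _ l
      rw [hw, inner_ee, if_pos rfl, mul_one]
      exact hc
    · obtain ⟨ha, hb⟩ := h1 i (Nat.pos_of_ne_zero hl)
      obtain ⟨j, hj⟩ : ∃ j, d (.x i) = d (.y i) + lam i + 2 * j := by
        obtain ⟨r, hr⟩ := hb
        exact ⟨(d (.x i) - d (.y i) - lam i) / 2, by omega⟩
      simp only [dT, hl, if_false]
      have e0 : (d (.x i) - d (.y i) - lam i) / 2 = j := by omega
      have hdm := hd (.x i)
      rw [e0, hj]
      obtain ⟨l1, c1, hc1, hw1⟩ := reach_plane (b := b) (m := m) i (Nat.pos_of_ne_zero hl)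
        (d (.y i)) (by omega)
      obtain ⟨l2, c2, hc2, hw2⟩ := right_reach (b := b) (m := m) i
        (s := d (.y i) + lam i) (q := d (.y i)) (by omega) j (by omega)
      apply hgen _ _ (l1 ++ l2)
      rw [List.map_append, List.prod_append, Module.End.mul_apply, hw1, hw2, inner_smul_right,
        inner_ee, if_pos rfl, mul_one]
      exact mul_ne_zero hc1 hc2
  · rw [filter_z, filter_z]
    simp only [Abl, Module.End.one_apply, dT]
    obtain ⟨j, hj⟩ : ∃ j, d (.z k) = δ % 2 + 2 * j := by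
      obtain ⟨r, hr⟩ := h3 k
      exact ⟨(d (.z k) - δ % 2) / 2, by omega⟩
    rw [hj]
    obtain ⟨l, c, hc, hw⟩ := reach_z (n := n) (m := m) k (δ % 2) j (by rw [← hj]; exact hd _)
    apply hgen _ _ l
    rw [hw, inner_ee, if_pos rfl, mul_one]
    exact hc

/-- the contraction operators as a family -/
def Qs (w : Fin m × Fin m) : Module.End ℂ (Fock (Idx n b × Fin m)) := Qso w.1 w.2

theorem Qs_comm (w : Fin m × Fin m) {X : Matrix (Idx n b) (Idx n b) ℂ} (hX : X ∈ gS n b 1) :
    Commute (Qs w) (tens m X) := Qso_comm w.1 w.2 hX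

theorem KK_comm (t : Fin m × Fin m → ℂ) {X : Matrix (Idx n b) (Idx n b) ℂ}
    (hX : X ∈ gS n b 1) :
    ex (DD (Qs (n := n) (b := b)) t) * tens m X = tens m X * ex (DD Qs t) := by
  have h : Commute (DD (Qs (n := n) (b := b)) t) (tens m X) := by
    apply DD_comm
    intro w
    exact Qs_comm w hX
  exact ex_comm h

theorem DDQ_comm (t : Fin m × Fin m → ℂ) (i j : Fin n ⊕ Fin b) :
    Commute (DD (Qb (n := n) (b := b) i) t) (DD (Qb j) t) := by
  apply DD_comm
  intro v
  apply Commute.symm
  apply DD_comm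
  intro w
  exact Qb_comm j i w v

theorem KK_prod (t : Fin m × Fin m → ℂ) :
    ex (DD (Qs (n := n) (b := b)) t) =
      ((Finset.univ : Finset (Fin n ⊕ Fin b)).toList.map fun i => ex (DD (Qb i) t)).prod := by
  rw [← ex_list (fun i => DD (Qb i) t)
    (fun i => DD_nil (fun w => Qb_nil i w) (fun v w => Qb_comm i i v w) t)
    (fun i j => DDQ_comm t i j)]
  congr 1
  rw [Finset.sum_map_toList]
  simp only [DD, Qs, Qso_eq, Finset.smul_sum]
  rw [Finset.sum_comm]

end SoE

open SoE in
theorem so_eval {n b m : ℕ} (hb : b ≤ 1) (lam : Fin n → ℕ) (hanti : Antitone lam)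
    (d : Idx n b → ℕ) (hd : ∀ j, d j ≤ m) (δ : ℕ)
    (h1 : ∀ i : Fin n, 0 < lam i →
      d (.y i) + lam i ≤ d (.x i) ∧ Even (d (.x i) + d (.y i) + lam i))
    (h2 : ∀ i : Fin n, lam i = 0 → d (.x i) = d (.y i) ∧ Even (d (.x i) + δ))
    (h3 : ∀ k : Fin b, Even (d (.z k) + δ)) :
    ∃ h : Fock (Idx n b × Fin m), SoHW (tens m) h (fun i => (lam i : ℤ)) ∧
      ∃ A ∈ Algebra.adjoin ℂ (Set.range (tensL (J := Idx n b) m)),
        inner ℂ h (A (ee (colS d m))) ≠ 0 := by
  classical
  set jj : Fin n → ℕ := fun i => (d (.x i) - d (.y i) - lam i) / 2 with hjj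
  set S' : Finset (Idx n b × Fin m) := colS (dT lam δ) m with hS'
  set S : Finset (Idx n b × Fin m) := colS d m with hS
  have hm' : ∀ j, dT (b := b) lam δ j ≤ m := by
    intro j
    have hδ : δ % 2 < 2 := Nat.mod_lt _ (by norm_num)
    cases j with
    | x i =>
      simp only [dT]
      have := hd (.x i)
      split_ifs with hl
      · obtain ⟨-, r, hr⟩ := h2 i hl
        omega
      · have := (h1 i (Nat.pos_of_ne_zero hl)).1
        omega
    | y i =>
      simp only [dT]
      have := hd (.x i)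
      split_ifs with hl
      · obtain ⟨-, r, hr⟩ := h2 i hl
        omega
      · omega
    | z k =>
      simp only [dT]
      have := hd (.z k)
      obtain ⟨r, hr⟩ := h3 k
      omega
  -- a common point
  have hP : ∀ i : Fin n ⊕ Fin b, ∃ P : MvPolynomial (Fin m × Fin m) ℂ,
      ∀ t : Fin m × Fin m → ℂ, inner ℂ (ee (S'.filter (fun p => blk p.1 = i)))
        (ex (DD (Qb i) t) (Abl jj i (ee (S.filter (fun p => blk p.1 = i))))) =
        MvPolynomial.eval t P := fun i =>
    ex_poly (Qb i) (innerₛₗ ℂ (ee (S'.filter (fun p => blk p.1 = i)))) _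
  choose P hP using hP
  obtain ⟨t, ht⟩ := common_point Finset.univ P (fun i _ => by
    obtain ⟨t, ht⟩ := block_ne lam d hd δ h1 h2 h3 i
    exact ⟨t, by rw [← hP]; exact ht⟩)
  set l : List (Fin n ⊕ Fin b) := (Finset.univ : Finset (Fin n ⊕ Fin b)).toList with hl
  have hnd : l.Nodup := Finset.nodup_toList _
  set K : Module.End ℂ (Fock (Idx n b × Fin m)) :=
    ex (DD Qs t) with hK
  have hKcomm : ∀ X ∈ gS n b 1, K * tens m X = tens m X * K := fun X hX => KK_comm t hX
  have hKprod : K = (l.map fun i => ex (DD (Qb i) t)).prod := KK_prod t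
  refine ⟨LinearMap.adjoint K (ee S'), HW_adj hKcomm (target_HW lam hanti δ hm'),
    (l.map (Abl jj)).prod, ?_, ?_⟩
  · apply Subalgebra.list_prod_mem
    intro x hx
    obtain ⟨i, -, rfl⟩ := List.mem_map.1 hx
    rcases i with i | i
    · simp only [Abl]
      have hE : (Eo i : Module.End ℂ (Fock (Idx n b × Fin m))) ∈
          Algebra.adjoin ℂ (Set.range (tensL (J := Idx n b) m)) :=
        Algebra.subset_adjoin (Set.mem_range.2 ⟨EM (.y i) (.x i), rfl⟩)
      exact Subalgebra.pow_mem _ hE _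
    · exact Subalgebra.one_mem _
  · have e1 : K * (l.map (Abl jj)).prod = (l.map fun i => ex (DD (Qb i) t) * Abl jj i).prod := by
      rw [hKprod]
      exact (list_prod_mul (fun i => ex (DD (Qb i) t)) (Abl jj)
        (fun i j hij => Abl_comm jj (exD_loc i t) hij) l hnd).symm
    have e2 : inner ℂ (LinearMap.adjoint K (ee S')) ((l.map (Abl jj)).prod (ee S)) =
        inner ℂ (ee S') ((K * (l.map (Abl jj)).prod : Module.End ℂ (Fock (Idx n b × Fin m))) (ee S)) :=
      LinearMap.adjoint_inner_left _ _ _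
    rw [e2, e1]
    obtain ⟨σ, hσ, hσ2⟩ := loc_prod (fun p : Idx n b × Fin m => blk p.1) l hnd
      (fun k => by rw [hl]; simp) S S'
    rw [hσ2 (fun i => ex (DD (Qb i) t) * Abl jj i) (fun i => (exD_loc i t).mul (Abl_loc jj i))]
    refine mul_ne_zero hσ ?_
    apply List.prod_ne_zero
    rw [List.mem_map]
    rintro ⟨i, -, hi⟩
    apply ht i (Finset.mem_univ _)
    rw [← hP]
    exact hi

end

end Kost
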