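import Pool.Agent.Kost.Fock

/-!
# Module B5 (MP_869ec4): products of local operators

`K` is partitioned into blocks by `π : K → ι`.  `Loc π i T`: `T` commutes with `cr k`, `an k` for all
`k` outside block `i` (e.g. even polynomials in the `cr k`, `an k` of the block).  Then matrix
elements of a product of local operators factorise, up to a sign depending only on `S, S'`.

PROOF. (1) For `S`, `S'` and a local `T` (block `i`): `⟪ee S', T (ee S)⟫ = 0` unless `S'` and `S` agree
outside the block, and if they agree there, it is `± ⟪ee (S' ∩ block), T (ee (S ∩ block))⟫`, sign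
depending only on `S, S'`.  Indeed `ee S = σ₁ • C (ee (S ∩ block))` where `C` is the product of the
`cr k`, `k ∈ S` outside the block (in some order), `ee S' = σ₂ • C' (ee (S' ∩ block))`.
`T C = C T`; `T (ee (S ∩ block))` is killed by all `an k`, `k` outside (they commute with `T`), so
`C'ᴴ C T (ee ..)` is `T (ee ..)` if `S' , S` agree outside (same `C`, use CAR), and 0 otherwise.
(2) Product over a duplicate free list of blocks, by induction on the list, with the statement
`⟪ee S', (T_{i1} .. T_{ir}) (ee S)⟫ = 0` unless `S, S'` agree outside the blocks `i1..ir`, and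
`= ± ∏ ⟪ee (S' ∩ block), T (ee (S ∩ block))⟫` otherwise: insert the basis after `T_{i1}`:
the only intermediate set is `(S ∩ block i1) ∪ (S' \ block i1)`.
-/

set_option linter.all false

open Module

namespace Kost

noncomputable section

variable {K : Type*} [Fintype K] [DecidableEq K] {ι : Type*} [DecidableEq ι]

/-- operators supported in the block `π = i` -/
def Loc (π : K → ι) (i : ι) (T : Module.End ℂ (Fock K)) : Prop :=
  ∀ k, π k ≠ i → T * cr k = cr k * T ∧ T * an k = an k * T

theorem Loc.mul {π : K → ι} {i : ι} {T T' : Module.End ℂ (Fock K)} (h : Loc π i T)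
    (h' : Loc π i T') : Loc π i (T * T') := by
  intro k hk
  obtain ⟨h1, h2⟩ := h k hk
  obtain ⟨h3, h4⟩ := h' k hk
  constructor
  · rw [mul_assoc, h3, ← mul_assoc, h1, mul_assoc]
  · rw [mul_assoc, h4, ← mul_assoc, h2, mul_assoc]

theorem Loc.add {π : K → ι} {i : ι} {T T' : Module.End ℂ (Fock K)} (h : Loc π i T)
    (h' : Loc π i T') : Loc π i (T + T') := by
  intro k hk
  obtain ⟨h1, h2⟩ := h k hk
  obtain ⟨h3, h4⟩ := h' k hk
  constructor
  · rw [add_mul, mul_add, h1, h3]
  · rw [add_mul, mul_add, h2, h4]

theorem Loc.smul {π : K → ι} {i : ι} {T : Module.End ℂ (Fock K)} (h : Loc π i T) (c : ℂ) :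
    Loc π i (c • T) := by
  intro k hk
  obtain ⟨h1, h2⟩ := h k hk
  constructor
  · rw [smul_mul_assoc, mul_smul_comm, h1]
  · rw [smul_mul_assoc, mul_smul_comm, h2]

theorem Loc.one (π : K → ι) (i : ι) : Loc π i 1 := by
  intro k hk
  exact ⟨by rw [one_mul, mul_one], by rw [one_mul, mul_one]⟩

/-- quadratic operators in the generators of a block are local -/
theorem Loc.cr_an (π : K → ι) {k l : K} (h : π k = π l) : Loc π (π k) (cr k * an l) := by
  intro j hj
  have hk : k ≠ j := fun e => hj (by rw [e])
  have hl : l ≠ j := fun e => hj (by rw [← e, ← h])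
  constructor
  · rw [cr_an_cr, if_neg hl, zero_add]
  · rw [cr_an_an, if_neg hk, sub_zero]

theorem Loc.an_an (π : K → ι) {k l : K} (h : π k = π l) : Loc π (π k) (an k * an l) := by
  intro j hj
  have hk : k ≠ j := fun e => hj (by rw [e])
  have hl : l ≠ j := fun e => hj (by rw [← e, ← h])
  constructor
  · have h1 : an l * cr j = - (cr j * an l) := by
      have := an_cr l j
      rw [if_neg hl] at this
      exact eq_neg_of_add_eq_zero_left this
    have h2 : an k * cr j = - (cr j * an k) := by
      have := an_cr k j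
      rw [if_neg hk] at this
      exact eq_neg_of_add_eq_zero_left this
    rw [mul_assoc, h1, mul_neg, ← mul_assoc, h2, neg_mul, neg_neg, mul_assoc]
  · have h1 : an l * an j = - (an j * an l) := eq_neg_of_add_eq_zero_left (Kost.an_an l j)
    have h2 : an k * an j = - (an j * an k) := eq_neg_of_add_eq_zero_left (Kost.an_an k j)
    rw [mul_assoc, h1, mul_neg, ← mul_assoc, h2, neg_mul, neg_neg, mul_assoc]

namespace LocAux

theorem sgn_ne_zero (k : K) (S : Finset K) : sgn k S ≠ 0 := by
  intro h
  have := sgn_mul_self k S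
  rw [h, zero_mul] at this
  exact zero_ne_one this

theorem conj_sgn (k : K) (S : Finset K) : (starRingEnd ℂ) (sgn k S) = sgn k S := by
  unfold sgn; simp

theorem ee_insert {k : K} {S : Finset K} (hk : k ∉ S) :
    ee (insert k S) = sgn k S • cr k (ee S) := by
  rw [cr_ee, if_neg hk, smul_smul, sgn_mul_self, one_smul]

/-- a local operator has zero matrix elements between sets which differ outside of the block -/
theorem zero_of_ne {π : K → ι} {i : ι} {T : Module.End ℂ (Fock K)} (hT : Loc π i T)
    {S S' : Finset K} {k : K} (hk : π k ≠ i) (h : ¬ (k ∈ S ↔ k ∈ S')) :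
    inner ℂ (ee S') (T (ee S)) = 0 := by
  obtain ⟨h1, h2⟩ := hT k hk
  by_cases hS : k ∈ S
  · have hS' : k ∉ S' := fun h' => h ⟨fun _ => h', fun _ => hS⟩
    have e : ee S = sgn k (S.erase k) • cr k (ee (S.erase k)) := by
      rw [← ee_insert (Finset.notMem_erase k S), Finset.insert_erase hS]
    rw [e, map_smul, inner_smul_right]
    have e2 := LinearMap.congr_fun h1 (ee (S.erase k))
    simp only [Module.End.mul_apply] at e2
    rw [e2, ← inner_an, an_ee, if_neg hS', inner_zero_left, mul_zero]
  · have hS' : k ∈ S' := by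
      by_contra h'
      exact h ⟨fun h'' => absurd h'' hS, fun h'' => absurd h'' h'⟩
    have e : ee S' = sgn k (S'.erase k) • cr k (ee (S'.erase k)) := by
      rw [← ee_insert (Finset.notMem_erase k S'), Finset.insert_erase hS']
    have e2 := LinearMap.congr_fun h2 (ee S)
    simp only [Module.End.mul_apply] at e2
    rw [e, inner_smul_left, inner_cr, ← e2, an_ee, if_neg hS, map_zero, inner_zero_right,
      mul_zero]

/-- Remove common elements outside of the block. -/
theorem strip (π : K → ι) (i : ι) (A A' : Finset K) (D : Finset K) (hD : ∀ k ∈ D, π k ≠ i)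
    (hA : ∀ k ∈ A, π k = i) (hA' : ∀ k ∈ A', π k = i) :
    ∃ σ : ℂ, σ ≠ 0 ∧ ∀ T : Module.End ℂ (Fock K), Loc π i T →
      inner ℂ (ee (A' ∪ D)) (T (ee (A ∪ D))) = σ * inner ℂ (ee A') (T (ee A)) := by
  induction D using Finset.induction_on with
  | empty =>
    refine ⟨1, one_ne_zero, fun T hT => ?_⟩
    rw [Finset.union_empty, Finset.union_empty, one_mul]
  | insert k D hk ih =>
    obtain ⟨σ, hσ, hh⟩ := ih (fun k' hk' => hD k' (Finset.mem_insert_of_mem hk'))
    have hki : π k ≠ i := hD k (Finset.mem_insert_self _ _)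
    have h1 : k ∉ A ∪ D := by
      rw [Finset.mem_union]
      rintro (h | h)
      · exact hki (hA k h)
      · exact hk h
    have h2 : k ∉ A' ∪ D := by
      rw [Finset.mem_union]
      rintro (h | h)
      · exact hki (hA' k h)
      · exact hk h
    refine ⟨sgn k (A' ∪ D) * sgn k (A ∪ D) * σ,
      mul_ne_zero (mul_ne_zero (sgn_ne_zero _ _) (sgn_ne_zero _ _)) hσ, fun T hT => ?_⟩
    obtain ⟨c1, c2⟩ := hT k hki
    have e2 := LinearMap.congr_fun c1 (ee (A ∪ D))
    simp only [Module.End.mul_apply] at e2
    have e3 := LinearMap.congr_fun c2 (ee (A ∪ D))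
    simp only [Module.End.mul_apply] at e3
    rw [an_ee, if_neg h1, map_zero] at e3
    have e4 : an k (cr k (T (ee (A ∪ D)))) = T (ee (A ∪ D)) := by
      have := LinearMap.congr_fun (an_cr k k) (T (ee (A ∪ D)))
      rw [if_pos rfl] at this
      simp only [LinearMap.add_apply, Module.End.mul_apply, Module.End.one_apply] at this
      rw [← e3, map_zero, add_zero] at this
      exact this
    rw [Finset.union_insert, Finset.union_insert, ee_insert h1, ee_insert h2, map_smul,
      inner_smul_left, inner_smul_right, conj_sgn, e2, inner_cr, e4, hh T hT]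
    ring

/-- One local operator. -/
theorem one (π : K → ι) (i : ι) (S S' : Finset K) :
    ∃ σ : ℂ, σ ≠ 0 ∧ ∀ T : Module.End ℂ (Fock K), Loc π i T →
      (∀ k, π k ≠ i → (k ∈ S ↔ k ∈ S')) →
      inner ℂ (ee S') (T (ee S)) =
        σ * inner ℂ (ee (S'.filter (fun k => π k = i))) (T (ee (S.filter (fun k => π k = i)))) := by
  by_cases hSS : ∀ k, π k ≠ i → (k ∈ S ↔ k ∈ S')
  · obtain ⟨σ, hσ, hh⟩ := strip π i (S.filter (fun k => π k = i)) (S'.filter (fun k => π k = i))
      (S.filter (fun k => π k ≠ i)) (fun k hk => (Finset.mem_filter.1 hk).2)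
      (fun k hk => (Finset.mem_filter.1 hk).2) (fun k hk => (Finset.mem_filter.1 hk).2)
    refine ⟨σ, hσ, fun T hT _ => ?_⟩
    have e1 : S.filter (fun k => π k = i) ∪ S.filter (fun k => π k ≠ i) = S :=
      Finset.filter_union_filter_not_eq _ _
    have e2 : S'.filter (fun k => π k = i) ∪ S.filter (fun k => π k ≠ i) = S' := by
      ext k
      simp only [Finset.mem_union, Finset.mem_filter]
      by_cases hk : π k = i
      · simp [hk]
      · simp [hk, hSS k hk]
    have := hh T hT
    rw [e1, e2] at this
    exact this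
  · exact ⟨1, one_ne_zero, fun T hT h => absurd h hSS⟩

/-- The product over a list. -/
theorem prod_aux (π : K → ι) (l : List ι) (hl : l.Nodup) :
    ∀ (S S' : Finset K), ∃ σ : ℂ, σ ≠ 0 ∧ ∀ T : ι → Module.End ℂ (Fock K), (∀ i, Loc π i (T i)) →
      ((∀ k, π k ∉ l → (k ∈ S ↔ k ∈ S')) → inner ℂ (ee S') ((l.map T).prod (ee S)) =
        σ * (l.map fun i => inner ℂ (ee (S'.filter (fun k => π k = i)))
          (T i (ee (S.filter (fun k => π k = i))))).prod) ∧
      ((¬ ∀ k, π k ∉ l → (k ∈ S ↔ k ∈ S')) → inner ℂ (ee S') ((l.map T).prod (ee S)) = 0) := by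
  induction l with
  | nil =>
    intro S S'
    refine ⟨1, one_ne_zero, fun T hT => ⟨fun h => ?_, fun h => ?_⟩⟩
    · have hSS : S = S' := Finset.ext fun k => h k (List.not_mem_nil)
      simp only [List.map_nil, List.prod_nil, Module.End.one_apply]
      rw [hSS, inner_ee, if_pos rfl, one_mul]
    · have hSS : S' ≠ S := fun e => h fun k _ => by rw [e]
      simp only [List.map_nil, List.prod_nil, Module.End.one_apply]
      rw [inner_ee, if_neg hSS]
  | cons i l ih =>
    intro S S'
    have hi : i ∉ l := (List.nodup_cons.1 hl).1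
    have ih' := ih (List.nodup_cons.1 hl).2
    -- the intermediate set
    set U : Finset K := S.filter (fun k => π k = i) ∪ S'.filter (fun k => π k ≠ i) with hU
    have hU1 : ∀ k, π k ≠ i → (k ∈ U ↔ k ∈ S') := by
      intro k hk
      simp [hU, hk]
    have hU2 : ∀ k, π k = i → (k ∈ U ↔ k ∈ S) := by
      intro k hk
      simp [hU, hk]
    have hU3 : U.filter (fun k => π k = i) = S.filter (fun k => π k = i) := by
      ext k
      simp only [Finset.mem_filter]
      exact ⟨fun h => ⟨(hU2 k h.2).1 h.1, h.2⟩, fun h => ⟨(hU2 k h.2).2 h.1, h.2⟩⟩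
    obtain ⟨σ, hσ, hh⟩ := ih' S U
    obtain ⟨τ, hτ, ht⟩ := one π i U S'
    refine ⟨τ * σ, mul_ne_zero hτ hσ, fun T hT => ?_⟩
    have hsum : inner ℂ (ee S') (((i :: l).map T).prod (ee S)) =
        inner ℂ (ee S') (T i (ee U)) * inner ℂ (ee U) ((l.map T).prod (ee S)) := by
      rw [List.map_cons, List.prod_cons, Module.End.mul_apply]
      conv_lhs => rw [vec_expand ((l.map T).prod (ee S))]
      rw [map_sum, inner_sum, Finset.sum_eq_single U]
      · rw [map_smul, inner_smul_right, mul_comm]
      · intro V _ hV
        rw [map_smul, inner_smul_right]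
        by_cases hV1 : ∀ k, π k ≠ i → (k ∈ V ↔ k ∈ S')
        · -- then `V` and `S` differ on the block `i`
          obtain ⟨σ', _, hh'⟩ := ih' S V
          rw [(hh' T hT).2, zero_mul]
          intro hV2
          apply hV
          ext k
          by_cases hk : π k = i
          · rw [hU2 k hk, hV2 k (by rw [hk]; exact hi)]
          · rw [hU1 k hk, hV1 k hk]
        · push_neg at hV1
          obtain ⟨k, hk, hne⟩ := hV1
          rw [zero_of_ne (hT i) hk, mul_zero]
          intro hiff
          rcases hne with ⟨a, b⟩ | ⟨a, b⟩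
          · exact b (hiff.1 a)
          · exact a (hiff.2 b)
      · intro h
        exact absurd (Finset.mem_univ _) h
    rw [hsum]
    constructor
    · intro hSS
      have hSU : ∀ k, π k ∉ l → (k ∈ S ↔ k ∈ U) := by
        intro k hk
        by_cases hki : π k = i
        · rw [hU2 k hki]
        · rw [hU1 k hki]
          exact hSS k (by rw [List.mem_cons]; rintro (h | h); exacts [hki h, hk h])
      rw [ht (T i) (hT i) hU1, (hh T hT).1 hSU, List.map_cons, List.prod_cons, hU3]
      have hmap : (l.map fun j => inner ℂ (ee (U.filter (fun k => π k = j)))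
          (T j (ee (S.filter (fun k => π k = j))))) =
          (l.map fun j => inner ℂ (ee (S'.filter (fun k => π k = j)))
          (T j (ee (S.filter (fun k => π k = j))))) := by
        refine List.map_congr_left fun j hj => ?_
        have hji : j ≠ i := fun e => hi (e ▸ hj)
        have : U.filter (fun k => π k = j) = S'.filter (fun k => π k = j) := by
          ext k
          simp only [Finset.mem_filter]
          constructor
          · rintro ⟨h1, h2⟩
            exact ⟨(hU1 k (by rw [h2]; exact hji)).1 h1, h2⟩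
          · rintro ⟨h1, h2⟩
            exact ⟨(hU1 k (by rw [h2]; exact hji)).2 h1, h2⟩
        rw [this]
      rw [hmap]
      ring
    · intro hSS
      rw [(hh T hT).2, mul_zero]
      intro hSU
      apply hSS
      intro k hk
      rw [List.mem_cons, not_or] at hk
      rw [hSU k hk.2, hU1 k hk.1]

end LocAux

/-- Factorisation. -/
theorem loc_prod (π : K → ι) (l : List ι) (hl : l.Nodup) (hcov : ∀ k, π k ∈ l)
    (S S' : Finset K) : ∃ σ : ℂ, σ ≠ 0 ∧ ∀ T : ι → Module.End ℂ (Fock K), (∀ i, Loc π i (T i)) →
      inner ℂ (ee S') ((l.map T).prod (ee S)) =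
        σ * (l.map fun i => inner ℂ (ee (S'.filter (fun k => π k = i)))
          (T i (ee (S.filter (fun k => π k = i))))).prod := by
  obtain ⟨σ, hσ, hh⟩ := LocAux.prod_aux π l hl S S'
  exact ⟨σ, hσ, fun T hT => (hh T hT).1 fun k hk => absurd (hcov k) hk⟩

end

end Kost
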