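import Pool.Agent.Kost.Bubble
import Pool.Agent.Kost.Local

/-!
# Module B6 (MP_869ec4): evaluation in type C

Column data.  `G ⊆ Fin m`: columns which are contracted; column `a ∈ G` of the shape `d` is
`{x i : i < p a} ∪ {x i, y i : i ∈ Q a}` (`Q a` above `p a`), target height `X a ≤ p a`, same parity.
Column `a ∉ G` is `{x i : i ∈ Jr a}`.  `lam i = #{a ∈ G | i < X a} + #{a ∉ G | i ∈ Jr a}`.

Proof.  `N = tens m (∑ EM (y i) (x (i + 1)))` is nilpotent, `[Qsp a, N] = Ca a = ∑ an (x (i+1), a)
an (x i, a)` commutes with `N`, hence `Qsp a ^ s * exp N = exp N * (Qsp a + Ca a) ^ s`.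
With `κ = ∏_{a ∈ G} (Qsp a)^(s a)`, `h = κᴴ z`, `z` from `bubble S0`:
`⟪h, exp N ζ⟫ = ⟪z, exp N κ' ζ⟫ = ⟪z, κ' ζ⟫`, `κ' = ∏_{a ∈ G} (Qsp a + Ca a)^(s a)`, which is a product
of local operators.  In each column the planes and the neighbours are removed in a forced way
(`forced`), and `S0` is the only set with the right row and column sums (`uniq`).
-/

open Module Matrix

namespace Kost

noncomputable section

namespace SpE

section Pair
variable {K : Type*} [Fintype K] [DecidableEq K]

/-- sums of products of two annihilation operators -/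
def pairOp (M : Matrix K K ℂ) : Module.End ℂ (Fock K) := ∑ k, ∑ l, M k l • (an k * an l)

theorem an3 (k l j : K) : (an k * an l * an j : Module.End ℂ (Fock K)) = an j * (an k * an l) := by
  have h1 : (an l * an j : Module.End ℂ (Fock K)) = - (an j * an l) :=
    eq_neg_of_add_eq_zero_left (an_an l j)
  have h2 : (an k * an j : Module.End ℂ (Fock K)) = - (an j * an k) :=
    eq_neg_of_add_eq_zero_left (an_an k j)
  rw [mul_assoc, h1, mul_neg, ← mul_assoc, h2, neg_mul, neg_neg, mul_assoc]

theorem pairOp_an (M : Matrix K K ℂ) (j : K) : pairOp M * an j = an j * pairOp M := by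
  simp only [pairOp, Finset.sum_mul, Finset.mul_sum, smul_mul_assoc, mul_smul_comm, an3]

theorem an_an_cr (k l v : K) : (an k * an l * cr v : Module.End ℂ (Fock K)) =
    cr v * (an k * an l) + (if l = v then an k else 0) - (if k = v then an l else 0) := by
  have h1 : (an l * cr v : Module.End ℂ (Fock K)) = (if l = v then 1 else 0) - cr v * an l := by
    rw [eq_sub_iff_add_eq]; exact an_cr l v
  have h2 : (an k * cr v : Module.End ℂ (Fock K)) = (if k = v then 1 else 0) - cr v * an k := by
    rw [eq_sub_iff_add_eq]; exact an_cr k v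
  rw [mul_assoc, h1, mul_sub, ← mul_assoc, h2, sub_mul]
  split_ifs <;> simp [mul_assoc] <;> abel

theorem pairOp_cr (M : Matrix K K ℂ) (v : K) :
    pairOp M * cr v = cr v * pairOp M - ∑ k, (M v k - M k v) • an k := by
  simp only [pairOp, Finset.sum_mul, Finset.mul_sum, smul_mul_assoc, mul_smul_comm, an_an_cr,
    smul_add, smul_sub, Finset.sum_add_distrib, Finset.sum_sub_distrib, sub_smul]
  have e1 : ∑ k, ∑ l, M k l • (if l = v then an k else 0 : Module.End ℂ (Fock K)) =
      ∑ k, M k v • an k := by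
    refine Finset.sum_congr rfl fun k _ => ?_
    rw [Finset.sum_eq_single v]
    · rw [if_pos rfl]
    · intro l _ hl; rw [if_neg hl, smul_zero]
    · intro h; exact absurd (Finset.mem_univ _) h
  have e2 : ∑ k, ∑ l, M k l • (if k = v then an l else 0 : Module.End ℂ (Fock K)) =
      ∑ k, M v k • an k := by
    rw [Finset.sum_comm]
    refine Finset.sum_congr rfl fun k _ => ?_
    rw [Finset.sum_eq_single v]
    · rw [if_pos rfl]
    · intro l _ hl; rw [if_neg hl, smul_zero]
    · intro h; exact absurd (Finset.mem_univ _) h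
  rw [e1, e2]
  abel

/-- powers and a commutator which commutes -/
theorem pow_comm {A : Type*} [Ring A] {P c L : A} (h : P * c = c * P - L) (hL : P * L = L * P)
    (s : ℕ) : P ^ (s + 1) * c = c * P ^ (s + 1) - (s + 1 : ℕ) • (L * P ^ s) := by
  induction s with
  | zero => simp [h]
  | succ s ih =>
    rw [pow_succ' P (s + 1), mul_assoc, ih, mul_sub, ← mul_assoc, h, sub_mul, mul_smul_comm,
      ← mul_assoc P L, hL, mul_assoc L P, ← pow_succ', mul_assoc, ← pow_succ', add_smul (s + 1) 1,
      one_smul]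
    abel

theorem forced {M : Matrix K K ℂ} {S S' : Finset K} {v w : K} (hv : v ∈ S) (hv' : v ∉ S')
    (hw : w ∈ S) (hvw : v ≠ w) (hM : ∀ k ∈ S, k ≠ v → k ≠ w → M v k - M k v = 0)
    (hc : M v w - M w v ≠ 0) (s : ℕ) : ∃ c : ℂ, c ≠ 0 ∧
      inner ℂ (ee S') ((pairOp M ^ (s + 1)) (ee S)) =
        c * inner ℂ (ee S') ((pairOp M ^ s) (ee ((S.erase v).erase w))) := by
  set L : Module.End ℂ (Fock K) := ∑ k, (M v k - M k v) • an k with hLdef
  have hL : pairOp M * L = L * pairOp M := by
    simp only [hLdef, Finset.mul_sum, Finset.sum_mul, mul_smul_comm, smul_mul_assoc, pairOp_an]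
  have hL' : ∀ s : ℕ, L * pairOp M ^ s = pairOp M ^ s * L := fun s =>
    ((show Commute (pairOp M) L from hL).pow_left s).symm
  have h := pow_comm (pairOp_cr M v) hL s
  have e : ee S = sgn v (S.erase v) • cr v (ee (S.erase v)) := by
    rw [← LocAux.ee_insert (Finset.notMem_erase v S), Finset.insert_erase hv]
  have hLe : L (ee (S.erase v)) =
      ((M v w - M w v) * sgn w (S.erase v)) • ee ((S.erase v).erase w) := by
    rw [hLdef, LinearMap.sum_apply, Finset.sum_eq_single w]
    · rw [LinearMap.smul_apply, an_ee, if_pos (Finset.mem_erase.2 ⟨hvw.symm, hw⟩), smul_smul]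
    · intro k _ hk
      rw [LinearMap.smul_apply, an_ee]
      split_ifs with h1
      · rw [Finset.mem_erase] at h1
        rw [hM k h1.2 h1.1 hk, zero_smul]
      · rw [smul_zero]
    · intro h; exact absurd (Finset.mem_univ _) h
  refine ⟨- (sgn v (S.erase v) * (s + 1 : ℕ) * ((M v w - M w v) * sgn w (S.erase v))), ?_, ?_⟩
  · refine neg_ne_zero.2 (mul_ne_zero (mul_ne_zero (LocAux.sgn_ne_zero _ _) ?_)
      (mul_ne_zero hc (LocAux.sgn_ne_zero _ _)))
    exact_mod_cast Nat.succ_ne_zero s
  · have h2 := LinearMap.congr_fun h (ee (S.erase v))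
    simp only [Module.End.mul_apply, LinearMap.sub_apply, LinearMap.smul_apply] at h2
    have h3 : L ((pairOp M ^ s) (ee (S.erase v))) = (pairOp M ^ s) (L (ee (S.erase v))) := by
      have := LinearMap.congr_fun (hL' s) (ee (S.erase v))
      simpa only [Module.End.mul_apply] using this
    rw [e, map_smul, inner_smul_right, h2, inner_sub_right, ← inner_an, an_ee, if_neg hv',
      inner_zero_left, zero_sub, h3, hLe, map_smul, inner_smul_right_eq_smul, inner_smul_right]
    simp only [nsmul_eq_mul]
    ring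

end Pair

section Grade
variable {K : Type*} [Fintype K] [DecidableEq K]

/-- vectors supported on the sets of weight `c` -/
def Gr (ω : K → ℤ) (c : ℤ) (v : Fock K) : Prop :=
  ∀ T : Finset K, ∑ k ∈ T, ω k ≠ c → inner ℂ (ee T) v = 0

theorem Gr.zero (ω : K → ℤ) (c : ℤ) : Gr ω c 0 := fun T _ => inner_zero_right _

theorem Gr.add {ω : K → ℤ} {c : ℤ} {v w : Fock K} (hv : Gr ω c v) (hw : Gr ω c w) :
    Gr ω c (v + w) := fun T hT => by rw [inner_add_right, hv T hT, hw T hT, add_zero]

theorem Gr.smul {ω : K → ℤ} {c : ℤ} {v : Fock K} (r : ℂ) (hv : Gr ω c v) :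
    Gr ω c (r • v) := fun T hT => by rw [inner_smul_right, hv T hT, mul_zero]

theorem Gr.sum {ω : K → ℤ} {c : ℤ} {ι : Type*} (s : Finset ι) {f : ι → Fock K}
    (hf : ∀ i ∈ s, Gr ω c (f i)) : Gr ω c (∑ i ∈ s, f i) := fun T hT => by
  rw [inner_sum]; exact Finset.sum_eq_zero fun i hi => hf i hi T hT

theorem Gr.ee (ω : K → ℤ) (S : Finset K) : Gr ω (∑ k ∈ S, ω k) (ee S) := fun T hT => by
  rw [inner_ee, if_neg]
  intro h; exact hT (by rw [h])

theorem Gr.an {ω : K → ℤ} {c : ℤ} {v : Fock K} (hv : Gr ω c v) (k : K) :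
    Gr ω (c - ω k) (an k v) := fun T hT => by
  rw [← inner_cr, cr_ee]
  split_ifs with h
  · exact inner_zero_left _
  · rw [inner_smul_left, hv, mul_zero]
    rw [Finset.sum_insert h]
    intro h'
    exact hT (by rw [← h']; ring)

theorem Gr.cr {ω : K → ℤ} {c : ℤ} {v : Fock K} (hv : Gr ω c v) (k : K) :
    Gr ω (c + ω k) (cr k v) := fun T hT => by
  rw [← inner_an, an_ee]
  split_ifs with h
  · rw [inner_smul_left, hv, mul_zero]
    intro h'
    apply hT
    rw [← Finset.add_sum_erase T ω h, h']
    ring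
  · exact inner_zero_left _

theorem Gr.pairOp {c : ℤ} {v : Fock K} (hv : Gr (fun _ => 1) c v) (M : Matrix K K ℂ) :
    Gr (fun _ => 1) (c - 2) (pairOp M v) := by
  simp only [SpE.pairOp, LinearMap.sum_apply, LinearMap.smul_apply, Module.End.mul_apply]
  refine Gr.sum _ fun k _ => Gr.sum _ fun l _ => Gr.smul _ ?_
  have := (hv.an l).an k
  rwa [sub_sub] at this

theorem Gr.pairOp_pow {c : ℤ} {v : Fock K} (hv : Gr (fun _ => 1) c v) (M : Matrix K K ℂ)
    (s : ℕ) : Gr (fun _ => 1) (c - 2 * s) ((SpE.pairOp M ^ s) v) := by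
  induction s with
  | zero => simpa using hv
  | succ s ih =>
    rw [pow_succ', Module.End.mul_apply]
    have := ih.pairOp M
    convert this using 1
    push_cast; ring

theorem card_pairOp {M : Matrix K K ℂ} {s : ℕ} {S S' : Finset K}
    (h : inner ℂ (Kost.ee S') ((pairOp M ^ s) (Kost.ee S)) ≠ 0) : S'.card + 2 * s = S.card := by
  by_contra hne
  apply h
  refine (Gr.ee (fun _ => 1) S).pairOp_pow M s S' ?_
  simp only [Finset.sum_const, nsmul_eq_mul, mul_one]
  intro h'
  apply hne
  omega

theorem Gr.dG {ω : K → ℤ} {c : ℤ} {v : Fock K} (hv : Gr ω c v) {M : Matrix K K ℂ}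
    (hM : ∀ i j, M i j ≠ 0 → ω i = ω j + 1) : Gr ω (c + 1) (dG M v) := by
  simp only [Kost.dG, LinearMap.sum_apply, LinearMap.smul_apply, Module.End.mul_apply]
  refine Gr.sum _ fun i _ => Gr.sum _ fun j _ => ?_
  by_cases h : M i j = 0
  · rw [h, zero_smul]; exact Gr.zero _ _
  · refine Gr.smul _ ?_
    have := (hv.an j).cr i
    convert this using 1
    rw [hM i j h]; ring

theorem Gr.dG_pow {ω : K → ℤ} {c : ℤ} {v : Fock K} (hv : Gr ω c v) {M : Matrix K K ℂ}
    (hM : ∀ i j, M i j ≠ 0 → ω i = ω j + 1) (s : ℕ) : Gr ω (c + s) ((Kost.dG M ^ s) v) := by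
  induction s with
  | zero => simpa using hv
  | succ s ih =>
    rw [pow_succ', Module.End.mul_apply]
    have := ih.dG hM
    convert this using 1
    push_cast; ring

theorem dG_nilpotent {ω : K → ℤ} (hω : ∀ k, ω k = 0 ∨ ω k = 1) {M : Matrix K K ℂ}
    (hM : ∀ i j, M i j ≠ 0 → ω i = ω j + 1) : dG M ^ (Fintype.card K + 1) = 0 := by
  refine end_ext fun S => vec_ext fun T => ?_
  rw [LinearMap.zero_apply, inner_zero_right]
  refine (Gr.ee ω S).dG_pow hM _ T ?_
  have h1 : 0 ≤ ∑ k ∈ S, ω k := Finset.sum_nonneg fun k _ => by rcases hω k with h | h <;> simp [h]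
  have h2 : ∑ k ∈ T, ω k ≤ (T.card : ℤ) := by
    have := Finset.sum_le_card_nsmul T ω 1 fun k _ => by rcases hω k with h | h <;> simp [h]
    simpa using this
  have h3 : (T.card : ℤ) ≤ Fintype.card K := by exact_mod_cast Finset.card_le_univ T
  push_cast
  omega

end Grade

section Exp

variable {A : Type*} [Ring A] [Algebra ℚ A]

omit [Algebra ℚ A] in
theorem mul_pow_comm {P N C : A} (h : P * N = N * P + C) (hC : C * N = N * C) (k : ℕ) :
    P * N ^ (k + 1) = N ^ (k + 1) * P + (k + 1 : ℕ) • (N ^ k * C) := by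
  induction k with
  | zero => simp [h]
  | succ k ih =>
    rw [pow_succ N (k + 1), ← mul_assoc, ih, add_mul, mul_assoc, h, mul_add, smul_mul_assoc,
      mul_assoc (N ^ k) C N, hC, ← mul_assoc (N ^ k), ← pow_succ, add_smul (k + 1) 1, one_smul,
      ← mul_assoc, mul_assoc (N ^ (k + 1)) N P]
    abel

theorem mul_exp {P N C : A} (h : P * N = N * P + C) (hC : C * N = N * C) {L : ℕ}
    (hL : N ^ L = 0) : P * IsNilpotent.exp N = IsNilpotent.exp N * (P + C) := by
  have h1 : N ^ (L + 1) = 0 := by rw [pow_succ, hL, zero_mul]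
  have e1 : P * IsNilpotent.exp N = ∑ i ∈ Finset.range (L + 1), (i.factorial : ℚ)⁻¹ • (P * N ^ i) := by
    rw [IsNilpotent.exp_eq_sum h1, Finset.mul_sum]
    simp only [mul_smul_comm]
  have e2 : IsNilpotent.exp N * P = ∑ i ∈ Finset.range (L + 1), (i.factorial : ℚ)⁻¹ • (N ^ i * P) := by
    rw [IsNilpotent.exp_eq_sum h1, Finset.sum_mul]
    simp only [smul_mul_assoc]
  have e3 : IsNilpotent.exp N * C = ∑ i ∈ Finset.range L, (i.factorial : ℚ)⁻¹ • (N ^ i * C) := by
    rw [IsNilpotent.exp_eq_sum hL, Finset.sum_mul]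
    simp only [smul_mul_assoc]
  rw [mul_add, e1, e2, e3, Finset.sum_range_succ', Finset.sum_range_succ' _ L, pow_zero, mul_one,
    one_mul, add_right_comm, ← Finset.sum_add_distrib]
  congr 1
  refine Finset.sum_congr rfl fun i _ => ?_
  rw [mul_pow_comm h hC, smul_add, ← Nat.cast_smul_eq_nsmul ℚ, smul_smul]
  congr 2
  rw [Nat.factorial_succ, Nat.cast_mul, mul_inv]
  have : ((i + 1 : ℕ) : ℚ) ≠ 0 := by exact_mod_cast Nat.succ_ne_zero i
  field_simp

theorem mul_exp_pow {P N C : A} (h : P * N = N * P + C) (hC : C * N = N * C) {L : ℕ}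
    (hL : N ^ L = 0) (s : ℕ) :
    P ^ s * IsNilpotent.exp N = IsNilpotent.exp N * (P + C) ^ s := by
  induction s with
  | zero => simp
  | succ s ih => rw [pow_succ, mul_assoc, mul_exp h hC hL, ← mul_assoc, ih, mul_assoc, pow_succ]

end Exp

section Locality
variable {K : Type*} [Fintype K] [DecidableEq K] {ι : Type*} [DecidableEq ι]

omit [DecidableEq ι] in
theorem loc_zero (π : K → ι) (i : ι) : Loc π i (0 : Module.End ℂ (Fock K)) := by
  intro k _; simp

theorem loc_sum {β : Type*} (π : K → ι) (i : ι) (s : Finset β) {f : β → Module.End ℂ (Fock K)}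
    (h : ∀ b ∈ s, Loc π i (f b)) : Loc π i (∑ b ∈ s, f b) :=
  Finset.sum_induction f _ (fun _ _ => Loc.add) (loc_zero π i) h

theorem loc_pow {π : K → ι} {i : ι} {T : Module.End ℂ (Fock K)} (h : Loc π i T) (s : ℕ) :
    Loc π i (T ^ s) := by
  induction s with
  | zero => rw [pow_zero]; exact Loc.one π i
  | succ s ih => rw [pow_succ]; exact ih.mul h

theorem loc_pairOp {π : K → ι} {i : ι} {M : Matrix K K ℂ}
    (hM : ∀ k l, M k l ≠ 0 → π k = i ∧ π l = i) : Loc π i (pairOp M) := by
  refine loc_sum π i _ fun k _ => loc_sum π i _ fun l _ => ?_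
  by_cases h : M k l = 0
  · rw [h, zero_smul]; exact loc_zero π i
  · obtain ⟨h1, h2⟩ := hM k l h
    have := Loc.an_an π (k := k) (l := l) (h1.trans h2.symm)
    rw [h1] at this
    exact this.smul _

end Locality

section App
variable {n m : ℕ}

/-- the matrix `∑ EM (y i) (x (i + 1))` -/
def Bm (n : ℕ) : Matrix (Idx n 0) (Idx n 0) ℂ := fun p q =>
  match p, q with
  | .y i, .x k => if (k : ℕ) = i + 1 then 1 else 0
  | _, _ => 0

/-- planes and neighbours -/
def m0 (n : ℕ) : Matrix (Idx n 0) (Idx n 0) ℂ := fun p q =>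
  match p, q with
  | .y i, .x k => if i = k then 1 else 0
  | .x k, .x i => if (k : ℕ) = i + 1 then 1 else 0
  | _, _ => 0

def Ma (n : ℕ) (a : Fin m) : Matrix (Idx n 0 × Fin m) (Idx n 0 × Fin m) ℂ := fun p q =>
  if p.2 = a ∧ q.2 = a then m0 n p.1 q.1 else 0

/-- neighbours -/
def Ca (n : ℕ) (a : Fin m) : Module.End ℂ (Fock (Idx n 0 × Fin m)) :=
  ∑ i : Fin n, (∑ k : Fin n, (if (k : ℕ) = i + 1 then (1 : ℂ) else 0) • an (.x k, a)) * an (.x i, a)

theorem sum_idx0 {E : Type*} [AddCommMonoid E] (f : Idx n 0 → E) :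
    ∑ j, f j = (∑ i, f (.x i)) + ∑ i, f (.y i) := by
  rw [sum_idx, Finset.univ_eq_empty (α := Fin 0), Finset.sum_empty, add_zero]

theorem an_x_N (k : Fin n) (a : Fin m) : (an (Idx.x k, a) * tens m (Bm n) : Module.End ℂ _) =
    tens m (Bm n) * an (Idx.x k, a) := by
  rw [tens_an, sum_idx0]
  simp [Bm]

theorem an_y_N (i : Fin n) (a : Fin m) : (an (Idx.y i, a) * tens m (Bm n) : Module.End ℂ _) =
    tens m (Bm n) * an (Idx.y i, a) +
      ∑ k : Fin n, (if (k : ℕ) = i + 1 then (1 : ℂ) else 0) • an (.x k, a) := by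
  rw [tens_an, sum_idx0]
  simp [Bm]

theorem Ca_N (a : Fin m) : Ca n a * tens m (Bm n) = tens m (Bm n) * Ca n a := by
  simp only [Ca, Finset.sum_mul, Finset.mul_sum, smul_mul_assoc, mul_smul_comm]
  refine Finset.sum_congr rfl fun i _ => Finset.sum_congr rfl fun k _ => ?_
  rw [mul_assoc, an_x_N, ← mul_assoc, an_x_N, mul_assoc]

theorem Qsp_N (a : Fin m) : Qsp a * tens m (Bm n) = tens m (Bm n) * Qsp a + Ca n a := by
  simp only [Qsp, Ca]
  rw [Finset.sum_mul, Finset.mul_sum, ← Finset.sum_add_distrib]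
  refine Finset.sum_congr rfl fun i _ => ?_
  rw [mul_assoc, an_x_N, ← mul_assoc, an_y_N, add_mul, mul_assoc]

theorem pairOp_Ma (a : Fin m) : pairOp (Ma n a) = Qsp a + Ca n a := by
  have h1 : ∀ (p q : Idx n 0 × Fin m), Ma n a p q • (an p * an q : Module.End ℂ (Fock (Idx n 0 × Fin m))) =
      if p.2 = a then (if q.2 = a then m0 n p.1 q.1 • (an p * an q) else 0) else 0 := by
    intro p q
    unfold Ma
    by_cases hp : p.2 = a <;> by_cases hq : q.2 = a <;> simp [hp, hq]
  have h2 : pairOp (Ma n a) = ∑ j : Idx n 0, ∑ k : Idx n 0,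
      m0 n j k • (an (j, a) * an (k, a) : Module.End ℂ (Fock (Idx n 0 × Fin m))) := by
    unfold pairOp
    rw [Fintype.sum_prod_type]
    refine Finset.sum_congr rfl fun j _ => ?_
    rw [Finset.sum_eq_single a]
    · rw [Fintype.sum_prod_type]
      refine Finset.sum_congr rfl fun k _ => ?_
      rw [Finset.sum_eq_single a]
      · rw [h1, if_pos rfl, if_pos rfl]
      · intro c _ hc
        rw [h1, if_pos rfl, if_neg hc]
      · intro h; exact absurd (Finset.mem_univ _) h
    · intro c _ hc
      refine Finset.sum_eq_zero fun q _ => ?_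
      rw [h1, if_neg hc]
    · intro h; exact absurd (Finset.mem_univ _) h
  rw [h2, sum_idx0]
  simp only [sum_idx0]
  simp only [m0, zero_smul, Finset.sum_const_zero, add_zero, ite_smul, one_smul]
  rw [add_comm]
  congr 1
  · unfold Qsp
    refine Finset.sum_congr rfl fun i _ => ?_
    rw [Finset.sum_eq_single i]
    · rw [if_pos rfl]
    · intro k _ hk; rw [if_neg (Ne.symm hk)]
    · intro h; exact absurd (Finset.mem_univ _) h
  · unfold Ca
    rw [Finset.sum_comm]
    refine Finset.sum_congr rfl fun i _ => ?_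
    rw [Finset.sum_mul]
    refine Finset.sum_congr rfl fun k _ => ?_
    split_ifs <;> simp

theorem N_nilpotent : tens m (Bm n) ^ (Fintype.card (Idx n 0 × Fin m) + 1) = 0 := by
  unfold tens
  refine dG_nilpotent (ω := fun p => match p.1 with | .y _ => 1 | _ => 0) ?_ ?_
  · rintro ⟨p, a⟩
    cases p <;> simp
  · rintro ⟨p, a⟩ ⟨q, c⟩ h
    unfold tensM at h
    split_ifs at h with h1
    · cases p <;> cases q <;> simp_all [Bm]
    · exact absurd rfl h

theorem Qsp_exp (a : Fin m) (s : ℕ) : Qsp a ^ s * IsNilpotent.exp (tens m (Bm n)) =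
    IsNilpotent.exp (tens m (Bm n)) * pairOp (Ma n a) ^ s := by
  rw [pairOp_Ma]
  exact mul_exp_pow (Qsp_N a) (Ca_N a) N_nilpotent s

end App

section Col
variable {n m : ℕ}

/-- a set of boxes in the column `a` -/
def col (Xs Ys : Finset (Fin n)) (a : Fin m) : Finset (Idx n 0 × Fin m) :=
  (Xs.image fun i => (Idx.x i, a)) ∪ (Ys.image fun i => (Idx.y i, a))

@[simp] theorem mem_col_x {Xs Ys : Finset (Fin n)} {a : Fin m} (i : Fin n) (c : Fin m) :
    (Idx.x i, c) ∈ col Xs Ys a ↔ i ∈ Xs ∧ c = a := by
  simp only [col, Finset.mem_union, Finset.mem_image, Prod.mk.injEq, Idx.x.injEq, reduceCtorEq,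
    false_and, and_false, exists_false, or_false]
  constructor
  · rintro ⟨j, hj, rfl, rfl⟩; exact ⟨hj, rfl⟩
  · rintro ⟨h, rfl⟩; exact ⟨i, h, rfl, rfl⟩

@[simp] theorem mem_col_y {Xs Ys : Finset (Fin n)} {a : Fin m} (i : Fin n) (c : Fin m) :
    (Idx.y i, c) ∈ col Xs Ys a ↔ i ∈ Ys ∧ c = a := by
  simp only [col, Finset.mem_union, Finset.mem_image, Prod.mk.injEq, Idx.y.injEq, reduceCtorEq,
    false_and, and_false, exists_false, false_or]
  constructor
  · rintro ⟨j, hj, rfl, rfl⟩; exact ⟨hj, rfl⟩
  · rintro ⟨h, rfl⟩; exact ⟨i, h, rfl, rfl⟩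

theorem ext_idx {S T : Finset (Idx n 0 × Fin m)}
    (hx : ∀ i c, (Idx.x i, c) ∈ S ↔ (Idx.x i, c) ∈ T)
    (hy : ∀ i c, (Idx.y i, c) ∈ S ↔ (Idx.y i, c) ∈ T) : S = T := by
  ext ⟨j, c⟩
  cases j with
  | x i => exact hx i c
  | y i => exact hy i c
  | z k => exact k.elim0

theorem card_col (Xs Ys : Finset (Fin n)) (a : Fin m) : (col Xs Ys a).card = Xs.card + Ys.card := by
  unfold col
  rw [Finset.card_union_of_disjoint, Finset.card_image_of_injective, Finset.card_image_of_injective]
  · intro i j h; simpa using h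
  · intro i j h; simpa using h
  · rw [Finset.disjoint_left]
    intro p hp hq
    rw [Finset.mem_image] at hp hq
    obtain ⟨i, _, rfl⟩ := hp
    obtain ⟨j, _, h⟩ := hq
    simp at h

/-- initial segments -/
def ltF (n p : ℕ) : Finset (Fin n) := Finset.univ.filter (fun i : Fin n => (i : ℕ) < p)

@[simp] theorem mem_ltF {p : ℕ} (i : Fin n) : i ∈ ltF n p ↔ (i : ℕ) < p := by simp [ltF]

theorem card_ltF {p : ℕ} (hp : p ≤ n) : (ltF n p).card = p := by
  unfold ltF
  rw [Fin.card_filter_val_lt]; exact min_eq_right hp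

/-- one column: neighbours -/
theorem col_neigh {X : ℕ} (a : Fin m) : ∀ t : ℕ, X + 2 * t ≤ n →
    inner ℂ (ee (col (ltF n X) ∅ a)) ((pairOp (Ma n a) ^ t) (ee (col (ltF n (X + 2 * t)) ∅ a))) ≠ 0 := by
  intro t
  induction t with
  | zero =>
    intro _
    rw [mul_zero, add_zero, pow_zero, Module.End.one_apply, inner_ee, if_pos rfl]
    exact one_ne_zero
  | succ t ih =>
    intro hn
    set v : Fin n := ⟨X + 2 * t + 1, by omega⟩ with hv
    set w : Fin n := ⟨X + 2 * t, by omega⟩ with hw
    have hM : ∀ k ∈ col (ltF n (X + 2 * (t + 1))) ∅ a, k ≠ (Idx.x v, a) → k ≠ (Idx.x w, a) →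
        Ma n a (Idx.x v, a) k - Ma n a k (Idx.x v, a) = 0 := by
      rintro ⟨k, c⟩ hk hkv hkw
      cases k with
      | x i =>
        rw [mem_col_x, mem_ltF] at hk
        obtain ⟨hk, rfl⟩ := hk
        have h1 : ¬ (v : ℕ) = i + 1 := by
          intro h
          apply hkw
          have : i = w := Fin.ext (by simp only [hv, hw] at h ⊢; omega)
          rw [this]
        have h2 : ¬ (i : ℕ) = v + 1 := by
          intro h
          simp only [hv] at h
          omega
        simp only [Ma, m0, and_self, if_true, if_neg h1, if_neg h2, sub_zero]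
      | y i => simp at hk
      | z k => exact k.elim0
    have hc' : Ma n a (Idx.x v, a) (Idx.x w, a) - Ma n a (Idx.x w, a) (Idx.x v, a) ≠ 0 := by
      have h1 : (v : ℕ) = w + 1 := by simp [hv, hw]
      have h2 : ¬ (w : ℕ) = v + 1 := by simp [hv, hw]; omega
      simp only [Ma, m0, and_self, if_true, if_neg h2, if_pos h1]
      norm_num
    obtain ⟨c, hc, h⟩ := forced (M := Ma n a) (S := col (ltF n (X + 2 * (t + 1))) ∅ a)
      (S' := col (ltF n X) ∅ a) (v := (.x v, a)) (w := (.x w, a))
      (by simp [hv]; omega) (by simp [hv]; omega) (by simp [hw])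
      (by simp [hv, hw]) hM hc' t
    rw [h]
    refine mul_ne_zero hc ?_
    have e : ((col (ltF n (X + 2 * (t + 1))) ∅ a).erase (Idx.x v, a)).erase (Idx.x w, a) =
        col (ltF n (X + 2 * t)) ∅ a := by
      refine ext_idx (fun i c => ?_) (fun i c => ?_)
      · simp only [Finset.mem_erase, ne_eq, Prod.mk.injEq, Idx.x.injEq, mem_col_x, mem_ltF]
        constructor
        · rintro ⟨h1, h2, h3, rfl⟩
          refine ⟨?_, rfl⟩
          have h1' : ¬ i = w := fun h => h1 ⟨h, rfl⟩
          have h2' : ¬ i = v := fun h => h2 ⟨h, rfl⟩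
          rw [Fin.ext_iff] at h1' h2'
          simp only [hv, hw] at h1' h2'
          omega
        · rintro ⟨h1, rfl⟩
          refine ⟨fun h => ?_, fun h => ?_, by omega, rfl⟩
          · have := congrArg Fin.val h.1
            simp only [hw] at this
            omega
          · have := congrArg Fin.val h.1
            simp only [hv] at this
            omega
      · simp
    rw [e]
    exact ih (by omega)

/-- one column -/
theorem col_ne {X p : ℕ} (a : Fin m) (t : ℕ) (hp : X + 2 * t = p) (hpn : p ≤ n)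
    (Q : Finset (Fin n)) (hQ : ∀ i ∈ Q, p ≤ i) :
    inner ℂ (ee (col (ltF n X) ∅ a))
      ((pairOp (Ma n a) ^ (t + Q.card)) (ee (col (ltF n p ∪ Q) Q a))) ≠ 0 := by
  induction Q using Finset.induction_on with
  | empty =>
    subst hp
    simpa using col_neigh a t hpn
  | insert i Q hi ih =>
    have hpi : p ≤ i := hQ i (Finset.mem_insert_self _ _)
    have ih' := ih fun j hj => hQ j (Finset.mem_insert_of_mem hj)
    have hM : ∀ k ∈ col (ltF n p ∪ insert i Q) (insert i Q) a, k ≠ (Idx.y i, a) →
        k ≠ (Idx.x i, a) → Ma n a (Idx.y i, a) k - Ma n a k (Idx.y i, a) = 0 := by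
      rintro ⟨k, c⟩ hk hkv hkw
      cases k with
      | x j =>
        rw [mem_col_x] at hk
        obtain ⟨_, rfl⟩ := hk
        have h1 : ¬ i = j := by
          rintro rfl
          exact hkw rfl
        simp [Ma, m0, h1]
      | y j => simp [Ma, m0]
      | z k => exact k.elim0
    have hc' : Ma n a (Idx.y i, a) (Idx.x i, a) - Ma n a (Idx.x i, a) (Idx.y i, a) ≠ 0 := by
      simp [Ma, m0]
    obtain ⟨c, hc, h⟩ := forced (M := Ma n a) (S := col (ltF n p ∪ insert i Q) (insert i Q) a)
      (S' := col (ltF n X) ∅ a) (v := (.y i, a)) (w := (.x i, a))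
      (by simp) (by simp) (by simp) (by simp) hM hc' (t + Q.card)
    rw [Finset.card_insert_of_notMem hi, ← add_assoc, h]
    refine mul_ne_zero hc ?_
    have e : ((col (ltF n p ∪ insert i Q) (insert i Q) a).erase (Idx.y i, a)).erase (Idx.x i, a) =
        col (ltF n p ∪ Q) Q a := by
      refine ext_idx (fun j c => ?_) (fun j c => ?_)
      · simp only [Finset.mem_erase, ne_eq, Prod.mk.injEq, Idx.x.injEq, mem_col_x, mem_ltF,
          Finset.mem_union, Finset.mem_insert, reduceCtorEq, false_and, not_false_eq_true,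
          true_and]
        constructor
        · rintro ⟨h1, h3, rfl⟩
          refine ⟨?_, rfl⟩
          have h1' : ¬ j = i := fun h => h1 ⟨h, rfl⟩
          rcases h3 with h3 | h3 | h3
          · exact Or.inl h3
          · exact absurd h3 h1'
          · exact Or.inr h3
        · rintro ⟨h1, rfl⟩
          refine ⟨fun h => ?_, ?_, rfl⟩
          · rcases h1 with h1 | h1
            · rw [h.1] at h1; omega
            · rw [h.1] at h1; exact hi h1
          · rcases h1 with h1 | h1
            · exact Or.inl h1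
            · exact Or.inr (Or.inr h1)
      · simp only [Finset.mem_erase, ne_eq, Prod.mk.injEq, Idx.y.injEq, mem_col_y,
          Finset.mem_insert, reduceCtorEq, false_and, not_false_eq_true, true_and]
        constructor
        · rintro ⟨h1, h3, rfl⟩
          refine ⟨?_, rfl⟩
          have h1' : ¬ j = i := fun h => h1 ⟨h, rfl⟩
          exact h3.resolve_left h1'
        · rintro ⟨h1, rfl⟩
          refine ⟨fun h => ?_, Or.inr h1, rfl⟩
          rw [h.1] at h1; exact hi h1
    rw [e]
    exact ih'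

end Col

section Fin5
variable {n m : ℕ}

theorem uniq {ι : Type*} [DecidableEq ι] (G : Finset ι) (X : ι → ℕ) (Z : ι → Finset (Fin n))
    (hc : ∀ a ∈ G, (Z a).card = X a) (hX : ∀ a ∈ G, X a ≤ n)
    (hr : ∀ i : Fin n, (G.filter (fun a => i ∈ Z a)).card =
      (G.filter (fun a => (i : ℕ) < X a)).card) : ∀ a ∈ G, Z a = ltF n (X a) := by
  have key : ∀ k : ℕ, ∀ i : Fin n, (i : ℕ) = k → ∀ a ∈ G, (i ∈ Z a ↔ (i : ℕ) < X a) := by
    intro k
    induction k using Nat.strong_induction_on with
    | _ k ih =>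
      intro i hi
      have hsub : G.filter (fun a => i ∈ Z a) ⊆ G.filter (fun a => (i : ℕ) < X a) := by
        intro a ha
        rw [Finset.mem_filter] at ha ⊢
        refine ⟨ha.1, ?_⟩
        by_contra hlt
        have h1 : insert i (ltF n (X a)) ⊆ Z a := by
          intro j hj
          rw [Finset.mem_insert, mem_ltF] at hj
          rcases hj with rfl | hj
          · exact ha.2
          · exact (ih j (by omega) j rfl a ha.1).2 hj
        have h2 := Finset.card_le_card h1
        rw [Finset.card_insert_of_notMem (by rw [mem_ltF]; exact hlt), card_ltF (hX a ha.1),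
          hc a ha.1] at h2
        omega
      have heq := Finset.eq_of_subset_of_card_le hsub (hr i).symm.le
      intro a ha
      have h3 := Finset.ext_iff.1 heq a
      rw [Finset.mem_filter, Finset.mem_filter] at h3
      exact ⟨fun h => (h3.1 ⟨ha, h⟩).2, fun h => (h3.2 ⟨ha, h⟩).2⟩
  intro a ha
  ext i
  rw [mem_ltF]
  exact key i i rfl a ha

theorem rc_eq {J : Type*} [DecidableEq J] (S : Finset (J × Fin m)) (j : J) :
    rc S j = (Finset.univ.filter (fun c => (j, c) ∈ S)).card := by
  unfold rc
  rw [← Finset.card_image_of_injective (Finset.univ.filter (fun c => (j, c) ∈ S))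
    (f := fun c => (j, c)) (fun a b h => (Prod.mk.inj h).2)]
  congr 1
  ext ⟨k, c⟩
  simp only [Finset.mem_filter, Finset.mem_image, Finset.mem_univ, true_and, Prod.mk.injEq]
  constructor
  · rintro ⟨h, rfl⟩; exact ⟨c, h, rfl, rfl⟩
  · rintro ⟨c', h, rfl, rfl⟩; exact ⟨h, rfl⟩

theorem rc_le {J : Type*} [DecidableEq J] (S : Finset (J × Fin m)) (j : J) : rc S j ≤ m := by
  rw [rc_eq]
  exact (Finset.card_le_univ _).trans_eq (Fintype.card_fin m)

theorem tens_EM_ee {J : Type*} [Fintype J] [DecidableEq J] (S : Finset (J × Fin m)) (j : J) :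
    tens m (EM j j) (ee S) = (rc S j : ℂ) • ee S := by
  rw [tens_EM, LinearMap.sum_apply]
  simp only [Module.End.mul_apply, cr_an_ee]
  rw [← Finset.sum_filter, Finset.sum_const, rc_eq, Nat.cast_smul_eq_nsmul]

theorem EM_star {J : Type*} [Fintype J] [DecidableEq J] (j : J) : (EM j j : Matrix J J ℂ)ᴴ = EM j j := by
  ext p q
  rw [Matrix.conjTranspose_apply, EM_apply, EM_apply]
  by_cases h1 : j = p <;> by_cases h2 : j = q <;> simp [h1, h2]

/-- weights of the components of a weight vector -/
theorem rc_of_inner {J : Type*} [Fintype J] [DecidableEq J] {z : Fock (J × Fin m)} {j : J} {r : ℕ}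
    (hz : tens m (EM j j) z = (r : ℂ) • z) {S : Finset (J × Fin m)}
    (h : inner ℂ z (ee S) ≠ 0) : rc S j = r := by
  have h1 := tens_adj (m := m) (EM j j) z (ee S)
  rw [EM_star, tens_EM_ee, hz, inner_smul_left, inner_smul_right, Complex.conj_natCast] at h1
  have h2 := mul_right_cancel₀ h h1
  exact_mod_cast h2.symm

theorem list_conj {A ι : Type*} [Monoid A] {E : A} {f g : ι → A} (h : ∀ a, f a * E = E * g a)
    (l : List ι) : (l.map f).prod * E = E * (l.map g).prod := by
  induction l with
  | nil => simp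
  | cons a l ih =>
    rw [List.map_cons, List.prod_cons, mul_assoc, ih, ← mul_assoc, h, mul_assoc, List.map_cons,
      List.prod_cons]

theorem qsmul {V : Type*} [AddCommGroup V] [Module ℂ V] [Module ℚ V] (q : ℚ) (v : V) :
    q • v = (q : ℂ) • v := (Rat.cast_smul_eq_qsmul ℂ q v).symm

theorem exp_mem {A : Type*} [Ring A] [Algebra ℂ A] [Algebra ℚ A] (S : Subalgebra ℂ A) {N : A}
    (hN : N ∈ S) {L : ℕ} (hL : N ^ L = 0) : IsNilpotent.exp N ∈ S := by
  rw [IsNilpotent.exp_eq_sum hL]
  refine Subalgebra.sum_mem _ fun i _ => ?_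
  rw [qsmul]
  exact Subalgebra.smul_mem _ (Subalgebra.pow_mem _ hN _) _

theorem exp_inner {K : Type*} [Fintype K] [DecidableEq K] {N : Module.End ℂ (Fock K)} {L : ℕ}
    (hL : N ^ (L + 1) = 0) {z : Fock K} (h : ∀ w, inner ℂ z (N w) = 0) (w : Fock K) :
    inner ℂ z (IsNilpotent.exp N w) = inner ℂ z w := by
  rw [IsNilpotent.exp_eq_sum hL, LinearMap.sum_apply, inner_sum, Finset.sum_range_succ',
    Finset.sum_eq_zero, zero_add]
  · simp
  · intro i _
    rw [qsmul, LinearMap.smul_apply, inner_smul_right, pow_succ', Module.End.mul_apply, h,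
      mul_zero]

theorem adj_eig {κ : Module.End ℂ (Fock (Idx n 0 × Fin m))}
    (hκ : ∀ X ∈ gS n 0 (-1), κ * tens m X = tens m X * κ) {z : Fock (Idx n 0 × Fin m)}
    {X : Matrix (Idx n 0) (Idx n 0) ℂ} (hX : X ∈ gS n 0 (-1)) {c : ℂ}
    (hz : tens m X z = c • z) :
    tens m X (LinearMap.adjoint κ z) = c • LinearMap.adjoint κ z := by
  refine ext_inner_right ℂ fun w => ?_
  have h1 := LinearMap.congr_fun (hκ _ (star_mem_gS (-1) (Or.inr rfl) hX)) w
  simp only [Module.End.mul_apply] at h1
  rw [tens_adj, LinearMap.adjoint_inner_left, h1, ← tens_adj, hz, inner_smul_left,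
    inner_smul_left, LinearMap.adjoint_inner_left]

end Fin5

end SpE

open SpE in
theorem sp_eval {n m : ℕ} (lam : Fin n → ℕ) (hanti : Antitone lam) (d : Idx n 0 → ℕ)
    (hd : ∀ j, d j ≤ m) (G : Finset (Fin m)) (p X : Fin m → ℕ) (Q Jr : Fin m → Finset (Fin n))
    (hp : ∀ a ∈ G, X a ≤ p a ∧ p a ≤ n ∧ Even (p a - X a) ∧ ∀ i ∈ Q a, p a ≤ i)
    (hGx : ∀ a ∈ G, ∀ i : Fin n, (a : ℕ) < d (.x i) ↔ ((i : ℕ) < p a ∨ i ∈ Q a))
    (hGy : ∀ a ∈ G, ∀ i : Fin n, (a : ℕ) < d (.y i) ↔ i ∈ Q a)
    (hRx : ∀ a, a ∉ G → ∀ i : Fin n, (a : ℕ) < d (.x i) ↔ i ∈ Jr a)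
    (hRy : ∀ a, a ∉ G → ∀ i : Fin n, ¬ (a : ℕ) < d (.y i))
    (hlam : ∀ i : Fin n, lam i = (G.filter (fun a => (i : ℕ) < X a)).card +
      (Finset.univ.filter (fun a => a ∉ G ∧ i ∈ Jr a)).card) :
    ∃ h : Fock (Idx n 0 × Fin m), SpHW (tens m) h (fun i => (lam i : ℤ)) ∧
      ∃ A ∈ Algebra.adjoin ℂ (Set.range (tensL (J := Idx n 0) m)),
        inner ℂ h (A (ee (colS d m))) ≠ 0 := by
  classical
  -- the target set
  set Z : Fin m → Finset (Fin n) := fun a => if a ∈ G then ltF n (X a) else Jr a with hZ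
  have hZG : ∀ a ∈ G, Z a = ltF n (X a) := fun a ha => if_pos ha
  have hZR : ∀ a, a ∉ G → Z a = Jr a := fun a ha => if_neg ha
  set S0 : Finset (Idx n 0 × Fin m) := Finset.univ.biUnion (fun a => col (Z a) ∅ a) with hS0
  have hS0x : ∀ i c, (Idx.x i, c) ∈ S0 ↔ i ∈ Z c := by
    intro i c
    simp only [hS0, Finset.mem_biUnion, Finset.mem_univ, true_and, mem_col_x]
    constructor
    · rintro ⟨a, h, rfl⟩; exact h
    · intro h; exact ⟨c, h, rfl⟩
  have hS0y : ∀ i c, (Idx.y i, c) ∉ S0 := by
    intro i c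
    simp [hS0]
  have hrx : ∀ i, rc S0 (.x i) = lam i := by
    intro i
    rw [rc_eq, hlam i, ← Finset.card_union_of_disjoint]
    · congr 1
      ext a
      simp only [Finset.mem_filter, Finset.mem_univ, true_and, hS0x, Finset.mem_union]
      by_cases ha : a ∈ G
      · simp [ha, hZG a ha]
      · simp [ha, hZR a ha]
    · rw [Finset.disjoint_left]
      intro a h1 h2
      rw [Finset.mem_filter] at h1 h2
      exact h2.2.1 h1.1
  have hry : ∀ i, rc S0 (.y i) = 0 := by
    intro i
    rw [rc_eq, Finset.card_eq_zero, Finset.filter_eq_empty_iff]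
    intro c _
    exact hS0y i c
  obtain ⟨z, hz, hzS⟩ := bubble S0
  set z0 : Fock (Idx n 0 × Fin m) := ee (colS (rc S0) m) with hz0
  have hsub : ∀ A B : Matrix (Idx n 0) (Idx n 0) ℂ, tens m (A - B) = tens m A - tens m B :=
    fun A B => (tensL (J := Idx n 0) m).map_sub A B
  have hadd : ∀ A B : Matrix (Idx n 0) (Idx n 0) ℂ, tens m (A + B) = tens m A + tens m B :=
    fun A B => (tensL (J := Idx n 0) m).map_add A B
  have hdiag : ∀ j, tens m (EM j j) z0 = (rc S0 j : ℂ) • z0 := fun j => tens_diag _ j (rc_le S0 j)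
  -- highest weight equations
  have hzA : ∀ i i' : Fin n, i < i' → tens m (eA i i') z = 0 := by
    intro i i' hi
    rw [hz _ 0, zero_smul]
    rw [zero_smul, eA, hsub, LinearMap.sub_apply, tens_up, tens_up, sub_zero]
    · simp [hi.ne']
    · rw [hry, hry]
    · simp [hi.ne]
    · rw [hrx, hrx]; exact hanti hi.le
  have hzS' : ∀ i i' : Fin n, tens m (eS i i') z = 0 := by
    intro i i'
    rw [hz _ 0, zero_smul]
    rw [zero_smul, eS, hadd, LinearMap.add_apply, tens_up, tens_up, add_zero]
    · simp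
    · rw [hry]; exact Nat.zero_le _
    · simp
    · rw [hry]; exact Nat.zero_le _
  have hzH : ∀ i : Fin n, tens m (Hm i) z = (lam i : ℂ) • z := by
    intro i
    refine hz _ _ ?_
    rw [Hm, hsub, LinearMap.sub_apply, hdiag, hdiag, hrx, hry, Nat.cast_zero, zero_smul, sub_zero]
  have hzB : tens m (Bm n)ᴴ z = 0 := by
    rw [hz _ 0, zero_smul]
    rw [zero_smul, tens_formula, LinearMap.sum_apply]
    refine Finset.sum_eq_zero fun j _ => ?_
    rw [LinearMap.sum_apply]
    refine Finset.sum_eq_zero fun k _ => ?_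
    cases k with
    | x i =>
      rw [Matrix.conjTranspose_apply]
      simp [Bm]
    | y i =>
      rw [LinearMap.smul_apply, LinearMap.sum_apply, Finset.sum_eq_zero, smul_zero]
      intro a _
      rw [Module.End.mul_apply, hz0, an_ee, if_neg, map_zero]
      rw [mem_colS, hry]
      exact Nat.not_lt_zero _
    | z k => exact k.elim0
  -- the contraction
  set s : Fin m → ℕ := fun a => (p a - X a) / 2 + (Q a).card with hs
  set κ : Module.End ℂ (Fock (Idx n 0 × Fin m)) :=
    ((List.finRange m).map (fun a => if a ∈ G then Qsp a ^ s a else 1)).prod with hκdef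
  set T : Fin m → Module.End ℂ (Fock (Idx n 0 × Fin m)) :=
    fun a => if a ∈ G then pairOp (Ma n a) ^ s a else 1 with hT
  have hκ : ∀ Y ∈ gS n 0 (-1), κ * tens m Y = tens m Y * κ := by
    intro Y hY
    have : Commute (tens m Y) κ := by
      refine Commute.list_prod_right _ _ fun b hb => ?_
      rw [List.mem_map] at hb
      obtain ⟨a, _, rfl⟩ := hb
      split_ifs
      · exact ((show Commute (Qsp a) (tens m Y) from Qsp_comm a hY).symm).pow_right _
      · exact Commute.one_right _
    exact this.symm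
  set N : Module.End ℂ (Fock (Idx n 0 × Fin m)) := tens m (Bm n) with hN
  have hκE : κ * IsNilpotent.exp N = IsNilpotent.exp N * ((List.finRange m).map T).prod := by
    refine list_conj (fun a => ?_) _
    simp only [hT]
    split_ifs
    · exact Qsp_exp a (s a)
    · rw [one_mul, mul_one]
  refine ⟨LinearMap.adjoint κ z, ⟨fun i i' hi => ?_, fun i i' => ?_, fun i => ?_⟩,
    IsNilpotent.exp N, ?_, ?_⟩
  · have := adj_eig hκ (eA_mem (-1) (Or.inr rfl) i i') (z := z) (c := 0)
      (by rw [hzA i i' hi, zero_smul])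
    rw [this, zero_smul]
  · have := adj_eig hκ (eS_mem i i') (z := z) (c := 0) (by rw [hzS' i i', zero_smul])
    rw [this, zero_smul]
  · have := adj_eig hκ (Hm_mem (-1) (Or.inr rfl) i) (hzH i)
    rw [this]
    norm_cast
  · exact exp_mem _ (Algebra.subset_adjoin ⟨Bm n, rfl⟩) N_nilpotent
  · -- the matrix element
    have h1 := LinearMap.congr_fun hκE (ee (colS d m))
    simp only [Module.End.mul_apply] at h1
    rw [LinearMap.adjoint_inner_left, h1, exp_inner N_nilpotent]
    · -- only `S0` contributes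
      obtain ⟨hcol, hcol'⟩ : (∀ a ∈ G, (colS d m).filter (fun q => q.2 = a) =
          col (ltF n (p a) ∪ Q a) (Q a) a) ∧ (∀ a, a ∉ G → (colS d m).filter (fun q => q.2 = a) =
          col (Jr a) ∅ a) := by
        constructor
        · intro a ha
          refine ext_idx (fun i c => ?_) (fun i c => ?_)
          · simp only [Finset.mem_filter, mem_colS, mem_col_x, Finset.mem_union, mem_ltF]
            constructor
            · rintro ⟨h, rfl⟩; exact ⟨(hGx c ha i).1 h, rfl⟩
            · rintro ⟨h, rfl⟩; exact ⟨(hGx c ha i).2 h, rfl⟩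
          · simp only [Finset.mem_filter, mem_colS, mem_col_y]
            constructor
            · rintro ⟨h, rfl⟩; exact ⟨(hGy c ha i).1 h, rfl⟩
            · rintro ⟨h, rfl⟩; exact ⟨(hGy c ha i).2 h, rfl⟩
        · intro a ha
          refine ext_idx (fun i c => ?_) (fun i c => ?_)
          · simp only [Finset.mem_filter, mem_colS, mem_col_x]
            constructor
            · rintro ⟨h, rfl⟩; exact ⟨(hRx c ha i).1 h, rfl⟩
            · rintro ⟨h, rfl⟩; exact ⟨(hRx c ha i).2 h, rfl⟩
          · simp only [Finset.mem_filter, mem_colS, mem_col_y, Finset.notMem_empty, false_and,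
              iff_false]
            rintro ⟨h, rfl⟩
            exact hRy c ha i h
      have hloc : ∀ a, Loc Prod.snd a (T a) := by
        intro a
        simp only [hT]
        split_ifs
        · refine loc_pow (loc_pairOp ?_) _
          intro k l hkl
          unfold Ma at hkl
          by_contra hne
          exact hkl (if_neg hne)
        · exact Loc.one _ _
      have hfac : ∀ S' : Finset (Idx n 0 × Fin m), ∃ σ : ℂ, σ ≠ 0 ∧
          inner ℂ (ee S') (((List.finRange m).map T).prod (ee (colS d m))) =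
          σ * ((List.finRange m).map fun a => inner ℂ (ee (S'.filter (fun q => q.2 = a)))
            (T a (ee ((colS d m).filter (fun q => q.2 = a))))).prod := by
        intro S'
        obtain ⟨σ, hσ, h⟩ := loc_prod (Prod.snd : Idx n 0 × Fin m → Fin m) (List.finRange m)
          (List.nodup_finRange m) (fun k => List.mem_finRange _) (colS d m) S'
        exact ⟨σ, hσ, h T hloc⟩
      have hcard : ∀ a ∈ G, (col (ltF n (p a) ∪ Q a) (Q a) a).card = X a + 2 * s a := by
        intro a ha
        obtain ⟨h1, h2, h3, h4⟩ := hp a ha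
        rw [card_col, Finset.card_union_of_disjoint, card_ltF h2]
        · obtain ⟨t, ht⟩ := h3
          simp only [hs]
          omega
        · rw [Finset.disjoint_left]
          intro i h5 h6
          rw [mem_ltF] at h5
          exact absurd (h4 i h6) (not_le.2 h5)
      have hS0col : ∀ a, S0.filter (fun q => q.2 = a) = col (Z a) ∅ a := by
        intro a
        refine ext_idx (fun i c => ?_) (fun i c => ?_)
        · simp only [Finset.mem_filter, hS0x, mem_col_x]
          constructor
          · rintro ⟨h, rfl⟩; exact ⟨h, rfl⟩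
          · rintro ⟨h, rfl⟩; exact ⟨h, rfl⟩
        · simp only [Finset.mem_filter, mem_col_y, Finset.notMem_empty, false_and, iff_false]
          rintro ⟨h, _⟩
          exact hS0y i c h
      -- nonvanishing at `S0`
      have hne0 : inner ℂ (ee S0) (((List.finRange m).map T).prod (ee (colS d m))) ≠ 0 := by
        obtain ⟨σ, hσ, h⟩ := hfac S0
        rw [h]
        refine mul_ne_zero hσ (List.prod_ne_zero ?_)
        intro h0
        rw [List.mem_map] at h0
        obtain ⟨a, _, ha⟩ := h0
        rw [hS0col] at ha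
        by_cases haG : a ∈ G
        · obtain ⟨h1, h2, ⟨t, ht⟩, h4⟩ := hp a haG
          rw [hcol a haG, hZG a haG] at ha
          simp only [hT, if_pos haG] at ha
          have hst : s a = t + (Q a).card := by simp only [hs]; omega
          rw [hst] at ha
          exact col_ne a t (by omega) h2 (Q a) h4 ha
        · rw [hcol' a haG, hZR a haG] at ha
          simp only [hT, if_neg haG, Module.End.one_apply] at ha
          rw [inner_ee, if_pos rfl] at ha
          exact one_ne_zero ha
      -- uniqueness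
      have huniq : ∀ S' : Finset (Idx n 0 × Fin m), inner ℂ z (ee S') ≠ 0 →
          inner ℂ (ee S') (((List.finRange m).map T).prod (ee (colS d m))) ≠ 0 → S' = S0 := by
        intro S' hz' hS'
        have hrc : ∀ j, rc S' j = rc S0 j := fun j => rc_of_inner (hz _ _ (hdiag j)) hz'
        have hy' : ∀ i c, (Idx.y i, c) ∉ S' := by
          intro i c hic
          have h1 := hrc (.y i)
          rw [hry, rc_eq, Finset.card_eq_zero, Finset.filter_eq_empty_iff] at h1
          exact h1 (Finset.mem_univ c) hic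
        obtain ⟨σ, hσ, h⟩ := hfac S'
        rw [h] at hS'
        have hfactor : ∀ a, inner ℂ (ee (S'.filter (fun q => q.2 = a)))
            (T a (ee ((colS d m).filter (fun q => q.2 = a)))) ≠ 0 := by
          intro a h0
          apply right_ne_zero_of_mul hS'
          refine List.prod_eq_zero ?_
          rw [List.mem_map]
          exact ⟨a, List.mem_finRange a, h0⟩
        set Z' : Fin m → Finset (Fin n) := fun c => Finset.univ.filter (fun i => (Idx.x i, c) ∈ S')
          with hZ'
        have hS'col : ∀ a, S'.filter (fun q => q.2 = a) = col (Z' a) ∅ a := by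
          intro a
          refine ext_idx (fun i c => ?_) (fun i c => ?_)
          · simp only [Finset.mem_filter, hZ', mem_col_x, Finset.mem_univ, true_and]
            constructor
            · rintro ⟨h, rfl⟩; exact ⟨h, rfl⟩
            · rintro ⟨h, rfl⟩; exact ⟨h, rfl⟩
          · simp only [Finset.mem_filter, mem_col_y, Finset.notMem_empty, false_and, iff_false]
            rintro ⟨h, _⟩
            exact hy' i c h
        have hR' : ∀ a, a ∉ G → Z' a = Jr a := by
          intro a ha
          have h2 := hfactor a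
          rw [hcol' a ha, hS'col] at h2
          simp only [hT, if_neg ha, Module.End.one_apply] at h2
          rw [inner_ee] at h2
          have h3 : col (Z' a) ∅ a = col (Jr a) ∅ a := by
            by_contra h3
            exact h2 (if_neg h3)
          ext i
          have h4 := Finset.ext_iff.1 h3 (Idx.x i, a)
          simpa using h4
        have hG' : ∀ a ∈ G, Z' a = ltF n (X a) := by
          refine uniq G X Z' (fun a ha => ?_) (fun a ha => ?_) (fun i => ?_)
          · have h2 := hfactor a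
            rw [hcol a ha, hS'col] at h2
            simp only [hT, if_pos ha] at h2
            have h3 := card_pairOp h2
            rw [hcard a ha, card_col, Finset.card_empty] at h3
            omega
          · obtain ⟨h1, h2, _, _⟩ := hp a ha
            omega
          · have h2 := hrc (.x i)
            rw [hrx, hlam i, rc_eq] at h2
            have h3 : (Finset.univ.filter (fun c => (Idx.x i, c) ∈ S')) =
                G.filter (fun a => i ∈ Z' a) ∪
                  Finset.univ.filter (fun a => a ∉ G ∧ i ∈ Jr a) := by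
              ext a
              simp only [Finset.mem_filter, Finset.mem_univ, true_and, Finset.mem_union]
              have h4 : (Idx.x i, a) ∈ S' ↔ i ∈ Z' a := by simp [hZ']
              rw [h4]
              by_cases ha : a ∈ G
              · simp [ha]
              · simp [ha, hR' a ha]
            rw [h3, Finset.card_union_of_disjoint] at h2
            · omega
            · rw [Finset.disjoint_left]
              intro a h5 h6
              rw [Finset.mem_filter] at h5 h6
              exact h6.2.1 h5.1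
        refine ext_idx (fun i c => ?_) (fun i c => ?_)
        · have h4 : (Idx.x i, c) ∈ S' ↔ i ∈ Z' c := by simp [hZ']
          rw [h4, hS0x]
          by_cases hc : c ∈ G
          · rw [hG' c hc, hZG c hc]
          · rw [hR' c hc, hZR c hc]
        · exact ⟨fun h => absurd h (hy' i c), fun h => absurd h (hS0y i c)⟩
      rw [vec_expand (((List.finRange m).map T).prod (ee (colS d m))), inner_sum,
        Finset.sum_eq_single S0]
      · rw [inner_smul_right]
        exact mul_ne_zero hne0 hzS
      · intro S' _ hS'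
        rw [inner_smul_right]
        by_contra hne
        exact hS' (huniq S' (right_ne_zero_of_mul hne) (left_ne_zero_of_mul hne))
      · intro h; exact absurd (Finset.mem_univ _) h
    · intro w
      have h2 := tens_adj (m := m) (Bm n)ᴴ z w
      rw [Matrix.conjTranspose_conjTranspose, hzB, inner_zero_left] at h2
      exact h2.symm

end

end Kost
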