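import Pool.Agent.Kost.Transfer
import Pool.Agent.Kost.PairsA
import Pool.Agent.Kost.PairsS
import Pool.Agent.Kost.SpEval
import Pool.Agent.Kost.SoEval
import Pool.Agent.Kost.CertSo
import Pool.Agent.Kost.CertSp

/-! # Module B8 (MP_869ec4): highest weight vectors in `Λ(Λ² V)` and `Λ(S² V)` (assembly)

PROOF: `transfer` with `R₁ = RA` (resp. `RS`), `v₁ = ee (TA w)`, `R₂ = tensL m`, `v₂ = ee (colS d m)`,
`d = degA w` (`degS w`), `m = 2n+b` (`2n+1`), `μ = d`; for `j ≠ k` one of `w j ≤ w k`, `w k ≤ w j`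
holds and implies the corresponding inequality of the degrees.  Then `so_eval`/`sp_eval` with
`so_cert`/`sp_cert`.
-/

open Module Matrix

namespace Kost

noncomputable section

theorem degA_mono {J : Type*} [Fintype J] [DecidableEq J] (w : J → ℤ) {j k : J} (h : w k ≤ w j) :
    degA w k ≤ degA w j := by
  unfold degA
  refine Finset.card_le_card_of_injOn (Equiv.swap j k) ?_ (Equiv.injective _).injOn
  intro l hl
  simp only [Finset.coe_filter, Finset.mem_univ, true_and, Set.mem_ofPred_eq] at hl ⊢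
  obtain ⟨h1, h2⟩ := hl
  by_cases hlj : l = j
  · subst hlj
    rw [Equiv.swap_apply_left]
    exact ⟨fun h3 => h1 h3.symm, by linarith⟩
  · rw [Equiv.swap_apply_of_ne_of_ne hlj h1]
    exact ⟨hlj, by linarith⟩

theorem degS_mono {J : Type*} [Fintype J] [DecidableEq J] (w : J → ℤ) {j k : J} (h : w k ≤ w j) :
    degS w k ≤ degS w j := by
  unfold degS
  have h1 := degA_mono w h
  split_ifs with h2 h3
  · omega
  · omega
  · omega
  · omega

theorem RA_transfer {J : Type*} [Fintype J] [LinearOrder J] (inst : DecidableEq J) (m : ℕ)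
    (w : J → ℤ) (hd : ∀ j, @degA J _ inst w j ≤ m) {h : Fock (J × Fin m)}
    {A : Module.End ℂ (Fock (J × Fin m))}
    (hA : A ∈ Algebra.adjoin ℂ (Set.range (@tensL J _ inst m)))
    (hne : inner ℂ h (A (ee (colS (@degA J _ inst w) m))) ≠ 0) :
    ∃ h' : Fock (K2 J), h' ≠ 0 ∧
      ∀ (X : Matrix J J ℂ) (c : ℂ), @tensL J _ inst m X h = c • h → RA X h' = c • h' := by
  obtain rfl : inst = LinearOrder.toDecidableEq := Subsingleton.elim _ _
  have h1 := fun j : J => RA_diag w j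
  have h2 : ∀ j : J, tens m (EM j j) (ee (colS (degA w) m)) =
      (degA w j : ℂ) • ee (colS (degA w) m) := fun j => tens_diag (m := m) (degA w) j (hd j)
  refine transfer (RA : Matrix J J ℂ →ₗ[ℂ] Module.End ℂ (Fock (K2 J))) (tensL (J := J) m)
    RA_lie (tens_lie (m := m)) RA_adj (tens_adj (m := m)) (v₁ := ee (TA w))
    (v₂ := ee (colS (degA w) m)) (ee_ne_zero _) (ee_ne_zero _) (μ := fun j => (degA w j : ℂ))
    h1 h2 ?_ (h := h) (a := A) hA hne
  intro j k hjk
  rcases le_total (w k) (w j) with h1 | h1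
  · exact Or.inl ⟨RA_up w hjk h1, tens_up _ hjk (degA_mono w h1)⟩
  · exact Or.inr ⟨RA_up w hjk.symm h1, tens_up _ hjk.symm (degA_mono w h1)⟩

theorem RS_transfer {J : Type*} [Fintype J] [LinearOrder J] (inst : DecidableEq J) (m : ℕ)
    (w : J → ℤ) (hd : ∀ j, @degS J _ inst w j ≤ m) {h : Fock (J × Fin m)}
    {A : Module.End ℂ (Fock (J × Fin m))}
    (hA : A ∈ Algebra.adjoin ℂ (Set.range (@tensL J _ inst m)))
    (hne : inner ℂ h (A (ee (colS (@degS J _ inst w) m))) ≠ 0) :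
    ∃ h' : Fock (K2' J), h' ≠ 0 ∧
      ∀ (X : Matrix J J ℂ) (c : ℂ), @tensL J _ inst m X h = c • h → RS X h' = c • h' := by
  obtain rfl : inst = LinearOrder.toDecidableEq := Subsingleton.elim _ _
  have h1 := fun j : J => RS_diag w j
  have h2 : ∀ j : J, tens m (EM j j) (ee (colS (degS w) m)) =
      (degS w j : ℂ) • ee (colS (degS w) m) := fun j => tens_diag (m := m) (degS w) j (hd j)
  refine transfer (RS : Matrix J J ℂ →ₗ[ℂ] Module.End ℂ (Fock (K2' J))) (tensL (J := J) m)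
    RS_lie (tens_lie (m := m)) RS_adj (tens_adj (m := m)) (v₁ := ee (TS w))
    (v₂ := ee (colS (degS w) m)) (ee_ne_zero _) (ee_ne_zero _) (μ := fun j => (degS w j : ℂ))
    h1 h2 ?_ (h := h) (a := A) hA hne
  intro j k hjk
  rcases le_total (w k) (w j) with h1 | h1
  · exact Or.inl ⟨RS_up w hjk h1, tens_up _ hjk (degS_mono w h1)⟩
  · exact Or.inr ⟨RS_up w hjk.symm h1, tens_up _ hjk.symm (degS_mono w h1)⟩

theorem card_Idx_le (n b : ℕ) : Fintype.card (Idx n b) ≤ 2 * n + b := by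
  have h1 : ∀ j : Idx n b, Idx.rk j < 2 * n + b := by
    intro j
    cases j <;> simp only [Idx.rk] <;> omega
  have h2 := Fintype.card_le_of_injective (fun j : Idx n b => (⟨Idx.rk j, h1 j⟩ : Fin (2 * n + b)))
    (fun j k hjk => Idx.rk_inj (by simpa using hjk))
  rwa [Fintype.card_fin] at h2

theorem so_exists {n b : ℕ} (hb : b ≤ 1) (lam : Fin n → ℕ) (hanti : Antitone lam)
    (hsum : ∀ k : ℕ, k ≤ n → ∑ i ∈ Finset.univ.filter (fun i : Fin n => (i : ℕ) < k), (lam i : ℤ) ≤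
      k * (2 * n + b - 1 - k))
    (hpar : b = 0 → Even (∑ i, lam i)) :
    ∃ x : Fock (K2 (Idx n b)), x ≠ 0 ∧ SoHW RA x (fun i => (lam i : ℤ)) := by
  obtain ⟨w, δ, h1, h2, h3⟩ := so_cert hb lam hanti hsum hpar
  have hd : ∀ j, degA w j ≤ 2 * n + b := fun j =>
    (Finset.card_le_univ _).trans (card_Idx_le n b)
  obtain ⟨h, hSo, A, hA, hne⟩ := so_eval hb lam hanti (degA w) hd δ h1 h2 h3
  obtain ⟨h', h0, htr⟩ := RA_transfer _ (2 * n + b) w hd hA hne
  refine ⟨h', h0, ?_, ?_, ?_, ?_⟩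
  · intro i i' hi
    have := htr (eA i i') 0 (by rw [zero_smul]; exact hSo.1 i i' hi)
    rwa [zero_smul] at this
  · intro i i'
    have := htr (eB i i') 0 (by rw [zero_smul]; exact hSo.2.1 i i')
    rwa [zero_smul] at this
  · intro i k
    have := htr (eC i k) 0 (by rw [zero_smul]; exact hSo.2.2.1 i k)
    rwa [zero_smul] at this
  · intro i
    exact htr (Hm i) _ (hSo.2.2.2 i)

theorem sp_exists {n : ℕ} (lam : Fin n → ℕ) (hanti : Antitone lam)
    (hsum : ∀ k : ℕ, k ≤ n → ∑ i ∈ Finset.univ.filter (fun i : Fin n => (i : ℕ) < k), (lam i : ℤ) ≤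
      k * (2 * n + 1 - k))
    (hpar : Even (∑ i, lam i)) :
    ∃ x : Fock (K2' (Idx n 0)), x ≠ 0 ∧ SpHW RS x (fun i => (lam i : ℤ)) := by
  obtain ⟨w, G, p, X, Q, Jr, hd, hp, hGx, hGy, hRx, hRy, hlam⟩ := sp_cert lam hanti hsum hpar
  obtain ⟨h, hSp, A, hA, hne⟩ := sp_eval lam hanti (degS w) hd G p X Q Jr hp hGx hGy hRx hRy hlam
  obtain ⟨h', h0, htr⟩ := RS_transfer _ (2 * n + 1) w hd hA hne
  refine ⟨h', h0, ?_, ?_, ?_⟩
  · intro i i' hi
    have := htr (eA i i') 0 (by rw [zero_smul]; exact hSp.1 i i' hi)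
    rwa [zero_smul] at this
  · intro i i'
    have := htr (eS i i') 0 (by rw [zero_smul]; exact hSp.2.1 i i')
    rwa [zero_smul] at this
  · intro i
    exact htr (Hm i) _ (hSp.2.2 i)

end

end Kost
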