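import Pool.Agent.Kost.KPropSpin
import Pool.Agent.Kost.CDtypes
import Pool.Agent.Kost.Exist

/-!
# Coordinates: from `lam + A c = 2` to partial sums; Kostant's property for types B, C, D
(MP_869ec4)
-/

open Module Matrix

attribute [local instance 100] LieRing.ofAssociativeRing

namespace Kost.QDt

noncomputable section

variable {n : ℕ}

/-- partial sums over `Fin n` -/
theorem sum_fin_lt (F : ℕ → ℤ) {k : ℕ} (hk : k ≤ n) :
    ∑ i ∈ Finset.univ.filter (fun i : Fin n => (i : ℕ) < k), F i = ∑ i ∈ Finset.range k, F i := by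
  refine Finset.sum_bij' (fun i _ => (i : ℕ)) (fun i hi => ⟨i, by
    rw [Finset.mem_range] at hi; omega⟩) ?_ ?_ ?_ ?_ ?_
  · intro i hi; simpa using hi
  · intro i hi
    rw [Finset.mem_range] at hi
    simpa using hi
  · intro i _; rfl
  · intro i _; rfl
  · intro i _; rfl

/-- `lam` expressed through the coordinates `F` and the coroot coefficients -/
theorem lam_eq {A : Matrix (Fin n) (Fin n) ℤ} {c1 d1 a1 e1 : ℕ → ℝ}
    (hA : ∀ i j : Fin n, (A i j : ℝ) = ∑ k : Fin n, bd c1 d1 i k * bd a1 e1 j k)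
    {rh : ℕ → ℝ} (hrh : ∀ i : Fin n, ∑ k : Fin n, bd c1 d1 i k * rh k = 1)
    {lam c : Fin n → ℕ} (h : ∀ i, (lam i : ℤ) + ∑ j, A i j * c j = 2)
    {F : ℕ → ℝ} (hF : ∀ k : Fin n, F k = 2 * rh k - ∑ j : Fin n, (c j : ℝ) * bd a1 e1 j k)
    (i : Fin n) : (lam i : ℝ) = ∑ k : Fin n, bd c1 d1 i k * F k := by
  have h1 : (lam i : ℝ) + ∑ j, (A i j : ℝ) * (c j : ℝ) = 2 := by exact_mod_cast h i
  have h2 : ∑ j, (A i j : ℝ) * (c j : ℝ) =
      ∑ k : Fin n, bd c1 d1 i k * ∑ j : Fin n, (c j : ℝ) * bd a1 e1 j k := by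
    simp only [hA, Finset.sum_mul, Finset.mul_sum]
    rw [Finset.sum_comm]
    exact Finset.sum_congr rfl fun k _ => Finset.sum_congr rfl fun j _ => by ring
  have h3 : ∑ k : Fin n, bd c1 d1 i k * F k = 2 * ∑ k : Fin n, bd c1 d1 i k * rh k -
      ∑ k : Fin n, bd c1 d1 i k * ∑ j : Fin n, (c j : ℝ) * bd a1 e1 j k := by
    rw [Finset.mul_sum, ← Finset.sum_sub_distrib]
    refine Finset.sum_congr rfl fun k _ => ?_
    rw [hF]; ring
  rw [h3, hrh, ← h2]; linarith

/-- extension by zero -/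
def ext0 (c : Fin n → ℕ) (k : ℕ) : ℤ := if h : k < n then (c ⟨k, h⟩ : ℤ) else 0

theorem ext0_val (c : Fin n → ℕ) (k : Fin n) : ext0 c k = c k := by
  rw [ext0, dif_pos k.2]

theorem ext0_nonneg (c : Fin n → ℕ) (k : ℕ) : 0 ≤ ext0 c k := by
  unfold ext0; split_ifs
  · exact Int.natCast_nonneg _
  · exact le_refl _

/-! ### type B -/

/-- coordinates of the weight, type B -/
def coB (c : Fin n → ℕ) (k : ℕ) : ℤ :=
  2 * (n - 1 - k) + 1 - (ext0 c k - if 1 ≤ k then ext0 c (k - 1) else 0)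

theorem coB_eq (c : Fin n → ℕ) (k : Fin n) : ((coB c k : ℤ) : ℝ) =
    2 * ((n : ℝ) - 1 - (k : ℕ) + 1 / 2) -
      ∑ j : Fin n, (c j : ℝ) * bd (fun _ => 1) (fun _ => 0) j k := by
  have h1 : ∀ j : Fin n, (c j : ℝ) * bd (fun _ => 1) (fun _ => 0) j k =
      (ext0 c j : ℝ) * bd (fun _ => 1) (fun _ => 0) j k := by
    intro j; rw [ext0_val]; push_cast; rfl
  simp only [h1]
  rw [sum_bd' (fun _ => 1) (fun _ => 0) (fun j => (ext0 c j : ℝ)) k.2, coB]
  split_ifs <;> push_cast <;> ring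

theorem coB_sum (c : Fin n → ℕ) (k : ℕ) : ∑ i ∈ Finset.range k, coB c i =
    k * (2 * n - k) - if 1 ≤ k then ext0 c (k - 1) else 0 := by
  induction k with
  | zero => simp
  | succ k ih =>
    rw [Finset.sum_range_succ, ih, coB, if_pos (by omega : 1 ≤ k + 1), Nat.add_sub_cancel]
    split_ifs <;> push_cast <;> ring

theorem rhB (i : Fin n) : ∑ k : Fin n, bd (lc n) (fun _ => 0) i k * ((n : ℝ) - 1 - (k : ℕ) + 1 / 2) =
    1 := by
  rw [sum_bd (lc n) (fun _ => 0) (fun k => (n : ℝ) - 1 - (k : ℕ) + 1 / 2) i.2]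
  have hi := i.2
  by_cases h1 : (i : ℕ) + 1 = n
  · have h2 : ((i : ℕ) : ℝ) + 1 = n := by exact_mod_cast h1
    rw [if_neg (by omega), lc, if_pos h1]
    simp only [zero_mul, ite_self]
    rw [← h2]; ring
  · rw [if_pos (by omega), lc, if_neg h1]
    simp only [zero_mul, ite_self]
    push_cast; ring

theorem antitone_of_succ {F : ℕ → ℤ} (h : ∀ i : ℕ, i + 1 < n → F (i + 1) ≤ F i) {i j : ℕ}
    (hij : i ≤ j) (hj : j < n) : F j ≤ F i := by
  induction j, hij using Nat.le_induction with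
  | base => exact le_refl _
  | succ j _ ih => exact (h j hj).trans (ih (by omega))

theorem kprop_B.{u} (n : ℕ) : KProp.{u} ((CartanMatrix.B n)ᵀ) := by
  refine kprop_of_vectors (CDB n) CDB_rho ?_
  intro lam c hc
  have hlam : ∀ i : Fin n, (lam i : ℝ) =
      ∑ k : Fin n, bd (lc n) (fun _ => 0) i k * ((coB c k : ℤ) : ℝ) := by
    intro i
    exact lam_eq (F := fun k => ((coB c k : ℤ) : ℝ)) (rh := fun k => (n : ℝ) - 1 - k + 1 / 2)
      cartanB_eq rhB hc (coB_eq c) i
  have hstep : ∀ i : ℕ, i + 1 < n → coB c (i + 1) ≤ coB c i := by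
    intro i hi
    have h1 := hlam ⟨i, by omega⟩
    rw [sum_bd (lc n) (fun _ => 0) (fun k => ((coB c k : ℤ) : ℝ)) (by simp; omega)] at h1
    simp only at h1
    rw [if_pos hi, lc, if_neg (by omega)] at h1
    simp only [zero_mul, ite_self, one_mul, add_zero] at h1
    have h2 : (0 : ℝ) ≤ (lam ⟨i, by omega⟩ : ℝ) := Nat.cast_nonneg _
    have h3 : ((coB c (i + 1) : ℤ) : ℝ) ≤ ((coB c i : ℤ) : ℝ) := by linarith
    exact_mod_cast h3
  have hlast : ∀ i : ℕ, i + 1 = n → 0 ≤ coB c i := by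
    intro i hi
    have h1 := hlam ⟨i, by omega⟩
    rw [sum_bd (lc n) (fun _ => 0) (fun k => ((coB c k : ℤ) : ℝ)) (by simp; omega)] at h1
    simp only at h1
    rw [if_neg (by omega), lc, if_pos hi] at h1
    simp only [zero_mul, ite_self, add_zero, sub_zero] at h1
    have h2 : (0 : ℝ) ≤ (lam ⟨i, by omega⟩ : ℝ) := Nat.cast_nonneg _
    have h3 : (0 : ℝ) ≤ ((coB c i : ℤ) : ℝ) := by linarith
    exact_mod_cast h3
  have hpos : ∀ i : ℕ, i < n → 0 ≤ coB c i := by
    intro i hi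
    refine (hlast (n - 1) (by omega)).trans (antitone_of_succ hstep (by omega) (by omega))
  have htoNat : ∀ i : Fin n, (((coB c i).toNat : ℕ) : ℤ) = coB c i :=
    fun i => Int.toNat_of_nonneg (hpos i i.2)
  obtain ⟨x, hx, hA, hB, hC, hH⟩ := so_exists (b := 1) le_rfl
    (fun i : Fin n => (coB c i).toNat)
    (by
      intro i j hij
      have := antitone_of_succ hstep (i := i) (j := j) hij j.2
      exact Int.toNat_le_toNat this)
    (by
      intro k hk
      simp only [htoNat]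
      rw [sum_fin_lt (coB c) hk, coB_sum]
      have : 0 ≤ if 1 ≤ k then ext0 c (k - 1) else 0 := by
        split_ifs
        · exact ext0_nonneg _ _
        · exact le_refl _
      push_cast
      nlinarith)
    (by intro h; exact absurd h one_ne_zero)
  have hH' : ∀ i : Fin n, RA (Hm i : Matrix (Idx n 1) (Idx n 1) ℂ) x =
      ((coB c i : ℤ) : ℂ) • x := by
    intro i
    rw [hH i]; simp only [htoNat]
  refine ⟨x, hx, ?_, ?_⟩
  · intro i
    rw [adF_so]
    change RA (eBm i) x = 0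
    unfold eBm
    split_ifs with h
    · exact hA _ _ (by rw [Fin.lt_def]; simp)
    · rw [map_smul, LinearMap.smul_apply, hC, smul_zero]
  · intro i
    rw [adF_so]
    have hh : (((CDB n).h i : gS n 1 1) : Matrix _ _ ℂ) =
        ∑ k : Fin n, (bd (lc n) (fun _ => 0) i k : ℂ) • (Hm k : Matrix (Idx n 1) (Idx n 1) ℂ) :=
      coe_sum_H (fun k : Fin n => (bd (lc n) (fun _ => 0) i k : ℂ))
    rw [hh, map_sum, LinearMap.sum_apply]
    have h1 : ∀ k : Fin n, RA ((bd (lc n) (fun _ => 0) i k : ℂ) •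
        (Hm k : Matrix (Idx n 1) (Idx n 1) ℂ)) x =
        ((bd (lc n) (fun _ => 0) i k * ((coB c k : ℤ) : ℝ) : ℝ) : ℂ) • x := by
      intro k
      rw [map_smul, LinearMap.smul_apply, hH', smul_smul]
      push_cast; rfl
    simp only [h1]
    rw [← Finset.sum_smul]
    congr 1
    rw [← Complex.ofReal_sum, ← hlam i]
    push_cast; rfl

/-! ### type C -/

/-- coordinates of the weight, type C -/
def coC (c : Fin n → ℕ) (k : ℕ) : ℤ :=
  2 * (n - k) - ((if k + 1 = n then 2 else 1) * ext0 c k - if 1 ≤ k then ext0 c (k - 1) else 0)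

theorem coC_eq (c : Fin n → ℕ) (k : Fin n) : ((coC c k : ℤ) : ℝ) =
    2 * ((n : ℝ) - (k : ℕ)) - ∑ j : Fin n, (c j : ℝ) * bd (lc n) (fun _ => 0) j k := by
  have h1 : ∀ j : Fin n, (c j : ℝ) * bd (lc n) (fun _ => 0) j k =
      (ext0 c j : ℝ) * bd (lc n) (fun _ => 0) j k := by
    intro j; rw [ext0_val]; push_cast; rfl
  simp only [h1]
  rw [sum_bd' (lc n) (fun _ => 0) (fun j => (ext0 c j : ℝ)) k.2, coC, lc]
  split_ifs <;> push_cast <;> ring

theorem coC_sum (c : Fin n → ℕ) (k : ℕ) (hk : k < n) : ∑ i ∈ Finset.range k, coC c i =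
    k * (2 * n + 1 - k) - if 1 ≤ k then ext0 c (k - 1) else 0 := by
  induction k with
  | zero => simp
  | succ k ih =>
    rw [Finset.sum_range_succ, ih (by omega), coC, if_neg (by omega : ¬ k + 1 = n),
      if_pos (by omega : 1 ≤ k + 1), Nat.add_sub_cancel]
    split_ifs <;> push_cast <;> ring

theorem coC_sum_n (c : Fin n → ℕ) : ∑ i ∈ Finset.range n, coC c i =
    n * (n + 1) - 2 * if 1 ≤ n then ext0 c (n - 1) else 0 := by
  rcases Nat.eq_zero_or_pos n with h | h
  · subst h; simp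
  · obtain ⟨m, rfl⟩ : ∃ m, n = m + 1 := ⟨n - 1, by omega⟩
    rw [Finset.sum_range_succ, coC_sum c m (by omega), coC, if_pos rfl,
      if_pos (by omega : 1 ≤ m + 1), Nat.add_sub_cancel]
    split_ifs <;> push_cast <;> ring

theorem rhC (i : Fin n) : ∑ k : Fin n, bd (fun _ => 1) (fun _ => 0) i k * ((n : ℝ) - (k : ℕ)) =
    1 := by
  rw [sum_bd (fun _ => 1) (fun _ => 0) (fun k => (n : ℝ) - (k : ℕ)) i.2]
  have hi := i.2
  by_cases h1 : (i : ℕ) + 1 = n
  · have h2 : ((i : ℕ) : ℝ) + 1 = n := by exact_mod_cast h1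
    rw [if_neg (by omega)]
    simp only [zero_mul, ite_self]
    rw [← h2]; ring
  · rw [if_pos (by omega)]
    simp only [zero_mul, ite_self]
    push_cast; ring

theorem kprop_C.{u} (n : ℕ) : KProp.{u} ((CartanMatrix.C n)ᵀ) := by
  refine kprop_of_vectors (CDC n) CDC_rho ?_
  intro lam c hc
  have hlam : ∀ i : Fin n, (lam i : ℝ) =
      ∑ k : Fin n, bd (fun _ => 1) (fun _ => 0) i k * ((coC c k : ℤ) : ℝ) := by
    intro i
    exact lam_eq (F := fun k => ((coC c k : ℤ) : ℝ)) (rh := fun k => (n : ℝ) - k)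
      cartanC_eq rhC hc (coC_eq c) i
  have hstep : ∀ i : ℕ, i + 1 < n → coC c (i + 1) ≤ coC c i := by
    intro i hi
    have h1 := hlam ⟨i, by omega⟩
    rw [sum_bd (fun _ => 1) (fun _ => 0) (fun k => ((coC c k : ℤ) : ℝ)) (by simp; omega)] at h1
    simp only at h1
    rw [if_pos hi] at h1
    simp only [zero_mul, ite_self, one_mul, add_zero] at h1
    have h2 : (0 : ℝ) ≤ (lam ⟨i, by omega⟩ : ℝ) := Nat.cast_nonneg _
    have h3 : ((coC c (i + 1) : ℤ) : ℝ) ≤ ((coC c i : ℤ) : ℝ) := by linarith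
    exact_mod_cast h3
  have hlast : ∀ i : ℕ, i + 1 = n → 0 ≤ coC c i := by
    intro i hi
    have h1 := hlam ⟨i, by omega⟩
    rw [sum_bd (fun _ => 1) (fun _ => 0) (fun k => ((coC c k : ℤ) : ℝ)) (by simp; omega)] at h1
    simp only at h1
    rw [if_neg (by omega)] at h1
    simp only [zero_mul, ite_self, add_zero, sub_zero, one_mul] at h1
    have h2 : (0 : ℝ) ≤ (lam ⟨i, by omega⟩ : ℝ) := Nat.cast_nonneg _
    have h3 : (0 : ℝ) ≤ ((coC c i : ℤ) : ℝ) := by linarith
    exact_mod_cast h3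
  have hpos : ∀ i : ℕ, i < n → 0 ≤ coC c i := by
    intro i hi
    refine (hlast (n - 1) (by omega)).trans (antitone_of_succ hstep (by omega) (by omega))
  have htoNat : ∀ i : Fin n, (((coC c i).toNat : ℕ) : ℤ) = coC c i :=
    fun i => Int.toNat_of_nonneg (hpos i i.2)
  obtain ⟨x, hx, hA, hS, hH⟩ := sp_exists (fun i : Fin n => (coC c i).toNat)
    (by
      intro i j hij
      have := antitone_of_succ hstep (i := i) (j := j) hij j.2
      exact Int.toNat_le_toNat this)
    (by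
      intro k hk
      simp only [htoNat]
      rw [sum_fin_lt (coC c) hk]
      rcases hk.lt_or_eq with hk' | hk'
      · rw [coC_sum c k hk']
        have : 0 ≤ if 1 ≤ k then ext0 c (k - 1) else 0 := by
          split_ifs
          · exact ext0_nonneg _ _
          · exact le_refl _
        linarith
      · subst hk'
        rw [coC_sum_n]
        have : 0 ≤ if 1 ≤ k then ext0 c (k - 1) else 0 := by
          split_ifs
          · exact ext0_nonneg _ _
          · exact le_refl _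
        nlinarith)
    (by
      have h1 : ((∑ i : Fin n, (coC c i).toNat : ℕ) : ℤ) = ∑ i ∈ Finset.range n, coC c i := by
        rw [← sum_fin_lt (coC c) le_rfl]
        push_cast
        simp only [Int.natCast_toNat_eq_self.2 (hpos _ (Fin.is_lt _))]
        refine Finset.sum_congr ?_ fun i _ => rfl
        ext i; simp
      rw [← Int.even_coe_nat, h1, coC_sum_n]
      exact (Int.even_mul_succ_self n).sub (even_two_mul _))
  have hH' : ∀ i : Fin n, RS (Hm i : Matrix (Idx n 0) (Idx n 0) ℂ) x =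
      ((coC c i : ℤ) : ℂ) • x := by
    intro i
    rw [hH i]; simp only [htoNat]
  refine ⟨x, hx, ?_, ?_⟩
  · intro i
    rw [adF_sp]
    change RS (eCm i) x = 0
    unfold eCm
    split_ifs with h
    · exact hA _ _ (by rw [Fin.lt_def]; simp)
    · have h1 := hS i i
      have h2 : (eS i i : Matrix (Idx n 0) (Idx n 0) ℂ) = (2 : ℂ) • EM (.x i) (.y i) := by
        rw [eS, two_smul]
      rw [h2, map_smul, LinearMap.smul_apply] at h1
      exact (smul_eq_zero.1 h1).resolve_left two_ne_zero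
  · intro i
    rw [adF_sp]
    have hh : (((CDC n).h i : gS n 0 (-1)) : Matrix _ _ ℂ) =
        ∑ k : Fin n, (bd (fun _ => 1) (fun _ => 0) i k : ℂ) •
          (Hm k : Matrix (Idx n 0) (Idx n 0) ℂ) :=
      coe_sum_H (fun k : Fin n => (bd (fun _ => 1) (fun _ => 0) i k : ℂ))
    rw [hh, map_sum, LinearMap.sum_apply]
    have h1 : ∀ k : Fin n, RS ((bd (fun _ => 1) (fun _ => 0) i k : ℂ) •
        (Hm k : Matrix (Idx n 0) (Idx n 0) ℂ)) x =
        ((bd (fun _ => 1) (fun _ => 0) i k * ((coC c k : ℤ) : ℝ) : ℝ) : ℂ) • x := by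
      intro k
      rw [map_smul, LinearMap.smul_apply, hH', smul_smul]
      push_cast; rfl
    simp only [h1]
    rw [← Finset.sum_smul]
    congr 1
    rw [← Complex.ofReal_sum, ← hlam i]
    push_cast; rfl

/-! ### type D -/

/-- coordinates of the weight, type D -/
def coD (c : Fin n → ℕ) (k : ℕ) : ℤ :=
  2 * (n - 1 - k) - (ext0 c k - (if 1 ≤ k then ext0 c (k - 1) else 0) +
    if k + 2 = n then ext0 c (k + 1) else 0)

theorem coD_eq (c : Fin n → ℕ) (k : Fin n) : ((coD c k : ℤ) : ℝ) =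
    2 * ((n : ℝ) - 1 - (k : ℕ)) - ∑ j : Fin n, (c j : ℝ) * bd (fun _ => 1) (ld n) j k := by
  have h1 : ∀ j : Fin n, (c j : ℝ) * bd (fun _ => 1) (ld n) j k =
      (ext0 c j : ℝ) * bd (fun _ => 1) (ld n) j k := by
    intro j; rw [ext0_val]; push_cast; rfl
  simp only [h1]
  rw [sum_bd' (fun _ => 1) (ld n) (fun j => (ext0 c j : ℝ)) k.2, coD, ld]
  by_cases h2 : (k : ℕ) + 2 = n
  · rw [if_pos h2, if_pos (by omega : (k : ℕ) + 1 < n), if_pos (by omega : (k : ℕ) + 1 + 1 = n)]
    split_ifs <;> push_cast <;> ring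
  · rw [if_neg h2, if_neg (by omega : ¬ (k : ℕ) + 1 + 1 = n)]
    split_ifs <;> push_cast <;> ring

theorem coD_sum (c : Fin n → ℕ) (k : ℕ) (hk : k + 1 < n) : ∑ i ∈ Finset.range k, coD c i =
    k * (2 * n - 1 - k) - if 1 ≤ k then ext0 c (k - 1) else 0 := by
  induction k with
  | zero => simp
  | succ k ih =>
    rw [Finset.sum_range_succ, ih (by omega), coD, if_neg (by omega : ¬ k + 2 = n),
      if_pos (by omega : 1 ≤ k + 1), Nat.add_sub_cancel]
    split_ifs <;> push_cast <;> ring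

theorem coD_sum_n1 (hn : 2 ≤ n) (c : Fin n → ℕ) : ∑ i ∈ Finset.range (n - 1), coD c i =
    (n - 1) * n - ext0 c (n - 2) - ext0 c (n - 1) := by
  obtain ⟨m, rfl⟩ : ∃ m, n = m + 2 := ⟨n - 2, by omega⟩
  rw [show m + 2 - 1 = m + 1 by omega, Finset.sum_range_succ, coD_sum c m (by omega), coD,
    if_pos rfl, show m + 2 - 2 = m by omega]
  split_ifs <;> push_cast <;> ring

theorem coD_sum_n (hn : 2 ≤ n) (c : Fin n → ℕ) : ∑ i ∈ Finset.range n, coD c i =
    n * (n - 1) - 2 * ext0 c (n - 1) := by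
  have h := coD_sum_n1 hn c
  obtain ⟨m, rfl⟩ : ∃ m, n = m + 2 := ⟨n - 2, by omega⟩
  rw [show m + 2 - 1 = m + 1 by omega, show m + 2 - 2 = m by omega] at h
  rw [Finset.sum_range_succ, h, coD, if_neg (by omega : ¬ m + 1 + 2 = m + 2),
    if_pos (by omega : 1 ≤ m + 1), Nat.add_sub_cancel, show m + 2 - 1 = m + 1 by omega]
  push_cast; ring

theorem rhD (hn : 2 ≤ n) (i : Fin n) :
    ∑ k : Fin n, bd (fun _ => 1) (ld n) i k * ((n : ℝ) - 1 - (k : ℕ)) = 1 := by
  rw [sum_bd (fun _ => 1) (ld n) (fun k => (n : ℝ) - 1 - (k : ℕ)) i.2]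
  have hi := i.2
  by_cases h1 : (i : ℕ) + 1 = n
  · have h2 : ((i : ℕ) : ℝ) + 1 = n := by exact_mod_cast h1
    rw [if_neg (by omega), ld, if_pos h1, if_pos (by omega), Nat.cast_sub (by omega), ← h2]
    push_cast; ring
  · rw [if_pos (by omega), ld, if_neg h1]
    simp only [zero_mul, ite_self]
    push_cast; ring

/-- the highest weight vectors for type D, nonnegative last coordinate -/
theorem vec_D (hn : 2 ≤ n) (lam c : Fin n → ℕ)
    (hc : ∀ i, (lam i : ℤ) + ∑ j, (CartanMatrix.D n)ᵀ i j * c j = 2)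
    (hlast : lam ⟨n - 2, by omega⟩ ≤ lam ⟨n - 1, by omega⟩) :
    ∃ x : Fock (K2 (Idx n 0)), x ≠ 0 ∧ (∀ i, (QDso n 0).adF ((CDD n hn).e i) x = 0) ∧
      ∀ i, (QDso n 0).adF ((CDD n hn).h i) x = (lam i : ℂ) • x := by
  have hlam : ∀ i : Fin n, (lam i : ℝ) =
      ∑ k : Fin n, bd (fun _ => 1) (ld n) i k * ((coD c k : ℤ) : ℝ) := by
    intro i
    exact lam_eq (F := fun k => ((coD c k : ℤ) : ℝ)) (rh := fun k => (n : ℝ) - 1 - k)
      (cartanD_eq hn) (rhD hn) hc (coD_eq c) i
  have hval : ∀ i : ℕ, (hi : i + 1 < n) → (lam ⟨i, by omega⟩ : ℤ) = coD c i - coD c (i + 1) := by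
    intro i hi
    have h1 := hlam ⟨i, by omega⟩
    rw [sum_bd (fun _ => 1) (ld n) (fun k => ((coD c k : ℤ) : ℝ)) (by simp; omega)] at h1
    simp only at h1
    rw [if_pos hi, ld, if_neg (by omega : ¬ i + 1 = n)] at h1
    simp only [zero_mul, ite_self, one_mul, add_zero] at h1
    exact_mod_cast h1
  have hvall : (lam ⟨n - 1, by omega⟩ : ℤ) = coD c (n - 1) + coD c (n - 2) := by
    have h1 := hlam ⟨n - 1, by omega⟩
    rw [sum_bd (fun _ => 1) (ld n) (fun k => ((coD c k : ℤ) : ℝ)) (by simp; omega)] at h1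
    simp only at h1
    rw [if_neg (by omega), ld, if_pos (by omega), if_pos (by omega), show n - 1 - 1 = n - 2 by omega]
      at h1
    simp only [one_mul, sub_zero] at h1
    exact_mod_cast h1
  have hstep : ∀ i : ℕ, i + 1 < n → coD c (i + 1) ≤ coD c i := by
    intro i hi
    have h1 := hval i hi
    have h2 : (0 : ℤ) ≤ (lam ⟨i, by omega⟩ : ℤ) := Int.natCast_nonneg _
    linarith
  have hl0 : 0 ≤ coD c (n - 1) := by
    have h1 := hval (n - 2) (by omega)
    have h3 : coD c (n - 2 + 1) = coD c (n - 1) := by rw [show n - 2 + 1 = n - 1 by omega]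
    have h2 : (lam ⟨n - 2, by omega⟩ : ℤ) ≤ (lam ⟨n - 1, by omega⟩ : ℤ) := by exact_mod_cast hlast
    linarith
  have hpos : ∀ i : ℕ, i < n → 0 ≤ coD c i := by
    intro i hi
    refine hl0.trans (antitone_of_succ hstep (by omega) (by omega))
  have htoNat : ∀ i : Fin n, (((coD c i).toNat : ℕ) : ℤ) = coD c i :=
    fun i => Int.toNat_of_nonneg (hpos i i.2)
  obtain ⟨x, hx, hA, hB, -, hH⟩ := so_exists (b := 0) zero_le_one
    (fun i : Fin n => (coD c i).toNat)
    (by
      intro i j hij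
      have := antitone_of_succ hstep (i := i) (j := j) hij j.2
      exact Int.toNat_le_toNat this)
    (by
      intro k hk
      simp only [htoNat]
      rw [sum_fin_lt (coD c) hk]
      have e0 := ext0_nonneg c
      rcases (by omega : k + 1 < n ∨ k = n - 1 ∨ k = n) with hk' | hk' | hk'
      · rw [coD_sum c k hk']
        have : 0 ≤ if 1 ≤ k then ext0 c (k - 1) else 0 := by
          split_ifs
          · exact ext0_nonneg _ _
          · exact le_refl _
        push_cast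
        linarith
      · subst hk'
        rw [coD_sum_n1 hn]
        have h1 := e0 (n - 1)
        have h2 := e0 (n - 2)
        rw [Nat.cast_sub (by omega)]
        push_cast
        linarith
      · subst hk'
        rw [coD_sum_n hn]
        have h1 := e0 (k - 1)
        push_cast
        linarith)
    (by
      intro _
      have h1 : ((∑ i : Fin n, (coD c i).toNat : ℕ) : ℤ) = ∑ i ∈ Finset.range n, coD c i := by
        rw [← sum_fin_lt (coD c) le_rfl]
        push_cast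
        simp only [Int.natCast_toNat_eq_self.2 (hpos _ (Fin.is_lt _))]
        refine Finset.sum_congr ?_ fun i _ => rfl
        ext i; simp
      rw [← Int.even_coe_nat, h1, coD_sum_n hn]
      exact (Int.even_mul_pred_self n).sub (even_two_mul _))
  have hH' : ∀ i : Fin n, RA (Hm i : Matrix (Idx n 0) (Idx n 0) ℂ) x =
      ((coD c i : ℤ) : ℂ) • x := by
    intro i
    rw [hH i]; simp only [htoNat]
  refine ⟨x, hx, ?_, ?_⟩
  · intro i
    rw [adF_so]
    change RA (eDm i) x = 0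
    unfold eDm
    split_ifs with h
    · exact hA _ _ (by rw [Fin.lt_def]; simp)
    · exact hB _ _
  · intro i
    rw [adF_so]
    have hh : (((CDD n hn).h i : gS n 0 1) : Matrix _ _ ℂ) =
        ∑ k : Fin n, (bd (fun _ => 1) (ld n) i k : ℂ) • (Hm k : Matrix (Idx n 0) (Idx n 0) ℂ) :=
      coe_sum_H (fun k : Fin n => (bd (fun _ => 1) (ld n) i k : ℂ))
    rw [hh, map_sum, LinearMap.sum_apply]
    have h1 : ∀ k : Fin n, RA ((bd (fun _ => 1) (ld n) i k : ℂ) •
        (Hm k : Matrix (Idx n 0) (Idx n 0) ℂ)) x =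
        ((bd (fun _ => 1) (ld n) i k * ((coD c k : ℤ) : ℝ) : ℝ) : ℂ) • x := by
      intro k
      rw [map_smul, LinearMap.smul_apply, hH', smul_smul]
      push_cast; rfl
    simp only [h1]
    rw [← Finset.sum_smul]
    congr 1
    rw [← Complex.ofReal_sum, ← hlam i]
    push_cast; rfl

/-- the diagram symmetry of type D -/
def tauD (hn : 2 ≤ n) : Fin n ≃ Fin n := Equiv.swap ⟨n - 2, by omega⟩ ⟨n - 1, by omega⟩

theorem tauD_val (hn : 2 ≤ n) (i : Fin n) : ((tauD hn i : Fin n) : ℕ) =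
    if (i : ℕ) = n - 2 then n - 1 else if (i : ℕ) = n - 1 then n - 2 else i := by
  rw [tauD, Equiv.swap_apply_def]
  simp only [Fin.ext_iff]
  split_ifs <;> rfl

theorem cartanD_tau (hn : 2 ≤ n) (i j : Fin n) :
    (CartanMatrix.D n)ᵀ (tauD hn i) (tauD hn j) = (CartanMatrix.D n)ᵀ i j := by
  rw [Matrix.transpose_apply, Matrix.transpose_apply, CartanMatrix.D, Matrix.of_apply,
    Matrix.of_apply]
  simp only [Fin.ext_iff, tauD_val]
  have hi := i.2
  have hj := j.2
  generalize (i : ℕ) = a at *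
  generalize (j : ℕ) = c at *
  rcases (by omega : a = n - 2 ∨ a = n - 1 ∨ a + 3 = n ∨ a + 3 < n) with ha | ha | ha | ha <;>
  rcases (by omega : c = n - 2 ∨ c = n - 1 ∨ c + 3 = n ∨ c + 3 < n) with hc | hc | hc | hc <;>
  · by_cases h2 : n = 2
    · simp (disch := omega) only [if_pos, if_neg, if_true]
    · simp (disch := omega) only [if_pos, if_neg, if_true]

theorem kprop_D.{u} (hn : 2 ≤ n) : KProp.{u} ((CartanMatrix.D n)ᵀ) := by
  intro lam c hc
  by_cases hle : lam ⟨n - 2, by omega⟩ ≤ lam ⟨n - 1, by omega⟩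
  · obtain ⟨x, hx, h1, h2⟩ := vec_D hn lam c hc hle
    exact kprop1_of_vector (CDD n hn) (CDD_rho hn) hx h1 h2
  · refine kprop1_twist (cartanD_tau hn) (fun i => Equiv.swap_apply_self _ _ i) ?_
    obtain ⟨x, hx, h1, h2⟩ := vec_D hn (fun i => lam (tauD hn i)) (fun i => c (tauD hn i))
      (by
        intro i
        have h := hc (tauD hn i)
        rw [← Equiv.sum_comp (tauD hn)] at h
        simpa only [cartanD_tau] using h)
      (by
        have e1 : tauD hn ⟨n - 2, by omega⟩ = ⟨n - 1, by omega⟩ := Equiv.swap_apply_left _ _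
        have e2 : tauD hn ⟨n - 1, by omega⟩ = ⟨n - 2, by omega⟩ := Equiv.swap_apply_right _ _
        simp only [e1, e2]
        omega)
    exact kprop1_of_vector (CDD n hn) (CDD_rho hn) hx h1 h2

end

end Kost.QDt
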