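import Mathlib

/-!
# Exponentials of commuting nilpotent operators (MP_869ec4, helper of `SoEval`)

`ex a` is the (finite) exponential series of an endomorphism of a finite dimensional space.
If `Q w` are commuting nilpotent operators, then `t ↦ φ (ex (∑ t w • Q w) x)` is a polynomial
function of `t`, and it is not identically zero if `φ` is nonzero on some word in the `Q w`
applied to `x`.
-/

open Module

namespace Kost.SoE

noncomputable section

section Gen

variable {M : Type*} [AddCommGroup M] [Module ℂ M]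

/-- the truncated exponential series -/
def ex (a : Module.End ℂ M) : Module.End ℂ M :=
  ∑ r ∈ Finset.range (finrank ℂ M + 2), ((r.factorial : ℂ))⁻¹ • a ^ r

theorem ex_zero : ex (0 : Module.End ℂ M) = 1 := by
  unfold ex
  rw [Finset.sum_range_succ']
  simp

theorem ex_comm {a b : Module.End ℂ M} (h : a * b = b * a) : ex a * b = b * ex a := by
  have h1 : Commute a b := h
  unfold ex
  have : Commute (∑ r ∈ Finset.range (finrank ℂ M + 2), ((r.factorial : ℂ))⁻¹ • a ^ r) b := by
    apply Commute.sum_left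
    intro r _
    exact (h1.pow_left r).smul_left _
  exact this

variable [FiniteDimensional ℂ M]

theorem nil_pow {a : Module.End ℂ M} (h : IsNilpotent a) : a ^ (finrank ℂ M + 2) = 0 := by
  have h1 := h.charpoly_eq_X_pow_finrank
  have h2 := LinearMap.aeval_self_charpoly a
  rw [h1, map_pow, Polynomial.aeval_X] at h2
  rw [pow_add, h2, zero_mul]

theorem ex_add {a b : Module.End ℂ M} (h : Commute a b) (ha : IsNilpotent a)
    (hb : IsNilpotent b) : ex (a + b) = ex a * ex b := by
  let _inst : Module ℚ (Module.End ℂ M) := Module.compHom _ (algebraMap ℚ ℂ)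
  have key : ∀ x : Module.End ℂ M, IsNilpotent x → ex x = IsNilpotent.exp x := by
    intro x hx
    rw [IsNilpotent.exp_eq_sum (nil_pow hx)]
    unfold ex
    refine Finset.sum_congr rfl fun r _ => ?_
    change _ = (algebraMap ℚ ℂ ((r.factorial : ℚ))⁻¹) • x ^ r
    simp
  rw [key _ (h.isNilpotent_add ha hb), key _ ha, key _ hb]
  exact IsNilpotent.exp_add_of_commute h ha hb

theorem ex_list {ι : Type*} (N : ι → Module.End ℂ M) (hn : ∀ i, IsNilpotent (N i))
    (hc : ∀ i j, Commute (N i) (N j)) (l : List ι) :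
    ex ((l.map N).sum) = (l.map fun i => ex (N i)).prod := by
  have hcom : ∀ (i : ι) (l : List ι), Commute (N i) ((l.map N).sum) := by
    intro i l
    induction l with
    | nil => simp
    | cons j l ih => simp only [List.map_cons, List.sum_cons]; exact (hc i j).add_right ih
  have hnil : ∀ l : List ι, IsNilpotent ((l.map N).sum) := by
    intro l
    induction l with
    | nil => simp
    | cons j l ih =>
      simp only [List.map_cons, List.sum_cons]
      exact (hcom j l).isNilpotent_add (hn j) ih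
  induction l with
  | nil => simp [ex_zero]
  | cons j l ih =>
    simp only [List.map_cons, List.sum_cons, List.prod_cons]
    rw [ex_add (hcom j l) (hn j) (hnil l), ih]

section Words

variable {W : Type*} [Fintype W]

/-- the linear combination of the operators `Q w` -/
def DD (Q : W → Module.End ℂ M) (t : W → ℂ) : Module.End ℂ M := ∑ w, t w • Q w

omit [FiniteDimensional ℂ M] in
theorem DD_nil {Q : W → Module.End ℂ M} (hn : ∀ w, IsNilpotent (Q w))
    (hc : ∀ v w, Commute (Q v) (Q w)) (t : W → ℂ) : IsNilpotent (DD Q t) := by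
  apply Commute.isNilpotent_sum
  · intro i _
    exact (hn i).smul (t i)
  · intro i j _ _
    exact ((hc i j).smul_left _).smul_right _

omit [FiniteDimensional ℂ M] in
theorem DD_comm {Q : W → Module.End ℂ M} {A : Module.End ℂ M}
    (hc : ∀ v, Commute (Q v) A) (t : W → ℂ) : Commute (DD Q t) A := by
  apply Commute.sum_left
  intro i _
  exact (hc i).smul_left _

omit [FiniteDimensional ℂ M] in
theorem DD_pow_poly (Q : W → Module.End ℂ M) (φ : M →ₗ[ℂ] ℂ) (r : ℕ) : ∀ x : M,
    ∃ P : MvPolynomial W ℂ, ∀ t : W → ℂ, φ ((DD Q t ^ r) x) = MvPolynomial.eval t P := by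
  induction r with
  | zero => intro x; exact ⟨MvPolynomial.C (φ x), fun t => by simp⟩
  | succ r ih =>
    intro x
    choose P hP using fun w => ih (Q w x)
    refine ⟨∑ w, MvPolynomial.X w * P w, fun t => ?_⟩
    rw [pow_succ, Module.End.mul_apply, DD, LinearMap.sum_apply, map_sum, map_sum, map_sum]
    refine Finset.sum_congr rfl fun w _ => ?_
    rw [LinearMap.smul_apply, map_smul, map_smul, map_mul, MvPolynomial.eval_X, smul_eq_mul]
    congr 1
    exact hP w t

omit [FiniteDimensional ℂ M] in
theorem ex_poly (Q : W → Module.End ℂ M) (φ : M →ₗ[ℂ] ℂ) (x : M) :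
    ∃ P : MvPolynomial W ℂ, ∀ t : W → ℂ, φ (ex (DD Q t) x) = MvPolynomial.eval t P := by
  choose P hP using fun r => DD_pow_poly Q φ r x
  refine ⟨∑ r ∈ Finset.range (finrank ℂ M + 2), MvPolynomial.C ((r.factorial : ℂ))⁻¹ * P r,
    fun t => ?_⟩
  rw [ex, LinearMap.sum_apply, map_sum, map_sum]
  refine Finset.sum_congr rfl fun r _ => ?_
  rw [LinearMap.smul_apply, map_smul, map_mul, MvPolynomial.eval_C, smul_eq_mul, hP]

theorem ex_key [DecidableEq W] {Q : W → Module.End ℂ M} (hn : ∀ w, IsNilpotent (Q w))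
    (hc : ∀ v w, Commute (Q v) (Q w)) (φ : M →ₗ[ℂ] ℂ) (y : M)
    (h : ∀ t, φ (ex (DD Q t) y) = 0) (w : W) (t : W → ℂ) : φ (ex (DD Q t) (Q w y)) = 0 := by
  have h1 : ∀ s : ℂ, ∑ r ∈ Finset.range (finrank ℂ M + 2),
      ((r.factorial : ℂ))⁻¹ * φ (ex (DD Q t) ((Q w ^ r) y)) * s ^ r = 0 := by
    intro s
    have h2 := h (t + Pi.single w s)
    have h3 : DD Q (t + Pi.single w s) = DD Q t + s • Q w := by
      simp only [DD, Pi.add_apply, add_smul, Finset.sum_add_distrib]
      congr 1
      rw [Finset.sum_eq_single w]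
      · rw [Pi.single_eq_same]
      · intro v _ hv; rw [Pi.single_eq_of_ne hv, zero_smul]
      · intro hw; exact absurd (Finset.mem_univ _) hw
    rw [h3, ex_add ((DD_comm (fun v => hc v w) t).smul_right s) (DD_nil hn hc t)
      ((hn w).smul s), Module.End.mul_apply] at h2
    rw [← h2]
    conv_rhs => rw [show ex (s • Q w) y = ∑ r ∈ Finset.range (finrank ℂ M + 2),
      (((r.factorial : ℂ))⁻¹ * s ^ r) • (Q w ^ r) y by
        rw [ex, LinearMap.sum_apply]
        refine Finset.sum_congr rfl fun r _ => ?_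
        rw [LinearMap.smul_apply, smul_pow, LinearMap.smul_apply, smul_smul]]
    rw [map_sum, map_sum]
    refine Finset.sum_congr rfl fun r _ => ?_
    rw [map_smul, map_smul, smul_eq_mul]
    ring
  set p : Polynomial ℂ := ∑ r ∈ Finset.range (finrank ℂ M + 2),
    Polynomial.C (((r.factorial : ℂ))⁻¹ * φ (ex (DD Q t) ((Q w ^ r) y))) * Polynomial.X ^ r
    with hp
  have h4 : p = 0 := by
    apply Polynomial.funext
    intro s
    rw [hp, Polynomial.eval_finsetSum]
    simp only [Polynomial.eval_mul, Polynomial.eval_C, Polynomial.eval_pow, Polynomial.eval_X,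
      Polynomial.eval_zero]
    exact h1 s
  have h5 : p.coeff 1 = 0 := by rw [h4, Polynomial.coeff_zero]
  rw [hp, Polynomial.finsetSum_coeff, Finset.sum_eq_single 1] at h5
  · simpa using h5
  · intro r _ hr
    rw [Polynomial.coeff_C_mul_X_pow, if_neg (fun h => hr h.symm)]
  · intro h6; exact absurd (Finset.mem_range.2 (by omega)) h6

theorem ex_gen [DecidableEq W] {Q : W → Module.End ℂ M} (hn : ∀ w, IsNilpotent (Q w))
    (hc : ∀ v w, Commute (Q v) (Q w)) (φ : M →ₗ[ℂ] ℂ) (x : M) (l : List W)
    (hl : φ ((l.map Q).prod x) ≠ 0) : ∃ t, φ (ex (DD Q t) x) ≠ 0 := by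
  by_contra hcon
  push Not at hcon
  have h1 : ∀ l : List W, ∀ t, φ (ex (DD Q t) ((l.map Q).prod x)) = 0 := by
    intro l
    induction l with
    | nil => intro t; simpa using hcon t
    | cons w l ih =>
      intro t
      simp only [List.map_cons, List.prod_cons, Module.End.mul_apply]
      exact ex_key hn hc φ _ ih w t
  apply hl
  have h2 := h1 l 0
  have h3 : DD Q (0 : W → ℂ) = 0 := by simp [DD]
  rwa [h3, ex_zero, Module.End.one_apply] at h2

end Words

end Gen

theorem common_point {W ι : Type*} (s : Finset ι) (P : ι → MvPolynomial W ℂ)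
    (h : ∀ i ∈ s, ∃ t, MvPolynomial.eval t (P i) ≠ 0) :
    ∃ t, ∀ i ∈ s, MvPolynomial.eval t (P i) ≠ 0 := by
  have h1 : ∏ i ∈ s, P i ≠ 0 := by
    rw [Finset.prod_ne_zero_iff]
    intro i hi h0
    obtain ⟨t, ht⟩ := h i hi
    rw [h0, map_zero] at ht
    exact ht rfl
  by_contra hcon
  push Not at hcon
  apply h1
  apply MvPolynomial.funext
  intro t
  obtain ⟨i, hi, h2⟩ := hcon t
  rw [map_prod, map_zero]
  exact Finset.prod_eq_zero hi h2

end

end Kost.SoE
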