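import Mathlib

/-!
# Irreducible modules of highest weight `μ`

`L` is a finite-dimensional complex Lie algebra with nondegenerate Killing form, `H` a Cartan
subalgebra and `b` a base of its root system.
-/

open LieAlgebra LieAlgebra.IsKilling LieModule Module

namespace Kost

/-- `V` is an irreducible `L`-module with highest weight `μ`: it is irreducible and contains a
nonzero vector which is killed by the root spaces of all positive roots and on which `H` acts by
`μ`. -/
structure IsHighestWeight {L : Type*} [LieRing L] [LieAlgebra ℂ L] [FiniteDimensional ℂ L]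
    [IsKilling ℂ L] {H : LieSubalgebra ℂ L} [H.IsCartanSubalgebra]
    (b : (rootSystem H).Base) (μ : Dual ℂ H) (V : Type*) [AddCommGroup V]
    [Module ℂ V] [LieRingModule L V] [LieModule ℂ L V] : Prop where
  irreducible : LieModule.IsIrreducible ℂ L V
  exists_vector : ∃ v : V, v ≠ 0 ∧ (∀ h : H, ⁅(h : L), v⁆ = μ h • v) ∧
    ∀ α : H.root, b.IsPos α → ∀ x ∈ rootSpace H α.1, ⁅x, v⁆ = 0

end Kost
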