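import Pool.Agent.Kost.GensBase
import Pool.Agent.Kost.KDefs

/-!
# From `Kost.Sys` to modules over abstract semisimple Lie algebras

`rho b`: half the sum of the positive roots.
`KProp A`: Kostant's property on the level of Chevalley generators.
`final_of_KProp`: Kostant's property for an abstract Lie algebra.
-/

open LieAlgebra LieAlgebra.IsKilling LieModule Module TensorProduct

namespace Kost

noncomputable section

variable {L : Type*} [LieRing L] [LieAlgebra ℂ L] [FiniteDimensional ℂ L] [IsKilling ℂ L]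
  {H : LieSubalgebra ℂ L} [H.IsCartanSubalgebra]

open Classical in
/-- half the sum of the positive roots -/
def rho (b : (rootSystem H).Base) : Dual ℂ H :=
  (2⁻¹ : ℂ) • ∑ α with b.IsPos α, (rootSystem H).root α

theorem rho_coroot (b : (rootSystem H).Base) {i : H.root} (hi : i ∈ b.support) :
    rho b (coroot i.1) = 1 := by
  classical
  have h := sum_pos_pairing b hi
  have h2 : rho b (coroot i.1) = 2⁻¹ * ∑ α with b.IsPos α, (rootSystem H).pairing α i := by
    simp only [rho, LinearMap.smul_apply, smul_eq_mul]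
    congr 1
    rw [LinearMap.sum_apply]
    rfl
  rw [h2, h]
  norm_num

/-- There is an irreducible module of highest weight `lam`, and it is a direct summand of the
tensor square of every irreducible module of highest weight `ρ`. -/
def KProp1.{u} {n : ℕ} (A : Matrix (Fin n) (Fin n) ℤ) (lam : Fin n → ℕ) : Prop :=
  ∃ (M : Type) (_ : AddCommGroup M) (_ : Module ℂ M) (S : Sys A M) (v : M),
    FiniteDimensional ℂ M ∧ S.Irr ∧ S.HW v (fun i => (lam i : ℂ)) ∧
    ∀ (M' : Type u) [AddCommGroup M'] [Module ℂ M'] (S' : Sys A M') (v' : M'), S'.Irr →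
      S'.HW v' (fun _ => 1) →
      ∃ (φ : M →ₗ[ℂ] M' ⊗[ℂ] M') (ψ : M' ⊗[ℂ] M' →ₗ[ℂ] M), Sys.Equi S (S'.tensor S') φ ∧
        Sys.Equi (S'.tensor S') S ψ ∧ ψ.comp φ = LinearMap.id

/-- Kostant's property for the matrix `A i j = α_j (h_i)`: for `2ρ - lam = ∑ c_j α_j` with
`lam` dominant, `c_j ≥ 0`, there is an irreducible module of highest weight `lam`, and it is a
direct summand of the tensor square of every irreducible module of highest weight `ρ`. -/
def KProp.{u} {n : ℕ} (A : Matrix (Fin n) (Fin n) ℤ) : Prop :=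
  ∀ lam c : Fin n → ℕ, (∀ i, (lam i : ℤ) + ∑ j, A i j * c j = 2) → KProp1.{u} A lam

theorem pos_le (b : (rootSystem H).Base) {K : LieSubalgebra ℂ L}
    (h1 : ∀ i ∈ b.support, ∀ x ∈ rootSpace H i.1, x ∈ K) :
    ∀ i : H.root, b.IsPos i → ∀ x ∈ rootSpace H i.1, x ∈ K := by
  intro i hi
  refine RootPairing.Base.IsPos.induction_on_add hi
    (p := fun i => ∀ x ∈ rootSpace H i.1, x ∈ K) h1 ?_
  intro i j k hk hi hj
  refine rootSpace_le_of_add (isNonZero_root j) (isNonZero_root k) ?_ hi (h1 j hj)
  funext z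
  exact LinearMap.congr_fun hk z

/-- weight vectors for the simple coroots are weight vectors for `H` -/
theorem weight_of_simple (b : (rootSystem H).Base) {μ : Dual ℂ H} {V : Type*} [AddCommGroup V]
    [Module ℂ V] [LieRingModule L V] [LieModule ℂ L V] {v : V}
    (h1 : ∀ i ∈ b.support, ⁅((coroot i.1 : H) : L), v⁆ = μ (coroot i.1) • v) (h : H) :
    ⁅(h : L), v⁆ = μ h • v := by
  have h0 := b.span_coroot_support
  rw [RootPairing.corootSpan, RootPairing.IsRootSystem.span_coroot_eq_top (P := rootSystem H)] at h0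
  have h2 : h ∈ Submodule.span ℂ ((rootSystem H).coroot '' b.support) := by rw [h0]; trivial
  induction h2 using Submodule.span_induction with
  | mem y hy =>
    obtain ⟨i, hi, rfl⟩ := hy
    exact h1 i hi
  | zero => simp
  | add x y _ _ hx hy => rw [Submodule.coe_add, add_lie, hx, hy, map_add, add_smul]
  | smul c x _ hx => rw [Submodule.coe_smul, smul_lie, hx, map_smul, smul_eq_mul, mul_smul]

theorem final_of_KProp.{u} {n : ℕ} (b : (rootSystem H).Base) (σ : Fin n ≃ b.support)
    {A : Matrix (Fin n) (Fin n) ℤ} (hA : ∀ i j, b.cartanMatrix (σ j) (σ i) = A i j)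
    (hK : KProp.{u} A) {V : Type u} [AddCommGroup V] [Module ℂ V] [LieRingModule L V]
    [LieModule ℂ L V] (hV : IsHighestWeight b (rho b) V) {μ : Dual ℂ H}
    (hdom : ∀ i ∈ b.support, ∃ k : ℕ, μ (coroot i.1) = k)
    (hle : ∃ c : H.root → ℕ, (2 : ℂ) • rho b - μ = ∑ i ∈ b.support, c i • (rootSystem H).root i) :
    ∃ N N' : LieSubmodule ℂ L (V ⊗[ℂ] V), IsCompl N N' ∧ IsHighestWeight b μ N := by
  obtain ⟨G, he, -, hh⟩ := exists_gens b σ hA
  choose k hk using fun i : Fin n => hdom (σ i).1 (σ i).2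
  obtain ⟨c, hc⟩ := hle
  have hcond : ∀ i, ((k i : ℕ) : ℤ) + ∑ j, A i j * ((c (σ j).1 : ℕ) : ℤ) = 2 := by
    intro i
    have h1 := LinearMap.congr_fun hc (coroot (σ i).1.1)
    rw [LinearMap.sub_apply, LinearMap.smul_apply, rho_coroot b (σ i).2, hk i,
      LinearMap.sum_apply] at h1
    have h2 : ∑ j ∈ b.support, (c j • (rootSystem H).root j) (coroot (σ i).1.1) =
        ∑ j : Fin n, (A i j : ℂ) * (c (σ j).1 : ℂ) := by
      rw [← Finset.sum_coe_sort, ← Equiv.sum_comp σ]
      refine Finset.sum_congr rfl fun j _ => ?_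
      rw [← hA, cartan_apply, LinearMap.smul_apply, nsmul_eq_mul, mul_comm]
      rfl
    rw [h2] at h1
    have h3 : ((((k i : ℕ) : ℤ) + ∑ j, A i j * ((c (σ j).1 : ℕ) : ℤ) : ℤ) : ℂ) = ((2 : ℤ) : ℂ) := by
      push_cast
      simp only [smul_eq_mul, mul_one] at h1
      linear_combination -h1
    exact_mod_cast h3
  obtain ⟨M, _, _, S, v, -, hirr, hhw, hmain⟩ := hK k (fun i => c (σ i).1) hcond
  obtain ⟨v', hv'0, hv'H, hv'P⟩ := hV.exists_vector
  have hVi := hV.irreducible
  have hVirr := Sys.irr_of_lie G V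
  have hVhw : (Sys.ofLie G V).HW v' (fun _ => 1) :=
    { ne := hv'0
      e := fun i => hv'P _ (RootPairing.Base.isPos_of_mem_support (σ i).2) _ (he i)
      h := fun i => by
        rw [Sys.ofLie_H, hh i, hv'H, rho_coroot b (σ i).2] }
  obtain ⟨φ, ψ, hφ, hψ, hid⟩ := hmain V (Sys.ofLie G V) v' hVirr hVhw
  rw [← Sys.ofLie_tensor] at hφ hψ
  have hid' : ∀ x, ψ (φ x) = x := fun x => LinearMap.congr_fun hid x
  let N : LieSubmodule ℂ L (V ⊗[ℂ] V) :=
    { LinearMap.range φ with lie_mem := fun {y x} hx => Sys.lie_mem_of_inv G hφ.range y x hx }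
  let N' : LieSubmodule ℂ L (V ⊗[ℂ] V) :=
    { LinearMap.ker ψ with lie_mem := fun {y x} hx => Sys.lie_mem_of_inv G hψ.ker y x hx }
  have hNmem : ∀ x, x ∈ N ↔ ∃ y, φ y = x := fun x => Iff.rfl
  have hN'mem : ∀ x, x ∈ N' ↔ ψ x = 0 := fun x => Iff.rfl
  refine ⟨N, N', ?_, ?_⟩
  · rw [isCompl_iff, disjoint_iff, codisjoint_iff]
    constructor
    · rw [eq_bot_iff]
      rintro x hx
      rw [LieSubmodule.mem_inf] at hx
      obtain ⟨⟨y, hy⟩, hx2⟩ := hx
      have h1 : ψ x = 0 := hx2
      have h2 : φ y = x := hy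
      rw [← h2, hid'] at h1
      rw [← h2, h1, map_zero]
      exact Submodule.zero_mem _
    · rw [eq_top_iff]
      rintro x -
      rw [LieSubmodule.mem_sup]
      refine ⟨φ (ψ x), ⟨ψ x, rfl⟩, x - φ (ψ x), ?_, by abel⟩
      rw [hN'mem, map_sub, hid', sub_self]
  · have hinj : Function.Injective φ := fun x y h => by rw [← hid' x, ← hid' y, h]
    constructor
    · -- irreducibility
      have hnt : Nontrivial N := by
        refine ⟨⟨⟨φ v, ⟨v, rfl⟩⟩, 0, fun h => hhw.ne ?_⟩⟩
        have h1 : φ v = 0 := congrArg Subtype.val h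
        rw [← hid' v, h1, map_zero]
      refine LieModule.IsIrreducible.mk fun P hP => ?_
      let φ' : M →ₗ[ℂ] N := φ.codRestrict N.toSubmodule fun x => ⟨x, rfl⟩
      have hφ' : ∀ x, ((φ' x : N) : V ⊗[ℂ] V) = φ x := fun x => rfl
      let P' : Submodule ℂ M := P.toSubmodule.comap φ'
      have hP'mem : ∀ x, x ∈ P' ↔ φ' x ∈ P := fun x => Iff.rfl
      have hP' : S.Inv P' := by
        intro i
        constructor
        · intro x hx
          rw [hP'mem] at hx ⊢
          have h1 : φ' (S.E i x) = ⁅G.e i, φ' x⁆ := by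
            apply Subtype.ext
            rw [hφ', (hφ i x).1, LieSubmodule.coe_bracket, hφ', Sys.ofLie_E]
          rw [h1]
          exact P.lie_mem hx
        · intro x hx
          rw [hP'mem] at hx ⊢
          have h1 : φ' (S.F i x) = ⁅G.f i, φ' x⁆ := by
            apply Subtype.ext
            rw [hφ', (hφ i x).2, LieSubmodule.coe_bracket, hφ', Sys.ofLie_F]
          rw [h1]
          exact P.lie_mem hx
      have hsurj : ∀ z : N, ∃ x, φ' x = z := by
        rintro ⟨z, x, rfl⟩
        exact ⟨x, rfl⟩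
      rcases hirr.2 P' hP' with h | h
      · exfalso
        apply hP
        rw [eq_bot_iff]
        intro z hz
        obtain ⟨x, rfl⟩ := hsurj z
        have h1 : x ∈ P' := hz
        rw [h, Submodule.mem_bot] at h1
        rw [h1, map_zero]
        exact Submodule.zero_mem _
      · rw [eq_top_iff]
        intro z _
        obtain ⟨x, rfl⟩ := hsurj z
        have h1 : x ∈ P' := by rw [h]; trivial
        exact h1
    · have hE : ∀ i, ⁅G.e i, φ v⁆ = 0 := by
        intro i
        rw [← Sys.ofLie_E, ← (hφ i v).1, hhw.e, map_zero]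
      have hH : ∀ i, ⁅G.h i, φ v⁆ = (k i : ℂ) • φ v := by
        intro i
        rw [← Sys.ofLie_H, ← hφ.H i v, hhw.h, map_smul]
      have hH2 : ∀ h : H, ⁅(h : L), φ v⁆ = μ h • φ v := by
        refine weight_of_simple b ?_
        intro i hi
        obtain ⟨j, hj⟩ := σ.surjective ⟨i, hi⟩
        have hj' : (σ j).1 = i := by rw [hj]
        rw [← hj', ← hh j, hH j, hk j]
      refine ⟨⟨φ v, ⟨v, rfl⟩⟩, fun h => hhw.ne ?_, ?_, ?_⟩
      · have h1 : φ v = 0 := congrArg Subtype.val h
        rw [← hid' v, h1, map_zero]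
      · intro h
        exact Subtype.ext (hH2 h)
      · let K : LieSubalgebra ℂ L :=
          { carrier := {y | ⁅y, φ v⁆ = 0}
            add_mem' := fun {a b} ha hb => by
              change ⁅a + b, φ v⁆ = 0
              rw [add_lie, show ⁅a, φ v⁆ = 0 from ha, show ⁅b, φ v⁆ = 0 from hb, add_zero]
            zero_mem' := zero_lie _
            smul_mem' := fun c a ha => by
              change ⁅c • a, φ v⁆ = 0
              rw [smul_lie, show ⁅a, φ v⁆ = 0 from ha, smul_zero]
            lie_mem' := fun {a b} ha hb => by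
              change ⁅⁅a, b⁆, φ v⁆ = 0
              rw [lie_lie, show ⁅a, φ v⁆ = 0 from ha, show ⁅b, φ v⁆ = 0 from hb, lie_zero,
                lie_zero, sub_zero] }
        have hKmem : ∀ y, y ∈ K ↔ ⁅y, φ v⁆ = 0 := fun y => Iff.rfl
        have hsimple : ∀ i ∈ b.support, ∀ x ∈ rootSpace H i.1, x ∈ K := by
          intro i hi x hx
          obtain ⟨j, hj⟩ := σ.surjective ⟨i, hi⟩
          have hj' : (σ j).1 = i := by rw [hj]
          have hx' : x ∈ rootSpace H (σ j).1.1 := by rw [hj']; exact hx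
          have hne : G.e j ≠ 0 := by
            intro h0
            have h1 := G.ef j j
            rw [h0, zero_lie, if_pos rfl, hh j] at h1
            have h2 : coroot (σ j).1.1 = (0 : H) := Subtype.ext h1.symm
            rw [coroot_eq_zero_iff] at h2
            exact isNonZero_root (σ j).1 h2
          obtain ⟨a, ha⟩ := (finrank_eq_one_iff_of_nonzero' (⟨_, he j⟩ : rootSpace H (σ j).1.1)
            (by simpa using hne)).mp (finrank_rootSpace_eq_one _ (isNonZero_root (σ j).1)) ⟨x, hx'⟩
          have ha' : a • G.e j = x := congrArg Subtype.val ha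
          rw [← ha']
          exact K.smul_mem a (hE j)
        intro α hα x hx
        exact Subtype.ext ((hKmem x).1 (pos_le b hsimple α hα x hx))

end

end Kost
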