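import Pool.Agent.Kost.HW

/-!
# Chevalley generators attached to a base of the root system of a semisimple Lie algebra

`L` is a Lie algebra over `ℂ` with nondegenerate Killing form, `H` a Cartan subalgebra and `b` a
base of its root system.  We choose root vectors `e i`, `f i` for the simple roots and show that
they generate `L`; this gives `Kost.Sys.Gens` for the transposed Cartan matrix of `b`
(in `Kost.Sys` the matrix is `A i j = α_j (h_i)`, Mathlib's Cartan matrix is `α_i (h_j)`).
We also show that the half sum of the positive roots takes the value `1` on the simple coroots.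
-/

open LieAlgebra LieAlgebra.IsKilling LieModule Module

namespace Kost

noncomputable section

section Abstract

variable {ι R M N : Type*} [CommRing R] [CharZero R] [AddCommGroup M] [Module R M]
  [AddCommGroup N] [Module R N] {P : RootPairing ι R M N} (b : P.Base)

theorem isPos_or (i : ι) : b.IsPos i ∨ b.IsPos (P.reflectionPerm i i) :=
  RootPairing.Base.IsPos.or_neg b i

omit [CharZero R] in
theorem root_perm_self (i : ι) : P.root (P.reflectionPerm i i) = -P.root i := by
  rw [P.root_reflectionPerm, P.reflection_apply_self]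

/-- The sum of the positive roots takes the value `2` on every simple coroot. -/
theorem sum_pos_pairing [Fintype ι] [DecidableEq ι] [DecidablePred b.IsPos] [IsDomain R]
    [P.IsCrystallographic] [P.IsReduced] {j : ι} (hj : j ∈ b.support) :
    ∑ i with b.IsPos i, P.pairing i j = 2 := by
  have hjp : b.IsPos j := RootPairing.Base.isPos_of_mem_support hj
  have hjm : j ∈ Finset.univ.filter b.IsPos := by simpa using hjp
  rw [← Finset.add_sum_erase _ _ hjm, P.pairing_same]
  have hinv : ∀ i, P.reflectionPerm j (P.reflectionPerm j i) = i := fun i =>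
    P.reflectionPerm_self j i
  have hmem : ∀ i ∈ (Finset.univ.filter b.IsPos).erase j,
      P.reflectionPerm j i ∈ (Finset.univ.filter b.IsPos).erase j := by
    intro i hi
    rw [Finset.mem_erase, Finset.mem_filter] at hi ⊢
    refine ⟨?_, Finset.mem_univ _, hi.2.2.reflectionPerm hj hi.1⟩
    intro h
    have h1 := hinv i
    rw [h] at h1
    have h2 : b.IsPos (P.reflectionPerm j j) := by rw [h1]; exact hi.2.2
    exact (RootPairing.Base.IsPos.neg_iff_not b j).1 h2 hjp
  have hsum : ∑ i ∈ (Finset.univ.filter b.IsPos).erase j, P.pairing i j =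
      ∑ i ∈ (Finset.univ.filter b.IsPos).erase j, -P.pairing i j := by
    refine Finset.sum_bij (fun i _ => P.reflectionPerm j i) hmem ?_ ?_ ?_
    · intro a _ a' _ h
      rw [← hinv a, ← hinv a', h]
    · intro a ha
      exact ⟨P.reflectionPerm j a, hmem a ha, hinv a⟩
    · intro a _
      rw [← P.pairing_reflectionPerm, P.pairing_reflectionPerm_self_right, neg_neg]
  rw [Finset.sum_neg_distrib] at hsum
  have h2 : (2 : R) * ∑ i ∈ (Finset.univ.filter b.IsPos).erase j, P.pairing i j = 0 := by
    linear_combination hsum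
  rcases mul_eq_zero.1 h2 with h | h
  · exact absurd h two_ne_zero
  · rw [h, add_zero]

end Abstract

variable {L : Type*} [LieRing L] [LieAlgebra ℂ L] [FiniteDimensional ℂ L] [IsKilling ℂ L]
  {H : LieSubalgebra ℂ L} [H.IsCartanSubalgebra]

/-- If `γ = α + β` are roots, a subalgebra containing the root spaces of `α` and `β` contains
that of `γ`. -/
theorem rootSpace_le_of_add {α β γ : Weight ℂ H L} (hβ : β.IsNonZero) (hγ : γ.IsNonZero)
    (h : (γ : H → ℂ) = α + β) {K : LieSubalgebra ℂ L}
    (hαK : ∀ x ∈ rootSpace H α, x ∈ K) (hβK : ∀ x ∈ rootSpace H β, x ∈ K) :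
    ∀ x ∈ rootSpace H γ, x ∈ K := by
  obtain ⟨h', e, f, isSl2, he, hf⟩ := exists_isSl2Triple_of_weight_isNonZero hβ
  obtain rfl := isSl2.h_eq_coroot hβ he hf
  obtain ⟨x, hx, x_ne0⟩ := (chainTop β γ).exists_ne_zero
  have prim : isSl2.HasPrimitiveVectorWith x (chainLength β γ : ℂ) :=
    have := lie_mem_genWeightSpace_of_mem_genWeightSpace he hx
    ⟨x_ne0, (chainLength_smul _ _ hx).symm, by rwa [genWeightSpace_add_chainTop _ _ hβ] at this⟩
  set k := chainTopCoeff (β : H → ℂ) γ with hk
  have hbot : 1 ≤ chainBotCoeff (β : H → ℂ) γ := by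
    have h1 := le_chainBotCoeff_of_rootSpace_ne_top β γ hβ 1 (by
      have : -(1 : ℤ) • (β : H → ℂ) + γ = α := by rw [h]; simp
      rw [this]
      exact α.2)
    exact_mod_cast h1
  have hlen := chainTopCoeff_add_chainBotCoeff β γ
  have hy : (toEnd ℂ L L f ^ k) x ∈ rootSpace H γ := by
    have := toEnd_pow_apply_mem hf hx k
    convert this
    rw [coe_chainTop', ← hk]
    simp
  have hy' : (toEnd ℂ L L f ^ (k + 1)) x ∈ rootSpace H α := by
    have := toEnd_pow_apply_mem hf hx (k + 1)
    convert this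
    rw [coe_chainTop', ← hk, h, add_smul]
    simp only [smul_neg, one_smul]
    abel
  have hy0 : (toEnd ℂ L L f ^ k) x ≠ 0 := prim.pow_toEnd_f_ne_zero_of_eq_nat rfl (by omega)
  have hey := prim.lie_e_pow_succ_toEnd_f k
  have hc : (((k : ℂ) + 1) * ((chainLength β γ : ℂ) - k)) ≠ 0 := by
    apply mul_ne_zero
    · exact_mod_cast Nat.succ_ne_zero k
    · rw [sub_ne_zero]
      intro h1
      have : chainLength β γ = k := by exact_mod_cast h1
      omega
  have hyK : (toEnd ℂ L L f ^ k) x ∈ K := by
    have h1 : ⁅e, (toEnd ℂ L L f ^ (k + 1)) x⁆ ∈ K :=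
      K.lie_mem (hβK _ he) (hαK _ hy')
    rw [hey] at h1
    have h2 := K.smul_mem ((((k : ℂ) + 1) * ((chainLength β γ : ℂ) - k))⁻¹) h1
    rwa [smul_smul, inv_mul_cancel₀ hc, one_smul] at h2
  intro z hz
  obtain ⟨c, hc⟩ := (finrank_eq_one_iff_of_nonzero' (⟨_, hy⟩ : rootSpace H γ)
    (by simpa using hy0)).mp (finrank_rootSpace_eq_one γ hγ) ⟨z, hz⟩
  have hc' : c • (toEnd ℂ L L f ^ k) x = z := congrArg Subtype.val hc
  rw [← hc']
  exact K.smul_mem c hyK

/-- Every coroot is a bracket of root vectors. -/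
theorem coroot_mem {α : Weight ℂ H L} (hα : α.IsNonZero) {K : LieSubalgebra ℂ L}
    (h1 : ∀ x ∈ rootSpace H α, x ∈ K) (h2 : ∀ x ∈ rootSpace H (-α), x ∈ K) :
    (coroot α : L) ∈ K := by
  obtain ⟨h', e, f, isSl2, he, hf⟩ := exists_isSl2Triple_of_weight_isNonZero hα
  rw [← isSl2.h_eq_coroot hα he hf, ← isSl2.lie_e_f]
  exact K.lie_mem (h1 _ he) (h2 _ hf)

omit [IsKilling ℂ L] in
theorem isNonZero_root (i : H.root) : (i.1).IsNonZero := H.isNonZero_coe_root i

theorem coe_neg_root (i : H.root) :
    ((((rootSystem H).reflectionPerm i i).1 : Weight ℂ H L) : H → ℂ) = -(i.1 : H → ℂ) := by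
  funext z
  exact LinearMap.congr_fun (root_perm_self (P := rootSystem H) i) z

theorem rootSpace_le_all (b : (rootSystem H).Base) {K : LieSubalgebra ℂ L}
    (h1 : ∀ i ∈ b.support, ∀ x ∈ rootSpace H i.1, x ∈ K)
    (h2 : ∀ i ∈ b.support, ∀ x ∈ rootSpace H (-i.1), x ∈ K) :
    ∀ α : Weight ℂ H L, α.IsNonZero → ∀ x ∈ rootSpace H α, x ∈ K := by
  have hpos : ∀ i : H.root, b.IsPos i → ∀ x ∈ rootSpace H i.1, x ∈ K := by
    intro i hi
    refine RootPairing.Base.IsPos.induction_on_add hi
      (p := fun i => ∀ x ∈ rootSpace H i.1, x ∈ K) h1 ?_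
    intro i j k hk hi hj
    refine rootSpace_le_of_add (isNonZero_root j) (isNonZero_root k) ?_ hi (h1 j hj)
    funext z
    exact LinearMap.congr_fun hk z
  have hneg : ∀ i : H.root, b.IsPos i → ∀ x ∈ rootSpace H (-i.1), x ∈ K := by
    intro i hi
    refine RootPairing.Base.IsPos.induction_on_add hi
      (p := fun i => ∀ x ∈ rootSpace H (-i.1), x ∈ K) h2 ?_
    intro i j k hk hi hj
    have := rootSpace_le_of_add (α := -i.1) (β := -j.1) (γ := -k.1) (isNonZero_root j).neg
      (isNonZero_root k).neg ?_ hi (h2 j hj) (K := K)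
    · exact this
    funext z
    have := LinearMap.congr_fun hk z
    simp only [rootSystem_root_apply, LinearMap.add_apply] at this
    simp only [Weight.coe_neg, Pi.neg_apply, Pi.add_apply]
    have h3 : (k.1) z = (i.1) z + (j.1) z := this
    rw [h3]; ring
  have hroot : ∀ i : H.root, ∀ x ∈ rootSpace H i.1, x ∈ K := by
    intro i
    rcases isPos_or b i with h | h
    · exact hpos i h
    · have h3 := hneg _ h
      have h4 := coe_neg_root i
      rw [h4, neg_neg] at h3
      exact h3
  intro α hα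
  have hmem : α ∈ H.root := by simpa using hα
  exact hroot ⟨α, hmem⟩

theorem cartan_le {K : LieSubalgebra ℂ L}
    (hall : ∀ α : Weight ℂ H L, α.IsNonZero → ∀ x ∈ rootSpace H α, x ∈ K) :
    ∀ x ∈ H, x ∈ K := by
  intro x hx
  have h0 := RootPairing.IsRootSystem.span_coroot_eq_top (P := rootSystem H)
  have h4 : ∀ z ∈ Submodule.span ℂ (Set.range (rootSystem H).coroot), (z : L) ∈ K := by
    intro z hz
    induction hz using Submodule.span_induction with
    | mem y hy =>
      obtain ⟨α, rfl⟩ := hy
      refine coroot_mem (isNonZero_root α) (hall _ (isNonZero_root α)) ?_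
      exact hall (-α.1) (isNonZero_root α).neg
    | zero => exact K.zero_mem
    | add x y _ _ hx hy => exact K.add_mem hx hy
    | smul c x _ hx => exact K.smul_mem c hx
  rw [h0] at h4
  exact h4 ⟨x, hx⟩ Submodule.mem_top

/-- A subalgebra containing the root spaces of the simple roots and of their negatives is
everything. -/
theorem subalgebra_eq_top (b : (rootSystem H).Base) {K : LieSubalgebra ℂ L}
    (h1 : ∀ i ∈ b.support, ∀ x ∈ rootSpace H i.1, x ∈ K)
    (h2 : ∀ i ∈ b.support, ∀ x ∈ rootSpace H (-i.1), x ∈ K) : K = ⊤ := by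
  have hall := rootSpace_le_all b h1 h2
  have hH := cartan_le hall
  have htop := cartan_sup_iSup_rootSpace_eq_top (K := ℂ) (L := L) (H := H)
  have hle : ((H.toLieSubmodule ⊔ ⨆ α : Weight ℂ H L, ⨆ (_ : α.IsNonZero), rootSpace H α :
      LieSubmodule ℂ H L) : Submodule ℂ L) ≤ K.toSubmodule := by
    rw [LieSubmodule.sup_toSubmodule, LieSubmodule.iSup_toSubmodule]
    refine sup_le ?_ (iSup_le fun α => ?_)
    · intro y hy
      exact hH y hy
    · rw [LieSubmodule.iSup_toSubmodule]
      exact iSup_le fun hα y hy => hall α hα y hy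
  rw [htop] at hle
  rw [eq_top_iff]
  intro x _
  exact hle (by trivial)

theorem cartan_apply (b : (rootSystem H).Base) (i j : b.support) :
    (b.cartanMatrix i j : ℂ) = (i.1.1 : Weight ℂ H L) (coroot j.1.1) := by
  have h := b.algebraMap_cartanMatrixIn_apply (S := ℤ) i j
  simpa using h

/-- Chevalley generators attached to a base. -/
theorem exists_gens (b : (rootSystem H).Base) {ι : Type*} [Fintype ι] [DecidableEq ι]
    (σ : ι ≃ b.support) {A : Matrix ι ι ℤ} (hA : ∀ i j, b.cartanMatrix (σ j) (σ i) = A i j) :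
    ∃ G : Sys.Gens A L, (∀ i, G.e i ∈ rootSpace H (σ i).1.1) ∧
      (∀ i, G.f i ∈ rootSpace H (-(σ i).1.1)) ∧ (∀ i, G.h i = coroot (σ i).1.1) := by
  have key : ∀ i : ι, ∃ e f : L, IsSl2Triple ((coroot (σ i).1.1 : H) : L) e f ∧
      e ∈ rootSpace H (σ i).1.1 ∧ f ∈ rootSpace H (-(σ i).1.1) := by
    intro i
    obtain ⟨h, e, f, ht, he, hf⟩ :=
      exists_isSl2Triple_of_weight_isNonZero (isNonZero_root (σ i).1)
    have := ht.h_eq_coroot (isNonZero_root (σ i).1) he hf
    rw [← this]
    exact ⟨e, f, ht, he, hf⟩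
  choose e f ht he hf using key
  have hval : ∀ i j, (((σ j).1.1 : Weight ℂ H L) (coroot (σ i).1.1)) = (A i j : ℂ) := by
    intro i j
    rw [← hA, ← cartan_apply]
  have hhe : ∀ i j, ⁅((coroot (σ i).1.1 : H) : L), e j⁆ = (A i j : ℂ) • e j := by
    intro i j
    rw [← hval]
    exact lie_eq_smul_of_mem_rootSpace (he j) (coroot (σ i).1.1)
  have hhf : ∀ i j, ⁅((coroot (σ i).1.1 : H) : L), f j⁆ = -((A i j : ℂ) • f j) := by
    intro i j
    rw [← hval, ← neg_smul]
    exact lie_eq_smul_of_mem_rootSpace (hf j) (coroot (σ i).1.1)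
  have hef : ∀ i j, ⁅e i, f j⁆ = if i = j then ((coroot (σ i).1.1 : H) : L) else 0 := by
    intro i j
    split_ifs with hij
    · subst hij
      exact (ht i).lie_e_f
    · have h1 : ⁅e i, f j⁆ ∈ rootSpace H (((σ i).1.1 : Weight ℂ H L) +
          -((σ j).1.1 : Weight ℂ H L)) :=
        lie_mem_genWeightSpace_of_mem_genWeightSpace (he i) (hf j)
      have hne : σ i ≠ σ j := fun h => hij (σ.injective h)
      have h2 : rootSpace H (((σ i).1.1 : Weight ℂ H L) + -((σ j).1.1 : Weight ℂ H L)) = ⊥ := by
        by_contra h3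
        let W : Weight ℂ H L := ⟨_, h3⟩
        have hW : (W : H → ℂ) = ((σ i).1.1 : Weight ℂ H L) + -((σ j).1.1 : Weight ℂ H L) := rfl
        have hWn : W.IsNonZero := by
          intro h4
          have h5 : (W : H → ℂ) = 0 := h4
          apply hne
          apply Subtype.ext
          apply Subtype.ext
          apply Weight.ext
          intro z
          have h6 := congrFun (hW.symm.trans h5) z
          simp only [Pi.add_apply, Pi.neg_apply, Pi.zero_apply] at h6
          linear_combination h6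
        have hWm : W ∈ H.root := by simpa using hWn
        refine b.sub_notMem_range_root (σ i).2 (σ j).2 ⟨⟨W, hWm⟩, ?_⟩
        ext z
        have h6 := congrFun hW z
        simp only [Pi.add_apply, Pi.neg_apply] at h6
        simp only [rootSystem_root_apply, LinearMap.sub_apply, Weight.toLinear_apply]
        rw [h6]; ring
      rw [h2] at h1
      simpa using h1
  refine ⟨⟨e, f, fun i => ((coroot (σ i).1.1 : H) : L), ?_, hhe, hhf, hef, ?_⟩, he, hf, fun _ => rfl⟩
  · intro i j
    have := congrArg (Subtype.val) (trivial_lie_zero H H (coroot (σ i).1.1) (coroot (σ j).1.1))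
    simpa using this
  · have one : ∀ (α : Weight ℂ H L) (hα : α.IsNonZero) (y : L) (hy : y ∈ rootSpace H α)
        (hy0 : y ≠ 0) (K : LieSubalgebra ℂ L), y ∈ K → ∀ x ∈ rootSpace H α, x ∈ K := by
      intro α hα y hy hy0 K hyK x hx
      obtain ⟨c, hc⟩ := (finrank_eq_one_iff_of_nonzero' (⟨_, hy⟩ : rootSpace H α)
        (by simpa using hy0)).mp (finrank_rootSpace_eq_one α hα) ⟨x, hx⟩
      have hc' : c • y = x := congrArg Subtype.val hc
      rw [← hc']
      exact K.smul_mem c hyK
    refine subalgebra_eq_top b ?_ ?_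
    · intro i hi
      obtain ⟨k, hk⟩ := σ.surjective ⟨i, hi⟩
      have hk' : (σ k).1 = i := by rw [hk]
      have := one _ (isNonZero_root (σ k).1) (e k) (he k) (ht k).e_ne_zero
        (LieSubalgebra.lieSpan ℂ L (Set.range e ∪ Set.range f))
        (LieSubalgebra.subset_lieSpan (Or.inl ⟨k, rfl⟩))
      rwa [hk'] at this
    · intro i hi
      obtain ⟨k, hk⟩ := σ.surjective ⟨i, hi⟩
      have hk' : (σ k).1 = i := by rw [hk]
      have := one (-(σ k).1.1) (isNonZero_root (σ k).1).neg (f k) (hf k) (ht k).f_ne_zero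
        (LieSubalgebra.lieSpan ℂ L (Set.range e ∪ Set.range f))
        (LieSubalgebra.subset_lieSpan (Or.inr ⟨k, rfl⟩))
      rwa [hk'] at this

end

end Kost
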