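import Mathlib

/-!
# Modules given by Chevalley operators

`Sys A M`: operators `E i, F i, H i` on `M` satisfying the Chevalley relations of the matrix `A`
(`[H i, E j] = A i j E j`, `[H i, F j] = -A i j F j`, `[E i, F j] = δ H i`, `[H i, H j] = 0`).
Highest weight vectors, submodules generated by them, uniqueness of irreducible highest weight
modules, contravariant inner products, tensor products.
-/

open TensorProduct

namespace Kost

noncomputable section

set_option linter.unusedSectionVars false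

variable {ι : Type*} [Fintype ι] [DecidableEq ι]

/-- Operators satisfying the Chevalley relations of `A`. -/
structure Sys (A : Matrix ι ι ℤ) (M : Type*) [AddCommGroup M] [Module ℂ M] where
  E : ι → Module.End ℂ M
  F : ι → Module.End ℂ M
  H : ι → Module.End ℂ M
  HH : ∀ i j x, H i (H j x) = H j (H i x)
  HE : ∀ i j x, H i (E j x) = E j (H i x) + (A i j : ℂ) • E j x
  HF : ∀ i j x, H i (F j x) = F j (H i x) - (A i j : ℂ) • F j x
  EF : ∀ i j x, E i (F j x) = F j (E i x) + if i = j then H i x else 0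

namespace Sys

variable {A : Matrix ι ι ℤ} {M : Type*} [AddCommGroup M] [Module ℂ M] (S : Sys A M)

/-- invariant subspaces -/
def Inv (N : Submodule ℂ M) : Prop := ∀ i, (∀ x ∈ N, S.E i x ∈ N) ∧ (∀ x ∈ N, S.F i x ∈ N)

theorem Inv.H {S : Sys A M} {N : Submodule ℂ M} (h : S.Inv N) (i : ι) {x : M} (hx : x ∈ N) :
    S.H i x ∈ N := by
  have h1 := S.EF i i x
  rw [if_pos rfl] at h1
  have h2 : S.H i x = S.E i (S.F i x) - S.F i (S.E i x) := by rw [h1]; abel
  rw [h2]
  exact N.sub_mem ((h i).1 _ ((h i).2 _ hx)) ((h i).2 _ ((h i).1 _ hx))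

theorem Inv.bot : S.Inv ⊥ := fun i => ⟨fun x hx => by simp_all, fun x hx => by simp_all⟩

theorem Inv.inf {S : Sys A M} {N N' : Submodule ℂ M} (h : S.Inv N) (h' : S.Inv N') :
    S.Inv (N ⊓ N') := fun i => ⟨fun x hx => ⟨(h i).1 x hx.1, (h' i).1 x hx.2⟩,
  fun x hx => ⟨(h i).2 x hx.1, (h' i).2 x hx.2⟩⟩

/-- irreducibility -/
def Irr : Prop := Nontrivial M ∧ ∀ N : Submodule ℂ M, S.Inv N → N = ⊥ ∨ N = ⊤

/-- highest weight vectors of weight `wt` -/
structure HW (v : M) (wt : ι → ℂ) : Prop where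
  ne : v ≠ 0
  e : ∀ i, S.E i v = 0
  h : ∀ i, S.H i v = wt i • v

/-- the invariant subspace generated by `v` -/
def gen (v : M) : Submodule ℂ M := sInf {N | v ∈ N ∧ S.Inv N}

theorem mem_gen (v : M) : v ∈ S.gen v := by
  rw [gen, Submodule.mem_sInf]; exact fun N hN => hN.1

theorem gen_le {v : M} {N : Submodule ℂ M} (hv : v ∈ N) (hN : S.Inv N) : S.gen v ≤ N :=
  sInf_le ⟨hv, hN⟩

theorem inv_gen (v : M) : S.Inv (S.gen v) := by
  intro i
  refine ⟨fun x hx => ?_, fun x hx => ?_⟩ <;>
  · rw [gen, Submodule.mem_sInf] at hx ⊢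
    intro N hN
    first
    | exact (hN.2 i).1 x (hx N hN)
    | exact (hN.2 i).2 x (hx N hN)

/-- words of length `k` in the `F i` applied to `v` -/
def words (v : M) : ℕ → Submodule ℂ M
  | 0 => Submodule.span ℂ {v}
  | k + 1 => ⨆ i, (words v k).map (S.F i)

theorem words_F {v : M} {k : ℕ} {x : M} (hx : x ∈ S.words v k) (i : ι) :
    S.F i x ∈ S.words v (k + 1) := by
  rw [words]
  exact Submodule.mem_iSup_of_mem i (Submodule.mem_map_of_mem hx)

theorem words_induction {v : M} {k : ℕ} {p : M → Prop} (h0 : p 0)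
    (hadd : ∀ x y, p x → p y → p (x + y))
    (hF : ∀ i, ∀ y ∈ S.words v k, p (S.F i y)) {x : M}
    (hx : x ∈ S.words v (k + 1)) : p x := by
  rw [words] at hx
  refine Submodule.iSup_induction _ (motive := p) hx ?_ h0 hadd
  rintro i _ ⟨y, hy, rfl⟩
  exact hF i y hy

theorem words_H {v : M} {wt : ι → ℂ} (hv : S.HW v wt) (j : ι) {k : ℕ} : ∀ {x : M},
    x ∈ S.words v k → S.H j x ∈ S.words v k := by
  induction k with
  | zero =>
    intro x hx
    rw [words, Submodule.mem_span_singleton] at hx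
    obtain ⟨c, rfl⟩ := hx
    rw [map_smul, hv.h]
    exact Submodule.smul_mem _ _ (Submodule.smul_mem _ _ (Submodule.mem_span_singleton_self v))
  | succ k ih =>
    intro x hx
    refine S.words_induction (p := fun x => S.H j x ∈ S.words v (k + 1)) ?_ ?_ ?_ hx
    · simp
    · intro x y hx hy; rw [map_add]; exact Submodule.add_mem _ hx hy
    · intro i y hy
      rw [S.HF]
      exact Submodule.sub_mem _ (S.words_F (ih hy) i) (Submodule.smul_mem _ _ (S.words_F hy i))

theorem words_E {v : M} {wt : ι → ℂ} (hv : S.HW v wt) (j : ι) {k : ℕ} : ∀ {x : M},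
    x ∈ S.words v (k + 1) → S.E j x ∈ S.words v k := by
  induction k with
  | zero =>
    intro x hx
    refine S.words_induction (p := fun x => S.E j x ∈ S.words v 0) ?_ ?_ ?_ hx
    · simp
    · intro x y hx hy; rw [map_add]; exact Submodule.add_mem _ hx hy
    · intro i y hy
      rw [S.EF]
      have h1 : S.E j y = 0 := by
        rw [words, Submodule.mem_span_singleton] at hy
        obtain ⟨c, rfl⟩ := hy
        rw [map_smul, hv.e, smul_zero]
      rw [h1, map_zero, zero_add]
      split_ifs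
      · exact S.words_H hv j hy
      · exact Submodule.zero_mem _
  | succ k ih =>
    intro x hx
    refine S.words_induction (p := fun x => S.E j x ∈ S.words v (k + 1)) ?_ ?_ ?_ hx
    · simp
    · intro x y hx hy; rw [map_add]; exact Submodule.add_mem _ hx hy
    · intro i y hy
      rw [S.EF]
      refine Submodule.add_mem _ (S.words_F (ih hy) i) ?_
      split_ifs
      · exact S.words_H hv j hy
      · exact Submodule.zero_mem _

theorem words_E_zero {v : M} {wt : ι → ℂ} (hv : S.HW v wt) (j : ι) {x : M}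
    (hx : x ∈ S.words v 0) : S.E j x = 0 := by
  rw [words, Submodule.mem_span_singleton] at hx
  obtain ⟨c, rfl⟩ := hx
  rw [map_smul, hv.e, smul_zero]

theorem inv_iSup_words {v : M} {wt : ι → ℂ} (hv : S.HW v wt) : S.Inv (⨆ k, S.words v k) := by
  intro i
  constructor
  · intro x hx
    refine Submodule.iSup_induction _ (motive := fun x => S.E i x ∈ ⨆ k, S.words v k) hx
      ?_ (by simp) ?_
    · rintro (_ | k) x hx
      · rw [S.words_E_zero hv i hx]; exact Submodule.zero_mem _
      · exact Submodule.mem_iSup_of_mem k (S.words_E hv i hx)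
    · intro x y hx hy; rw [map_add]; exact Submodule.add_mem _ hx hy
  · intro x hx
    refine Submodule.iSup_induction _ (motive := fun x => S.F i x ∈ ⨆ k, S.words v k) hx
      ?_ (by simp) ?_
    · intro k x hx
      exact Submodule.mem_iSup_of_mem (k + 1) (S.words_F hx i)
    · intro x y hx hy; rw [map_add]; exact Submodule.add_mem _ hx hy

theorem gen_le_words {v : M} {wt : ι → ℂ} (hv : S.HW v wt) : S.gen v ≤ ⨆ k, S.words v k :=
  S.gen_le (Submodule.mem_iSup_of_mem 0 (Submodule.mem_span_singleton_self v))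
    (S.inv_iSup_words hv)

/-- the height operator -/
def D (θ : ι → ℂ) : Module.End ℂ M := ∑ i, θ i • S.H i

theorem D_apply (θ : ι → ℂ) (x : M) : S.D θ x = ∑ i, θ i • S.H i x := by
  simp [D]

theorem D_F {θ : ι → ℂ} (hθ : ∀ j, ∑ i, θ i * A i j = 1) (j : ι) (x : M) :
    S.D θ (S.F j x) = S.F j (S.D θ x) - S.F j x := by
  simp only [D_apply, S.HF, smul_sub, Finset.sum_sub_distrib, map_sum, map_smul]
  congr 1
  simp only [smul_smul]
  rw [← Finset.sum_smul, hθ, one_smul]

theorem D_words {θ : ι → ℂ} (hθ : ∀ j, ∑ i, θ i * A i j = 1) {v : M} {wt : ι → ℂ}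
    (hv : S.HW v wt) {k : ℕ} : ∀ {x : M}, x ∈ S.words v k →
    S.D θ x = ((∑ i, θ i * wt i) - k) • x := by
  induction k with
  | zero =>
    intro x hx
    rw [words, Submodule.mem_span_singleton] at hx
    obtain ⟨c, rfl⟩ := hx
    rw [map_smul, D_apply]
    simp only [hv.h, smul_smul]
    rw [← Finset.sum_smul, smul_smul]
    congr 1
    push_cast; ring
  | succ k ih =>
    intro x hx
    refine S.words_induction (p := fun x => S.D θ x = ((∑ i, θ i * wt i) - (k + 1 : ℕ)) • x)
      ?_ ?_ ?_ hx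
    · simp
    · intro x y hx hy; rw [map_add, hx, hy, smul_add]
    · intro i y hy
      rw [S.D_F hθ, ih hy, map_smul]
      push_cast
      module

/-- In the module generated by a highest weight vector `v` the weight space of the weight of `v`
is spanned by `v`. -/
theorem mem_span_of_weight {θ : ι → ℂ} (hθ : ∀ j, ∑ i, θ i * A i j = 1) {v : M} {wt : ι → ℂ}
    (hv : S.HW v wt) {x : M} (hx : x ∈ S.gen v) (hw : ∀ i, S.H i x = wt i • x) :
    ∃ c : ℂ, x = c • v := by
  have h1 : x ∈ ⨆ k, S.words v k := S.gen_le_words hv hx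
  set d : ℂ := ∑ i, θ i * wt i with hd
  have hDx : S.D θ x = d • x := by
    rw [D_apply]
    simp only [hw, smul_smul]
    rw [← Finset.sum_smul]
  have h2 : x ∈ Submodule.span ℂ {v} ⊔ ⨆ μ, ⨆ (_ : μ ≠ d), Module.End.eigenspace (S.D θ) μ := by
    refine (iSup_le ?_ : (⨆ k, S.words v k) ≤ _) h1
    rintro (_ | k)
    · exact le_sup_left
    · refine le_trans ?_ le_sup_right
      intro y hy
      refine Submodule.mem_iSup_of_mem (d - (k + 1 : ℕ)) (Submodule.mem_iSup_of_mem ?_ ?_)
      · intro h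
        have : ((k + 1 : ℕ) : ℂ) = 0 := by linear_combination -h
        exact Nat.cast_ne_zero.2 (Nat.succ_ne_zero k) this
      · rw [Module.End.mem_eigenspace_iff]
        exact S.D_words hθ hv hy
  obtain ⟨a, ha, b, hb, rfl⟩ := Submodule.mem_sup.1 h2
  obtain ⟨c, rfl⟩ := Submodule.mem_span_singleton.1 ha
  have hDv : S.D θ v = d • v := by
    rw [D_apply]
    simp only [hv.h, smul_smul]
    rw [← Finset.sum_smul]
  have h3 : b ∈ Module.End.eigenspace (S.D θ) d := by
    rw [Module.End.mem_eigenspace_iff]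
    rw [map_add, map_smul, hDv] at hDx
    have : S.D θ b = d • (c • v + b) - c • d • v := by rw [← hDx]; abel
    rw [this]; module
  have h4 := (Module.End.eigenspaces_iSupIndep (S.D θ)) d
  have h5 : b = 0 := by
    have := h4.le_bot ⟨h3, hb⟩
    simpa using this
  exact ⟨c, by rw [h5, add_zero]⟩

/-! ### morphisms -/

variable {M' : Type*} [AddCommGroup M'] [Module ℂ M'] (S' : Sys A M')

/-- equivariant linear maps -/
def Equi (φ : M →ₗ[ℂ] M') : Prop := ∀ i x, φ (S.E i x) = S'.E i (φ x) ∧ φ (S.F i x) = S'.F i (φ x)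

variable {S S'} in
theorem Equi.H {φ : M →ₗ[ℂ] M'} (h : Equi S S' φ) (i : ι) (x : M) :
    φ (S.H i x) = S'.H i (φ x) := by
  have h1 := S.EF i i x
  have h2 := S'.EF i i (φ x)
  rw [if_pos rfl] at h1 h2
  have h3 : S.H i x = S.E i (S.F i x) - S.F i (S.E i x) := by rw [h1]; abel
  have h4 : S'.H i (φ x) = S'.E i (S'.F i (φ x)) - S'.F i (S'.E i (φ x)) := by rw [h2]; abel
  rw [h3, h4, map_sub, (h i _).1, (h i _).2, (h i _).2, (h i _).1]

variable {S S'} in
theorem Equi.ker {φ : M →ₗ[ℂ] M'} (h : Equi S S' φ) : S.Inv (LinearMap.ker φ) := fun i =>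
  ⟨fun x hx => by rw [LinearMap.mem_ker] at hx ⊢; rw [(h i x).1, hx, map_zero],
   fun x hx => by rw [LinearMap.mem_ker] at hx ⊢; rw [(h i x).2, hx, map_zero]⟩

variable {S S'} in
theorem Equi.range {φ : M →ₗ[ℂ] M'} (h : Equi S S' φ) : S'.Inv (LinearMap.range φ) := fun i =>
  ⟨by rintro _ ⟨x, rfl⟩; exact ⟨S.E i x, (h i x).1⟩,
   by rintro _ ⟨x, rfl⟩; exact ⟨S.F i x, (h i x).2⟩⟩

variable {S S'} in
theorem Equi.symm {φ : M ≃ₗ[ℂ] M'} (h : Equi S S' φ.toLinearMap) :
    Equi S' S φ.symm.toLinearMap := by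
  intro i x
  have h1 := (h i (φ.symm x)).1
  have h2 := (h i (φ.symm x)).2
  simp only [LinearEquiv.coe_coe, LinearEquiv.apply_symm_apply] at h1 h2 ⊢
  exact ⟨by rw [← h1, LinearEquiv.symm_apply_apply], by rw [← h2, LinearEquiv.symm_apply_apply]⟩

variable {S S'} in
theorem Equi.comp {M'' : Type*} [AddCommGroup M''] [Module ℂ M''] {S'' : Sys A M''}
    {φ : M →ₗ[ℂ] M'} {ψ : M' →ₗ[ℂ] M''} (h : Equi S S' φ) (h' : Equi S' S'' ψ) :
    Equi S S'' (ψ.comp φ) := fun i x => by
  simp only [LinearMap.comp_apply, (h i x).1, (h i x).2, (h' i _).1, (h' i _).2, and_self]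

/-- the restriction to an invariant subspace -/
def restrict (N : Submodule ℂ M) (hN : S.Inv N) : Sys A N where
  E i := (S.E i).restrict (fun x hx => (hN i).1 x hx)
  F i := (S.F i).restrict (fun x hx => (hN i).2 x hx)
  H i := (S.H i).restrict (fun x hx => hN.H i hx)
  HH i j x := by ext; simp [S.HH i j]
  HE i j x := by ext; simp [S.HE i j]
  HF i j x := by ext; simp [S.HF i j]
  EF i j x := by
    ext
    simp only [LinearMap.coe_restrict_apply, S.EF i j, Submodule.coe_add]
    split_ifs <;> simp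

@[simp] theorem restrict_E (N : Submodule ℂ M) (hN : S.Inv N) (i : ι) (x : N) :
    ((S.restrict N hN).E i x : M) = S.E i x := rfl

@[simp] theorem restrict_F (N : Submodule ℂ M) (hN : S.Inv N) (i : ι) (x : N) :
    ((S.restrict N hN).F i x : M) = S.F i x := rfl

@[simp] theorem restrict_H (N : Submodule ℂ M) (hN : S.Inv N) (i : ι) (x : N) :
    ((S.restrict N hN).H i x : M) = S.H i x := rfl

theorem equi_subtype (N : Submodule ℂ M) (hN : S.Inv N) : Equi (S.restrict N hN) S N.subtype :=
  fun _ _ => ⟨rfl, rfl⟩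

/-- direct sum of two modules -/
def prod : Sys A (M × M') where
  E i := (S.E i).prodMap (S'.E i)
  F i := (S.F i).prodMap (S'.F i)
  H i := (S.H i).prodMap (S'.H i)
  HH i j x := by ext <;> simp [S.HH i j, S'.HH i j]
  HE i j x := by ext <;> simp [S.HE i j, S'.HE i j]
  HF i j x := by ext <;> simp [S.HF i j, S'.HF i j]
  EF i j x := by
    ext
    · simp only [LinearMap.prodMap_apply, S.EF i j, Prod.fst_add]
      split_ifs <;> simp
    · simp only [LinearMap.prodMap_apply, S'.EF i j, Prod.snd_add]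
      split_ifs <;> simp

/-- Uniqueness of irreducible highest weight modules. -/
theorem exists_equiv {θ : ι → ℂ} (hθ : ∀ j, ∑ i, θ i * A i j = 1) (hS : S.Irr) (hS' : S'.Irr)
    {wt : ι → ℂ} {v : M} {v' : M'} (hv : S.HW v wt) (hv' : S'.HW v' wt) :
    ∃ φ : M ≃ₗ[ℂ] M', Equi S S' φ.toLinearMap ∧ φ v = v' := by
  let P := S.prod S'
  have hw : P.HW (v, v') wt :=
    { ne := fun h => hv.ne (Prod.ext_iff.1 h).1
      e := fun i => by ext <;> simp [P, prod, hv.e, hv'.e]
      h := fun i => by ext <;> simp [P, prod, hv.h, hv'.h] }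
  let N := P.gen (v, v')
  have hN : P.Inv N := P.inv_gen _
  have hmem : (v, v') ∈ N := P.mem_gen _
  -- the two partial kernels
  have k1 : ∀ y : M', ((0 : M), y) ∈ N → y = 0 := by
    let K : Submodule ℂ M' := N.comap (LinearMap.inr ℂ M M')
    have hK : S'.Inv K := fun i =>
      ⟨fun x hx => by
        have := (hN i).1 _ hx
        simpa [K, P, prod] using this,
       fun x hx => by
        have := (hN i).2 _ hx
        simpa [K, P, prod] using this⟩
    rcases hS'.2 K hK with h | h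
    · intro y hy
      have : y ∈ K := hy
      rw [h] at this; simpa using this
    · exfalso
      have h1 : ((0 : M), v') ∈ N := by
        have : v' ∈ K := by rw [h]; trivial
        exact this
      obtain ⟨c, hc⟩ := P.mem_span_of_weight hθ hw h1 (fun i => by
        ext <;> simp [P, prod, hv'.h])
      have h2 := (Prod.ext_iff.1 hc).1
      have h3 := (Prod.ext_iff.1 hc).2
      simp only [Prod.smul_mk] at h2 h3
      have : c = 0 := by
        rcases smul_eq_zero.1 h2.symm with h | h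
        · exact h
        · exact absurd h hv.ne
      rw [this, zero_smul] at h3
      exact hv'.ne h3
  have k2 : ∀ x : M, (x, (0 : M')) ∈ N → x = 0 := by
    let K : Submodule ℂ M := N.comap (LinearMap.inl ℂ M M')
    have hK : S.Inv K := fun i =>
      ⟨fun x hx => by
        have := (hN i).1 _ hx
        simpa [K, P, prod] using this,
       fun x hx => by
        have := (hN i).2 _ hx
        simpa [K, P, prod] using this⟩
    rcases hS.2 K hK with h | h
    · intro y hy
      have : y ∈ K := hy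
      rw [h] at this; simpa using this
    · exfalso
      have h1 : (v, (0 : M')) ∈ N := by
        have : v ∈ K := by rw [h]; trivial
        exact this
      obtain ⟨c, hc⟩ := P.mem_span_of_weight hθ hw h1 (fun i => by
        ext <;> simp [P, prod, hv.h])
      have h2 := (Prod.ext_iff.1 hc).1
      have h3 := (Prod.ext_iff.1 hc).2
      simp only [Prod.smul_mk] at h2 h3
      have : c = 0 := by
        rcases smul_eq_zero.1 h3.symm with h | h
        · exact h
        · exact absurd h hv'.ne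
      rw [this, zero_smul] at h2
      exact hv.ne h2
  -- the projections are bijective
  have s1 : ∀ x : M, ∃ y : M', (x, y) ∈ N := by
    let R : Submodule ℂ M := N.map (LinearMap.fst ℂ M M')
    have hR : S.Inv R := fun i =>
      ⟨by
        rintro _ ⟨p, hp, rfl⟩
        exact ⟨P.E i p, (hN i).1 _ hp, rfl⟩,
       by
        rintro _ ⟨p, hp, rfl⟩
        exact ⟨P.F i p, (hN i).2 _ hp, rfl⟩⟩
    rcases hS.2 R hR with h | h
    · exfalso
      have : v ∈ R := ⟨_, hmem, rfl⟩
      rw [h] at this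
      exact hv.ne (by simpa using this)
    · intro x
      have : x ∈ R := by rw [h]; trivial
      obtain ⟨⟨a, b⟩, hp, rfl⟩ := this
      exact ⟨b, hp⟩
  have s2 : ∀ y : M', ∃ x : M, (x, y) ∈ N := by
    let R : Submodule ℂ M' := N.map (LinearMap.snd ℂ M M')
    have hR : S'.Inv R := fun i =>
      ⟨by
        rintro _ ⟨p, hp, rfl⟩
        exact ⟨P.E i p, (hN i).1 _ hp, rfl⟩,
       by
        rintro _ ⟨p, hp, rfl⟩
        exact ⟨P.F i p, (hN i).2 _ hp, rfl⟩⟩
    rcases hS'.2 R hR with h | h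
    · exfalso
      have : v' ∈ R := ⟨_, hmem, rfl⟩
      rw [h] at this
      exact hv'.ne (by simpa using this)
    · intro x
      have : x ∈ R := by rw [h]; trivial
      obtain ⟨⟨a, b⟩, hp, rfl⟩ := this
      exact ⟨a, hp⟩
  have b1 : Function.Bijective ((LinearMap.fst ℂ M M').comp N.subtype) := by
    constructor
    · rw [← LinearMap.ker_eq_bot, Submodule.eq_bot_iff]
      rintro ⟨⟨a, b⟩, hp⟩ h0
      simp only [LinearMap.mem_ker, LinearMap.comp_apply, Submodule.subtype_apply,
        LinearMap.fst_apply] at h0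
      subst h0
      have := k1 b hp
      subst this
      rfl
    · intro x
      obtain ⟨y, hy⟩ := s1 x
      exact ⟨⟨(x, y), hy⟩, rfl⟩
  have b2 : Function.Bijective ((LinearMap.snd ℂ M M').comp N.subtype) := by
    constructor
    · rw [← LinearMap.ker_eq_bot, Submodule.eq_bot_iff]
      rintro ⟨⟨a, b⟩, hp⟩ h0
      simp only [LinearMap.mem_ker, LinearMap.comp_apply, Submodule.subtype_apply,
        LinearMap.snd_apply] at h0
      subst h0
      have := k2 a hp
      subst this
      rfl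
    · intro x
      obtain ⟨y, hy⟩ := s2 x
      exact ⟨⟨(y, x), hy⟩, rfl⟩
  let f1 := LinearEquiv.ofBijective _ b1
  let f2 := LinearEquiv.ofBijective _ b2
  have e1 : Equi (P.restrict N hN) S f1.toLinearMap := fun i x => ⟨rfl, rfl⟩
  have e2 : Equi (P.restrict N hN) S' f2.toLinearMap := fun i x => ⟨rfl, rfl⟩
  refine ⟨f1.symm.trans f2, ?_, ?_⟩
  · have := e1.symm.comp e2
    intro i x
    exact this i x
  · have h1 : f1.symm v = ⟨(v, v'), hmem⟩ := by
      rw [LinearEquiv.symm_apply_eq]; rfl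
    rw [LinearEquiv.trans_apply, h1]
    rfl

/-! ### contravariant inner products -/

section Form

variable {T : Type*} [NormedAddCommGroup T] [InnerProductSpace ℂ T] (Q : Sys A T)

/-- the inner product is contravariant -/
def Contra : Prop := ∀ i x y, inner ℂ (Q.E i x) y = inner ℂ x (Q.F i y)

variable {Q} in
theorem Contra.symm' (h : Q.Contra) (i : ι) (x y : T) :
    inner ℂ (Q.F i x) y = inner ℂ x (Q.E i y) := by
  rw [← inner_conj_symm, ← h i y x, inner_conj_symm]

variable {Q} in
theorem Contra.orth (h : Q.Contra) {N : Submodule ℂ T} (hN : Q.Inv N) : Q.Inv Nᗮ := fun i =>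
  ⟨fun x hx => by
    rw [Submodule.mem_orthogonal] at hx ⊢
    intro u hu
    rw [← h.symm']
    exact hx _ ((hN i).2 u hu),
   fun x hx => by
    rw [Submodule.mem_orthogonal] at hx ⊢
    intro u hu
    rw [← h]
    exact hx _ ((hN i).1 u hu)⟩

variable {Q} in
theorem Contra.restrict (h : Q.Contra) {N : Submodule ℂ T} (hN : Q.Inv N) :
    (Q.restrict N hN).Contra := fun i x y => h i x y

variable {S} in
theorem HW.restrict {v : M} {wt : ι → ℂ} (hv : S.HW v wt) {N : Submodule ℂ M} (hN : S.Inv N)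
    (hm : v ∈ N) : (S.restrict N hN).HW ⟨v, hm⟩ wt where
  ne h := hv.ne (congrArg Subtype.val h)
  e i := Subtype.ext (hv.e i)
  h i := Subtype.ext (hv.h i)

/-- A highest weight vector generates an irreducible module if there is a contravariant inner
product. -/
theorem irr_gen [FiniteDimensional ℂ T] {θ : ι → ℂ} (hθ : ∀ j, ∑ i, θ i * A i j = 1)
    (hc : Q.Contra) {v : T} {wt : ι → ℂ} (hv : Q.HW v wt) :
    (Q.restrict (Q.gen v) (Q.inv_gen v)).Irr := by
  refine ⟨⟨⟨v, Q.mem_gen v⟩, 0, fun h => hv.ne (congrArg Subtype.val h)⟩, fun N hN => ?_⟩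
  let N' : Submodule ℂ T := N.map (Q.gen v).subtype
  have hN' : Q.Inv N' := fun i =>
    ⟨by rintro _ ⟨x, hx, rfl⟩; exact ⟨_, (hN i).1 x hx, rfl⟩,
     by rintro _ ⟨x, hx, rfl⟩; exact ⟨_, (hN i).2 x hx, rfl⟩⟩
  have hle : N' ≤ Q.gen v := by rintro _ ⟨x, hx, rfl⟩; exact x.2
  obtain ⟨s, hs, s', hs', hsum⟩ := N'.exists_add_mem_mem_orthogonal v
  have hwt : ∀ i, Q.H i s = wt i • s := by
    intro i
    have h1 : Q.H i s - wt i • s ∈ N' := N'.sub_mem (hN'.H i hs) (N'.smul_mem _ hs)
    have h2 : Q.H i s - wt i • s ∈ N'ᗮ := by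
      have h3 : Q.H i s - wt i • s = -(Q.H i s' - wt i • s') := by
        have := hv.h i
        rw [hsum, map_add, smul_add] at this
        have h4 : Q.H i s - wt i • s + (Q.H i s' - wt i • s') = 0 := by
          rw [sub_add_sub_comm, this, sub_self]
        exact eq_neg_of_add_eq_zero_left h4
      rw [h3]
      exact N'ᗮ.neg_mem (N'ᗮ.sub_mem ((hc.orth hN').H i hs') (N'ᗮ.smul_mem _ hs'))
    have h5 := N'.inf_orthogonal_eq_bot.le ⟨h1, h2⟩
    rw [Submodule.mem_bot, sub_eq_zero] at h5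
    exact h5
  obtain ⟨c, hcs⟩ := Q.mem_span_of_weight hθ hv (hle hs) hwt
  by_cases h0 : c = 0
  · left
    have hs0 : s = 0 := by rw [hcs, h0, zero_smul]
    have hv' : v ∈ N'ᗮ := by rw [hsum, hs0, zero_add]; exact hs'
    have h1 : Q.gen v ≤ N'ᗮ := Q.gen_le hv' (hc.orth hN')
    rw [Submodule.eq_bot_iff]
    intro x hx
    have h2 : (x : T) ∈ N' := ⟨x, hx, rfl⟩
    have h3 := N'.inf_orthogonal_eq_bot.le ⟨h2, h1 x.2⟩
    rw [Submodule.mem_bot] at h3
    exact Subtype.ext h3
  · right
    have hv' : v ∈ N' := by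
      have : v = c⁻¹ • s := by rw [hcs, smul_smul, inv_mul_cancel₀ h0, one_smul]
      rw [this]; exact N'.smul_mem _ hs
    have h1 : Q.gen v ≤ N' := Q.gen_le hv' hN'
    rw [Submodule.eq_top_iff']
    intro x
    obtain ⟨y, hy, hxy⟩ := h1 x.2
    have : y = x := Subtype.ext hxy
    rwa [← this]

end Form

/-! ### tensor products -/

section Tensor

/-- tensor product of two modules -/
def tensor : Sys A (M ⊗[ℂ] M') where
  E i := (S.E i).rTensor M' + (S'.E i).lTensor M
  F i := (S.F i).rTensor M' + (S'.F i).lTensor M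
  H i := (S.H i).rTensor M' + (S'.H i).lTensor M
  HH i j x := by
    induction x using TensorProduct.induction_on with
    | zero => simp
    | add x y hx hy => simp only [map_add, hx, hy]
    | tmul x y =>
      simp only [LinearMap.add_apply, LinearMap.rTensor_tmul, LinearMap.lTensor_tmul, map_add,
        S.HH i j, S'.HH i j]
      abel
  HE i j x := by
    induction x using TensorProduct.induction_on with
    | zero => simp
    | add x y hx hy => simp only [map_add, hx, hy, smul_add]; abel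
    | tmul x y =>
      simp only [LinearMap.add_apply, LinearMap.rTensor_tmul, LinearMap.lTensor_tmul, map_add,
        S.HE i j, S'.HE i j, TensorProduct.add_tmul, TensorProduct.tmul_add,
        TensorProduct.smul_tmul', TensorProduct.tmul_smul, smul_add]
      abel
  HF i j x := by
    induction x using TensorProduct.induction_on with
    | zero => simp
    | add x y hx hy => simp only [map_add, hx, hy, smul_add]; abel
    | tmul x y =>
      simp only [LinearMap.add_apply, LinearMap.rTensor_tmul, LinearMap.lTensor_tmul, map_add,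
        S.HF i j, S'.HF i j, TensorProduct.sub_tmul, TensorProduct.tmul_sub,
        TensorProduct.smul_tmul', TensorProduct.tmul_smul, smul_add]
      abel
  EF i j x := by
    induction x using TensorProduct.induction_on with
    | zero => simp
    | add x y hx hy =>
      simp only [map_add, hx, hy]
      split_ifs <;> abel
    | tmul x y =>
      simp only [LinearMap.add_apply, LinearMap.rTensor_tmul, LinearMap.lTensor_tmul, map_add,
        S.EF i j, S'.EF i j, TensorProduct.add_tmul, TensorProduct.tmul_add]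
      split_ifs
      · abel
      · simp only [TensorProduct.zero_tmul, TensorProduct.tmul_zero]; abel

@[simp] theorem tensor_E (i : ι) (x : M) (y : M') :
    (S.tensor S').E i (x ⊗ₜ y) = S.E i x ⊗ₜ y + x ⊗ₜ S'.E i y := by
  simp [tensor]

@[simp] theorem tensor_F (i : ι) (x : M) (y : M') :
    (S.tensor S').F i (x ⊗ₜ y) = S.F i x ⊗ₜ y + x ⊗ₜ S'.F i y := by
  simp [tensor]

@[simp] theorem tensor_H (i : ι) (x : M) (y : M') :
    (S.tensor S').H i (x ⊗ₜ y) = S.H i x ⊗ₜ y + x ⊗ₜ S'.H i y := by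
  simp [tensor]

variable {M₁ M₂ : Type*} [AddCommGroup M₁] [Module ℂ M₁] [AddCommGroup M₂] [Module ℂ M₂]
  {S₁ : Sys A M₁} {S₂ : Sys A M₂}

variable {S S'} in
theorem Equi.map {φ : M →ₗ[ℂ] M₁} {ψ : M' →ₗ[ℂ] M₂} (hφ : Equi S S₁ φ) (hψ : Equi S' S₂ ψ) :
    Equi (S.tensor S') (S₁.tensor S₂) (TensorProduct.map φ ψ) := by
  intro i x
  constructor
  · induction x using TensorProduct.induction_on with
    | zero => simp
    | add x y hx hy => simp only [map_add, hx, hy]
    | tmul x y => simp only [tensor_E, map_add, TensorProduct.map_tmul, (hφ i x).1, (hψ i y).1]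
  · induction x using TensorProduct.induction_on with
    | zero => simp
    | add x y hx hy => simp only [map_add, hx, hy]
    | tmul x y => simp only [tensor_F, map_add, TensorProduct.map_tmul, (hφ i x).2, (hψ i y).2]

variable {T T' : Type*} [NormedAddCommGroup T] [InnerProductSpace ℂ T] [NormedAddCommGroup T']
  [InnerProductSpace ℂ T'] {Q : Sys A T} {Q' : Sys A T'}

theorem Contra.tensor (h : Q.Contra) (h' : Q'.Contra) : (Q.tensor Q').Contra := by
  intro i x y
  induction x using TensorProduct.induction_on with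
  | zero => simp
  | add x z hx hz => simp only [map_add, inner_add_left, hx, hz]
  | tmul a b =>
    induction y using TensorProduct.induction_on with
    | zero => simp
    | add x z hx hz => simp only [map_add, inner_add_right, hx, hz]
    | tmul c d =>
      simp only [tensor_E, tensor_F, inner_add_left, inner_add_right,
        TensorProduct.inner_tmul, h i, h' i]

theorem HW.tensor {v : T} {v' : T'} {wt wt' : ι → ℂ} (hv : Q.HW v wt) (hv' : Q'.HW v' wt') :
    (Q.tensor Q').HW (v ⊗ₜ v') (wt + wt') where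
  ne h := by
    have := TensorProduct.norm_tmul (𝕜 := ℂ) v v'
    rw [h, norm_zero] at this
    have h1 := norm_pos_iff.2 hv.ne
    have h2 := norm_pos_iff.2 hv'.ne
    nlinarith [mul_pos h1 h2]
  e i := by simp [hv.e, hv'.e]
  h i := by
    simp only [tensor_H, hv.h, hv'.h, Pi.add_apply, add_smul, TensorProduct.smul_tmul',
      TensorProduct.tmul_smul]

end Tensor

/-! ### the criterion -/

section Criterion

/-- equivariant projection onto an invariant subspace -/
theorem exists_proj {T : Type*} [NormedAddCommGroup T] [InnerProductSpace ℂ T]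
    [FiniteDimensional ℂ T] (Q : Sys A T) (hc : Q.Contra) (N : Submodule ℂ T) (hN : Q.Inv N) :
    ∃ p : T →ₗ[ℂ] N, Equi Q (Q.restrict N hN) p ∧ ∀ x : N, p x = x := by
  let p : T →ₗ[ℂ] N := (N.orthogonalProjectionOnto).toLinearMap
  have hp1 : ∀ x : N, p x = x := fun x => N.orthogonalProjectionOnto_mem_subspace_eq_self x
  refine ⟨p, ?_, hp1⟩
  have key : ∀ (G : Module.End ℂ T), (∀ x ∈ N, G x ∈ N) →
      (∀ x ∈ Nᗮ, G x ∈ Nᗮ) → ∀ x, ((p (G x) : N) : T) = G (p x) := by
    intro G h1 h2 x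
    have h3 : x = (p x : T) + (x - p x) := by abel
    have h4 : x - (p x : T) ∈ Nᗮ := N.sub_starProjection_mem_orthogonal x
    have h7 : p (G x) = p (G (p x)) + p (G (x - p x)) := by
      rw [← map_add, ← map_add, ← h3]
    rw [h7, Submodule.coe_add]
    have h5 : p (G (p x : T)) = ⟨G (p x), h1 _ (p x).2⟩ := hp1 ⟨G (p x), h1 _ (p x).2⟩
    have h6 : p (G (x - p x)) = 0 :=
      N.orthogonalProjectionOnto_apply_of_mem_orthogonal (h2 _ h4)
    rw [h5, h6]; simp
  intro i x
  constructor
  · exact Subtype.ext (key (Q.E i) (hN i).1 ((hc.orth hN) i).1 x)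
  · exact Subtype.ext (key (Q.F i) (hN i).2 ((hc.orth hN) i).2 x)

/-- An irreducible module occurs in `T` if `T` has a highest weight vector of the right weight. -/
theorem exists_summand {T : Type*} [NormedAddCommGroup T] [InnerProductSpace ℂ T]
    [FiniteDimensional ℂ T] {Q : Sys A T} {θ : ι → ℂ} (hθ : ∀ j, ∑ i, θ i * A i j = 1)
    (hc : Q.Contra) {s : T} {ν : ι → ℂ} (hs : Q.HW s ν) (hS' : S'.Irr) {v' : M'}
    (hv' : S'.HW v' ν) :
    ∃ (φ : M' →ₗ[ℂ] T) (ψ : T →ₗ[ℂ] M'), Equi S' Q φ ∧ Equi Q S' ψ ∧ ψ.comp φ = LinearMap.id := by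
  have hN := Q.inv_gen s
  obtain ⟨β, hβ, -⟩ := S'.exists_equiv (Q.restrict (Q.gen s) hN) hθ hS' (Q.irr_gen hθ hc hs) hv'
    (hs.restrict hN (Q.mem_gen s))
  obtain ⟨p, hp, hp1⟩ := Q.exists_proj hc (Q.gen s) hN
  refine ⟨(Q.gen s).subtype.comp β.toLinearMap, β.symm.toLinearMap.comp p,
    hβ.comp (Q.equi_subtype _ hN), hp.comp hβ.symm, ?_⟩
  ext x
  simp only [LinearMap.comp_apply, LinearMap.id_apply, LinearEquiv.coe_coe]
  rw [Submodule.subtype_apply, hp1, LinearEquiv.symm_apply_apply]

variable {T T' : Type*} [NormedAddCommGroup T] [InnerProductSpace ℂ T] [NormedAddCommGroup T']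
  [InnerProductSpace ℂ T'] {Q : Sys A T} {Q' : Sys A T'}

theorem exists_summand_tensor [FiniteDimensional ℂ T] [FiniteDimensional ℂ T'] {θ : ι → ℂ}
    (hθ : ∀ j, ∑ i, θ i * A i j = 1)
    (hc : Q.Contra) (hc' : Q'.Contra) {s : T ⊗[ℂ] T'} {ν : ι → ℂ}
    (hs : (Q.tensor Q').HW s ν) (hS' : S'.Irr) {v' : M'}
    (hv' : S'.HW v' ν) :
    ∃ (φ : M' →ₗ[ℂ] T ⊗[ℂ] T') (ψ : T ⊗[ℂ] T' →ₗ[ℂ] M'), Equi S' (Q.tensor Q') φ ∧
      Equi (Q.tensor Q') S' ψ ∧ ψ.comp φ = LinearMap.id :=
  exists_summand (T := T ⊗[ℂ] T') (Q := Q.tensor Q') S' hθ (hc.tensor hc') hs hS' hv'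

/-- Main criterion: `T`, `T'` are modules with contravariant inner products, generated by highest
weight vectors `t`, `t'` of weights `μ`, `μ'`.  If `T ⊗ T'` has a highest weight vector of weight
`ν`, then the irreducible module of highest weight `ν` is a direct summand of the tensor product of
the irreducible modules of highest weights `μ`, `μ'`. -/
theorem criterion {M₁ M₂ M₃ : Type*} [AddCommGroup M₁] [Module ℂ M₁] [AddCommGroup M₂]
    [Module ℂ M₂] [AddCommGroup M₃] [Module ℂ M₃] {S₁ : Sys A M₁} {S₂ : Sys A M₂} {S₃ : Sys A M₃}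
    [FiniteDimensional ℂ T] [FiniteDimensional ℂ T'] {θ : ι → ℂ}
    (hθ : ∀ j, ∑ i, θ i * A i j = 1) (hc : Q.Contra) (hc' : Q'.Contra)
    {t : T} {t' : T'} {μ μ' ν : ι → ℂ} (ht : Q.HW t μ) (ht' : Q'.HW t' μ')
    {s : Q.gen t ⊗[ℂ] Q'.gen t'}
    (hs : ((Q.restrict _ (Q.inv_gen t)).tensor (Q'.restrict _ (Q'.inv_gen t'))).HW s ν)
    (h₁ : S₁.Irr) (h₂ : S₂.Irr) (h₃ : S₃.Irr) {v₁ : M₁} {v₂ : M₂} {v₃ : M₃}
    (hv₁ : S₁.HW v₁ μ) (hv₂ : S₂.HW v₂ μ') (hv₃ : S₃.HW v₃ ν) :
    ∃ (φ : M₃ →ₗ[ℂ] M₁ ⊗[ℂ] M₂) (ψ : M₁ ⊗[ℂ] M₂ →ₗ[ℂ] M₃), Equi S₃ (S₁.tensor S₂) φ ∧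
      Equi (S₁.tensor S₂) S₃ ψ ∧ ψ.comp φ = LinearMap.id := by
  obtain ⟨α, hα, -⟩ := S₁.exists_equiv (Q.restrict _ (Q.inv_gen t)) hθ h₁ (Q.irr_gen hθ hc ht) hv₁
    (ht.restrict (Q.inv_gen t) (Q.mem_gen t))
  obtain ⟨α', hα', -⟩ := S₂.exists_equiv (Q'.restrict _ (Q'.inv_gen t')) hθ h₂
    (Q'.irr_gen hθ hc' ht') hv₂ (ht'.restrict (Q'.inv_gen t') (Q'.mem_gen t'))
  obtain ⟨φ, ψ, hφ, hψ, hφψ⟩ := exists_summand_tensor S₃ hθ (hc.restrict (Q.inv_gen t))
    (hc'.restrict (Q'.inv_gen t')) hs h₃ hv₃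
  refine ⟨(TensorProduct.map α.symm.toLinearMap α'.symm.toLinearMap).comp φ,
    ψ.comp (TensorProduct.map α.toLinearMap α'.toLinearMap), hφ.comp (hα.symm.map hα'.symm),
    (hα.map hα').comp hψ, ?_⟩
  have h1 : (TensorProduct.map α.toLinearMap α'.toLinearMap).comp
      (TensorProduct.map α.symm.toLinearMap α'.symm.toLinearMap) = LinearMap.id := by
    rw [← TensorProduct.map_comp]
    have e1 : α.toLinearMap.comp α.symm.toLinearMap = LinearMap.id := by ext y; simp
    have e2 : α'.toLinearMap.comp α'.symm.toLinearMap = LinearMap.id := by ext y; simp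
    rw [e1, e2, TensorProduct.map_id]
  rw [LinearMap.comp_assoc, ← LinearMap.comp_assoc φ, h1, LinearMap.id_comp, hφψ]

end Criterion

/-! ### translation to Lie modules -/

section Lie

variable {L : Type*} [LieRing L] [LieAlgebra ℂ L]

/-- Chevalley generators of `L` with matrix `A i j = α_j (h_i)`. -/
structure Gens (A : Matrix ι ι ℤ) (L : Type*) [LieRing L] [LieAlgebra ℂ L] where
  e : ι → L
  f : ι → L
  h : ι → L
  hh : ∀ i j, ⁅h i, h j⁆ = 0
  he : ∀ i j, ⁅h i, e j⁆ = (A i j : ℂ) • e j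
  hf : ∀ i j, ⁅h i, f j⁆ = -((A i j : ℂ) • f j)
  ef : ∀ i j, ⁅e i, f j⁆ = if i = j then h i else 0
  span : LieSubalgebra.lieSpan ℂ L (Set.range e ∪ Set.range f) = ⊤

variable (G : Gens A L) (X : Type*) [AddCommGroup X] [Module ℂ X] [LieRingModule L X]
  [LieModule ℂ L X]

/-- the operators on a Lie module -/
def ofLie : Sys A X where
  E i := LieModule.toEnd ℂ L X (G.e i)
  F i := LieModule.toEnd ℂ L X (G.f i)
  H i := LieModule.toEnd ℂ L X (G.h i)
  HH i j x := by
    have := leibniz_lie (G.h i) (G.h j) x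
    rw [G.hh, zero_lie, zero_add] at this
    exact this
  HE i j x := by
    have := leibniz_lie (G.h i) (G.e j) x
    rw [G.he, smul_lie] at this
    simp only [LieModule.toEnd_apply_apply]
    rw [this]; abel
  HF i j x := by
    have := leibniz_lie (G.h i) (G.f j) x
    rw [G.hf, neg_lie, smul_lie] at this
    simp only [LieModule.toEnd_apply_apply]
    rw [this]; abel
  EF i j x := by
    have := leibniz_lie (G.e i) (G.f j) x
    rw [G.ef] at this
    simp only [LieModule.toEnd_apply_apply]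
    rw [this]
    split_ifs with h
    · abel
    · rw [zero_lie]; abel

@[simp] theorem ofLie_E (i : ι) (x : X) : (ofLie G X).E i x = ⁅G.e i, x⁆ := rfl
@[simp] theorem ofLie_F (i : ι) (x : X) : (ofLie G X).F i x = ⁅G.f i, x⁆ := rfl
@[simp] theorem ofLie_H (i : ι) (x : X) : (ofLie G X).H i x = ⁅G.h i, x⁆ := rfl

variable {X} in
theorem lie_mem_of_inv {N : Submodule ℂ X} (hN : (ofLie G X).Inv N) (y : L) :
    ∀ x ∈ N, ⁅y, x⁆ ∈ N := by
  let K : LieSubalgebra ℂ L :=
    { carrier := {y | ∀ x ∈ N, ⁅y, x⁆ ∈ N}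
      add_mem' := fun {a b} ha hb x hx => by rw [add_lie]; exact N.add_mem (ha x hx) (hb x hx)
      zero_mem' := fun x _ => by rw [zero_lie]; exact N.zero_mem
      smul_mem' := fun c a ha x hx => by rw [smul_lie]; exact N.smul_mem c (ha x hx)
      lie_mem' := fun {a b} ha hb x hx => by
        rw [lie_lie]; exact N.sub_mem (ha _ (hb x hx)) (hb _ (ha x hx)) }
  have hK : K = ⊤ := by
    rw [eq_top_iff, ← G.span, LieSubalgebra.lieSpan_le]
    rintro _ (⟨i, rfl⟩ | ⟨i, rfl⟩)
    · exact (hN i).1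
    · exact (hN i).2
  have : y ∈ K := by rw [hK]; trivial
  exact this

theorem irr_of_lie [h : LieModule.IsIrreducible ℂ L X] : (ofLie G X).Irr := by
  refine ⟨LieModule.nontrivial_of_isIrreducible ℂ L X, fun N hN => ?_⟩
  let N' : LieSubmodule ℂ L X := { N with lie_mem := fun {y x} hx => lie_mem_of_inv G hN y x hx }
  rcases eq_or_ne N' ⊥ with h1 | h1
  · left
    exact congrArg LieSubmodule.toSubmodule h1
  · right
    exact congrArg LieSubmodule.toSubmodule ((IsSimpleOrder.eq_bot_or_eq_top N').resolve_left h1)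

variable {X} {Y : Type*} [AddCommGroup Y] [Module ℂ Y] [LieRingModule L Y] [LieModule ℂ L Y]

theorem lie_of_equi {φ : X →ₗ[ℂ] Y} (h : Equi (ofLie G X) (ofLie G Y) φ) (y : L) (x : X) :
    φ ⁅y, x⁆ = ⁅y, φ x⁆ := by
  let K : LieSubalgebra ℂ L :=
    { carrier := {y | ∀ x, φ ⁅y, x⁆ = ⁅y, φ x⁆}
      add_mem' := fun {a b} ha hb x => by rw [add_lie, add_lie, map_add, ha x, hb x]
      zero_mem' := fun x => by rw [zero_lie, zero_lie, map_zero]
      smul_mem' := fun c a ha x => by rw [smul_lie, smul_lie, map_smul, ha x]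
      lie_mem' := fun {a b} ha hb x => by
        rw [lie_lie, lie_lie, map_sub, ha, hb, hb, ha] }
  have hK : K = ⊤ := by
    rw [eq_top_iff, ← G.span, LieSubalgebra.lieSpan_le]
    rintro _ (⟨i, rfl⟩ | ⟨i, rfl⟩)
    · exact fun x => (h i x).1
    · exact fun x => (h i x).2
  have : y ∈ K := by rw [hK]; trivial
  exact this x

/-- the equivariant map as a morphism of Lie modules -/
def lieHom {φ : X →ₗ[ℂ] Y} (h : Equi (ofLie G X) (ofLie G Y) φ) : X →ₗ⁅ℂ,L⁆ Y :=
  { φ with map_lie' := fun {y x} => lie_of_equi G h y x }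

theorem ofLie_tensor : ofLie G (X ⊗[ℂ] Y) = (ofLie G X).tensor (ofLie G Y) := by
  have key : ∀ (z : L) (x : X ⊗[ℂ] Y), ⁅z, x⁆ =
      ((LieModule.toEnd ℂ L X z).rTensor Y + (LieModule.toEnd ℂ L Y z).lTensor X) x := by
    intro z x
    induction x using TensorProduct.induction_on with
    | zero => simp
    | add x y hx hy => rw [lie_add, hx, hy, map_add]
    | tmul x y => simp [TensorProduct.LieModule.lie_tmul_right]
  have h1 : (ofLie G (X ⊗[ℂ] Y)).E = ((ofLie G X).tensor (ofLie G Y)).E := by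
    ext1 i; exact LinearMap.ext fun x => key (G.e i) x
  have h2 : (ofLie G (X ⊗[ℂ] Y)).F = ((ofLie G X).tensor (ofLie G Y)).F := by
    ext1 i; exact LinearMap.ext fun x => key (G.f i) x
  have h3 : (ofLie G (X ⊗[ℂ] Y)).H = ((ofLie G X).tensor (ofLie G Y)).H := by
    ext1 i; exact LinearMap.ext fun x => key (G.h i) x
  cases hA : ofLie G (X ⊗[ℂ] Y)
  cases hB : (ofLie G X).tensor (ofLie G Y)
  simp only [hA, hB] at h1 h2 h3
  subst h1 h2 h3
  rfl

end Lie

end Sys

end

end Kost
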