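import Pool.Agent.Kost.SFfacts

/-!
# Order, weights, sums over `Idx n b`; sums over pairs (MP_869ec4)
-/

open Module Matrix

attribute [local instance 100] LieRing.ofAssociativeRing

namespace Kost

noncomputable section

variable {n b : ℕ}

namespace Idx

theorem x_lt_x {i j : Fin n} : (x i : Idx n b) < x j ↔ i < j := by
  rw [lt_iff]; simp [rk]

theorem y_lt_y {i j : Fin n} : (y i : Idx n b) < y j ↔ j < i := by
  rw [lt_iff]; simp only [rk]
  have := i.2; have := j.2
  rw [Fin.lt_def]; omega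

theorem x_lt_y (i j : Fin n) : (x i : Idx n b) < y j := by
  rw [lt_iff]; simp only [rk]; omega

theorem x_lt_z (i : Fin n) (k : Fin b) : (x i : Idx n b) < z k := by
  rw [lt_iff]; simp only [rk]; omega

theorem z_lt_y (k : Fin b) (i : Fin n) : (z k : Idx n b) < y i := by
  rw [lt_iff]; simp only [rk]; omega

theorem bar_lt_bar (hb : b ≤ 1) {p q : Idx n b} (h : p < q) : q.bar < p.bar := by
  rw [lt_iff] at h ⊢
  cases p <;> cases q <;> simp only [rk, bar] at h ⊢ <;> omega

theorem bar_le_bar (hb : b ≤ 1) {p q : Idx n b} (h : p ≤ q) : q.bar ≤ p.bar := by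
  rcases h.lt_or_eq with h | h
  · exact (bar_lt_bar hb h).le
  · rw [h]

/-- sums over `Idx` -/
theorem sum_idx3 {M : Type*} [AddCommMonoid M] (f : Idx n b → M) :
    ∑ p, f p = ∑ i, f (x i) + ∑ i, f (y i) + ∑ k, f (z k) := by
  let e : (Fin n ⊕ Fin n) ⊕ Fin b ≃ Idx n b :=
    { toFun := fun s => match s with
        | .inl (.inl i) => x i
        | .inl (.inr i) => y i
        | .inr k => z k
      invFun := fun p => match p with
        | x i => .inl (.inl i)
        | y i => .inl (.inr i)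
        | z k => .inr k
      left_inv := by rintro ((i | i) | k) <;> rfl
      right_inv := by rintro (i | i | k) <;> rfl }
  rw [← Equiv.sum_comp e, Fintype.sum_sum_type, Fintype.sum_sum_type]
  rfl

/-- value of a coweight on a basis vector -/
def val (g : Fin n → ℝ) : Idx n b → ℝ
  | x i => g i
  | y i => -g i
  | z _ => 0

theorem sum_mul_wt (g : Fin n → ℝ) (p : Idx n b) : ∑ i, g i * (p.wt i : ℝ) = val g p := by
  cases p with
  | x i =>
    simp only [wt, val]
    rw [Finset.sum_eq_single i]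
    · simp
    · intro j _ hj; simp [hj]
    · intro h; exact absurd (Finset.mem_univ _) h
  | y i =>
    simp only [wt, val]
    rw [Finset.sum_eq_single i]
    · simp
    · intro j _ hj; simp [hj]
    · intro h; exact absurd (Finset.mem_univ _) h
  | z k => simp [wt, val]

end Idx

section Pairs

variable {J : Type*} [Fintype J] [DecidableEq J] [LinearOrder J]

omit [DecidableEq J] in
theorem sum_lt_add_sum_gt {M : Type*} [AddCommMonoid M] (F : J → J → M) (hF : ∀ p, F p p = 0) :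
    ∑ p, ∑ q, F p q = ∑ c : K2 J, (F c.1.1 c.1.2 + F c.1.2 c.1.1) := by
  have h1 : ∑ p, ∑ q, F p q = ∑ c ∈ (Finset.univ : Finset (J × J)), F c.1 c.2 := by
    rw [← Finset.univ_product_univ, Finset.sum_product]
  have h2 : ∑ c : K2 J, F c.1.1 c.1.2 =
      ∑ c ∈ (Finset.univ : Finset (J × J)) with c.1 < c.2, F c.1 c.2 :=
    (Finset.sum_subtype _ (by simp) (fun c : J × J => F c.1 c.2)).symm
  have h3 : ∑ c : K2 J, F c.1.2 c.1.1 =
      ∑ c ∈ (Finset.univ : Finset (J × J)) with c.1 < c.2, F c.2 c.1 :=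
    (Finset.sum_subtype _ (by simp) (fun c : J × J => F c.2 c.1)).symm
  have h4 : ∑ c ∈ (Finset.univ : Finset (J × J)) with c.1 < c.2, F c.2 c.1 =
      ∑ c ∈ (Finset.univ : Finset (J × J)) with c.2 < c.1, F c.1 c.2 := by
    refine Finset.sum_bij' (fun c _ => (c.2, c.1)) (fun c _ => (c.2, c.1)) ?_ ?_ ?_ ?_ ?_ <;>
      simp
  rw [h1, Finset.sum_add_distrib, h2, h3, h4,
    ← Finset.sum_filter_add_sum_filter_not Finset.univ (fun c : J × J => c.1 < c.2)]
  congr 1
  rw [← Finset.sum_filter_add_sum_filter_not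
    ((Finset.univ : Finset (J × J)).filter (fun c => ¬ c.1 < c.2)) (fun c : J × J => c.2 < c.1)]
  have h5 : ∑ c ∈ ((Finset.univ : Finset (J × J)).filter (fun c => ¬ c.1 < c.2)).filter
      (fun c => ¬ c.2 < c.1), F c.1 c.2 = 0 := by
    refine Finset.sum_eq_zero fun c hc => ?_
    simp only [Finset.mem_filter, Finset.mem_univ, true_and, not_lt] at hc
    rw [le_antisymm hc.2 hc.1, hF]
  rw [h5, add_zero, Finset.filter_filter]
  refine Finset.sum_congr ?_ fun _ _ => rfl
  ext c
  simp only [Finset.mem_filter, Finset.mem_univ, true_and]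
  exact ⟨fun h => h.2, fun h => ⟨not_lt.2 h.le, h⟩⟩

theorem sum_pos_K2 (g f : J → ℝ) :
    ∑ c ∈ (Finset.univ : Finset (K2 J)) with 0 < g c.1.1 + g c.1.2, (f c.1.1 + f c.1.2) =
      ∑ p, f p * ((Finset.univ.filter (fun q => q ≠ p ∧ 0 < g p + g q)).card : ℝ) := by
  have h1 : ∀ p, f p * ((Finset.univ.filter (fun q => q ≠ p ∧ 0 < g p + g q)).card : ℝ) =
      ∑ q, if q ≠ p ∧ 0 < g p + g q then f p else 0 := by
    intro p
    rw [← Finset.sum_filter, Finset.sum_const, nsmul_eq_mul, mul_comm]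
  simp only [h1]
  rw [sum_lt_add_sum_gt (fun p q => if q ≠ p ∧ 0 < g p + g q then f p else 0) (by simp),
    Finset.sum_filter]
  refine Finset.sum_congr rfl ?_
  rintro ⟨⟨p, q⟩, h⟩ -
  simp only at h ⊢
  have e1 : q ≠ p := h.ne'
  have e2 : p ≠ q := h.ne
  rw [add_comm (g q) (g p)]
  by_cases h3 : 0 < g p + g q
  · rw [if_pos h3, if_pos ⟨e1, h3⟩, if_pos ⟨e2, h3⟩]
  · rw [if_neg h3, if_neg (fun h => h3 h.2), if_neg (fun h => h3 h.2), add_zero]

theorem sum_K2' {M : Type*} [AddCommMonoid M] (F : K2' J → M) :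
    ∑ c, F c = ∑ p, F ⟨(p, p), le_refl p⟩ + ∑ c : K2 J, F ⟨c.1, c.2.le⟩ := by
  rw [← Finset.sum_filter_add_sum_filter_not Finset.univ (fun c : K2' J => c.1.1 = c.1.2)]
  congr 1
  · refine (Finset.sum_bij' (fun p _ => ⟨(p, p), le_refl p⟩) (fun c _ => c.1.1) ?_ ?_ ?_ ?_ ?_).symm
    · simp
    · simp
    · simp
    · rintro ⟨⟨p, q⟩, h⟩ hc
      simp only [Finset.mem_filter, Finset.mem_univ, true_and] at hc
      subst hc; rfl
    · simp
  · refine (Finset.sum_bij' (fun c _ => ⟨c.1, c.2.le⟩)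
      (fun c hc => ⟨c.1, lt_of_le_of_ne c.2 (by simpa using hc)⟩) ?_ ?_ ?_ ?_ ?_).symm
    · rintro ⟨⟨p, q⟩, h⟩ -
      simp only [Finset.mem_filter, Finset.mem_univ, true_and]
      exact h.ne
    · simp
    · simp
    · simp
    · simp

theorem sum_pos_K2' (g f : J → ℝ) :
    ∑ c ∈ (Finset.univ : Finset (K2' J)) with 0 < g c.1.1 + g c.1.2, (f c.1.1 + f c.1.2) =
      ∑ p, f p * (((Finset.univ.filter (fun q => q ≠ p ∧ 0 < g p + g q)).card : ℝ) +
        if 0 < g p then 2 else 0) := by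
  rw [Finset.sum_filter, sum_K2']
  simp only [mul_add, Finset.sum_add_distrib]
  rw [← sum_pos_K2, Finset.sum_filter, add_comm]
  congr 1
  refine Finset.sum_congr rfl fun p _ => ?_
  by_cases h : 0 < g p
  · rw [if_pos (by linarith), if_pos h]; ring
  · rw [if_neg (by linarith), if_neg h, mul_zero]

end Pairs

section Degrees

/-- the heights of the coordinates -/
def hg (n : ℕ) (i : Fin n) : ℝ := (n : ℝ) - i

theorem hg_pos (i : Fin n) : 0 < hg n i := by
  have : ((i : ℕ) : ℝ) < n := by exact_mod_cast i.2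
  unfold hg; linarith

theorem hg_sub_pos (i j : Fin n) : 0 < hg n i + -hg n j ↔ i < j := by
  unfold hg
  rw [Fin.lt_def, ← Nat.cast_lt (α := ℝ)]
  constructor <;> intro h <;> linarith

theorem card_ne (i : Fin n) :
    (∑ j : Fin n, if j ≠ i then 1 else 0) = n - 1 := by
  rw [← Finset.card_filter, Finset.filter_ne' Finset.univ i, Finset.card_erase_of_mem
    (Finset.mem_univ i), Finset.card_univ, Fintype.card_fin]

theorem card_gt (i : Fin n) : (∑ j : Fin n, if i < j then 1 else 0) = n - 1 - i := by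
  rw [← Finset.card_filter]
  have : (Finset.univ.filter (fun j => i < j)) = Finset.Ioi i := by ext j; simp
  rw [this, Fin.card_Ioi]

theorem card_lt (i : Fin n) : (∑ j : Fin n, if j < i then 1 else 0) = (i : ℕ) := by
  rw [← Finset.card_filter]
  have : (Finset.univ.filter (fun j => j < i)) = Finset.Iio i := by ext j; simp
  rw [this, Fin.card_Iio]

theorem degx_hg (i : Fin n) : (Finset.univ.filter (fun q : Idx n b => q ≠ .x i ∧
    0 < Idx.val (hg n) (.x i : Idx n b) + Idx.val (hg n) q)).card = (n - 1) + (n - 1 - i) + b := by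
  rw [Finset.card_filter, Idx.sum_idx3]
  have h1 : ∀ j : Fin n, (if (Idx.x j : Idx n b) ≠ .x i ∧ 0 < Idx.val (hg n) (.x i : Idx n b) +
      Idx.val (hg n) (.x j : Idx n b) then 1 else 0) = if j ≠ i then 1 else 0 := by
    intro j
    have e : (Idx.x j : Idx n b) ≠ .x i ↔ j ≠ i := by simp
    have e2 : 0 < Idx.val (hg n) (.x i : Idx n b) + Idx.val (hg n) (.x j : Idx n b) := by
      simp only [Idx.val]; linarith [hg_pos i, hg_pos j]
    simp only [e, e2, and_true]
  have h2 : ∀ j : Fin n, (if (Idx.y j : Idx n b) ≠ .x i ∧ 0 < Idx.val (hg n) (.x i : Idx n b) +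
      Idx.val (hg n) (.y j : Idx n b) then 1 else 0) = if i < j then 1 else 0 := by
    intro j
    have e : (Idx.y j : Idx n b) ≠ .x i := by simp
    have e2 : 0 < Idx.val (hg n) (.x i : Idx n b) + Idx.val (hg n) (.y j : Idx n b) ↔ i < j := by
      simp only [Idx.val]; exact hg_sub_pos i j
    simp only [e, e2, true_and, ne_eq, not_false_eq_true]
  have h3 : ∀ k : Fin b, (if (Idx.z k : Idx n b) ≠ .x i ∧ 0 < Idx.val (hg n) (.x i : Idx n b) +
      Idx.val (hg n) (.z k : Idx n b) then 1 else 0) = 1 := by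
    intro k
    have e : (Idx.z k : Idx n b) ≠ .x i := by simp
    have e2 : 0 < Idx.val (hg n) (.x i : Idx n b) + Idx.val (hg n) (.z k : Idx n b) := by
      simp only [Idx.val]; linarith [hg_pos i]
    rw [if_pos ⟨e, e2⟩]
  simp only [h1, h2, h3]
  rw [card_ne, card_gt]
  simp

theorem degy_hg (i : Fin n) : (Finset.univ.filter (fun q : Idx n b => q ≠ .y i ∧
    0 < Idx.val (hg n) (.y i : Idx n b) + Idx.val (hg n) q)).card = i := by
  rw [Finset.card_filter, Idx.sum_idx3]
  have h1 : ∀ j : Fin n, (if (Idx.x j : Idx n b) ≠ .y i ∧ 0 < Idx.val (hg n) (.y i : Idx n b) +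
      Idx.val (hg n) (.x j : Idx n b) then 1 else 0) = if j < i then 1 else 0 := by
    intro j
    have e : (Idx.x j : Idx n b) ≠ .y i := by simp
    have e2 : 0 < Idx.val (hg n) (.y i : Idx n b) + Idx.val (hg n) (.x j : Idx n b) ↔ j < i := by
      simp only [Idx.val]; rw [add_comm]; exact hg_sub_pos j i
    simp only [e, e2, true_and, ne_eq, not_false_eq_true]
  have h2 : ∀ j : Fin n, (if (Idx.y j : Idx n b) ≠ .y i ∧ 0 < Idx.val (hg n) (.y i : Idx n b) +
      Idx.val (hg n) (.y j : Idx n b) then 1 else 0) = 0 := by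
    intro j
    rw [if_neg]
    rintro ⟨-, h⟩
    simp only [Idx.val] at h; linarith [hg_pos i, hg_pos j]
  have h3 : ∀ k : Fin b, (if (Idx.z k : Idx n b) ≠ .y i ∧ 0 < Idx.val (hg n) (.y i : Idx n b) +
      Idx.val (hg n) (.z k : Idx n b) then 1 else 0) = 0 := by
    intro k
    rw [if_neg]
    rintro ⟨-, h⟩
    simp only [Idx.val] at h; linarith [hg_pos i]
  simp only [h1, h2, h3]
  rw [card_lt]
  simp

theorem sum_wt_deg (F : Idx n b → ℝ) (i : Fin n) :
    ∑ p : Idx n b, (p.wt i : ℝ) * F p = F (.x i) - F (.y i) := by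
  rw [Idx.sum_idx3]
  simp only [Idx.wt]
  rw [Finset.sum_eq_single i, Finset.sum_eq_single i]
  · simp; ring
  · intro j _ hj; simp [Ne.symm hj]
  · intro h; exact absurd (Finset.mem_univ _) h
  · intro j _ hj; simp [Ne.symm hj]
  · intro h; exact absurd (Finset.mem_univ _) h

/-- half the sum of the positive roots of the orthogonal Lie algebra -/
theorem half_sum_so (i : Fin n) :
    (1 / 2 : ℝ) * ∑ c ∈ (Finset.univ : Finset (K2 (Idx n b))) with
      0 < Idx.val (hg n) c.1.1 + Idx.val (hg n) c.1.2, ((c.1.1.wt i : ℝ) + (c.1.2.wt i : ℝ)) =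
      (n : ℝ) - 1 - i + b / 2 := by
  rw [sum_pos_K2 (Idx.val (hg n)) (fun p : Idx n b => (p.wt i : ℝ)), sum_wt_deg, degx_hg, degy_hg]
  have h := i.2
  have h1 : (((n - 1) + (n - 1 - (i : ℕ)) + b : ℕ) : ℝ) = (n - 1) + (n - 1 - i) + b := by
    rw [Nat.cast_add, Nat.cast_add, Nat.cast_sub (by omega), Nat.cast_sub (by omega),
      Nat.cast_sub (by omega)]
    push_cast; ring
  rw [h1]; ring

/-- half the sum of the positive roots of the symplectic Lie algebra -/
theorem half_sum_sp (i : Fin n) :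
    (1 / 2 : ℝ) * ∑ c ∈ (Finset.univ : Finset (K2' (Idx n 0))) with
      0 < Idx.val (hg n) c.1.1 + Idx.val (hg n) c.1.2, ((c.1.1.wt i : ℝ) + (c.1.2.wt i : ℝ)) =
      (n : ℝ) - i := by
  rw [sum_pos_K2' (Idx.val (hg n)) (fun p : Idx n 0 => (p.wt i : ℝ)), sum_wt_deg, degx_hg, degy_hg]
  have h := i.2
  have h1 : (((n - 1) + (n - 1 - (i : ℕ)) + 0 : ℕ) : ℝ) = (n - 1) + (n - 1 - i) := by
    rw [Nat.cast_add, Nat.cast_add, Nat.cast_sub (by omega), Nat.cast_sub (by omega),
      Nat.cast_sub (by omega)]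
    push_cast; ring
  have h2 : 0 < Idx.val (hg n) (.x i : Idx n 0) := hg_pos i
  have h3 : ¬ 0 < Idx.val (hg n) (.y i : Idx n 0) := by
    simp only [Idx.val]; linarith [hg_pos i]
  rw [h1, if_pos h2, if_neg h3]; ring

end Degrees

end

end Kost
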