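import Pool.Agent.Kost.HW

/-!
# Module A6 (MP_869ec4): two commuting actions (only needs Kost.HW)

`F` finite dimensional inner product space with two commuting contravariant systems `S_L, S_R`
(same matrix `A`).  Assume every joint highest weight vector has weights `(μ, μ')`.  If `x ≠ 0` is
a highest weight vector of weight `ν` for the diagonal action `S_L + S_R`, then the irreducible
module of highest weight `ν` is a direct summand of the tensor product of the irreducible modules
of highest weights `μ`, `μ'`.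

PROOF. Let `P : Sys (A ⊕ A) F` (index type `ι ⊕ ι`, `Matrix.fromBlocks A 0 0 A`) be the joint
system; it is contravariant.  Let `W` be the sum (or span) of all `P.gen u`, `u` joint highest
weight vector of weight `(μ, μ')`.  `W = ⊤`: otherwise `Wᗮ ≠ 0` is invariant (`Contra.orth`),
finite dimensional, and contains a joint highest weight vector (the operators `H` are self adjoint
and commute, take a joint eigenvector on which the height operator `∑ θ i (H^L i + H^R i)` has
maximal (real part of the) eigenvalue among eigenvectors in `Wᗮ`; then all `E` kill it: first the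
subspace of vectors killed by all `E`'s is nonzero because each `E` raises the height by 1, it is
stable under the `H`'s, which commute and are self adjoint, so it contains a joint eigenvector).
By assumption it has weights `(μ, μ')`, so it lies in `W`: contradiction.
Hence there is a joint highest weight vector `u` with `x` not orthogonal to `P.gen u`. Let `y` be
the orthogonal projection of `x` to `P.gen u` (`exists_proj`): `y ≠ 0`, and it is a diagonal highest
weight vector of weight `ν`.  `P.gen u` is irreducible (`irr_gen`) with highest weight `(μ, μ')`.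
On the other hand `(S_L.gen u) ⊗ (S_R.gen u)` with `E (inl i) = E^L ⊗ 1`, `E (inr i) = 1 ⊗ E^R` is a
contravariant joint system, generated by the highest weight vector `u ⊗ u` of weight `(μ, μ')`,
so irreducible, so (`exists_equiv`) isomorphic to `P.gen u`.  The image `s` of `y` is a highest
weight vector of weight `ν` of the tensor product system.  Apply `criterion` with `T = T' = F`,
`t = t' = u`.  QED
-/

open TensorProduct Module

namespace Kost

noncomputable section

namespace Sys

variable {ι : Type*} [Fintype ι] [DecidableEq ι] {A : Matrix ι ι ℤ}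

section Exists

variable {M : Type*} [AddCommGroup M] [Module ℂ M] (S : Sys A M)

theorem D_E {θ : ι → ℂ} (hθ : ∀ j, ∑ i, θ i * A i j = 1) (j : ι) (x : M) :
    S.D θ (S.E j x) = S.E j (S.D θ x) + S.E j x := by
  simp only [D_apply, S.HE, smul_add, Finset.sum_add_distrib, map_sum, map_smul]
  congr 1
  simp only [smul_smul]
  rw [← Finset.sum_smul, hθ, one_smul]

theorem Inv.D {S : Sys A M} {N : Submodule ℂ M} (h : S.Inv N) (θ : ι → ℂ) {x : M} (hx : x ∈ N) :
    S.D θ x ∈ N := by
  rw [D_apply]
  exact N.sum_mem fun i _ => N.smul_mem _ (h.H i hx)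

/-- every nonzero invariant subspace of a finite dimensional module contains a highest weight
vector -/
theorem exists_HW [FiniteDimensional ℂ M] {θ : ι → ℂ} (hθ : ∀ j, ∑ i, θ i * A i j = 1)
    {N : Submodule ℂ M} (hN : S.Inv N) (hN0 : N ≠ ⊥) : ∃ u ∈ N, ∃ wt : ι → ℂ, S.HW u wt := by
  have hnt : Nontrivial N := Submodule.nontrivial_iff_ne_bot.2 hN0
  let DN : Module.End ℂ N := (S.D θ).restrict (fun x hx => hN.D θ hx)
  have hfin : Set.Finite {μ | DN.HasEigenvalue μ} := Module.End.finite_hasEigenvalue DN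
  have hne : Set.Nonempty {μ | DN.HasEigenvalue μ} := Module.End.exists_eigenvalue DN
  obtain ⟨μ0, hμ0, hmax⟩ := Set.exists_max_image _ (fun z : ℂ => z.re) hfin hne
  obtain ⟨x, hx⟩ := Module.End.HasEigenvalue.exists_hasEigenvector hμ0
  have hx0 : (x : M) ≠ 0 := fun h => hx.2 (Subtype.ext h)
  have hDx : S.D θ (x : M) = μ0 • (x : M) := congrArg Subtype.val hx.apply_eq_smul
  let K : Submodule ℂ M := N ⊓ ⨅ i, LinearMap.ker (S.E i)
  have hK : ∀ y, y ∈ K ↔ y ∈ N ∧ ∀ i, S.E i y = 0 := by
    intro y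
    simp only [K, Submodule.mem_inf, Submodule.mem_iInf, LinearMap.mem_ker]
  have hxK : (x : M) ∈ K := by
    rw [hK]
    refine ⟨x.2, fun i => ?_⟩
    by_contra hne'
    have h1 : S.D θ (S.E i (x : M)) = (μ0 + 1) • S.E i (x : M) := by
      rw [S.D_E hθ, hDx, map_smul, add_smul, one_smul]
    have h2 : DN.HasEigenvector (μ0 + 1) ⟨S.E i (x : M), (hN i).1 _ x.2⟩ := by
      refine ⟨?_, fun h => hne' (congrArg Subtype.val h)⟩
      rw [Module.End.mem_eigenspace_iff]
      exact Subtype.ext h1
    have h3 := hmax (μ0 + 1) (Module.End.hasEigenvalue_of_hasEigenvector h2)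
    simp only [Complex.add_re, Complex.one_re] at h3
    linarith
  have hKH : ∀ j, ∀ y ∈ K, S.H j y ∈ K := by
    intro j y hy
    rw [hK] at hy ⊢
    refine ⟨hN.H j hy.1, fun i => ?_⟩
    have h1 := S.HE j i y
    rw [hy.2 i, map_zero, smul_zero, add_zero] at h1
    exact h1.symm
  -- joint eigenvectors
  have key : ∀ s : Finset ι, ∃ (wt : ι → ℂ) (K' : Submodule ℂ M), K' ≤ K ∧ K' ≠ ⊥ ∧
      (∀ y ∈ K', ∀ i ∈ s, S.H i y = wt i • y) ∧ ∀ j, ∀ y ∈ K', S.H j y ∈ K' := by
    intro s
    induction s using Finset.induction_on with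
    | empty =>
      refine ⟨fun _ => 0, K, le_refl _, ?_, fun _ _ i hi => absurd hi (Finset.notMem_empty i), hKH⟩
      intro h
      rw [h, Submodule.mem_bot] at hxK
      exact hx0 hxK
    | insert i s hi ih =>
      obtain ⟨wt, K', hle, hne', hs, hst⟩ := ih
      have hnt' : Nontrivial K' := Submodule.nontrivial_iff_ne_bot.2 hne'
      obtain ⟨c, hc⟩ := Module.End.exists_eigenvalue ((S.H i).restrict (fun y hy => hst i y hy))
      obtain ⟨y, hy⟩ := Module.End.HasEigenvalue.exists_hasEigenvector hc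
      have hy0 : (y : M) ≠ 0 := fun h => hy.2 (Subtype.ext h)
      have hHy : S.H i (y : M) = c • (y : M) := congrArg Subtype.val hy.apply_eq_smul
      refine ⟨Function.update wt i c, K' ⊓ Module.End.eigenspace (S.H i) c,
        inf_le_left.trans hle, ?_, ?_, ?_⟩
      · intro h
        have h1 : (y : M) ∈ K' ⊓ Module.End.eigenspace (S.H i) c :=
          ⟨y.2, Module.End.mem_eigenspace_iff.2 hHy⟩
        rw [h, Submodule.mem_bot] at h1
        exact hy0 h1
      · intro z hz j hj
        rcases Finset.mem_insert.1 hj with rfl | hj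
        · rw [Function.update_self]
          exact Module.End.mem_eigenspace_iff.1 hz.2
        · rw [Function.update_of_ne (fun h : j = i => hi (h ▸ hj))]
          exact hs z hz.1 j hj
      · intro j z hz
        refine ⟨hst j z hz.1, Module.End.mem_eigenspace_iff.2 ?_⟩
        rw [S.HH i j, Module.End.mem_eigenspace_iff.1 hz.2, map_smul]
  obtain ⟨wt, K', hle, hne', hs, -⟩ := key Finset.univ
  obtain ⟨u, hu, hu0⟩ := Submodule.exists_mem_ne_zero_of_ne_bot hne'
  have huK := (hK u).1 (hle hu)
  exact ⟨u, huK.1, wt, hu0, huK.2, fun i => hs u hu i (Finset.mem_univ i)⟩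

end Exists

section Joint

set_option linter.unusedSectionVars false
set_option linter.unusedSimpArgs false

variable {M : Type*} [AddCommGroup M] [Module ℂ M] (SL SR : Sys A M)
    (hEE : ∀ i j x, SL.E i (SR.E j x) = SR.E j (SL.E i x))
    (hEF : ∀ i j x, SL.E i (SR.F j x) = SR.F j (SL.E i x))
    (hFE : ∀ i j x, SL.F i (SR.E j x) = SR.E j (SL.F i x))
    (hFF : ∀ i j x, SL.F i (SR.F j x) = SR.F j (SL.F i x))

/-- the matrix of the joint system -/
def AA (A : Matrix ι ι ℤ) : Matrix (ι ⊕ ι) (ι ⊕ ι) ℤ := Matrix.fromBlocks A 0 0 A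

theorem H_eq (S : Sys A M) (i : ι) (x : M) : S.H i x = S.E i (S.F i x) - S.F i (S.E i x) := by
  have h1 := S.EF i i x
  rw [if_pos rfl] at h1
  rw [h1]; abel

/-- the joint system of two commuting systems -/
def joint : Sys (AA A) M where
  E := Sum.elim SL.E SR.E
  F := Sum.elim SL.F SR.F
  H := Sum.elim SL.H SR.H
  HH i j x := by
    rcases i with i | i <;> rcases j with j | j
    · exact SL.HH i j x
    · simp only [Sum.elim_inl, Sum.elim_inr, H_eq, hEE, hEF, hFE, hFF, map_sub]; abel
    · simp only [Sum.elim_inl, Sum.elim_inr, H_eq, hEE, hEF, hFE, hFF, map_sub]; abel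
    · exact SR.HH i j x
  HE i j x := by
    rcases i with i | i <;> rcases j with j | j
    · exact SL.HE i j x
    · simp only [Sum.elim_inl, Sum.elim_inr, H_eq, hEE, hEF, hFE, hFF, map_sub, AA,
        Matrix.fromBlocks_apply₁₂, Matrix.zero_apply, Int.cast_zero, zero_smul, add_zero]
    · simp only [Sum.elim_inl, Sum.elim_inr, H_eq, hEE, hEF, hFE, hFF, map_sub, AA,
        Matrix.fromBlocks_apply₂₁, Matrix.zero_apply, Int.cast_zero, zero_smul, add_zero]
    · exact SR.HE i j x
  HF i j x := by
    rcases i with i | i <;> rcases j with j | j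
    · exact SL.HF i j x
    · simp only [Sum.elim_inl, Sum.elim_inr, H_eq, hEE, hEF, hFE, hFF, map_sub, AA,
        Matrix.fromBlocks_apply₁₂, Matrix.zero_apply, Int.cast_zero, zero_smul, sub_zero]
    · simp only [Sum.elim_inl, Sum.elim_inr, H_eq, hEE, hEF, hFE, hFF, map_sub, AA,
        Matrix.fromBlocks_apply₂₁, Matrix.zero_apply, Int.cast_zero, zero_smul, sub_zero]
    · exact SR.HF i j x
  EF i j x := by
    rcases i with i | i <;> rcases j with j | j
    · simp only [Sum.elim_inl, SL.EF i j x, Sum.inl.injEq]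
    · simp only [Sum.elim_inl, Sum.elim_inr, hEF, reduceCtorEq, if_false, add_zero]
    · simp only [Sum.elim_inl, Sum.elim_inr, hFE, reduceCtorEq, if_false, add_zero]
    · simp only [Sum.elim_inr, SR.EF i j x, Sum.inr.injEq]

theorem hθ_joint {θ : ι → ℂ} (hθ : ∀ j, ∑ i, θ i * A i j = 1) (j : ι ⊕ ι) :
    ∑ i, Sum.elim θ θ i * (AA A i j : ℂ) = 1 := by
  rw [Fintype.sum_sum_type]
  rcases j with j | j
  · simp [AA, hθ]
  · simp [AA, hθ]

end Joint

section TensorJoint

variable {M M' : Type*} [AddCommGroup M] [Module ℂ M] [AddCommGroup M'] [Module ℂ M']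
  (S : Sys A M) (S' : Sys A M')

/-- the first factor acting on the tensor product -/
def lft : Sys A (M ⊗[ℂ] M') where
  E i := (S.E i).rTensor M'
  F i := (S.F i).rTensor M'
  H i := (S.H i).rTensor M'
  HH i j x := by
    induction x using TensorProduct.induction_on with
    | zero => simp
    | add x y hx hy => simp only [map_add, hx, hy]
    | tmul x y => simp only [LinearMap.rTensor_tmul, S.HH i j]
  HE i j x := by
    induction x using TensorProduct.induction_on with
    | zero => simp
    | add x y hx hy => simp only [map_add, hx, hy, smul_add]; abel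
    | tmul x y =>
      simp only [LinearMap.rTensor_tmul, S.HE i j, TensorProduct.add_tmul,
        TensorProduct.smul_tmul']
  HF i j x := by
    induction x using TensorProduct.induction_on with
    | zero => simp
    | add x y hx hy => simp only [map_add, hx, hy, smul_add]; abel
    | tmul x y =>
      simp only [LinearMap.rTensor_tmul, S.HF i j, TensorProduct.sub_tmul,
        TensorProduct.smul_tmul']
  EF i j x := by
    induction x using TensorProduct.induction_on with
    | zero => simp
    | add x y hx hy =>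
      simp only [map_add, hx, hy]
      split_ifs <;> abel
    | tmul x y =>
      simp only [LinearMap.rTensor_tmul, S.EF i j, TensorProduct.add_tmul]
      split_ifs
      · rfl
      · simp only [TensorProduct.zero_tmul]

/-- the second factor acting on the tensor product -/
def rgt : Sys A (M ⊗[ℂ] M') where
  E i := (S'.E i).lTensor M
  F i := (S'.F i).lTensor M
  H i := (S'.H i).lTensor M
  HH i j x := by
    induction x using TensorProduct.induction_on with
    | zero => simp
    | add x y hx hy => simp only [map_add, hx, hy]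
    | tmul x y => simp only [LinearMap.lTensor_tmul, S'.HH i j]
  HE i j x := by
    induction x using TensorProduct.induction_on with
    | zero => simp
    | add x y hx hy => simp only [map_add, hx, hy, smul_add]; abel
    | tmul x y =>
      simp only [LinearMap.lTensor_tmul, S'.HE i j, TensorProduct.tmul_add,
        TensorProduct.tmul_smul]
  HF i j x := by
    induction x using TensorProduct.induction_on with
    | zero => simp
    | add x y hx hy => simp only [map_add, hx, hy, smul_add]; abel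
    | tmul x y =>
      simp only [LinearMap.lTensor_tmul, S'.HF i j, TensorProduct.tmul_sub,
        TensorProduct.tmul_smul]
  EF i j x := by
    induction x using TensorProduct.induction_on with
    | zero => simp
    | add x y hx hy =>
      simp only [map_add, hx, hy]
      split_ifs <;> abel
    | tmul x y =>
      simp only [LinearMap.lTensor_tmul, S'.EF i j, TensorProduct.tmul_add]
      split_ifs
      · rfl
      · simp only [TensorProduct.tmul_zero]

theorem comm_lr (f : M →ₗ[ℂ] M) (g : M' →ₗ[ℂ] M') (x : M ⊗[ℂ] M') :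
    f.rTensor M' (g.lTensor M x) = g.lTensor M (f.rTensor M' x) := by
  induction x using TensorProduct.induction_on with
  | zero => simp
  | add x y hx hy => simp only [map_add, hx, hy]
  | tmul x y => simp

/-- the joint system on the tensor product -/
def tj : Sys (AA A) (M ⊗[ℂ] M') :=
  joint (lft (M' := M') S) (rgt (M := M) S') (fun _ _ x => comm_lr _ _ x) (fun _ _ x => comm_lr _ _ x)
    (fun _ _ x => comm_lr _ _ x) (fun _ _ x => comm_lr _ _ x)

end TensorJoint

section TensorContra

variable {T T' : Type*} [NormedAddCommGroup T] [InnerProductSpace ℂ T] [NormedAddCommGroup T']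
  [InnerProductSpace ℂ T'] {Q : Sys A T} {Q' : Sys A T'}

theorem Contra.tj (h : Q.Contra) (h' : Q'.Contra) : (Q.tj Q').Contra := by
  intro i x y
  rcases i with i | i
  · change inner ℂ ((Q.E i).rTensor T' x) y = inner ℂ x ((Q.F i).rTensor T' y)
    induction x using TensorProduct.induction_on with
    | zero => simp
    | add x z hx hz => simp only [map_add, inner_add_left, hx, hz]
    | tmul a b =>
      induction y using TensorProduct.induction_on with
      | zero => simp
      | add x z hx hz => simp only [map_add, inner_add_right, hx, hz]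
      | tmul c d =>
        simp only [LinearMap.rTensor_tmul, TensorProduct.inner_tmul, h i]
  · change inner ℂ ((Q'.E i).lTensor T x) y = inner ℂ x ((Q'.F i).lTensor T y)
    induction x using TensorProduct.induction_on with
    | zero => simp
    | add x z hx hz => simp only [map_add, inner_add_left, hx, hz]
    | tmul a b =>
      induction y using TensorProduct.induction_on with
      | zero => simp
      | add x z hx hz => simp only [map_add, inner_add_right, hx, hz]
      | tmul c d =>
        simp only [LinearMap.lTensor_tmul, TensorProduct.inner_tmul, h' i]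

theorem HW.tj {v : T} {v' : T'} {wt wt' : ι → ℂ} (hv : Q.HW v wt) (hv' : Q'.HW v' wt') :
    (Q.tj Q').HW (v ⊗ₜ v') (Sum.elim wt wt') where
  ne := (hv.tensor hv').ne
  e i := by
    rcases i with i | i
    · change (Q.E i).rTensor T' (v ⊗ₜ v') = 0
      rw [LinearMap.rTensor_tmul, hv.e, TensorProduct.zero_tmul]
    · change (Q'.E i).lTensor T (v ⊗ₜ v') = 0
      rw [LinearMap.lTensor_tmul, hv'.e, TensorProduct.tmul_zero]
  h i := by
    rcases i with i | i
    · change (Q.H i).rTensor T' (v ⊗ₜ v') = wt i • _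
      rw [LinearMap.rTensor_tmul, hv.h, TensorProduct.smul_tmul']
    · change (Q'.H i).lTensor T (v ⊗ₜ v') = wt' i • _
      rw [LinearMap.lTensor_tmul, hv'.h, TensorProduct.tmul_smul]

theorem irr_gen_tj [FiniteDimensional ℂ T] [FiniteDimensional ℂ T'] {θ : ι ⊕ ι → ℂ}
    (hθ : ∀ j, ∑ i, θ i * (AA A i j : ℂ) = 1) (hc : Q.Contra) (hc' : Q'.Contra)
    {w : T ⊗[ℂ] T'} {wt : ι ⊕ ι → ℂ} (hw : (Q.tj Q').HW w wt) :
    ((Q.tj Q').restrict _ ((Q.tj Q').inv_gen w)).Irr :=
  irr_gen (T := T ⊗[ℂ] T') (Q := Q.tj Q') hθ (hc.tj hc') hw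

end TensorContra

theorem diag_criterion {F : Type*} [NormedAddCommGroup F] [InnerProductSpace ℂ F]
    [FiniteDimensional ℂ F] {θ : ι → ℂ} (hθ : ∀ j, ∑ i, θ i * A i j = 1)
    (SL SR : Sys A F) (hL : SL.Contra) (hR : SR.Contra)
    (hEE : ∀ i j x, SL.E i (SR.E j x) = SR.E j (SL.E i x))
    (hEF : ∀ i j x, SL.E i (SR.F j x) = SR.F j (SL.E i x))
    (hFE : ∀ i j x, SL.F i (SR.E j x) = SR.E j (SL.F i x))
    (hFF : ∀ i j x, SL.F i (SR.F j x) = SR.F j (SL.F i x))
    {μ μ' : ι → ℂ}
    (hjoint : ∀ (u : F) (w w' : ι → ℂ), SL.HW u w → SR.HW u w' → w = μ ∧ w' = μ')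
    {x : F} (hx : x ≠ 0) {ν : ι → ℂ} (hxE : ∀ i, SL.E i x + SR.E i x = 0)
    (hxH : ∀ i, SL.H i x + SR.H i x = ν i • x)
    {M₁ M₂ M₃ : Type*} [AddCommGroup M₁] [Module ℂ M₁] [AddCommGroup M₂]
    [Module ℂ M₂] [AddCommGroup M₃] [Module ℂ M₃] {S₁ : Sys A M₁} {S₂ : Sys A M₂} {S₃ : Sys A M₃}
    (h₁ : S₁.Irr) (h₂ : S₂.Irr) (h₃ : S₃.Irr) {v₁ : M₁} {v₂ : M₂} {v₃ : M₃}
    (hv₁ : S₁.HW v₁ μ) (hv₂ : S₂.HW v₂ μ') (hv₃ : S₃.HW v₃ ν) :
    ∃ (φ : M₃ →ₗ[ℂ] M₁ ⊗[ℂ] M₂) (ψ : M₁ ⊗[ℂ] M₂ →ₗ[ℂ] M₃), Equi S₃ (S₁.tensor S₂) φ ∧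
      Equi (S₁.tensor S₂) S₃ ψ ∧ ψ.comp φ = LinearMap.id := by
  let P : Sys (AA A) F := joint SL SR hEE hEF hFE hFF
  have hPc : P.Contra := by
    intro i x y
    rcases i with i | i
    · exact hL i x y
    · exact hR i x y
  have hθ' : ∀ j : ι ⊕ ι, ∑ i, Sum.elim θ θ i * (AA A i j : ℂ) = 1 := hθ_joint hθ
  -- the span of all submodules generated by highest weight vectors
  let W : Submodule ℂ F := ⨆ (u : F) (wt : ι ⊕ ι → ℂ) (_ : P.HW u wt), P.gen u
  have hgW : ∀ (u : F) (wt : ι ⊕ ι → ℂ), P.HW u wt → P.gen u ≤ W := fun u wt h =>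
    le_iSup_of_le u (le_iSup_of_le wt (le_iSup_of_le h le_rfl))
  have hW : P.Inv W := by
    intro i
    constructor
    · intro y hy
      have h1 : W ≤ W.comap (P.E i) := by
        refine iSup_le fun u => iSup_le fun wt => iSup_le fun h => ?_
        intro z hz
        exact hgW u wt h ((P.inv_gen u i).1 z hz)
      exact h1 hy
    · intro y hy
      have h1 : W ≤ W.comap (P.F i) := by
        refine iSup_le fun u => iSup_le fun wt => iSup_le fun h => ?_
        intro z hz
        exact hgW u wt h ((P.inv_gen u i).2 z hz)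
      exact h1 hy
  have hWo : Wᗮ = ⊥ := by
    by_contra hne
    obtain ⟨u, hu, wt, huw⟩ := P.exists_HW hθ' (hPc.orth hW) hne
    have h1 : u ∈ W := hgW u wt huw (P.mem_gen u)
    have h2 := W.inf_orthogonal_eq_bot.le ⟨h1, hu⟩
    exact huw.ne ((Submodule.mem_bot ℂ).1 h2)
  -- a component of `x`
  obtain ⟨u, wt, huw, hxu⟩ : ∃ (u : F) (wt : ι ⊕ ι → ℂ), P.HW u wt ∧ x ∉ (P.gen u)ᗮ := by
    by_contra hno
    push Not at hno
    have h1 : x ∈ Wᗮ := by
      rw [Submodule.mem_orthogonal]
      intro y hy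
      have h2 : W ≤ (ℂ ∙ x)ᗮ := by
        refine iSup_le fun u => iSup_le fun wt => iSup_le fun h => ?_
        intro z hz
        rw [Submodule.mem_orthogonal_singleton_iff_inner_left]
        exact (Submodule.mem_orthogonal _ _).1 (hno u wt h) z hz
      exact Submodule.mem_orthogonal_singleton_iff_inner_left.1 (h2 hy)
    rw [hWo, Submodule.mem_bot] at h1
    exact hx h1
  have huL : SL.HW u (fun i => wt (Sum.inl i)) :=
    ⟨huw.ne, fun i => huw.e (Sum.inl i), fun i => huw.h (Sum.inl i)⟩
  have huR : SR.HW u (fun i => wt (Sum.inr i)) :=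
    ⟨huw.ne, fun i => huw.e (Sum.inr i), fun i => huw.h (Sum.inr i)⟩
  obtain ⟨hwμ, hwμ'⟩ := hjoint u _ _ huL huR
  rw [hwμ] at huL
  rw [hwμ'] at huR
  have huP : P.HW u (Sum.elim μ μ') := by
    refine ⟨huw.ne, huw.e, fun i => ?_⟩
    rcases i with i | i
    · exact huL.h i
    · exact huR.h i
  set N := P.gen u with hNdef
  have hN : P.Inv N := P.inv_gen u
  have hNo : P.Inv Nᗮ := hPc.orth hN
  obtain ⟨y, hy, z, hz, hyz⟩ := N.exists_add_mem_mem_orthogonal x
  have hy0 : y ≠ 0 := by
    rintro rfl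
    rw [zero_add] at hyz
    rw [hyz] at hxu
    exact hxu hz
  have hsplit : ∀ a ∈ N, ∀ b ∈ Nᗮ, a + b = 0 → a = 0 := by
    intro a ha b hb hab
    have h1 : a ∈ Nᗮ := by
      have : a = -b := eq_neg_of_add_eq_zero_left hab
      rw [this]; exact Nᗮ.neg_mem hb
    exact (Submodule.mem_bot ℂ).1 (N.inf_orthogonal_eq_bot.le ⟨ha, h1⟩)
  have hyE : ∀ i, SL.E i y + SR.E i y = 0 := by
    intro i
    refine hsplit _ (N.add_mem ((hN (Sum.inl i)).1 y hy) ((hN (Sum.inr i)).1 y hy))
      (SL.E i z + SR.E i z) (Nᗮ.add_mem ((hNo (Sum.inl i)).1 z hz) ((hNo (Sum.inr i)).1 z hz)) ?_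
    have h1 := hxE i
    rw [hyz, map_add, map_add] at h1
    rw [← h1]; abel
  have hyH : ∀ i, SL.H i y + SR.H i y = ν i • y := by
    intro i
    have h2 := hsplit (SL.H i y + SR.H i y - ν i • y)
      (N.sub_mem (N.add_mem (hN.H (Sum.inl i) hy) (hN.H (Sum.inr i) hy)) (N.smul_mem _ hy))
      (SL.H i z + SR.H i z - ν i • z)
      (Nᗮ.sub_mem (Nᗮ.add_mem (hNo.H (Sum.inl i) hz) (hNo.H (Sum.inr i) hz)) (Nᗮ.smul_mem _ hz))
      (by
        have h1 := hxH i
        rw [hyz, map_add, map_add, smul_add] at h1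
        have h3 : SL.H i y + SR.H i y - ν i • y + (SL.H i z + SR.H i z - ν i • z) =
            (SL.H i y + SL.H i z + (SR.H i y + SR.H i z)) - (ν i • y + ν i • z) := by abel
        rw [h3, h1, sub_self])
    exact sub_eq_zero.1 h2
  -- the tensor product of the two generated modules
  let QL := SL.restrict (SL.gen u) (SL.inv_gen u)
  let QR := SR.restrict (SR.gen u) (SR.inv_gen u)
  have hQL : QL.HW ⟨u, SL.mem_gen u⟩ μ := huL.restrict (SL.inv_gen u) (SL.mem_gen u)
  have hQR : QR.HW ⟨u, SR.mem_gen u⟩ μ' := huR.restrict (SR.inv_gen u) (SR.mem_gen u)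
  have hQw := hQL.tj hQR
  set w : SL.gen u ⊗[ℂ] SR.gen u := (⟨u, SL.mem_gen u⟩ : SL.gen u) ⊗ₜ (⟨u, SR.mem_gen u⟩ : SR.gen u)
    with hw
  obtain ⟨β, hβ, -⟩ := (P.restrict N hN).exists_equiv ((QL.tj QR).restrict _ ((QL.tj QR).inv_gen w))
    hθ' (P.irr_gen hθ' hPc huP)
    (irr_gen_tj hθ' (hL.restrict (SL.inv_gen u)) (hR.restrict (SR.inv_gen u)) hQw)
    (huP.restrict hN (P.mem_gen u)) (hQw.restrict ((QL.tj QR).inv_gen w) ((QL.tj QR).mem_gen w))
  let s : SL.gen u ⊗[ℂ] SR.gen u := (β ⟨y, hy⟩ : (QL.tj QR).gen w)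
  have hsE : ∀ i : ι ⊕ ι, (QL.tj QR).E i s = (β ⟨P.E i y, (hN i).1 y hy⟩ : (QL.tj QR).gen w) := by
    intro i
    have h1 := (hβ i ⟨y, hy⟩).1
    exact (congrArg Subtype.val h1).symm
  have hsH : ∀ i : ι ⊕ ι, (QL.tj QR).H i s = (β ⟨P.H i y, hN.H i hy⟩ : (QL.tj QR).gen w) := by
    intro i
    have h1 := hβ.H i ⟨y, hy⟩
    exact (congrArg Subtype.val h1).symm
  have hs : (QL.tensor QR).HW s ν := by
    refine ⟨?_, ?_, ?_⟩
    · intro h
      have h1 : β ⟨y, hy⟩ = 0 := Subtype.ext h
      rw [LinearEquiv.map_eq_zero_iff] at h1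
      exact hy0 (congrArg Subtype.val h1)
    · intro i
      change (QL.tj QR).E (Sum.inl i) s + (QL.tj QR).E (Sum.inr i) s = 0
      rw [hsE, hsE, ← Submodule.coe_add, ← map_add]
      have h1 : (⟨P.E (Sum.inl i) y, (hN _).1 y hy⟩ : N) + ⟨P.E (Sum.inr i) y, (hN _).1 y hy⟩ = 0 :=
        Subtype.ext (hyE i)
      rw [h1, map_zero, Submodule.coe_zero]
    · intro i
      change (QL.tj QR).H (Sum.inl i) s + (QL.tj QR).H (Sum.inr i) s = ν i • s
      rw [hsH, hsH, ← Submodule.coe_add, ← map_add]
      have h1 : (⟨P.H (Sum.inl i) y, hN.H _ hy⟩ : N) + ⟨P.H (Sum.inr i) y, hN.H _ hy⟩ =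
          ν i • (⟨y, hy⟩ : N) := Subtype.ext (hyH i)
      rw [h1, map_smul, Submodule.coe_smul]
  exact criterion hθ hL hR huL huR hs h₁ h₂ h₃ hv₁ hv₂ hv₃

end Sys

end

end Kost
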