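import Pool.Agent.Kost.SpinA5
import Pool.Agent.Kost.SpinA6

/-!
# Module A7 (MP_869ec4): a highest weight vector in `Λ(𝔤)` gives a summand of `V(ρ) ⊗ V(ρ)`
(uses A1 - A6)

PROOF. `SL`, `SR : Sys A (Fock K)` from the Lie homomorphisms `gam L`, `gam R` (`gam_gam`) and the
Chevalley generators; contravariance from `inner_gam` and `st_e`; they commute (`gamL_gamR`).
Joint highest weight vectors: `{X | gam C X u = 0}` is closed under brackets, contains the `e i`,
hence contains all positive `b a` (`gen`).  To use `hw_rho` one needs joint eigenvectors of the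
`gam C (H i)`, while `HW` only gives eigenvectors of the `h i`: but the subspace of vectors killed
by the `e i` with `h i`-weight `w` is stable under the commuting self adjoint operators
`gam C (H j)`, so it contains a joint eigenvector `u'`, and `hw_rho` for `u'` gives
`w i = ∑ co i j ρ j`.  Then `diag_criterion` with `SL + SR = adF` (`gamL_add_gamR`).
-/

open TensorProduct Module

namespace Kost

noncomputable section

variable {𝔤 : Type*} [LieRing 𝔤] [LieAlgebra ℂ 𝔤] {K : Type*} [Fintype K] [DecidableEq K]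
  {D : QD 𝔤 K} {n : ℕ} {T : TD D n} {A : Matrix (Fin n) (Fin n) ℤ}

/-- A commuting family stabilising a nonzero subspace has a joint eigenvector in it. -/
theorem exists_joint_eigenvector {V : Type*} [AddCommGroup V] [Module ℂ V]
    [FiniteDimensional ℂ V] {n : ℕ} (B : Fin n → Module.End ℂ V)
    (hB : ∀ i j x, B i (B j x) = B j (B i x)) (W : Submodule ℂ V) (hW : W ≠ ⊥)
    (hst : ∀ i, ∀ x ∈ W, B i x ∈ W) :
    ∃ v ∈ W, v ≠ 0 ∧ ∃ ν : Fin n → ℂ, ∀ i, B i v = ν i • v := by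
  classical
  have key : ∀ s : Finset (Fin n), ∃ v ∈ W, v ≠ 0 ∧ ∃ ν : Fin n → ℂ, ∀ i ∈ s,
      B i v = ν i • v := by
    intro s
    induction s using Finset.induction_on with
    | empty =>
      obtain ⟨v, hv, hv0⟩ := (Submodule.ne_bot_iff W).1 hW
      exact ⟨v, hv, hv0, 0, by simp⟩
    | insert k s hk ih =>
      obtain ⟨v, hv, hv0, ν, hν⟩ := ih
      let U : Submodule ℂ V :=
        { carrier := {x | x ∈ W ∧ ∀ i ∈ s, B i x = ν i • x}
          add_mem' := by
            rintro x y ⟨hx, hx'⟩ ⟨hy, hy'⟩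
            exact ⟨W.add_mem hx hy, fun i hi => by rw [map_add, hx' i hi, hy' i hi, smul_add]⟩
          zero_mem' := ⟨W.zero_mem, fun i _ => by simp⟩
          smul_mem' := by
            rintro c x ⟨hx, hx'⟩
            exact ⟨W.smul_mem c hx, fun i hi => by rw [map_smul, hx' i hi, smul_comm]⟩ }
      have hU : ∀ x ∈ U, B k x ∈ U := by
        rintro x ⟨hx, hx'⟩
        exact ⟨hst k x hx, fun i hi => by rw [hB, hx' i hi, map_smul]⟩
      have hnt : Nontrivial U := ⟨⟨v, hv, hν⟩, 0, fun h => hv0 (congrArg Subtype.val h)⟩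
      obtain ⟨c, hc⟩ := Module.End.exists_eigenvalue ((B k).restrict hU)
      obtain ⟨u, hu⟩ := hc.exists_hasEigenvector
      refine ⟨u, u.2.1, fun h => hu.2 (Subtype.ext h), Function.update ν k c, ?_⟩
      intro i hi
      rcases Finset.mem_insert.1 hi with rfl | hi
      · rw [Function.update_self]
        exact congrArg Subtype.val hu.apply_eq_smul
      · have hik : i ≠ k := fun h => hk (h ▸ hi)
        rw [Function.update_of_ne hik]
        exact u.2.2 i hi
  obtain ⟨v, hv, hv0, ν, hν⟩ := key Finset.univ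
  exact ⟨v, hv, hv0, ν, fun i => hν i (Finset.mem_univ i)⟩

theorem gam_apply_comm {C : 𝔤 →ₗ[ℂ] Module.End ℂ (Fock K)} (hC : D.IsCliff C) (X Y : 𝔤)
    (x : Fock K) :
    D.gam C X (D.gam C Y x) = D.gam C Y (D.gam C X x) + D.gam C ⁅X, Y⁆ x := by
  rw [← D.gam_gam hC X Y, LinearMap.sub_apply, Module.End.mul_apply, Module.End.mul_apply]
  abel

/-- The Chevalley system of a spin action. -/
def spinSys (G : CD T A) {C : 𝔤 →ₗ[ℂ] Module.End ℂ (Fock K)} (hC : D.IsCliff C) :
    Sys A (Fock K) where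
  E i := D.gam C (G.e i)
  F i := D.gam C (G.f i)
  H i := D.gam C (G.h i)
  HH i j x := by
    rw [gam_apply_comm hC, G.hh, map_zero, LinearMap.zero_apply, add_zero]
  HE i j x := by
    rw [gam_apply_comm hC, G.he, map_smul, LinearMap.smul_apply]
  HF i j x := by
    rw [gam_apply_comm hC, G.hf, map_neg, map_smul, LinearMap.neg_apply, LinearMap.smul_apply,
      sub_eq_add_neg]
  EF i j x := by
    rw [gam_apply_comm hC, G.ef]
    split_ifs
    · rfl
    · rw [map_zero, LinearMap.zero_apply]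

theorem spinSys_contra (G : CD T A) {C : 𝔤 →ₗ[ℂ] Module.End ℂ (Fock K)} (hC : D.IsCliff C)
    (hadj : ∀ X u v, inner ℂ (C X u) v = inner ℂ u (C (D.st X) v)) :
    (spinSys G hC).Contra := by
  intro i x y
  change inner ℂ (D.gam C (G.e i) x) y = inner ℂ x (D.gam C (G.f i) y)
  rw [D.inner_gam hadj, G.st_e]

/-- The elements killing a vector under the spin action. -/
def annih {C : 𝔤 →ₗ[ℂ] Module.End ℂ (Fock K)} (hC : D.IsCliff C) (u : Fock K) :
    LieSubalgebra ℂ 𝔤 where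
  carrier := {X | D.gam C X u = 0}
  add_mem' := by
    intro X Y hX hY
    rw [Set.mem_ofPred_eq] at hX hY ⊢
    rw [map_add, LinearMap.add_apply, hX, hY, add_zero]
  zero_mem' := by
    rw [Set.mem_ofPred_eq, map_zero, LinearMap.zero_apply]
  smul_mem' := by
    intro c X hX
    rw [Set.mem_ofPred_eq] at hX ⊢
    rw [map_smul, LinearMap.smul_apply, hX, smul_zero]
  lie_mem' := by
    intro X Y hX hY
    change D.gam C X u = 0 at hX
    change D.gam C Y u = 0 at hY
    change D.gam C ⁅X, Y⁆ u = 0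
    have h := gam_apply_comm hC X Y u
    rw [hX, hY, map_zero, map_zero, zero_add] at h
    exact h.symm

theorem lie_H_H (T : TD D n) (i j : Fin n) : ⁅T.H i, T.H j⁆ = 0 := by
  rw [T.b_z j, lie_smul, T.lie_H, T.wt_z]
  simp

/-- Every highest weight of a spin action is `ρ`. -/
theorem spin_hw (G : CD T A) {C : 𝔤 →ₗ[ℂ] Module.End ℂ (Fock K)} (hC : D.IsCliff C)
    (hadj : ∀ X u v, inner ℂ (C X u) v = inner ℂ u (C (D.st X) v))
    (hcas : ∃ c : ℂ, D.cas C = c • 1) {u0 : Fock K} (h0 : u0 ≠ 0)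
    (hu0 : ∀ a, 0 < T.ht a → C (D.b a) u0 = 0) {u : Fock K} {w : Fin n → ℂ}
    (hu : (spinSys G hC).HW u w) : w = fun i => ∑ j, (G.co i j : ℂ) * T.rho j := by
  -- the subspace of the highest weight vectors
  let W : Submodule ℂ (Fock K) :=
    { carrier := {x | (∀ a, 0 < T.ht a → D.gam C (D.b a) x = 0) ∧
        ∀ i, D.gam C (G.h i) x = w i • x}
      add_mem' := by
        rintro x y ⟨hx, hx'⟩ ⟨hy, hy'⟩
        exact ⟨fun a ha => by rw [map_add, hx a ha, hy a ha, add_zero],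
          fun i => by rw [map_add, hx' i, hy' i, smul_add]⟩
      zero_mem' := ⟨fun a _ => by simp, fun i => by simp⟩
      smul_mem' := by
        rintro c x ⟨hx, hx'⟩
        exact ⟨fun a ha => by rw [map_smul, hx a ha, smul_zero],
          fun i => by rw [map_smul, hx' i, smul_comm]⟩ }
  have huW : u ∈ W := by
    refine ⟨fun a ha => ?_, fun i => hu.h i⟩
    have h1 : LieSubalgebra.lieSpan ℂ 𝔤 (Set.range G.e) ≤ annih hC u := by
      rw [LieSubalgebra.lieSpan_le]
      rintro _ ⟨i, rfl⟩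
      exact hu.e i
    exact h1 (G.gen a ha)
  have hWne : W ≠ ⊥ := by
    rw [Submodule.ne_bot_iff]
    exact ⟨u, huW, hu.ne⟩
  have hhH : ∀ i j, ⁅G.h i, T.H j⁆ = 0 := by
    intro i j
    rw [G.h_eq, sum_lie]
    refine Finset.sum_eq_zero fun k _ => ?_
    rw [smul_lie, lie_H_H, smul_zero]
  have hst : ∀ j, ∀ x ∈ W, D.gam C (T.H j) x ∈ W := by
    rintro j x ⟨hx, hx'⟩
    refine ⟨fun a ha => ?_, fun i => ?_⟩
    · have h1 := gam_apply_comm hC (T.H j) (D.b a) x
      rw [hx a ha, map_zero, T.lie_H, map_smul, LinearMap.smul_apply, hx a ha, smul_zero,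
        add_zero] at h1
      exact h1.symm
    · rw [gam_apply_comm hC, hhH, map_zero, LinearMap.zero_apply, add_zero, hx' i, map_smul]
  obtain ⟨v, hv, hv0, ν, hν⟩ := exists_joint_eigenvector (fun j => D.gam C (T.H j))
    (fun i j x => by
      rw [gam_apply_comm hC, lie_H_H, map_zero, LinearMap.zero_apply, add_zero]) W hWne hst
  have hrho : ∀ i, ν i = (T.rho i : ℂ) := fun i =>
    T.hw_rho hC hadj hcas h0 hu0 hv0 hv.1 hν i
  funext i
  have h1 := hv.2 i
  rw [G.h_eq, map_sum, LinearMap.sum_apply] at h1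
  have h2 : ∑ j, D.gam C ((G.co i j : ℂ) • T.H j) v =
      (∑ j, (G.co i j : ℂ) * T.rho j) • v := by
    rw [Finset.sum_smul]
    refine Finset.sum_congr rfl fun j _ => ?_
    rw [map_smul, LinearMap.smul_apply, hν, hrho, smul_smul]
  rw [h2] at h1
  exact (smul_left_injective ℂ hv0 h1).symm

theorem spin_main (G : CD T A) {x : Fock K} (hx : x ≠ 0) {ν : Fin n → ℂ}
    (hxE : ∀ i, D.adF (G.e i) x = 0) (hxH : ∀ i, D.adF (G.h i) x = ν i • x)
    {M₁ M₂ M₃ : Type*} [AddCommGroup M₁] [Module ℂ M₁] [AddCommGroup M₂]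
    [Module ℂ M₂] [AddCommGroup M₃] [Module ℂ M₃] {S₁ : Sys A M₁} {S₂ : Sys A M₂} {S₃ : Sys A M₃}
    (h₁ : S₁.Irr) (h₂ : S₂.Irr) (h₃ : S₃.Irr) {v₁ : M₁} {v₂ : M₂} {v₃ : M₃}
    (hv₁ : S₁.HW v₁ (fun i => ∑ j, (G.co i j : ℂ) * T.rho j))
    (hv₂ : S₂.HW v₂ (fun i => ∑ j, (G.co i j : ℂ) * T.rho j)) (hv₃ : S₃.HW v₃ ν) :
    ∃ (φ : M₃ →ₗ[ℂ] M₁ ⊗[ℂ] M₂) (ψ : M₁ ⊗[ℂ] M₂ →ₗ[ℂ] M₃), Sys.Equi S₃ (S₁.tensor S₂) φ ∧
      Sys.Equi (S₁.tensor S₂) S₃ ψ ∧ ψ.comp φ = LinearMap.id := by
  have hcomm : ∀ (X Y : 𝔤) (y : Fock K),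
      D.gam D.L X (D.gam D.R Y y) = D.gam D.R Y (D.gam D.L X y) := by
    intro X Y y
    have h := LinearMap.congr_fun (D.gamL_gamR X Y) y
    rwa [Module.End.mul_apply, Module.End.mul_apply] at h
  have hsum : ∀ (X : 𝔤) (y : Fock K), D.gam D.L X y + D.gam D.R X y = D.adF X y := by
    intro X y
    rw [← D.gamL_add_gamR X, LinearMap.add_apply]
  refine Sys.diag_criterion G.hth (spinSys G D.isCliff_L) (spinSys G D.isCliff_R)
    (spinSys_contra G D.isCliff_L D.inner_L) (spinSys_contra G D.isCliff_R D.inner_R)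
    (fun i j y => hcomm _ _ y) (fun i j y => hcomm _ _ y) (fun i j y => hcomm _ _ y)
    (fun i j y => hcomm _ _ y) ?_ hx (ν := ν) (fun i => ?_) (fun i => ?_) h₁ h₂ h₃ hv₁ hv₂ hv₃
  · intro u w w' hw hw'
    exact ⟨spin_hw G D.isCliff_L D.inner_L D.casL_scalar (ee_ne_zero T.pos) T.L_base hw,
      spin_hw G D.isCliff_R D.inner_R D.casR_scalar (ee_ne_zero T.pos) T.R_base hw'⟩
  · rw [← hxE i]
    exact hsum _ x
  · rw [← hxH i]
    exact hsum _ x

end

end Kost
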