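import Pool.Agent.Kost.FinalLie
import Pool.Agent.Kost.SpinA7

/-!
# Kostant's property from highest weight vectors in the Fock space `Λ(𝔤)` (MP_869ec4)

`kprop_of_vectors`: if for every dominant `lam ≤ 2ρ` the adjoint action on `Λ(𝔤)` has a highest
weight vector of weight `lam`, then `KProp A`.
-/

open Module TensorProduct

namespace Kost

noncomputable section

variable {𝔤 : Type*} [LieRing 𝔤] [LieAlgebra ℂ 𝔤] {K : Type} [Fintype K] [DecidableEq K]
  (D : QD 𝔤 K)

theorem adM_lie (X Y : 𝔤) : D.adM ⁅X, Y⁆ = D.adM X * D.adM Y - D.adM Y * D.adM X := by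
  have key : ∀ (X Y : 𝔤) (a c : K), (D.adM X * D.adM Y) a c =
      D.form ⁅X, ⁅Y, D.b c⁆⁆ (D.st (D.b a)) := by
    intro X Y a c
    rw [Matrix.mul_apply]
    conv_rhs => rw [D.expand ⁅Y, D.b c⁆]
    simp only [lie_sum, lie_smul, map_sum, map_smul, LinearMap.sum_apply, LinearMap.smul_apply,
      smul_eq_mul, QD.adM]
    exact Finset.sum_congr rfl fun d _ => mul_comm _ _
  ext a c
  rw [Matrix.sub_apply, key, key, QD.adM, lie_lie, map_sub, LinearMap.sub_apply]

theorem adF_lie (X Y : 𝔤) : D.adF X * D.adF Y - D.adF Y * D.adF X = D.adF ⁅X, Y⁆ := by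
  rw [QD.adF, QD.adF, dG_lie, ← adM_lie]
  rfl

theorem adF_smul (c : ℂ) (X : 𝔤) : D.adF (c • X) = c • D.adF X := by
  rw [QD.adF, QD.adF, ← dG_smul]
  congr 1
  ext a e
  simp only [QD.adM, smul_lie, map_smul, LinearMap.smul_apply, Matrix.smul_apply]

theorem adF_zero : D.adF 0 = 0 := by
  have := adF_smul D 0 0
  rwa [zero_smul, zero_smul] at this

theorem adF_neg (X : 𝔤) : D.adF (-X) = -D.adF X := by
  have := adF_smul D (-1) X
  rwa [neg_one_smul, neg_one_smul] at this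

theorem adM_conjTranspose (X : 𝔤) : (D.adM X).conjTranspose = D.adM (D.st X) := by
  ext a c
  simp only [Matrix.conjTranspose_apply, QD.adM]
  rw [Complex.star_def, ← D.form_st, D.st_lie, D.st_st, D.form_inv, D.form_symm]

theorem inner_adF (X : 𝔤) (u v : Fock K) :
    inner ℂ (D.adF X u) v = inner ℂ u (D.adF (D.st X) v) := by
  rw [QD.adF, inner_dG, adM_conjTranspose]
  rfl

variable {D} {n : ℕ} {T : TD D n} {A : Matrix (Fin n) (Fin n) ℤ}

theorem adF_rel {X Y Z : 𝔤} (h : ⁅X, Y⁆ = Z) (u : Fock K) :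
    D.adF X (D.adF Y u) = D.adF Y (D.adF X u) + D.adF Z u := by
  have := LinearMap.congr_fun (adF_lie D X Y) u
  simp only [LinearMap.sub_apply, Module.End.mul_apply, h] at this
  rw [← this]; abel

/-- the adjoint action on the Fock space as a system -/
def adSys (G : CD T A) : Sys A (Fock K) where
  E i := D.adF (G.e i)
  F i := D.adF (G.f i)
  H i := D.adF (G.h i)
  HH i j x := by rw [adF_rel (G.hh i j), adF_zero, LinearMap.zero_apply, add_zero]
  HE i j x := by rw [adF_rel (G.he i j), adF_smul, LinearMap.smul_apply]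
  HF i j x := by
    rw [adF_rel (G.hf i j), adF_neg, adF_smul, LinearMap.neg_apply, LinearMap.smul_apply]
    abel
  EF i j x := by
    rw [adF_rel (G.ef i j)]
    split_ifs
    · rfl
    · rw [adF_zero, LinearMap.zero_apply]

theorem adSys_contra (G : CD T A) : (adSys G).Contra := by
  intro i x y
  have := inner_adF D (G.e i) x y
  rwa [G.st_e] at this

theorem kprop1_of_vector.{u} (G : CD T A) (hrho : ∀ i, ∑ j, (G.co i j : ℂ) * T.rho j = 1)
    {lam : Fin n → ℕ} {x : Fock K} (hx : x ≠ 0) (hxE : ∀ i, D.adF (G.e i) x = 0)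
    (hxH : ∀ i, D.adF (G.h i) x = (lam i : ℂ) • x) : KProp1.{u} A lam := by
  have hHW : (adSys G).HW x (fun i => (lam i : ℂ)) := ⟨hx, hxE, hxH⟩
  have hinv := (adSys G).inv_gen x
  refine ⟨(adSys G).gen x, _, _, (adSys G).restrict _ hinv, ⟨x, (adSys G).mem_gen x⟩,
    inferInstance, (adSys G).irr_gen G.hth (adSys_contra G) hHW,
    hHW.restrict hinv ((adSys G).mem_gen x), ?_⟩
  intro M' _ _ S' v' hS' hv'
  have hv'' : S'.HW v' (fun i => ∑ j, (G.co i j : ℂ) * T.rho j) := by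
    simpa only [hrho] using hv'
  exact spin_main G hx hxE hxH hS' hS' ((adSys G).irr_gen G.hth (adSys_contra G) hHW) hv'' hv''
    (hHW.restrict hinv ((adSys G).mem_gen x))

theorem kprop_of_vectors.{u} (G : CD T A) (hrho : ∀ i, ∑ j, (G.co i j : ℂ) * T.rho j = 1)
    (hvec : ∀ lam c : Fin n → ℕ, (∀ i, (lam i : ℤ) + ∑ j, A i j * c j = 2) →
      ∃ x : Fock K, x ≠ 0 ∧ (∀ i, D.adF (G.e i) x = 0) ∧
        ∀ i, D.adF (G.h i) x = (lam i : ℂ) • x) : KProp.{u} A := by
  intro lam c hc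
  obtain ⟨x, hx, hxE, hxH⟩ := hvec lam c hc
  exact kprop1_of_vector G hrho hx hxE hxH

/-! ### symmetries of the diagram -/

/-- permuting the index set by a symmetry of the matrix -/
def Sys.twist {ι : Type*} [Fintype ι] [DecidableEq ι] {A : Matrix ι ι ℤ} {M : Type*}
    [AddCommGroup M] [Module ℂ M] (S : Sys A M) (τ : ι ≃ ι)
    (hτ : ∀ i j, A (τ i) (τ j) = A i j) : Sys A M where
  E i := S.E (τ i)
  F i := S.F (τ i)
  H i := S.H (τ i)
  HH i j x := S.HH _ _ x
  HE i j x := by rw [S.HE, hτ]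
  HF i j x := by rw [S.HF, hτ]
  EF i j x := by
    rw [S.EF]
    by_cases h : i = j
    · rw [if_pos h, if_pos (congrArg τ h)]
    · rw [if_neg h, if_neg (fun h' => h (τ.injective h'))]

theorem kprop1_twist.{u} {τ : Fin n ≃ Fin n} (hτ : ∀ i j, A (τ i) (τ j) = A i j)
    (hττ : ∀ i, τ (τ i) = i) {lam : Fin n → ℕ} (h : KProp1.{u} A (fun i => lam (τ i))) :
    KProp1.{u} A lam := by
  obtain ⟨M, _, _, S, v, hfd, hirr, hhw, hmain⟩ := h
  have inv_iff : ∀ {M₁ : Type _} [AddCommGroup M₁] [Module ℂ M₁] (S₁ : Sys A M₁)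
      (N : Submodule ℂ M₁), (S₁.twist τ hτ).Inv N → S₁.Inv N := by
    intro M₁ _ _ S₁ N hN i
    have := hN (τ i)
    refine ⟨fun x hx => ?_, fun x hx => ?_⟩
    · have h1 := this.1 x hx
      change S₁.E (τ (τ i)) x ∈ N at h1
      rwa [hττ] at h1
    · have h1 := this.2 x hx
      change S₁.F (τ (τ i)) x ∈ N at h1
      rwa [hττ] at h1
  refine ⟨M, _, _, S.twist τ hτ, v, hfd, ⟨hirr.1, fun N hN => hirr.2 N (inv_iff S N hN)⟩,
    ⟨hhw.ne, fun i => hhw.e (τ i), fun i => ?_⟩, ?_⟩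
  · have := hhw.h (τ i)
    simp only [hττ] at this
    exact this
  · intro M' _ _ S' v' hS' hv'
    have hS'' : (S'.twist τ hτ).Irr := by
      refine ⟨hS'.1, fun N hN => hS'.2 N ?_⟩
      intro i
      have := hN (τ i)
      refine ⟨fun x hx => ?_, fun x hx => ?_⟩
      · have h1 := this.1 x hx
        change S'.E (τ (τ i)) x ∈ N at h1
        rwa [hττ] at h1
      · have h1 := this.2 x hx
        change S'.F (τ (τ i)) x ∈ N at h1
        rwa [hττ] at h1
    obtain ⟨φ, ψ, hφ, hψ, hid⟩ := hmain M' (S'.twist τ hτ) v' hS''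
      ⟨hv'.ne, fun i => hv'.e (τ i), fun i => hv'.h (τ i)⟩
    have hE : ∀ i, ((S'.twist τ hτ).tensor (S'.twist τ hτ)).E (τ i) = (S'.tensor S').E i := by
      intro i
      change (S'.E (τ (τ i))).rTensor M' + (S'.E (τ (τ i))).lTensor M' = _
      rw [hττ]; rfl
    have hF : ∀ i, ((S'.twist τ hτ).tensor (S'.twist τ hτ)).F (τ i) = (S'.tensor S').F i := by
      intro i
      change (S'.F (τ (τ i))).rTensor M' + (S'.F (τ (τ i))).lTensor M' = _
      rw [hττ]; rfl
    refine ⟨φ, ψ, fun i x => ?_, fun i x => ?_, hid⟩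
    · rw [← hE, ← hF]
      exact hφ (τ i) x
    · rw [← hE, ← hF]
      exact hψ (τ i) x

end

end Kost
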