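import Mathlib

/-!
# One-sided Landau sequences and fixed points

`w 0 ≤ w 1 ≤ … ≤ w (N-1)` with `∑_{i<k} w i ≥ k²` for all `k ≤ N`.  Then there is
`X : ℕ → ℤ`, `X ≥ 0` on `[0,N)`, with `w l = X l + #{i < N : X i ≤ l}` for all `l < N`;
every fixed point of the corresponding monotone map has this property.
-/

namespace Kost

namespace Landau

open Finset

variable {N : ℕ} {w g : ℕ → ℤ}

/-- number of indices `i < N` with `w i - g i < m` -/
def cnt (N : ℕ) (X : ℕ → ℤ) (m : ℤ) : ℤ := (((range N).filter fun i => X i < m).card : ℤ)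

theorem cnt_nonneg (X : ℕ → ℤ) (m : ℤ) : 0 ≤ cnt N X m := by unfold cnt; positivity

theorem cnt_le (X : ℕ → ℤ) (m : ℤ) : cnt N X m ≤ N := by
  unfold cnt
  have := card_filter_le (range N) (fun i => X i < m)
  rw [card_range] at this
  exact_mod_cast this

theorem cnt_mono (X : ℕ → ℤ) {m m' : ℤ} (h : m ≤ m') : cnt N X m ≤ cnt N X m' := by
  unfold cnt
  have : ((range N).filter fun i => X i < m) ⊆ ((range N).filter fun i => X i < m') := by
    intro i; simp only [mem_filter]; rintro ⟨h1, h2⟩; exact ⟨h1, by omega⟩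
  exact_mod_cast card_le_card this

/-- `∑_{l<k} #{i<k : X i ≤ l} = ∑_{i<k} (k - max (X i) 0)` when all `X i ≤ k` -/
theorem sum_cnt_eq (k : ℕ) (X : ℕ → ℤ) :
    ∑ l ∈ range k, cnt k X (l + 1) = ∑ i ∈ range k, ((k : ℤ) - min (max (X i) 0) k) := by
  have h1 : ∀ l : ℕ, cnt k X (l + 1) = ∑ i ∈ range k, if X i < (l:ℤ) + 1 then (1:ℤ) else 0 := by
    intro l
    unfold cnt
    rw [card_filter]
    push_cast
    rfl
  simp_rw [h1]
  rw [sum_comm]
  refine sum_congr rfl fun i _ => ?_
  -- count of `l < k` with `X i ≤ l`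
  have h2 : ∀ n : ℕ, ∑ l ∈ range n, (if X i < (l:ℤ) + 1 then (1:ℤ) else 0)
      = (n : ℤ) - min (max (X i) 0) n := by
    intro n
    induction n with
    | zero => simp
    | succ n ih =>
      rw [sum_range_succ, ih]
      push_cast
      split_ifs <;> omega
  exact h2 k

/-- the key sum: if indices `< k` have `X < k` and indices in `[k, N)` have `X ≥ k`,
then `∑_{i<k} w i = k² - ∑_{i<k} (X i)⁻` -/
theorem sum_split {k : ℕ} (hk : k ≤ N) (hfix : ∀ l < N, g l = cnt N (fun i => w i - g i) (l + 1))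
    (hlo : ∀ i < k, w i - g i ≤ k) (hhi : ∀ i, k ≤ i → i < N → (k:ℤ) ≤ w i - g i) :
    ∑ i ∈ range k, w i = (k:ℤ) ^ 2 + ∑ i ∈ range k, min (w i - g i) 0 := by
  set X : ℕ → ℤ := fun i => w i - g i with hX
  have h1 : ∀ l < k, cnt N X (l + 1) = cnt k X (l + 1) := by
    intro l hl
    unfold cnt
    congr 2
    ext i
    simp only [mem_filter, mem_range]
    constructor
    · rintro ⟨h1, h2⟩
      refine ⟨?_, h2⟩
      by_contra h3
      have := hhi i (by omega) h1
      have h4 : X i = w i - g i := rfl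
      omega
    · rintro ⟨h1, h2⟩
      exact ⟨by omega, h2⟩
  have h2 : ∑ i ∈ range k, g i = ∑ i ∈ range k, ((k : ℤ) - min (max (X i) 0) k) := by
    rw [← sum_cnt_eq]
    refine sum_congr rfl fun l hl => ?_
    rw [mem_range] at hl
    rw [hfix l (by omega), h1 l hl]
  have h3 : ∑ i ∈ range k, w i = ∑ i ∈ range k, X i + ∑ i ∈ range k, g i := by
    rw [← sum_add_distrib]
    refine sum_congr rfl fun i _ => ?_
    simp only [hX]; ring
  rw [h3, h2, ← sum_add_distrib]
  have h4 : (k:ℤ)^2 = ∑ i ∈ range k, (k:ℤ) := by simp [sq]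
  rw [h4, ← sum_add_distrib]
  refine sum_congr rfl fun i hi => ?_
  rw [mem_range] at hi
  have := hlo i hi
  have h5 : X i = w i - g i := rfl
  rw [← h5]
  rw [← h5] at this
  omega

/-- the state of the chain -/
structure Chain (N : ℕ) (w g : ℕ → ℤ) (a : ℕ) : Prop where
  lt : a < N
  cntBig : (a:ℤ) + 2 ≤ g a
  below : ∀ i < a, w i - g i ≤ g a - 2
  neg : ∃ i ≤ a, w i - g i < 0

theorem fix_mono (hfix : ∀ l < N, g l = cnt N (fun i => w i - g i) (l + 1)) {i j : ℕ}
    (hij : i ≤ j) (hj : j < N) : g i ≤ g j := by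
  rw [hfix i (by omega), hfix j hj]
  exact cnt_mono _ (by omega)

/-- a candidate: `X a ≤ a`, smaller indices have `X i ≤ g a - 2`, and some index `≤ a` has
negative `X` -/
theorem chain_of_candidate (hL : ∀ k ≤ N, (k:ℤ) ^ 2 ≤ ∑ i ∈ range k, w i)
    (hfix : ∀ l < N, g l = cnt N (fun i => w i - g i) (l + 1)) {a : ℕ} (ha : a < N)
    (hXa : w a - g a ≤ a) (hbelow : ∀ i < a, w i - g i ≤ g a - 2)
    (hneg : ∃ i ≤ a, w i - g i < 0) : Chain N w g a := by
  refine ⟨ha, ?_, hbelow, hneg⟩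
  by_contra hlt
  push Not at hlt
  have hga : g a ≤ (a:ℤ) + 1 := by omega
  -- all indices `≤ a` are counted in `g a`
  have hall : ∀ i ≤ a, w i - g i < (a:ℤ) + 1 := by
    intro i hi
    rcases Nat.lt_or_ge i a with h | h
    · have := hbelow i h; omega
    · have : i = a := by omega
      subst this; omega
  have hsub : range (a + 1) ⊆ (range N).filter fun i => w i - g i < ((a:ℤ) + 1) := by
    intro i hi
    rw [mem_range] at hi
    rw [mem_filter, mem_range]
    exact ⟨by omega, hall i (by omega)⟩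
  have hcard : ((range N).filter fun i => w i - g i < ((a:ℤ) + 1)).card ≤ a + 1 := by
    have h1 := hfix a ha
    unfold cnt at h1
    have h2 : ((((range N).filter fun i => w i - g i < ((a:ℤ) + 1)).card : ℕ) : ℤ) = g a := h1.symm
    have h3 : ((((range N).filter fun i => w i - g i < ((a:ℤ) + 1)).card : ℕ) : ℤ) ≤ (a:ℤ) + 1 := by
      rw [h2]; exact hga
    exact_mod_cast h3
  have heq : range (a + 1) = (range N).filter fun i => w i - g i < ((a:ℤ) + 1) :=
    eq_of_subset_of_card_le hsub (by rw [card_range]; exact hcard)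
  have hhi : ∀ i, a + 1 ≤ i → i < N → ((a + 1 : ℕ):ℤ) ≤ w i - g i := by
    intro i h1 h2
    by_contra h3
    have : i ∈ (range N).filter fun i => w i - g i < ((a:ℤ) + 1) := by
      rw [mem_filter, mem_range]; refine ⟨h2, ?_⟩; push_cast at h3; omega
    rw [← heq, mem_range] at this
    omega
  have hs := sum_split (k := a + 1) (by omega) hfix
    (fun i hi => by have := hall i (by omega); push_cast; omega) hhi
  have hl := hL (a + 1) (by omega)
  obtain ⟨i, hi, hni⟩ := hneg
  have hn : ∑ i ∈ range (a + 1), min (w i - g i) 0 < 0 := by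
    have : ∑ i ∈ range (a + 1), min (w i - g i) 0 < ∑ i ∈ range (a + 1), (0:ℤ) := by
      refine sum_lt_sum (fun j _ => by omega) ⟨i, by rw [mem_range]; omega, by omega⟩
    simpa using this
  omega

theorem chain_step (hw : ∀ i j, i ≤ j → j < N → w i ≤ w j)
    (hL : ∀ k ≤ N, (k:ℤ) ^ 2 ≤ ∑ i ∈ range k, w i)
    (hfix : ∀ l < N, g l = cnt N (fun i => w i - g i) (l + 1)) {a : ℕ} (hc : Chain N w g a) :
    ∃ b, a < b ∧ Chain N w g b := by
  -- some index above `a` has `X ≤ a`
  have hex : ∃ b, a < b ∧ b < N ∧ w b - g b ≤ a := by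
    by_contra hno
    push Not at hno
    have hsub : ((range N).filter fun i => w i - g i < ((a:ℤ) + 1)) ⊆ range (a + 1) := by
      intro i hi
      rw [mem_filter, mem_range] at hi
      rw [mem_range]
      by_contra h
      have := hno i (by omega) hi.1
      omega
    have h1 := card_le_card hsub
    rw [card_range] at h1
    have h2 := hfix a hc.lt
    unfold cnt at h2
    have h3 := hc.cntBig
    have h4 : ((((range N).filter fun i => w i - g i < ((a:ℤ) + 1)).card : ℕ) : ℤ) = g a := h2.symm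
    have h5 : ((((range N).filter fun i => w i - g i < ((a:ℤ) + 1)).card : ℕ) : ℤ) ≤ a + 1 := by
      exact_mod_cast h1
    omega
  obtain ⟨b, hab, hbN, hXb⟩ := hex
  refine ⟨b, hab, chain_of_candidate hL hfix hbN (by omega) ?_ ?_⟩
  · intro i hi
    rcases Nat.lt_or_ge i a with h | h
    · have h1 := hc.below i h
      have h2 := fix_mono hfix hab.le hbN
      omega
    · have h1 := hw i b hi.le hbN
      have h2 := fix_mono hfix h (by omega : i < N)
      have h3 := hc.cntBig
      omega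
  · obtain ⟨i, hi, hni⟩ := hc.neg
    exact ⟨i, by omega, hni⟩

theorem no_chain (hw : ∀ i j, i ≤ j → j < N → w i ≤ w j)
    (hL : ∀ k ≤ N, (k:ℤ) ^ 2 ≤ ∑ i ∈ range k, w i)
    (hfix : ∀ l < N, g l = cnt N (fun i => w i - g i) (l + 1)) (a : ℕ) : ¬ Chain N w g a := by
  intro hc
  have h : ∀ d a, N - a = d → ¬ Chain N w g a := by
    intro d
    induction d using Nat.strong_induction_on with
    | _ d ih =>
      intro a hd hc
      obtain ⟨b, hab, hcb⟩ := chain_step hw hL hfix hc
      have := hc.lt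
      have := hcb.lt
      exact ih (N - b) (by omega) b rfl hcb
  exact h _ a rfl hc

/-- **Lemma A1**: every fixed point is non-negative -/
theorem fix_nonneg (hw : ∀ i j, i ≤ j → j < N → w i ≤ w j)
    (hL : ∀ k ≤ N, (k:ℤ) ^ 2 ≤ ∑ i ∈ range k, w i)
    (hfix : ∀ l < N, g l = cnt N (fun i => w i - g i) (l + 1)) : ∀ i < N, 0 ≤ w i - g i := by
  intro a ha
  by_contra hneg
  push Not at hneg
  refine no_chain hw hL hfix a (chain_of_candidate hL hfix ha (by omega) ?_ ⟨a, le_refl _, hneg⟩)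
  intro i hi
  have h1 := hw i a hi.le ha
  have h2 : 1 ≤ g i := by
    rw [hfix i (by omega)]
    unfold cnt
    have : a ∈ (range N).filter fun j => w j - g j < ((i:ℤ) + 1) := by
      rw [mem_filter, mem_range]; exact ⟨ha, by omega⟩
    have := card_pos.2 ⟨a, this⟩
    exact_mod_cast this
  omega

/-- the sum of the excesses over `N` -/
theorem fix_sum (hw : ∀ i j, i ≤ j → j < N → w i ≤ w j)
    (hL : ∀ k ≤ N, (k:ℤ) ^ 2 ≤ ∑ i ∈ range k, w i)
    (hfix : ∀ l < N, g l = cnt N (fun i => w i - g i) (l + 1)) :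
    ∑ i ∈ range N, w i = (N:ℤ) ^ 2 + ∑ i ∈ range N, max (w i - g i - N) 0 := by
  have h0 := fix_nonneg hw hL hfix
  set X : ℕ → ℤ := fun i => w i - g i with hX
  have h2 : ∑ i ∈ range N, g i = ∑ i ∈ range N, ((N : ℤ) - min (max (X i) 0) N) := by
    rw [← sum_cnt_eq]
    refine sum_congr rfl fun l hl => ?_
    rw [mem_range] at hl
    rw [hfix l hl]
  have h3 : ∑ i ∈ range N, w i = ∑ i ∈ range N, X i + ∑ i ∈ range N, g i := by
    rw [← sum_add_distrib]
    refine sum_congr rfl fun i _ => ?_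
    simp only [hX]; ring
  rw [h3, h2, ← sum_add_distrib]
  have h4 : (N:ℤ)^2 = ∑ i ∈ range N, (N:ℤ) := by simp [sq]
  rw [h4, ← sum_add_distrib]
  refine sum_congr rfl fun i hi => ?_
  rw [mem_range] at hi
  have := h0 i hi
  have h5 : X i = w i - g i := rfl
  rw [← h5]
  rw [← h5] at this
  omega

/-- existence of a fixed point (Knaster–Tarski) -/
theorem exists_fix (N : ℕ) (w : ℕ → ℤ) :
    ∃ g : ℕ → ℤ, ∀ l < N, g l = cnt N (fun i => w i - g i) (l + 1) := by
  classical
  have hlt : ∀ (g : Fin N → Fin (N + 1)) (l : Fin N),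
      ((univ.filter fun i : Fin N => w i - (g i : ℕ) < (l:ℕ) + 1).card) < N + 1 := by
    intro g l
    have := card_filter_le (univ : Finset (Fin N)) (fun i : Fin N => w i - (g i : ℕ) < (l:ℕ) + 1)
    rw [card_univ, Fintype.card_fin] at this
    omega
  let Φ : (Fin N → Fin (N + 1)) →o (Fin N → Fin (N + 1)) :=
    { toFun := fun g l => ⟨_, hlt g l⟩
      monotone' := by
        intro g g' hgg' l
        refine Fin.mk_le_mk.2 (card_le_card ?_)
        intro i hi
        rw [mem_filter] at hi ⊢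
        refine ⟨mem_univ _, ?_⟩
        have h1 := hgg' i
        rw [Fin.le_def] at h1
        have h2 : ((g i : ℕ) : ℤ) ≤ ((g' i : ℕ) : ℤ) := by exact_mod_cast h1
        omega }
  have hΦ := Φ.map_lfp
  set g0 := OrderHom.lfp Φ with hg0
  refine ⟨fun i => if h : i < N then ((g0 ⟨i, h⟩ : ℕ) : ℤ) else 0, ?_⟩
  intro l hl
  simp only [hl, dif_pos]
  have h1 : ((g0 ⟨l, hl⟩ : ℕ)) = (univ.filter fun i : Fin N => w i - (g0 i : ℕ) < (l:ℕ) + 1).card := by
    have := congrFun hΦ ⟨l, hl⟩
    rw [← this]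
    rfl
  rw [h1]
  unfold cnt
  norm_cast
  refine card_bij (fun (i : Fin N) _ => (i : ℕ)) ?_ ?_ ?_
  · intro i hi
    rw [mem_filter] at hi
    rw [mem_filter, mem_range]
    refine ⟨i.2, ?_⟩
    simp only [i.2, dif_pos]
    have := hi.2
    push_cast at this ⊢
    omega
  · intro i _ j _ hij
    exact Fin.ext hij
  · intro i hi
    rw [mem_filter, mem_range] at hi
    refine ⟨⟨i, hi.1⟩, ?_, rfl⟩
    rw [mem_filter]
    refine ⟨mem_univ _, ?_⟩
    have := hi.2
    simp only [hi.1, dif_pos] at this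
    push_cast at this ⊢
    omega

/-- **Theorem A, one-sided form.** -/
theorem exists_nested (N : ℕ) (w : ℕ → ℤ) (hw : ∀ i j, i ≤ j → j < N → w i ≤ w j)
    (hL : ∀ k ≤ N, (k:ℤ) ^ 2 ≤ ∑ i ∈ range k, w i) :
    ∃ X : ℕ → ℤ, (∀ i < N, 0 ≤ X i) ∧ (∀ l < N, w l = X l + cnt N X (l + 1)) ∧
      ∑ i ∈ range N, max (X i - N) 0 = ∑ i ∈ range N, w i - (N:ℤ) ^ 2 := by
  obtain ⟨g, hg⟩ := exists_fix N w
  refine ⟨fun i => w i - g i, fix_nonneg hw hL hg, ?_, ?_⟩
  · intro l hl
    rw [← hg l hl]; ring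
  · have := fix_sum hw hL hg
    simp only
    omega

end Landau

end Kost
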