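import Pool.Agent.Kost.Fock

/-!
# The natural modules, tensor and exterior constructions (definitions)

* `Idx n b`: basis of the natural module: `x i` (weight `ε_i`), `y i` (weight `-ε_i`), `z k`
  (weight 0); `b = 0` for types C, D and `b = 1` for type B.
* `SF ε`: Gram matrix of the invariant form, `S (x i) (y i) = ε`, `S (y i) (x i) = 1`,
  `S (z k) (z k) = 1` (`ε = 1`: orthogonal, `ε = -1`: symplectic).
* `tens m X`: action of a matrix `X` on the Fock space `Λ(V ⊗ ℂ^m)`.
* `K2 J`, `uA`, `piA`: `Λ² V`, with orthonormal basis `uA`, action of matrices.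
* `K2' J`, `uS`, `piS`: `S² V`.
* `TA ω`, `TS ω`: threshold graphs (without / with loops) with weights `ω`.
* `colS d m = {(j, a) | a < d j}`.
* `SoHW`, `SpHW`: highest weight conditions.
-/

open Module Matrix

attribute [local instance 100] LieRing.ofAssociativeRing

namespace Kost

noncomputable section

/-- basis of the natural module -/
inductive Idx (n b : ℕ)
  | x (i : Fin n)
  | y (i : Fin n)
  | z (k : Fin b)
  deriving DecidableEq, Fintype

namespace Idx

variable {n b : ℕ}

/-- rank function: `x 0 < x 1 < .. < z < .. < y 1 < y 0` -/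
def rk : Idx n b → ℕ
  | x i => i
  | z k => n + k
  | y i => 2 * n + b - 1 - i

theorem rk_inj : Function.Injective (rk : Idx n b → ℕ) := by
  intro p q h
  cases p <;> cases q <;> simp only [rk] at h
  · rw [Fin.ext h]
  · omega
  · omega
  · omega
  · congr 1; apply Fin.ext; omega
  · omega
  · omega
  · omega
  · congr 1; apply Fin.ext; omega

instance : LinearOrder (Idx n b) := LinearOrder.lift' rk rk_inj

theorem lt_iff (p q : Idx n b) : p < q ↔ rk p < rk q := Iff.rfl
theorem le_iff (p q : Idx n b) : p ≤ q ↔ rk p ≤ rk q := Iff.rfl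

/-- the dual index -/
def bar : Idx n b → Idx n b
  | x i => y i
  | y i => x i
  | z k => z k

/-- weight of a basis vector -/
def wt : Idx n b → Fin n → ℤ
  | x i => Pi.single i 1
  | y i => Pi.single i (-1)
  | z _ => 0

end Idx

variable {n b : ℕ}

/-- Gram matrix of the invariant form -/
def SF (n b : ℕ) (ε : ℂ) : Matrix (Idx n b) (Idx n b) ℂ := fun p q =>
  match p, q with
  | .x i, .y j => if i = j then ε else 0
  | .y i, .x j => if i = j then 1 else 0
  | .z k, .z l => if k = l then 1 else 0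
  | _, _ => 0

/-- the Lie algebra preserving the form -/
def gS (n b : ℕ) (ε : ℂ) : LieSubalgebra ℂ (Matrix (Idx n b) (Idx n b) ℂ) :=
  { carrier := {X | Xᵀ * SF n b ε + SF n b ε * X = 0}
    add_mem' := by
      intro X Y hX hY
      simp only [Set.mem_ofPred_eq, transpose_add, add_mul, mul_add] at *
      calc _ = (Xᵀ * SF n b ε + SF n b ε * X) + (Yᵀ * SF n b ε + SF n b ε * Y) := by abel
        _ = 0 := by rw [hX, hY, add_zero]
    zero_mem' := by simp
    smul_mem' := by
      intro c X hX
      simp only [Set.mem_ofPred_eq, transpose_smul, smul_mul] at *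
      rw [Matrix.mul_smul, ← smul_add, hX, smul_zero]
    lie_mem' := by
      intro X Y hX hY
      simp only [Set.mem_ofPred_eq] at hX hY ⊢
      rw [Ring.lie_def, transpose_sub, transpose_mul, transpose_mul]
      have h1 : Xᵀ * SF n b ε = - (SF n b ε * X) := eq_neg_of_add_eq_zero_left hX
      have h2 : Yᵀ * SF n b ε = - (SF n b ε * Y) := eq_neg_of_add_eq_zero_left hY
      rw [sub_mul, mul_assoc, mul_assoc, h1, h2, mul_neg, mul_neg, ← mul_assoc, ← mul_assoc, h1,
        h2, mul_sub]
      simp only [neg_mul, mul_assoc]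
      abel }

/-- elementary matrices -/
abbrev EM {J : Type*} [DecidableEq J] (j k : J) : Matrix J J ℂ := Matrix.single j k 1

/-- root matrices and Cartan matrices of the classical Lie algebras -/
def eA (i i' : Fin n) : Matrix (Idx n b) (Idx n b) ℂ := EM (.x i) (.x i') - EM (.y i') (.y i)
def eB (i i' : Fin n) : Matrix (Idx n b) (Idx n b) ℂ := EM (.x i) (.y i') - EM (.x i') (.y i)
def eS (i i' : Fin n) : Matrix (Idx n b) (Idx n b) ℂ := EM (.x i) (.y i') + EM (.x i') (.y i)
def eC (i : Fin n) (k : Fin b) : Matrix (Idx n b) (Idx n b) ℂ :=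
  EM (.x i) (.z k) - EM (.z k) (.y i)
def Hm (i : Fin n) : Matrix (Idx n b) (Idx n b) ℂ := EM (.x i) (.x i) - EM (.y i) (.y i)

/-- highest weight conditions for the orthogonal Lie algebra -/
def SoHW {M : Type*} [AddCommGroup M] [Module ℂ M]
    (R : Matrix (Idx n b) (Idx n b) ℂ → Module.End ℂ M) (h : M) (lam : Fin n → ℤ) : Prop :=
  (∀ i i' : Fin n, i < i' → R (eA i i') h = 0) ∧ (∀ i i' : Fin n, R (eB i i') h = 0) ∧
    (∀ (i : Fin n) (k : Fin b), R (eC i k) h = 0) ∧ ∀ i, R (Hm i) h = (lam i : ℂ) • h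

/-- highest weight conditions for the symplectic Lie algebra -/
def SpHW {M : Type*} [AddCommGroup M] [Module ℂ M]
    (R : Matrix (Idx n 0) (Idx n 0) ℂ → Module.End ℂ M) (h : M) (lam : Fin n → ℤ) : Prop :=
  (∀ i i' : Fin n, i < i' → R (eA i i') h = 0) ∧ (∀ i i' : Fin n, R (eS i i') h = 0) ∧
    ∀ i, R (Hm i) h = (lam i : ℂ) • h

section General

variable {J : Type*} [Fintype J] [DecidableEq J]

/-- matrix on `J × Fin m` -/
def tensM (m : ℕ) (X : Matrix J J ℂ) : Matrix (J × Fin m) (J × Fin m) ℂ :=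
  fun p q => if p.2 = q.2 then X p.1 q.1 else 0

/-- action of matrices on `Λ(V ⊗ ℂ^m)` -/
def tens (m : ℕ) (X : Matrix J J ℂ) : Module.End ℂ (Fock (J × Fin m)) := dG (tensM m X)

theorem tensM_add (m : ℕ) (X Y : Matrix J J ℂ) : tensM m (X + Y) = tensM m X + tensM m Y := by
  ext p q; simp only [tensM, Matrix.add_apply]; split_ifs <;> simp

theorem tensM_smul (m : ℕ) (c : ℂ) (X : Matrix J J ℂ) : tensM m (c • X) = c • tensM m X := by
  ext p q; simp only [tensM, Matrix.smul_apply]; split_ifs <;> simp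

/-- `tens` as a linear map -/
def tensL (m : ℕ) : Matrix J J ℂ →ₗ[ℂ] Module.End ℂ (Fock (J × Fin m)) where
  toFun := tens m
  map_add' X Y := by simp only [tens, tensM_add, dG_add]
  map_smul' c X := by simp only [tens, tensM_smul, dG_smul, RingHom.id_apply]

/-- the set of boxes `(j, a)`, `a < d j` -/
def colS (d : J → ℕ) (m : ℕ) : Finset (J × Fin m) := Finset.univ.filter (fun p => (p.2 : ℕ) < d p.1)

variable [LinearOrder J]

/-- pairs `j < k` -/
abbrev K2 (J : Type*) [LinearOrder J] := {p : J × J // p.1 < p.2}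

/-- pairs `j ≤ k` -/
abbrev K2' (J : Type*) [LinearOrder J] := {p : J × J // p.1 ≤ p.2}

/-- orthonormal basis of the antisymmetric matrices -/
def uA (p : K2 J) : Matrix J J ℂ := ((√2 : ℂ)⁻¹) • (EM p.1.1 p.1.2 - EM p.1.2 p.1.1)

/-- orthonormal basis of the symmetric matrices -/
def uS (p : K2' J) : Matrix J J ℂ :=
  if p.1.1 = p.1.2 then EM p.1.1 p.1.1 else ((√2 : ℂ)⁻¹) • (EM p.1.1 p.1.2 + EM p.1.2 p.1.1)

/-- matrix of `P ↦ X P + P Xᵀ` on antisymmetric matrices -/
def piA (X : Matrix J J ℂ) : Matrix (K2 J) (K2 J) ℂ :=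
  fun a c => trace ((X * uA c + uA c * Xᵀ) * (uA a)ᴴ)

/-- matrix of `P ↦ X P + P Xᵀ` on symmetric matrices -/
def piS (X : Matrix J J ℂ) : Matrix (K2' J) (K2' J) ℂ :=
  fun a c => trace ((X * uS c + uS c * Xᵀ) * (uS a)ᴴ)

theorem piA_add (X Y : Matrix J J ℂ) : piA (X + Y) = piA X + piA Y := by
  ext a c
  simp only [piA, Matrix.add_apply, add_mul, mul_add, transpose_add, trace_add]
  ring

theorem piA_smul (r : ℂ) (X : Matrix J J ℂ) : piA (r • X) = r • piA X := by
  ext a c
  simp only [piA, Matrix.smul_apply, smul_mul, mul_smul, transpose_smul, trace_add, trace_smul,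
    add_mul, smul_eq_mul, Algebra.mul_smul_comm]
  ring

theorem piS_add (X Y : Matrix J J ℂ) : piS (X + Y) = piS X + piS Y := by
  ext a c
  simp only [piS, Matrix.add_apply, add_mul, mul_add, transpose_add, trace_add]
  ring

theorem piS_smul (r : ℂ) (X : Matrix J J ℂ) : piS (r • X) = r • piS X := by
  ext a c
  simp only [piS, Matrix.smul_apply, smul_mul, mul_smul, transpose_smul, trace_add, trace_smul,
    add_mul, smul_eq_mul, Algebra.mul_smul_comm]
  ring

/-- action of matrices on `Λ(Λ² V)` -/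
def RA : Matrix J J ℂ →ₗ[ℂ] Module.End ℂ (Fock (K2 J)) where
  toFun X := dG (piA X)
  map_add' X Y := by rw [piA_add, dG_add]
  map_smul' c X := by rw [piA_smul, dG_smul, RingHom.id_apply]

/-- action of matrices on `Λ(S² V)` -/
def RS : Matrix J J ℂ →ₗ[ℂ] Module.End ℂ (Fock (K2' J)) where
  toFun X := dG (piS X)
  map_add' X Y := by rw [piS_add, dG_add]
  map_smul' c X := by rw [piS_smul, dG_smul, RingHom.id_apply]

/-- threshold graph without loops -/
def TA (w : J → ℤ) : Finset (K2 J) := Finset.univ.filter (fun p => 0 < w p.1.1 + w p.1.2)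

/-- threshold graph with loops -/
def TS (w : J → ℤ) : Finset (K2' J) := Finset.univ.filter (fun p => 0 < w p.1.1 + w p.1.2)

end General

section Deg

variable {J : Type*} [Fintype J] [DecidableEq J]

/-- degrees in the threshold graph without loops -/
def degA (w : J → ℤ) (j : J) : ℕ := (Finset.univ.filter (fun k => k ≠ j ∧ 0 < w j + w k)).card

/-- degrees in the threshold graph with loops (a loop counts 2) -/
def degS (w : J → ℤ) (j : J) : ℕ := degA w j + if 0 < w j then 2 else 0

end Deg

end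

end Kost
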