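import Pool.Agent.Kost.Fock
import Pool.Agent.Kost.HW

/-!
# Quadratic Lie algebras, Clifford maps and the two commuting actions on Fock space (definitions)

`QD 𝔤 K`: invariant form, `*`-structure and an orthonormal basis `b : K → 𝔤`.
`QD.L`, `QD.R : 𝔤 → End (Fock K)`: two anticommuting Clifford maps.
`QD.gam C`: the spin action attached to a Clifford map `C`.
`QD.adF`: the adjoint action on the Fock space `Λ(𝔤)`.
`TD D n`: a Cartan subalgebra with coordinates `H 0, .., H (n-1)`, weights of the basis.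
`CD T A`: Chevalley generators.
-/

open Module

namespace Kost

noncomputable section

/-- A Lie algebra with an invariant symmetric bilinear form, a conjugate linear anti-involution
`st`, and a basis `b` which is orthonormal for `⟨X, Y⟩ = form X (st Y)`. -/
structure QD (𝔤 : Type*) [LieRing 𝔤] [LieAlgebra ℂ 𝔤] (K : Type*) [Fintype K]
    [DecidableEq K] where
  form : 𝔤 →ₗ[ℂ] 𝔤 →ₗ[ℂ] ℂ
  form_symm : ∀ X Y, form X Y = form Y X
  form_inv : ∀ X Y Z, form ⁅X, Y⁆ Z = form X ⁅Y, Z⁆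
  st : 𝔤 → 𝔤
  st_add : ∀ X Y, st (X + Y) = st X + st Y
  st_smul : ∀ (c : ℂ) X, st (c • X) = (starRingEnd ℂ c) • st X
  st_st : ∀ X, st (st X) = X
  st_lie : ∀ X Y, st ⁅X, Y⁆ = ⁅st Y, st X⁆
  form_st : ∀ X Y, form (st X) (st Y) = starRingEnd ℂ (form X Y)
  b : K → 𝔤
  orth : ∀ a c, form (b a) (st (b c)) = if a = c then 1 else 0
  expand : ∀ X, X = ∑ a, form X (st (b a)) • b a

namespace QD

variable {𝔤 : Type*} [LieRing 𝔤] [LieAlgebra ℂ 𝔤] {K : Type*} [Fintype K] [DecidableEq K]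
  (D : QD 𝔤 K)

/-- creation operator of a vector of `𝔤` -/
def eps : 𝔤 →ₗ[ℂ] Module.End ℂ (Fock K) where
  toFun X := ∑ a, D.form X (D.st (D.b a)) • cr a
  map_add' X Y := by
    simp only [map_add, LinearMap.add_apply, add_smul, Finset.sum_add_distrib]
  map_smul' c X := by
    simp only [map_smul, LinearMap.smul_apply, smul_eq_mul, mul_smul, Finset.smul_sum,
      RingHom.id_apply]

/-- annihilation operator of a vector of `𝔤` (contraction with respect to `form`) -/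
def iot : 𝔤 →ₗ[ℂ] Module.End ℂ (Fock K) where
  toFun X := ∑ a, D.form X (D.b a) • an a
  map_add' X Y := by
    simp only [map_add, LinearMap.add_apply, add_smul, Finset.sum_add_distrib]
  map_smul' c X := by
    simp only [map_smul, LinearMap.smul_apply, smul_eq_mul, mul_smul, Finset.smul_sum,
      RingHom.id_apply]

/-- the first Clifford map -/
def L : 𝔤 →ₗ[ℂ] Module.End ℂ (Fock K) := D.eps + D.iot

/-- the second Clifford map -/
def R : 𝔤 →ₗ[ℂ] Module.End ℂ (Fock K) := Complex.I • (D.eps - D.iot)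

/-- `C` is a Clifford map into the algebra `𝓐`. -/
def IsCliff {𝓐 : Type*} [Ring 𝓐] [Algebra ℂ 𝓐] (C : 𝔤 →ₗ[ℂ] 𝓐) : Prop :=
  ∀ X Y, C X * C Y + C Y * C X = (2 * D.form X Y) • (1 : 𝓐)

/-- the spin action of a Clifford map -/
def gam {𝓐 : Type*} [Ring 𝓐] [Algebra ℂ 𝓐] (C : 𝔤 →ₗ[ℂ] 𝓐) : 𝔤 →ₗ[ℂ] 𝓐 where
  toFun X := (1 / 4 : ℂ) • ∑ a, C ⁅X, D.b a⁆ * C (D.st (D.b a))
  map_add' X Y := by
    simp only [add_lie, map_add, add_mul, Finset.sum_add_distrib, smul_add]
  map_smul' c X := by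
    simp only [smul_lie, map_smul, smul_mul_assoc, RingHom.id_apply, Finset.smul_sum]
    exact Finset.sum_congr rfl fun a _ => smul_comm _ _ _

/-- the Casimir element of the spin action -/
def cas {𝓐 : Type*} [Ring 𝓐] [Algebra ℂ 𝓐] (C : 𝔤 →ₗ[ℂ] 𝓐) : 𝓐 :=
  ∑ a, D.gam C (D.b a) * D.gam C (D.st (D.b a))

/-- matrix of `ad X` in the basis `b` -/
def adM (X : 𝔤) : Matrix K K ℂ := fun a c => D.form ⁅X, D.b c⁆ (D.st (D.b a))

/-- adjoint action on the Fock space `Λ(𝔤)` -/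
def adF (X : 𝔤) : Module.End ℂ (Fock K) := dG (D.adM X)

end QD

/-- Triangular data: a commutative subalgebra with basis `H 0, .., H (n-1)` diagonalising the basis
`b`, whose zero weight vectors are the `b (z i) = H i / √2`. -/
structure TD {𝔤 : Type*} [LieRing 𝔤] [LieAlgebra ℂ 𝔤] {K : Type*} [Fintype K] [DecidableEq K]
    (D : QD 𝔤 K) (n : ℕ) where
  H : Fin n → 𝔤
  st_H : ∀ i, D.st (H i) = H i
  wt : K → Fin n → ℝ
  lie_H : ∀ i a, ⁅H i, D.b a⁆ = (wt a i : ℂ) • D.b a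
  z : Fin n → K
  z_inj : Function.Injective z
  b_z : ∀ i, H i = (√2 : ℂ) • D.b (z i)
  wt_z : ∀ i j, wt (z i) j = 0
  bar : K → K
  bar_bar : ∀ a, bar (bar a) = a
  tau : K → ℝ
  tau_sq : ∀ a, tau a * tau a = 1
  st_b : ∀ a, D.st (D.b a) = (tau a : ℂ) • D.b (bar a)
  /-- a functional separating positive and negative weights -/
  hgt : Fin n → ℝ
  reg : ∀ a, ∑ i, hgt i * wt a i = 0 → ∃ i, a = z i
  /-- half the sum of the positive roots is regular dominant -/
  rho_pos : ∀ a, 0 < ∑ i, hgt i * wt a i → 0 < ∑ i, wt a i *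
    ((1 / 2) * ∑ c ∈ Finset.univ.filter (fun c => 0 < ∑ j, hgt j * wt c j), wt c i)

namespace TD

variable {𝔤 : Type*} [LieRing 𝔤] [LieAlgebra ℂ 𝔤] {K : Type*} [Fintype K] [DecidableEq K]
  {D : QD 𝔤 K} {n : ℕ} (T : TD D n)

/-- height of a basis element -/
def ht (a : K) : ℝ := ∑ i, T.hgt i * T.wt a i

/-- the positive basis elements -/
def pos : Finset K := Finset.univ.filter (fun c => 0 < T.ht c)

/-- half the sum of the positive roots -/
def rho (i : Fin n) : ℝ := (1 / 2) * ∑ c ∈ T.pos, T.wt c i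

end TD

/-- Chevalley generators with matrix `A i j = α_j (h_i)`. -/
structure CD {𝔤 : Type*} [LieRing 𝔤] [LieAlgebra ℂ 𝔤] {K : Type*} [Fintype K] [DecidableEq K]
    {D : QD 𝔤 K} {n : ℕ} (T : TD D n) (A : Matrix (Fin n) (Fin n) ℤ) where
  e : Fin n → 𝔤
  f : Fin n → 𝔤
  h : Fin n → 𝔤
  he : ∀ i j, ⁅h i, e j⁆ = (A i j : ℂ) • e j
  hf : ∀ i j, ⁅h i, f j⁆ = -((A i j : ℂ) • f j)
  ef : ∀ i j, ⁅e i, f j⁆ = if i = j then h i else 0
  hh : ∀ i j, ⁅h i, h j⁆ = 0
  st_e : ∀ i, D.st (e i) = f i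
  co : Fin n → Fin n → ℝ
  h_eq : ∀ i, h i = ∑ j, (co i j : ℂ) • T.H j
  /-- the positive root vectors are generated by the `e i` -/
  gen : ∀ a, 0 < T.ht a → D.b a ∈ LieSubalgebra.lieSpan ℂ 𝔤 (Set.range e)
  /-- `A` is invertible in the weak form needed for highest weight theory -/
  th : Fin n → ℂ
  hth : ∀ j, ∑ i, th i * A i j = 1

end

end Kost
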