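import Pool.Agent.Kost.Mat
import Pool.Agent.Kost.Spin

/-!
# Orthonormal bases of antisymmetric and symmetric matrices; `QD` structures on Lie algebras of
matrices (MP_869ec4)
-/

open Module Matrix

attribute [local instance 100] LieRing.ofAssociativeRing

namespace Kost.QDt

noncomputable section

theorem sqrt2_mul : (√2 : ℂ) * (√2 : ℂ) = 2 := by
  rw [← Complex.ofReal_mul, Real.mul_self_sqrt (by norm_num)]; norm_num

theorem sqrt2_ne : (√2 : ℂ) ≠ 0 := by
  intro h
  have := sqrt2_mul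
  rw [h, zero_mul] at this
  exact two_ne_zero this.symm

theorem sqrt2_inv_mul : (√2 : ℂ)⁻¹ * (√2 : ℂ)⁻¹ = 2⁻¹ := by
  rw [← mul_inv, sqrt2_mul]

theorem star_sqrt2_inv : star ((√2 : ℂ)⁻¹) = (√2 : ℂ)⁻¹ := by
  rw [star_inv₀, Complex.star_def, Complex.conj_ofReal]

section Basics

variable {J : Type*} [DecidableEq J]

theorem EM_apply (p q r s : J) : EM p q r s = if p = r ∧ q = s then (1 : ℂ) else 0 := rfl

theorem EM_transpose (p q : J) : (EM p q)ᵀ = EM q p := Matrix.transpose_single p q 1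

theorem EM_conjTranspose (p q : J) : (EM p q)ᴴ = EM q p := by
  rw [Matrix.conjTranspose_single]; simp

variable [Fintype J]

theorem EM_mul_EM (p q r s : J) : EM p q * EM r s = if q = r then EM p s else 0 := by
  split_ifs with h
  · subst h; simp
  · simp [Matrix.single_mul_single_of_ne _ _ _ _ h]

theorem trace_mul_EM (P : Matrix J J ℂ) (p q : J) : trace (P * EM p q) = P q p := by
  rw [Matrix.trace_mul_single]; simp

theorem trace_EM_mul (P : Matrix J J ℂ) (p q : J) : trace (EM p q * P) = P q p := by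
  rw [Matrix.trace_mul_comm, trace_mul_EM]

end Basics

section UAS

variable {J : Type*} [Fintype J] [DecidableEq J] [LinearOrder J]

omit [Fintype J] in
theorem uA_transpose (p : K2 J) : (uA p)ᵀ = -uA p := by
  rw [uA, transpose_smul, transpose_sub, EM_transpose, EM_transpose, ← smul_neg, neg_sub]

omit [Fintype J] in
theorem uA_conjTranspose (p : K2 J) : (uA p)ᴴ = -uA p := by
  rw [uA, conjTranspose_smul, conjTranspose_sub, EM_conjTranspose, EM_conjTranspose, ← smul_neg,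
    neg_sub, star_sqrt2_inv]

omit [Fintype J] in
theorem uS_transpose (p : K2' J) : (uS p)ᵀ = uS p := by
  rw [uS]
  split_ifs
  · rw [EM_transpose]
  · rw [transpose_smul, transpose_add, EM_transpose, EM_transpose, add_comm]

omit [Fintype J] in
theorem uS_conjTranspose (p : K2' J) : (uS p)ᴴ = uS p := by
  rw [uS]
  split_ifs
  · rw [EM_conjTranspose]
  · rw [conjTranspose_smul, conjTranspose_add, EM_conjTranspose, EM_conjTranspose, add_comm,
      star_sqrt2_inv]

theorem trace_mul_uA (P : Matrix J J ℂ) (p : K2 J) :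
    trace (P * uA p) = (√2 : ℂ)⁻¹ * (P p.1.2 p.1.1 - P p.1.1 p.1.2) := by
  rw [uA, Matrix.mul_smul, trace_smul, mul_sub, trace_sub, trace_mul_EM, trace_mul_EM, smul_eq_mul]

theorem trace_mul_uS (P : Matrix J J ℂ) (p : K2' J) :
    trace (P * uS p) = if p.1.1 = p.1.2 then P p.1.1 p.1.1 else
      (√2 : ℂ)⁻¹ * (P p.1.2 p.1.1 + P p.1.1 p.1.2) := by
  rw [uS]
  split_ifs
  · rw [trace_mul_EM]
  · rw [Matrix.mul_smul, trace_smul, mul_add, trace_add, trace_mul_EM, trace_mul_EM, smul_eq_mul]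

omit [Fintype J] in
theorem uA_apply (p : K2 J) (r s : J) : uA p r s = (√2 : ℂ)⁻¹ *
    ((if p.1.1 = r ∧ p.1.2 = s then 1 else 0) - (if p.1.2 = r ∧ p.1.1 = s then 1 else 0)) := by
  rw [uA, Matrix.smul_apply, Matrix.sub_apply, EM_apply, EM_apply, smul_eq_mul]

omit [Fintype J] in
theorem uS_apply (p : K2' J) (r s : J) : uS p r s = if p.1.1 = p.1.2 then
    (if p.1.1 = r ∧ p.1.1 = s then 1 else 0) else (√2 : ℂ)⁻¹ *
    ((if p.1.1 = r ∧ p.1.2 = s then 1 else 0) + (if p.1.2 = r ∧ p.1.1 = s then 1 else 0)) := by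
  by_cases h : p.1.1 = p.1.2
  · rw [uS, if_pos h, if_pos h, EM_apply]
  · rw [uS, if_neg h, if_neg h, Matrix.smul_apply, Matrix.add_apply, EM_apply, EM_apply,
      smul_eq_mul]

theorem uA_orth (a c : K2 J) : trace (uA a * (uA c)ᴴ) = if a = c then 1 else 0 := by
  rw [uA_conjTranspose, mul_neg, trace_neg, trace_mul_uA, uA_apply, uA_apply]
  obtain ⟨⟨a1, a2⟩, ha⟩ := a
  obtain ⟨⟨c1, c2⟩, hc⟩ := c
  simp only at ha hc
  simp only [Subtype.mk.injEq, Prod.mk.injEq]
  by_cases h : a1 = c1 ∧ a2 = c2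
  · obtain ⟨rfl, rfl⟩ := h
    have h1 : ¬ (a1 = a2) := ha.ne
    have h2 : ¬ (a2 = a1) := ha.ne'
    simp only [h1, h2, and_self, if_true, if_false, sub_zero]
    have := sqrt2_inv_mul
    linear_combination 2 * this
  · have h3 : ¬ (a1 = c2 ∧ a2 = c1) := by
      rintro ⟨rfl, rfl⟩
      exact lt_asymm ha hc
    have h4 : ¬ (a2 = c1 ∧ a1 = c2) := fun h => h3 ⟨h.2, h.1⟩
    have h5 : ¬ (a2 = c2 ∧ a1 = c1) := fun h' => h ⟨h'.2, h'.1⟩
    simp only [h, h3, h4, h5, if_false, sub_zero, mul_zero, neg_zero]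

theorem uS_orth (a c : K2' J) : trace (uS a * (uS c)ᴴ) = if a = c then 1 else 0 := by
  rw [uS_conjTranspose, trace_mul_uS]
  obtain ⟨⟨a1, a2⟩, ha⟩ := a
  obtain ⟨⟨c1, c2⟩, hc⟩ := c
  simp only at ha hc
  simp only [uS_apply, Subtype.mk.injEq, Prod.mk.injEq]
  by_cases h : a1 = c1 ∧ a2 = c2
  · obtain ⟨rfl, rfl⟩ := h
    by_cases h1 : a1 = a2
    · subst h1
      simp
    · have h2 : ¬ (a2 = a1) := fun h => h1 h.symm
      simp only [h1, h2, and_self, if_true, if_false, add_zero, zero_add]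
      have := sqrt2_inv_mul
      linear_combination 2 * this
  · have h3 : a1 = c2 → a2 = c1 → a1 = a2 := by
      rintro rfl rfl
      exact le_antisymm ha hc
    by_cases h1 : a1 = a2
    · subst h1
      by_cases h2 : c1 = c2
      · subst h2
        have h4 : ¬ (a1 = c1) := fun h5 => h ⟨h5, h5⟩
        simp [h4]
      · have h4 : ¬ (a1 = c2 ∧ a1 = c1) := by rintro ⟨rfl, rfl⟩; exact h2 rfl
        have h5 : ¬ (a1 = c1 ∧ a1 = c2) := by rintro ⟨rfl, rfl⟩; exact h2 rfl
        simp only [h2, h4, h5, if_false, if_true, add_zero, mul_zero]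
    · have h4 : ¬ (a1 = c2 ∧ a2 = c1) := fun h' => h1 (h3 h'.1 h'.2)
      have h4' : ¬ (a2 = c1 ∧ a1 = c2) := fun h' => h4 ⟨h'.2, h'.1⟩
      have h5 : ¬ (a2 = c2 ∧ a1 = c1) := fun h' => h ⟨h'.2, h'.1⟩
      by_cases h2 : c1 = c2
      · subst h2
        have h6 : ¬ (a1 = c1 ∧ a2 = c1) := h
        have h7 : ¬ (a2 = c1 ∧ a1 = c1) := fun h' => h ⟨h'.2, h'.1⟩
        simp only [h1, h6, h7, if_false, if_true, add_zero, mul_zero]
      · simp only [h1, h2, h, h4, h4', h5, if_false, add_zero, mul_zero]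

theorem uA_expand {P : Matrix J J ℂ} (hP : Pᵀ = -P) :
    P = ∑ a, trace (P * (uA a)ᴴ) • uA a := by
  have hP' : ∀ r s, P s r = -P r s := fun r s => congrFun (congrFun hP r) s
  have hc : ∀ a : K2 J, trace (P * (uA a)ᴴ) = (√2 : ℂ)⁻¹ * (2 * P a.1.1 a.1.2) := by
    intro a
    rw [uA_conjTranspose, mul_neg, trace_neg, trace_mul_uA, hP' a.1.1 a.1.2]
    ring
  ext r s
  rw [Matrix.sum_apply]
  simp only [Matrix.smul_apply, smul_eq_mul, hc, uA_apply]
  rcases lt_trichotomy r s with h | h | h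
  · rw [Finset.sum_eq_single (⟨(r, s), h⟩ : K2 J)]
    · have h1 : ¬ (s = r) := h.ne'
      simp only [and_self, if_true, h1, false_and, if_false, sub_zero]
      linear_combination (-2) * P r s * sqrt2_inv_mul
    · rintro ⟨⟨a1, a2⟩, ha⟩ - hne
      simp only at ha ⊢
      have h1 : ¬ (a1 = r ∧ a2 = s) := by rintro ⟨rfl, rfl⟩; exact hne rfl
      have h2 : ¬ (a2 = r ∧ a1 = s) := by rintro ⟨rfl, rfl⟩; exact lt_asymm h ha
      simp only [h1, h2, if_false, sub_zero, mul_zero]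
    · intro h'; exact absurd (Finset.mem_univ _) h'
  · subst h
    have h0 : P r r = 0 := by
      have := hP' r r
      linear_combination this / 2
    rw [h0]
    symm
    refine Finset.sum_eq_zero ?_
    rintro ⟨⟨a1, a2⟩, ha⟩ -
    simp only at ha ⊢
    have h1 : ¬ (a1 = r ∧ a2 = r) := by rintro ⟨rfl, rfl⟩; exact lt_irrefl _ ha
    have h2 : ¬ (a2 = r ∧ a1 = r) := by rintro ⟨rfl, rfl⟩; exact lt_irrefl _ ha
    simp only [h1, h2, if_false, sub_zero, mul_zero]
  · rw [Finset.sum_eq_single (⟨(s, r), h⟩ : K2 J)]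
    · have h1 : ¬ (s = r) := h.ne
      simp only [and_self, if_true, h1, false_and, if_false, zero_sub]
      rw [hP' r s]
      linear_combination (-2) * P r s * sqrt2_inv_mul
    · rintro ⟨⟨a1, a2⟩, ha⟩ - hne
      simp only at ha ⊢
      have h1 : ¬ (a1 = r ∧ a2 = s) := by rintro ⟨rfl, rfl⟩; exact lt_asymm h ha
      have h2 : ¬ (a2 = r ∧ a1 = s) := by rintro ⟨rfl, rfl⟩; exact hne rfl
      simp only [h1, h2, if_false, sub_zero, mul_zero]
    · intro h'; exact absurd (Finset.mem_univ _) h'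

theorem uS_expand {P : Matrix J J ℂ} (hP : Pᵀ = P) :
    P = ∑ a, trace (P * (uS a)ᴴ) • uS a := by
  have hP' : ∀ r s, P s r = P r s := fun r s => congrFun (congrFun hP r) s
  have hc : ∀ a : K2' J, trace (P * (uS a)ᴴ) = if a.1.1 = a.1.2 then P a.1.1 a.1.1 else
      (√2 : ℂ)⁻¹ * (2 * P a.1.1 a.1.2) := by
    intro a
    rw [uS_conjTranspose, trace_mul_uS, hP' a.1.1 a.1.2]
    split_ifs
    · rfl
    · ring
  ext r s
  rw [Matrix.sum_apply]
  simp only [Matrix.smul_apply, smul_eq_mul, hc, uS_apply]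
  rcases lt_trichotomy r s with h | h | h
  · rw [Finset.sum_eq_single (⟨(r, s), h.le⟩ : K2' J)]
    · have h1 : ¬ (s = r) := h.ne'
      have h2 : ¬ (r = s) := h.ne
      simp only [and_self, if_true, h1, h2, if_false, add_zero]
      linear_combination (-2) * P r s * sqrt2_inv_mul
    · rintro ⟨⟨a1, a2⟩, ha⟩ - hne
      simp only at ha ⊢
      have h1 : ¬ (a1 = r ∧ a2 = s) := by rintro ⟨rfl, rfl⟩; exact hne rfl
      have h2 : ¬ (a2 = r ∧ a1 = s) := by rintro ⟨rfl, rfl⟩; exact absurd ha (not_le.2 h)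
      have h3 : ¬ (a1 = r ∧ a1 = s) := by rintro ⟨rfl, rfl⟩; exact lt_irrefl _ h
      split_ifs <;> simp
    · intro h'; exact absurd (Finset.mem_univ _) h'
  · subst h
    rw [Finset.sum_eq_single (⟨(r, r), le_refl r⟩ : K2' J)]
    · simp
    · rintro ⟨⟨a1, a2⟩, ha⟩ - hne
      simp only at ha ⊢
      have h1 : ¬ (a1 = r ∧ a2 = r) := by rintro ⟨rfl, rfl⟩; exact hne rfl
      have h2 : ¬ (a2 = r ∧ a1 = r) := fun h => h1 ⟨h.2, h.1⟩
      by_cases h3 : a1 = a2
      · subst h3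
        have h4 : ¬ (a1 = r) := fun h => h1 ⟨h, h⟩
        simp [h4]
      · simp only [h3, h1, h2, if_false, add_zero, mul_zero]
    · intro h'; exact absurd (Finset.mem_univ _) h'
  · rw [Finset.sum_eq_single (⟨(s, r), h.le⟩ : K2' J)]
    · have h1 : ¬ (s = r) := h.ne
      have h2 : ¬ (r = s) := h.ne'
      simp only [and_self, if_true, h1, h2, if_false, zero_add]
      rw [hP' r s]
      linear_combination (-2) * P r s * sqrt2_inv_mul
    · rintro ⟨⟨a1, a2⟩, ha⟩ - hne
      simp only at ha ⊢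
      have h1 : ¬ (a1 = r ∧ a2 = s) := by rintro ⟨rfl, rfl⟩; exact absurd ha (not_le.2 h)
      have h2 : ¬ (a2 = r ∧ a1 = s) := by rintro ⟨rfl, rfl⟩; exact hne rfl
      have h3 : ¬ (a1 = r ∧ a1 = s) := by rintro ⟨rfl, rfl⟩; exact lt_irrefl _ h
      split_ifs <;> simp
    · intro h'; exact absurd (Finset.mem_univ _) h'

end UAS

/-- the trace form on a Lie algebra of matrices -/
def trForm {J : Type*} [Fintype J] [DecidableEq J] (g : LieSubalgebra ℂ (Matrix J J ℂ)) :
    g →ₗ[ℂ] g →ₗ[ℂ] ℂ :=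
  LinearMap.mk₂ ℂ (fun X Y => trace ((X : Matrix J J ℂ) * (Y : Matrix J J ℂ)))
    (fun X Y Z => by
      change trace (((X : Matrix J J ℂ) + (Y : Matrix J J ℂ)) * (Z : Matrix J J ℂ)) = _
      rw [add_mul, trace_add])
    (fun c X Y => by
      change trace ((c • (X : Matrix J J ℂ)) * (Y : Matrix J J ℂ)) = _
      rw [Matrix.smul_mul, trace_smul])
    (fun X Y Z => by
      change trace ((X : Matrix J J ℂ) * ((Y : Matrix J J ℂ) + (Z : Matrix J J ℂ))) = _
      rw [mul_add, trace_add])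
    (fun c X Y => by
      change trace ((X : Matrix J J ℂ) * (c • (Y : Matrix J J ℂ))) = _
      rw [Matrix.mul_smul, trace_smul])

theorem trForm_apply {J : Type*} [Fintype J] [DecidableEq J]
    (g : LieSubalgebra ℂ (Matrix J J ℂ)) (X Y : g) :
    trForm g X Y = trace ((X : Matrix J J ℂ) * (Y : Matrix J J ℂ)) := rfl

theorem coe_sum_smul {J : Type*} [Fintype J] [DecidableEq J]
    (g : LieSubalgebra ℂ (Matrix J J ℂ)) {K : Type*} [Fintype K] (c : K → ℂ) (b : K → g) :
    ((∑ a, c a • b a : g) : Matrix J J ℂ) = ∑ a, c a • (b a : Matrix J J ℂ) :=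
  map_sum (g.toSubmodule.subtype) _ _

/-- the `QD` structure of a Lie algebra of matrices stable under `conjTranspose` -/
def QD.ofMat {J : Type*} [Fintype J] [DecidableEq J] (g : LieSubalgebra ℂ (Matrix J J ℂ))
    (hst : ∀ X ∈ g, Xᴴ ∈ g) {K : Type*} [Fintype K] [DecidableEq K] (b : K → g)
    (orth : ∀ a c, trace ((b a : Matrix J J ℂ) * (b c : Matrix J J ℂ)ᴴ) = if a = c then 1 else 0)
    (expand : ∀ X : g, (X : Matrix J J ℂ) = ∑ a, trace ((X : Matrix J J ℂ) *
      (b a : Matrix J J ℂ)ᴴ) • (b a : Matrix J J ℂ)) : QD g K where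
  form := trForm g
  form_symm X Y := Matrix.trace_mul_comm _ _
  form_inv X Y Z := by
    rw [trForm_apply, trForm_apply, LieSubalgebra.coe_bracket, LieSubalgebra.coe_bracket,
      Ring.lie_def, Ring.lie_def, sub_mul, mul_sub, trace_sub, trace_sub, mul_assoc, mul_assoc]
    congr 1
    rw [Matrix.trace_mul_comm, mul_assoc]
  st X := ⟨(X : Matrix J J ℂ)ᴴ, hst X X.2⟩
  st_add X Y := Subtype.ext (conjTranspose_add _ _)
  st_smul c X := Subtype.ext (conjTranspose_smul _ _)
  st_st X := Subtype.ext (conjTranspose_conjTranspose _)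
  st_lie X Y := Subtype.ext (by
    simp only [LieSubalgebra.coe_bracket, Ring.lie_def, conjTranspose_sub, conjTranspose_mul])
  form_st X Y := by
    rw [trForm_apply, trForm_apply, ← conjTranspose_mul, trace_conjTranspose,
      Matrix.trace_mul_comm]
    rfl
  b := b
  orth := orth
  expand X := Subtype.ext (by
    rw [coe_sum_smul]
    exact expand X)

end

end Kost.QDt
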