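import Pool.Agent.Kost.IdxFacts

/-!
# Triangular data and Chevalley generators of the orthogonal and symplectic Lie algebras
(MP_869ec4): root matrices
-/

open Module Matrix

attribute [local instance 100] LieRing.ofAssociativeRing

namespace Kost.QDt

noncomputable section

variable {n b : ℕ} {ε : ℂ}

theorem eA_mem (i j : Fin n) : (eA i j : Matrix (Idx n b) (Idx n b) ℂ) ∈ gS n b ε := by
  rw [mem_gS, eA]
  simp only [transpose_sub, EM_transpose, sub_mul, mul_sub, EM_mul_SF, SF_mul_EM, Idx.bar, sg]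
  module

theorem Hm_mem (i : Fin n) : (Hm i : Matrix (Idx n b) (Idx n b) ℂ) ∈ gS n b ε := by
  rw [mem_gS, Hm]
  simp only [transpose_sub, EM_transpose, sub_mul, mul_sub, EM_mul_SF, SF_mul_EM, Idx.bar, sg]
  module

theorem eB_mem (i j : Fin n) : (eB i j : Matrix (Idx n b) (Idx n b) ℂ) ∈ gS n b 1 := by
  rw [mem_gS, eB]
  simp only [transpose_sub, EM_transpose, sub_mul, mul_sub, EM_mul_SF, SF_mul_EM, Idx.bar, sg]
  module

theorem eC_mem (i : Fin n) (k : Fin b) :
    (eC i k : Matrix (Idx n b) (Idx n b) ℂ) ∈ gS n b 1 := by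
  rw [mem_gS, eC]
  simp only [transpose_sub, EM_transpose, sub_mul, mul_sub, EM_mul_SF, SF_mul_EM, Idx.bar, sg]
  module

theorem eS_mem (i j : Fin n) : (eS i j : Matrix (Idx n 0) (Idx n 0) ℂ) ∈ gS n 0 (-1) := by
  rw [mem_gS, eS]
  simp only [transpose_add, EM_transpose, add_mul, mul_add, EM_mul_SF, SF_mul_EM, Idx.bar, sg]
  module

theorem transpose_mem (hε : ε * ε = 1) (hs : star ε = ε) (h : ε = 1 ∨ b = 0)
    {X : Matrix (Idx n b) (Idx n b) ℂ} (hX : X ∈ gS n b ε) (hr : Xᴴ = Xᵀ) :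
    Xᵀ ∈ gS n b ε := by
  rw [← hr]; exact star_mem hε hs h hX

/-! ### action of the `Hm` -/

theorem Hm_mul_EM (i : Fin n) (p q : Idx n b) : Hm i * EM p q = (p.wt i : ℂ) • EM p q := by
  rw [Hm, sub_mul, EM_mul_EM, EM_mul_EM]
  cases p with
  | x j =>
    by_cases h : i = j
    · subst h; simp [Idx.wt]
    · simp [Idx.wt, h]
  | y j =>
    by_cases h : i = j
    · subst h; simp [Idx.wt]
    · simp [Idx.wt, h]
  | z k => simp [Idx.wt]

theorem EM_mul_Hm (i : Fin n) (p q : Idx n b) : EM p q * Hm i = (q.wt i : ℂ) • EM p q := by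
  rw [Hm, mul_sub, EM_mul_EM, EM_mul_EM]
  cases q with
  | x j =>
    by_cases h : j = i
    · subst h; simp [Idx.wt]
    · simp [Idx.wt, h, Ne.symm h]
  | y j =>
    by_cases h : j = i
    · subst h; simp [Idx.wt]
    · simp [Idx.wt, h, Ne.symm h]
  | z k => simp [Idx.wt]

theorem Hm_transpose (i : Fin n) : (Hm i : Matrix (Idx n b) (Idx n b) ℂ)ᵀ = Hm i := by
  rw [Hm, transpose_sub, EM_transpose, EM_transpose]

theorem Hm_conjTranspose (i : Fin n) : (Hm i : Matrix (Idx n b) (Idx n b) ℂ)ᴴ = Hm i := by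
  rw [Hm, conjTranspose_sub, EM_conjTranspose, EM_conjTranspose]

theorem lie_Hm_EM (i : Fin n) (p q : Idx n b) :
    Hm i * EM p q - EM p q * Hm i = ((p.wt i : ℂ) - (q.wt i : ℂ)) • EM p q := by
  rw [Hm_mul_EM, EM_mul_Hm, sub_smul]

theorem Hm_Hm (i j : Fin n) : (Hm i * Hm j - Hm j * Hm i : Matrix (Idx n b) (Idx n b) ℂ) = 0 := by
  have h1 : ∀ i j : Fin n, (Hm i * Hm j : Matrix (Idx n b) (Idx n b) ℂ) =
      ((Idx.x j : Idx n b).wt i : ℂ) • EM (.x j) (.x j) -
      ((Idx.y j : Idx n b).wt i : ℂ) • EM (.y j) (.y j) := by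
    intro i j
    have h0 : (Hm j : Matrix (Idx n b) (Idx n b) ℂ) = EM (.x j) (.x j) - EM (.y j) (.y j) := rfl
    rw [h0, mul_sub, Hm_mul_EM, Hm_mul_EM]
  have h2 : ∀ i j : Fin n, (Hm j * Hm i : Matrix (Idx n b) (Idx n b) ℂ) =
      ((Idx.x j : Idx n b).wt i : ℂ) • EM (.x j) (.x j) -
      ((Idx.y j : Idx n b).wt i : ℂ) • EM (.y j) (.y j) := by
    intro i j
    have h0 : (Hm j : Matrix (Idx n b) (Idx n b) ℂ) = EM (.x j) (.x j) - EM (.y j) (.y j) := rfl
    rw [h0, sub_mul, EM_mul_Hm, EM_mul_Hm]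
  rw [h1 i j, h2 i j, sub_self]

/-! ### triangular data, orthogonal case -/

/-- `uA`, explicitly -/
theorem uA_def (p : K2 (Idx n b)) : uA p = ((√2 : ℂ)⁻¹) • (EM p.1.1 p.1.2 - EM p.1.2 p.1.1) := rfl

/-- weights of pairs -/
def wt2 (p : Idx n b × Idx n b) (i : Fin n) : ℝ := (p.1.wt i : ℝ) + (p.2.wt i : ℝ)

theorem Hm_uA (i : Fin n) (p : K2 (Idx n b)) :
    Hm i * uA p + uA p * (Hm i)ᵀ = (wt2 p.1 i : ℂ) • uA p := by
  rw [Hm_transpose, uA_def]
  simp only [Matrix.mul_smul, Matrix.smul_mul, mul_sub, sub_mul, Hm_mul_EM, EM_mul_Hm, wt2]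
  push_cast
  module

theorem sum_hg_wt2 (p : Idx n b × Idx n b) :
    ∑ i, hg n i * wt2 p i = Idx.val (hg n) p.1 + Idx.val (hg n) p.2 := by
  simp only [wt2, mul_add, Finset.sum_add_distrib, Idx.sum_mul_wt]

theorem sum_wt2_mul (g : Fin n → ℝ) (p : Idx n b × Idx n b) :
    ∑ i, wt2 p i * g i = Idx.val g p.1 + Idx.val g p.2 := by
  simp only [wt2, add_mul, Finset.sum_add_distrib]
  rw [← Idx.sum_mul_wt, ← Idx.sum_mul_wt]
  simp only [mul_comm]

/-- the dual pair -/
def bar2 (hb : b ≤ 1) (p : K2 (Idx n b)) : K2 (Idx n b) :=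
  ⟨(p.1.2.bar, p.1.1.bar), Idx.bar_lt_bar hb p.2⟩

theorem bar2_bar2 (hb : b ≤ 1) (p : K2 (Idx n b)) : bar2 hb (bar2 hb p) = p := by
  apply Subtype.ext; apply Prod.ext <;> simp [bar2]

theorem sg_one (p : Idx n b) : sg 1 p = 1 := by cases p <;> rfl

theorem st_uA (hb : b ≤ 1) (p : K2 (Idx n b)) :
    (uA p * SF n b 1)ᴴ = uA (bar2 hb p) * SF n b 1 := by
  rw [conjTranspose_mul, SF_conjTranspose star_one_C, SF_transpose one_mul_one_C (Or.inl rfl),
    uA_conjTranspose, one_smul, uA_def, uA_def]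
  simp only [Matrix.mul_smul, Matrix.smul_mul, mul_sub, sub_mul, SF_mul_EM, EM_mul_SF, bar2, sg_one,
    one_smul, mul_neg, bar_bar]
  module

/-- zero weight pairs are the pairs `(x i, y i)` -/
theorem reg2 (hb : b ≤ 1) {p : Idx n b × Idx n b} (hp : p.1 < p.2)
    (h : Idx.val (hg n) p.1 + Idx.val (hg n) p.2 = 0) : ∃ i, p = (Idx.x i, Idx.y i) := by
  obtain ⟨p, q⟩ := p
  simp only at hp h
  have h0 := @hg_pos n
  cases p with
  | x i =>
    cases q with
    | x j => simp only [Idx.val] at h; linarith [h0 i, h0 j]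
    | y j =>
      refine ⟨i, ?_⟩
      simp only [Idx.val] at h
      by_cases hij : i = j
      · rw [hij]
      · exfalso
        rcases lt_or_gt_of_ne hij with h1 | h1
        · have := (hg_sub_pos i j).2 h1; linarith
        · have := (hg_sub_pos j i).2 h1; linarith
    | z k => simp only [Idx.val] at h; linarith [h0 i]
  | y i =>
    cases q with
    | x j => exact absurd hp (not_lt.2 (Idx.x_lt_y j i).le)
    | y j => simp only [Idx.val] at h; linarith [h0 i, h0 j]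
    | z k => exact absurd hp (not_lt.2 (Idx.z_lt_y k i).le)
  | z k =>
    cases q with
    | x j => exact absurd hp (not_lt.2 (Idx.x_lt_z j k).le)
    | y j => simp only [Idx.val] at h; linarith [h0 j]
    | z l =>
      exfalso
      rw [Idx.lt_iff] at hp
      simp only [Idx.rk] at hp
      omega

/-- the functional `ρ` -/
def rhoSo (n b : ℕ) (i : Fin n) : ℝ := (n : ℝ) - 1 - i + b / 2

theorem rhoSo_pos_pair {p : Idx n b × Idx n b} (hp : p.1 < p.2)
    (h : 0 < Idx.val (hg n) p.1 + Idx.val (hg n) p.2) :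
    0 < Idx.val (rhoSo n b) p.1 + Idx.val (rhoSo n b) p.2 := by
  obtain ⟨p, q⟩ := p
  simp only at hp h ⊢
  have h0 := @hg_pos n
  have hr : ∀ i : Fin n, 0 ≤ (n : ℝ) - 1 - i := by
    intro i
    have : ((i : ℕ) : ℝ) + 1 ≤ n := by exact_mod_cast i.2
    linarith
  have hbn : (0 : ℝ) ≤ b := Nat.cast_nonneg b
  cases p with
  | x i =>
    cases q with
    | x j =>
      simp only [Idx.val, rhoSo]
      rw [Idx.x_lt_x] at hp
      have h1 : ((i : ℕ) : ℝ) + 1 ≤ (j : ℕ) := by exact_mod_cast hp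
      have := hr i
      have := hr j
      linarith
    | y j =>
      simp only [Idx.val, rhoSo, hg] at h ⊢
      linarith
    | z k =>
      have hk : 1 ≤ b := by have := k.2; omega
      have : (1 : ℝ) ≤ b := by exact_mod_cast hk
      simp only [Idx.val, rhoSo]
      have := hr i
      linarith
  | y i =>
    cases q with
    | x j => exact absurd hp (not_lt.2 (Idx.x_lt_y j i).le)
    | y j => simp only [Idx.val] at h; linarith [h0 i, h0 j]
    | z k => exact absurd hp (not_lt.2 (Idx.z_lt_y k i).le)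
  | z k =>
    cases q with
    | x j => exact absurd hp (not_lt.2 (Idx.x_lt_z j k).le)
    | y j => simp only [Idx.val] at h; linarith [h0 j]
    | z l => simp only [Idx.val] at h; linarith

theorem uA_z_mul (i : Fin n) :
    uA (⟨(.x i, .y i), Idx.x_lt_y i i⟩ : K2 (Idx n b)) * SF n b 1 = (√2 : ℂ)⁻¹ • Hm i := by
  rw [uA_def]
  simp only [Matrix.smul_mul, sub_mul, EM_mul_SF, sg_one, one_smul, Idx.bar, Hm]

/-- triangular data of the orthogonal Lie algebra -/
def TDso (n b : ℕ) (hb : b ≤ 1) : TD (QDso n b) n where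
  H i := ⟨Hm i, Hm_mem i⟩
  st_H i := Subtype.ext (Hm_conjTranspose i)
  wt p i := wt2 p.1 i
  lie_H i p := by
    apply Subtype.ext
    rw [LieSubalgebra.coe_bracket, Ring.lie_def, QDso_b, lie_mul_SF (Hm_mem i), Hm_uA,
      Matrix.smul_mul]
    rfl
  z i := ⟨(.x i, .y i), Idx.x_lt_y i i⟩
  z_inj i j h := by
    have := congrArg (fun p : K2 (Idx n b) => p.1.1) h
    simpa using this
  b_z i := by
    apply Subtype.ext
    change Hm i = (√2 : ℂ) • (uA (⟨(.x i, .y i), Idx.x_lt_y i i⟩ : K2 (Idx n b)) * SF n b 1)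
    rw [uA_z_mul, smul_smul, mul_inv_cancel₀ sqrt2_ne, one_smul]
  wt_z i j := by
    by_cases h : i = j
    · subst h; simp [wt2, Idx.wt]
    · simp [wt2, Idx.wt, Ne.symm h]
  bar := bar2 hb
  bar_bar := bar2_bar2 hb
  tau _ := 1
  tau_sq _ := one_mul 1
  st_b p := by
    apply Subtype.ext
    change (uA p * SF n b 1)ᴴ = ((1 : ℝ) : ℂ) • (uA (bar2 hb p) * SF n b 1)
    rw [st_uA hb, Complex.ofReal_one, one_smul]
  hgt := hg n
  reg p h := by
    rw [sum_hg_wt2] at h
    obtain ⟨i, hi⟩ := reg2 hb p.2 h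
    exact ⟨i, Subtype.ext hi⟩
  rho_pos p h := by
    rw [sum_hg_wt2] at h
    have h1 : ∀ i, (1 / 2 : ℝ) * ∑ c ∈ (Finset.univ : Finset (K2 (Idx n b))).filter
        (fun c => 0 < ∑ j, hg n j * wt2 c.1 j), wt2 c.1 i = rhoSo n b i := by
      intro i
      simp only [sum_hg_wt2]
      exact half_sum_so i
    simp only [h1]
    rw [sum_wt2_mul]
    exact rhoSo_pos_pair p.2 h

theorem TDso_rho (hb : b ≤ 1) (i : Fin n) : (TDso n b hb).rho i = rhoSo n b i := by
  change (1 / 2 : ℝ) * ∑ c ∈ (Finset.univ : Finset (K2 (Idx n b))).filter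
        (fun c => 0 < ∑ j, hg n j * wt2 c.1 j), wt2 c.1 i = rhoSo n b i
  simp only [sum_hg_wt2]
  exact half_sum_so i

end

end Kost.QDt
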