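import Pool.Agent.Kost.QDso

/-!
# Triangular data of the symplectic Lie algebra (MP_869ec4)
-/

open Module Matrix

attribute [local instance 100] LieRing.ofAssociativeRing

namespace Kost.QDt

noncomputable section

variable {n : ℕ}

theorem uS_of_ne {p : K2' (Idx n 0)} (h : p.1.1 ≠ p.1.2) :
    uS p = ((√2 : ℂ)⁻¹) • (EM p.1.1 p.1.2 + EM p.1.2 p.1.1) := by
  rw [uS, if_neg h]

theorem uS_of_eq {p : K2' (Idx n 0)} (h : p.1.1 = p.1.2) : uS p = EM p.1.1 p.1.1 := by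
  rw [uS, if_pos h]

theorem Hm_uS (i : Fin n) (p : K2' (Idx n 0)) :
    Hm i * uS p + uS p * (Hm i)ᵀ = (wt2 p.1 i : ℂ) • uS p := by
  rw [Hm_transpose]
  by_cases h : p.1.1 = p.1.2
  · rw [uS_of_eq h, Hm_mul_EM, EM_mul_Hm, wt2, ← h]
    push_cast
    module
  · rw [uS_of_ne h]
    simp only [Matrix.mul_smul, Matrix.smul_mul, mul_add, add_mul, Hm_mul_EM, EM_mul_Hm, wt2]
    push_cast
    module

/-- the dual pair -/
def bar2' (p : K2' (Idx n 0)) : K2' (Idx n 0) :=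
  ⟨(p.1.2.bar, p.1.1.bar), Idx.bar_le_bar (Nat.zero_le 1) p.2⟩

theorem bar2'_bar2' (p : K2' (Idx n 0)) : bar2' (bar2' p) = p := by
  apply Subtype.ext; apply Prod.ext <;> simp [bar2']

/-- real sign of a basis vector of the symplectic module -/
def sgR : Idx n 0 → ℝ
  | .x _ => 1
  | .y _ => -1
  | .z _ => 1

theorem sgR_coe (p : Idx n 0) : sg (-1) p = (sgR p : ℂ) := by cases p <;> simp [sg, sgR]

theorem sgR_mul_self (p : Idx n 0) : sgR p * sgR p = 1 := by cases p <;> simp [sgR]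

theorem st_uS (p : K2' (Idx n 0)) :
    (uS p * SF n 0 (-1))ᴴ = ((-(sgR p.1.1 * sgR p.1.2) : ℝ) : ℂ) •
      (uS (bar2' p) * SF n 0 (-1)) := by
  rw [conjTranspose_mul, SF_conjTranspose star_negone_C,
    SF_transpose negone_mul_negone_C (Or.inr rfl), uS_conjTranspose]
  have h1 : ((sgR p.1.1 : ℝ) : ℂ) * (sgR p.1.1 : ℝ) = 1 := by
    rw [← Complex.ofReal_mul, sgR_mul_self, Complex.ofReal_one]
  have h2 : ((sgR p.1.2 : ℝ) : ℂ) * (sgR p.1.2 : ℝ) = 1 := by
    rw [← Complex.ofReal_mul, sgR_mul_self, Complex.ofReal_one]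
  by_cases h : p.1.1 = p.1.2
  · have h' : (bar2' p).1.1 = (bar2' p).1.2 := by simp [bar2', h]
    rw [uS_of_eq h, uS_of_eq h']
    simp only [Matrix.smul_mul, SF_mul_EM, EM_mul_SF, bar2', sgR_coe, bar_bar, ← h]
    push_cast
    rw [smul_smul, smul_smul]
    congr 1
    linear_combination (-((sgR p.1.1 : ℝ) : ℂ)) * (1 - h1)
  · have h' : (bar2' p).1.1 ≠ (bar2' p).1.2 := by
      intro h3
      apply h
      simp only [bar2'] at h3
      rw [← bar_bar p.1.1, ← h3, bar_bar]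
    rw [uS_of_ne h, uS_of_ne h']
    simp only [Matrix.mul_smul, Matrix.smul_mul, mul_add, add_mul, SF_mul_EM, EM_mul_SF, bar2',
      sgR_coe, bar_bar]
    push_cast
    simp only [smul_add, smul_smul]
    rw [add_comm]
    congr 2
    · linear_combination ((sgR p.1.2 : ℝ) : ℂ) * (√2 : ℂ)⁻¹ * h1
    · linear_combination ((sgR p.1.1 : ℝ) : ℂ) * (√2 : ℂ)⁻¹ * h2

/-- zero weight pairs are the pairs `(x i, y i)` -/
theorem reg2' {p : Idx n 0 × Idx n 0} (hp : p.1 ≤ p.2)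
    (h : Idx.val (hg n) p.1 + Idx.val (hg n) p.2 = 0) : ∃ i, p = (Idx.x i, Idx.y i) := by
  rcases hp.lt_or_eq with h1 | h1
  · exact reg2 (Nat.zero_le 1) h1 h
  · obtain ⟨p, q⟩ := p
    simp only at h1 h
    subst h1
    exfalso
    have h0 := @hg_pos n
    cases p with
    | x i => simp only [Idx.val] at h; linarith [h0 i]
    | y i => simp only [Idx.val] at h; linarith [h0 i]
    | z k => exact k.elim0

/-- the functional `ρ` -/
def rhoSp (n : ℕ) (i : Fin n) : ℝ := (n : ℝ) - i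

theorem rhoSp_pos_pair {p : Idx n 0 × Idx n 0}
    (h : 0 < Idx.val (hg n) p.1 + Idx.val (hg n) p.2) :
    0 < Idx.val (rhoSp n) p.1 + Idx.val (rhoSp n) p.2 := h

theorem uS_z_mul (i : Fin n) :
    uS (⟨(.x i, .y i), (Idx.x_lt_y i i).le⟩ : K2' (Idx n 0)) * SF n 0 (-1) =
      (√2 : ℂ)⁻¹ • Hm i := by
  rw [uS_of_ne (by simp)]
  simp only [Matrix.smul_mul, add_mul, EM_mul_SF, Idx.bar, Hm, sg]
  module

/-- triangular data of the symplectic Lie algebra -/
def TDsp (n : ℕ) : TD (QDsp n) n where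
  H i := ⟨Hm i, Hm_mem i⟩
  st_H i := Subtype.ext (Hm_conjTranspose i)
  wt p i := wt2 p.1 i
  lie_H i p := by
    apply Subtype.ext
    rw [LieSubalgebra.coe_bracket, Ring.lie_def, QDsp_b, lie_mul_SF (Hm_mem i), Hm_uS,
      Matrix.smul_mul]
    rfl
  z i := ⟨(.x i, .y i), (Idx.x_lt_y i i).le⟩
  z_inj i j h := by
    have := congrArg (fun p : K2' (Idx n 0) => p.1.1) h
    simpa using this
  b_z i := by
    apply Subtype.ext
    change Hm i = (√2 : ℂ) • (uS (⟨(.x i, .y i), (Idx.x_lt_y i i).le⟩ : K2' (Idx n 0)) *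
      SF n 0 (-1))
    rw [uS_z_mul, smul_smul, mul_inv_cancel₀ sqrt2_ne, one_smul]
  wt_z i j := by
    by_cases h : i = j
    · subst h; simp [wt2, Idx.wt]
    · simp [wt2, Idx.wt, Ne.symm h]
  bar := bar2'
  bar_bar := bar2'_bar2'
  tau p := -(sgR p.1.1 * sgR p.1.2)
  tau_sq p := by
    have h1 := sgR_mul_self p.1.1
    have h2 := sgR_mul_self p.1.2
    linear_combination (sgR p.1.2 * sgR p.1.2) * h1 + h2
  st_b p := by
    apply Subtype.ext
    exact st_uS p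
  hgt := hg n
  reg p h := by
    rw [sum_hg_wt2] at h
    obtain ⟨i, hi⟩ := reg2' p.2 h
    exact ⟨i, Subtype.ext hi⟩
  rho_pos p h := by
    rw [sum_hg_wt2] at h
    have h1 : ∀ i, (1 / 2 : ℝ) * ∑ c ∈ (Finset.univ : Finset (K2' (Idx n 0))).filter
        (fun c => 0 < ∑ j, hg n j * wt2 c.1 j), wt2 c.1 i = rhoSp n i := by
      intro i
      simp only [sum_hg_wt2]
      exact half_sum_sp i
    simp only [h1]
    rw [sum_wt2_mul]
    exact rhoSp_pos_pair h

theorem TDsp_rho (i : Fin n) : (TDsp n).rho i = rhoSp n i := by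
  change (1 / 2 : ℝ) * ∑ c ∈ (Finset.univ : Finset (K2' (Idx n 0))).filter
        (fun c => 0 < ∑ j, hg n j * wt2 c.1 j), wt2 c.1 i = rhoSp n i
  simp only [sum_hg_wt2]
  exact half_sum_sp i

end

end Kost.QDt
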