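import Pool.Agent.Kost.LandauFix

/-!
# Raising a weight by twos, and the nested graphs for types B and D

`lam : Fin l → ℤ` with `∑_{i ∈ K} lam i ≤ |K| (M - |K|)` for all `K` can be raised by even amounts,
keeping this condition, until the total is `l (M - l)` or `l (M - l) - 1`.
-/

namespace Kost

namespace Landau

open Finset

/-- subset form of `λ ≤ 2ρ` -/
def Sub (l : ℕ) (M : ℤ) (D : Fin l → ℤ) : Prop :=
  ∀ K : Finset (Fin l), ∑ i ∈ K, D i ≤ (K.card : ℤ) * (M - K.card)

/-- raising a smallest entry by `2` keeps the condition, as long as the total allows it -/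
theorem Sub.raise {l : ℕ} {M : ℤ} {D : Fin l → ℤ} (h : Sub l M D) {a : Fin l}
    (ha : ∀ j, D a ≤ D j) (htot : ∑ i, D i + 2 ≤ (l : ℤ) * (M - l)) :
    Sub l M (fun i => if i = a then D i + 2 else D i) := by
  intro K
  by_cases haK : a ∈ K
  · have hsum : ∑ i ∈ K, (if i = a then D i + 2 else D i) = ∑ i ∈ K, D i + 2 := by
      have : ∀ i ∈ K, (if i = a then D i + 2 else D i) = D i + (if i = a then 2 else 0) := by
        intro i _; split_ifs <;> ring
      rw [sum_congr rfl this, sum_add_distrib, sum_ite_eq' K a, if_pos haK]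
    rw [hsum]
    by_contra hlt
    push Not at hlt
    -- the set `K` is not everything
    have hne : K ≠ univ := by
      intro hK
      rw [hK, card_univ, Fintype.card_fin] at hlt
      linarith
    have hkl : K.card < l := by
      have := card_lt_card (ssubset_univ_iff.2 hne)
      rwa [card_univ, Fintype.card_fin] at this
    set k : ℤ := (K.card : ℤ) with hk
    have hk1 : 1 ≤ K.card := card_pos.2 ⟨a, haK⟩
    -- remove `a`
    have h1 := h (K.erase a)
    rw [card_erase_of_mem haK] at h1
    have h2 : ∑ i ∈ K.erase a, D i + D a = ∑ i ∈ K, D i := sum_erase_add K D haK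
    have h3 : ((K.card - 1 : ℕ) : ℤ) = k - 1 := by
      rw [Nat.cast_sub hk1]; simp [hk]
    rw [h3] at h1
    have ha1 : M - 2 * k ≤ D a := by nlinarith
    -- total
    have h4 : ∑ i ∈ K, D i + ∑ i ∈ Kᶜ, D i = ∑ i, D i := sum_add_sum_compl K D
    have h5 : ((l:ℤ) - k) * D a ≤ ∑ i ∈ Kᶜ, D i := by
      have := card_nsmul_le_sum Kᶜ D (D a) (fun j _ => ha j)
      rw [card_compl, Fintype.card_fin, nsmul_eq_mul, Nat.cast_sub hkl.le] at this
      exact this
    have h6 : (1:ℤ) ≤ (l:ℤ) - k := by
      have : (K.card : ℤ) + 1 ≤ l := by exact_mod_cast hkl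
      omega
    have h7 : ((l:ℤ) - k) * (M - 2 * k) ≤ ((l:ℤ) - k) * D a :=
      mul_le_mul_of_nonneg_left ha1 (by omega)
    nlinarith
  · have hsum : ∑ i ∈ K, (if i = a then D i + 2 else D i) = ∑ i ∈ K, D i := by
      refine sum_congr rfl fun i hi => ?_
      rw [if_neg]; rintro rfl; exact haK hi
    rw [hsum]
    exact h K

/-- raising up to (almost) the maximal total -/
theorem exists_raise {l : ℕ} {M : ℤ} {lam : Fin l → ℤ} (h : Sub l M lam) :
    ∃ D : Fin l → ℤ, (∀ i, lam i ≤ D i) ∧ (∀ i, Even (D i - lam i)) ∧ Sub l M D ∧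
      (l : ℤ) * (M - l) - 1 ≤ ∑ i, D i := by
  have key : ∀ d : ℕ, ∀ D : Fin l → ℤ, (∀ i, lam i ≤ D i) → (∀ i, Even (D i - lam i)) →
      Sub l M D → (l : ℤ) * (M - l) - ∑ i, D i ≤ d →
      ∃ D : Fin l → ℤ, (∀ i, lam i ≤ D i) ∧ (∀ i, Even (D i - lam i)) ∧ Sub l M D ∧
      (l : ℤ) * (M - l) - 1 ≤ ∑ i, D i := by
    intro d
    induction d with
    | zero =>
      intro D h1 h2 h3 h4
      exact ⟨D, h1, h2, h3, by push_cast at h4; omega⟩
    | succ d ih =>
      intro D h1 h2 h3 h4
      by_cases hlt : (l : ℤ) * (M - l) - 1 ≤ ∑ i, D i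
      · exact ⟨D, h1, h2, h3, hlt⟩
      · push Not at hlt
        -- `l > 0`
        have hl : 0 < l := by
          by_contra h0
          have : l = 0 := by omega
          subst this
          simp at hlt
        have : Nonempty (Fin l) := ⟨⟨0, hl⟩⟩
        obtain ⟨a, -, ha⟩ := exists_min_image (univ : Finset (Fin l)) D univ_nonempty
        have hsum : ∑ i, (if i = a then D i + 2 else D i) = ∑ i, D i + 2 := by
          have : ∀ i ∈ (univ : Finset (Fin l)), (if i = a then D i + 2 else D i)
              = D i + (if i = a then 2 else 0) := by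
            intro i _; split_ifs <;> ring
          rw [sum_congr rfl this, sum_add_distrib, sum_ite_eq' univ a, if_pos (mem_univ _)]
        refine ih (fun i => if i = a then D i + 2 else D i) ?_ ?_
          (h3.raise (fun j => ha j (mem_univ _)) (by omega)) ?_
        · intro i
          have := h1 i
          split_ifs <;> omega
        · intro i
          have := h2 i
          split_ifs
          · rw [Int.even_iff] at this ⊢; omega
          · exact this
        · rw [hsum]; push_cast at h4; omega
  exact key ((l : ℤ) * (M - l) - ∑ i, lam i).toNat lam (fun _ => le_refl _)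
    (fun i => by simp) h (by omega)

/-- a weakly decreasing sequence: subset sums are at most the partial sums -/
theorem sum_le_partial {l : ℕ} {f : ℕ → ℤ} (hf : ∀ i j, i ≤ j → j < l → f j ≤ f i)
    (K : Finset (Fin l)) : ∑ i ∈ K, f i ≤ ∑ i ∈ range K.card, f i := by
  have h1 : ∑ i ∈ K, f i = ∑ i : Fin K.card, f (K.orderEmbOfFin rfl i) := by
    rw [← Finset.sum_coe_sort K (fun i => f i)]
    exact (Fintype.sum_equiv (K.orderIsoOfFin rfl).toEquiv _ _ (fun i => rfl)).symm
  rw [h1, Finset.sum_range]
  refine sum_le_sum fun i _ => ?_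
  refine hf _ _ ?_ (Fin.is_lt _)
  -- `i ≤ orderEmbOfFin i`
  have h2 : StrictMono (fun i : Fin K.card => ((K.orderEmbOfFin rfl i : Fin l) : ℕ)) := by
    intro a b hab
    exact (K.orderEmbOfFin rfl).strictMono hab
  have h3 : ∀ m : ℕ, ∀ hm : m < K.card,
      m ≤ ((K.orderEmbOfFin rfl ⟨m, hm⟩ : Fin l) : ℕ) := by
    intro m
    induction m with
    | zero => intro _; exact Nat.zero_le _
    | succ m ih =>
      intro hm
      have h4 := ih (by omega)
      have h5 := h2 (show (⟨m, by omega⟩ : Fin K.card) < ⟨m + 1, hm⟩ from by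
        rw [Fin.lt_def]; exact Nat.lt_succ_self m)
      simp only at h5
      omega
  exact h3 i i.2

end Landau

end Kost
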