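import Pool.Agent.Kost.QDgen

/-!
# Facts on the Gram matrix `SF` and the Lie algebra `gS` (MP_869ec4)
-/

open Module Matrix

attribute [local instance 100] LieRing.ofAssociativeRing

namespace Kost.QDt

noncomputable section

variable {n b : ℕ}

/-- the sign of a basis vector -/
def sg (ε : ℂ) : Idx n b → ℂ
  | .x _ => 1
  | .y _ => ε
  | .z _ => 1

@[simp] theorem bar_bar (p : Idx n b) : p.bar.bar = p := by cases p <;> rfl

theorem bar_eq_iff (p q : Idx n b) : p = q.bar ↔ p.bar = q := by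
  constructor
  · rintro rfl; exact bar_bar q
  · rintro rfl; exact (bar_bar p).symm

theorem SF_eq (ε : ℂ) (p q : Idx n b) : SF n b ε p q = if p = q.bar then sg ε q else 0 := by
  cases p <;> cases q <;> simp [SF, Idx.bar, sg]

theorem SF_star {ε : ℂ} (hε : star ε = ε) (p q : Idx n b) : star (SF n b ε p q) = SF n b ε p q := by
  rw [SF_eq]
  split_ifs
  · cases q <;> simp [sg] ; exact hε
  · simp

theorem SF_conjTranspose {ε : ℂ} (hε : star ε = ε) : (SF n b ε)ᴴ = (SF n b ε)ᵀ := by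
  ext p q
  rw [conjTranspose_apply, SF_star hε, transpose_apply]

theorem EM_mul_SF (ε : ℂ) (p q : Idx n b) : EM p q * SF n b ε = sg ε q.bar • EM p q.bar := by
  ext r s
  rw [Matrix.mul_apply, Matrix.smul_apply, EM_apply, smul_eq_mul]
  rw [Finset.sum_eq_single q]
  · rw [EM_apply, SF_eq]
    simp only [bar_eq_iff, and_true]
    by_cases h1 : p = r <;> by_cases h2 : q.bar = s <;> simp [h1, h2]
  · intro t _ ht
    rw [EM_apply, if_neg (fun h => ht h.2.symm), zero_mul]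
  · intro h; exact absurd (Finset.mem_univ _) h

theorem SF_mul_EM (ε : ℂ) (p q : Idx n b) : SF n b ε * EM p q = sg ε p • EM p.bar q := by
  ext r s
  rw [Matrix.mul_apply, Matrix.smul_apply, EM_apply, smul_eq_mul]
  rw [Finset.sum_eq_single p]
  · rw [EM_apply, SF_eq]
    have h0 : (r = p.bar) ↔ (p.bar = r) := eq_comm
    simp only [h0, true_and]
    by_cases h1 : q = s <;> by_cases h2 : p.bar = r <;> simp [h1, h2]
  · intro t _ ht
    rw [EM_apply, if_neg (fun h => ht h.1.symm), mul_zero]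
  · intro h; exact absurd (Finset.mem_univ _) h

theorem sg_mul_sg {ε : ℂ} (hε : ε * ε = 1) (p : Idx n b) : sg ε p * sg ε p = 1 := by
  cases p <;> simp [sg, hε]

theorem SFt_mul_SF {ε : ℂ} (hε : ε * ε = 1) : (SF n b ε)ᵀ * SF n b ε = 1 := by
  ext p q
  rw [Matrix.mul_apply, Matrix.one_apply, Finset.sum_eq_single p.bar]
  · rw [transpose_apply, SF_eq, SF_eq, if_pos rfl]
    by_cases h : p = q
    · subst h
      rw [if_pos rfl, if_pos rfl, sg_mul_sg hε]
    · rw [if_neg, if_neg h, mul_zero]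
      intro h'
      apply h
      rw [← bar_bar p, h', bar_bar]
  · intro t _ ht
    rw [transpose_apply, SF_eq, if_neg ht, zero_mul]
  · intro h; exact absurd (Finset.mem_univ _) h

theorem SF_mul_SFt {ε : ℂ} (hε : ε * ε = 1) : SF n b ε * (SF n b ε)ᵀ = 1 :=
  mul_eq_one_comm.1 (SFt_mul_SF hε)

theorem SF_transpose {ε : ℂ} (hε : ε * ε = 1) (h : ε = 1 ∨ b = 0) :
    (SF n b ε)ᵀ = ε • SF n b ε := by
  ext p q
  rw [transpose_apply, Matrix.smul_apply, smul_eq_mul]
  cases p <;> cases q <;> simp [SF]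
  · simp only [hε, eq_comm]
  · simp only [eq_comm]
  · rcases h with h | h
    · rw [h]; simp only [eq_comm]
    · subst h; rename_i k _; exact k.elim0

theorem mem_gS {ε : ℂ} {X : Matrix (Idx n b) (Idx n b) ℂ} :
    X ∈ gS n b ε ↔ Xᵀ * SF n b ε + SF n b ε * X = 0 := Iff.rfl

variable {ε : ℂ}

theorem SF_mul_SF (hε : ε * ε = 1) (h : ε = 1 ∨ b = 0) : SF n b ε * SF n b ε = ε • 1 := by
  have h1 := SF_transpose (n := n) hε h
  have h2 := SF_mul_SFt (n := n) (b := b) hε
  rw [h1, Matrix.mul_smul] at h2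
  rw [← h2, smul_smul, hε, one_smul]

/-- `P ↦ P S` maps `ε`-antisymmetric matrices to the Lie algebra -/
theorem mul_SF_mem (hε : ε * ε = 1) (h : ε = 1 ∨ b = 0) {P : Matrix (Idx n b) (Idx n b) ℂ}
    (hP : Pᵀ = -(ε • P)) : P * SF n b ε ∈ gS n b ε := by
  rw [mem_gS, transpose_mul, SF_transpose hε h, hP]
  simp only [mul_neg, neg_mul, Matrix.smul_mul, Matrix.mul_smul, smul_smul, hε, one_smul]
  rw [Matrix.mul_assoc]
  abel

theorem exists_of_mem (hε : ε * ε = 1) (h : ε = 1 ∨ b = 0) {X : Matrix (Idx n b) (Idx n b) ℂ}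
    (hX : X ∈ gS n b ε) : (X * (SF n b ε)ᵀ)ᵀ = -(ε • (X * (SF n b ε)ᵀ)) ∧
      X * (SF n b ε)ᵀ * SF n b ε = X := by
  constructor
  · rw [mem_gS] at hX
    have h1 : Xᵀ * SF n b ε = -(SF n b ε * X) := eq_neg_of_add_eq_zero_left hX
    have h2 : Xᵀ = -(SF n b ε * X * (SF n b ε)ᵀ) := by
      calc Xᵀ = Xᵀ * (SF n b ε * (SF n b ε)ᵀ) := by rw [SF_mul_SFt hε, mul_one]
        _ = Xᵀ * SF n b ε * (SF n b ε)ᵀ := by rw [Matrix.mul_assoc]
        _ = _ := by rw [h1, neg_mul]
    rw [transpose_mul, transpose_transpose, h2, mul_neg, ← Matrix.mul_assoc, ← Matrix.mul_assoc,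
      SF_mul_SF hε h, Matrix.smul_mul, Matrix.smul_mul, one_mul]
  · rw [Matrix.mul_assoc, SFt_mul_SF hε, mul_one]

theorem star_mem (hε : ε * ε = 1) (hs : star ε = ε) (h : ε = 1 ∨ b = 0)
    {X : Matrix (Idx n b) (Idx n b) ℂ} (hX : X ∈ gS n b ε) : Xᴴ ∈ gS n b ε := by
  rw [mem_gS] at hX ⊢
  have h1 := congrArg conjTranspose hX
  rw [conjTranspose_add, conjTranspose_mul, conjTranspose_mul, SF_conjTranspose hs,
    SF_transpose hε h, conjTranspose_zero] at h1
  have h2 : (Xᵀ)ᴴ = (Xᴴ)ᵀ := by ext p q; rfl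
  rw [h2] at h1
  simp only [Matrix.smul_mul, Matrix.mul_smul] at h1
  have h3 : SF n b ε * (Xᴴ)ᵀ + Xᴴ * SF n b ε = 0 := by
    have := congrArg (fun M => ε • M) h1
    simpa only [smul_add, smul_smul, hε, one_smul, smul_zero] using this
  have h4 : SF n b ε * (SF n b ε * (Xᴴ)ᵀ + Xᴴ * SF n b ε) * SF n b ε = 0 := by
    rw [h3, mul_zero, zero_mul]
  rw [mul_add, add_mul, ← Matrix.mul_assoc, SF_mul_SF hε h, Matrix.smul_mul, one_mul,
    Matrix.mul_assoc, Matrix.mul_assoc, SF_mul_SF hε h, Matrix.mul_smul, mul_one,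
    Matrix.mul_smul, Matrix.smul_mul, ← smul_add] at h4
  have := congrArg (fun M => ε • M) h4
  simpa only [smul_smul, hε, one_smul, smul_zero] using this

/-- the bracket in terms of `P ↦ P S` -/
theorem lie_mul_SF {X P : Matrix (Idx n b) (Idx n b) ℂ} (hX : X ∈ gS n b ε) :
    X * (P * SF n b ε) - P * SF n b ε * X = (X * P + P * Xᵀ) * SF n b ε := by
  rw [mem_gS] at hX
  have h1 : Xᵀ * SF n b ε = -(SF n b ε * X) := eq_neg_of_add_eq_zero_left hX
  rw [add_mul, Matrix.mul_assoc P Xᵀ, h1, mul_neg, Matrix.mul_assoc, Matrix.mul_assoc,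
    sub_eq_add_neg]

theorem trace_SF (hε : ε * ε = 1) (hs : star ε = ε) (P Q : Matrix (Idx n b) (Idx n b) ℂ) :
    trace (P * SF n b ε * (Q * SF n b ε)ᴴ) = trace (P * Qᴴ) := by
  rw [conjTranspose_mul, SF_conjTranspose hs, Matrix.mul_assoc, ← Matrix.mul_assoc (SF n b ε),
    SF_mul_SFt hε, one_mul]

theorem star_one_C : star (1 : ℂ) = 1 := star_one ℂ
theorem star_negone_C : star (-1 : ℂ) = -1 := by simp
theorem one_mul_one_C : (1 : ℂ) * 1 = 1 := one_mul 1
theorem negone_mul_negone_C : (-1 : ℂ) * -1 = 1 := by norm_num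

/-- the quadratic data of the orthogonal Lie algebra -/
def QDso (n b : ℕ) : QD (gS n b 1) (K2 (Idx n b)) :=
  QD.ofMat (gS n b 1) (fun _ hX => star_mem one_mul_one_C star_one_C (Or.inl rfl) hX)
    (fun p => ⟨uA p * SF n b 1, mul_SF_mem one_mul_one_C (Or.inl rfl)
      (by rw [uA_transpose, one_smul])⟩)
    (fun a c => by
      change trace (uA a * SF n b 1 * (uA c * SF n b 1)ᴴ) = _
      rw [trace_SF one_mul_one_C star_one_C, uA_orth])
    (fun X => by
      obtain ⟨h1, h2⟩ := exists_of_mem one_mul_one_C (Or.inl rfl) X.2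
      rw [one_smul] at h1
      have h3 := uA_expand h1
      conv_lhs => rw [← h2, h3]
      rw [Finset.sum_mul]
      refine Finset.sum_congr rfl fun a _ => ?_
      rw [Matrix.smul_mul]
      congr 1
      congr 1
      change _ = (X : Matrix _ _ ℂ) * (uA a * SF n b 1)ᴴ
      rw [conjTranspose_mul, SF_conjTranspose star_one_C, Matrix.mul_assoc])

/-- the quadratic data of the symplectic Lie algebra -/
def QDsp (n : ℕ) : QD (gS n 0 (-1)) (K2' (Idx n 0)) :=
  QD.ofMat (gS n 0 (-1)) (fun _ hX => star_mem negone_mul_negone_C star_negone_C (Or.inr rfl) hX)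
    (fun p => ⟨uS p * SF n 0 (-1), mul_SF_mem negone_mul_negone_C (Or.inr rfl)
      (by rw [uS_transpose]; simp)⟩)
    (fun a c => by
      change trace (uS a * SF n 0 (-1) * (uS c * SF n 0 (-1))ᴴ) = _
      rw [trace_SF negone_mul_negone_C star_negone_C, uS_orth])
    (fun X => by
      obtain ⟨h1, h2⟩ := exists_of_mem negone_mul_negone_C (Or.inr rfl) X.2
      rw [neg_one_smul, neg_neg] at h1
      have h3 := uS_expand h1
      conv_lhs => rw [← h2, h3]
      rw [Finset.sum_mul]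
      refine Finset.sum_congr rfl fun a _ => ?_
      rw [Matrix.smul_mul]
      congr 1
      congr 1
      change _ = (X : Matrix _ _ ℂ) * (uS a * SF n 0 (-1))ᴴ
      rw [conjTranspose_mul, SF_conjTranspose star_negone_C, Matrix.mul_assoc])

theorem QDso_b (p : K2 (Idx n b)) : (((QDso n b).b p : gS n b 1) : Matrix _ _ ℂ) =
    uA p * SF n b 1 := rfl

theorem QDsp_b (p : K2' (Idx n 0)) : (((QDsp n).b p : gS n 0 (-1)) : Matrix _ _ ℂ) =
    uS p * SF n 0 (-1) := rfl

theorem QDso_st (X : gS n b 1) : (((QDso n b).st X : gS n b 1) : Matrix _ _ ℂ) =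
    (X : Matrix (Idx n b) (Idx n b) ℂ)ᴴ := rfl

theorem QDsp_st (X : gS n 0 (-1)) : (((QDsp n).st X : gS n 0 (-1)) : Matrix _ _ ℂ) =
    (X : Matrix (Idx n 0) (Idx n 0) ℂ)ᴴ := rfl

/-- the adjoint action of the orthogonal Lie algebra in the basis `b` -/
theorem adM_so (X : gS n b 1) : (QDso n b).adM X = piA (X : Matrix _ _ ℂ) := by
  ext a c
  change trace ((((⁅X, (QDso n b).b c⁆ : gS n b 1) : Matrix _ _ ℂ)) *
    (uA a * SF n b 1)ᴴ) = _
  rw [LieSubalgebra.coe_bracket, Ring.lie_def, QDso_b, lie_mul_SF X.2, trace_SF one_mul_one_C star_one_C]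
  rfl

/-- the adjoint action of the symplectic Lie algebra in the basis `b` -/
theorem adM_sp (X : gS n 0 (-1)) : (QDsp n).adM X = piS (X : Matrix _ _ ℂ) := by
  ext a c
  change trace ((((⁅X, (QDsp n).b c⁆ : gS n 0 (-1)) : Matrix _ _ ℂ)) *
    (uS a * SF n 0 (-1))ᴴ) = _
  rw [LieSubalgebra.coe_bracket, Ring.lie_def, QDsp_b, lie_mul_SF X.2,
    trace_SF negone_mul_negone_C star_negone_C]
  rfl

theorem adF_so (X : gS n b 1) : (QDso n b).adF X = RA (X : Matrix _ _ ℂ) := by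
  rw [QD.adF, adM_so]; rfl

theorem adF_sp (X : gS n 0 (-1)) : (QDsp n).adF X = RS (X : Matrix _ _ ℂ) := by
  rw [QD.adF, adM_sp]; rfl

end

end Kost.QDt
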