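import Pool.Agent.Kost.Mat

/-!
# Module B3 (MP_869ec4): the `gl_J` action on `Λ(V ⊗ ℂ^m)` and the commuting operators

`tens m X = dG (X ⊗ 1)`.  `Dop a b = ∑_j cr (j, a) an (j, b)` commutes with every `tens m X`.
`Qso a b = ∑_j an (bar j, b) an (j, a)` commutes with `tens m X` for `X ∈ gS n b 1`;
`Qsp a = ∑_i an (y i, a) an (x i, a)` commutes with `tens m X` for `X ∈ gS n 0 (-1)`.
PROOFS: `dG_lie`, `inner_dG`, `dG_cr`, `dG_an`: `[dG M, an k] = - ∑_l M k l an l`.
For `colS`: the terms of `tens m (EM j k)` on `ee (colS d m)` are `cr (j, a) an (k, a)`, which vanish if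
`(k, a) ∉ colS` or `(j, a) ∈ colS` (`j ≠ k`).
Membership in `gS`: `(Xᵀ S + S X) p q = 0` for all `p q` says (for `ε = 1`)
`X (bar q) p + X (bar p) q = 0`, i.e. `X j k = - X (bar k) (bar j)`, with signs for `ε = -1`:
`X (x i) (x j) = - X (y j) (y i)`, `X (x i) (y j) = X (x j) (y i)`, `X (y i) (x j) = X (y j) (x i)`.
-/

open Module Matrix

attribute [local instance 100] LieRing.ofAssociativeRing

namespace Kost

noncomputable section

section
variable {J : Type*} [Fintype J] [DecidableEq J] {m : ℕ}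

theorem tens_formula (X : Matrix J J ℂ) :
    tens m X = ∑ j, ∑ k, X j k • ∑ a : Fin m, (cr (j, a) * an (k, a) : Module.End ℂ (Fock (J × Fin m))) := by
  unfold tens dG tensM
  rw [Fintype.sum_prod_type]
  refine Finset.sum_congr rfl fun j _ => ?_
  have h : ∀ a : Fin m, (∑ q : J × Fin m, (if a = q.2 then X j q.1 else 0) •
      (cr (j, a) * an q : Module.End ℂ (Fock (J × Fin m)))) =
      ∑ k, X j k • (cr (j, a) * an (k, a)) := by
    intro a
    rw [Fintype.sum_prod_type]
    refine Finset.sum_congr rfl fun k _ => ?_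
    rw [Finset.sum_eq_single a]
    · rw [if_pos rfl]
    · intro c _ hc
      rw [if_neg (fun h => hc h.symm), zero_smul]
    · intro h
      exact absurd (Finset.mem_univ _) h
  rw [Finset.sum_congr rfl fun a _ => h a, Finset.sum_comm]
  simp only [Finset.smul_sum]

theorem EM_apply (j k p q : J) : (EM j k : Matrix J J ℂ) p q = if j = p ∧ k = q then 1 else 0 :=
  Matrix.single_apply (α := ℂ) ..

theorem tens_EM (j k : J) :
    tens m (EM j k) = ∑ a : Fin m, (cr (j, a) * an (k, a) : Module.End ℂ (Fock (J × Fin m))) := by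
  rw [tens_formula, Finset.sum_eq_single j, Finset.sum_eq_single k]
  · rw [EM_apply, if_pos ⟨rfl, rfl⟩, one_smul]
  · intro l _ hl
    rw [EM_apply, if_neg (fun h => hl h.2.symm), zero_smul]
  · intro h
    exact absurd (Finset.mem_univ _) h
  · intro l _ hl
    refine Finset.sum_eq_zero fun l' _ => ?_
    rw [EM_apply, if_neg (fun h => hl h.1.symm), zero_smul]
  · intro h
    exact absurd (Finset.mem_univ _) h

theorem tens_cr (X : Matrix J J ℂ) (j : J) (a : Fin m) :
    tens m X * cr (j, a) = cr (j, a) * tens m X + ∑ i, X i j • cr (i, a) := by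
  unfold tens
  rw [dG_cr, Fintype.sum_prod_type]
  congr 1
  refine Finset.sum_congr rfl fun i _ => ?_
  rw [Finset.sum_eq_single a]
  · simp [tensM]
  · intro c _ hc
    simp [tensM, hc]
  · intro h
    exact absurd (Finset.mem_univ _) h

theorem tens_an (X : Matrix J J ℂ) (j : J) (a : Fin m) :
    tens m X * an (j, a) = an (j, a) * tens m X - ∑ i, X j i • an (i, a) := by
  unfold tens
  rw [dG_an, Fintype.sum_prod_type]
  congr 1
  refine Finset.sum_congr rfl fun i _ => ?_
  rw [Finset.sum_eq_single a]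
  · simp [tensM]
  · intro c _ hc
    simp [tensM, Ne.symm hc]
  · intro h
    exact absurd (Finset.mem_univ _) h

theorem tensM_mul (X Y : Matrix J J ℂ) : tensM m X * tensM m Y = tensM m (X * Y) := by
  ext p q
  rw [Matrix.mul_apply, Fintype.sum_prod_type]
  have h : ∀ k : J, ∑ c : Fin m, tensM m X p (k, c) * tensM m Y (k, c) q =
      if p.2 = q.2 then X p.1 k * Y k q.1 else 0 := by
    intro k
    rw [Finset.sum_eq_single p.2]
    · simp [tensM]
    · intro c _ hc
      simp [tensM, Ne.symm hc]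
    · intro h
      exact absurd (Finset.mem_univ _) h
  rw [Finset.sum_congr rfl fun k _ => h k]
  simp only [tensM, Matrix.mul_apply]
  split_ifs <;> simp

theorem tensM_sub (X Y : Matrix J J ℂ) : tensM m X - tensM m Y = tensM m (X - Y) := by
  ext p q
  simp only [tensM, Matrix.sub_apply]
  split_ifs <;> simp

theorem tensM_star (X : Matrix J J ℂ) : (tensM m X)ᴴ = tensM m Xᴴ := by
  ext p q
  simp only [tensM, Matrix.conjTranspose_apply]
  by_cases h : p.2 = q.2
  · rw [if_pos h, if_pos h.symm]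
  · rw [if_neg h, if_neg (Ne.symm h), star_zero]

theorem cr_an_ee (p : J × Fin m) (S : Finset (J × Fin m)) :
    cr p (an p (ee S)) = if p ∈ S then ee S else 0 := by
  rw [an_ee]
  split_ifs with h
  · rw [map_smul, cr_ee, if_neg (Finset.notMem_erase _ _), smul_smul, sgn_erase_self, sgn_mul_self,
      one_smul, Finset.insert_erase h]
  · rw [map_zero]

theorem mem_colS (d : J → ℕ) (j : J) (a : Fin m) : (j, a) ∈ colS d m ↔ (a : ℕ) < d j := by
  simp [colS]

theorem tens_lie (X Y : Matrix J J ℂ) :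
    tens m X * tens m Y - tens m Y * tens m X = tens m (X * Y - Y * X) := by
  unfold tens
  rw [dG_lie, tensM_mul, tensM_mul, tensM_sub]

theorem tens_adj (X : Matrix J J ℂ) (u v : Fock (J × Fin m)) :
    inner ℂ (tens m X u) v = inner ℂ u (tens m Xᴴ v) := by
  unfold tens
  rw [inner_dG, tensM_star]

theorem tens_diag (d : J → ℕ) (j : J) (hj : d j ≤ m) :
    tens m (EM j j) (ee (colS d m)) = (d j : ℂ) • ee (colS d m) := by
  rw [tens_EM, LinearMap.sum_apply]
  simp only [Module.End.mul_apply, cr_an_ee, mem_colS]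
  rw [← Finset.sum_filter, Finset.sum_const]
  have h : (Finset.univ.filter fun a : Fin m => (a : ℕ) < d j).card = d j := by
    rw [Fin.card_filter_val_lt]
    exact min_eq_right hj
  rw [h, Nat.cast_smul_eq_nsmul]

theorem tens_up (d : J → ℕ) {j k : J} (hjk : j ≠ k) (h : d k ≤ d j) :
    tens m (EM j k) (ee (colS d m)) = 0 := by
  rw [tens_EM, LinearMap.sum_apply]
  refine Finset.sum_eq_zero fun a _ => ?_
  rw [Module.End.mul_apply, an_ee]
  split_ifs with hk
  · rw [mem_colS] at hk
    rw [map_smul, cr_ee, if_pos, smul_zero]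
    rw [Finset.mem_erase, mem_colS]
    refine ⟨fun h' => hjk (congrArg Prod.fst h'), by omega⟩
  · rw [map_zero]

/-- operators of `gl_m` -/
def Dop (a b : Fin m) : Module.End ℂ (Fock (J × Fin m)) := ∑ j : J, cr (j, a) * an (j, b)

theorem Dop_comm (a b : Fin m) (X : Matrix J J ℂ) :
    Dop a b * tens m X = tens m X * Dop a b := by
  unfold Dop
  rw [Finset.sum_mul, Finset.mul_sum]
  have h : ∀ j : J, tens m X * (cr (j, a) * an (j, b)) =
      cr (j, a) * an (j, b) * tens m X + ((∑ i, X i j • (cr (i, a) * an (j, b))) -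
        ∑ i, X j i • (cr (j, a) * an (i, b))) := by
    intro j
    rw [← mul_assoc, tens_cr, add_mul, mul_assoc, tens_an, mul_sub, Finset.sum_mul,
      Finset.mul_sum]
    simp only [smul_mul_assoc, mul_smul_comm, mul_assoc]
    abel
  rw [Finset.sum_congr rfl fun j _ => h j, Finset.sum_add_distrib, Finset.sum_sub_distrib]
  rw [Finset.sum_comm (f := fun j i => X i j • (cr (i, a) * an (j, b) :
    Module.End ℂ (Fock (J × Fin m)))), sub_self, add_zero]

theorem Dop_adj (a b : Fin m) (u v : Fock (J × Fin m)) :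
    inner ℂ (Dop a b u) v = inner ℂ u (Dop b a v) := by
  unfold Dop
  simp only [LinearMap.sum_apply, Module.End.mul_apply, sum_inner, inner_sum, inner_cr, inner_an]

end

variable {n b m : ℕ}

/-- signs of the form -/
def sgS (ε : ℂ) : Idx n b → ℂ
  | .x _ => ε
  | .y _ => 1
  | .z _ => 1

theorem bar_bar (p : Idx n b) : p.bar.bar = p := by
  cases p <;> rfl

/-- the involution as an equivalence -/
def barE : Idx n b ≃ Idx n b := ⟨Idx.bar, Idx.bar, bar_bar, bar_bar⟩

theorem SF_eq (ε : ℂ) (p q : Idx n b) : SF n b ε p q = if q = p.bar then sgS ε p else 0 := by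
  cases p <;> cases q <;> simp [SF, Idx.bar, sgS, eq_comm]

theorem mem_gS_iff (ε : ℂ) (X : Matrix (Idx n b) (Idx n b) ℂ) : X ∈ gS n b ε ↔
    ∀ p q : Idx n b, X q.bar p * sgS ε q.bar + sgS ε p * X p.bar q = 0 := by
  have h0 : X ∈ gS n b ε ↔ Xᵀ * SF n b ε + SF n b ε * X = 0 := Iff.rfl
  rw [h0, ← Matrix.ext_iff]
  have h1 : ∀ p q : Idx n b, (Xᵀ * SF n b ε + SF n b ε * X) p q =
      X q.bar p * sgS ε q.bar + sgS ε p * X p.bar q := by
    intro p q
    rw [Matrix.add_apply, Matrix.mul_apply, Matrix.mul_apply]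
    congr 1
    · rw [Finset.sum_eq_single q.bar]
      · rw [SF_eq, bar_bar, if_pos rfl, Matrix.transpose_apply]
      · intro r _ hr
        rw [SF_eq, if_neg, mul_zero]
        intro h
        apply hr
        rw [h, bar_bar]
      · intro h
        exact absurd (Finset.mem_univ _) h
    · rw [Finset.sum_eq_single p.bar]
      · rw [SF_eq, if_pos rfl]
      · intro r _ hr
        rw [SF_eq, if_neg hr, zero_mul]
      · intro h
        exact absurd (Finset.mem_univ _) h
  constructor
  · intro h p q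
    rw [← h1, h p q]
    rfl
  · intro h p q
    rw [h1, h p q]
    rfl

theorem form_comm {E : Type*} [Ring E] [Algebra ℂ E] {ε : ℂ} {X : Matrix (Idx n b) (Idx n b) ℂ}
    (hX : X ∈ gS n b ε) (T : E) (A A' : Idx n b → E)
    (hA : ∀ p, T * A p = A p * T - ∑ k, X p k • A k)
    (hA' : ∀ p, T * A' p = A' p * T - ∑ k, X p k • A' k) :
    T * ∑ j, sgS ε j.bar • (A' j.bar * A j) = (∑ j, sgS ε j.bar • (A' j.bar * A j)) * T := by
  rw [mem_gS_iff] at hX
  rw [Finset.mul_sum, Finset.sum_mul]
  have h : ∀ j : Idx n b, T * (sgS ε j.bar • (A' j.bar * A j)) =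
      (sgS ε j.bar • (A' j.bar * A j)) * T -
        ((∑ k, (sgS ε j.bar * X j.bar k) • (A' k * A j)) +
          ∑ k, (sgS ε j.bar * X j k) • (A' j.bar * A k)) := by
    intro j
    rw [mul_smul_comm, ← mul_assoc, hA', sub_mul, mul_assoc, hA, mul_sub, Finset.sum_mul,
      Finset.mul_sum]
    simp only [smul_mul_assoc, mul_smul_comm, smul_sub, Finset.smul_sum, smul_smul, mul_assoc]
    abel
  rw [Finset.sum_congr rfl fun j _ => h j, Finset.sum_sub_distrib, Finset.sum_add_distrib]
  have h2 : ∑ j : Idx n b, ∑ k, (sgS ε j.bar * X j k) • (A' j.bar * A k) =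
      ∑ j : Idx n b, ∑ k, (sgS ε j * X j.bar k) • (A' j * A k) := by
    refine Fintype.sum_equiv barE _ _ fun j => ?_
    change _ = ∑ k, (sgS ε j.bar * X j.bar.bar k) • (A' j.bar * A k)
    rw [bar_bar]
  rw [h2, Finset.sum_comm (f := fun j k => (sgS ε (Idx.bar j) * X j.bar k) • (A' k * A j)),
    ← Finset.sum_add_distrib]
  have h3 : ∑ j : Idx n b, ((∑ k, (sgS ε (Idx.bar k) * X k.bar j) • (A' j * A k)) +
      ∑ k, (sgS ε j * X j.bar k) • (A' j * A k)) = 0 := by
    refine Finset.sum_eq_zero fun j _ => ?_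
    rw [← Finset.sum_add_distrib]
    refine Finset.sum_eq_zero fun k _ => ?_
    rw [← add_smul, mul_comm (sgS ε (Idx.bar k)), hX j k, zero_smul]
  rw [h3, sub_zero]

/-- contraction of the columns `a`, `c` with the symmetric form -/
def Qso (a c : Fin m) : Module.End ℂ (Fock (Idx n b × Fin m)) :=
  ∑ j : Idx n b, an (j.bar, c) * an (j, a)

/-- contraction of the column `a` with the symplectic form -/
def Qsp (a : Fin m) : Module.End ℂ (Fock (Idx n 0 × Fin m)) :=
  ∑ i : Fin n, an (Idx.y i, a) * an (Idx.x i, a)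

theorem sgS_one (p : Idx n b) : sgS (1 : ℂ) p = 1 := by
  cases p <;> rfl

theorem Qso_comm (a c : Fin m) {X : Matrix (Idx n b) (Idx n b) ℂ} (hX : X ∈ gS n b 1) :
    Qso a c * tens m X = tens m X * Qso a c := by
  have h := form_comm hX (tens m X) (fun j => an (j, a)) (fun j => an (j, c))
    (fun p => tens_an X p a) (fun p => tens_an X p c)
  simp only [sgS_one, one_smul] at h
  exact h.symm

/-- splitting of the index set -/
def idxE : Idx n b ≃ (Fin n ⊕ Fin n) ⊕ Fin b where
  toFun
    | .x i => Sum.inl (Sum.inl i)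
    | .y i => Sum.inl (Sum.inr i)
    | .z k => Sum.inr k
  invFun
    | Sum.inl (Sum.inl i) => .x i
    | Sum.inl (Sum.inr i) => .y i
    | Sum.inr k => .z k
  left_inv p := by cases p <;> rfl
  right_inv p := by rcases p with (p | p) | p <;> rfl

theorem sum_idx {E : Type*} [AddCommMonoid E] (f : Idx n b → E) :
    ∑ j, f j = ((∑ i, f (.x i)) + ∑ i, f (.y i)) + ∑ k, f (.z k) := by
  rw [Fintype.sum_equiv idxE f (fun s => f (idxE.symm s)) fun j => by rw [Equiv.symm_apply_apply],
    Fintype.sum_sum_type, Fintype.sum_sum_type]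
  rfl

theorem Qsp_comm (a : Fin m) {X : Matrix (Idx n 0) (Idx n 0) ℂ} (hX : X ∈ gS n 0 (-1)) :
    Qsp a * tens m X = tens m X * Qsp a := by
  have h := form_comm hX (tens m X) (fun j => an (j, a)) (fun j => an (j, a))
    (fun p => tens_an X p a) (fun p => tens_an X p a)
  have h2 : (∑ j : Idx n 0, sgS (-1 : ℂ) j.bar • (an (j.bar, a) * an (j, a) :
      Module.End ℂ (Fock (Idx n 0 × Fin m)))) = (2 : ℂ) • Qsp a := by
    rw [sum_idx]
    unfold Qsp
    rw [Finset.univ_eq_empty (α := Fin 0), Finset.sum_empty, add_zero, ← Finset.sum_add_distrib,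
      Finset.smul_sum]
    refine Finset.sum_congr rfl fun i _ => ?_
    have h3 : (an (Idx.x i, a) * an (Idx.y i, a) : Module.End ℂ (Fock (Idx n 0 × Fin m))) =
        - (an (Idx.y i, a) * an (Idx.x i, a)) := eq_neg_of_add_eq_zero_left (an_an _ _)
    change (1 : ℂ) • (an (Idx.y i, a) * an (Idx.x i, a)) +
      (-1 : ℂ) • (an (Idx.x i, a) * an (Idx.y i, a)) = _
    rw [h3, one_smul, smul_neg, neg_smul, neg_neg, one_smul, two_smul]
  rw [h2, mul_smul_comm, smul_mul_assoc] at h
  exact (smul_right_injective _ (two_ne_zero (α := ℂ)) h).symm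

/-- the root matrices lie in the Lie algebras; `gS` is closed under conjugate transpose -/
theorem eA_mem (ε : ℂ) (hε : ε = 1 ∨ ε = -1) (i i' : Fin n) :
    (eA i i' : Matrix (Idx n b) (Idx n b) ℂ) ∈ gS n b ε := by
  rw [mem_gS_iff]
  intro p q
  cases p <;> cases q <;>
    simp [eA, Idx.bar, sgS, Matrix.single_apply, Matrix.sub_apply] <;>
    split_ifs <;> simp_all

theorem Hm_mem (ε : ℂ) (hε : ε = 1 ∨ ε = -1) (i : Fin n) :
    (Hm i : Matrix (Idx n b) (Idx n b) ℂ) ∈ gS n b ε := eA_mem ε hε i i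

theorem eB_mem (i i' : Fin n) : (eB i i' : Matrix (Idx n b) (Idx n b) ℂ) ∈ gS n b 1 := by
  rw [mem_gS_iff]
  intro p q
  cases p <;> cases q <;>
    simp [eB, Idx.bar, sgS, Matrix.single_apply, Matrix.sub_apply] <;>
    split_ifs <;> grind

theorem eC_mem (i : Fin n) (k : Fin b) : (eC i k : Matrix (Idx n b) (Idx n b) ℂ) ∈ gS n b 1 := by
  rw [mem_gS_iff]
  intro p q
  cases p <;> cases q <;>
    simp [eC, Idx.bar, sgS, Matrix.single_apply, Matrix.sub_apply] <;>
    split_ifs <;> simp_all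

theorem eS_mem (i i' : Fin n) : (eS i i' : Matrix (Idx n 0) (Idx n 0) ℂ) ∈ gS n 0 (-1) := by
  rw [mem_gS_iff]
  intro p q
  cases p <;> cases q <;>
    simp [eS, Idx.bar, sgS, Matrix.single_apply, Matrix.add_apply] <;>
    split_ifs <;> grind

theorem star_mem_gS (ε : ℂ) (hε : ε = 1 ∨ ε = -1) {X : Matrix (Idx n b) (Idx n b) ℂ}
    (hX : X ∈ gS n b ε) : Xᴴ ∈ gS n b ε := by
  rw [mem_gS_iff] at hX ⊢
  intro p q
  have hs : ∀ r : Idx n b, star (sgS ε r) = sgS ε r := by
    intro r
    rcases hε with rfl | rfl <;> cases r <;> simp [sgS]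
  have hs2 : ∀ r : Idx n b, sgS ε r * sgS ε r = 1 := by
    intro r
    rcases hε with rfl | rfl <;> cases r <;> simp [sgS]
  have h1 := hX q.bar p.bar
  rw [bar_bar, bar_bar] at h1
  have h2 : X p q.bar * sgS ε q.bar + sgS ε p * X q p.bar = 0 := by
    linear_combination (sgS ε p * sgS ε q.bar) * h1 - (X p q.bar * sgS ε q.bar) * hs2 p -
      (sgS ε p * X q p.bar) * hs2 q.bar
  have h3 := congrArg star h2
  rw [star_add, star_mul', star_mul', hs, hs, star_zero] at h3
  rw [Matrix.conjTranspose_apply, Matrix.conjTranspose_apply]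
  exact h3

end

end Kost
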