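import Pool.Agent.Kost.ExpGen
import Pool.Agent.Kost.TensHW
import Pool.Agent.Kost.Local

/-!
# Blocks of the contraction operators (MP_869ec4, helper of `SoEval`)
-/

open Module Matrix

namespace Kost.SoE

noncomputable section

section CAR

variable {K : Type*} [Fintype K] [DecidableEq K]

theorem sgn_ne (k : K) (S : Finset K) : sgn k S ≠ 0 := by
  intro h
  have := sgn_mul_self k S
  rw [h, zero_mul] at this
  exact zero_ne_one this

theorem cr_ins {k : K} {S : Finset K} (h : k ∉ S) :
    ∃ c : ℂ, c ≠ 0 ∧ cr k (ee S) = c • ee (insert k S) :=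
  ⟨sgn k S, sgn_ne k S, by rw [cr_ee, if_neg h]⟩

theorem cr_mem {k : K} {S : Finset K} (h : k ∈ S) : cr k (ee S) = 0 := by
  rw [cr_ee, if_pos h]

theorem an_del {k : K} {S : Finset K} (h : k ∈ S) :
    ∃ c : ℂ, c ≠ 0 ∧ an k (ee S) = c • ee (S.erase k) :=
  ⟨sgn k S, sgn_ne k S, by rw [an_ee, if_pos h]⟩

theorem an_notMem {k : K} {S : Finset K} (h : k ∉ S) : an k (ee S) = 0 := by
  rw [an_ee, if_neg h]

theorem cr_swap (k l : K) : cr k * cr l = -(cr l * cr k) := eq_neg_of_add_eq_zero_left (cr_cr k l)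

theorem an_swap (k l : K) : an k * an l = -(an l * an k) := eq_neg_of_add_eq_zero_left (an_an k l)

theorem an_self (k : K) : an k * an k = 0 := by
  have h := an_an k k
  rw [← two_smul ℂ] at h
  exact (smul_eq_zero.1 h).resolve_left two_ne_zero

theorem cr_self (k : K) : cr k * cr k = 0 := by
  have h := cr_cr k k
  rw [← two_smul ℂ] at h
  exact (smul_eq_zero.1 h).resolve_left two_ne_zero

/-- products of two annihilation operators commute -/
theorem an2_comm (k l p q : K) : Commute (an k * an l) (an p * an q) := by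
  show an k * an l * (an p * an q) = an p * an q * (an k * an l)
  calc an k * an l * (an p * an q) = an k * (an l * an p) * an q := by noncomm_ring
    _ = -(an k * an p * (an l * an q)) := by rw [an_swap l p]; noncomm_ring
    _ = an p * an k * (an l * an q) := by rw [an_swap k p]; noncomm_ring
    _ = -(an p * an k * an q * an l) := by rw [an_swap l q]; noncomm_ring
    _ = -(an p * (an k * an q) * an l) := by noncomm_ring
    _ = an p * an q * (an k * an l) := by rw [an_swap k q]; noncomm_ring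

theorem an2_nil (k l : K) : IsNilpotent (an k * an l) := by
  refine ⟨2, ?_⟩
  rw [pow_two]
  calc an k * an l * (an k * an l) = an k * (an l * an k) * an l := by noncomm_ring
    _ = -(an k * an k * (an l * an l)) := by rw [an_swap l k]; noncomm_ring
    _ = 0 := by rw [an_self]; simp

end CAR

variable {n b m : ℕ}

/-- the block of an index -/
def blk : Idx n b → Fin n ⊕ Fin b
  | .x i => .inl i
  | .y i => .inl i
  | .z k => .inr k

/-- contraction operators of one block -/
def Qb (i : Fin n ⊕ Fin b) (w : Fin m × Fin m) : Module.End ℂ (Fock (Idx n b × Fin m)) :=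
  match i with
  | .inl i => an (Idx.y i, w.2) * an (Idx.x i, w.1) + an (Idx.x i, w.2) * an (Idx.y i, w.1)
  | .inr k => an (Idx.z k, w.2) * an (Idx.z k, w.1)

theorem Qb_comm (i j : Fin n ⊕ Fin b) (v w : Fin m × Fin m) :
    Commute (Qb (n := n) (b := b) i v) (Qb j w) := by
  rcases i with i | i <;> rcases j with j | j <;> simp only [Qb]
  · exact ((an2_comm _ _ _ _).add_left (an2_comm _ _ _ _)).add_right
      ((an2_comm _ _ _ _).add_left (an2_comm _ _ _ _))
  · exact (an2_comm _ _ _ _).add_left (an2_comm _ _ _ _)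
  · exact (an2_comm _ _ _ _).add_right (an2_comm _ _ _ _)
  · exact an2_comm _ _ _ _

theorem Qb_nil (i : Fin n ⊕ Fin b) (w : Fin m × Fin m) :
    IsNilpotent (Qb (n := n) (b := b) i w) := by
  rcases i with i | i <;> simp only [Qb]
  · exact (an2_comm _ _ _ _).isNilpotent_add (an2_nil _ _) (an2_nil _ _)
  · exact an2_nil _ _

theorem Qb_loc (i : Fin n ⊕ Fin b) (w : Fin m × Fin m) :
    Loc (fun p : Idx n b × Fin m => blk p.1) i (Qb i w) := by
  rcases i with i | i <;> simp only [Qb]
  · exact (Loc.an_an (fun p : Idx n b × Fin m => blk p.1) (k := (Idx.y i, w.2))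
      (l := (Idx.x i, w.1)) rfl).add (Loc.an_an (fun p : Idx n b × Fin m => blk p.1)
      (k := (Idx.x i, w.2)) (l := (Idx.y i, w.1)) rfl)
  · exact Loc.an_an (fun p : Idx n b × Fin m => blk p.1) (k := (Idx.z i, w.2))
      (l := (Idx.z i, w.1)) rfl

/-- indices as a sum type -/
def idxEquiv : Idx n b ≃ (Fin n ⊕ Fin n) ⊕ Fin b where
  toFun
    | .x i => .inl (.inl i)
    | .y i => .inl (.inr i)
    | .z k => .inr k
  invFun
    | .inl (.inl i) => .x i
    | .inl (.inr i) => .y i
    | .inr k => .z k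
  left_inv p := by cases p <;> rfl
  right_inv p := by rcases p with (p | p) | p <;> rfl

theorem sum_idx {A : Type*} [AddCommMonoid A] (f : Idx n b → A) :
    ∑ j, f j = (∑ i, f (.x i) + ∑ i, f (.y i)) + ∑ k, f (.z k) := by
  rw [← Equiv.sum_comp idxEquiv.symm, Fintype.sum_sum_type, Fintype.sum_sum_type]
  rfl

theorem Qso_eq (w : Fin m × Fin m) :
    (Qso w.1 w.2 : Module.End ℂ (Fock (Idx n b × Fin m))) = ∑ i : Fin n ⊕ Fin b, Qb i w := by
  rw [Qso, sum_idx, Fintype.sum_sum_type]
  simp only [Qb, Finset.sum_add_distrib]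
  rfl

/-- the matrix unit operators -/
theorem tens_EM {J : Type*} [Fintype J] [DecidableEq J] (j k : J) :
    tens m (EM j k) = ∑ a : Fin m, cr (j, a) * an (k, a) := by
  unfold tens dG
  rw [Fintype.sum_prod_type, Finset.sum_eq_single j]
  · refine Finset.sum_congr rfl fun a _ => ?_
    rw [Finset.sum_eq_single (k, a)]
    · simp [tensM]
    · rintro ⟨k', a'⟩ _ h
      simp only [tensM, Matrix.single, Matrix.of_apply]
      split_ifs with h1 h2
      · exfalso; apply h; rw [h1, h2.2]
      · rw [zero_smul]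
      · rw [zero_smul]
    · intro h; exact absurd (Finset.mem_univ _) h
  · intro j' _ hj'
    refine Finset.sum_eq_zero fun a _ => Finset.sum_eq_zero fun p _ => ?_
    simp only [tensM, Matrix.single, Matrix.of_apply]
    split_ifs with h1 h2
    · exact absurd h2.1.symm hj'
    · rw [zero_smul]
    · rw [zero_smul]
  · intro h; exact absurd (Finset.mem_univ _) h

/-- the lowering operator of a plane -/
def Eo (i : Fin n) : Module.End ℂ (Fock (Idx n b × Fin m)) := tens m (EM (.y i) (.x i))

theorem Eo_an_x (i : Fin n) (a : Fin m) :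
    an (Idx.x i, a) * (Eo i : Module.End ℂ (Fock (Idx n b × Fin m))) =
      Eo i * an (Idx.x i, a) := by
  rw [Eo, tens, dG_an]
  rw [Finset.sum_eq_zero, sub_zero]
  intro p _
  simp [tensM]

theorem Eo_an_y (i : Fin n) (a : Fin m) :
    an (Idx.y i, a) * (Eo i : Module.End ℂ (Fock (Idx n b × Fin m))) =
      Eo i * an (Idx.y i, a) + an (Idx.x i, a) := by
  rw [Eo, tens, dG_an]
  rw [Finset.sum_eq_single (Idx.x i, a)]
  · simp [tensM]
  · rintro ⟨k', a'⟩ _ h
    simp only [tensM, Matrix.single, Matrix.of_apply]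
    split_ifs with h1 h2
    · exfalso; apply h; rw [← h1, ← h2.2]
    · rw [zero_smul]
    · rw [zero_smul]
  · intro h; exact absurd (Finset.mem_univ _) h

/-- the commutator of a contraction and the lowering operator -/
def Po (i : Fin n) (w : Fin m × Fin m) : Module.End ℂ (Fock (Idx n b × Fin m)) :=
  an (Idx.x i, w.2) * an (Idx.x i, w.1)

theorem Qb_Eo (i : Fin n) (w : Fin m × Fin m) :
    Qb (b := b) (.inl i) w * Eo i = Eo i * Qb (.inl i) w + (2 : ℂ) • Po i w := by
  simp only [Qb, Po]
  rw [add_mul, mul_assoc, Eo_an_x, ← mul_assoc, Eo_an_y, mul_assoc, Eo_an_y, mul_add,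
    ← mul_assoc (an (Idx.x i, w.2)), Eo_an_x, two_smul]
  noncomm_ring

theorem Po_Eo (i : Fin n) (w : Fin m × Fin m) :
    Po (b := b) i w * Eo i = Eo i * Po i w := by
  simp only [Po]
  rw [mul_assoc, Eo_an_x, ← mul_assoc, Eo_an_x, mul_assoc]

theorem Po_Eo_pow (i : Fin n) (w : Fin m × Fin m) (j : ℕ) :
    Po (b := b) i w * Eo i ^ j = Eo i ^ j * Po i w := by
  have h : Commute (Po (b := b) i w) (Eo i) := Po_Eo i w
  exact (h.pow_right j).eq

theorem Qb_Eo_pow (i : Fin n) (w : Fin m × Fin m) (j : ℕ) :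
    Qb (b := b) (.inl i) w * Eo i ^ (j + 1) =
      Eo i ^ (j + 1) * Qb (.inl i) w + (2 * (j + 1) : ℂ) • (Eo i ^ j * Po i w) := by
  induction j with
  | zero => simp only [zero_add, pow_one, pow_zero, one_mul, Nat.cast_zero, mul_one]; exact Qb_Eo i w
  | succ j ih =>
    rw [pow_succ, ← mul_assoc, ih, add_mul, mul_assoc, Qb_Eo, mul_add, smul_mul_assoc, mul_assoc,
      Po_Eo, ← mul_assoc, ← mul_assoc, ← pow_succ, mul_smul_comm, add_assoc, ← pow_succ, ← add_smul]
    congr 2
    push_cast
    ring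

end

end Kost.SoE
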