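import Pool.Agent.Kost.Fock

/-!
# One plane / one row computations for types B, D (MP_869ec4)

`ξ, η : Fin m → K`: the columns of a hyperbolic plane.  `Qg a c` removes a pair from the columns
`a, c`; `Bg` replaces `ξ` by `η`.  For rows `(p, q)` and target `(k, 0)`, `1 ≤ k ≤ p - q`, `k ≡ p - q`,
some word in the `Qg` applied to `Bg ^ ((p-q-k)/2)` of the monomial has a nonzero target
coefficient.
-/

open Module

namespace Kost

noncomputable section

variable {K : Type*} [Fintype K] [DecidableEq K] {m : ℕ}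

/-- remove one particle of `ξ` and one of `η` from the columns `a, c` -/
def Qg (ξ η : Fin m → K) (a c : Fin m) : Module.End ℂ (Fock K) :=
  an (η c) * an (ξ a) + an (ξ c) * an (η a)

/-- replace `ξ` by `η` -/
def Bg (ξ η : Fin m → K) : Module.End ℂ (Fock K) := ∑ a, cr (η a) * an (ξ a)

/-- the configuration `ξ_a` (`a < p`), `η_a` (`a < q`) -/
def cfg (ξ η : Fin m → K) (p q : ℕ) : Finset K :=
  (Finset.univ.filter (fun a : Fin m => (a : ℕ) < p)).image ξ ∪
    (Finset.univ.filter (fun a : Fin m => (a : ℕ) < q)).image η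

variable {ξ η : Fin m → K}

theorem mem_cfg_xi (hξ : Function.Injective ξ) (hd : ∀ a c, ξ a ≠ η c) {p q : ℕ} (a : Fin m) :
    ξ a ∈ cfg ξ η p q ↔ (a : ℕ) < p := by
  simp only [cfg, Finset.mem_union, Finset.mem_image, Finset.mem_filter, Finset.mem_univ,
    true_and]
  constructor
  · rintro (⟨c, hc, h⟩ | ⟨c, hc, h⟩)
    · rw [← hξ h]; exact hc
    · exact absurd h.symm (hd a c)
  · intro h; exact Or.inl ⟨a, h, rfl⟩

theorem mem_cfg_eta (hη : Function.Injective η) (hd : ∀ a c, ξ a ≠ η c) {p q : ℕ} (a : Fin m) :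
    η a ∈ cfg ξ η p q ↔ (a : ℕ) < q := by
  simp only [cfg, Finset.mem_union, Finset.mem_image, Finset.mem_filter, Finset.mem_univ,
    true_and]
  constructor
  · rintro (⟨c, hc, h⟩ | ⟨c, hc, h⟩)
    · exact absurd h (hd c a)
    · rw [← hη h]; exact hc
  · intro h; exact Or.inr ⟨a, h, rfl⟩

/-- annihilating an absent particle -/
theorem an_ee_of_notMem {k : K} {S : Finset K} (h : k ∉ S) : an k (ee S) = 0 := by
  rw [an_ee, if_neg h]

theorem sgn_ne_zero (k : K) (S : Finset K) : sgn k S ≠ 0 := by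
  intro h
  have := sgn_mul_self k S
  rw [h, mul_zero] at this
  exact zero_ne_one this

/-- annihilating a present particle -/
theorem an_ee_of_mem {k : K} {S : Finset K} (h : k ∈ S) :
    ∃ c : ℂ, c ≠ 0 ∧ an k (ee S) = c • ee (S.erase k) :=
  ⟨sgn k S, sgn_ne_zero k S, by rw [an_ee, if_pos h]⟩

/-- a single removal: `η_a` absent -/
theorem Qg_single {a c : Fin m} {S : Finset K} (h1 : η a ∉ S) (h2 : ξ a ∈ S) (h3 : η c ∈ S)
    (h4 : ξ a ≠ η c) : ∃ z : ℂ, z ≠ 0 ∧ Qg ξ η a c (ee S) = z • ee ((S.erase (ξ a)).erase (η c)) := by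
  obtain ⟨z1, hz1, e1⟩ := an_ee_of_mem h2
  obtain ⟨z2, hz2, e2⟩ := an_ee_of_mem (S := S.erase (ξ a)) (k := η c)
    (Finset.mem_erase.2 ⟨h4.symm, h3⟩)
  refine ⟨z1 * z2, mul_ne_zero hz1 hz2, ?_⟩
  rw [Qg, LinearMap.add_apply, Module.End.mul_apply, Module.End.mul_apply, an_ee_of_notMem h1,
    map_zero, add_zero, e1, map_smul, e2, smul_smul]

/-- removing the last `ξ` and the last `η` -/
theorem cfg_erase (hξ : Function.Injective ξ) (hη : Function.Injective η)
    (hd : ∀ a c, ξ a ≠ η c) {p q : ℕ} (a c : Fin m) (ha : (a : ℕ) = p) (hc : (c : ℕ) = q) :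
    ((cfg ξ η (p + 1) (q + 1)).erase (ξ a)).erase (η c) = cfg ξ η p q := by
  ext k
  simp only [Finset.mem_erase]
  constructor
  · rintro ⟨h1, h2, h3⟩
    simp only [cfg, Finset.mem_union, Finset.mem_image, Finset.mem_filter, Finset.mem_univ,
      true_and] at h3 ⊢
    rcases h3 with ⟨b, hb, rfl⟩ | ⟨b, hb, rfl⟩
    · left; refine ⟨b, ?_, rfl⟩
      have : (b : ℕ) ≠ p := fun h => h2 (by rw [show b = a from Fin.ext (by omega)])
      omega
    · right; refine ⟨b, ?_, rfl⟩
      have : (b : ℕ) ≠ q := fun h => h1 (by rw [show b = c from Fin.ext (by omega)])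
      omega
  · intro h3
    simp only [cfg, Finset.mem_union, Finset.mem_image, Finset.mem_filter, Finset.mem_univ,
      true_and] at h3 ⊢
    rcases h3 with ⟨b, hb, rfl⟩ | ⟨b, hb, rfl⟩
    · refine ⟨hd b c, fun h => ?_, Or.inl ⟨b, by omega, rfl⟩⟩
      rw [hξ h] at hb; omega
    · refine ⟨fun h => ?_, fun h => hd a b h.symm, Or.inr ⟨b, by omega, rfl⟩⟩
      rw [hη h] at hb; omega

/-- removing the last two `ξ` -/
theorem cfg_erase_two (hξ : Function.Injective ξ)
    (hd : ∀ a c, ξ a ≠ η c) {p q : ℕ} (a c : Fin m) (ha : (a : ℕ) = p) (hc : (c : ℕ) = p + 1) :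
    ((cfg ξ η (p + 2) q).erase (ξ a)).erase (ξ c) = cfg ξ η p q := by
  ext k
  simp only [Finset.mem_erase]
  constructor
  · rintro ⟨h1, h2, h3⟩
    simp only [cfg, Finset.mem_union, Finset.mem_image, Finset.mem_filter, Finset.mem_univ,
      true_and] at h3 ⊢
    rcases h3 with ⟨b, hb, rfl⟩ | ⟨b, hb, rfl⟩
    · left; refine ⟨b, ?_, rfl⟩
      have : (b : ℕ) ≠ p := fun h => h2 (by rw [show b = a from Fin.ext (by omega)])
      have : (b : ℕ) ≠ p + 1 := fun h => h1 (by rw [show b = c from Fin.ext (by omega)])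
      omega
    · exact Or.inr ⟨b, hb, rfl⟩
  · intro h3
    simp only [cfg, Finset.mem_union, Finset.mem_image, Finset.mem_filter, Finset.mem_univ,
      true_and] at h3 ⊢
    rcases h3 with ⟨b, hb, rfl⟩ | ⟨b, hb, rfl⟩
    · refine ⟨fun h => ?_, fun h => ?_, Or.inl ⟨b, by omega, rfl⟩⟩
      · rw [hξ h] at hb; omega
      · rw [hξ h] at hb; omega
    · exact ⟨fun h => hd c b h.symm, fun h => hd a b h.symm, Or.inr ⟨b, hb, rfl⟩⟩

/-- first phase: from `(q + k, q)` to `(k, 0)` -/
theorem phase_one (hξ : Function.Injective ξ) (hη : Function.Injective η)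
    (hd : ∀ a c, ξ a ≠ η c) {k : ℕ} (hk : 1 ≤ k) : ∀ (q : ℕ), q + k ≤ m →
    ∃ w : List (Fin m × Fin m), ∃ z : ℂ, z ≠ 0 ∧
      (w.map fun e => Qg ξ η e.1 e.2).prod (ee (cfg ξ η (q + k) q)) = z • ee (cfg ξ η k 0) := by
  intro q
  induction q with
  | zero => intro _; exact ⟨[], 1, one_ne_zero, by simp⟩
  | succ q ih =>
    intro hq
    obtain ⟨w, z, hz, hw⟩ := ih (by omega)
    let a : Fin m := ⟨q + k, by omega⟩
    let c : Fin m := ⟨q, by omega⟩
    have e1 : q + 1 + k = (q + k) + 1 := by ring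
    obtain ⟨z', hz', h'⟩ := Qg_single (ξ := ξ) (η := η) (a := a) (c := c)
      (S := cfg ξ η (q + 1 + k) (q + 1))
      (by rw [mem_cfg_eta hη hd]; simp only [a]; omega)
      (by rw [mem_cfg_xi hξ hd]; simp only [a]; omega)
      (by rw [mem_cfg_eta hη hd]; simp only [c]; omega) (hd _ _)
    refine ⟨w ++ [(a, c)], z' * z, mul_ne_zero hz' hz, ?_⟩
    rw [List.map_append, List.prod_append]
    simp only [List.map_cons, List.map_nil, List.prod_cons, List.prod_nil, mul_one,
      Module.End.mul_apply]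
    rw [h', e1, cfg_erase hξ hη hd a c rfl rfl, map_smul, hw, smul_smul]

/-- `Pg a c` removes the `ξ`'s of the columns `a`, `c` -/
def Pg (ξ : Fin m → K) (a c : Fin m) : Module.End ℂ (Fock K) := an (ξ c) * an (ξ a)

theorem an_Bg_eta (hη : Function.Injective η) (hd : ∀ a c, ξ a ≠ η c) (c : Fin m) :
    an (η c) * Bg ξ η = Bg ξ η * an (η c) + an (ξ c) := by
  have h1 : ∀ a, an (η c) * (cr (η a) * an (ξ a)) =
      (cr (η a) * an (ξ a)) * an (η c) + if c = a then an (ξ a) else 0 := by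
    intro a
    have h2 := an_cr (η c) (η a)
    have h3 : an (η c) * cr (η a) = (if η c = η a then 1 else 0) - cr (η a) * an (η c) := by
      rw [← h2]; abel
    have h4 : an (η c) * an (ξ a) = - (an (ξ a) * an (η c)) :=
      eq_neg_of_add_eq_zero_left (an_an _ _)
    rw [← mul_assoc, h3, sub_mul, mul_assoc, h4, mul_neg, sub_neg_eq_add, mul_assoc, add_comm]
    congr 1
    by_cases h : c = a
    · subst h; simp
    · rw [if_neg h, if_neg (fun h' => h (hη h')), zero_mul]
  simp only [Bg, Finset.mul_sum, Finset.sum_mul, h1, Finset.sum_add_distrib]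
  simp

theorem an_Bg_xi (hd : ∀ a c, ξ a ≠ η c) (c : Fin m) :
    an (ξ c) * Bg ξ η = Bg ξ η * an (ξ c) := by
  have h1 : ∀ a, an (ξ c) * (cr (η a) * an (ξ a)) = (cr (η a) * an (ξ a)) * an (ξ c) := by
    intro a
    have h2 := an_cr (ξ c) (η a)
    rw [if_neg (hd c a)] at h2
    have h3 : an (ξ c) * cr (η a) = - (cr (η a) * an (ξ c)) := eq_neg_of_add_eq_zero_left h2
    have h4 : an (ξ c) * an (ξ a) = - (an (ξ a) * an (ξ c)) :=
      eq_neg_of_add_eq_zero_left (an_an _ _)
    rw [← mul_assoc, h3, neg_mul, mul_assoc, h4, mul_neg, neg_neg, mul_assoc]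
  simp only [Bg, Finset.mul_sum, Finset.sum_mul, h1]

theorem Pg_Bg (hd : ∀ a c, ξ a ≠ η c) (a c : Fin m) :
    Pg ξ a c * Bg ξ η = Bg ξ η * Pg ξ a c := by
  rw [Pg, mul_assoc, an_Bg_xi hd, ← mul_assoc, an_Bg_xi hd, mul_assoc]

theorem Qg_Bg (hη : Function.Injective η) (hd : ∀ a c, ξ a ≠ η c) (a c : Fin m) :
    Qg ξ η a c * Bg ξ η = Bg ξ η * Qg ξ η a c + (2 : ℂ) • Pg ξ a c := by
  have h1 : an (η c) * an (ξ a) * Bg ξ η = Bg ξ η * (an (η c) * an (ξ a)) +
      an (ξ c) * an (ξ a) := by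
    rw [mul_assoc, an_Bg_xi hd, ← mul_assoc, an_Bg_eta hη hd, add_mul, mul_assoc]
  have h2 : an (ξ c) * an (η a) * Bg ξ η = Bg ξ η * (an (ξ c) * an (η a)) +
      an (ξ c) * an (ξ a) := by
    rw [mul_assoc, an_Bg_eta hη hd, mul_add, ← mul_assoc, an_Bg_xi hd, mul_assoc]
  rw [Qg, add_mul, h1, h2, Pg, mul_add, two_smul]
  abel

theorem Qg_Bg_pow (hη : Function.Injective η) (hd : ∀ a c, ξ a ≠ η c) (a c : Fin m) (i : ℕ) :
    Qg ξ η a c * Bg ξ η ^ (i + 1) =
      Bg ξ η ^ (i + 1) * Qg ξ η a c + ((2 * (i + 1) : ℕ) : ℂ) • (Bg ξ η ^ i * Pg ξ a c) := by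
  have hPp : ∀ i : ℕ, Pg ξ a c * Bg ξ η ^ i = Bg ξ η ^ i * Pg ξ a c := fun i =>
    ((Commute.pow_right (show Commute (Pg ξ a c) (Bg ξ η) from Pg_Bg hd a c) i)).eq
  induction i with
  | zero =>
    rw [pow_zero, one_mul, zero_add, pow_one, Qg_Bg hη hd]
    norm_num
  | succ i ih =>
    rw [pow_succ (Bg ξ η) (i + 1), ← mul_assoc, ih, add_mul, mul_assoc, Qg_Bg hη hd, mul_add,
      ← mul_assoc, smul_mul_assoc, mul_assoc _ (Pg ξ a c), Pg_Bg hd, ← mul_assoc, ← pow_succ,
      mul_smul_comm]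
    rw [add_assoc]
    congr 1
    rw [← pow_succ, ← add_smul]
    congr 1
    push_cast
    ring

/-- second phase: from `(p, q)` and `Bg ^ j` to `(p - 2 j, q)` -/
theorem phase_two (hξ : Function.Injective ξ) (hη : Function.Injective η)
    (hd : ∀ a c, ξ a ≠ η c) {r q : ℕ} (hq : q ≤ r) : ∀ (j : ℕ), r + 2 * j ≤ m →
    ∃ w : List (Fin m × Fin m), ∃ z : ℂ, z ≠ 0 ∧
      (w.map fun e => Qg ξ η e.1 e.2).prod ((Bg ξ η ^ j) (ee (cfg ξ η (r + 2 * j) q))) =
        z • ee (cfg ξ η r q) := by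
  intro j
  induction j with
  | zero => intro _; exact ⟨[], 1, one_ne_zero, by simp⟩
  | succ j ih =>
    intro hj
    obtain ⟨w, z, hz, hw⟩ := ih (by omega)
    let a : Fin m := ⟨r + 2 * j, by omega⟩
    let c : Fin m := ⟨r + 2 * j + 1, by omega⟩
    have e1 : r + 2 * (j + 1) = r + 2 * j + 2 := by ring
    have hac : a ≠ c := fun h => by have := Fin.ext_iff.1 h; simp only [a, c] at this; omega
    have hQ : Qg ξ η a c (ee (cfg ξ η (r + 2 * (j + 1)) q)) = 0 := by
      have h1 : η c ∉ cfg ξ η (r + 2 * (j + 1)) q := by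
        rw [mem_cfg_eta hη hd]; simp only [c]; omega
      have h2 : η a ∉ cfg ξ η (r + 2 * (j + 1)) q := by
        rw [mem_cfg_eta hη hd]; simp only [a]; omega
      have h3 : an (η c) * an (ξ a) = - (an (ξ a) * an (η c)) :=
        eq_neg_of_add_eq_zero_left (an_an _ _)
      rw [Qg, h3, LinearMap.add_apply, LinearMap.neg_apply, Module.End.mul_apply,
        Module.End.mul_apply, an_ee_of_notMem h1, an_ee_of_notMem h2, map_zero, map_zero, neg_zero,
        add_zero]
    obtain ⟨z1, hz1, f1⟩ := an_ee_of_mem (S := cfg ξ η (r + 2 * (j + 1)) q) (k := ξ a)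
      (by rw [mem_cfg_xi hξ hd]; simp only [a]; omega)
    obtain ⟨z2, hz2, f2⟩ := an_ee_of_mem (S := (cfg ξ η (r + 2 * (j + 1)) q).erase (ξ a))
      (k := ξ c) (Finset.mem_erase.2 ⟨fun h => hac (hξ h).symm,
        by rw [mem_cfg_xi hξ hd]; simp only [c]; omega⟩)
    have hP : Pg ξ a c (ee (cfg ξ η (r + 2 * (j + 1)) q)) =
        (z1 * z2) • ee (cfg ξ η (r + 2 * j) q) := by
      rw [Pg, Module.End.mul_apply, f1, map_smul, f2, smul_smul, e1,
        cfg_erase_two hξ hd a c rfl rfl]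
    refine ⟨w ++ [(a, c)], ((2 * (j + 1) : ℕ) : ℂ) * (z1 * z2) * z, ?_, ?_⟩
    · refine mul_ne_zero (mul_ne_zero ?_ (mul_ne_zero hz1 hz2)) hz
      exact_mod_cast (by omega : 2 * (j + 1) ≠ 0)
    · rw [List.map_append, List.prod_append]
      simp only [List.map_cons, List.map_nil, List.prod_cons, List.prod_nil, mul_one,
        Module.End.mul_apply]
      have h5 := LinearMap.congr_fun (Qg_Bg_pow hη hd a c j) (ee (cfg ξ η (r + 2 * (j + 1)) q))
      simp only [Module.End.mul_apply, LinearMap.add_apply, LinearMap.smul_apply] at h5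
      rw [h5, hQ, map_zero, zero_add, hP, map_smul, map_smul, map_smul, hw, smul_smul, smul_smul]
      
/-- the plane lemma -/
theorem plane_word (hξ : Function.Injective ξ) (hη : Function.Injective η)
    (hd : ∀ a c, ξ a ≠ η c) {p q k : ℕ} (hp : p ≤ m) (hk : 1 ≤ k) (hqk : q + k ≤ p)
    (hpar : Even (p + q + k)) :
    ∃ w : List (Fin m × Fin m),
      inner ℂ (ee (cfg ξ η k 0)) ((w.map fun e => Qg ξ η e.1 e.2).prod
        ((Bg ξ η ^ ((p - q - k) / 2)) (ee (cfg ξ η p q)))) ≠ 0 := by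
  obtain ⟨s, hs⟩ := hpar
  have hp' : p = (q + k) + 2 * ((p - q - k) / 2) := by omega
  obtain ⟨w2, z2, hz2, h2⟩ := phase_two hξ hη hd (r := q + k) (q := q) (by omega)
    ((p - q - k) / 2) (by omega)
  obtain ⟨w1, z1, hz1, h1⟩ := phase_one hξ hη hd hk q (by omega)
  refine ⟨w1 ++ w2, ?_⟩
  rw [List.map_append, List.prod_append, Module.End.mul_apply]
  conv_lhs => rw [hp']
  rw [show (q + k + 2 * ((p - q - k) / 2) - q - k) / 2 = (p - q - k) / 2 by omega, h2, map_smul, h1,
    smul_smul, inner_smul_right, inner_ee, if_pos rfl, mul_one]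
  exact mul_ne_zero hz2 hz1

/-- `Qg a c` twice removes everything from the columns `a`, `c` -/
theorem Qg_sq (hξ : Function.Injective ξ) (hη : Function.Injective η)
    (hd : ∀ a c, ξ a ≠ η c) {a c : Fin m} (hac : a ≠ c) {S : Finset K} (h1 : ξ a ∈ S)
    (h2 : ξ c ∈ S) (h3 : η a ∈ S) (h4 : η c ∈ S) :
    ∃ z : ℂ, z ≠ 0 ∧ Qg ξ η a c (Qg ξ η a c (ee S)) =
      z • ee ((((S.erase (ξ a)).erase (η c)).erase (η a)).erase (ξ c)) := by
  let A : Module.End ℂ (Fock K) := an (η c) * an (ξ a)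
  let B : Module.End ℂ (Fock K) := an (ξ c) * an (η a)
  have anti : ∀ k l : K, (an k * an l : Module.End ℂ (Fock K)) = - (an l * an k) := fun k l =>
    eq_neg_of_add_eq_zero_left (an_an _ _)
  have sq : ∀ k : K, (an k * an k : Module.End ℂ (Fock K)) = 0 := by
    intro k
    have h := an_an k k
    have h5 : (2 : ℂ) • (an k * an k : Module.End ℂ (Fock K)) = 0 := by rw [two_smul, h]
    exact (smul_eq_zero.1 h5).resolve_left two_ne_zero
  have hAA : A * A = 0 := by
    simp only [A]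
    rw [mul_assoc, ← mul_assoc (an (ξ a)) (an (η c)), anti (ξ a) (η c), neg_mul, mul_assoc, sq,
      mul_zero, neg_zero, mul_zero]
  have hBB : B * B = 0 := by
    simp only [B]
    rw [mul_assoc, ← mul_assoc (an (η a)) (an (ξ c)), anti (η a) (ξ c), neg_mul, mul_assoc, sq,
      mul_zero, neg_zero, mul_zero]
  have comm : ∀ k l k' l' : K, (an k * an l) * (an k' * an l') =
      (an k' * an l') * (an k * an l : Module.End ℂ (Fock K)) := by
    intro k l k' l'
    calc (an k * an l) * (an k' * an l') = an k * (an l * an k') * an l' := by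
          simp only [mul_assoc]
      _ = - ((an k * an k') * (an l * an l')) := by rw [anti l k']; simp only [mul_assoc, neg_mul,
          mul_neg]
      _ = - ((an k' * an k) * (an l' * an l)) := by rw [anti k k', anti l l', neg_mul_neg]
      _ = - (an k' * (an k * an l') * an l) := by simp only [mul_assoc]
      _ = (an k' * an l') * (an k * an l) := by rw [anti k l']; simp only [mul_assoc, neg_mul,
          mul_neg, neg_neg]
  have hAB : A * B = B * A := comm _ _ _ _
  have hQ : Qg ξ η a c * Qg ξ η a c = (2 : ℂ) • (B * A) := by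
    have : Qg ξ η a c = A + B := rfl
    rw [this, add_mul, mul_add, mul_add, hAA, hBB, hAB, two_smul]
    abel
  obtain ⟨z1, hz1, e1⟩ := an_ee_of_mem h1
  obtain ⟨z2, hz2, e2⟩ := an_ee_of_mem (S := S.erase (ξ a)) (k := η c)
    (Finset.mem_erase.2 ⟨(hd a c).symm, h4⟩)
  obtain ⟨z3, hz3, e3⟩ := an_ee_of_mem (S := (S.erase (ξ a)).erase (η c)) (k := η a)
    (Finset.mem_erase.2 ⟨fun h => hac (hη h), Finset.mem_erase.2 ⟨(hd a a).symm, h3⟩⟩)
  obtain ⟨z4, hz4, e4⟩ := an_ee_of_mem (S := ((S.erase (ξ a)).erase (η c)).erase (η a)) (k := ξ c)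
    (Finset.mem_erase.2 ⟨hd c a, Finset.mem_erase.2 ⟨hd c c, Finset.mem_erase.2
      ⟨fun h => hac (hξ h).symm, h2⟩⟩⟩)
  refine ⟨2 * (z1 * z2 * z3 * z4), mul_ne_zero two_ne_zero
    (mul_ne_zero (mul_ne_zero (mul_ne_zero hz1 hz2) hz3) hz4), ?_⟩
  rw [← Module.End.mul_apply, hQ, LinearMap.smul_apply, Module.End.mul_apply]
  simp only [A, B, Module.End.mul_apply]
  rw [e1, map_smul, e2, map_smul, map_smul, map_smul, map_smul, e3, map_smul, e4]
  simp only [smul_smul]
  congr 1
  ring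

theorem cfg_erase_four (hξ : Function.Injective ξ) (hη : Function.Injective η)
    (hd : ∀ a c, ξ a ≠ η c) {p : ℕ} (a c : Fin m) (ha : (a : ℕ) = p) (hc : (c : ℕ) = p + 1) :
    ((((cfg ξ η (p + 2) (p + 2)).erase (ξ a)).erase (η c)).erase (η a)).erase (ξ c) =
      cfg ξ η p p := by
  ext k
  simp only [Finset.mem_erase]
  constructor
  · rintro ⟨h1, h2, h3, h4, h5⟩
    simp only [cfg, Finset.mem_union, Finset.mem_image, Finset.mem_filter, Finset.mem_univ,
      true_and] at h5 ⊢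
    rcases h5 with ⟨b, hb, rfl⟩ | ⟨b, hb, rfl⟩
    · left; refine ⟨b, ?_, rfl⟩
      have : (b : ℕ) ≠ p := fun h => h4 (by rw [show b = a from Fin.ext (by omega)])
      have : (b : ℕ) ≠ p + 1 := fun h => h1 (by rw [show b = c from Fin.ext (by omega)])
      omega
    · right; refine ⟨b, ?_, rfl⟩
      have : (b : ℕ) ≠ p := fun h => h2 (by rw [show b = a from Fin.ext (by omega)])
      have : (b : ℕ) ≠ p + 1 := fun h => h3 (by rw [show b = c from Fin.ext (by omega)])
      omega
  · intro h3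
    simp only [cfg, Finset.mem_union, Finset.mem_image, Finset.mem_filter, Finset.mem_univ,
      true_and] at h3 ⊢
    rcases h3 with ⟨b, hb, rfl⟩ | ⟨b, hb, rfl⟩
    · refine ⟨fun h => ?_, hd b a, hd b c, fun h => ?_, Or.inl ⟨b, by omega, rfl⟩⟩
      · rw [hξ h] at hb; omega
      · rw [hξ h] at hb; omega
    · refine ⟨fun h => hd c b h.symm, fun h => ?_, fun h => ?_, fun h => hd a b h.symm,
        Or.inr ⟨b, by omega, rfl⟩⟩
      · rw [hη h] at hb; omega
      · rw [hη h] at hb; omega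

/-- planes with rows `(p, p)`, target `(r, r)`, `r ≡ p` -/
theorem plane_zero_word (hξ : Function.Injective ξ) (hη : Function.Injective η)
    (hd : ∀ a c, ξ a ≠ η c) (r : ℕ) : ∀ (j : ℕ), r + 2 * j ≤ m →
    ∃ w : List (Fin m × Fin m),
      inner ℂ (ee (cfg ξ η r r)) ((w.map fun e => Qg ξ η e.1 e.2).prod
        (ee (cfg ξ η (r + 2 * j) (r + 2 * j)))) ≠ 0 := by
  have main : ∀ (j : ℕ), r + 2 * j ≤ m → ∃ w : List (Fin m × Fin m), ∃ z : ℂ, z ≠ 0 ∧
      (w.map fun e => Qg ξ η e.1 e.2).prod (ee (cfg ξ η (r + 2 * j) (r + 2 * j))) =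
        z • ee (cfg ξ η r r) := by
    intro j
    induction j with
    | zero => intro _; exact ⟨[], 1, one_ne_zero, by simp⟩
    | succ j ih =>
      intro hj
      obtain ⟨w, z, hz, hw⟩ := ih (by omega)
      let a : Fin m := ⟨r + 2 * j, by omega⟩
      let c : Fin m := ⟨r + 2 * j + 1, by omega⟩
      have e1 : r + 2 * (j + 1) = r + 2 * j + 2 := by ring
      have hac : a ≠ c := fun h => by have := Fin.ext_iff.1 h; simp only [a, c] at this; omega
      obtain ⟨z', hz', h'⟩ := Qg_sq hξ hη hd hac (S := cfg ξ η (r + 2 * (j + 1)) (r + 2 * (j + 1)))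
        (by rw [mem_cfg_xi hξ hd]; simp only [a]; omega)
        (by rw [mem_cfg_xi hξ hd]; simp only [c]; omega)
        (by rw [mem_cfg_eta hη hd]; simp only [a]; omega)
        (by rw [mem_cfg_eta hη hd]; simp only [c]; omega)
      refine ⟨w ++ [(a, c), (a, c)], z' * z, mul_ne_zero hz' hz, ?_⟩
      rw [List.map_append, List.prod_append]
      simp only [List.map_cons, List.map_nil, List.prod_cons, List.prod_nil, mul_one,
        Module.End.mul_apply]
      rw [h', e1, cfg_erase_four hξ hη hd a c rfl rfl, map_smul, hw, smul_smul]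
  intro j hj
  obtain ⟨w, z, hz, hw⟩ := main j hj
  exact ⟨w, by rw [hw, inner_smul_right, inner_ee, if_pos rfl, mul_one]; exact hz⟩

/-- a single row, target row of length `r ≡ p` -/
theorem row_word {ζ : Fin m → K} (hζ : Function.Injective ζ) (r : ℕ) : ∀ (j : ℕ), r + 2 * j ≤ m →
    ∃ w : List (Fin m × Fin m),
      inner ℂ (ee ((Finset.univ.filter (fun a : Fin m => (a : ℕ) < r)).image ζ))
        ((w.map fun e => an (ζ e.2) * an (ζ e.1)).prod
        (ee ((Finset.univ.filter (fun a : Fin m => (a : ℕ) < r + 2 * j)).image ζ))) ≠ 0 := by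
  have main : ∀ (j : ℕ), r + 2 * j ≤ m → ∃ w : List (Fin m × Fin m), ∃ z : ℂ, z ≠ 0 ∧
      (w.map fun e => an (ζ e.2) * an (ζ e.1)).prod
        (ee ((Finset.univ.filter (fun a : Fin m => (a : ℕ) < r + 2 * j)).image ζ)) =
        z • ee ((Finset.univ.filter (fun a : Fin m => (a : ℕ) < r)).image ζ) := by
    intro j
    induction j with
    | zero => intro _; exact ⟨[], 1, one_ne_zero, by simp⟩
    | succ j ih =>
      intro hj
      obtain ⟨w, z, hz, hw⟩ := ih (by omega)
      let a : Fin m := ⟨r + 2 * j, by omega⟩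
      let c : Fin m := ⟨r + 2 * j + 1, by omega⟩
      have hac : a ≠ c := fun h => by have := Fin.ext_iff.1 h; simp only [a, c] at this; omega
      set S := (Finset.univ.filter (fun a : Fin m => (a : ℕ) < r + 2 * (j + 1))).image ζ with hS
      obtain ⟨z1, hz1, f1⟩ := an_ee_of_mem (S := S) (k := ζ a)
        (Finset.mem_image_of_mem _ (by simp only [Finset.mem_filter, Finset.mem_univ, true_and, a]
                                       omega))
      obtain ⟨z2, hz2, f2⟩ := an_ee_of_mem (S := S.erase (ζ a))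
        (k := ζ c) (Finset.mem_erase.2 ⟨fun h => hac (hζ h).symm,
          Finset.mem_image_of_mem _ (by simp only [Finset.mem_filter, Finset.mem_univ, true_and, c]
                                        omega)⟩)
      have hE : (S.erase (ζ a)).erase (ζ c) =
          (Finset.univ.filter (fun a : Fin m => (a : ℕ) < r + 2 * j)).image ζ := by
        ext k
        simp only [hS, Finset.mem_erase, Finset.mem_image, Finset.mem_filter, Finset.mem_univ,
          true_and]
        constructor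
        · rintro ⟨h1, h2, ⟨b, hb, rfl⟩⟩
          refine ⟨b, ?_, rfl⟩
          have : (b : ℕ) ≠ r + 2 * j := fun h => h2 (by rw [show b = a from Fin.ext (by omega)])
          have : (b : ℕ) ≠ r + 2 * j + 1 := fun h => h1 (by
            rw [show b = c from Fin.ext (by omega)])
          omega
        · rintro ⟨b, hb, rfl⟩
          refine ⟨fun h => ?_, fun h => ?_, ⟨b, by omega, rfl⟩⟩
          · rw [hζ h] at hb; simp only [c] at hb; omega
          · rw [hζ h] at hb; simp only [a] at hb; omega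
      refine ⟨w ++ [(a, c)], z1 * z2 * z, mul_ne_zero (mul_ne_zero hz1 hz2) hz, ?_⟩
      rw [List.map_append, List.prod_append]
      simp only [List.map_cons, List.map_nil, List.prod_cons, List.prod_nil, mul_one,
        Module.End.mul_apply]
      rw [f1, map_smul, f2, hE, smul_smul, map_smul, hw, smul_smul]
  intro j hj
  obtain ⟨w, z, hz, hw⟩ := main j hj
  exact ⟨w, by rw [hw, inner_smul_right, inner_ee, if_pos rfl, mul_one]; exact hz⟩

end

end Kost
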