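import Mathlib

/-!
# A common parameter for finitely many commuting families (MP_869ec4)

If for every block some word in the commuting operators `A b s` has a nonzero matrix coefficient,
then there is one `t` such that all the coefficients of `exp (∑ t s • A b s)` are nonzero.
-/

open Module

namespace Kost

noncomputable section

/-- truncated exponential -/
def exN {𝓐 : Type*} [Ring 𝓐] [Algebra ℂ 𝓐] (N : ℕ) (A : 𝓐) : 𝓐 :=
  ∑ r ∈ Finset.range N, ((r.factorial : ℂ)⁻¹) • A ^ r

section Poly

variable {σ : Type*} [Fintype σ] [DecidableEq σ] {V : Type*} [AddCommGroup V] [Module ℂ V]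

/-- the polynomial `t ↦ φ ((∑ t s • A s) ^ r v)` -/
def pol (A : σ → Module.End ℂ V) (φ : V →ₗ[ℂ] ℂ) : ℕ → V → MvPolynomial σ ℂ
  | 0, v => MvPolynomial.C (φ v)
  | r + 1, v => ∑ s, MvPolynomial.X s * pol A φ r (A s v)

theorem eval_pol (A : σ → Module.End ℂ V) (φ : V →ₗ[ℂ] ℂ) (t : σ → ℂ) (r : ℕ) :
    ∀ v, MvPolynomial.eval t (pol A φ r v) = φ (((∑ s, t s • A s) ^ r) v) := by
  induction r with
  | zero => intro v; simp [pol]
  | succ r ih =>
    intro v
    rw [pol, map_sum, pow_succ, Module.End.mul_apply]
    simp only [map_mul, MvPolynomial.eval_X, ih, LinearMap.sum_apply, LinearMap.smul_apply,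
      map_sum, map_smul, smul_eq_mul]

theorem pol_homogeneous (A : σ → Module.End ℂ V) (φ : V →ₗ[ℂ] ℂ) (r : ℕ) :
    ∀ v, (pol A φ r v).IsHomogeneous r := by
  induction r with
  | zero => intro v; exact MvPolynomial.isHomogeneous_C _ _
  | succ r ih =>
    intro v
    rw [pol]
    refine MvPolynomial.IsHomogeneous.sum _ _ _ fun s _ => ?_
    rw [add_comm]
    exact (MvPolynomial.isHomogeneous_X _ _).mul (ih _)

/-- exponent of a word -/
def expo (w : List σ) : σ →₀ ℕ := (w.map fun s => Finsupp.single s 1).sum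

theorem expo_cons (s : σ) (w : List σ) : expo (s :: w) = Finsupp.single s 1 + expo w := by
  simp [expo]

theorem expo_perm {w w' : List σ} (h : w.Perm w') : expo w = expo w' := by
  exact (h.map _).sum_eq

theorem mem_of_expo {s : σ} {w : List σ} (h : s ∈ (expo w).support) : s ∈ w := by
  induction w with
  | nil => simp [expo] at h
  | cons s' w ih =>
    rw [expo_cons] at h
    by_cases hs : s = s'
    · rw [hs]; exact List.mem_cons_self
    · refine List.mem_cons_of_mem _ (ih ?_)
      rw [Finsupp.mem_support_iff, Finsupp.add_apply, Finsupp.single_apply,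
        if_neg (fun h => hs h.symm), zero_add] at h
      rwa [Finsupp.mem_support_iff]

theorem prod_perm {A : σ → Module.End ℂ V} (hcomm : ∀ s s', A s * A s' = A s' * A s)
    {w w' : List σ} (h : w.Perm w') : (w.map A).prod = (w'.map A).prod := by
  induction h with
  | nil => rfl
  | cons s _ ih => simp only [List.map_cons, List.prod_cons, ih]
  | swap s s' w =>
    simp only [List.map_cons, List.prod_cons, ← mul_assoc, hcomm s' s]
  | trans _ _ h1 h2 => exact h1.trans h2

theorem prod_comm {A : σ → Module.End ℂ V} (hcomm : ∀ s s', A s * A s' = A s' * A s) (s : σ)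
    (w : List σ) : (w.map A).prod * A s = A s * (w.map A).prod := by
  induction w with
  | nil => simp
  | cons s' w ih =>
    simp only [List.map_cons, List.prod_cons]
    rw [mul_assoc, ih, ← mul_assoc, hcomm s' s, mul_assoc]

theorem coeff_pol {A : σ → Module.End ℂ V} (hcomm : ∀ s s', A s * A s' = A s' * A s)
    (φ : V →ₗ[ℂ] ℂ) (r : ℕ) : ∀ w : List σ, w.length = r →
    ∃ c : ℕ, 0 < c ∧ ∀ v, MvPolynomial.coeff (expo w) (pol A φ r v) =
      (c : ℂ) * φ ((w.map A).prod v) := by
  induction r with
  | zero =>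
    intro w hw
    obtain rfl := List.length_eq_zero_iff.1 hw
    exact ⟨1, one_pos, fun v => by simp [pol, expo]⟩
  | succ r ih =>
    intro w hw
    have key : ∀ s : σ, ∃ c : ℕ, (s ∈ (expo w).support → 0 < c) ∧ ∀ v,
        MvPolynomial.coeff (expo w) (MvPolynomial.X s * pol A φ r (A s v)) =
          (c : ℂ) * φ ((w.map A).prod v) := by
      intro s
      by_cases hs : s ∈ (expo w).support
      · have hsw := mem_of_expo hs
        have hp : w.Perm (s :: w.erase s) := List.perm_cons_erase hsw
        have hl : (w.erase s).length = r := by rw [List.length_erase_of_mem hsw, hw]; rfl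
        obtain ⟨c, hc, h⟩ := ih (w.erase s) hl
        refine ⟨c, fun _ => hc, fun v => ?_⟩
        have h1 : expo w - Finsupp.single s 1 = expo (w.erase s) := by
          rw [expo_perm hp, expo_cons, add_tsub_cancel_left]
        rw [MvPolynomial.coeff_X_mul', if_pos hs, h1, h, prod_perm hcomm hp, List.map_cons,
          List.prod_cons, ← prod_comm hcomm, Module.End.mul_apply]
      · refine ⟨0, fun h => absurd h hs, fun v => ?_⟩
        rw [MvPolynomial.coeff_X_mul', if_neg hs, Nat.cast_zero, zero_mul]
    choose c hc h using key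
    refine ⟨∑ s, c s, ?_, fun v => ?_⟩
    · match w, hw with
      | s :: w', _ =>
        have hs : s ∈ (expo (s :: w')).support := by
          rw [Finsupp.mem_support_iff, expo_cons, Finsupp.add_apply, Finsupp.single_eq_same]
          omega
        exact lt_of_lt_of_le (hc s hs) (Finset.single_le_sum (fun _ _ => Nat.zero_le _)
          (Finset.mem_univ s))
    · rw [pol, MvPolynomial.coeff_sum, Nat.cast_sum, Finset.sum_mul]
      exact Finset.sum_congr rfl fun s _ => h s v

/-- a common parameter -/
theorem poly_common {β : Type*} (l : Finset β) (A : β → σ → Module.End ℂ V)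
    (hcomm : ∀ b s s', A b s * A b s' = A b s' * A b s) (N : ℕ)
    (hN : ∀ b (w : List σ), N ≤ w.length → (w.map (A b)).prod = 0) (φ : β → V →ₗ[ℂ] ℂ)
    (v : β → V) (hw : ∀ b ∈ l, ∃ w : List σ, φ b ((w.map (A b)).prod (v b)) ≠ 0) :
    ∃ t : σ → ℂ, ∀ b ∈ l, φ b (exN N (∑ s, t s • A b s) (v b)) ≠ 0 := by
  let P : β → MvPolynomial σ ℂ := fun b =>
    ∑ r ∈ Finset.range N, MvPolynomial.C ((r.factorial : ℂ)⁻¹) * pol (A b) (φ b) r (v b)
  have heval : ∀ b t, MvPolynomial.eval t (P b) = φ b (exN N (∑ s, t s • A b s) (v b)) := by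
    intro b t
    simp only [P, exN, map_sum, map_mul, MvPolynomial.eval_C, eval_pol, LinearMap.sum_apply,
      LinearMap.smul_apply, map_smul, smul_eq_mul]
  have hP : ∀ b ∈ l, P b ≠ 0 := by
    intro b hb h0
    obtain ⟨w, hw⟩ := hw b hb
    have hlen : w.length < N := by
      by_contra h
      rw [hN b w (not_lt.1 h)] at hw
      simp at hw
    obtain ⟨c, hc, h⟩ := coeff_pol (hcomm b) (φ b) w.length w rfl
    have hdeg : (expo w).degree = w.length := by
      clear hw hlen h
      induction w with
      | nil => simp [expo]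
      | cons s w ih =>
        rw [expo_cons, map_add, Finsupp.degree_single, ih, List.length_cons, add_comm]
    have h1 := congrArg (MvPolynomial.coeff (expo w)) h0
    simp only [P, MvPolynomial.coeff_sum, MvPolynomial.coeff_C_mul, MvPolynomial.coeff_zero] at h1
    rw [Finset.sum_eq_single w.length] at h1
    · rw [h] at h1
      have h2 : ((w.length.factorial : ℂ)⁻¹) ≠ 0 :=
        inv_ne_zero (Nat.cast_ne_zero.2 (Nat.factorial_ne_zero _))
      exact mul_ne_zero h2 (mul_ne_zero (Nat.cast_ne_zero.2 hc.ne') hw) h1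
    · intro r _ hr
      rw [(pol_homogeneous (A b) (φ b) r (v b)).coeff_eq_zero (by rw [hdeg]; exact fun h => hr h.symm),
        mul_zero]
    · intro h; exact absurd (Finset.mem_range.2 hlen) h
  have hprod : ∏ b ∈ l, P b ≠ 0 := Finset.prod_ne_zero_iff.2 hP
  obtain ⟨t, ht⟩ : ∃ t : σ → ℂ, MvPolynomial.eval t (∏ b ∈ l, P b) ≠ 0 := by
    by_contra hcon
    push Not at hcon
    exact hprod (MvPolynomial.funext fun t => by rw [hcon t, map_zero])
  refine ⟨t, fun b hb => ?_⟩
  rw [map_prod] at ht
  rw [← heval]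
  exact (Finset.prod_ne_zero_iff.1 ht) b hb

end Poly

section Exp

variable {𝓐 : Type*} [Ring 𝓐] [Algebra ℂ 𝓐]

theorem exN_eq_exp [Algebra ℚ 𝓐] {N : ℕ} {A : 𝓐} (h : A ^ N = 0) :
    exN N A = IsNilpotent.exp A := by
  rw [IsNilpotent.exp_eq_sum h]
  refine Finset.sum_congr rfl fun r _ => ?_
  rw [← Rat.cast_smul_eq_qsmul ℂ]
  norm_num

/-- the truncated exponential of a sum of commuting elements with vanishing `N`-th powers -/
theorem exN_list_sum {ι : Type*} (l : List ι) (A : ι → 𝓐) (N M : ℕ)
    (hcomm : ∀ i j, A i * A j = A j * A i) (hN : ∀ i, A i ^ N = 0)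
    (hM : ((l.map A).sum) ^ M = 0) : exN M (l.map A).sum = (l.map fun i => exN N (A i)).prod := by
  letI : Algebra ℚ 𝓐 := Algebra.compHom 𝓐 (algebraMap ℚ ℂ)
  have hc : ∀ (i : ι) (l : List ι), Commute (A i) (l.map A).sum := by
    intro i l
    induction l with
    | nil => simp
    | cons j l ih' =>
      rw [List.map_cons, List.sum_cons]
      exact Commute.add_right (hcomm i j) ih'
  have hnil : ∀ l : List ι, IsNilpotent (l.map A).sum := by
    intro l
    induction l with
    | nil => simp
    | cons i l ih =>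
      rw [List.map_cons, List.sum_cons]
      exact Commute.isNilpotent_add (hc i l) ⟨N, hN i⟩ ih
  rw [exN_eq_exp hM]
  clear hM
  induction l with
  | nil => simp [IsNilpotent.exp_zero]
  | cons i l ih =>
    rw [List.map_cons, List.sum_cons, IsNilpotent.exp_add_of_commute (hc i l) ⟨N, hN i⟩ (hnil l),
      ih, List.map_cons, List.prod_cons, exN_eq_exp (hN i)]

end Exp

end

end Kost
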