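import Pool.Agent.Kost.SoBlk

/-!
# Words in the contraction operators (MP_869ec4, helper of `SoEval`)
-/

open Module Matrix

namespace Kost.SoE

noncomputable section

variable {n b m : ℕ}

/-- two rows of a plane -/
def Rw (i : Fin n) (p q : ℕ) : Finset (Idx n b × Fin m) :=
  Finset.univ.filter (fun s => (s.1 = .x i ∧ (s.2 : ℕ) < p) ∨ (s.1 = .y i ∧ (s.2 : ℕ) < q))

/-- the row of `z` -/
def Zw (k : Fin b) (p : ℕ) : Finset (Idx n b × Fin m) :=
  Finset.univ.filter (fun s => s.1 = .z k ∧ (s.2 : ℕ) < p)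

theorem mem_Rw_x {i : Fin n} {p q : ℕ} {a : Fin m} :
    (Idx.x i, a) ∈ (Rw i p q : Finset (Idx n b × Fin m)) ↔ (a : ℕ) < p := by
  simp [Rw]

theorem mem_Rw_y {i : Fin n} {p q : ℕ} {a : Fin m} :
    (Idx.y i, a) ∈ (Rw i p q : Finset (Idx n b × Fin m)) ↔ (a : ℕ) < q := by
  simp [Rw]

theorem mem_Zw {k : Fin b} {p : ℕ} {a : Fin m} :
    (Idx.z k, a) ∈ (Zw k p : Finset (Idx n b × Fin m)) ↔ (a : ℕ) < p := by
  simp [Zw]

/-- `v` can be reached from `u`: some word maps to `v` (in the dual sense) -/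
def Reach (i : Fin n ⊕ Fin b) (u v : Finset (Idx n b × Fin m)) : Prop :=
  ∃ (l : List (Fin m × Fin m)) (c : ℂ), c ≠ 0 ∧ ∀ x : Fock (Idx n b × Fin m),
    inner ℂ (ee u) ((l.map (Qb i)).prod x) = c * inner ℂ (ee v) x

theorem Reach.refl (i : Fin n ⊕ Fin b) (u : Finset (Idx n b × Fin m)) : Reach i u u :=
  ⟨[], 1, one_ne_zero, fun x => by simp⟩

theorem Reach.trans {i : Fin n ⊕ Fin b} {u v w : Finset (Idx n b × Fin m)} (h1 : Reach i u v)
    (h2 : Reach i v w) : Reach i u w := by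
  obtain ⟨l1, c1, hc1, h1⟩ := h1
  obtain ⟨l2, c2, hc2, h2⟩ := h2
  refine ⟨l1 ++ l2, c1 * c2, mul_ne_zero hc1 hc2, fun x => ?_⟩
  rw [List.map_append, List.prod_append, Module.End.mul_apply, h1, h2, mul_assoc]

theorem Qb_adj_plane (i : Fin n) (w : Fin m × Fin m) (y x : Fock (Idx n b × Fin m)) :
    inner ℂ y (Qb (.inl i) w x) = inner ℂ (cr (Idx.x i, w.1) (cr (Idx.y i, w.2) y) +
      cr (Idx.y i, w.1) (cr (Idx.x i, w.2) y)) x := by
  simp only [Qb, LinearMap.add_apply, Module.End.mul_apply, inner_add_left, inner_add_right,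
    inner_cr]

theorem Qb_adj_z (k : Fin b) (w : Fin m × Fin m) (y x : Fock (Idx n b × Fin m)) :
    inner ℂ y (Qb (.inr k) w x) = inner ℂ (cr (Idx.z k, w.1) (cr (Idx.z k, w.2) y)) x := by
  simp only [Qb, Module.End.mul_apply, inner_cr]

/-- creating two particles -/
theorem cr_cr_ins {K : Type*} [Fintype K] [DecidableEq K] {k l : K} {S T : Finset K}
    (hk : k ∉ S) (hl : l ∉ S) (hkl : k ≠ l)
    (hT : T = insert k (insert l S)) : ∃ c : ℂ, c ≠ 0 ∧ cr k (cr l (ee S)) = c • ee T := by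
  obtain ⟨c1, hc1, h1⟩ := cr_ins hl
  obtain ⟨c2, hc2, h2⟩ := cr_ins (k := k) (S := insert l S)
    (by rw [Finset.mem_insert]; rintro (h | h); exacts [hkl h, hk h])
  refine ⟨c1 * c2, mul_ne_zero hc1 hc2, ?_⟩
  rw [h1, map_smul, h2, smul_smul, hT]

theorem an_an_del {K : Type*} [Fintype K] [DecidableEq K] {k l : K} {S T : Finset K}
    (hk : k ∈ S) (hl : l ∈ S) (hkl : k ≠ l)
    (hT : T = (S.erase l).erase k) : ∃ c : ℂ, c ≠ 0 ∧ an k (an l (ee S)) = c • ee T := by
  obtain ⟨c1, hc1, h1⟩ := an_del hl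
  obtain ⟨c2, hc2, h2⟩ := an_del (k := k) (S := S.erase l) (Finset.mem_erase.2 ⟨hkl, hk⟩)
  refine ⟨c1 * c2, mul_ne_zero hc1 hc2, ?_⟩
  rw [h1, map_smul, h2, smul_smul, hT]

theorem reach_step (i : Fin n) {k q : ℕ} (hk : 0 < k) (hm : q + k < m) :
    Reach (b := b) (m := m) (.inl i) (Rw i (q + k) q) (Rw i (q + 1 + k) (q + 1)) := by
  have hq : q < m := by omega
  set a : Fin m := ⟨q, hq⟩ with ha
  set c : Fin m := ⟨q + k, hm⟩ with hc
  obtain ⟨c1, hc1, h1⟩ := cr_cr_ins (k := (Idx.y i, a)) (l := (Idx.x i, c))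
    (S := (Rw i (q + k) q : Finset (Idx n b × Fin m))) (T := Rw i (q + 1 + k) (q + 1))
    (by rw [mem_Rw_y]; simp [ha]) (by rw [mem_Rw_x]; simp [hc]) (by simp)
    (by
      ext ⟨j, e⟩
      simp only [Rw, Finset.mem_filter, Finset.mem_univ, true_and, Finset.mem_insert,
        Prod.mk.injEq, ha, hc, Fin.ext_iff]
      constructor
      · rintro (⟨h, h'⟩ | ⟨h, h'⟩)
        · by_cases h2 : (e : ℕ) = q + k
          · right; left; exact ⟨h, h2⟩
          · right; right; left; exact ⟨h, by omega⟩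
        · by_cases h2 : (e : ℕ) = q
          · left; exact ⟨h, h2⟩
          · right; right; right; exact ⟨h, by omega⟩
      · rintro (⟨h, h'⟩ | ⟨h, h'⟩ | ⟨h, h'⟩ | ⟨h, h'⟩)
        · right; exact ⟨h, by omega⟩
        · left; exact ⟨h, by omega⟩
        · left; exact ⟨h, by omega⟩
        · right; exact ⟨h, by omega⟩)
  refine ⟨[(a, c)], (starRingEnd ℂ) c1, by simpa using hc1, fun x => ?_⟩
  rw [List.map_singleton, List.prod_singleton, Qb_adj_plane]
  have h2 : cr (Idx.x i, a) (cr (Idx.y i, c) (ee (Rw i (q + k) q : Finset (Idx n b × Fin m)))) = 0 := by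
    obtain ⟨c2, -, h3⟩ := cr_ins (k := (Idx.y i, c)) (S := (Rw i (q + k) q : Finset (Idx n b × Fin m)))
      (by rw [mem_Rw_y]; simp [hc])
    rw [h3, map_smul, cr_mem, smul_zero]
    rw [Finset.mem_insert, mem_Rw_x]
    right; simp [ha]; omega
  rw [h2, zero_add, h1, inner_smul_left]

theorem reach_plane (i : Fin n) {k : ℕ} (hk : 0 < k) : ∀ q : ℕ, q + k ≤ m →
    Reach (b := b) (m := m) (.inl i) (Rw i k 0) (Rw i (q + k) q) := by
  intro q
  induction q with
  | zero => intro _; rw [zero_add]; exact Reach.refl _ _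
  | succ q ih =>
    intro hm
    exact (ih (by omega)).trans (reach_step i hk (by omega))

theorem sq_aux {A : Type*} [Ring A] [Module ℂ A] (a b c d : A) (haa : a * a = 0) (hcc : c * c = 0)
    (hba : b * a = -(a * b)) (hdc : d * c = -(c * d)) (hca : c * a = -(a * c))
    (hda : d * a = -(a * d)) (hdb : d * b = -(b * d)) (hcb : c * b = -(b * c)) :
    (a * b + c * d) * (a * b + c * d) = (2 : ℂ) • (a * b * (c * d)) := by
  have t1 : a * b * (a * b) = 0 := by
    calc a * b * (a * b) = a * (b * a) * b := by noncomm_ring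
      _ = -((a * a) * (b * b)) := by rw [hba]; noncomm_ring
      _ = 0 := by rw [haa]; simp
  have t2 : c * d * (c * d) = 0 := by
    calc c * d * (c * d) = c * (d * c) * d := by noncomm_ring
      _ = -((c * c) * (d * d)) := by rw [hdc]; noncomm_ring
      _ = 0 := by rw [hcc]; simp
  have t3 : c * d * (a * b) = a * b * (c * d) := by
    calc c * d * (a * b) = c * (d * a) * b := by noncomm_ring
      _ = -((c * a) * (d * b)) := by rw [hda]; noncomm_ring
      _ = -(a * (c * b) * d) := by rw [hca, hdb]; noncomm_ring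
      _ = a * b * (c * d) := by rw [hcb]; noncomm_ring
  rw [add_mul, mul_add, mul_add, t1, t2, t3, zero_add, add_zero, two_smul]

/-- adjoint of a contraction operator of a plane -/
def RR (i : Fin n) (w : Fin m × Fin m) : Module.End ℂ (Fock (Idx n b × Fin m)) :=
  cr (Idx.x i, w.1) * cr (Idx.y i, w.2) + cr (Idx.y i, w.1) * cr (Idx.x i, w.2)

theorem Qb_adj_plane' (i : Fin n) (w : Fin m × Fin m) (y x : Fock (Idx n b × Fin m)) :
    inner ℂ y (Qb (.inl i) w x) = inner ℂ (RR i w y) x := by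
  rw [Qb_adj_plane]
  rfl

theorem sq_RR (i : Fin n) (w : Fin m × Fin m) :
    (RR i w * RR i w : Module.End ℂ (Fock (Idx n b × Fin m))) =
      (2 : ℂ) • (cr (Idx.x i, w.1) * cr (Idx.y i, w.2) *
        (cr (Idx.y i, w.1) * cr (Idx.x i, w.2))) :=
  sq_aux _ _ _ _ (cr_self _) (cr_self _) (cr_swap _ _) (cr_swap _ _) (cr_swap _ _) (cr_swap _ _)
    (cr_swap _ _) (cr_swap _ _)

theorem reach_step0 (i : Fin n) {r : ℕ} (hm : r + 1 < m) :
    Reach (b := b) (m := m) (.inl i) (Rw i r r) (Rw i (r + 2) (r + 2)) := by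
  set a : Fin m := ⟨r, by omega⟩ with ha
  set c : Fin m := ⟨r + 1, hm⟩ with hc
  have hac : a ≠ c := by simp [ha, hc]
  obtain ⟨c1, hc1, h1⟩ := cr_cr_ins (k := (Idx.y i, a)) (l := (Idx.x i, c))
    (S := (Rw i r r : Finset (Idx n b × Fin m)))
    (T := insert (Idx.y i, a) (insert (Idx.x i, c) (Rw i r r)))
    (by rw [mem_Rw_y]; simp [ha]) (by rw [mem_Rw_x]; simp [hc]) (by simp) rfl
  obtain ⟨c2, hc2, h2⟩ := cr_cr_ins (k := (Idx.x i, a)) (l := (Idx.y i, c))
    (S := insert (Idx.y i, a) (insert (Idx.x i, c) (Rw i r r : Finset (Idx n b × Fin m))))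
    (T := Rw i (r + 2) (r + 2))
    (by
      rw [Finset.mem_insert, Finset.mem_insert, mem_Rw_x]
      simp [ha, hc])
    (by
      rw [Finset.mem_insert, Finset.mem_insert, mem_Rw_y]
      simp [ha, hc]) (by simp)
    (by
      ext ⟨j, e⟩
      simp only [Rw, Finset.mem_filter, Finset.mem_univ, true_and, Finset.mem_insert,
        Prod.mk.injEq, ha, hc, Fin.ext_iff]
      constructor
      · rintro (⟨h, h'⟩ | ⟨h, h'⟩)
        · by_cases h2 : (e : ℕ) = r
          · left; exact ⟨h, h2⟩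
          · by_cases h3 : (e : ℕ) = r + 1
            · right; right; right; left; exact ⟨h, h3⟩
            · right; right; right; right; left; exact ⟨h, by omega⟩
        · by_cases h2 : (e : ℕ) = r
          · right; right; left; exact ⟨h, h2⟩
          · by_cases h3 : (e : ℕ) = r + 1
            · right; left; exact ⟨h, h3⟩
            · right; right; right; right; right; exact ⟨h, by omega⟩
      · rintro (⟨h, h'⟩ | ⟨h, h'⟩ | ⟨h, h'⟩ | ⟨h, h'⟩ | ⟨h, h'⟩ | ⟨h, h'⟩)
        · left; exact ⟨h, by omega⟩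
        · right; exact ⟨h, by omega⟩
        · right; exact ⟨h, by omega⟩
        · left; exact ⟨h, by omega⟩
        · left; exact ⟨h, by omega⟩
        · right; exact ⟨h, by omega⟩)
  refine ⟨[(a, c), (a, c)], (starRingEnd ℂ) (2 * (c1 * c2)), by simpa using ⟨hc1, hc2⟩,
    fun x => ?_⟩
  rw [List.map_cons, List.map_singleton, List.prod_cons, List.prod_singleton,
    Module.End.mul_apply, Qb_adj_plane', Qb_adj_plane', ← Module.End.mul_apply, sq_RR,
    LinearMap.smul_apply, Module.End.mul_apply, Module.End.mul_apply, Module.End.mul_apply,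
    h1, map_smul, map_smul, h2, smul_smul, smul_smul, inner_smul_left]
  congr 2
  ring

theorem reach_plane0 (i : Fin n) (r : ℕ) : ∀ j : ℕ, r + 2 * j ≤ m →
    Reach (b := b) (m := m) (.inl i) (Rw i r r) (Rw i (r + 2 * j) (r + 2 * j)) := by
  intro j
  induction j with
  | zero => intro _; exact Reach.refl _ _
  | succ j ih =>
    intro hm
    refine (ih (by omega)).trans ?_
    have h := reach_step0 (b := b) i (r := r + 2 * j) (m := m) (by omega)
    rwa [show r + 2 * (j + 1) = r + 2 * j + 2 by ring]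

theorem reach_stepz (k : Fin b) {r : ℕ} (hm : r + 1 < m) :
    Reach (n := n) (m := m) (.inr k) (Zw k r) (Zw k (r + 2)) := by
  set a : Fin m := ⟨r, by omega⟩ with ha
  set c : Fin m := ⟨r + 1, hm⟩ with hc
  obtain ⟨c1, hc1, h1⟩ := cr_cr_ins (k := (Idx.z k, a)) (l := (Idx.z k, c))
    (S := (Zw k r : Finset (Idx n b × Fin m))) (T := Zw k (r + 2))
    (by rw [mem_Zw]; simp [ha]) (by rw [mem_Zw]; simp [hc]) (by simp [ha, hc])
    (by
      ext ⟨j, e⟩
      simp only [Zw, Finset.mem_filter, Finset.mem_univ, true_and, Finset.mem_insert,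
        Prod.mk.injEq, ha, hc, Fin.ext_iff]
      constructor
      · rintro ⟨h, h'⟩
        by_cases h2 : (e : ℕ) = r
        · left; exact ⟨h, h2⟩
        · by_cases h3 : (e : ℕ) = r + 1
          · right; left; exact ⟨h, h3⟩
          · right; right; exact ⟨h, by omega⟩
      · rintro (⟨h, h'⟩ | ⟨h, h'⟩ | ⟨h, h'⟩)
        · exact ⟨h, by omega⟩
        · exact ⟨h, by omega⟩
        · exact ⟨h, by omega⟩)
  refine ⟨[(a, c)], (starRingEnd ℂ) c1, by simpa using hc1, fun x => ?_⟩
  rw [List.map_singleton, List.prod_singleton, Qb_adj_z, h1, inner_smul_left]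

theorem reach_z (k : Fin b) (r : ℕ) : ∀ j : ℕ, r + 2 * j ≤ m →
    Reach (n := n) (m := m) (.inr k) (Zw k r) (Zw k (r + 2 * j)) := by
  intro j
  induction j with
  | zero => intro _; exact Reach.refl _ _
  | succ j ih =>
    intro hm
    refine (ih (by omega)).trans ?_
    have h := reach_stepz (n := n) k (r := r + 2 * j) (m := m) (by omega)
    rwa [show r + 2 * (j + 1) = r + 2 * j + 2 by ring]

/-- lowering on the right -/
theorem right_reach (i : Fin n) {s q : ℕ} (hsq : q ≤ s) : ∀ j : ℕ, s + 2 * j ≤ m →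
    ∃ (l : List (Fin m × Fin m)) (c : ℂ), c ≠ 0 ∧
      (l.map (Qb (n := n) (b := b) (.inl i))).prod
        ((Eo i ^ j : Module.End ℂ (Fock (Idx n b × Fin m))) (ee (Rw i (s + 2 * j) q))) =
        c • ee (Rw i s q) := by
  intro j
  induction j with
  | zero => intro _; exact ⟨[], 1, one_ne_zero, by simp⟩
  | succ j ih =>
    intro hm
    obtain ⟨l, c0, hc0, hl⟩ := ih (by omega)
    set a : Fin m := ⟨s + 2 * j, by omega⟩ with ha
    set c : Fin m := ⟨s + 2 * j + 1, by omega⟩ with hc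
    obtain ⟨c1, hc1, h1⟩ := an_an_del (k := (Idx.x i, c)) (l := (Idx.x i, a))
      (S := (Rw i (s + 2 * (j + 1)) q : Finset (Idx n b × Fin m)))
      (T := (Rw i (s + 2 * j) q : Finset (Idx n b × Fin m)))
      (by rw [mem_Rw_x]; simp only [hc]; omega) (by rw [mem_Rw_x]; simp only [ha]; omega)
      (by simp [ha, hc])
      (by
        ext ⟨j', e⟩
        simp only [Rw, Finset.mem_filter, Finset.mem_univ, true_and, Finset.mem_erase, ne_eq,
          Prod.mk.injEq, ha, hc, Fin.ext_iff]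
        constructor
        · rintro (⟨h, h'⟩ | ⟨h, h'⟩)
          · exact ⟨fun h2 => by omega, fun h2 => by omega, Or.inl ⟨h, by omega⟩⟩
          · exact ⟨fun h2 => by rw [h] at h2; simp at h2, fun h2 => by rw [h] at h2; simp at h2,
              Or.inr ⟨h, h'⟩⟩
        · rintro ⟨h2, h3, (⟨h, h'⟩ | ⟨h, h'⟩)⟩
          · refine Or.inl ⟨h, ?_⟩
            have h4 : (e : ℕ) ≠ s + 2 * j + 1 := fun h5 => h2 ⟨h, h5⟩
            have h5 : (e : ℕ) ≠ s + 2 * j := fun h5 => h3 ⟨h, h5⟩
            omega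
          · exact Or.inr ⟨h, h'⟩)
    refine ⟨l ++ [(a, c)], (2 * (j + 1) : ℂ) * c1 * c0, ?_, ?_⟩
    · refine mul_ne_zero (mul_ne_zero (mul_ne_zero two_ne_zero ?_) hc1) hc0
      exact_mod_cast Nat.succ_ne_zero j
    rw [List.map_append, List.prod_append, List.map_singleton, List.prod_singleton,
      Module.End.mul_apply, ← Module.End.mul_apply (Qb _ _), Qb_Eo_pow, LinearMap.add_apply,
      Module.End.mul_apply]
    have h2 : (Qb (.inl i) (a, c) : Module.End ℂ (Fock (Idx n b × Fin m)))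
        (ee (Rw i (s + 2 * (j + 1)) q)) = 0 := by
      simp only [Qb, LinearMap.add_apply, Module.End.mul_apply]
      have h3 : an (Idx.y i, a) (ee (Rw i (s + 2 * (j + 1)) q : Finset (Idx n b × Fin m))) = 0 :=
        an_notMem (by rw [mem_Rw_y]; simp only [ha]; omega)
      have h4 : an (Idx.y i, c) (ee (Rw i (s + 2 * (j + 1)) q : Finset (Idx n b × Fin m))) = 0 :=
        an_notMem (by rw [mem_Rw_y]; simp only [hc]; omega)
      have h5 := LinearMap.congr_fun (an_swap (Idx.y i, c) (Idx.x i, a))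
        (ee (Rw i (s + 2 * (j + 1)) q : Finset (Idx n b × Fin m)))
      simp only [Module.End.mul_apply, LinearMap.neg_apply] at h5
      rw [h5, h3, h4]
      simp
    rw [h2, map_zero, zero_add, LinearMap.smul_apply, Module.End.mul_apply, Po,
      Module.End.mul_apply, h1, map_smul, map_smul, map_smul, hl, smul_smul, smul_smul]

end

end Kost.SoE
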