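import Pool.Agent.Kost.Spin

/-!
# Module A1 (MP_869ec4): the two Clifford maps on Fock space

PROOF. With `b' a = st (b a)`: `L X = ∑ form X (b' a) • cr a + form X (b a) • an a`,
`R X = i (∑ form X (b' a) • cr a - form X (b a) • an a)`; CAR relations `cr_cr`, `an_an`, `an_cr`.
`L X * L Y + L Y * L X = ∑_a (form X (b' a) form Y (b a) + form X (b a) form Y (b' a))`, and both
sums are `form X Y` by `expand` (insert `Y = ∑ form Y (b' a) • b a` resp. `X = ..`).
The cross terms for `L, R` cancel. Adjoints: `inner_cr`, `inner_an`, `form_st`, `st_st`.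
-/

open Module

namespace Kost

noncomputable section

namespace QD

variable {𝔤 : Type*} [LieRing 𝔤] [LieAlgebra ℂ 𝔤] {K : Type*} [Fintype K] [DecidableEq K]
  (D : QD 𝔤 K)

theorem eps_apply (X : 𝔤) : D.eps X = ∑ a, D.form X (D.st (D.b a)) • cr a := rfl

theorem iot_apply (X : 𝔤) : D.iot X = ∑ a, D.form X (D.b a) • an a := rfl

theorem L_apply (X : 𝔤) : D.L X = D.eps X + D.iot X := rfl

theorem R_apply (X : 𝔤) : D.R X = Complex.I • (D.eps X - D.iot X) := rfl

theorem eps_eps (X Y : 𝔤) : D.eps X * D.eps Y + D.eps Y * D.eps X = 0 := by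
  rw [eps_apply, eps_apply, Finset.sum_mul_sum, Finset.sum_mul_sum]
  rw [Finset.sum_comm (f := fun i j => (D.form Y (D.st (D.b i)) • cr i) *
    (D.form X (D.st (D.b j)) • cr j))]
  rw [← Finset.sum_add_distrib]
  refine Finset.sum_eq_zero fun a _ => ?_
  rw [← Finset.sum_add_distrib]
  refine Finset.sum_eq_zero fun c _ => ?_
  rw [smul_mul_smul_comm, smul_mul_smul_comm, mul_comm (D.form Y _), ← smul_add, cr_cr, smul_zero]

theorem iot_iot (X Y : 𝔤) : D.iot X * D.iot Y + D.iot Y * D.iot X = 0 := by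
  rw [iot_apply, iot_apply, Finset.sum_mul_sum, Finset.sum_mul_sum]
  rw [Finset.sum_comm (f := fun i j => (D.form Y (D.b i) • an i) * (D.form X (D.b j) • an j))]
  rw [← Finset.sum_add_distrib]
  refine Finset.sum_eq_zero fun a _ => ?_
  rw [← Finset.sum_add_distrib]
  refine Finset.sum_eq_zero fun c _ => ?_
  rw [smul_mul_smul_comm, smul_mul_smul_comm, mul_comm (D.form Y _), ← smul_add, an_an, smul_zero]

theorem form_expand (X Y : 𝔤) :
    D.form X Y = ∑ a, D.form X (D.b a) * D.form Y (D.st (D.b a)) := by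
  conv_lhs => rw [D.expand Y]
  rw [map_sum]
  refine Finset.sum_congr rfl fun a _ => ?_
  rw [map_smul, smul_eq_mul, mul_comm]

theorem iot_eps (X Y : 𝔤) : D.iot X * D.eps Y + D.eps Y * D.iot X =
    D.form X Y • (1 : Module.End ℂ (Fock K)) := by
  rw [eps_apply, iot_apply, Finset.sum_mul_sum, Finset.sum_mul_sum]
  rw [Finset.sum_comm (f := fun i j => (D.form Y (D.st (D.b i)) • cr i) *
    (D.form X (D.b j) • an j))]
  rw [← Finset.sum_add_distrib, form_expand, Finset.sum_smul]
  refine Finset.sum_congr rfl fun a _ => ?_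
  rw [← Finset.sum_add_distrib, Finset.sum_eq_single a]
  · rw [smul_mul_smul_comm, smul_mul_smul_comm, mul_comm (D.form Y _), ← smul_add, an_cr,
      if_pos rfl]
  · intro c _ hc
    rw [smul_mul_smul_comm, smul_mul_smul_comm, mul_comm (D.form Y _), ← smul_add, an_cr,
      if_neg hc.symm, smul_zero]
  · intro h
    exact absurd (Finset.mem_univ _) h

theorem isCliff_L : D.IsCliff D.L := by
  intro X Y
  have h1 := D.eps_eps X Y
  have h2 := D.iot_iot X Y
  have h3 := D.iot_eps X Y
  have h4 := D.iot_eps Y X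
  rw [D.form_symm Y X] at h4
  rw [L_apply, L_apply, two_mul, add_smul]
  calc (D.eps X + D.iot X) * (D.eps Y + D.iot Y) + (D.eps Y + D.iot Y) * (D.eps X + D.iot X)
      = (D.eps X * D.eps Y + D.eps Y * D.eps X) + (D.iot X * D.iot Y + D.iot Y * D.iot X) +
        ((D.iot X * D.eps Y + D.eps Y * D.iot X) + (D.iot Y * D.eps X + D.eps X * D.iot Y)) := by
        noncomm_ring
    _ = _ := by rw [h1, h2, h3, h4]; abel

theorem isCliff_R : D.IsCliff D.R := by
  intro X Y
  have h1 := D.eps_eps X Y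
  have h2 := D.iot_iot X Y
  have h3 := D.iot_eps X Y
  have h4 := D.iot_eps Y X
  rw [D.form_symm Y X] at h4
  rw [R_apply, R_apply, smul_mul_smul_comm, smul_mul_smul_comm, Complex.I_mul_I, ← smul_add,
    two_mul, add_smul]
  have h5 : (D.eps X - D.iot X) * (D.eps Y - D.iot Y) + (D.eps Y - D.iot Y) * (D.eps X - D.iot X)
      = (D.eps X * D.eps Y + D.eps Y * D.eps X) + (D.iot X * D.iot Y + D.iot Y * D.iot X) -
        ((D.iot X * D.eps Y + D.eps Y * D.iot X) + (D.iot Y * D.eps X + D.eps X * D.iot Y)) := by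
        noncomm_ring
  rw [h5, h1, h2, h3, h4, neg_smul, one_smul]
  abel

theorem L_R_anti (X Y : 𝔤) : D.L X * D.R Y + D.R Y * D.L X = 0 := by
  have h1 := D.eps_eps X Y
  have h2 := D.iot_iot X Y
  have h3 := D.iot_eps X Y
  have h4 := D.iot_eps Y X
  rw [D.form_symm Y X] at h4
  rw [R_apply, L_apply, mul_smul_comm, smul_mul_assoc, ← smul_add]
  have h5 : (D.eps X + D.iot X) * (D.eps Y - D.iot Y) + (D.eps Y - D.iot Y) * (D.eps X + D.iot X)
      = (D.eps X * D.eps Y + D.eps Y * D.eps X) - (D.iot X * D.iot Y + D.iot Y * D.iot X) +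
        ((D.iot X * D.eps Y + D.eps Y * D.iot X) - (D.iot Y * D.eps X + D.eps X * D.iot Y)) := by
        noncomm_ring
  rw [h5, h1, h2, h3, h4, sub_self, sub_self, add_zero, smul_zero]

theorem inner_eps (X : 𝔤) (u v : Fock K) :
    inner ℂ (D.eps X u) v = inner ℂ u (D.iot (D.st X) v) := by
  rw [eps_apply, iot_apply, LinearMap.sum_apply, LinearMap.sum_apply, sum_inner, inner_sum]
  refine Finset.sum_congr rfl fun a _ => ?_
  rw [LinearMap.smul_apply, LinearMap.smul_apply, inner_smul_left, inner_smul_right, inner_cr,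
    ← D.form_st, D.st_st]

theorem inner_iot (X : 𝔤) (u v : Fock K) :
    inner ℂ (D.iot X u) v = inner ℂ u (D.eps (D.st X) v) := by
  rw [eps_apply, iot_apply, LinearMap.sum_apply, LinearMap.sum_apply, sum_inner, inner_sum]
  refine Finset.sum_congr rfl fun a _ => ?_
  rw [LinearMap.smul_apply, LinearMap.smul_apply, inner_smul_left, inner_smul_right, inner_an,
    ← D.form_st]

theorem inner_L (X : 𝔤) (u v : Fock K) :
    inner ℂ (D.L X u) v = inner ℂ u (D.L (D.st X) v) := by
  rw [L_apply, L_apply, LinearMap.add_apply, LinearMap.add_apply, inner_add_left,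
    inner_add_right, inner_eps, inner_iot, add_comm]

theorem inner_R (X : 𝔤) (u v : Fock K) :
    inner ℂ (D.R X u) v = inner ℂ u (D.R (D.st X) v) := by
  rw [R_apply, R_apply, LinearMap.smul_apply, LinearMap.smul_apply, LinearMap.sub_apply,
    LinearMap.sub_apply, inner_smul_left, inner_smul_right, inner_sub_left, inner_sub_right,
    inner_eps, inner_iot, Complex.conj_I]
  ring

theorem eps_eq (X : 𝔤) : D.eps X = (1 / 2 : ℂ) • (D.L X - Complex.I • D.R X) := by
  rw [R_apply, L_apply, smul_smul, Complex.I_mul_I, neg_smul, one_smul]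
  module

theorem iot_eq (X : 𝔤) : D.iot X = (1 / 2 : ℂ) • (D.L X + Complex.I • D.R X) := by
  rw [R_apply, L_apply, smul_smul, Complex.I_mul_I, neg_smul, one_smul]
  module

theorem eps_b (a : K) : D.eps (D.b a) = cr a := by
  rw [eps_apply, Finset.sum_eq_single a]
  · rw [D.orth, if_pos rfl, one_smul]
  · intro c _ hc
    rw [D.orth, if_neg hc.symm, zero_smul]
  · intro h
    exact absurd (Finset.mem_univ _) h

theorem iot_st_b (a : K) : D.iot (D.st (D.b a)) = an a := by
  rw [iot_apply, Finset.sum_eq_single a]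
  · rw [D.form_symm, D.orth, if_pos rfl, one_smul]
  · intro c _ hc
    rw [D.form_symm, D.orth, if_neg hc, zero_smul]
  · intro h
    exact absurd (Finset.mem_univ _) h

end QD

end

end Kost
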