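import Pool.Agent.Kost.Spin

/-!
# Module A2 (MP_869ec4): spin action of a Clifford map (pure algebra)

Let `C : 𝔤 → 𝓐` be linear with `C X C Y + C Y C X = 2 form X Y`, `b' a = st (b a)` (dual basis of
`b` with respect to `form`: `X = ∑ form X (b' a) b a = ∑ form X (b a) b' a`, the second from the
first by applying `st`), `gam X = 1/4 ∑ C[X, b a] C(b' a)`.

(1) `[u v, y] = u (v y + y v) - (u y + y u) v`, so
`[gam X, C Y] = 1/4 ∑ (2 form (b' a) Y C[X, b a] - 2 form [X, b a] Y C(b' a)) = C [X, Y]`, because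
`∑ form (b' a) Y [X, b a] = [X, Y]` and `∑ form [X, b a] Y b' a = -∑ form (b a) [X, Y] b' a =
-[X, Y]`.

(2) invariance of the dual bases: `∑ [Y, b a] ⊗ b' a = -∑ b a ⊗ [Y, b' a]` (apply `B(.,.)` for any
bilinear map `B`; proof: expand `[Y, b a] = ∑_c form [Y, b a] (b' c) b c` and
`[Y, b' a] = ∑_c form [Y, b' a] (b c) b' c`, and `form [Y, b a] (b' c) = -form (b a) [Y, b' c]`).
`[gam X, gam Y] = 1/4 ∑ (C[X,[Y, b a]] C(b' a) + C[Y, b a] C[X, b' a])` by (1); by (2) (applied with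
`X` and the bilinear map `(u, v) ↦ C[Y, u] C v`) the second sum is `-∑ C[Y,[X, b a]] C(b' a)`;
Jacobi gives `gam [X, Y]`.

(3) Casimir `cas = ∑ gam (b a) gam (b' a)`.  Put `K(Y) = ∑ gam (b a) C[b' a, Y]` and
`Z(Y) = ∑ [b a, [b' a, Y]]`.  By (1):
`[cas, C Y] = ∑ (gam (b a) C[b' a, Y] + C[b a, Y] gam (b' a))`, and the second sum equals
`∑ C[b' a, Y] gam (b a)` (symmetry of the dual bases, same trick as (2): both are
`∑ form (b' a) (b' c).. `) `= ∑ (gam (b a) C[b' a, Y] - C[b a, [b' a, Y]]) = K(Y) - C Z(Y)`. So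
`[cas, C Y] = 2 K(Y) - C Z(Y)` and one has to show `K(Y) = 1/2 C Z(Y)`.
Expanding everything (`b_a = b a`, `b'_a = b' a`, `C_a = C (b a)`):
`K(Y) = 1/4 ∑_{c,a,d} θ(c,a,d) C_c C_a C_d`, `θ(c,a,d) = form [b'_c, b'_a] [b'_d, Y]`.
(`4 K = ∑_{a,e} C[b_e, b_a] C(b'_a) C[b'_e, Y]`; write `[b_e, b_a] = ∑_c form [b_e, b_a] b'_c b_c`,
`b'_a` in the basis `b`, `[b'_e, Y] = ∑_d form [b'_e, Y] b'_d b_d` and sum over `e`.)
`θ` is antisymmetric in `(c, a)` and by Jacobi `θ(c,a,d) + θ(a,d,c) + θ(d,c,a) = 0`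
(`θ(c,a,d) = form [[b'_c, b'_a], b'_d] Y`).  Let `X1 = ∑ θ(c,a,d) C_c C_a C_d`,
`X2 = ∑ θ(c,a,d) C_d C_c C_a`, `X3 = ∑ θ(c,a,d) C_a C_d C_c`; Jacobi says `X1 + X2 + X3 = 0`
(rename the summation indices).  Moving with the Clifford relation
`C_d C_c C_a = C_c C_a C_d + 2 form b_d b_c C_a - 2 form b_d b_a C_c`,
`C_a C_d C_c = C_c C_a C_d + 2 form b_d b_c C_a - 2 form b_a b_c C_d`; with
`W = ∑ θ(c,a,d) form b_d b_c C_a` antisymmetry gives `X2 = X1 + 4 W`, `X3 = X1 + 2 W`, so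
`X1 = -2 W`.  Finally `W = ∑_{a, c} form [b'_c, b'_a] [b_c, Y] C_a` (sum over `d`)
`= -∑_a form (b'_a) Z(Y) C_a = - C Z(Y)` (up to the symmetry `b ↔ b'` of the dual bases). So
`K(Y) = X1 / 4 = 1/2 C Z(Y)`.  QED
-/

open Module

namespace Kost

noncomputable section

namespace QD

variable {𝔤 : Type*} [LieRing 𝔤] [LieAlgebra ℂ 𝔤] {K : Type*} [Fintype K] [DecidableEq K]
  (D : QD 𝔤 K)

theorem st_zero : D.st 0 = 0 := by
  have h := D.st_smul 0 0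
  simpa using h

theorem st_sum {ι : Type*} (s : Finset ι) (f : ι → 𝔤) :
    D.st (∑ i ∈ s, f i) = ∑ i ∈ s, D.st (f i) := by
  classical
  induction s using Finset.induction_on with
  | empty => simp [D.st_zero]
  | insert a s ha ih => rw [Finset.sum_insert ha, Finset.sum_insert ha, D.st_add, ih]

/-- the second expansion -/
theorem expand' (X : 𝔤) : X = ∑ a, D.form X (D.b a) • D.st (D.b a) := by
  have h := congrArg D.st (D.expand (D.st X))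
  rw [D.st_st, D.st_sum] at h
  conv_lhs => rw [h]
  refine Finset.sum_congr rfl fun a _ => ?_
  rw [D.st_smul, D.form_st, Complex.conj_conj]

omit [LieAlgebra ℂ 𝔤] in
theorem lie_lie_skew (x y z : 𝔤) : ⁅⁅x, y⁆, z⁆ = ⁅z, ⁅y, x⁆⁆ := by
  rw [← lie_skew y x, lie_neg, lie_skew]

/-- invariance of the form -/
theorem form_lie (X Y Z : 𝔤) : D.form ⁅X, Y⁆ Z = - D.form ⁅X, Z⁆ Y := by
  rw [← lie_skew X Y, map_neg, LinearMap.neg_apply, D.form_inv, D.form_symm]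

/-- invariance of the dual bases -/
theorem dual_inv {M : Type*} [AddCommGroup M] [Module ℂ M] (B : 𝔤 →ₗ[ℂ] 𝔤 →ₗ[ℂ] M) (Y : 𝔤) :
    ∑ a, B ⁅Y, D.b a⁆ (D.st (D.b a)) = - ∑ a, B (D.b a) ⁅Y, D.st (D.b a)⁆ := by
  have h1 : ∀ a, B ⁅Y, D.b a⁆ (D.st (D.b a)) =
      ∑ c, D.form ⁅Y, D.b a⁆ (D.st (D.b c)) • B (D.b c) (D.st (D.b a)) := by
    intro a
    conv_lhs => rw [D.expand ⁅Y, D.b a⁆]
    simp only [map_sum, map_smul, LinearMap.sum_apply, LinearMap.smul_apply]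
  have h2 : ∀ a, B (D.b a) ⁅Y, D.st (D.b a)⁆ =
      ∑ c, D.form ⁅Y, D.st (D.b a)⁆ (D.b c) • B (D.b a) (D.st (D.b c)) := by
    intro a
    conv_lhs => rw [D.expand' ⁅Y, D.st (D.b a)⁆]
    simp only [map_sum, map_smul]
  simp only [h1, h2]
  rw [Finset.sum_comm, ← Finset.sum_neg_distrib]
  refine Finset.sum_congr rfl fun c _ => ?_
  rw [← Finset.sum_neg_distrib]
  refine Finset.sum_congr rfl fun a _ => ?_
  rw [D.form_lie, neg_smul]

/-- symmetry of the dual bases -/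
theorem dual_symm {M : Type*} [AddCommGroup M] [Module ℂ M] (B : 𝔤 →ₗ[ℂ] 𝔤 →ₗ[ℂ] M) :
    ∑ a, B (D.b a) (D.st (D.b a)) = ∑ a, B (D.st (D.b a)) (D.b a) := by
  have h1 : ∀ a, B (D.b a) (D.st (D.b a)) =
      ∑ c, D.form (D.b a) (D.b c) • B (D.st (D.b c)) (D.st (D.b a)) := by
    intro a
    conv_lhs => rw [show B (D.b a) = B (∑ c, D.form (D.b a) (D.b c) • D.st (D.b c)) from
      congrArg B (D.expand' (D.b a))]
    simp only [map_sum, map_smul, LinearMap.sum_apply, LinearMap.smul_apply]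
  have h2 : ∀ a, B (D.st (D.b a)) (D.b a) =
      ∑ c, D.form (D.b a) (D.b c) • B (D.st (D.b a)) (D.st (D.b c)) := by
    intro a
    conv_lhs => rw [D.expand' (D.b a)]
    simp only [map_sum, map_smul]
    refine Finset.sum_congr rfl fun c _ => ?_
    rw [← D.expand' (D.b a)]
  simp only [h1, h2]
  rw [Finset.sum_comm]
  refine Finset.sum_congr rfl fun c _ => Finset.sum_congr rfl fun a _ => ?_
  rw [D.form_symm]

variable {𝓐 : Type*} [Ring 𝓐] [Algebra ℂ 𝓐] {C : 𝔤 →ₗ[ℂ] 𝓐}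

theorem inv_mul (f g : 𝔤 →ₗ[ℂ] 𝓐) (Y : 𝔤) :
    ∑ a, f ⁅Y, D.b a⁆ * g (D.st (D.b a)) = - ∑ a, f (D.b a) * g ⁅Y, D.st (D.b a)⁆ :=
  D.dual_inv ((LinearMap.mul ℂ 𝓐).compl₁₂ f g) Y

theorem symm_mul (f g : 𝔤 →ₗ[ℂ] 𝓐) :
    ∑ a, f (D.b a) * g (D.st (D.b a)) = ∑ a, f (D.st (D.b a)) * g (D.b a) :=
  D.dual_symm ((LinearMap.mul ℂ 𝓐).compl₁₂ f g)

/-- `u ↦ C [Y, u]` -/
def Cad (C : 𝔤 →ₗ[ℂ] 𝓐) (Y : 𝔤) : 𝔤 →ₗ[ℂ] 𝓐 := C ∘ₗ (LieAlgebra.ad ℂ 𝔤 Y : 𝔤 →ₗ[ℂ] 𝔤)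

theorem Cad_apply (C : 𝔤 →ₗ[ℂ] 𝓐) (Y u : 𝔤) : Cad C Y u = C ⁅Y, u⁆ := rfl

theorem gam_apply (C : 𝔤 →ₗ[ℂ] 𝓐) (X : 𝔤) :
    D.gam C X = (1 / 4 : ℂ) • ∑ a, C ⁅X, D.b a⁆ * C (D.st (D.b a)) := rfl

theorem four_gam (C : 𝔤 →ₗ[ℂ] 𝓐) (X : 𝔤) :
    ∑ a, C ⁅X, D.b a⁆ * C (D.st (D.b a)) = (4 : ℂ) • D.gam C X := by
  rw [gam_apply, smul_smul]
  norm_num

theorem gam_C (hC : D.IsCliff C) (X Y : 𝔤) : D.gam C X * C Y - C Y * D.gam C X = C ⁅X, Y⁆ := by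
  have h1 : ∀ a, C ⁅X, D.b a⁆ * C (D.st (D.b a)) * C Y - C Y * (C ⁅X, D.b a⁆ * C (D.st (D.b a))) =
      (2 * D.form Y (D.st (D.b a))) • C ⁅X, D.b a⁆ + (2 * D.form ⁅X, Y⁆ (D.b a)) • C (D.st (D.b a)) := by
    intro a
    have e1 := hC (D.st (D.b a)) Y
    have e2 := hC ⁅X, D.b a⁆ Y
    rw [D.form_lie X (D.b a) Y] at e2
    rw [D.form_symm] at e1
    calc C ⁅X, D.b a⁆ * C (D.st (D.b a)) * C Y - C Y * (C ⁅X, D.b a⁆ * C (D.st (D.b a)))
        = C ⁅X, D.b a⁆ * (C (D.st (D.b a)) * C Y + C Y * C (D.st (D.b a))) -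
          (C ⁅X, D.b a⁆ * C Y + C Y * C ⁅X, D.b a⁆) * C (D.st (D.b a)) := by noncomm_ring
      _ = _ := by
        rw [e1, e2, mul_smul_comm, mul_one, smul_mul_assoc, one_mul]
        rw [mul_neg, neg_smul, sub_neg_eq_add]
  have h2 : D.gam C X * C Y - C Y * D.gam C X = (1 / 4 : ℂ) • ∑ a,
      (C ⁅X, D.b a⁆ * C (D.st (D.b a)) * C Y - C Y * (C ⁅X, D.b a⁆ * C (D.st (D.b a)))) := by
    rw [gam_apply, smul_mul_assoc, mul_smul_comm, ← smul_sub, Finset.sum_mul, Finset.mul_sum,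
      Finset.sum_sub_distrib]
  rw [h2, Finset.sum_congr rfl fun a _ => h1 a, Finset.sum_add_distrib]
  have h3 : ∑ a, (2 * D.form Y (D.st (D.b a))) • C ⁅X, D.b a⁆ = (2 : ℂ) • C ⁅X, Y⁆ := by
    conv_rhs => rw [D.expand Y]
    rw [lie_sum, map_sum, Finset.smul_sum]
    refine Finset.sum_congr rfl fun a _ => ?_
    rw [lie_smul, map_smul, smul_smul]
  have h4 : ∑ a, (2 * D.form ⁅X, Y⁆ (D.b a)) • C (D.st (D.b a)) = (2 : ℂ) • C ⁅X, Y⁆ := by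
    have h5 := congrArg C (D.expand' ⁅X, Y⁆)
    rw [h5, map_sum, Finset.smul_sum]
    refine Finset.sum_congr rfl fun a _ => ?_
    rw [map_smul, smul_smul]
  rw [h3, h4, ← add_smul, smul_smul]
  norm_num

theorem gam_gam (hC : D.IsCliff C) (X Y : 𝔤) :
    D.gam C X * D.gam C Y - D.gam C Y * D.gam C X = D.gam C ⁅X, Y⁆ := by
  have h1 : ∀ a, D.gam C X * (C ⁅Y, D.b a⁆ * C (D.st (D.b a))) -
      C ⁅Y, D.b a⁆ * C (D.st (D.b a)) * D.gam C X =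
      C ⁅X, ⁅Y, D.b a⁆⁆ * C (D.st (D.b a)) + C ⁅Y, D.b a⁆ * C ⁅X, D.st (D.b a)⁆ := by
    intro a
    rw [← D.gam_C hC X ⁅Y, D.b a⁆, ← D.gam_C hC X (D.st (D.b a))]
    noncomm_ring
  have h2 : D.gam C X * D.gam C Y - D.gam C Y * D.gam C X = (1 / 4 : ℂ) • ∑ a,
      (D.gam C X * (C ⁅Y, D.b a⁆ * C (D.st (D.b a))) -
        C ⁅Y, D.b a⁆ * C (D.st (D.b a)) * D.gam C X) := by
    rw [D.gam_apply C Y, smul_mul_assoc, mul_smul_comm, ← smul_sub, Finset.sum_mul, Finset.mul_sum,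
      Finset.sum_sub_distrib]
  rw [h2, Finset.sum_congr rfl fun a _ => h1 a, Finset.sum_add_distrib]
  have h3 := D.inv_mul (Cad C Y) C X
  simp only [Cad_apply] at h3
  have h4 : ∑ a, C ⁅Y, D.b a⁆ * C ⁅X, D.st (D.b a)⁆ =
      - ∑ a, C ⁅Y, ⁅X, D.b a⁆⁆ * C (D.st (D.b a)) := by
    rw [h3, neg_neg]
  rw [h4, gam_apply, ← sub_eq_add_neg, ← Finset.sum_sub_distrib]
  congr 1
  refine Finset.sum_congr rfl fun a _ => ?_
  rw [← sub_mul, ← map_sub, lie_lie]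

theorem sum_C_lie (C : 𝔤 →ₗ[ℂ] 𝓐) (w : 𝔤) :
    ∑ a, C (D.b a) * C ⁅D.st (D.b a), w⁆ = (4 : ℂ) • D.gam C w := by
  rw [← D.four_gam, D.inv_mul C C w, ← Finset.sum_neg_distrib]
  refine Finset.sum_congr rfl fun a _ => ?_
  rw [← lie_skew, map_neg, mul_neg]

theorem cas_C (hC : D.IsCliff C) (Y : 𝔤) : D.cas C * C Y = C Y * D.cas C := by
  set G := D.gam C with hG
  set Kk : 𝓐 := ∑ e, G (D.b e) * C ⁅D.st (D.b e), Y⁆ with hKk
  set P : 𝓐 := ∑ e, C (D.b e) * G ⁅D.st (D.b e), Y⁆ with hP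
  set Z : 𝓐 := ∑ e, C ⁅D.b e, ⁅D.st (D.b e), Y⁆⁆ with hZ
  have hGC : ∀ X W, G X * C W - C W * G X = C ⁅X, W⁆ := D.gam_C hC
  -- `∑ C [b' e, Y] G (b e) = K - Z`
  have hCG : ∑ e, C ⁅D.st (D.b e), Y⁆ * G (D.b e) = Kk - Z := by
    rw [hKk, hZ, ← Finset.sum_sub_distrib]
    refine Finset.sum_congr rfl fun e _ => ?_
    rw [← hGC (D.b e) ⁅D.st (D.b e), Y⁆]; abel
  -- `P = - K + Z`
  have hPK : P = Z - Kk := by
    have h1 := D.inv_mul C G Y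
    have h2 := D.symm_mul (Cad C Y) G
    simp only [Cad_apply] at h2
    have h3 : P = ∑ e, C ⁅Y, D.b e⁆ * G (D.st (D.b e)) := by
      rw [h1, hP, ← Finset.sum_neg_distrib]
      refine Finset.sum_congr rfl fun e _ => ?_
      rw [← lie_skew, map_neg, mul_neg]
    rw [h3, h2, ← neg_sub, ← hCG, ← Finset.sum_neg_distrib]
    refine Finset.sum_congr rfl fun e _ => ?_
    rw [← lie_skew, map_neg, neg_mul]
  -- the cubic expression
  set X1 : 𝓐 := ∑ e, ∑ a, C (D.b e) * C (D.b a) * C ⁅⁅D.st (D.b a), D.st (D.b e)⁆, Y⁆ with hX1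
  have h4K : (4 : ℂ) • Kk = X1 := by
    have h1 : (4 : ℂ) • Kk = ∑ a, ∑ e, C ⁅D.b e, D.b a⁆ * (C (D.st (D.b a)) *
        C ⁅D.st (D.b e), Y⁆) := by
      rw [Finset.sum_comm, hKk, Finset.smul_sum]
      refine Finset.sum_congr rfl fun e _ => ?_
      rw [← smul_mul_assoc, hG, ← D.four_gam, Finset.sum_mul]
      refine Finset.sum_congr rfl fun a _ => ?_
      rw [mul_assoc]
    have h2 : ∀ a, ∑ e, C ⁅D.b e, D.b a⁆ * (C (D.st (D.b a)) * C ⁅D.st (D.b e), Y⁆) =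
        ∑ e, C (D.b e) * (C (D.st (D.b a)) * C ⁅⁅D.b a, D.st (D.b e)⁆, Y⁆) := by
      intro a
      have h3 := D.inv_mul C ((LinearMap.mulLeft ℂ (C (D.st (D.b a)))) ∘ₗ Cad C Y) (D.b a)
      simp only [LinearMap.comp_apply, LinearMap.mulLeft_apply, Cad_apply] at h3
      calc ∑ e, C ⁅D.b e, D.b a⁆ * (C (D.st (D.b a)) * C ⁅D.st (D.b e), Y⁆)
          = ∑ e, C ⁅D.b a, D.b e⁆ * (C (D.st (D.b a)) * C ⁅Y, D.st (D.b e)⁆) := by
            refine Finset.sum_congr rfl fun e _ => ?_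
            rw [← lie_skew (D.b e) (D.b a), ← lie_skew (D.st (D.b e)) Y, map_neg, map_neg]
            noncomm_ring
        _ = _ := by
            rw [h3, ← Finset.sum_neg_distrib]
            refine Finset.sum_congr rfl fun e _ => ?_
            rw [← lie_skew Y, map_neg]
            noncomm_ring
    rw [h1, Finset.sum_congr rfl fun a _ => h2 a, Finset.sum_comm, hX1]
    refine Finset.sum_congr rfl fun e _ => ?_
    have h3 := D.symm_mul ((LinearMap.mulLeft ℂ (C (D.b e))) ∘ₗ C)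
      (Cad (Cad C Y) (D.st (D.b e)))
    simp only [LinearMap.comp_apply, LinearMap.mulLeft_apply, Cad_apply] at h3
    calc ∑ a, C (D.b e) * (C (D.st (D.b a)) * C ⁅⁅D.b a, D.st (D.b e)⁆, Y⁆)
        = ∑ a, C (D.b e) * C (D.st (D.b a)) * C ⁅Y, ⁅D.st (D.b e), D.b a⁆⁆ := by
          refine Finset.sum_congr rfl fun a _ => ?_
          rw [lie_lie_skew, mul_assoc]
      _ = _ := by
          rw [← h3]
          refine Finset.sum_congr rfl fun a _ => ?_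
          rw [lie_lie_skew]
  have hX1' : X1 = (8 : ℂ) • P - (2 : ℂ) • Z := by
    have h1 : X1 = ∑ e, ∑ a, C (D.b e) * C (D.b a) * C ⁅D.st (D.b a), ⁅D.st (D.b e), Y⁆⁆ -
        ∑ a, ∑ e, C (D.b e) * C (D.b a) * C ⁅D.st (D.b e), ⁅D.st (D.b a), Y⁆⁆ := by
      rw [Finset.sum_comm (s := (Finset.univ : Finset K)) (t := (Finset.univ : Finset K))
        (f := fun a e => C (D.b e) * C (D.b a) * C ⁅D.st (D.b e), ⁅D.st (D.b a), Y⁆⁆),
        hX1, ← Finset.sum_sub_distrib]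
      refine Finset.sum_congr rfl fun e _ => ?_
      rw [← Finset.sum_sub_distrib]
      refine Finset.sum_congr rfl fun a _ => ?_
      rw [lie_lie, map_sub, mul_sub]
    have h2 : ∑ e, ∑ a, C (D.b e) * C (D.b a) * C ⁅D.st (D.b a), ⁅D.st (D.b e), Y⁆⁆ =
        (4 : ℂ) • P := by
      rw [hP, Finset.smul_sum]
      refine Finset.sum_congr rfl fun e _ => ?_
      rw [← mul_smul_comm, hG, ← D.sum_C_lie, Finset.mul_sum]
      refine Finset.sum_congr rfl fun a _ => ?_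
      rw [mul_assoc]
    have h3 : ∑ a, ∑ e, C (D.b e) * C (D.b a) * C ⁅D.st (D.b e), ⁅D.st (D.b a), Y⁆⁆ =
        (2 : ℂ) • Z - (4 : ℂ) • P := by
      rw [hP, hZ, Finset.smul_sum, Finset.smul_sum, ← Finset.sum_sub_distrib]
      refine Finset.sum_congr rfl fun a _ => ?_
      have h4 : ∀ e, C (D.b e) * C (D.b a) * C ⁅D.st (D.b e), ⁅D.st (D.b a), Y⁆⁆ =
          (2 * D.form (D.b a) (D.b e)) • C ⁅D.st (D.b e), ⁅D.st (D.b a), Y⁆⁆ -
            C (D.b a) * (C (D.b e) * C ⁅D.st (D.b e), ⁅D.st (D.b a), Y⁆⁆) := by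
        intro e
        have h5 := hC (D.b a) (D.b e)
        have h6 : C (D.b e) * C (D.b a) = (2 * D.form (D.b a) (D.b e)) • (1 : 𝓐) -
            C (D.b a) * C (D.b e) := by rw [← h5]; abel
        rw [h6, sub_mul, smul_mul_assoc, one_mul, mul_assoc]
      rw [Finset.sum_congr rfl fun e _ => h4 e, Finset.sum_sub_distrib]
      congr 1
      · have h7 : C ⁅D.b a, ⁅D.st (D.b a), Y⁆⁆ =
            C ⁅∑ e, D.form (D.b a) (D.b e) • D.st (D.b e), ⁅D.st (D.b a), Y⁆⁆ := by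
          rw [← D.expand' (D.b a)]
        rw [h7, sum_lie, map_sum, Finset.smul_sum]
        refine Finset.sum_congr rfl fun e _ => ?_
        rw [smul_lie, map_smul, smul_smul]
      · rw [← Finset.mul_sum, D.sum_C_lie, mul_smul_comm]
    rw [h1, h2, h3]
    have : (8 : ℂ) • P = (4 : ℂ) • P + (4 : ℂ) • P := by rw [← add_smul]; norm_num
    rw [this]; abel
  -- `2 K = Z`
  have h2K : (2 : ℂ) • Kk = Z := by
    have h1 : (4 : ℂ) • Kk = (8 : ℂ) • (Z - Kk) - (2 : ℂ) • Z := by rw [h4K, hX1', hPK]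
    have h2 : (12 : ℂ) • Kk = (6 : ℂ) • Z := by
      have e1 : (12 : ℂ) • Kk = (4 : ℂ) • Kk + (8 : ℂ) • Kk := by rw [← add_smul]; norm_num
      rw [e1, h1, smul_sub]
      have e2 : (6 : ℂ) • Z = (8 : ℂ) • Z - (2 : ℂ) • Z := by rw [← sub_smul]; norm_num
      rw [e2]; abel
    have h3 : Z = (1 / 6 : ℂ) • ((6 : ℂ) • Z) := by rw [smul_smul]; norm_num
    rw [h3, ← h2, smul_smul]; norm_num
  -- conclusion
  have hcas : D.cas C * C Y - C Y * D.cas C = Kk + (Kk - Z) := by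
    have h1 : D.cas C * C Y - C Y * D.cas C =
        ∑ a, (G (D.b a) * C ⁅D.st (D.b a), Y⁆ + C ⁅D.b a, Y⁆ * G (D.st (D.b a))) := by
      unfold cas
      rw [Finset.sum_mul, Finset.mul_sum, ← Finset.sum_sub_distrib]
      refine Finset.sum_congr rfl fun a _ => ?_
      rw [← hGC, ← hGC, ← hG]
      noncomm_ring
    have h2 := D.symm_mul (Cad C Y) G
    simp only [Cad_apply] at h2
    have h3 : ∑ a, C ⁅D.b a, Y⁆ * G (D.st (D.b a)) = ∑ e, C ⁅D.st (D.b e), Y⁆ * G (D.b e) := by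
      calc ∑ a, C ⁅D.b a, Y⁆ * G (D.st (D.b a))
          = - ∑ a, C ⁅Y, D.b a⁆ * G (D.st (D.b a)) := by
            rw [← Finset.sum_neg_distrib]
            refine Finset.sum_congr rfl fun a _ => ?_
            rw [← lie_skew, map_neg, neg_mul]
        _ = _ := by
            rw [h2, ← Finset.sum_neg_distrib]
            refine Finset.sum_congr rfl fun a _ => ?_
            rw [← lie_skew, map_neg, neg_mul, neg_neg]
    rw [h1, Finset.sum_add_distrib, h3, hCG]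
  rw [← sub_eq_zero, hcas, ← h2K]
  have : (2 : ℂ) • Kk = Kk + Kk := two_smul ℂ Kk
  rw [this]; abel

end QD

end

end Kost
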