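import Pool.Agent.Kost.SpinA1
import Pool.Agent.Kost.SpinA2

/-!
# Module A3 (MP_869ec4): the two spin actions on Fock space (uses A1 and A2)

PROOF. `gam C X` is a combination of products of two `C`'s, hence commutes with `C' Y` if `C, C'`
anticommute.  Sum: with `L = eps + iot`, `R = i (eps - iot)`:
`L U L V + R U R V = (eps U + iot U)(eps V + iot V) - (eps U - iot U)(eps V - iot V)
= 2 (eps U iot V + iot U eps V)`, and `iot U eps V = form U V - eps V iot U`.  So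
`gam L X + gam R X = 1/2 ∑_a (eps[X, b a] iot(b' a) - eps(b' a) iot[X, b a]) + 1/2 ∑ form [X, b a] (b' a)`.
The last sum is `0` (trace of `ad X`: it is `∑ form X [b a, b' a]` and `∑ [b a, b' a] = 0` by
`dual_symm`), and by `dual_symm`/`dual_inv` `-∑ eps(b' a) iot[X, b a] = -∑ eps (b a) iot [X, b' a]
= ∑ eps [X, b a] iot (b' a)`.  So the sum is `∑_a eps[X, b a] an a = dG (adM X)`.
Adjoint of `gam C X`: `1/4 ∑ C(b a) C(st [X, b a]) = 1/4 ∑ C(b a) C([b' a, st X])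
= 1/4 ∑ C([st X, b a]) C(b' a)` by `dual_inv`.
Casimir: commutes with `L Y` (A2) and with `R Y`, hence with `cr`, `an` (`eps_eq`, `iot_eq`,
`eps_b`, `iot_st_b`); use `scalar_of_commute`.
-/

open Module

namespace Kost

noncomputable section

namespace QD

variable {𝔤 : Type*} [LieRing 𝔤] [LieAlgebra ℂ 𝔤] {K : Type*} [Fintype K] [DecidableEq K]
  (D : QD 𝔤 K)

theorem gam_comm_of_anti {𝓐 : Type*} [Ring 𝓐] [Algebra ℂ 𝓐] {C C' : 𝔤 →ₗ[ℂ] 𝓐}
    (h : ∀ X Y, C X * C' Y + C' Y * C X = 0) (X Y : 𝔤) :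
    D.gam C X * C' Y = C' Y * D.gam C X := by
  have key : ∀ U V : 𝔤, (C U * C V) * C' Y = C' Y * (C U * C V) := by
    intro U V
    have h1 : C V * C' Y = - (C' Y * C V) := eq_neg_of_add_eq_zero_left (h V Y)
    have h2 : C U * C' Y = - (C' Y * C U) := eq_neg_of_add_eq_zero_left (h U Y)
    rw [mul_assoc, h1, mul_neg, ← mul_assoc, h2, neg_mul, neg_neg, mul_assoc]
  change ((1 / 4 : ℂ) • ∑ a, C ⁅X, D.b a⁆ * C (D.st (D.b a))) * C' Y =
    C' Y * ((1 / 4 : ℂ) • ∑ a, C ⁅X, D.b a⁆ * C (D.st (D.b a)))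
  rw [smul_mul_assoc, mul_smul_comm, Finset.sum_mul, Finset.mul_sum]
  congr 1
  exact Finset.sum_congr rfl fun a _ => key _ _

theorem gamL_gamR (X Y : 𝔤) :
    D.gam D.L X * D.gam D.R Y = D.gam D.R Y * D.gam D.L X := by
  have h : ∀ Z, D.gam D.L X * D.R Z = D.R Z * D.gam D.L X :=
    fun Z => D.gam_comm_of_anti D.L_R_anti X Z
  have key : ∀ U V : 𝔤, D.gam D.L X * (D.R U * D.R V) = (D.R U * D.R V) * D.gam D.L X := by
    intro U V
    rw [← mul_assoc, h, mul_assoc, h, mul_assoc]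
  have e : D.gam D.R Y = (1 / 4 : ℂ) • ∑ a, D.R ⁅Y, D.b a⁆ * D.R (D.st (D.b a)) := rfl
  rw [e, smul_mul_assoc, mul_smul_comm, Finset.sum_mul, Finset.mul_sum]
  congr 1
  exact Finset.sum_congr rfl fun a _ => key _ _

theorem eps_iot_anti (U V : 𝔤) :
    D.iot U * D.eps V = D.form U V • (1 : Module.End ℂ (Fock K)) - D.eps V * D.iot U := by
  have h1 := D.isCliff_L U V
  have h2 := D.isCliff_R U V
  have h3 := D.L_R_anti U V
  have h4 := D.L_R_anti V U
  have eL : ∀ X, D.L X = D.eps X + D.iot X := fun X => rfl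
  have eR : ∀ X, D.R X = Complex.I • (D.eps X - D.iot X) := fun X => rfl
  simp only [eL, eR] at h1 h2 h3 h4
  generalize D.eps U = e1 at *
  generalize D.eps V = e2 at *
  generalize D.iot U = i1 at *
  generalize D.iot V = i2 at *
  generalize D.form U V = f at *
  simp only [smul_mul_assoc, mul_smul_comm, smul_smul, Complex.I_mul_I, ← smul_add,
    smul_eq_zero, Complex.I_ne_zero, false_or] at h1 h2 h3 h4
  simp only [mul_add, add_mul, mul_sub, sub_mul] at h1 h2 h3 h4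
  linear_combination (norm := module) (1 / 4 : ℂ) • h1 + (1 / 4 : ℂ) • h2 + (1 / 4 : ℂ) • h3
    - (1 / 4 : ℂ) • h4

theorem LL_add_RR (U V : 𝔤) : D.L U * D.L V + D.R U * D.R V =
    (2 : ℂ) • (D.eps U * D.iot V) + (2 * D.form U V) • (1 : Module.End ℂ (Fock K)) -
      (2 : ℂ) • (D.eps V * D.iot U) := by
  have h := D.eps_iot_anti U V
  have eL : ∀ X, D.L X = D.eps X + D.iot X := fun X => rfl
  have eR : ∀ X, D.R X = Complex.I • (D.eps X - D.iot X) := fun X => rfl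
  simp only [eL, eR]
  generalize D.eps U = e1 at *
  generalize D.eps V = e2 at *
  generalize D.iot U = i1 at *
  generalize D.iot V = i2 at *
  generalize D.form U V = f at *
  simp only [smul_mul_assoc, mul_smul_comm, smul_smul, Complex.I_mul_I]
  simp only [mul_add, add_mul, mul_sub, sub_mul]
  linear_combination (norm := module) (2 : ℂ) • h

theorem sum_lie_dual : ∑ a, ⁅D.b a, D.st (D.b a)⁆ = 0 := by
  have h := D.dual_symm (LieModule.toEnd ℂ 𝔤 𝔤 : 𝔤 →ₗ[ℂ] 𝔤 →ₗ[ℂ] 𝔤)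
  simp only [LieHom.coe_toLinearMap, LieModule.toEnd_apply_apply] at h
  have h2 : ∑ a, ⁅D.st (D.b a), D.b a⁆ = - ∑ a, ⁅D.b a, D.st (D.b a)⁆ := by
    rw [← Finset.sum_neg_distrib]
    exact Finset.sum_congr rfl fun a _ => (lie_skew _ _).symm
  rw [h2] at h
  have h3 : (2 : ℂ) • ∑ a, ⁅D.b a, D.st (D.b a)⁆ = 0 := by
    rw [two_smul]
    exact add_eq_zero_iff_eq_neg.2 h
  exact (smul_eq_zero.1 h3).resolve_left two_ne_zero

theorem trace_ad (X : 𝔤) : ∑ a, D.form ⁅X, D.b a⁆ (D.st (D.b a)) = 0 := by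
  simp only [D.form_inv]
  rw [← map_sum, D.sum_lie_dual, map_zero]

theorem eps_iot_flip (X : 𝔤) : ∑ a, D.eps (D.st (D.b a)) * D.iot ⁅X, D.b a⁆ =
    - ∑ a, D.eps ⁅X, D.b a⁆ * D.iot (D.st (D.b a)) := by
  have h1 := D.dual_symm (((LinearMap.mul ℂ (Module.End ℂ (Fock K))).compl₁₂ D.eps
    (D.iot ∘ₗ (LieAlgebra.ad ℂ 𝔤 X))).flip)
  simp only [LinearMap.flip_apply, LinearMap.compl₁₂_apply, LinearMap.mul_apply',
    LinearMap.comp_apply, LieAlgebra.ad_apply] at h1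
  rw [h1]
  have h2 := D.dual_inv ((LinearMap.mul ℂ (Module.End ℂ (Fock K))).compl₁₂ D.eps D.iot) X
  simp only [LinearMap.compl₁₂_apply, LinearMap.mul_apply'] at h2
  rw [h2, neg_neg]

theorem gamL_add_gamR (X : 𝔤) : D.gam D.L X + D.gam D.R X = D.adF X := by
  have e : ∀ C : 𝔤 →ₗ[ℂ] Module.End ℂ (Fock K),
    D.gam C X = (1 / 4 : ℂ) • ∑ a, C ⁅X, D.b a⁆ * C (D.st (D.b a)) := fun C => rfl
  rw [e, e, ← smul_add, ← Finset.sum_add_distrib]
  simp only [LL_add_RR]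
  rw [Finset.sum_sub_distrib, Finset.sum_add_distrib, ← Finset.sum_smul, ← Finset.mul_sum,
    D.trace_ad, mul_zero, zero_smul, add_zero, ← Finset.smul_sum, ← Finset.smul_sum,
    D.eps_iot_flip]
  have h2 : D.adF X = ∑ a, D.eps ⁅X, D.b a⁆ * D.iot (D.st (D.b a)) := by
    change dG (D.adM X) = _
    rw [dG, Finset.sum_comm]
    refine Finset.sum_congr rfl fun a _ => ?_
    rw [D.iot_st_b]
    change _ = (∑ c, D.form ⁅X, D.b a⁆ (D.st (D.b c)) • cr c) * an a
    rw [Finset.sum_mul]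
    exact Finset.sum_congr rfl fun c _ => (smul_mul_assoc _ _ _).symm
  rw [h2]
  module

/-- adjoint of the spin action, for any Clifford map into `End (Fock K)` with adjoint `st` -/
theorem inner_gam {C : 𝔤 →ₗ[ℂ] Module.End ℂ (Fock K)}
    (hadj : ∀ X u v, inner ℂ (C X u) v = inner ℂ u (C (D.st X) v)) (X : 𝔤) (u v : Fock K) :
    inner ℂ (D.gam C X u) v = inner ℂ u (D.gam C (D.st X) v) := by
  have e : ∀ X : 𝔤,
    D.gam C X = (1 / 4 : ℂ) • ∑ a, C ⁅X, D.b a⁆ * C (D.st (D.b a)) := fun X => rfl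
  have h2 := D.dual_inv ((LinearMap.mul ℂ (Module.End ℂ (Fock K))).compl₁₂ C C) (D.st X)
  simp only [LinearMap.compl₁₂_apply, LinearMap.mul_apply'] at h2
  rw [e, e, h2, ← Finset.sum_neg_distrib]
  simp only [LinearMap.smul_apply, LinearMap.sum_apply, Module.End.mul_apply, inner_smul_left,
    inner_smul_right, sum_inner, inner_sum, hadj, D.st_st, D.st_lie, LinearMap.neg_apply,
    inner_neg_right]
  congr 1
  · rw [map_div₀, map_one, map_ofNat]
  · refine Finset.sum_congr rfl fun a _ => ?_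
    rw [← inner_neg_right, ← map_neg, ← LinearMap.neg_apply, ← map_neg, lie_skew]

theorem scalar_of_LR {A : Module.End ℂ (Fock K)} (hL : ∀ X, A * D.L X = D.L X * A)
    (hR : ∀ X, A * D.R X = D.R X * A) : ∃ c : ℂ, A = c • 1 := by
  refine scalar_of_commute (fun k => ?_) (fun k => ?_)
  · rw [← D.eps_b k, D.eps_eq, mul_smul_comm, smul_mul_assoc, mul_sub, sub_mul, hL,
      mul_smul_comm, smul_mul_assoc, hR]
  · rw [← D.iot_st_b k, D.iot_eq, mul_smul_comm, smul_mul_assoc, mul_add, add_mul, hL,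
      mul_smul_comm, smul_mul_assoc, hR]

theorem cas_comm_of_anti {𝓐 : Type*} [Ring 𝓐] [Algebra ℂ 𝓐] {C C' : 𝔤 →ₗ[ℂ] 𝓐}
    (h : ∀ X Y, C X * C' Y + C' Y * C X = 0) (Y : 𝔤) :
    D.cas C * C' Y = C' Y * D.cas C := by
  have hc := fun X => D.gam_comm_of_anti h X Y
  rw [cas, Finset.sum_mul, Finset.mul_sum]
  refine Finset.sum_congr rfl fun a _ => ?_
  rw [mul_assoc, hc, ← mul_assoc, hc, mul_assoc]

theorem casL_scalar : ∃ c : ℂ, D.cas D.L = c • 1 := by
  exact D.scalar_of_LR (fun X => D.cas_C D.isCliff_L X) (fun X => D.cas_comm_of_anti D.L_R_anti X)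

theorem casR_scalar : ∃ c : ℂ, D.cas D.R = c • 1 := by
  refine D.scalar_of_LR (fun X => D.cas_comm_of_anti (fun X Y => ?_) X)
    (fun X => D.cas_C D.isCliff_R X)
  rw [add_comm]; exact D.L_R_anti Y X

end QD

end

end Kost
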