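import Pool.Agent.Kost.SpinA3

/-!
# Module A5 (MP_869ec4): all highest weights of the spin action are `ρ` (uses A1 - A3)

Let `C` be a Clifford map with adjoint `st`, scalar Casimir, and let `u0 ≠ 0` with
`C (b a) u0 = 0` for all positive `a`.  Claim: if `u ≠ 0`, `gam (b a) u = 0` for all positive `a`
and `gam (H i) u = ν i u`, then `ν = ρ`.

PROOF. `ν i` is real (`gam (H i)` is self adjoint).
(1) `form (H i) (H j) = 2 δ_ij` (`b_z`, `orth`, `st_H`), `[H i, st (b a)] = -wt a i st (b a)`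
(`st_lie`), `[b a, st (b a)] = 1/2 ∑_i wt a i H i`: both sides have weight 0, i.e. the expansion of
the left side only contains basis vectors `b c` with `wt c = 0`, hence `c = z i` (`reg`), and
`form [b a, st (b a)] (H i) = form (b a) [st (b a), H i] = wt a i`.
(2) Casimir on `u`: `∑_a gam (b a) gam (st (b a)) u`.  `a = z i`: `1/2 ν_i^2 u`.  `ht a < 0`:
`st (b a) = ± b (bar a)` is positive, kills `u`.  `ht a > 0`:
`gam (b a) gam (st (b a)) u = gam [b a, st (b a)] u = 1/2 ∑ wt a i ν i u`. Total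
`c = 1/2 (|ν|^2 + 2 (ρ, ν))`.
(3) `gam (H i) = 1/4 ∑_a wt a i C(b a) C(st (b a)) = ∑_{a pos} wt a i (1/2 C(b a) C(st (b a)) - 1/2)`
(combine `a` and `bar a`: `wt (bar a) = -wt a`,
`C (b (bar a)) C (st b (bar a)) = C (st (b a)) C (b a)` because `tau^2 = 1`, and
`C (st (b a)) C (b a) = 2 - C (b a) C (st (b a))`).
(4) For `u0`: `C(b a) C(st b a) u0 = 2 u0` for positive `a`, so `gam (H i) u0 = ρ i u0`; for `c`
positive `gam (b c) u0 = 1/4 ∑_a C[b c, b a] C(st (b a)) u0`: if `ht a < 0`, `st (b a)` is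
positive and kills; if `ht a ≥ 0` then `[b c, b a]` is a combination of positive `b d` (only `d`
with `wt d = wt c + wt a` occur), so `C[b c, b a] C(st (b a)) u0 = 2 form [b c, b a] (st (b a)) u0 =
2 form (b c) [b a, st (b a)] u0 = 0` (`[b a, st (b a)]` is a combination of the `H i`, which are
orthogonal to `b c`).  Hence (2) for `u0` gives `c = 1/2 (|ρ|^2 + 2 |ρ|^2)`.
(5) `|gam (st (b a)) u|^2 = (u, gam [b a, st (b a)] u) = 1/2 (wt a, ν) |u|^2`, so `(wt a, ν) ≥ 0` for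
positive `a`.
(6) take the expectation of (3) in `u`: `ρ i - ν i = ∑_{a pos} wt a i c_a`,
`c_a = 1/2 |C(b a) u|^2... / |u|^2 ≥ 0` (`1 - 1/2 (u, C(b a) C(st b a) u)/|u|^2 =
1/2 |C(b a) u|^2/|u|^2`).
(7) `(ρ - ν, 3ρ + ν) = 3|ρ|^2 - 2(ρ,ν) - |ν|^2 = 0`, and it is `∑ c_a (wt a, 3ρ + ν)` with
`(wt a, ρ) > 0` (`rho_pos`), `(wt a, ν) ≥ 0`. So all `c_a = 0` and `ν = ρ`.  QED

For `C = L`, `R` one can take `u0 = ee T.pos`: `L (b a) = cr a + tau a.. an (bar a)`,
`R (b a) = i (cr a - ..)`, and `a ∈ pos`, `bar a ∉ pos`.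
-/
open Module

set_option linter.unusedSectionVars false

namespace Kost

noncomputable section

namespace TD

variable {𝔤 : Type*} [LieRing 𝔤] [LieAlgebra ℂ 𝔤] {K : Type*} [Fintype K] [DecidableEq K]
  {D : QD 𝔤 K} {n : ℕ} (T : TD D n)

/-! ### Weights -/

include T in
theorem b_ne (a : K) : D.b a ≠ 0 := by
  intro h
  have h1 := D.orth a a
  rw [h, map_zero, LinearMap.zero_apply, if_pos rfl] at h1
  exact zero_ne_one h1

theorem lie_H_st (i : Fin n) (a : K) : ⁅T.H i, D.st (D.b a)⁆ = -((T.wt a i : ℂ) • D.st (D.b a)) := by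
  have h := D.st_lie (T.H i) (D.b a)
  rw [T.lie_H, D.st_smul, T.st_H, Complex.conj_ofReal] at h
  rw [h, lie_skew]

theorem tau_ne (a : K) : (T.tau a : ℂ) ≠ 0 := by
  intro h
  have h1 := T.tau_sq a
  have h2 : T.tau a = 0 := by exact_mod_cast h
  rw [h2] at h1
  norm_num at h1

theorem wt_bar (a : K) (i : Fin n) : T.wt (T.bar a) i = - T.wt a i := by
  have h := T.lie_H_st i a
  rw [T.st_b, lie_smul, T.lie_H, ← smul_neg, ← neg_smul, smul_smul, smul_smul, ← sub_eq_zero,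
    ← sub_smul, smul_eq_zero] at h
  rcases h with h | h
  · have h2 : (T.tau a : ℂ) * (((T.wt (T.bar a) i : ℝ) : ℂ) + (T.wt a i : ℂ)) = 0 := by
      rw [← h]; ring
    rcases mul_eq_zero.1 h2 with h3 | h3
    · exact absurd h3 (T.tau_ne a)
    · have h4 : T.wt (T.bar a) i + T.wt a i = 0 := by exact_mod_cast h3
      linarith
  · exact absurd h (T.b_ne _)

theorem ht_bar (a : K) : T.ht (T.bar a) = - T.ht a := by
  unfold ht
  rw [← Finset.sum_neg_distrib]
  exact Finset.sum_congr rfl fun i _ => by rw [T.wt_bar]; ring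

theorem ht_z (i : Fin n) : T.ht (T.z i) = 0 := by
  unfold ht
  exact Finset.sum_eq_zero fun j _ => by rw [T.wt_z, mul_zero]

theorem tau_bar (a : K) : T.tau (T.bar a) = T.tau a := by
  have h := D.st_st (D.b a)
  rw [T.st_b, D.st_smul, T.st_b, Complex.conj_ofReal, T.bar_bar, smul_smul] at h
  have h2 : ((T.tau a : ℂ) * (T.tau (T.bar a) : ℂ) - 1) • D.b a = 0 := by
    rw [sub_smul, one_smul, h, sub_self]
  rcases smul_eq_zero.1 h2 with h3 | h3
  · have h4 : T.tau a * T.tau (T.bar a) = 1 := by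
      have : (T.tau a : ℂ) * (T.tau (T.bar a) : ℂ) = 1 := sub_eq_zero.1 h3
      exact_mod_cast this
    have h5 := T.tau_sq a
    have h6 : T.tau a ≠ 0 := by
      intro h0; rw [h0] at h5; norm_num at h5
    exact mul_left_cancel₀ h6 (h4.trans h5.symm)
  · exact absurd h3 (T.b_ne _)

theorem b_eq_st (a : K) : D.b a = (T.tau a : ℂ) • D.st (D.b (T.bar a)) := by
  rw [T.st_b, T.tau_bar, T.bar_bar, smul_smul]
  have : (T.tau a : ℂ) * (T.tau a : ℂ) = 1 := by exact_mod_cast T.tau_sq a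
  rw [this, one_smul]

theorem sqrt_two_ne : (√2 : ℂ) ≠ 0 := by
  have : √(2:ℝ) ≠ 0 := by positivity
  exact_mod_cast this

theorem sqrt_two_sq : ((√2 : ℝ) : ℂ) * ((√2 : ℝ) : ℂ) = 2 := by
  have : √(2:ℝ) * √2 = 2 := Real.mul_self_sqrt (by norm_num)
  exact_mod_cast this

theorem st_b_z (i : Fin n) : D.st (D.b (T.z i)) = D.b (T.z i) := by
  have h := T.st_H i
  rw [T.b_z, D.st_smul, Complex.conj_ofReal] at h
  exact smul_right_injective 𝔤 sqrt_two_ne h

theorem form_b_H (c : K) (i : Fin n) : D.form (D.b c) (T.H i) = if c = T.z i then (√2 : ℂ) else 0 := by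
  rw [T.b_z, map_smul, smul_eq_mul, ← T.st_b_z i, D.orth]
  split_ifs <;> simp

/-- the element with eigenvalues `ht` -/
def Hh : 𝔤 := ∑ i, (T.hgt i : ℂ) • T.H i

theorem lie_Hh (a : K) : ⁅T.Hh, D.b a⁆ = (T.ht a : ℂ) • D.b a := by
  unfold Hh ht
  rw [sum_lie]
  simp only [smul_lie, T.lie_H, smul_smul]
  rw [← Finset.sum_smul]
  push_cast
  rfl

theorem lie_Hh_st (a : K) : ⁅T.Hh, D.st (D.b a)⁆ = -((T.ht a : ℂ) • D.st (D.b a)) := by
  unfold Hh ht
  rw [sum_lie]
  simp only [smul_lie, T.lie_H_st, smul_neg, smul_smul]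
  rw [Finset.sum_neg_distrib, ← Finset.sum_smul]
  push_cast
  rfl

/-- orthogonality of different heights -/
theorem form_ht {X : 𝔤} {x : ℝ} (hX : ⁅T.Hh, X⁆ = (x : ℂ) • X) (d : K) (hd : T.ht d ≠ x) :
    D.form X (D.st (D.b d)) = 0 := by
  have h1 : D.form ⁅X, T.Hh⁆ (D.st (D.b d)) = D.form X ⁅T.Hh, D.st (D.b d)⁆ := D.form_inv _ _ _
  rw [← lie_skew, hX, T.lie_Hh_st, map_neg, map_neg, map_smul, map_smul, LinearMap.neg_apply,
    LinearMap.smul_apply, smul_eq_mul, smul_eq_mul, neg_inj] at h1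
  have h2 : ((x : ℂ) - (T.ht d : ℂ)) * D.form X (D.st (D.b d)) = 0 := by
    rw [sub_mul, h1, sub_self]
  rcases mul_eq_zero.1 h2 with h3 | h3
  · exfalso
    apply hd
    have h4 : x - T.ht d = 0 := by exact_mod_cast h3
    linarith
  · exact h3

theorem lie_Hh_lie {X Y : 𝔤} {x y : ℝ} (hX : ⁅T.Hh, X⁆ = (x : ℂ) • X)
    (hY : ⁅T.Hh, Y⁆ = (y : ℂ) • Y) : ⁅T.Hh, ⁅X, Y⁆⁆ = ((x + y : ℝ) : ℂ) • ⁅X, Y⁆ := by
  rw [leibniz_lie, hX, hY, smul_lie, lie_smul, ← add_smul]
  push_cast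
  rfl

/-- `[b a, st (b a)] = 1/2 ∑ wt a i H i` -/
theorem lie_b_st (a : K) : ⁅D.b a, D.st (D.b a)⁆ = (1 / 2 : ℂ) • ∑ i, (T.wt a i : ℂ) • T.H i := by
  set X := ⁅D.b a, D.st (D.b a)⁆ with hX
  have h0 : ⁅T.Hh, X⁆ = ((0 : ℝ) : ℂ) • X := by
    have h1 : ⁅T.Hh, D.st (D.b a)⁆ = ((-T.ht a : ℝ) : ℂ) • D.st (D.b a) := by
      rw [T.lie_Hh_st]; push_cast; rw [neg_smul]
    have h2 := T.lie_Hh_lie (T.lie_Hh a) h1
    rw [hX, h2]
    simp
  have h3 : X = ∑ i, D.form X (D.st (D.b (T.z i))) • D.b (T.z i) := by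
    conv_lhs => rw [D.expand X]
    symm
    rw [← Finset.sum_image (s := Finset.univ) (g := T.z)
      (f := fun c => D.form X (D.st (D.b c)) • D.b c) (fun i _ j _ h => T.z_inj h)]
    apply Finset.sum_subset (Finset.subset_univ _)
    intro c _ hc
    have hne : T.ht c ≠ 0 := by
      intro h
      obtain ⟨i, hi⟩ := T.reg c h
      exact hc (Finset.mem_image.2 ⟨i, Finset.mem_univ _, hi.symm⟩)
    rw [T.form_ht h0 c hne, zero_smul]
  rw [h3, Finset.smul_sum]
  refine Finset.sum_congr rfl fun i _ => ?_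
  have h4 : D.form X (T.H i) = (T.wt a i : ℂ) := by
    rw [hX, D.form_inv, ← lie_skew, T.lie_H_st, neg_neg, map_smul, D.orth, if_pos rfl, smul_eq_mul,
      mul_one]
  rw [T.st_b_z, ← h4, T.b_z i, map_smul, smul_smul, smul_smul, smul_eq_mul]
  congr 1
  have := sqrt_two_sq
  linear_combination (-(1 / 2) : ℂ) * D.form X (D.b (T.z i)) * this

/-! ### The spin action -/

section act

variable {C : 𝔤 →ₗ[ℂ] Module.End ℂ (Fock K)}

/-- the key operator -/
theorem C_swap (hC : D.IsCliff C) (a : K) (u : Fock K) :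
    C (D.b a) (C (D.st (D.b a)) u) + C (D.st (D.b a)) (C (D.b a) u) = (2 : ℂ) • u := by
  have h := LinearMap.congr_fun (hC (D.b a) (D.st (D.b a))) u
  simpa [D.orth] using h

theorem pos_filter_bar (f : K → Fock K) :
    ∑ a with T.ht a < 0, f a = ∑ a ∈ T.pos, f (T.bar a) := by
  symm
  apply Finset.sum_bij' (fun a _ => T.bar a) (fun a _ => T.bar a)
  · intro a ha
    simp only [pos, Finset.mem_filter, Finset.mem_univ, true_and] at ha ⊢
    rw [T.ht_bar]; linarith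
  · intro a ha
    simp only [pos, Finset.mem_filter, Finset.mem_univ, true_and] at ha ⊢
    rw [T.ht_bar]; linarith
  · intro a _; exact T.bar_bar a
  · intro a _; exact T.bar_bar a
  · intro a _; rfl

/-- splitting a sum into negative, zero and positive part -/
theorem sum_split (f : K → Fock K) :
    ∑ a, f a = (∑ a ∈ T.pos, f a) + (∑ a ∈ T.pos, f (T.bar a)) + ∑ i, f (T.z i) := by
  classical
  rw [← T.pos_filter_bar f]
  have h1 : ∑ i, f (T.z i) = ∑ a with T.ht a = 0, f a := by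
    rw [← Finset.sum_image (s := Finset.univ) (g := T.z) (f := f) (fun i _ j _ h => T.z_inj h)]
    apply Finset.sum_congr _ (fun _ _ => rfl)
    ext c
    simp only [Finset.mem_image, Finset.mem_univ, true_and, Finset.mem_filter]
    constructor
    · rintro ⟨i, rfl⟩; exact T.ht_z i
    · intro h
      obtain ⟨i, hi⟩ := T.reg c h
      exact ⟨i, hi.symm⟩
  rw [h1, ← Finset.sum_filter_add_sum_filter_not Finset.univ (fun a => 0 < T.ht a) f]
  rw [show T.pos = Finset.univ.filter (fun a => 0 < T.ht a) from rfl, add_assoc]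
  congr 1
  rw [← Finset.sum_filter_add_sum_filter_not (Finset.univ.filter (fun a => ¬ 0 < T.ht a))
    (fun a => T.ht a < 0) f, Finset.filter_filter, Finset.filter_filter]
  congr 1
  · apply Finset.sum_congr _ (fun _ _ => rfl)
    ext a
    simp only [Finset.mem_filter, Finset.mem_univ, true_and]
    constructor
    · rintro ⟨_, h⟩; exact h
    · intro h; exact ⟨by linarith, h⟩
  · apply Finset.sum_congr _ (fun _ _ => rfl)
    ext a
    simp only [Finset.mem_filter, Finset.mem_univ, true_and, not_lt]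
    constructor
    · rintro ⟨h1, h2⟩; linarith
    · intro h; exact ⟨h.le, h.ge⟩

/-- (3) -/
theorem gam_H (hC : D.IsCliff C) (i : Fin n) (u : Fock K) : D.gam C (T.H i) u =
    ∑ a ∈ T.pos, (T.wt a i : ℂ) • ((1 / 2 : ℂ) • u - (1 / 2 : ℂ) • C (D.st (D.b a)) (C (D.b a) u)) := by
  have h0 : D.gam C (T.H i) u =
      (1 / 4 : ℂ) • ∑ a, (T.wt a i : ℂ) • C (D.b a) (C (D.st (D.b a)) u) := by
    have : D.gam C (T.H i) = (1 / 4 : ℂ) • ∑ a, C ⁅T.H i, D.b a⁆ * C (D.st (D.b a)) := rfl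
    rw [this, LinearMap.smul_apply, LinearMap.sum_apply]
    congr 1
    refine Finset.sum_congr rfl fun a _ => ?_
    rw [T.lie_H, map_smul, Module.End.mul_apply, LinearMap.smul_apply]
  rw [h0, T.sum_split]
  have hz : ∑ j, (T.wt (T.z j) i : ℂ) • C (D.b (T.z j)) (C (D.st (D.b (T.z j))) u) = 0 :=
    Finset.sum_eq_zero fun j _ => by rw [T.wt_z]; simp
  rw [hz, add_zero, ← Finset.sum_add_distrib, Finset.smul_sum]
  refine Finset.sum_congr rfl fun a _ => ?_
  have hb : C (D.b (T.bar a)) (C (D.st (D.b (T.bar a))) u) = C (D.st (D.b a)) (C (D.b a) u) := by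
    have e1 : D.b (T.bar a) = (T.tau a : ℂ) • D.st (D.b a) := by
      rw [T.b_eq_st (T.bar a), T.bar_bar, T.tau_bar]
    have e2 : D.st (D.b (T.bar a)) = (T.tau a : ℂ) • D.b a := by
      rw [T.st_b, T.tau_bar, T.bar_bar]
    have e3 : (T.tau a : ℂ) * (T.tau a : ℂ) = 1 := by exact_mod_cast T.tau_sq a
    rw [e2, e1, map_smul, map_smul, LinearMap.smul_apply, LinearMap.smul_apply, map_smul,
      smul_smul, e3, one_smul]
  rw [hb, T.wt_bar]
  have hs := C_swap hC a u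
  rw [eq_sub_of_add_eq hs]
  push_cast
  module

/-- The value of the Casimir element on a highest weight vector. -/
theorem cas_hw (hC : D.IsCliff C) {u : Fock K}
    (hk : ∀ a, 0 < T.ht a → D.gam C (D.b a) u = 0) {ν : Fin n → ℂ}
    (hν : ∀ i, D.gam C (T.H i) u = ν i • u) :
    D.cas C u = ((1 / 2 : ℂ) * ∑ i, ν i * ν i + ∑ i, (T.rho i : ℂ) * ν i) • u := by
  have h0 : D.cas C u = ∑ a, D.gam C (D.b a) (D.gam C (D.st (D.b a)) u) := by
    have : D.cas C = ∑ a, D.gam C (D.b a) * D.gam C (D.st (D.b a)) := rfl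
    rw [this, LinearMap.sum_apply]
    rfl
  rw [h0, T.sum_split]
  have h1 : ∀ a ∈ T.pos, D.gam C (D.b a) (D.gam C (D.st (D.b a)) u) =
      ((1 / 2 : ℂ) * ∑ i, (T.wt a i : ℂ) * ν i) • u := by
    intro a ha
    have hpos : 0 < T.ht a := (Finset.mem_filter.1 ha).2
    have h2 := LinearMap.congr_fun (D.gam_gam hC (D.b a) (D.st (D.b a))) u
    rw [LinearMap.sub_apply, Module.End.mul_apply, Module.End.mul_apply, hk a hpos, map_zero,
      sub_zero] at h2
    rw [h2, T.lie_b_st, map_smul, map_sum, LinearMap.smul_apply, LinearMap.sum_apply, mul_smul,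
      Finset.sum_smul]
    congr 1
    refine Finset.sum_congr rfl fun i _ => ?_
    rw [map_smul, LinearMap.smul_apply, hν, smul_smul]
  have h2 : ∀ a ∈ T.pos, D.gam C (D.b (T.bar a)) (D.gam C (D.st (D.b (T.bar a))) u) = 0 := by
    intro a ha
    have hpos : 0 < T.ht a := (Finset.mem_filter.1 ha).2
    have e2 : D.st (D.b (T.bar a)) = (T.tau a : ℂ) • D.b a := by
      rw [T.st_b, T.tau_bar, T.bar_bar]
    rw [e2, map_smul, LinearMap.smul_apply, hk a hpos, smul_zero, map_zero]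
  have h3 : ∀ i, D.gam C (D.b (T.z i)) (D.gam C (D.st (D.b (T.z i))) u) =
      ((1 / 2 : ℂ) * (ν i * ν i)) • u := by
    intro i
    have e1 : D.b (T.z i) = ((√2 : ℂ))⁻¹ • T.H i := by
      rw [T.b_z, smul_smul, inv_mul_cancel₀ sqrt_two_ne, one_smul]
    rw [T.st_b_z, e1, map_smul, LinearMap.smul_apply, LinearMap.smul_apply, hν, map_smul, map_smul,
      hν, smul_smul, smul_smul, smul_smul]
    congr 1
    have := sqrt_two_sq
    have h9 := sqrt_two_ne
    field_simp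
    linear_combination (-ν i ^ 2 : ℂ) * this
  rw [Finset.sum_congr rfl h1, Finset.sum_congr rfl h2, Finset.sum_congr rfl (fun i _ => h3 i),
    Finset.sum_const_zero, add_zero, ← Finset.sum_smul, ← Finset.sum_smul, ← add_smul]
  congr 1
  rw [← Finset.mul_sum, ← Finset.mul_sum, Finset.sum_comm, add_comm]
  congr 1
  rw [Finset.mul_sum]
  refine Finset.sum_congr rfl fun i _ => ?_
  rw [← Finset.sum_mul, rho]
  push_cast
  ring

theorem gam_H_base (hC : D.IsCliff C) {u0 : Fock K} (hu0 : ∀ a, 0 < T.ht a → C (D.b a) u0 = 0)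
    (i : Fin n) : D.gam C (T.H i) u0 = (T.rho i : ℂ) • u0 := by
  rw [T.gam_H hC]
  have h1 : ∀ a ∈ T.pos, (T.wt a i : ℂ) • ((1 / 2 : ℂ) • u0 - (1 / 2 : ℂ) •
      C (D.st (D.b a)) (C (D.b a) u0)) = ((1 / 2 : ℂ) * (T.wt a i : ℂ)) • u0 := by
    intro a ha
    have hpos : 0 < T.ht a := (Finset.mem_filter.1 ha).2
    rw [hu0 a hpos, map_zero, smul_zero, sub_zero, smul_smul]
    congr 1
    ring
  rw [Finset.sum_congr rfl h1, ← Finset.sum_smul, ← Finset.mul_sum]
  congr 1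
  rw [rho]
  push_cast
  rfl

theorem gam_b_base (hC : D.IsCliff C) {u0 : Fock K} (hu0 : ∀ a, 0 < T.ht a → C (D.b a) u0 = 0)
    {c : K} (hc : 0 < T.ht c) : D.gam C (D.b c) u0 = 0 := by
  have h0 : D.gam C (D.b c) u0 =
      (1 / 4 : ℂ) • ∑ a, C ⁅D.b c, D.b a⁆ (C (D.st (D.b a)) u0) := by
    have : D.gam C (D.b c) = (1 / 4 : ℂ) • ∑ a, C ⁅D.b c, D.b a⁆ * C (D.st (D.b a)) := rfl
    rw [this, LinearMap.smul_apply, LinearMap.sum_apply]
    rfl
  rw [h0, Finset.sum_eq_zero, smul_zero]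
  intro a _
  rcases lt_or_ge (T.ht a) 0 with ha | ha
  · rw [T.st_b, map_smul, LinearMap.smul_apply, hu0 (T.bar a) (by rw [T.ht_bar]; linarith),
      smul_zero, map_zero]
  · have h1 : C ⁅D.b c, D.b a⁆ u0 = 0 := by
      rw [D.expand ⁅D.b c, D.b a⁆, map_sum, LinearMap.sum_apply]
      refine Finset.sum_eq_zero fun d _ => ?_
      rw [map_smul, LinearMap.smul_apply]
      by_cases hd : 0 < T.ht d
      · rw [hu0 d hd, smul_zero]
      · have hne : T.ht d ≠ T.ht c + T.ht a := by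
          intro h
          apply hd
          rw [h]
          linarith
        rw [T.form_ht (T.lie_Hh_lie (T.lie_Hh c) (T.lie_Hh a)) d hne, zero_smul]
    have h2 : D.form ⁅D.b c, D.b a⁆ (D.st (D.b a)) = 0 := by
      rw [D.form_inv, T.lie_b_st, map_smul, map_sum, Finset.sum_eq_zero, smul_zero]
      intro i _
      rw [map_smul, T.form_b_H, if_neg, smul_zero]
      intro h
      rw [h, T.ht_z] at hc
      exact lt_irrefl _ hc
    have h3 := LinearMap.congr_fun (hC ⁅D.b c, D.b a⁆ (D.st (D.b a))) u0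
    rw [LinearMap.add_apply, Module.End.mul_apply, Module.End.mul_apply, h1, map_zero, add_zero,
      h2, mul_zero, zero_smul, LinearMap.zero_apply] at h3
    exact h3

end act

theorem hw_rho {C : 𝔤 →ₗ[ℂ] Module.End ℂ (Fock K)} (hC : D.IsCliff C)
    (hadj : ∀ X u v, inner ℂ (C X u) v = inner ℂ u (C (D.st X) v))
    (hcas : ∃ c : ℂ, D.cas C = c • 1) {u0 : Fock K} (h0 : u0 ≠ 0)
    (hu0 : ∀ a, 0 < T.ht a → C (D.b a) u0 = 0) {u : Fock K} (hu : u ≠ 0)
    (hk : ∀ a, 0 < T.ht a → D.gam C (D.b a) u = 0) {ν : Fin n → ℂ}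
    (hν : ∀ i, D.gam C (T.H i) u = ν i • u) (i : Fin n) : ν i = (T.rho i : ℂ) := by
  obtain ⟨c, hc⟩ := hcas
  have hadjg := D.inner_gam hadj
  -- reality
  have hreal : ∀ i, (starRingEnd ℂ) (ν i) = ν i := by
    intro i
    have h1 := hadjg (T.H i) u u
    rw [T.st_H, hν, inner_smul_left, inner_smul_right] at h1
    exact mul_right_cancel₀ (inner_self_ne_zero.2 hu) h1
  obtain ⟨x, hx⟩ : ∃ x : Fin n → ℝ, ∀ i, ν i = (x i : ℂ) :=
    ⟨fun i => (ν i).re, fun i => (Complex.conj_eq_iff_re.1 (hreal i)).symm⟩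
  -- Casimir
  have hc1 : (1 / 2 : ℂ) * ∑ i, ν i * ν i + ∑ i, (T.rho i : ℂ) * ν i = c := by
    have h1 := T.cas_hw hC hk hν
    rw [hc, LinearMap.smul_apply, Module.End.one_apply] at h1
    exact (smul_left_injective ℂ hu h1).symm
  have hc2 : (1 / 2 : ℂ) * ∑ i, (T.rho i : ℂ) * (T.rho i : ℂ) +
      ∑ i, (T.rho i : ℂ) * (T.rho i : ℂ) = c := by
    have h1 := T.cas_hw hC (fun a ha => T.gam_b_base hC hu0 ha) (T.gam_H_base hC hu0)
    rw [hc, LinearMap.smul_apply, Module.End.one_apply] at h1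
    exact (smul_left_injective ℂ h0 h1).symm
  have hcR : (1 / 2 : ℝ) * ∑ i, x i * x i + ∑ i, T.rho i * x i =
      (1 / 2 : ℝ) * ∑ i, T.rho i * T.rho i + ∑ i, T.rho i * T.rho i := by
    have h1 := hc1.trans hc2.symm
    simp only [hx] at h1
    apply Complex.ofReal_injective
    push_cast
    exact h1
  have hself : ∀ w : Fock K, inner ℂ w w = ((‖w‖ ^ 2 : ℝ) : ℂ) := fun w => by
    rw [inner_self_eq_norm_sq_to_K]; simp
  -- positivity of the roots on ν
  have hnn : ∀ a, 0 < T.ht a → 0 ≤ ∑ i, T.wt a i * x i := by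
    intro a ha
    have h1 := hadjg (D.st (D.b a)) u (D.gam C (D.st (D.b a)) u)
    have h2 := LinearMap.congr_fun (D.gam_gam hC (D.b a) (D.st (D.b a))) u
    rw [LinearMap.sub_apply, Module.End.mul_apply, Module.End.mul_apply, hk a ha, map_zero,
      sub_zero] at h2
    have h3 : D.gam C ⁅D.b a, D.st (D.b a)⁆ u = ((((1 / 2) * ∑ i, T.wt a i * x i : ℝ)) : ℂ) • u := by
      rw [T.lie_b_st, map_smul, map_sum, LinearMap.smul_apply, LinearMap.sum_apply]
      push_cast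
      rw [mul_smul, Finset.sum_smul]
      congr 1
      refine Finset.sum_congr rfl fun i _ => ?_
      rw [map_smul, LinearMap.smul_apply, hν, smul_smul, hx]
    rw [D.st_st, h2, h3, inner_smul_right, hself, hself, ← Complex.ofReal_mul] at h1
    have h4 : ‖D.gam C (D.st (D.b a)) u‖ ^ 2 = ((1 / 2) * ∑ i, T.wt a i * x i) * ‖u‖ ^ 2 :=
      Complex.ofReal_injective h1
    have h5 : 0 < ‖u‖ ^ 2 := by positivity
    have h6 : 0 ≤ ((1 / 2) * ∑ i, T.wt a i * x i) * ‖u‖ ^ 2 := by rw [← h4]; positivity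
    have h7 := nonneg_of_mul_nonneg_left h6 h5
    linarith
  -- expectation
  have hexp : ∀ i, (T.rho i - x i) * ‖u‖ ^ 2 =
      (1 / 2) * ∑ a ∈ T.pos, T.wt a i * ‖C (D.b a) u‖ ^ 2 := by
    intro i
    have h1 : inner ℂ u (D.gam C (T.H i) u) = ν i * inner ℂ u u := by
      rw [hν, inner_smul_right]
    rw [T.gam_H hC, inner_sum] at h1
    have h2 : ∀ a ∈ T.pos, inner ℂ u ((T.wt a i : ℂ) • ((1 / 2 : ℂ) • u - (1 / 2 : ℂ) •
        C (D.st (D.b a)) (C (D.b a) u))) =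
        ((T.wt a i * ((1 / 2) * ‖u‖ ^ 2 - (1 / 2) * ‖C (D.b a) u‖ ^ 2) : ℝ) : ℂ) := by
      intro a _
      rw [inner_smul_right, inner_sub_right, inner_smul_right, inner_smul_right, ← hadj,
        hself, hself]
      push_cast
      rfl
    rw [Finset.sum_congr rfl h2, hself, hx, ← Complex.ofReal_sum, ← Complex.ofReal_mul] at h1
    have h3 : ∑ a ∈ T.pos, T.wt a i * ((1 / 2) * ‖u‖ ^ 2 - (1 / 2) * ‖C (D.b a) u‖ ^ 2) =
        x i * ‖u‖ ^ 2 := Complex.ofReal_injective h1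
    have h4 : ∑ a ∈ T.pos, T.wt a i * ((1 / 2) * ‖u‖ ^ 2 - (1 / 2) * ‖C (D.b a) u‖ ^ 2) =
        T.rho i * ‖u‖ ^ 2 - (1 / 2) * ∑ a ∈ T.pos, T.wt a i * ‖C (D.b a) u‖ ^ 2 := by
      simp only [mul_sub, Finset.sum_sub_distrib]
      congr 1
      · rw [rho, mul_assoc, Finset.sum_mul, Finset.mul_sum]
        exact Finset.sum_congr rfl fun a _ => by ring
      · rw [Finset.mul_sum]
        exact Finset.sum_congr rfl fun a _ => by ring
    linarith
  -- conclusion
  have hz : ∑ a ∈ T.pos, ‖C (D.b a) u‖ ^ 2 * ∑ i, T.wt a i * (3 * T.rho i + x i) = 0 := by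
    have h1 : ∑ i, ((T.rho i - x i) * ‖u‖ ^ 2) * (3 * T.rho i + x i) = 0 := by
      have h2 : ∑ i, ((T.rho i - x i) * ‖u‖ ^ 2) * (3 * T.rho i + x i) =
          (3 * ∑ i, T.rho i * T.rho i - 2 * ∑ i, T.rho i * x i - ∑ i, x i * x i) * ‖u‖ ^ 2 := by
        rw [Finset.mul_sum, Finset.mul_sum, ← Finset.sum_sub_distrib, ← Finset.sum_sub_distrib,
          Finset.sum_mul]
        exact Finset.sum_congr rfl fun i _ => by ring
      rw [h2]
      have h3 : 3 * ∑ i, T.rho i * T.rho i - 2 * ∑ i, T.rho i * x i - ∑ i, x i * x i = 0 := by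
        linarith
      rw [h3, zero_mul]
    simp only [hexp] at h1
    have h4 : ∑ i, ((1 / 2) * ∑ a ∈ T.pos, T.wt a i * ‖C (D.b a) u‖ ^ 2) * (3 * T.rho i + x i) =
        (1 / 2) * ∑ a ∈ T.pos, ‖C (D.b a) u‖ ^ 2 * ∑ i, T.wt a i * (3 * T.rho i + x i) := by
      simp only [Finset.mul_sum, Finset.sum_mul]
      rw [Finset.sum_comm]
      exact Finset.sum_congr rfl fun a _ => Finset.sum_congr rfl fun i _ => by ring
    rw [h4] at h1
    linarith
  have hpos : ∀ a ∈ T.pos, 0 < ∑ i, T.wt a i * (3 * T.rho i + x i) := by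
    intro a ha
    have ha' : 0 < T.ht a := (Finset.mem_filter.1 ha).2
    have h1 : 0 < ∑ i, T.wt a i * T.rho i := T.rho_pos a ha'
    have h2 := hnn a ha'
    have h3 : ∑ i, T.wt a i * (3 * T.rho i + x i) =
        3 * ∑ i, T.wt a i * T.rho i + ∑ i, T.wt a i * x i := by
      rw [Finset.mul_sum, ← Finset.sum_add_distrib]
      exact Finset.sum_congr rfl fun i _ => by ring
    rw [h3]
    linarith
  have hzero : ∀ a ∈ T.pos, ‖C (D.b a) u‖ ^ 2 = 0 := by
    intro a ha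
    have h1 := (Finset.sum_eq_zero_iff_of_nonneg (fun a ha =>
      mul_nonneg (by positivity) (hpos a ha).le)).1 hz a ha
    rcases mul_eq_zero.1 h1 with h | h
    · exact h
    · exact absurd h (hpos a ha).ne'
  have h5 := hexp i
  rw [Finset.sum_eq_zero (fun a ha => by rw [hzero a ha, mul_zero]), mul_zero] at h5
  have h6 : ‖u‖ ^ 2 ≠ 0 := by positivity
  rcases mul_eq_zero.1 h5 with h | h
  · rw [hx]
    have : x i = T.rho i := by linarith
    rw [this]
  · exact absurd h h6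

theorem cr_pos (a : K) (ha : 0 < T.ht a) : cr a (ee T.pos : Fock K) = 0 := by
  rw [cr_ee, if_pos]
  exact Finset.mem_filter.2 ⟨Finset.mem_univ _, ha⟩

theorem iot_base (a : K) (ha : 0 < T.ht a) : D.iot (D.b a) (ee T.pos) = 0 := by
  rw [T.b_eq_st a, map_smul, D.iot_st_b, LinearMap.smul_apply, an_ee, if_neg, smul_zero]
  intro h
  have h1 : 0 < T.ht (T.bar a) := (Finset.mem_filter.1 h).2
  rw [T.ht_bar] at h1
  linarith

theorem L_base (a : K) (ha : 0 < T.ht a) : D.L (D.b a) (ee T.pos) = 0 := by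
  have : D.L (D.b a) = D.eps (D.b a) + D.iot (D.b a) := rfl
  rw [this, LinearMap.add_apply, T.iot_base a ha, D.eps_b, T.cr_pos a ha, add_zero]

theorem R_base (a : K) (ha : 0 < T.ht a) : D.R (D.b a) (ee T.pos) = 0 := by
  have : D.R (D.b a) = Complex.I • (D.eps (D.b a) - D.iot (D.b a)) := rfl
  rw [this, LinearMap.smul_apply, LinearMap.sub_apply, T.iot_base a ha, D.eps_b, T.cr_pos a ha,
    sub_zero, smul_zero]

end TD

end

end Kost
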