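import Pool.Agent.Kost.Mat

/-!
# Module B1 (MP_869ec4): transfer between two `gl_J`-modules with the same highest weight

Two finite dimensional inner product spaces with `*`-actions `R₁, R₂` of the matrices `J × J`,
highest weight vectors `v₁`, `v₂` of the same weight `μ` (for every pair `j ≠ k` one of `E_jk`,
`E_kj` kills both).  A vector `h` of `M₂` not orthogonal to the module generated by `v₂` has a
copy `h'` in `M₁`.

PROOF. (1) For every word `W = X₁ X₂ .. X_r` (list of matrices) write `W^i` for the product of the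
`R_i X_t`.  Claim: `⟪v₁, W¹ v₁⟫ ‖v₂‖² = ⟪v₂, W² v₂⟫ ‖v₁‖²`.  By multilinearity the `X_t` are
elementary matrices `E_jk`.  Induction on the length `r`: first letter `E_jk`. If `j = k`:
`⟪v, E_jj W' v⟫ = ⟪E_jj v, W' v⟫ = conj μ_j ⟪v, W' v⟫`.
If `j ≠ k` and `E_kj` kills both `v`: the pairing is 0 on both sides (adjoint).
Otherwise `E_jk` kills both `v`: `E_jk W' v = [E_jk, W'] v`, a sum of words of length `r - 1`.
(2) Hence on the space `V` of pairs `(a¹ v₁, a² v₂)` in `M₁ × M₂` one has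
`⟪p₁, q₁⟫ ‖v₂‖² = ⟪p₂, q₂⟫ ‖v₁‖²`, so `V` is the graph of an injective linear map.
(3) `G₂ = {a² v₂}` is invariant under all `R₂ X` and so is its orthogonal complement; let `h₂` be
the orthogonal projection of `h` to `G₂`; `h₂ ≠ 0`, and `R₂ X h = c h` implies `R₂ X h₂ = c h₂`.
Take `h'` with `(h', h₂) ∈ V`.
-/

open Module Matrix

namespace Kost

noncomputable section

section Transfer

variable {J : Type*} [Fintype J] [DecidableEq J]
    {M₁ M₂ : Type*} [NormedAddCommGroup M₁] [InnerProductSpace ℂ M₁]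
    [NormedAddCommGroup M₂] [InnerProductSpace ℂ M₂]
    (R₁ : Matrix J J ℂ →ₗ[ℂ] Module.End ℂ M₁) (R₂ : Matrix J J ℂ →ₗ[ℂ] Module.End ℂ M₂)
    (v₁ : M₁) (v₂ : M₂)

/-- the pair `(W¹ v₁, W² v₂)` of a word `W` -/
def wrd : List (Matrix J J ℂ) → M₁ × M₂
  | [] => (v₁, v₂)
  | X :: W => (R₁ X (wrd W).1, R₂ X (wrd W).2)

/-- the space of pairs `(a¹ v₁, a² v₂)` -/
def wsp : Submodule ℂ (M₁ × M₂) := Submodule.span ℂ (Set.range (wrd R₁ R₂ v₁ v₂))

variable {R₁ R₂ v₁ v₂}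

theorem act_span (X : Matrix J J ℂ) {n : ℕ} {p : M₁ × M₂}
    (hp : p ∈ Submodule.span ℂ ((wrd R₁ R₂ v₁ v₂) '' {U | U.length = n})) :
    (R₁ X p.1, R₂ X p.2) ∈ Submodule.span ℂ ((wrd R₁ R₂ v₁ v₂) '' {U | U.length = n + 1}) := by
  induction hp using Submodule.span_induction with
  | mem x hx =>
    obtain ⟨U, hU, rfl⟩ := hx
    exact Submodule.subset_span ⟨X :: U, by simpa using hU, rfl⟩
  | zero =>
    have e : ((R₁ X (0 : M₁ × M₂).1, R₂ X (0 : M₁ × M₂).2) : M₁ × M₂) = 0 := by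
      simp
    rw [e]; exact Submodule.zero_mem _
  | add x y _ _ hx hy =>
    have h := Submodule.add_mem _ hx hy
    have e : ((R₁ X (x + y).1, R₂ X (x + y).2) : M₁ × M₂) =
        (R₁ X x.1, R₂ X x.2) + (R₁ X y.1, R₂ X y.2) := by
      simp
    rw [e]; exact h
  | smul c x _ hx =>
    have h := Submodule.smul_mem _ c hx
    have e : ((R₁ X (c • x).1, R₂ X (c • x).2) : M₁ × M₂) = c • (R₁ X x.1, R₂ X x.2) := by
      simp
    rw [e]; exact h

theorem act_wsp (X : Matrix J J ℂ) {p : M₁ × M₂} (hp : p ∈ wsp R₁ R₂ v₁ v₂) :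
    (R₁ X p.1, R₂ X p.2) ∈ wsp R₁ R₂ v₁ v₂ := by
  unfold wsp at hp ⊢
  induction hp using Submodule.span_induction with
  | mem x hx =>
    obtain ⟨U, rfl⟩ := hx
    exact Submodule.subset_span ⟨X :: U, rfl⟩
  | zero =>
    have e : ((R₁ X (0 : M₁ × M₂).1, R₂ X (0 : M₁ × M₂).2) : M₁ × M₂) = 0 := by
      simp
    rw [e]; exact Submodule.zero_mem _
  | add x y _ _ hx hy =>
    have h := Submodule.add_mem _ hx hy
    have e : ((R₁ X (x + y).1, R₂ X (x + y).2) : M₁ × M₂) =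
        (R₁ X x.1, R₂ X x.2) + (R₁ X y.1, R₂ X y.2) := by
      simp
    rw [e]; exact h
  | smul c x _ hx =>
    have h := Submodule.smul_mem _ c hx
    have e : ((R₁ X (c • x).1, R₂ X (c • x).2) : M₁ × M₂) = c • (R₁ X x.1, R₂ X x.2) := by
      simp
    rw [e]; exact h

theorem base_wsp : (v₁, v₂) ∈ wsp R₁ R₂ v₁ v₂ := Submodule.subset_span ⟨[], rfl⟩

/-- an operator killing the highest weight vectors does not increase the length of words -/
theorem kill_span (hl₁ : ∀ X Y, R₁ X * R₁ Y - R₁ Y * R₁ X = R₁ (X * Y - Y * X))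
    (hl₂ : ∀ X Y, R₂ X * R₂ Y - R₂ Y * R₂ X = R₂ (X * Y - Y * X))
    {X : Matrix J J ℂ} (h1 : R₁ X v₁ = 0) (h2 : R₂ X v₂ = 0) (W : List (Matrix J J ℂ)) :
    (R₁ X (wrd R₁ R₂ v₁ v₂ W).1, R₂ X (wrd R₁ R₂ v₁ v₂ W).2) ∈
      Submodule.span ℂ ((wrd R₁ R₂ v₁ v₂) '' {U | U.length = W.length}) := by
  induction W with
  | nil =>
    have : ((R₁ X (wrd R₁ R₂ v₁ v₂ []).1, R₂ X (wrd R₁ R₂ v₁ v₂ []).2) : M₁ × M₂) = 0 := by
      simp [wrd, h1, h2]
    rw [this]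
    exact Submodule.zero_mem _
  | cons Y W ih =>
    have h := act_span Y ih
    have h' : wrd R₁ R₂ v₁ v₂ ((X * Y - Y * X) :: W) ∈
        Submodule.span ℂ ((wrd R₁ R₂ v₁ v₂) '' {U | U.length = W.length + 1}) :=
      Submodule.subset_span ⟨_, by simp, rfl⟩
    have hs := Submodule.add_mem _ h h'
    have e1 : ∀ u : M₁, R₁ X (R₁ Y u) = R₁ Y (R₁ X u) + R₁ (X * Y - Y * X) u := by
      intro u
      have := LinearMap.congr_fun (hl₁ X Y) u
      simp only [LinearMap.sub_apply, Module.End.mul_apply] at this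
      rw [← this]; abel
    have e2 : ∀ u : M₂, R₂ X (R₂ Y u) = R₂ Y (R₂ X u) + R₂ (X * Y - Y * X) u := by
      intro u
      have := LinearMap.congr_fun (hl₂ X Y) u
      simp only [LinearMap.sub_apply, Module.End.mul_apply] at this
      rw [← this]; abel
    have e : ((R₁ X (wrd R₁ R₂ v₁ v₂ (Y :: W)).1, R₂ X (wrd R₁ R₂ v₁ v₂ (Y :: W)).2) :
        M₁ × M₂) =
        (R₁ Y (R₁ X (wrd R₁ R₂ v₁ v₂ W).1), R₂ Y (R₂ X (wrd R₁ R₂ v₁ v₂ W).2)) +
        wrd R₁ R₂ v₁ v₂ ((X * Y - Y * X) :: W) := by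
      simp only [wrd]
      rw [e1, e2]
      rfl
    rw [e]
    simpa using hs

theorem matrix_expand (X : Matrix J J ℂ) : X = ∑ j, ∑ k, X j k • EM j k := by
  conv_lhs => rw [Matrix.matrix_eq_sum_single X]
  refine Finset.sum_congr rfl fun j _ => Finset.sum_congr rfl fun k _ => ?_
  rw [Matrix.smul_single]
  simp

theorem EM_conjTranspose (j k : J) : (EM j k : Matrix J J ℂ)ᴴ = EM k j := by
  rw [EM, Matrix.conjTranspose_single]; simp

/-- pairing with the highest weight vectors -/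
theorem pair_base (hl₁ : ∀ X Y, R₁ X * R₁ Y - R₁ Y * R₁ X = R₁ (X * Y - Y * X))
    (hl₂ : ∀ X Y, R₂ X * R₂ Y - R₂ Y * R₂ X = R₂ (X * Y - Y * X))
    (ha₁ : ∀ X u v, inner ℂ (R₁ X u) v = inner ℂ u (R₁ Xᴴ v))
    (ha₂ : ∀ X u v, inner ℂ (R₂ X u) v = inner ℂ u (R₂ Xᴴ v))
    {μ : J → ℂ}
    (hd₁ : ∀ j, R₁ (EM j j) v₁ = μ j • v₁) (hd₂ : ∀ j, R₂ (EM j j) v₂ = μ j • v₂)
    (hup : ∀ j k, j ≠ k → (R₁ (EM j k) v₁ = 0 ∧ R₂ (EM j k) v₂ = 0) ∨
      (R₁ (EM k j) v₁ = 0 ∧ R₂ (EM k j) v₂ = 0)) (n : ℕ) :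
    ∀ W : List (Matrix J J ℂ), W.length = n →
      inner ℂ v₁ (wrd R₁ R₂ v₁ v₂ W).1 * (inner ℂ v₂ v₂ : ℂ) =
      inner ℂ v₂ (wrd R₁ R₂ v₁ v₂ W).2 * (inner ℂ v₁ v₁ : ℂ) := by
  have ha₁' : ∀ X u v, inner ℂ u (R₁ X v) = inner ℂ (R₁ Xᴴ u) v := by
    intro X u v
    rw [ha₁, Matrix.conjTranspose_conjTranspose]
  have ha₂' : ∀ X u v, inner ℂ u (R₂ X v) = inner ℂ (R₂ Xᴴ u) v := by
    intro X u v
    rw [ha₂, Matrix.conjTranspose_conjTranspose]
  induction n with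
  | zero =>
    intro W hW
    rw [List.length_eq_zero_iff] at hW
    subst hW
    simp only [wrd]
    ring
  | succ n ih =>
    intro W hW
    obtain ⟨X, W, rfl⟩ : ∃ X W', W = X :: W' := by
      cases W with
      | nil => simp at hW
      | cons X W => exact ⟨X, W, rfl⟩
    have hWn : W.length = n := by simpa using hW
    -- the property on the span of the words of length `n`
    have hspan : ∀ p ∈ Submodule.span ℂ ((wrd R₁ R₂ v₁ v₂) '' {U | U.length = W.length}),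
        inner ℂ v₁ p.1 * (inner ℂ v₂ v₂ : ℂ) = inner ℂ v₂ p.2 * (inner ℂ v₁ v₁ : ℂ) := by
      intro p hp
      induction hp using Submodule.span_induction with
      | mem x hx =>
        obtain ⟨U, hU, rfl⟩ := hx
        exact ih U (by rw [← hWn]; exact hU)
      | zero => simp
      | add x y _ _ hx hy =>
        simp only [Prod.fst_add, Prod.snd_add, inner_add_right, add_mul]
        rw [hx, hy]
      | smul c x _ hx =>
        simp only [Prod.smul_fst, Prod.smul_snd, inner_smul_right, mul_assoc]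
        rw [hx]
    -- elementary matrices
    have hE : ∀ j k, inner ℂ v₁ (R₁ (EM j k) (wrd R₁ R₂ v₁ v₂ W).1) * (inner ℂ v₂ v₂ : ℂ) =
        inner ℂ v₂ (R₂ (EM j k) (wrd R₁ R₂ v₁ v₂ W).2) * (inner ℂ v₁ v₁ : ℂ) := by
      intro j k
      by_cases hjk : j = k
      · subst hjk
        rw [ha₁', ha₂', EM_conjTranspose, hd₁, hd₂, inner_smul_left, inner_smul_left, mul_assoc,
          mul_assoc, ih W hWn]
      · rcases hup j k hjk with ⟨h1, h2⟩ | ⟨h1, h2⟩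
        · exact hspan _ (kill_span hl₁ hl₂ h1 h2 W)
        · rw [ha₁', ha₂', EM_conjTranspose, h1, h2]
          simp
    simp only [wrd]
    have hX := matrix_expand X
    rw [hX]
    simp only [map_sum, map_smul, LinearMap.sum_apply, LinearMap.smul_apply, inner_sum,
      inner_smul_right, Finset.sum_mul, mul_assoc]
    refine Finset.sum_congr rfl fun j _ => Finset.sum_congr rfl fun k _ => ?_
    rw [hE]

theorem pair_wsp (hl₁ : ∀ X Y, R₁ X * R₁ Y - R₁ Y * R₁ X = R₁ (X * Y - Y * X))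
    (hl₂ : ∀ X Y, R₂ X * R₂ Y - R₂ Y * R₂ X = R₂ (X * Y - Y * X))
    (ha₁ : ∀ X u v, inner ℂ (R₁ X u) v = inner ℂ u (R₁ Xᴴ v))
    (ha₂ : ∀ X u v, inner ℂ (R₂ X u) v = inner ℂ u (R₂ Xᴴ v))
    {μ : J → ℂ}
    (hd₁ : ∀ j, R₁ (EM j j) v₁ = μ j • v₁) (hd₂ : ∀ j, R₂ (EM j j) v₂ = μ j • v₂)
    (hup : ∀ j k, j ≠ k → (R₁ (EM j k) v₁ = 0 ∧ R₂ (EM j k) v₂ = 0) ∨
      (R₁ (EM k j) v₁ = 0 ∧ R₂ (EM k j) v₂ = 0)) {p : M₁ × M₂}
    (hp : p ∈ wsp R₁ R₂ v₁ v₂) : ∀ q ∈ wsp R₁ R₂ v₁ v₂,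
      inner ℂ p.1 q.1 * (inner ℂ v₂ v₂ : ℂ) = inner ℂ p.2 q.2 * (inner ℂ v₁ v₁ : ℂ) := by
  have hbase : ∀ q ∈ wsp R₁ R₂ v₁ v₂,
      inner ℂ v₁ q.1 * (inner ℂ v₂ v₂ : ℂ) = inner ℂ v₂ q.2 * (inner ℂ v₁ v₁ : ℂ) := by
    intro q hq
    unfold wsp at hq
    induction hq using Submodule.span_induction with
    | mem x hx =>
      obtain ⟨U, rfl⟩ := hx
      exact pair_base hl₁ hl₂ ha₁ ha₂ hd₁ hd₂ hup _ U rfl
    | zero => simp
    | add x y _ _ hx hy =>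
      simp only [Prod.fst_add, Prod.snd_add, inner_add_right, add_mul]
      rw [hx, hy]
    | smul c x _ hx =>
      simp only [Prod.smul_fst, Prod.smul_snd, inner_smul_right, mul_assoc]
      rw [hx]
  have hw : ∀ (U : List (Matrix J J ℂ)), ∀ q ∈ wsp R₁ R₂ v₁ v₂,
      inner ℂ (wrd R₁ R₂ v₁ v₂ U).1 q.1 * (inner ℂ v₂ v₂ : ℂ) =
      inner ℂ (wrd R₁ R₂ v₁ v₂ U).2 q.2 * (inner ℂ v₁ v₁ : ℂ) := by
    intro U
    induction U with
    | nil => exact hbase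
    | cons X U ih =>
      intro q hq
      simp only [wrd]
      rw [ha₁, ha₂]
      exact ih _ (act_wsp Xᴴ hq)
  intro q hq
  unfold wsp at hp
  induction hp using Submodule.span_induction with
  | mem x hx =>
    obtain ⟨U, rfl⟩ := hx
    exact hw U q hq
  | zero => simp
  | add x y _ _ hx hy =>
    simp only [Prod.fst_add, Prod.snd_add, inner_add_left, add_mul]
    rw [hx, hy]
  | smul c x _ hx =>
    simp only [Prod.smul_fst, Prod.smul_snd, inner_smul_left, mul_assoc]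
    rw [hx]

end Transfer

theorem transfer {J : Type*} [Fintype J] [DecidableEq J]
    {M₁ M₂ : Type*} [NormedAddCommGroup M₁] [InnerProductSpace ℂ M₁] [FiniteDimensional ℂ M₁]
    [NormedAddCommGroup M₂] [InnerProductSpace ℂ M₂] [FiniteDimensional ℂ M₂]
    (R₁ : Matrix J J ℂ →ₗ[ℂ] Module.End ℂ M₁) (R₂ : Matrix J J ℂ →ₗ[ℂ] Module.End ℂ M₂)
    (hl₁ : ∀ X Y, R₁ X * R₁ Y - R₁ Y * R₁ X = R₁ (X * Y - Y * X))
    (hl₂ : ∀ X Y, R₂ X * R₂ Y - R₂ Y * R₂ X = R₂ (X * Y - Y * X))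
    (ha₁ : ∀ X u v, inner ℂ (R₁ X u) v = inner ℂ u (R₁ Xᴴ v))
    (ha₂ : ∀ X u v, inner ℂ (R₂ X u) v = inner ℂ u (R₂ Xᴴ v))
    {v₁ : M₁} {v₂ : M₂} (h₁ : v₁ ≠ 0) (h₂ : v₂ ≠ 0) {μ : J → ℂ}
    (hd₁ : ∀ j, R₁ (EM j j) v₁ = μ j • v₁) (hd₂ : ∀ j, R₂ (EM j j) v₂ = μ j • v₂)
    (hup : ∀ j k, j ≠ k → (R₁ (EM j k) v₁ = 0 ∧ R₂ (EM j k) v₂ = 0) ∨
      (R₁ (EM k j) v₁ = 0 ∧ R₂ (EM k j) v₂ = 0))
    {h : M₂} {a : Module.End ℂ M₂} (ha : a ∈ Algebra.adjoin ℂ (Set.range R₂))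
    (hne : inner ℂ h (a v₂) ≠ 0) :
    ∃ h' : M₁, h' ≠ 0 ∧ ∀ (X : Matrix J J ℂ) (c : ℂ), R₂ X h = c • h → R₁ X h' = c • h' := by
  have hpair := fun {p} (hp : p ∈ wsp R₁ R₂ v₁ v₂) =>
    pair_wsp hl₁ hl₂ ha₁ ha₂ hd₁ hd₂ hup hp
  have hn1 : (inner ℂ v₁ v₁ : ℂ) ≠ 0 := inner_self_ne_zero.mpr h₁
  have hn2 : (inner ℂ v₂ v₂ : ℂ) ≠ 0 := inner_self_ne_zero.mpr h₂
  -- the two kernels
  have hz2 : ∀ p ∈ wsp R₁ R₂ v₁ v₂, p.2 = 0 → p.1 = 0 := by
    intro p hp h0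
    have := hpair hp p hp
    rw [h0, inner_zero_left, zero_mul] at this
    rcases mul_eq_zero.mp this with h | h
    · exact inner_self_eq_zero.mp h
    · exact absurd h hn2
  have hz1 : ∀ p ∈ wsp R₁ R₂ v₁ v₂, p.1 = 0 → p.2 = 0 := by
    intro p hp h0
    have := hpair hp p hp
    rw [h0, inner_zero_left, zero_mul] at this
    rcases mul_eq_zero.mp this.symm with h | h
    · exact inner_self_eq_zero.mp h
    · exact absurd h hn1
  -- the cyclic module of `v₂`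
  set G : Submodule ℂ M₂ := (wsp R₁ R₂ v₁ v₂).map (LinearMap.snd ℂ M₁ M₂) with hG
  have hGinv : ∀ (X : Matrix J J ℂ) (g : M₂), g ∈ G → R₂ X g ∈ G := by
    intro X g hg
    obtain ⟨p, hp, rfl⟩ := hg
    exact ⟨_, act_wsp X hp, rfl⟩
  have hv₂ : v₂ ∈ G := ⟨(v₁, v₂), base_wsp, rfl⟩
  have haG' : ∀ b ∈ Algebra.adjoin ℂ (Set.range R₂), ∀ g ∈ G, b g ∈ G := by
    intro b hb
    induction hb using Algebra.adjoin_induction with
    | mem x hx =>
      obtain ⟨X, rfl⟩ := hx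
      exact hGinv X
    | algebraMap r =>
      intro g hg
      rw [Module.algebraMap_end_apply]
      exact G.smul_mem r hg
    | add x y _ _ hx hy =>
      intro g hg
      rw [LinearMap.add_apply]
      exact G.add_mem (hx g hg) (hy g hg)
    | mul x y _ _ hx hy =>
      intro g hg
      rw [Module.End.mul_apply]
      exact hx _ (hy g hg)
  have haG : ∀ g ∈ G, a g ∈ G := haG' a ha
  obtain ⟨y, hy, z, hz, hyz⟩ := G.exists_add_mem_mem_orthogonal h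
  have hzinv : ∀ X : Matrix J J ℂ, R₂ X z ∈ Gᗮ := by
    intro X
    rw [Submodule.mem_orthogonal]
    intro u hu
    have := ha₂ Xᴴ u z
    rw [Matrix.conjTranspose_conjTranspose] at this
    rw [← this]
    exact (Submodule.mem_orthogonal G z).mp hz _ (hGinv Xᴴ u hu)
  have hy0 : y ≠ 0 := by
    intro h0
    apply hne
    rw [hyz, h0, zero_add]
    exact (Submodule.mem_orthogonal' G z).mp hz _ (haG v₂ hv₂)
  obtain ⟨p, hp, hpy⟩ := hy
  have hpy' : p.2 = y := hpy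
  refine ⟨p.1, fun h0 => hy0 (by rw [← hpy']; exact hz1 p hp h0), ?_⟩
  intro X c hXc
  have hy' : y ∈ G := ⟨p, hp, hpy⟩
  have h3 : R₂ X y - c • y = 0 := by
    have hmem : R₂ X y - c • y ∈ G := G.sub_mem (hGinv X y hy') (G.smul_mem c hy')
    have heq : R₂ X y - c • y = c • z - R₂ X z := by
      rw [hyz, map_add, smul_add] at hXc
      have := sub_eq_zero.mpr hXc
      rw [← sub_eq_zero]
      rw [← this]; abel
    have hmem' : R₂ X y - c • y ∈ Gᗮ := by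
      rw [heq]; exact Gᗮ.sub_mem (Gᗮ.smul_mem c hz) (hzinv X)
    exact (Submodule.mem_orthogonal G _).mp hmem' _ hmem |> inner_self_eq_zero.mp
  have hq : (R₁ X p.1 - c • p.1, R₂ X p.2 - c • p.2) ∈ wsp R₁ R₂ v₁ v₂ := by
    have := Submodule.sub_mem _ (act_wsp X hp) (Submodule.smul_mem _ c hp)
    exact this
  have h4 := hz2 _ hq (by show R₂ X p.2 - c • p.2 = 0; rw [hpy']; exact h3)
  exact sub_eq_zero.mp h4

end

end Kost
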